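import Mathlib

/-! The band between two functions, in coordinates. -/

namespace Pool.Agent.Lib.MP_1a1eb7_lc

/-- `(g,h)` over `A` -/
def band {n : ℕ} (A : Set (Fin n → ℝ)) (g h : (Fin n → ℝ) → ℝ) : Set (Fin (n + 1) → ℝ) :=
  {z | Fin.init z ∈ A ∧ g (Fin.init z) < z (Fin.last n) ∧ z (Fin.last n) < h (Fin.init z)}

theorem snoc_mem_band {n : ℕ} {A : Set (Fin n → ℝ)} {g h : (Fin n → ℝ) → ℝ} {x : Fin n → ℝ}
    {t : ℝ} : (Fin.snoc x t : Fin (n + 1) → ℝ) ∈ band A g h ↔ x ∈ A ∧ g x < t ∧ t < h x := by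
  simp [band]

end Pool.Agent.Lib.MP_1a1eb7_lc
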