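import Pool.Agent.Shared.OMin.Def

/-! Basic analytic notions: integrability, constant sign, bands, data for a leaf. -/

open Set Filter Topology

namespace Pool.Agent.Lib.MP_1a1eb7_lc

variable {E : Type} [NormedAddCommGroup E] [NormedSpace ℝ E] [FiniteDimensional ℝ E]

/-- Frobenius integrability of `dw = F(x,w) dx` at a point. -/
def Integ (F : E × ℝ → E →L[ℝ] ℝ) (p : E × ℝ) : Prop :=
  ∀ u v : E, fderiv ℝ F p (u, F p u) v = fderiv ℝ F p (v, F p v) u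

/-- constant sign on a set -/
def Tri {X : Type} (φ : X → ℝ) (s : Set X) : Prop :=
  (∀ p ∈ s, 0 < φ p) ∨ (∀ p ∈ s, φ p = 0) ∨ (∀ p ∈ s, φ p < 0)

/-- the band between two functions -/
def bnd (V : Set E) (lo hi : E → ℝ) : Set (E × ℝ) := {p | p.1 ∈ V ∧ lo p.1 < p.2 ∧ p.2 < hi p.1}

structure LeafData (V : Set E) (lo hi : E → ℝ) (g h g' h' : E × ℝ → ℝ)
    (F : (E × ℝ) × ℝ → (E × ℝ) →L[ℝ] ℝ) : Prop where
  openV : IsOpen V
  clo : ContinuousOn lo V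
  chi : ContinuousOn hi V
  ag : AnalyticOnNhd ℝ g (bnd V lo hi)
  ah : AnalyticOnNhd ℝ h (bnd V lo hi)
  cg' : ContinuousOn g' (bnd V lo hi)
  ch' : ContinuousOn h' (bnd V lo hi)
  lt : ∀ x ∈ bnd V lo hi, g x < g' x ∧ h' x < h x ∧ g x < h x
  aF : AnalyticOnNhd ℝ F (bnd (bnd V lo hi) g h)
  int : ∀ p ∈ bnd (bnd V lo hi) g h, Integ F p
  top : Tri (fun p => fderiv ℝ h p.1 (0, 1) - F p (0, 1))
    {p | p ∈ bnd (bnd V lo hi) g h ∧ h' p.1 < p.2}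
  bot : Tri (fun p => fderiv ℝ g p.1 (0, 1) - F p (0, 1))
    {p | p ∈ bnd (bnd V lo hi) g h ∧ p.2 < g' p.1}

end Pool.Agent.Lib.MP_1a1eb7_lc
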