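import Pool.Agent.Shared.OMin.TDefs
import Pool.Agent.Lib.MP_1a1eb7_lc.FDefs
import Pool.Agent.Lib.MP_1a1eb7_lc.Band

/-! Core definitions: presentations, towers, contexts, the statements `Main` and `LIM`. -/

namespace Pool.Agent.Lib.MP_1a1eb7_lc

open Set Filter Topology Pool.Agent.Shared.OMin
open Ordinal (omega0)

abbrev Fld : Type := IntermediateField ℝ U

abbrev Fn (n : ℕ) : Type := (Fin n → ℝ) → ℝ

/-- An abstract class of bounded open cells and functions with the closure rules we use. -/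
structure Sys where
  Cell : ∀ n, Set (Fin n → ℝ) → Prop
  Pf : ∀ n, Set (Fin n → ℝ) → Fn n → Prop
  zero : Cell 0 univ
  band : ∀ {n A g h}, Cell n A → Pf n A g → Pf n A h → (∀ x ∈ A, g x < h x) →
    ((∀ x ∈ A, g x = -1) ∨ ∀ x ∈ A, -1 < g x) → ((∀ x ∈ A, h x = 1) ∨ ∀ x ∈ A, h x < 1) →
    Cell (n + 1) (band A g h)
  const : ∀ {n A} (c : ℝ), Cell n A → Pf n A fun _ => c
  coord : ∀ {n A} (i : Fin n), Cell n A → Pf n A fun x => x i
  add : ∀ {n A f g}, Pf n A f → Pf n A g → Pf n A fun x => f x + g x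
  mul : ∀ {n A f g}, Pf n A f → Pf n A g → Pf n A fun x => f x * g x
  congr : ∀ {n A f g}, Pf n A f → EqOn g f A → Pf n A g
  alg : ∀ {n A g} (d : ℕ) (c : ℕ → Fn n), Cell n A → (∀ i, Pf n A (c i)) → AnalyticOnNhd ℝ g A →
    (∀ x ∈ A, ∑ i ∈ Finset.range (d + 1), c i x * g x ^ i = 0) → (∀ x ∈ A, c d x ≠ 0) →
    (∀ x ∈ A, ∑ i ∈ Finset.range (d + 1), i * c i x * g x ^ (i - 1) ≠ 0) → Pf n A g
  lift : ∀ {n A B f}, Pf n A f → Cell (n + 1) B → (∀ z ∈ B, Fin.init z ∈ A) →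
    Pf (n + 1) B fun z => f (Fin.init z)
  comp : ∀ {n A B f F}, Pf n A f → Pf (n + 1) B F → (∀ x ∈ A, Fin.snoc x (f x) ∈ B) →
    Pf n A fun x => F (Fin.snoc x (f x))
  ode : ∀ {n A B f} (F : ℕ → Fn (n + 1)), Cell n A → Cell (n + 1) B → AnalyticOnNhd ℝ f A →
    (∀ i < n, Pf (n + 1) B (F i)) → (∀ x ∈ A, Fin.snoc x (f x) ∈ B) →
    (∀ x ∈ A, ∀ i < n, pdv f i x = F i (Fin.snoc x (f x))) → Pf n A f

variable (S : OStr)

/-- `Pres S P n E₀ E α`: at the point `P` (first `n` entries) the field `E` is obtained from `E₀`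
by a tree of limit steps of rank at most `α`. -/
inductive Pres : (ℕ → U) → ℕ → Fld → Fld → Ordinal.{0} → Prop
  | nil {P n E α} : Pres P n E E α
  | cons {P n E₀ E₁ E' E₂ α' β α f w} : Pres P n E₀ E₁ α' → f ∈ E₂ → w ≠ f →
      Inf (dcl S P n) (w - f) → |w| < 1 → Pres (upd P n w) (n + 1) (adj E₁ w) E' β →
      DFld S P n E₂ → E₁ ≤ E₂ → E₂ ≤ stF (dcl S P n) E' → α' + omega0 ^ (β + 1) ≤ α →
      Pres P n E₀ E₂ α

/-- the starting field at level `k` -/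
noncomputable def base (P : ℕ → U) (E : ℕ → Fld) : ℕ → Fld
  | 0 => ⊥
  | k + 1 => adj (E k) (P k)

/-- a tower of presented fields at a generic point of height `n`, ranks below `θ` -/
structure Tow (θ : ℕ → Ordinal.{0}) (P : ℕ → U) (n : ℕ) (E : ℕ → Fld) : Prop where
  gen : Gen S P n
  bd : ∀ i < n, |P i| < 1
  pres : ∀ k ≤ n, ∃ α < θ k, Pres S P k (base P E k) (E k) α

/-- levelwise extension -/
def Ext (E E' : ℕ → Fld) (n : ℕ) : Prop := ∀ k ≤ n, E k ≤ E' k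

/-- closed sequence of bounds, from level `n` on -/
def CloFrom (n : ℕ) (θ : ℕ → Ordinal.{0}) : Prop :=
  ∀ k, n ≤ k → ∀ a < θ k, a + omega0 ^ θ (k + 1) ≤ θ k

/-- closed sequence of bounds -/
def Clo (θ : ℕ → Ordinal.{0}) : Prop := CloFrom 0 θ

/-- delete the entry `n + 1` -/
def skip (θ : ℕ → Ordinal.{0}) (n : ℕ) : ℕ → Ordinal.{0} :=
  fun k => if k ≤ n then θ k else θ (k + 1)

/-- cell ends and finite sets of functions at each level -/
structure Ctx where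
  lo : ∀ k, Fn k
  hi : ∀ k, Fn k
  gens : ∀ k, Set (Fn k)

def Ctx.cell (c : Ctx) : ∀ k, Set (Fin k → ℝ)
  | 0 => univ
  | k + 1 => band (c.cell k) (c.lo k) (c.hi k)

/-- the point lies in the cell of level `k` -/
def Ctx.Has (c : Ctx) (k : ℕ) (y : ℕ → U) : Prop := At (fun x => x ∈ c.cell k) y

/-- the values of the level `k` functions lie in `E` -/
def Ctx.Vals (c : Ctx) (k : ℕ) (y : ℕ → U) (E : Fld) : Prop := ∀ φ ∈ c.gens k, ev φ y ∈ E

/-- the level `k` functions are presented with rank `α` at every point of the cell -/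
def SChain (c : Ctx) (k : ℕ) (α : Ordinal.{0}) : Prop :=
  ∀ (P : ℕ → U) (m : ℕ) (y : ℕ → U) (E : Fld), Gen S P m → DFld S P m E → (∀ i < k, y i ∈ E) →
    c.Has k y → (∀ j < k, c.Vals j y E) → ∃ E', Pres S P m E E' α ∧ c.Vals k y E'

/-- semantic validity of a context up to level `n` -/
structure Sem (θ : ℕ → Ordinal.{0}) (c : Ctx) (n : ℕ) : Prop where
  fin : ∀ k ≤ n, (c.gens k).Finite
  df : ∀ k ≤ n, ∀ φ ∈ c.gens k, DF S φ
  an : ∀ k ≤ n, ∀ φ ∈ c.gens k, AnalyticOnNhd ℝ φ (c.cell k)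
  lo_mem : ∀ k < n, c.lo k ∈ c.gens k
  hi_mem : ∀ k < n, c.hi k ∈ c.gens k
  lt : ∀ k < n, ∀ x ∈ c.cell k, -1 ≤ c.lo k x ∧ c.lo k x < c.hi k x ∧ c.hi k x ≤ 1
  chain : ∀ k ≤ n, ∃ α < θ k, SChain S c k α

/-- the cells and functions belong to the class -/
def Full (Γ : Sys) (c : Ctx) (n : ℕ) : Prop :=
  ∀ k ≤ n, Γ.Cell k (c.cell k) ∧ ∀ φ ∈ c.gens k, Γ.Pf k (c.cell k) φ

/-- a tower at a point of the context -/
structure Pt (θ : ℕ → Ordinal.{0}) (c : Ctx) (P : ℕ → U) (n : ℕ) (E : ℕ → Fld) : Prop where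
  tow : Tow S θ P n E
  has : c.Has n P
  vals : ∀ k ≤ n, c.Vals k P (E k)

/-- smaller cells, more functions -/
def Ctx.Le (c' c : Ctx) (n : ℕ) : Prop :=
  ∀ k ≤ n, c'.cell k ⊆ c.cell k ∧ c.gens k ⊆ c'.gens k

/-- `e` is the value of a function of the context -/
def Ctx.Rep (c : Ctx) (k : ℕ) (P : ℕ → U) (e : U) : Prop := ∃ φ ∈ c.gens k, ev φ P = e

/-- every definable analytic function with value `e` has constant sign on the cell -/
def Sg (c : Ctx) (k : ℕ) (P : ℕ → U) (e : U) : Prop :=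
  ∀ χ : Fn k, DF S χ → AnalyticOnNhd ℝ χ (c.cell k) → ev χ P = e → Tri χ (c.cell k)

/-- finite requests in a tower -/
def Req (R : ℕ → Set U) (E : ℕ → Fld) (n : ℕ) : Prop := ∀ k ≤ n, (R k).Finite ∧ R k ⊆ E k

def Main (Γ : Sys) (θ : ℕ → Ordinal.{0}) : Prop :=
  ∀ (n : ℕ) (P : ℕ → U) (E : ℕ → Fld) (R : ℕ → Set U), Tow S θ P n E → Req R E n →
    ∃ (c : Ctx) (E' : ℕ → Fld), Sem S θ c n ∧ Full Γ c n ∧ Pt S θ c P n E' ∧ Ext E E' n ∧
      ∀ k ≤ n, ∀ e ∈ R k, c.Rep k P e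

/-- there is a tower of height `r` at a point of `N` with the same first `n` entries as `P`,
extending `E` up to level `n`, whose top field contains `R` -/
def Out (θ : ℕ → Ordinal.{0}) (n : ℕ) (P : ℕ → U) (E : ℕ → Fld) (N : Fld) (r : ℕ) (R : Set U) :
    Prop :=
  ∃ (Q : ℕ → U) (E' : ℕ → Fld), Agree Q P n ∧ Tow S θ Q r E' ∧ (∀ i < r, Q i ∈ N) ∧ Ext E E' n ∧
    R ⊆ E' r

def LIM (θ : ℕ → Ordinal.{0}) : Prop :=
  ∀ (n r : ℕ) (P : ℕ → U) (E : ℕ → Fld) (Z : ℕ → U) (ρ : U) (R : Set U), n ≤ r →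
    Tow S θ P (r + 1) E → Gen S Z r → Agree Z P n → (∀ i < r, Z i ∈ E (r + 1)) → ρ ∈ E n →
    Inf (dcl S Z r) (P n - ρ) → R.Finite → R ⊆ stF (dcl S Z r) (E (r + 1)) →
    Out S (skip θ n) n P E (dcl S Z r) r R

def Good (Γ : Sys) (θ : ℕ → Ordinal.{0}) : Prop := Main S Γ θ ∧ LIM S θ

/-- the induction hypothesis -/
def Below (Γ : Sys) (θ : ℕ → Ordinal.{0}) : Prop := ∀ τ, Clo τ → τ 0 < θ 0 → Good S Γ τ

/-- keep the levels up to `n`, put the band `(lo,hi)` with functions `T` on top -/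
noncomputable def Ctx.setTop (c : Ctx) (n : ℕ) (lo hi : Fn n) (T : Set (Fn (n + 1))) : Ctx where
  lo := Function.update c.lo n lo
  hi := Function.update c.hi n hi
  gens := Function.update c.gens (n + 1) T

/-- the one-form `∑ F i dx i` -/
noncomputable def formOf {n : ℕ} (F : ℕ → Fn (n + 1)) (p : (Fin n → ℝ) × ℝ) :
    (Fin n → ℝ) →L[ℝ] ℝ :=
  ∑ i : Fin n, F i (Fin.snoc p.1 p.2) • ContinuousLinearMap.proj (R := ℝ) (φ := fun _ => ℝ) i

/-- a definable separating leaf in the band `(g,h)` over `A` -/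
structure Sep {n : ℕ} (A : Set (Fin n → ℝ)) (g h : Fn n) (F : ℕ → Fn (n + 1))
    (D : Set (Fin n → ℝ)) (f : Fn n) (Bp Bm : Set ((Fin n → ℝ) × ℝ)) : Prop where
  rolle : RolleGraph (bnd A g h) (formOf F) D f Bp Bm
  dD : DP S fun x => x ∈ D
  df : DF S f
  above : ∀ x ∈ D, ∀ w, (x, w) ∈ bnd A g h → (f x < w → (x, w) ∈ Bp) ∧ (w < f x → (x, w) ∈ Bm)
  off : ∀ x ∈ A, x ∉ D → (∀ w, (x, w) ∈ bnd A g h → (x, w) ∈ Bp) ∨
    ∀ w, (x, w) ∈ bnd A g h → (x, w) ∈ Bm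

/-- near each of its points the set contains a closed orthant -/
def Fat {n : ℕ} (X : Set (Fin n → ℝ)) : Prop :=
  ∀ x ∈ X, ∃ ν : Fin n → ℝ, (∀ i, ν i = 1 ∨ ν i = -1) ∧
    ∀ᶠ u in 𝓝 x, (∀ i, 0 ≤ ν i * (u i - x i)) → u ∈ X

/-- below `c`, every generic point of `X` has a context whose cell is inside `X` -/
def Inside (θ : ℕ → Ordinal.{0}) (c : Ctx) (n : ℕ) (X : Set (Fin n → ℝ)) : Prop :=
  ∀ (c' : Ctx) (P : ℕ → U) (E : ℕ → Fld), Sem S θ c' n → c'.Le c n → Pt S θ c' P n E →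
    At (fun x => x ∈ X) P → ∃ (c'' : Ctx) (E' : ℕ → Fld), Sem S θ c'' n ∧ Pt S θ c'' P n E' ∧
      Ext E E' n ∧ c''.Le c' n ∧ c''.cell n ⊆ X

/-- Jacobian matrix of `(ψ 0, .., ψ h)` -/
noncomputable def jacM {h : ℕ} (ψ : ℕ → Fn (h + 1)) (q : Fin (h + 1) → ℝ) :
    Matrix (Fin (h + 1)) (Fin (h + 1)) ℝ := Matrix.of fun i j => pdv (ψ i) j q

/-- derivative with respect to `ψ h` in the coordinates `ψ` -/
noncomputable def dirD {h : ℕ} (ψ : ℕ → Fn (h + 1)) (G : Fn (h + 1)) : Fn (h + 1) :=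
  fun q => ∑ j : Fin (h + 1), pdv G j q * (jacM ψ q)⁻¹ j (Fin.last h)

/-- `e` can be presented over every differential field containing the coordinates -/
def Able (P : ℕ → U) (d : ℕ) (e : U) : Prop :=
  ∀ E, DFld S P d E → (∀ i < d, P i ∈ E) → ∃ E' α, Pres S P d E E' α ∧ e ∈ E'

/-- cells of valid contexts at `P` -/
def St (Γ : Sys) (P : ℕ → U) (d : ℕ) (C : Set (Fin d → ℝ)) : Prop :=
  ∃ θ c E, Clo θ ∧ Sem S θ c d ∧ Full Γ c d ∧ Pt S θ c P d E ∧ C = c.cell d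

end Pool.Agent.Lib.MP_1a1eb7_lc
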