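import Pool.Agent.Lib.MP_1a1eb7_lc.FDefs

/-! Maximal lifting of a segment through a local diffeomorphism, and simple roots. -/

open Set Filter Topology

namespace Pool.Agent.Lib.MP_1a1eb7_lc

variable {E β : Type} [NormedAddCommGroup E] [NormedSpace ℝ E] [FiniteDimensional ℝ E]
  [NormedAddCommGroup β] [NormedSpace ℝ β] [FiniteDimensional ℝ β]

namespace Curve

/-- `φ` lifts the vertical segment over `c`. -/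
def Lift (B : Set E) (Ψ : E → β × ℝ) (c : β) (φ : ℝ → E) (s₁ s₂ : ℝ) : Prop :=
  ∀ σ ∈ Ioo s₁ s₂, ContinuousAt φ σ ∧ φ σ ∈ B ∧ Ψ (φ σ) = (c, σ)

/-- Local inverses exist. -/
def Loc (B : Set E) (Ψ : E → β × ℝ) : Prop :=
  ∀ q ∈ B, ContinuousAt Ψ q ∧ ∃ g : β × ℝ → E, HasFDerivAt g (fderiv ℝ Ψ q).inverse (Ψ q) ∧
    (∀ᶠ x in 𝓝 q, g (Ψ x) = x) ∧ ∀ᶠ y in 𝓝 (Ψ q), ContinuousAt g y ∧ g y ∈ B ∧ Ψ (g y) = y

variable {B : Set E} {Ψ : E → β × ℝ} {c : β} {φ ψ : ℝ → E} {s₁ s₂ t₁ t₂ : ℝ}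

omit [FiniteDimensional ℝ β] in
theorem loc (hB : IsOpen B) (hΨ : ContDiffOn ℝ 1 Ψ B)
    (hinv : ∀ p ∈ B, (fderiv ℝ Ψ p).IsInvertible) : Loc B Ψ := by
  intro q hq
  have := FiniteDimensional.complete ℝ E
  have h1 := hΨ.contDiffAt (hB.mem_nhds hq)
  obtain ⟨A, hA⟩ := hinv q hq
  have h2 := h1.hasStrictFDerivAt one_ne_zero
  rw [← hA] at h2 ⊢
  refine ⟨h1.continuousAt, h2.localInverse Ψ A q, ?_, h2.eventually_left_inverse, ?_⟩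
  · rw [ContinuousLinearMap.inverse_equiv]
    exact h2.to_localInverse.hasFDerivAt
  · filter_upwards [h2.eventually_right_inverse,
      h2.localInverse_tendsto.eventually (hB.mem_nhds hq),
      (h2.toOpenPartialHomeomorph Ψ).open_target.mem_nhds
        h2.image_mem_toOpenPartialHomeomorph_target] with y a1 a2 a3
    exact ⟨(h2.toOpenPartialHomeomorph Ψ).continuousAt_symm a3, a2, a1⟩

omit [FiniteDimensional ℝ E] [FiniteDimensional ℝ β]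

theorem Lift.uniq (H : Loc B Ψ) (h : Lift B Ψ c φ s₁ s₂) (h' : Lift B Ψ c ψ t₁ t₂) {σ τ : ℝ}
    (a1 : σ ∈ Ioo s₁ s₂) (a2 : σ ∈ Ioo t₁ t₂) (e : φ σ = ψ σ) (b1 : τ ∈ Ioo s₁ s₂)
    (b2 : τ ∈ Ioo t₁ t₂) : φ τ = ψ τ := by
  refine ((ordConnected_Ioo.inter ordConnected_Ioo).isPreconnected.induction₂
    (fun x y => φ x = ψ x ↔ φ y = ψ y) (fun x hx => ?_) (fun _ _ _ _ _ _ => Iff.trans)
    (fun _ _ _ _ => Iff.symm) ⟨a1, a2⟩ ⟨b1, b2⟩).1 e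
  have h1 := (h x hx.1).1
  have h2 := (h' x hx.2).1
  by_cases hx' : φ x = ψ x
  · obtain ⟨-, g, -, hg, -⟩ := H _ (h x hx.1).2.1
    filter_upwards [nhdsWithin_le_nhds (h1.eventually hg),
      nhdsWithin_le_nhds (h2.eventually (hx' ▸ hg)), self_mem_nhdsWithin] with y a1 a2 a3
    refine iff_of_true hx' ?_
    rw [← a1, ← a2, (h y a3.1).2.2, (h' y a3.2).2.2]
  · filter_upwards [nhdsWithin_le_nhds ((h1.sub h2).eventually_ne (sub_ne_zero.2 hx'))] with y hy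
    exact iff_of_false hx' (sub_ne_zero.1 hy)

theorem Lift.near (H : Loc B Ψ) {q : E} (hq : q ∈ B) :
    ∃ φ s₁ s₂, (Ψ q).2 ∈ Ioo s₁ s₂ ∧ Lift B Ψ (Ψ q).1 φ s₁ s₂ ∧
      ∀ᶠ x in 𝓝 q, (Ψ x).1 = (Ψ q).1 → φ (Ψ x).2 = x := by
  obtain ⟨-, g, -, h1, h2⟩ := H q hq
  have hc : ∀ σ : ℝ, ContinuousAt (fun σ : ℝ => ((Ψ q).1, σ)) σ := fun σ => by fun_prop
  obtain ⟨s₁, s₂, h3, h4⟩ := mem_nhds_iff_exists_Ioo_subset.1 ((hc (Ψ q).2).eventually h2)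
  refine ⟨fun σ => g ((Ψ q).1, σ), s₁, s₂, h3, fun σ hσ =>
    ⟨ContinuousAt.comp (g := g) (h4 hσ).1 (hc σ), (h4 hσ).2⟩, ?_⟩
  filter_upwards [h1] with x hx e
  rw [← e]
  exact hx

theorem Lift.glue (H : Loc B Ψ) (h : Lift B Ψ c φ s₁ s₂) (h' : Lift B Ψ c ψ t₁ t₂) {σ : ℝ}
    (a1 : σ ∈ Ioo s₁ s₂) (a2 : σ ∈ Ioo t₁ t₂) (e : φ σ = ψ σ) :
    ∃ χ, Lift B Ψ c χ (min s₁ t₁) (max s₂ t₂) ∧ ∀ τ ∈ Ioo t₁ t₂, χ τ = ψ τ := by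
  classical
  refine ⟨fun τ => if τ ∈ Ioo t₁ t₂ then ψ τ else φ τ, fun τ hτ => ?_, fun τ hτ => if_pos hτ⟩
  by_cases b2 : τ ∈ Ioo t₁ t₂
  · simp only [if_pos b2]
    refine ⟨(h' τ b2).1.congr ?_, (h' τ b2).2⟩
    filter_upwards [isOpen_Ioo.mem_nhds b2] with y hy using (if_pos hy).symm
  · have b1 : τ ∈ Ioo s₁ s₂ := by
      simp only [mem_Ioo, min_lt_iff, lt_max_iff] at *
      grind
    simp only [if_neg b2]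
    refine ⟨(h τ b1).1.congr ?_, (h τ b1).2⟩
    filter_upwards [isOpen_Ioo.mem_nhds b1] with y hy
    split_ifs with hy'
    · exact h.uniq H h' a1 a2 e hy hy'
    · rfl

theorem Lift.deriv (H : Loc B Ψ) (h : Lift B Ψ c φ s₁ s₂) {σ : ℝ} (a1 : σ ∈ Ioo s₁ s₂) :
    HasDerivAt φ ((fderiv ℝ Ψ (φ σ)).inverse (0, 1)) σ := by
  obtain ⟨-, g, h1, h2, -⟩ := H _ (h σ a1).2.1
  rw [(h σ a1).2.2] at h1
  refine (h1.comp_hasDerivAt σ ((hasDerivAt_const σ c).prodMk (hasDerivAt_id σ))).congr_of_eventuallyEq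
    ?_
  filter_upwards [(h σ a1).1.eventually h2, isOpen_Ioo.mem_nhds a1] with y b1 b2
  rw [← b1, (h y b2).2.2]
  rfl

theorem exists_max (H : Loc B Ψ) (hb : ∀ p ∈ B, |(Ψ p).2| < 1) {p : E} (hp : p ∈ B) :
    ∃ (m M : ℝ) (G : ℝ → E), -1 ≤ m ∧ (Ψ p).2 ∈ Ioo m M ∧ M ≤ 1 ∧ G (Ψ p).2 = p ∧
      Lift B Ψ (Ψ p).1 G m M ∧ ∀ φ s₁ s₂, Lift B Ψ (Ψ p).1 φ s₁ s₂ → (Ψ p).2 ∈ Ioo s₁ s₂ →
        φ (Ψ p).2 = p → m ≤ s₁ ∧ s₂ ≤ M := by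
  classical
  let A : Set ((ℝ → E) × ℝ × ℝ) := {a | Lift B Ψ (Ψ p).1 a.1 a.2.1 a.2.2 ∧
    (Ψ p).2 ∈ Ioo a.2.1 a.2.2 ∧ a.1 (Ψ p).2 = p}
  have h1 : ∀ a ∈ A, -1 ≤ a.2.1 ∧ a.2.2 ≤ 1 := fun a ha => by
    have : Ioo a.2.1 a.2.2 ⊆ Ioo (-1) 1 := fun σ hσ => by
      have := hb _ (ha.1 σ hσ).2.1
      rwa [(ha.1 σ hσ).2.2, abs_lt] at this
    exact (Ioo_subset_Ioo_iff (ha.2.1.1.trans ha.2.1.2)).1 this
  obtain ⟨a₀, ha₀⟩ : A.Nonempty := by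
    obtain ⟨φ, s₁, s₂, a1, a2, a3⟩ := Lift.near H hp
    exact ⟨(φ, s₁, s₂), a2, a1, a3.self_of_nhds rfl⟩
  have hne : ∀ k : (ℝ → E) × ℝ × ℝ → ℝ, (k '' A).Nonempty := fun k => ⟨_, a₀, ha₀, rfl⟩
  have hlo : ∀ a ∈ A, sInf ((fun a => a.2.1) '' A) ≤ a.2.1 := fun a ha =>
    csInf_le ⟨-1, by rintro _ ⟨a, ha, rfl⟩; exact (h1 a ha).1⟩ ⟨a, ha, rfl⟩
  have hhi : ∀ a ∈ A, a.2.2 ≤ sSup ((fun a => a.2.2) '' A) := fun a ha =>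
    le_csSup ⟨1, by rintro _ ⟨a, ha, rfl⟩; exact (h1 a ha).2⟩ ⟨a, ha, rfl⟩
  let G : ℝ → E := fun σ => if h : ∃ a ∈ A, σ ∈ Ioo a.2.1 a.2.2 then h.choose.1 σ else p
  have hG : ∀ a ∈ A, ∀ σ ∈ Ioo a.2.1 a.2.2, G σ = a.1 σ := fun a ha σ hσ => by
    have h : ∃ a ∈ A, σ ∈ Ioo a.2.1 a.2.2 := ⟨a, ha, hσ⟩
    obtain ⟨hc, hc'⟩ := h.choose_spec
    simp only [G, dif_pos h]
    exact hc.1.uniq H ha.1 hc.2.1 ha.2.1 (hc.2.2.trans ha.2.2.symm) hc' hσ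
  refine ⟨sInf ((fun a => a.2.1) '' A), sSup ((fun a => a.2.2) '' A), G,
    le_csInf (hne _) (by rintro _ ⟨a, ha, rfl⟩; exact (h1 a ha).1),
    ⟨(hlo a₀ ha₀).trans_lt ha₀.2.1.1, ha₀.2.1.2.trans_le (hhi a₀ ha₀)⟩,
    csSup_le (hne _) (by rintro _ ⟨a, ha, rfl⟩; exact (h1 a ha).2),
    (hG a₀ ha₀ _ ha₀.2.1).trans ha₀.2.2, fun σ hσ => ?_, fun φ s₁ s₂ a1 a2 a3 =>
      ⟨hlo (φ, s₁, s₂) ⟨a1, a2, a3⟩, hhi (φ, s₁, s₂) ⟨a1, a2, a3⟩⟩⟩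
  obtain ⟨a, ha, h⟩ : ∃ a ∈ A, σ ∈ Ioo a.2.1 a.2.2 := by
    rcases le_total σ (Ψ p).2 with h | h
    · obtain ⟨_, ⟨a, ha, rfl⟩, h2⟩ := exists_lt_of_csInf_lt (hne _) hσ.1
      exact ⟨a, ha, h2, h.trans_lt ha.2.1.2⟩
    · obtain ⟨_, ⟨a, ha, rfl⟩, h2⟩ := exists_lt_of_lt_csSup (hne _) hσ.2
      exact ⟨a, ha, ha.2.1.1.trans_le h, h2⟩
  rw [hG a ha σ h]
  refine ⟨(ha.1 σ h).1.congr ?_, (ha.1 σ h).2⟩
  filter_upwards [isOpen_Ioo.mem_nhds h] with y hy using (hG a ha y hy).symm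

theorem Lift.ext (H : Loc B Ψ) (h : Lift B Ψ c φ s₁ s₂) {q : E} (hq : q ∈ B) {l : Filter ℝ}
    [l.NeBot] {s : ℝ} (hl : l ≤ 𝓝 s) (hl' : Ioo s₁ s₂ ∈ l) (ht : Tendsto φ l (𝓝 q)) :
    ∃ ψ t₁ t₂ σ, Lift B Ψ c ψ t₁ t₂ ∧ s ∈ Ioo t₁ t₂ ∧ σ ∈ Ioo t₁ t₂ ∧ σ ∈ Ioo s₁ s₂ ∧
      ψ σ = φ σ := by
  have h1 : Ψ q = (c, s) := by
    refine tendsto_nhds_unique ((H q hq).1.tendsto.comp ht)
      ((tendsto_const_nhds.prodMk_nhds (tendsto_id'.2 hl)).congr' ?_)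
    filter_upwards [hl'] with y hy using (h y hy).2.2.symm
  obtain ⟨ψ, t₁, t₂, a1, a2, a3⟩ := Lift.near H hq
  rw [h1] at a1 a2 a3
  obtain ⟨σ, b1, b2, b3⟩ := ((ht.eventually a3).and
    (Eventually.and (hl (isOpen_Ioo.mem_nhds a1)) hl')).exists
  rw [(h σ b3).2.2] at b1
  exact ⟨ψ, t₁, t₂, σ, a2, a1, b2, b3, b1 rfl⟩

end Curve

open Curve in
theorem exists_curve {B : Set E} (hB : IsOpen B) {Ψ : E → β × ℝ} (hΨ : ContDiffOn ℝ 1 Ψ B)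
    (hinv : ∀ p ∈ B, (fderiv ℝ Ψ p).IsInvertible) (hb : ∀ p ∈ B, |(Ψ p).2| < 1) :
    ∃ (sm sp : E → ℝ) (G : E → ℝ → E), ∀ p ∈ B,
      -1 ≤ sm p ∧ sm p < (Ψ p).2 ∧ (Ψ p).2 < sp p ∧ sp p ≤ 1 ∧ G p (Ψ p).2 = p ∧
      (∀ σ ∈ Ioo (sm p) (sp p), G p σ ∈ B ∧ Ψ (G p σ) = ((Ψ p).1, σ) ∧
        HasDerivAt (G p) ((fderiv ℝ Ψ (G p σ)).inverse (0, 1)) σ) ∧
      (∀ (s₁ s₂ σ₀ : ℝ) (φ : ℝ → E), ContinuousOn φ (Ioo s₁ s₂) →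
        (∀ σ ∈ Ioo s₁ s₂, φ σ ∈ B ∧ Ψ (φ σ) = ((Ψ p).1, σ)) →
        σ₀ ∈ Ioo s₁ s₂ → σ₀ ∈ Ioo (sm p) (sp p) → φ σ₀ = G p σ₀ →
        sm p ≤ s₁ ∧ s₂ ≤ sp p ∧ ∀ σ ∈ Ioo s₁ s₂, φ σ = G p σ) ∧
      (∀ q ∈ B, ¬ Tendsto (G p) (𝓝[<] sp p) (𝓝 q)) ∧
      (∀ q ∈ B, ¬ Tendsto (G p) (𝓝[>] sm p) (𝓝 q)) := by
  have H := loc hB hΨ hinv
  choose! sm sp G h1 h2 h3 h4 h5 h6 using fun p (hp : p ∈ B) => exists_max H hb hp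
  refine ⟨sm, sp, G, fun p hp => ?_⟩
  have h7 : ∀ φ s₁ s₂ σ, Lift B Ψ (Ψ p).1 φ s₁ s₂ → σ ∈ Ioo s₁ s₂ → σ ∈ Ioo (sm p) (sp p) →
      φ σ = G p σ → sm p ≤ s₁ ∧ s₂ ≤ sp p := fun φ s₁ s₂ σ a1 a2 a3 a4 => by
    obtain ⟨χ, b1, b2⟩ := a1.glue H (h5 p hp) a2 a3 a4
    have := h6 p hp χ _ _ b1 ⟨min_lt_of_right_lt (h2 p hp).1, lt_max_of_lt_right (h2 p hp).2⟩
      ((b2 _ (h2 p hp)).trans (h4 p hp))
    exact ⟨this.1.trans (min_le_left _ _), (le_max_left _ _).trans this.2⟩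
  have hlt := (h2 p hp).1.trans (h2 p hp).2
  refine ⟨h1 p hp, (h2 p hp).1, (h2 p hp).2, h3 p hp, h4 p hp, fun σ hσ =>
    ⟨(h5 p hp σ hσ).2.1, (h5 p hp σ hσ).2.2, (h5 p hp).deriv H hσ⟩,
    fun s₁ s₂ σ₀ φ a1 a2 a3 a4 a5 => ?_, fun q hq ht => ?_, fun q hq ht => ?_⟩
  · have a6 : Lift B Ψ (Ψ p).1 φ s₁ s₂ := fun σ hσ =>
      ⟨a1.continuousAt (isOpen_Ioo.mem_nhds hσ), a2 σ hσ⟩
    obtain ⟨a7, a8⟩ := h7 φ s₁ s₂ σ₀ a6 a3 a4 a5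
    exact ⟨a7, a8, fun σ hσ => a6.uniq H (h5 p hp) a3 a4 a5 hσ (Ioo_subset_Ioo a7 a8 hσ)⟩
  · obtain ⟨ψ, t₁, t₂, σ, a1, a2, a3, a4, a5⟩ :=
      (h5 p hp).ext H hq nhdsWithin_le_nhds (Ioo_mem_nhdsLT hlt) ht
    exact a2.2.not_ge (h7 ψ t₁ t₂ σ a1 a3 a4 a5).2
  · obtain ⟨ψ, t₁, t₂, σ, a1, a2, a3, a4, a5⟩ :=
      (h5 p hp).ext H hq nhdsWithin_le_nhds (Ioo_mem_nhdsGT hlt) ht
    exact a2.1.not_ge (h7 ψ t₁ t₂ σ a1 a3 a4 a5).1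

omit [NormedSpace ℝ E] [FiniteDimensional ℝ E] in
theorem Curve.isOpen_bnd {C : Set E} (hC : IsOpen C) {lo hi : E → ℝ} (hlo : ContinuousOn lo C)
    (hhi : ContinuousOn hi C) : IsOpen (bnd C lo hi) := by
  refine isOpen_iff_mem_nhds.2 fun p hp => ?_
  have h1 := continuousAt_fst.eventually (hC.mem_nhds hp.1)
  have h2 := (ContinuousAt.comp (hlo.continuousAt (hC.mem_nhds hp.1))
    continuousAt_fst).eventually_lt continuousAt_snd hp.2.1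
  have h3 := continuousAt_snd.eventually_lt (ContinuousAt.comp
    (hhi.continuousAt (hC.mem_nhds hp.1)) continuousAt_fst) hp.2.2
  filter_upwards [h1, h2, h3] with q a1 a2 a3 using ⟨a1, a2, a3⟩

theorem analyticOnNhd_root {C : Set E} (hC : IsOpen C) {lo hi r : E → ℝ} {G : E × ℝ → ℝ}
    (hlo : ContinuousOn lo C) (hhi : ContinuousOn hi C) (hG : AnalyticOnNhd ℝ G (bnd C lo hi))
    (hd : ∀ p ∈ bnd C lo hi, fderiv ℝ G p (0, 1) ≠ 0)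
    (hr : ∀ x ∈ C, (x, r x) ∈ bnd C lo hi ∧ G (x, r x) = 0) : AnalyticOnNhd ℝ r C := by
  have := FiniteDimensional.complete ℝ E
  have hlt : ∀ x u v, (x, u) ∈ bnd C lo hi → (x, v) ∈ bnd C lo hi → G (x, u) = G (x, v) →
      ¬ u < v := fun x u v hu hv e huv => by
    have hm : ∀ w ∈ Icc u v, (x, w) ∈ bnd C lo hi := fun w hw =>
      ⟨hu.1, hu.2.1.trans_le hw.1, hw.2.trans_lt hv.2.2⟩
    have h1 : ∀ w ∈ Icc u v, HasDerivAt (fun w => G (x, w)) (fderiv ℝ G (x, w) (0, 1)) w :=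
      fun w hw => (hG _ (hm w hw)).differentiableAt.hasFDerivAt.comp_hasDerivAt w
        ((hasDerivAt_const w x).prodMk (hasDerivAt_id w))
    obtain ⟨w, hw, h2⟩ := exists_hasDerivAt_eq_zero huv
      (fun w hw => (h1 w hw).continuousAt.continuousWithinAt) e
      fun w hw => h1 w (Ioo_subset_Icc_self hw)
    exact hd _ (hm w (Ioo_subset_Icc_self hw)) h2
  intro x hx
  obtain ⟨h1, h2⟩ := hr x hx
  have h3 : ContDiffAt ℝ ⊤ G (x, r x) := (hG _ h1).contDiffAt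
  have h4 : (fderiv ℝ G (x, r x) ∘L .inr ℝ E ℝ).IsInvertible := by
    refine ⟨ContinuousLinearEquiv.unitsEquivAut ℝ (Units.mk0 _ (hd _ h1)), ?_⟩
    ext
    simp
  have h5 := h3.contDiffAt_implicitFunction WithTop.top_ne_zero h4
  have h6 := h3.implicitFunction_apply_self WithTop.top_ne_zero h4
  have h7 := h3.eventually_apply_implicitFunction WithTop.top_ne_zero h4
  refine h5.analyticAt.congr ?_
  have h8 := (continuousAt_id.prodMk h5.continuousAt).eventually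
    ((Curve.isOpen_bnd hC hlo hhi).mem_nhds (by simp only [h6]; exact h1))
  filter_upwards [h7, h8, hC.mem_nhds hx] with y a1 a2 a3
  have e := a1.trans (h2.trans (hr y a3).2.symm)
  exact le_antisymm (not_lt.1 (hlt y _ _ (hr y a3).1 a2 e.symm))
    (not_lt.1 (hlt y _ _ a2 (hr y a3).1 e))

end Pool.Agent.Lib.MP_1a1eb7_lc
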