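import Pool.Agent.Lib.MP_1a1eb7_lc.EP1
import Pool.Agent.Lib.MP_1a1eb7_lc.Curve

-- part Pool.Agent.Lib.MP_1a1eb7_lc.Propag
section

/-! C7a: the propagation lemma. Proof in /team-store/pf_PLAN.md. -/

namespace Pool.Agent.Lib.MP_1a1eb7_lc

open Set Filter Topology Pool.Agent.Shared.OMin
open Ordinal (omega0)

variable {S : OStr} {Γ : Sys} {θ θ₁ θ₂ τ : ℕ → Ordinal.{0}} {P Q Z Z' y : ℕ → U} {n m k r N : ℕ}
  {E E' : ℕ → Fld} {c c' : Ctx} {α β γ : Ordinal.{0}} {K K₀ K₀' K₁ K₂ K' : Fld}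

theorem IsOpen.fat {X : Set (Fin n → ℝ)} (h : IsOpen X) : Fat X := fun _ hx =>
  ⟨fun _ => 1, fun _ => Or.inl rfl, (h.eventually_mem hx).mono fun _ hu _ => hu⟩

theorem Inside.of_le {X : Set (Fin n → ℝ)} (h : Inside S θ c n X) (hc : c'.Le c n) :
    Inside S θ c' n X := fun c'' P E h1 h2 => h c'' P E h1 (h2.trans hc)

theorem propag_cont (n : ℕ) :
    Continuous fun z : (Fin n → ℝ) × ℝ => (Fin.snoc z.1 z.2 : Fin (n + 1) → ℝ) :=
  Continuous.finSnoc (A := fun _ => ℝ) continuous_fst continuous_snd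

theorem propag_inter {X C : Set (Fin n → ℝ)} (h : Fat X) (hC : IsOpen C) : Fat (X ∩ C) :=
  fun x hx => by
    obtain ⟨ν, h1, h2⟩ := h x hx.1
    exact ⟨ν, h1, (h2.and (hC.eventually_mem hx.2)).mono fun u hu h => ⟨hu.1 h, hu.2⟩⟩

theorem propag_proj {X : Set (Fin (n + 1) → ℝ)} (h : Fat X) :
    Fat {x : Fin n → ℝ | ∃ t : ℝ, Fin.snoc x t ∈ X} := by
  rintro x ⟨t, hx⟩
  obtain ⟨ν, h1, h2⟩ := h _ hx
  have h3 : Continuous fun u : Fin n → ℝ => (Fin.snoc u t : Fin (n + 1) → ℝ) :=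
    (propag_cont n).comp (Continuous.prodMk_left t)
  refine ⟨fun i => ν i.castSucc, fun i => h1 _, ((h3.tendsto x).eventually h2).mono
    fun u hu h => ⟨t, hu fun i => ?_⟩⟩
  refine Fin.lastCases ?_ (fun j => ?_) i
  · simp
  · simpa using h j

theorem propag_fibre {X : Set (Fin (n + 1) → ℝ)} (h : Fat X) {x : Fin n → ℝ} {a : ℝ}
    (hx : Fin.snoc x a ∈ X) :
    (∀ᶠ t in 𝓝[>] a, Fin.snoc x t ∈ X) ∨ ∀ᶠ t in 𝓝[<] a, Fin.snoc x t ∈ X := by
  obtain ⟨ν, h1, h2⟩ := h _ hx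
  have h3 : Continuous fun t : ℝ => (Fin.snoc x t : Fin (n + 1) → ℝ) :=
    (propag_cont n).comp (Continuous.prodMk_right x)
  have h4 : ∀ᶠ t in 𝓝 a, 0 ≤ ν (Fin.last n) * (t - a) → Fin.snoc x t ∈ X :=
    ((h3.tendsto a).eventually h2).mono fun t ht h => ht fun i => by
      refine Fin.lastCases ?_ (fun j => ?_) i
      · simpa using h
      · simp
  rcases h1 (Fin.last n) with e | e <;> rw [e] at h4
  · left
    filter_upwards [nhdsWithin_le_nhds h4, self_mem_nhdsWithin] with t h5 h6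
    exact h5 (by have := mem_Ioi.1 h6; linarith)
  · right
    filter_upwards [nhdsWithin_le_nhds h4, self_mem_nhdsWithin] with t h5 h6
    exact h5 (by have := mem_Iio.1 h6; linarith)

theorem propag_dp {X : Set (Fin (n + 1) → ℝ)} (hX : DP S fun x => x ∈ X) :
    DP S fun z : (Fin n → ℝ) × ℝ => Fin.snoc z.1 z.2 ∈ X :=
  hX.comp (DF.snoc DF.id'.fst DF.id'.snd)

/-- at a boundary point of the complement of a fibre, some side lies in the set -/
theorem propag_side {X : Set (Fin (n + 1) → ℝ)} (hX : DP S fun x => x ∈ X) (h : Fat X)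
    {x : Fin n → ℝ} {a : ℝ} (ha : ¬ ∀ᶠ t in 𝓝 a, Fin.snoc x t ∈ Xᶜ) :
    (∀ᶠ t in 𝓝[>] a, Fin.snoc x t ∈ X) ∨ ∀ᶠ t in 𝓝[<] a, Fin.snoc x t ∈ X := by
  have hd : DP S fun t : ℝ => Fin.snoc x t ∈ X := hX.comp (DF.snoc (DF.const x) DF.id')
  by_cases hx : Fin.snoc x a ∈ X
  · exact propag_fibre h hx
  rcases hd.ev_right a with h1 | h1
  · exact Or.inl h1
  rcases hd.ev_left a with h2 | h2
  · exact Or.inr h2
  refine absurd ?_ ha
  rw [← nhdsNE_sup_pure, ← nhdsLT_sup_nhdsGT]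
  exact eventually_sup.2 ⟨eventually_sup.2 ⟨h2, h1⟩, hx⟩

theorem propag_at {X : Set (Fin (n + 1) → ℝ)} {w : U} :
    At (fun x => x ∈ X) (upd P n w) ↔ ∀ᶠ ω in 𝔲, Fin.snoc (tp P n ω) (out w ω) ∈ X := by
  simp only [At, tp_upd]

theorem propag_adj {X : Set (Fin (n + 1) → ℝ)} (hX : DP S fun x => x ∈ X) {f : U}
    (hf : f ∈ dcl S P n) (h : ∀ᶠ ω in 𝔲, (∀ᶠ t in 𝓝[>] (out f ω), Fin.snoc (tp P n ω) t ∈ X) ∨
      ∀ᶠ t in 𝓝[<] (out f ω), Fin.snoc (tp P n ω) t ∈ X) :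
    ∃ w, w ≠ f ∧ Inf (dcl S P n) (w - f) ∧ At (fun x => x ∈ X) (upd P n w) := by
  obtain ⟨ε, h0, hε⟩ := exists_inf S P n
  rcases ev_or.1 h with h | h
  · have h1 : Inf (dcl S P n) (f + ε - f) := by simpa using hε
    exact ⟨f + ε, by simpa using h0.ne', h1, propag_at.2
      ((adj_right_iff InD.tp_self (X := fun x t => Fin.snoc x t ∈ X) (propag_dp hX) hf
        (by simpa using h0) h1).2 h)⟩
  · have h1 : Inf (dcl S P n) (f - ε - f) := by simpa using hε.neg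
    exact ⟨f - ε, by simpa using h0.ne', h1, propag_at.2
      ((adj_left_iff InD.tp_self (X := fun x t => Fin.snoc x t ∈ X) (propag_dp hX) hf
        (by simpa using h0) h1).2 h)⟩

/-- apply `Inside` at a point over `P` -/
theorem propag_up {X : Set (Fin (n + 1) → ℝ)} (hI : Inside S θ c (n + 1) X)
    (hc : Sem S θ c' (n + 1)) (hle : c'.Le c (n + 1)) (hp : Pt S θ c' P n E) {w : U}
    (hw : w ∉ dcl S P n) (hh : c'.Has (n + 1) (upd P n w)) (hX : At (fun x => x ∈ X) (upd P n w)) :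
    ∃ c'' E', Sem S θ c'' (n + 1) ∧ Pt S θ c'' (upd P n w) (n + 1) E' ∧ Ext E E' n ∧
      c''.Le c' (n + 1) ∧ c''.cell (n + 1) ⊆ X := by
  obtain ⟨E1, h1, h2⟩ := hc.tower_up n.le_succ (hp.tow.gen.upd hw) hh (hp.congr (agree_upd w).symm)
  obtain ⟨c'', E', k1, k2, k3, k4, k5⟩ := hI c' _ E1 hc hle h1 hX
  exact ⟨c'', E', k1, k2, fun k hk => h2 k hk ▸ k3 k (hk.trans n.le_succ), k4, k5⟩

/-- a boundary point of the fibre is an end of a cell -/
theorem propag_end {X : Set (Fin (n + 1) → ℝ)} (hX : DP S fun x => x ∈ X) (hF : Fat X)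
    (hI : Inside S θ c (n + 1) X) (hc : Sem S θ c' (n + 1)) (hle : c'.Le c (n + 1))
    (hp : Pt S θ c' P n E) {ρ w' : U} (hρ : ρ ∈ dcl S P n) (h1 : ev (c'.lo n) P < ρ)
    (h2 : ρ < ev (c'.hi n) P) (hb : ∀ᶠ ω in 𝔲, ¬ ∀ᶠ t in 𝓝 (out ρ ω), Fin.snoc (tp P n ω) t ∈ Xᶜ)
    (hw' : Inf (dcl S P n) (w' - ρ)) (hn : At (fun x => x ∈ Xᶜ) (upd P n w')) :
    ∃ E', Pt S θ c' P n E' ∧ Ext E E' n ∧ ρ ∈ E' n := by
  obtain ⟨w, hne, hw, hwX⟩ := propag_adj hX hρ (hb.mono fun ω h => propag_side hX hF h)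
  have hd : ∀ φ ∈ c'.gens n, ev φ P ∈ dcl S P n := fun φ hφ => ev_mem_dcl (hc.df n n.le_succ φ hφ)
  have k1 := abs_lt.1 (hw _ (sub_mem hρ (hd _ (hc.lo_mem n n.lt_succ_self))) (sub_pos.2 h1))
  have k2 := abs_lt.1 (hw _ (sub_mem (hd _ (hc.hi_mem n n.lt_succ_self)) hρ) (sub_pos.2 h2))
  obtain ⟨c1, E1, m1, m2, m3, -, m5⟩ := propag_up hI hc hle hp (Inf.notMem hρ hw hne)
    (Ctx.has_upd.2 ⟨hp.has, by linarith [k1.1], by linarith [k2.2]⟩) hwX
  have e : dcl S (upd P n w) n = dcl S P n := (agree_upd w).dcl_eq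
  rcases m2.end_or_has m1 (ρ := ρ) (e ▸ hρ) (by rw [e, upd_self]; exact hw) with h | h
  · exact ⟨E1, hp.of_ext ((m2.tow.down n.le_succ).congr (agree_upd w)) m3, m3, h⟩
  · have h3 := (h w' (e ▸ hw')).congr ((agree_upd w).upd w')
    obtain ⟨ω, a1, a2⟩ := (Filter.Eventually.and h3 hn).exists
    exact absurd (m5 a1) a2

theorem propagate (hM : Main S Γ θ) (N : ℕ) : ∀ (c : Ctx) (X : Set (Fin N → ℝ)), Sem S θ c N →
    (DP S fun x => x ∈ X) → Fat X → Inside S θ c N X → Inside S θ c N Xᶜ := by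
  induction N with
  | zero =>
    intro c X _ _ _ _ c' P E h1 _ h3 h4
    obtain ⟨ω, hω⟩ := h4.exists
    exact ⟨c', E, h1, h3, Ext.refl _ _, Ctx.Le.refl _ _, fun x _ => Subsingleton.elim _ x ▸ hω⟩
  | succ N ih =>
    intro c X _ hX hF hI c' P E hc hle hp hP
    have hN := N.le_succ
    obtain ⟨-, s1, s2⟩ := Ctx.has_succ.1 hp.has
    have lom := hc.lo_mem N N.lt_succ_self
    have him := hc.hi_mem N N.lt_succ_self
    obtain ⟨g, hg, h, hh, g1, g2, h2, h1, hint, hge, hhe⟩ := exists_interval InD.tp_self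
      (X := fun x t => Fin.snoc x t ∈ Xᶜ) (propag_dp hX).not hp.tow.gen.last
      (ev_mem_dcl (hc.df N hN _ lom)) (ev_mem_dcl (hc.df N hN _ him)) s1 s2
      (hP.mono fun ω h => tp_succ (P := P) ω ▸ h)
    obtain ⟨ε, h0, hε⟩ := exists_inf S P N
    have hgh : g < h := g2.trans h2
    have he := abs_lt.1 (hε _ (sub_mem hh hg) (sub_pos.2 hgh))
    have hout : ∀ w, g < w → w < h → At (fun x => x ∈ Xᶜ) (upd P N w) := fun w a1 a2 =>
      propag_at.2 (by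
        filter_upwards [hint, lt_iff.1 a1, lt_iff.1 a2] with ω b1 b2 b3 using b1 _ ⟨b2, b3⟩)
    obtain ⟨E1, p1, x1, m1⟩ : ∃ E', Pt S θ c' P N E' ∧ Ext E E' N ∧ h ∈ E' N := by
      rcases h1.eq_or_lt with e | e
      · exact ⟨E, hp.down hN, Ext.refl _ _, e ▸ hp.vals N hN _ him⟩
      · exact propag_end hX hF hI hc hle (hp.down hN) (w' := h - ε) hh (s1.trans h2) e
          (hhe.resolve_left e.ne) (by simpa using hε.neg)
          (hout _ (by linarith [he.2]) (by linarith))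
    obtain ⟨E2, p2, x2, m2⟩ : ∃ E', Pt S θ c' P N E' ∧ Ext E1 E' N ∧ g ∈ E' N := by
      rcases g1.eq_or_lt with e | e
      · exact ⟨E1, p1, Ext.refl _ _, e ▸ p1.vals N le_rfl _ lom⟩
      · exact propag_end hX hF hI hc hle p1 (w' := g + ε) hg e (g2.trans s2)
          (hge.resolve_left e.ne') (by simpa using hε)
          (hout _ (by linarith) (by linarith [he.2]))
    have m1' := x2 N le_rfl m1
    obtain ⟨c3, E3, t1, -, p3, x3, l3, hR⟩ := hM.top (hc.down hN) le_rfl p2.tow p2.has p2.vals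
      (R := {g, h, h - g, g - ev (c'.lo N) P, ev (c'.hi N) P - h}) (toFinite _) (by
        simp only [insert_subset_iff, singleton_subset_iff, SetLike.mem_coe]
        exact ⟨m2, m1', sub_mem m1' m2, sub_mem m2 (p2.vals N le_rfl _ lom),
          sub_mem (p2.vals N le_rfl _ him) m1'⟩)
    obtain ⟨G, hG, eG⟩ := (hR g (by simp)).1
    obtain ⟨H, hH, eH⟩ := (hR h (by simp)).1
    have tri : ∀ φ ∈ c3.gens N, ∀ ψ ∈ c3.gens N, Sg S c3 N P (ev φ P - ev ψ P) →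
        Tri (fun x => φ x - ψ x) (c3.cell N) := fun φ hφ ψ hψ hs =>
      hs _ ((t1.df N le_rfl φ hφ).sub (t1.df N le_rfl ψ hψ))
        ((t1.an N le_rfl φ hφ).sub (t1.an N le_rfl ψ hψ)) (ev_sub φ ψ P)
    have hlt : ∀ x ∈ c3.cell N, c'.lo N x ≤ G x ∧ G x < H x ∧ H x ≤ c'.hi N x := fun x hx =>
      ⟨sub_nonneg.1 ((tri G hG _ ((l3 N le_rfl).2 lom) (hR _ (by simp [eG])).2).nonneg_of
          p3.has (by rw [ev_sub, eG]; exact sub_nonneg.2 g1) x hx),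
        sub_pos.1 ((tri H hH G hG (hR _ (by simp [eG, eH])).2).pos_of p3.has
          (by rw [ev_sub, eG, eH]; exact sub_pos.2 hgh) x hx),
        sub_nonneg.1 ((tri _ ((l3 N le_rfl).2 him) H hH (hR _ (by simp [eH])).2).nonneg_of
          p3.has (by rw [ev_sub, eH]; exact sub_nonneg.2 h1) x hx)⟩
    have top : ∀ c5 : Ctx, Sem S θ c5 N → c5.Le c3 N →
        Sem S θ (c5.setTop N G H (c'.gens (N + 1))) (N + 1) ∧
        (c5.setTop N G H (c'.gens (N + 1))).Le c' (N + 1) := fun c5 a1 a2 =>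
      a1.setTop hc (a2.trans l3) ((a2 N le_rfl).2 hG) ((a2 N le_rfl).2 hH)
        fun x hx => hlt x ((a2 N le_rfl).1 hx)
    have hBo : IsOpen (band (c3.cell N) G H) :=
      Ctx.setTop_cell_succ ▸ (top c3 t1 (Ctx.Le.refl _ _)).1.isOpen le_rfl
    have hBd : DP S fun x => x ∈ X ∩ band (c3.cell N) G H :=
      hX.and (Ctx.setTop_cell_succ ▸ (top c3 t1 (Ctx.Le.refl _ _)).1.dp le_rfl)
    have hBf := propag_inter hF hBo
    obtain ⟨c7, E7, u1, p7, x7, l7, hsub⟩ := ih c3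
      {x | ∃ t : ℝ, Fin.snoc x t ∈ X ∩ band (c3.cell N) G H} t1 (DP.ex (propag_dp hBd))
      (propag_proj hBf) (fun c5 P1 E5 a1 a2 a3 a4 => by
        obtain ⟨f, hf, b1⟩ := dcl_choice (InD.tp_self (P := P1) (k := N))
          (X := fun x (t : ℝ) => (Fin.snoc x t : Fin (N + 1) → ℝ) ∈ X ∩ band (c3.cell N) G H)
          (propag_dp hBd) a4
        obtain ⟨w, hne, hw, b2⟩ := propag_adj hBd hf (b1.mono fun ω h => propag_fibre hBf h)
        obtain ⟨c6, E6, k1, k2, k3, k4, k5⟩ := propag_up hI (top c5 a1 a2).1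
          ((top c5 a1 a2).2.trans hle) (a3.setTop _ _ _) (Inf.notMem hf hw hne) (by
            rw [Ctx.Has, Ctx.setTop_cell_succ]
            refine propag_at.2 ?_
            filter_upwards [propag_at.1 b2, a3.has] with ω d1 d2
            exact snoc_mem_band.2 ⟨d2, (snoc_mem_band.1 d1.2).2⟩) (b2.mono fun _ h => h.1)
        refine ⟨c6, E6, k1.down hN, (k2.down hN).congr (agree_upd w), k3,
          (k4.down hN).trans Ctx.setTop_le, fun x hx => ?_⟩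
        have d1 := (k1.lt N N.lt_succ_self x hx).2.1
        have d2 : Fin.snoc x ((c6.lo N x + c6.hi N x) / 2) ∈ c6.cell (N + 1) :=
          snoc_mem_band.2 ⟨hx, by linarith, by linarith⟩
        have d3 := (k4 _ le_rfl).1 d2
        rw [Ctx.setTop_cell_succ, snoc_mem_band] at d3
        exact ⟨_, k5 d2, snoc_mem_band.2 ⟨(a2 N le_rfl).1 d3.1, d3.2⟩⟩)
      c3 P E3 t1 (Ctx.Le.refl _ _) p3 (by
        filter_upwards [hint, out_ev G P, out_ev H P] with ω b1 b2 b3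
        rintro ⟨t, d1, d2⟩
        rw [eG] at b2
        rw [eH] at b3
        exact b1 t (b2 ▸ b3 ▸ (snoc_mem_band.1 d2).2) d1)
    obtain ⟨E8, v1, v2, v3⟩ := hp.tow.reattach hN p7.tow (((x1.trans x2).trans x3).trans x7)
      (fun _ _ => le_rfl) fun _ _ _ => le_rfl
    refine ⟨_, E8, (top c7 u1 l7).1, ⟨v1, Ctx.has_succ.2 ⟨(p7.setTop _ _ _).has, ?_, ?_⟩,
      fun k hk => ?_⟩, v3, (top c7 u1 l7).2, fun z hz hzX => ?_⟩
    · rwa [Ctx.setTop_lo, eG]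
    · rwa [Ctx.setTop_hi, eH]
    · rcases Nat.of_le_succ hk with hk | rfl
      · exact v2 k hk ▸ (p7.setTop _ _ _).vals k hk
      · intro φ hφ
        rw [Ctx.setTop_gens_succ] at hφ
        exact v3 _ le_rfl (hp.vals _ le_rfl φ hφ)
    · rw [Ctx.setTop_cell_succ] at hz
      refine hsub hz.1 ⟨z (Fin.last N), ?_⟩
      rw [Fin.snoc_init_self]
      exact ⟨hzX, (l7 N le_rfl).1 hz.1, hz.2⟩

end Pool.Agent.Lib.MP_1a1eb7_lc
end

-- part Pool.Agent.Lib.MP_1a1eb7_lc.Kit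
section

/-! C3a: curves inside a cell along which all but one of the coordinates `ψ` are fixed. -/

namespace Pool.Agent.Lib.MP_1a1eb7_lc

open Set Filter Topology Pool.Agent.Shared.OMin
open Ordinal (omega0)

variable {S : OStr} {Γ : Sys} {θ θ₁ θ₂ τ : ℕ → Ordinal.{0}} {P Q Z Z' y : ℕ → U} {n m k r N : ℕ}
  {E E' : ℕ → Fld} {c c' : Ctx} {α β γ : Ordinal.{0}} {K K₀ K₀' K₁ K₂ K' : Fld}

variable {h : ℕ} {ψ : ℕ → Fn (h + 1)} {B : Set (Fin (h + 1) → ℝ)} {G : Fn (h + 1)}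

theorem kit_an_det {ι : Type} [Fintype ι] [DecidableEq ι] {M : (Fin (h + 1) → ℝ) → Matrix ι ι ℝ}
    (hM : ∀ i j, AnalyticOnNhd ℝ (fun q => M q i j) B) :
    AnalyticOnNhd ℝ (fun q => (M q).det) B := by
  simp only [Matrix.det_apply']
  exact Finset.analyticOnNhd_fun_sum _ fun σ _ =>
    analyticOnNhd_const.mul (Finset.analyticOnNhd_fun_prod _ fun i _ => hM _ _)

theorem kit_inv_apply {ι : Type} [Fintype ι] [DecidableEq ι] (A : Matrix ι ι ℝ) (i j : ι) :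
    A⁻¹ i j = A.det⁻¹ * (A.updateRow j (Pi.single i 1)).det := by
  rw [Matrix.inv_def, Ring.inverse_eq_inv', Matrix.smul_apply, Matrix.adjugate_apply, smul_eq_mul]

theorem kit_fderiv_sum {k : ℕ} (G : Fn k) (q v : Fin k → ℝ) :
    fderiv ℝ G q v = ∑ j : Fin k, pdv G j q * v j := by
  have hv : v = ∑ j : Fin k, v j • uv k j := by
    funext i
    simp [Finset.sum_apply, uv, Fin.val_inj]
  conv_lhs => rw [hv, map_sum]
  simp only [map_smul, smul_eq_mul, pdv, mul_comm]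

theorem df_jac (hψ : ∀ i ≤ h, DF S (ψ i)) : DF S fun q => (jacM ψ q).det :=
  DF.det_fam fun i j => (hψ i (Nat.lt_succ_iff.1 i.2)).pdv j

theorem analyticOnNhd_jac (hψ : ∀ i ≤ h, AnalyticOnNhd ℝ (ψ i) B) :
    AnalyticOnNhd ℝ (fun q => (jacM ψ q).det) B :=
  kit_an_det fun i j => analyticOnNhd_pdv (hψ i (Nat.lt_succ_iff.1 i.2)) j

theorem df_dirD (hψ : ∀ i ≤ h, DF S (ψ i)) (hG : DF S G) : DF S (dirD ψ G) := by
  refine DF.sum _ fun j _ => (hG.pdv j).mul ?_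
  simp only [kit_inv_apply]
  refine (df_jac hψ).inv.mul (DF.det_fam fun a b => ?_)
  simp only [Matrix.updateRow_apply]
  split_ifs
  · exact DF.const _
  · exact (hψ a (Nat.lt_succ_iff.1 a.2)).pdv b

theorem analyticOnNhd_dirD (hψ : ∀ i ≤ h, AnalyticOnNhd ℝ (ψ i) B)
    (hj : ∀ q ∈ B, (jacM ψ q).det ≠ 0) (hG : AnalyticOnNhd ℝ G B) :
    AnalyticOnNhd ℝ (dirD ψ G) B := by
  refine Finset.analyticOnNhd_fun_sum _ fun j _ => (analyticOnNhd_pdv hG j).mul ?_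
  simp only [kit_inv_apply]
  refine ((analyticOnNhd_jac hψ).fun_inv hj).mul (kit_an_det fun a b => ?_)
  simp only [Matrix.updateRow_apply]
  split_ifs
  · exact analyticOnNhd_const
  · exact analyticOnNhd_pdv (hψ a (Nat.lt_succ_iff.1 a.2)) b

theorem ev_jac (hP : Gen S P (h + 1)) (hψ : ∀ i ≤ h, DF S (ψ i)) :
    ev (fun q => (jacM ψ q).det) P =
      Matrix.det (Matrix.of fun i j : Fin (h + 1) => pd S P (h + 1) j (ev (ψ i) P)) := by
  refine (ev_det fun i j : Fin (h + 1) => pdv (ψ i) j).trans ?_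
  congr 2
  funext i j
  exact (pd_ev hP (hψ i (Nat.lt_succ_iff.1 i.2)) j).symm

/-- at a generic point `dirD` is the last partial derivative in the coordinates `W = ψ(P)` -/
theorem pd_dirD {W : ℕ → U} (hW : Gen S W (h + 1)) (hψ : ∀ i ≤ h, DF S (ψ i) ∧ ev (ψ i) P = W i)
    (hG : DF S G) : pd S W (h + 1) h (ev G P) = ev (dirD ψ G) P := by
  have hm : ∀ i < h + 1, W i ∈ dcl S P (h + 1) := fun i hi => by
    obtain ⟨a, b⟩ := hψ i (Nat.lt_succ_iff.1 hi)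
    exact b ▸ ev_mem_dcl a
  obtain ⟨hP, hd⟩ := hW.of_span hm
  have hb : ev G P ∈ dcl S W (h + 1) := hd ▸ ev_mem_dcl hG
  have hJ : ∀ j i : Fin (h + 1), pd S P (h + 1) i (W j) = ev (pdv (ψ j) i) P := fun j i => by
    obtain ⟨a, b⟩ := hψ j (Nat.lt_succ_iff.1 j.2)
    rw [← b, pd_ev hP a]
  have hdet : At (fun q => (jacM ψ q).det ≠ 0) P := by
    rw [← ev_ne_zero_iff, ev_jac hP fun i hi => (hψ i hi).1]
    convert jac_ne_zero hW hm using 5 with i j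
    rw [(hψ i (Nat.lt_succ_iff.1 i.2)).2]
  have hone : ∀ j : Fin (h + 1), ∑ i : Fin (h + 1), ev (pdv (ψ j) i) P *
      ev (fun q => (jacM ψ q)⁻¹ i (Fin.last h)) P = if j = Fin.last h then 1 else 0 := fun j => by
    simp only [← ev_mul]
    rw [← ev_sum]
    have : (if j = Fin.last h then (1 : U) else 0) =
        ev (fun _ : Fin (h + 1) → ℝ => if j = Fin.last h then (1 : ℝ) else 0) P := by
      split_ifs
      exacts [ev_one'.symm, ev_zero'.symm]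
    rw [this, ev_eq_iff]
    refine hdet.mono fun ω hω => ?_
    have h1 := congrFun (congrFun (Matrix.mul_nonsing_inv _ (isUnit_iff_ne_zero.2 hω)) j)
      (Fin.last h)
    rw [Matrix.mul_apply, Matrix.one_apply] at h1
    exact h1
  unfold dirD
  rw [ev_sum]
  simp only [ev_mul, ← pd_ev hP hG, pd_change hP hW hm hb, Finset.sum_range, hJ, Finset.sum_mul,
    mul_assoc]
  rw [Finset.sum_comm]
  simp only [← Finset.mul_sum, hone]
  simp

theorem kit_escape {E β : Type} [NormedAddCommGroup E] [NormedSpace ℝ E]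
    [NormedAddCommGroup β] [NormedSpace ℝ β] {B C : Set E} {Ψ : E → β × ℝ} {c : β} {φ : ℝ → E}
    {s₁ s₂ s : ℝ} (H : Curve.Loc B Ψ) (hL : Curve.Lift B Ψ c φ s₁ s₂) {l : Filter ℝ} [l.NeBot]
    (hl : l ≤ 𝓝 s) (hl' : Ioo s₁ s₂ ∈ l) (hCB : C ⊆ B) (hC : IsCompact C)
    (hφ : ∀ᶠ σ in l, φ σ ∈ C) :
    ∃ ψ t₁ t₂ σ, Curve.Lift B Ψ c ψ t₁ t₂ ∧ s ∈ Ioo t₁ t₂ ∧ σ ∈ Ioo t₁ t₂ ∧ σ ∈ Ioo s₁ s₂ ∧
      ψ σ = φ σ := by
  have hu := Ultrafilter.of_le l
  obtain ⟨q, hq, ht⟩ := hC.ultrafilter_le_nhds ((Ultrafilter.of l).map φ)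
    (le_principal_iff.2 (hu hφ))
  exact hL.ext H (hCB hq) (hu.trans hl) (hu hl') ht

/-- exists_curve in coordinates; a cluster point in `B` at an end would allow to prolong the
curve by the local inverse of `ψ`, against the maximality clause of exists_curve -/
theorem curve_kit (hB : IsOpen B) (hψ : ∀ i ≤ h, AnalyticOnNhd ℝ (ψ i) B)
    (hj : ∀ q ∈ B, (jacM ψ q).det ≠ 0) (hb : ∀ q ∈ B, |ψ h q| < 1) :
    ∃ (sm sp : Fn (h + 1)) (γ : (Fin (h + 1) → ℝ) → ℝ → Fin (h + 1) → ℝ), ∀ p ∈ B,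
      -1 ≤ sm p ∧ sm p < ψ h p ∧ ψ h p < sp p ∧ sp p ≤ 1 ∧ γ p (ψ h p) = p ∧
      (∀ σ ∈ Ioo (sm p) (sp p), γ p σ ∈ B ∧ (∀ i < h, ψ i (γ p σ) = ψ i p) ∧ ψ h (γ p σ) = σ ∧
        ∀ G : Fn (h + 1), AnalyticOnNhd ℝ G B →
          HasDerivAt (fun s => G (γ p s)) (dirD ψ G (γ p σ)) σ) ∧
      (∀ C ⊆ B, IsCompact C → ∃ σ ∈ Ioo (ψ h p) (sp p), γ p σ ∉ C) ∧
      (∀ C ⊆ B, IsCompact C → ∃ σ ∈ Ioo (sm p) (ψ h p), γ p σ ∉ C) := by
  let Ψ : (Fin (h + 1) → ℝ) → (Fin h → ℝ) × ℝ := fun q => (fun i => ψ i q, ψ h q)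
  have hΨ : ContDiffOn ℝ 1 Ψ B :=
    (contDiffOn_pi.2 fun i : Fin h => (hψ i i.2.le).contDiffOn_of_completeSpace).prodMk
      (hψ h le_rfl).contDiffOn_of_completeSpace
  have hD : ∀ q ∈ B, ∀ v, fderiv ℝ Ψ q v =
      (fun i : Fin h => (jacM ψ q).mulVec v i.castSucc, (jacM ψ q).mulVec v (Fin.last h)) := by
    intro q hq v
    have h1 : HasFDerivAt Ψ ((ContinuousLinearMap.pi fun i : Fin h => fderiv ℝ (ψ i) q).prod
        (fderiv ℝ (ψ h) q)) q :=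
      (hasFDerivAt_pi.2 fun i : Fin h => (hψ i i.2.le q hq).differentiableAt.hasFDerivAt).prodMk
        (hψ h le_rfl q hq).differentiableAt.hasFDerivAt
    rw [h1.fderiv]
    refine Prod.ext (funext fun i => ?_) ?_
    · exact kit_fderiv_sum (ψ i) q v
    · exact kit_fderiv_sum (ψ h) q v
  have hinv : ∀ q ∈ B, (fderiv ℝ Ψ q).IsInvertible := by
    intro q hq
    have hi : Function.Injective (fderiv ℝ Ψ q : (Fin (h + 1) → ℝ) →ₗ[ℝ] (Fin h → ℝ) × ℝ) := by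
      refine (injective_iff_map_eq_zero _).2 fun v hv => ?_
      have h1 : fderiv ℝ Ψ q v = 0 := hv
      rw [hD q hq] at h1
      refine Matrix.eq_zero_of_mulVec_eq_zero (hj q hq) (funext fun i => ?_)
      refine Fin.lastCases ?_ (fun i => ?_) i
      · exact congrArg Prod.snd h1
      · exact congrFun (congrArg Prod.fst h1) i
    exact ⟨(LinearMap.linearEquivOfInjective _ hi (by simp)).toContinuousLinearEquiv, by
      ext1 v; rfl⟩
  have hcol : ∀ q ∈ B, ∀ j, (fderiv ℝ Ψ q).inverse (0, 1) j = (jacM ψ q)⁻¹ j (Fin.last h) := by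
    intro q hq j
    have h1 := (hinv q hq).self_apply_inverse (0, 1)
    rw [hD q hq] at h1
    have h2 : (jacM ψ q).mulVec ((fderiv ℝ Ψ q).inverse (0, 1)) = Pi.single (Fin.last h) 1 := by
      funext i
      refine Fin.lastCases ?_ (fun i => ?_) i
      · simpa using congrArg Prod.snd h1
      · simpa using congrFun (congrArg Prod.fst h1) i
    have h3 := congrArg ((jacM ψ q)⁻¹.mulVec) h2
    rw [Matrix.mulVec_mulVec, Matrix.nonsing_inv_mul _ (isUnit_iff_ne_zero.2 (hj q hq)),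
      Matrix.one_mulVec] at h3
    rw [h3]
    simp
  have H := Curve.loc hB hΨ hinv
  obtain ⟨sm, sp, γ, hγ⟩ := exists_curve hB hΨ hinv hb
  refine ⟨sm, sp, γ, fun p hp => ?_⟩
  obtain ⟨a1, a2, a3, a4, a5, a6, a7, -, -⟩ := hγ p hp
  have hL : Curve.Lift B Ψ (Ψ p).1 (γ p) (sm p) (sp p) := fun σ hσ =>
    ⟨(a6 σ hσ).2.2.continuousAt, (a6 σ hσ).1, (a6 σ hσ).2.1⟩
  have hmax : ∀ φ t₁ t₂ σ, Curve.Lift B Ψ (Ψ p).1 φ t₁ t₂ → σ ∈ Ioo t₁ t₂ →
      σ ∈ Ioo (sm p) (sp p) → φ σ = γ p σ → sm p ≤ t₁ ∧ t₂ ≤ sp p := fun φ t₁ t₂ σ b1 b2 b3 b4 => by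
    obtain ⟨c1, c2, -⟩ := a7 t₁ t₂ σ φ (fun x hx => (b1 x hx).1.continuousWithinAt)
      (fun x hx => (b1 x hx).2) b2 b3 b4
    exact ⟨c1, c2⟩
  refine ⟨a1, a2, a3, a4, a5, fun σ hσ => ?_, fun C hCB hC => ?_, fun C hCB hC => ?_⟩
  · obtain ⟨b1, b2, b3⟩ := a6 σ hσ
    refine ⟨b1, fun i hi => congrFun (congrArg Prod.fst b2) ⟨i, hi⟩, congrArg Prod.snd b2,
      fun G hG => ?_⟩
    have b4 := (hG _ b1).differentiableAt.hasFDerivAt.comp_hasDerivAt σ b3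
    rw [kit_fderiv_sum] at b4
    simp only [hcol _ b1] at b4
    exact b4
  · by_contra hc
    push Not at hc
    obtain ⟨φ, t₁, t₂, σ, b1, b2, b3, b4, b5⟩ := kit_escape H hL (l := 𝓝[<] sp p)
      nhdsWithin_le_nhds (Ioo_mem_nhdsLT (a2.trans a3)) hCB hC
      (mem_of_superset (Ioo_mem_nhdsLT a3) hc)
    exact b2.2.not_ge (hmax φ t₁ t₂ σ b1 b3 b4 b5).2
  · by_contra hc
    push Not at hc
    obtain ⟨φ, t₁, t₂, σ, b1, b2, b3, b4, b5⟩ := kit_escape H hL (l := 𝓝[>] sm p)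
      nhdsWithin_le_nhds (Ioo_mem_nhdsGT (a2.trans a3)) hCB hC
      (mem_of_superset (Ioo_mem_nhdsGT a2) hc)
    exact b2.1.not_ge (hmax φ t₁ t₂ σ b1 b3 b4 b5).1

/-- a small point of real space is a tuple -/
theorem exists_tuple {x : Ω → Fin n → ℝ} (hx : Sm x) : ∃ p : ℕ → U, ∀ᶠ ω in 𝔲, tp p n ω = x ω := by
  refine ⟨fun i => if hi : i < n then cl fun ω => x ω ⟨i, hi⟩ else 0, ?_⟩
  filter_upwards [eventually_all.2 fun i : Fin n => out_cl (hx.comp fun z => z i)] with ω hω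
  funext i
  simp only [tp, dif_pos i.2]
  exact hω i

/-- a point of the curve infinitely close to the boundary of the cell (sat over the pair
(x, tp Z r), one condition for each definable function that is positive at Z; isCompact_core) -/
theorem exists_exit (hc : Sem S θ c n) {X : Type} {x : Ω → X} (hx : Sm x) (I : X → Set ℝ)
    (γ : X → ℝ → Fin n → ℝ)
    (hγ : ∀ᶠ ω in 𝔲, (∀ σ ∈ I (x ω), γ (x ω) σ ∈ c.cell n) ∧
      ∀ C ⊆ c.cell n, IsCompact C → ∃ σ ∈ I (x ω), γ (x ω) σ ∉ C) (Z : ℕ → U) (r : ℕ) :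
    ∃ (σ : U) (p : ℕ → U), (∀ᶠ ω in 𝔲, out σ ω ∈ I (x ω) ∧ tp p n ω = γ (x ω) (out σ ω)) ∧
      ∃ j < n, Inf (dcl S Z r) (p j - ev (c.lo j) p) ∨ Inf (dcl S Z r) (p j - ev (c.hi j) p) := by
  classical
  let d : Fin n × Bool → (Fin n → ℝ) → ℝ := fun a y =>
    if a.2 then y a.1 - c.lo a.1 (fun i : Fin a.1 => y (Fin.castLE a.1.2.le i))
    else c.hi a.1 (fun i : Fin a.1 => y (Fin.castLE a.1.2.le i)) - y a.1
  obtain ⟨σ, hσ⟩ := sat (hx.prod (sm_tp Z r)) (I := Fin n × Bool → {G : Fn r // DF S G})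
    (fun g z t => t ∈ I z.1 ∧ γ z.1 t ∈ c.cell n ∧
      ((∀ a, 0 < (g a).1 z.2) → ∃ a, d a (γ z.1 t) < (g a).1 z.2)) (fun s => by
    filter_upwards [hγ] with ω ⟨h1, h2⟩
    obtain ⟨δ, hδ, h3⟩ := infin_small (s ×ˢ (Finset.univ : Finset (Fin n × Bool)))
      fun z => (z.1 z.2).1 (tp Z r ω)
    obtain ⟨t, ht, h4⟩ := h2 _ (fun y hy => hy.1) (hc.isCompact_core hδ)
    refine ⟨t, fun g hg => ⟨ht, h1 t ht, fun h5 => ?_⟩⟩
    by_contra h6
    push Not at h6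
    refine h4 ⟨h1 t ht, fun j => ⟨?_, ?_⟩⟩
    · exact (h3 (g, j, true) (by simp [hg]) (h5 _)).le.trans (h6 (j, true))
    · exact (h3 (g, j, false) (by simp [hg]) (h5 _)).le.trans (h6 (j, false)))
  obtain ⟨p, hp⟩ := exists_tuple (Sm.comp₂ γ hx (sm_out σ))
  have h0 := hσ fun _ => ⟨fun _ => 0, DF.const 0⟩
  refine ⟨σ, p, h0.mp (hp.mono fun ω h1 h2 => ⟨h2.1, h1⟩), ?_⟩
  have hh : c.Has n p := h0.mp (hp.mono fun ω h1 h2 => by
    rw [h1]
    exact h2.2.1)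
  by_contra hn
  push Not at hn
  have key : ∀ a : Fin n × Bool, ∃ G : {G : Fn r // DF S G}, ∀ᶠ ω in 𝔲,
      0 < G.1 (tp Z r ω) ∧ G.1 (tp Z r ω) ≤ d a (tp p n ω) := by
    rintro ⟨j, b⟩
    obtain ⟨-, b1, b2⟩ := Ctx.has_succ.1 (hh.down (Nat.succ_le_of_lt j.2))
    have main : ∀ t : U, ¬ Inf (dcl S Z r) t → (∀ᶠ ω in 𝔲, |out t ω| = d (j, b) (tp p n ω)) →
        ∃ G : {G : Fn r // DF S G}, ∀ᶠ ω in 𝔲,
          0 < G.1 (tp Z r ω) ∧ G.1 (tp Z r ω) ≤ d (j, b) (tp p n ω) := fun t ht he => by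
      by_contra hc'
      refine ht (inf_of_ev fun G hG => ?_)
      filter_upwards [ev_not.2 fun h' => hc' ⟨⟨G, hG⟩, h'⟩, he] with ω c1 c2 c3
      rw [c2]
      exact not_le.1 fun c4 => c1 ⟨c3, c4⟩
    cases b
    · refine main _ (hn j j.2).2 ?_
      filter_upwards [out_sub (p j) (ev (c.hi j) p), out_ev (c.hi j) p, lt_iff.1 b2] with ω c1 c2 c3
      rw [c1, abs_of_neg (sub_neg.2 c3), c2, neg_sub]
      rfl
    · refine main _ (hn j j.2).1 ?_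
      filter_upwards [out_sub (p j) (ev (c.lo j) p), out_ev (c.lo j) p, lt_iff.1 b1] with ω c1 c2 c3
      rw [c1, abs_of_pos (sub_pos.2 c3), c2]
      rfl
  choose g hg using key
  obtain ⟨ω, c1, c2, c3⟩ := ((hσ g).and ((eventually_all.2 hg).and hp)).exists
  obtain ⟨a, ha⟩ := c1.2.2 fun a => (c2 a).1
  have := (c2 a).2
  rw [c3] at this
  exact ha.not_ge this

theorem kit_mono {f f' : ℝ → ℝ} {D : Set ℝ} (hD : Convex ℝ D)
    (hf : ∀ t ∈ D, HasDerivAt f (f' t) t ∧ 0 ≤ f' t) : MonotoneOn f D :=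
  monotoneOn_of_deriv_nonneg hD (fun t ht => (hf t ht).1.continuousAt.continuousWithinAt)
    (fun t ht => (hf t (interior_subset ht)).1.differentiableAt.differentiableWithinAt)
    fun t ht => by
      rw [(hf t (interior_subset ht)).1.deriv]
      exact (hf t (interior_subset ht)).2

theorem kit_anti {f f' : ℝ → ℝ} {D : Set ℝ} (hD : Convex ℝ D)
    (hf : ∀ t ∈ D, HasDerivAt f (f' t) t ∧ f' t ≤ 0) : AntitoneOn f D := fun _ hx _ hy hxy =>
  neg_le_neg_iff.1 (kit_mono (f := fun t => - f t) (f' := fun t => - f' t) hD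
    (fun t ht => ⟨(hf t ht).1.neg, neg_nonneg.2 (hf t ht).2⟩) hx hy hxy)

/-- bounded convex or concave functions are Lipschitz in the middle -/
theorem lip_of_tri {g g' g'' : ℝ → ℝ} {a δ s : ℝ} (hδ : 0 < δ)
    (h1 : ∀ t ∈ Ioo (a - δ) (a + δ), HasDerivAt g (g' t) t ∧ HasDerivAt g' (g'' t) t ∧ |g t| ≤ 1)
    (h2 : Tri g'' (Ioo (a - δ) (a + δ))) (hs : |s - a| ≤ δ / 2) :
    |g s - g a| ≤ 8 / δ * |s - a| := by
  have hmv : ∀ u v, a - δ < u → v < a + δ → v = u + δ / 4 →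
      ∃ ξ ∈ Ioo u v, |g' ξ| ≤ 8 / δ := fun u v hu hv e => by
    have huv : u < v := by linarith
    have hm : ∀ t ∈ Icc u v, t ∈ Ioo (a - δ) (a + δ) := fun t ht =>
      ⟨hu.trans_le ht.1, ht.2.trans_lt hv⟩
    obtain ⟨ξ, hξ, h3⟩ := exists_hasDerivAt_eq_slope g g' huv
      (fun t ht => (h1 t (hm t ht)).1.continuousAt.continuousWithinAt)
      fun t ht => (h1 t (hm t (Ioo_subset_Icc_self ht))).1
    refine ⟨ξ, hξ, ?_⟩
    have b1 := abs_le.1 (h1 u (hm u ⟨le_rfl, huv.le⟩)).2.2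
    have b2 := abs_le.1 (h1 v (hm v ⟨huv.le, le_rfl⟩)).2.2
    have e1 : v - u = δ / 4 := by linarith
    rw [h3, e1, abs_div, abs_of_pos (by positivity : 0 < δ / 4),
      div_le_div_iff₀ (by positivity) hδ]
    have : |g v - g u| ≤ 2 := abs_le.2 ⟨by linarith, by linarith⟩
    nlinarith
  have hmono : MonotoneOn g' (Ioo (a - δ) (a + δ)) ∨ AntitoneOn g' (Ioo (a - δ) (a + δ)) := by
    rcases h2 with h2 | h2 | h2
    · exact .inl (kit_mono (convex_Ioo _ _) fun t ht => ⟨(h1 t ht).2.1, (h2 t ht).le⟩)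
    · exact .inl (kit_mono (convex_Ioo _ _) fun t ht => ⟨(h1 t ht).2.1, (h2 t ht).ge⟩)
    · exact .inr (kit_anti (convex_Ioo _ _) fun t ht => ⟨(h1 t ht).2.1, (h2 t ht).le⟩)
  have hbd : ∀ u ∈ Icc (a - δ / 2) (a + δ / 2), |g' u| ≤ 8 / δ := fun u hu => by
    obtain ⟨x, hx, b1⟩ := hmv (u - δ / 4) u (by linarith [hu.1]) (by linarith [hu.2]) (by ring)
    obtain ⟨y, hy, b2⟩ := hmv u (u + δ / 4) (by linarith [hu.1]) (by linarith [hu.2]) rfl
    have mx : x ∈ Ioo (a - δ) (a + δ) := ⟨by linarith [hu.1, hx.1], by linarith [hu.2, hx.2]⟩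
    have my : y ∈ Ioo (a - δ) (a + δ) := ⟨by linarith [hu.1, hy.1], by linarith [hu.2, hy.2]⟩
    have mu : u ∈ Ioo (a - δ) (a + δ) := ⟨by linarith [hu.1], by linarith [hu.2]⟩
    rw [abs_le] at b1 b2 ⊢
    rcases hmono with hm | hm
    · exact ⟨b1.1.trans (hm mx mu hx.2.le), (hm mu my hy.1.le).trans b2.2⟩
    · exact ⟨b2.1.trans (hm mu my hy.1.le), (hm mx mu hx.2.le).trans b1.2⟩
  rw [abs_le] at hs
  exact (convex_Icc (a - δ / 2) (a + δ / 2)).norm_image_sub_le_of_norm_hasDerivWithin_le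
    (f' := g') (fun t ht => (h1 t ⟨by linarith [ht.1], by linarith [ht.2]⟩).1.hasDerivWithinAt)
    hbd ⟨by linarith, by linarith⟩ ⟨by linarith, by linarith⟩

/-- a monotone convex function varies little on the left of a point with small slope -/
theorem var_left {g g' g'' : ℝ → ℝ} {a b s : ℝ}
    (h1 : ∀ t ∈ Ioc a b, HasDerivAt g (g' t) t ∧ HasDerivAt g' (g'' t) t ∧ 0 ≤ g' t ∧ 0 ≤ g'' t)
    (hs : s ∈ Ioc a b) : |g s - g b| ≤ g' b * (b - s) := by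
  have hb : b ∈ Ioc a b := ⟨hs.1.trans_le hs.2, le_rfl⟩
  have m1 := kit_mono (convex_Ioc a b) fun t ht => ⟨(h1 t ht).1, (h1 t ht).2.2.1⟩
  have m2 := kit_mono (convex_Ioc a b) fun t ht => ⟨(h1 t ht).2.1, (h1 t ht).2.2.2⟩
  have m3 := kit_mono (f := fun t => g' b * t - g t) (f' := fun t => g' b * 1 - g' t)
    (convex_Ioc a b) fun t ht => ⟨((hasDerivAt_id t).const_mul _).sub (h1 t ht).1, by
      linarith [m2 ht hb ht.2]⟩
  have b1 := m1 hs hb hs.2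
  have b2 := m3 hs hb hs.2
  rw [abs_of_nonpos (sub_nonpos.2 b1)]
  simp only at b2
  linarith

theorem var_right {g g' g'' : ℝ → ℝ} {a b s : ℝ}
    (h1 : ∀ t ∈ Ico a b, HasDerivAt g (g' t) t ∧ HasDerivAt g' (g'' t) t ∧ 0 ≤ g' t ∧ g'' t ≤ 0)
    (hs : s ∈ Ico a b) : |g s - g a| ≤ g' a * (s - a) := by
  have ha : a ∈ Ico a b := ⟨le_rfl, hs.1.trans_lt hs.2⟩
  have m1 := kit_mono (convex_Ico a b) fun t ht => ⟨(h1 t ht).1, (h1 t ht).2.2.1⟩
  have m2 := kit_anti (convex_Ico a b) fun t ht => ⟨(h1 t ht).2.1, (h1 t ht).2.2.2⟩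
  have m3 := kit_mono (f := fun t => g' a * t - g t) (f' := fun t => g' a * 1 - g' t)
    (convex_Ico a b) fun t ht => ⟨((hasDerivAt_id t).const_mul _).sub (h1 t ht).1, by
      linarith [m2 ha ht ht.1]⟩
  have b1 := m1 ha hs hs.1
  have b2 := m3 ha hs hs.1
  rw [abs_of_nonneg (sub_nonneg.2 b1)]
  simp only at b2
  linarith

/-- domination -/
theorem var_dom {g e g' e' : ℝ → ℝ} {a b s t : ℝ}
    (h1 : ∀ u ∈ Ioo a b, HasDerivAt g (g' u) u ∧ HasDerivAt e (e' u) u ∧ |g' u| ≤ e' u)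
    (hs : s ∈ Ioo a b) (ht : t ∈ Ioo a b) : |g s - g t| ≤ |e s - e t| := by
  have m1 := kit_mono (f := fun u => e u - g u) (f' := fun u => e' u - g' u) (convex_Ioo a b)
    fun u hu => ⟨(h1 u hu).2.1.sub (h1 u hu).1, by linarith [(abs_le.1 (h1 u hu).2.2).2]⟩
  have m2 := kit_mono (f := fun u => e u + g u) (f' := fun u => e' u + g' u) (convex_Ioo a b)
    fun u hu => ⟨(h1 u hu).2.1.add (h1 u hu).1, by linarith [(abs_le.1 (h1 u hu).2.2).1]⟩
  rcases le_total s t with hst | hst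
  · have b1 := m1 hs ht hst
    have b2 := m2 hs ht hst
    simp only at b1 b2
    exact abs_le.2 ⟨by linarith [neg_abs_le (e s - e t)], by linarith [neg_abs_le (e s - e t)]⟩
  · have b1 := m1 ht hs hst
    have b2 := m2 ht hs hst
    simp only at b1 b2
    exact abs_le.2 ⟨by linarith [le_abs_self (e s - e t)], by linarith [le_abs_self (e s - e t)]⟩

end Pool.Agent.Lib.MP_1a1eb7_lc
end

-- part Pool.Agent.Lib.MP_1a1eb7_lc.RL0
section

/-! C3b, first part: the statements RL and N, the exit version, and the base case of N. -/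

namespace Pool.Agent.Lib.MP_1a1eb7_lc

open Set Filter Topology Pool.Agent.Shared.OMin
open Ordinal (omega0)

variable {S : OStr} {Γ : Sys} {θ θ₁ θ₂ τ : ℕ → Ordinal.{0}} {P Q Z Z' y : ℕ → U} {n m k r N : ℕ}
  {E E' : ℕ → Fld} {c c' : Ctx} {α β γ : Ordinal.{0}} {K K₀ K₀' K₁ K₂ K' : Fld}

/-- statement RL for `r - n = s` -/
def RLs (S : OStr) (θ : ℕ → Ordinal.{0}) (s : ℕ) : Prop :=
  ∀ (n r : ℕ) (P : ℕ → U) (E : ℕ → Fld) (Z : ℕ → U) (R : Set U), r = n + s →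
    Tow S θ P (r + 1) E → Gen S Z r → Agree Z P n → (∀ i < r, Z i ∈ E (r + 1)) →
    (∃ t ∈ dcl S P (r + 1), t ≠ 0 ∧ Inf (dcl S Z r) t) →
    PC S Z r (stF (dcl S Z r) (E (r + 1))) → R.Finite → R ⊆ stF (dcl S Z r) (E (r + 1)) →
    Out S (fun k => if k = r then θ k + 1 else θ k) n P E (dcl S Z r) r R ∧
    ((∃ j, n ≤ j ∧ j ≤ r ∧ ∃ e ∈ E j, Inf (dcl S Z r) (P j - e)) →
      Out S θ n P E (dcl S Z r) r R)

/-- statement N for `r - n = p` -/
def NPs (S : OStr) (θ : ℕ → Ordinal.{0}) (p : ℕ) : Prop :=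
  ∀ (n r : ℕ) (P : ℕ → U) (E : ℕ → Fld) (Z : ℕ → U) (ρ : U) (R : Set U), r = n + p →
    Tow S θ P (r + 1) E → Gen S Z r → Agree Z P n → (∀ i < r, Z i ∈ E (r + 1)) →
    ρ ∈ dcl S P n → Inf (dcl S Z r) (P n - ρ) → R.Finite → R ⊆ dcl S P n →
    R ⊆ stF (dcl S Z r) (E (r + 1)) →
    ∃ E', Tow S θ P (n + 1) E' ∧ Ext E E' (n + 1) ∧ R ⊆ stF (dcl S P n) (E' (n + 1))

/-- a generic tuple followed by a nonzero infinitesimal spans the definable closure -/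
theorem rl0_span (hZ : Gen S Z r) (hm : ∀ i < r, Z i ∈ dcl S P (r + 1)) {t : U}
    (ht : t ∈ dcl S P (r + 1)) (h0 : t ≠ 0) (hi : Inf (dcl S Z r) t) :
    Gen S (upd Z r t) (r + 1) ∧ dcl S P (r + 1) = dcl S (upd Z r t) (r + 1) := by
  have hg : Gen S (upd Z r t) (r + 1) :=
    hZ.upd (Inf.notMem (f := 0) (zero_mem _) (by simpa using hi) h0)
  refine ⟨hg, (hg.of_span fun i hi' => ?_).2⟩
  rcases Nat.lt_succ_iff_lt_or_eq.1 hi' with h | rfl
  · rw [upd_of_ne h.ne]; exact hm i h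
  · rw [upd_self]; exact ht

/-- the exit version needs no closure hypothesis -/
theorem RLs.exit {s : ℕ} (h : RLs S θ s) (hr : r = n + s) (hT : Tow S θ P (r + 1) E)
    (hZ : Gen S Z r) (ha : Agree Z P n) (hm : ∀ i < r, Z i ∈ E (r + 1)) {j : ℕ} (hj : n ≤ j)
    (hj' : j ≤ r) {e : U} (he : e ∈ E j) (hi : Inf (dcl S Z r) (P j - e)) {R : Set U}
    (hR : R.Finite) (hR' : R ⊆ stF (dcl S Z r) (E (r + 1))) :
    Out S θ n P E (dcl S Z r) r R := by
  have hK := hT.dfld (le_refl (r + 1))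
  have htK : P j - e ∈ E (r + 1) :=
    sub_mem (hT.mem (Nat.lt_succ_of_le hj') le_rfl) (hT.le (by omega) le_rfl he)
  have h0 : P j - e ≠ 0 := fun h0 =>
    hT.gen j (Nat.lt_succ_of_le hj') (sub_eq_zero.1 h0 ▸ (hT.dfld (by omega : j ≤ r + 1)).le he)
  obtain ⟨hg, hd⟩ := rl0_span hZ (fun i hi' => hK.le (hm i hi')) (hK.le htK) h0 hi
  have hpc : PC S (upd Z r (P j - e)) (r + 1) (E (r + 1)) := by
    refine hK.pc.change hK.le hg fun i hi' => ?_
    rcases Nat.lt_succ_iff_lt_or_eq.1 hi' with h | rfl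
    · rw [upd_of_ne h.ne]; exact hm i h
    · rw [upd_self]; exact htK
  have hpc' : PC S Z r (stF (dcl S Z r) (E (r + 1))) := by
    refine pc_stF (c := 0) hZ (zero_mem _) (by simpa using hi) h0 (hd ▸ hK.le) hpc
      fun i _ => ⟨0, zero_mem _, 0, zero_mem _, ?_⟩
    have := pd_real hZ 0 i
    rw [map_zero] at this
    simp [this]
  exact (h n r P E Z R hr hT hZ ha hm ⟨_, hK.le htK, h0, hi⟩ hpc' hR hR').2 ⟨j, hj, hj', e, he, hi⟩

theorem np_zero : NPs S θ 0 := by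
  rintro n r P E Z ρ R rfl hT _ ha _ _ _ _ _ hR
  exact ⟨E, hT, Ext.refl _ _, ha.dcl_eq (S := S) ▸ hR⟩

end Pool.Agent.Lib.MP_1a1eb7_lc
end

-- part Pool.Agent.Lib.MP_1a1eb7_lc.NP
section

/-! C3c: the inductive step for statement N. -/

namespace Pool.Agent.Lib.MP_1a1eb7_lc

open Set Filter Topology Pool.Agent.Shared.OMin
open Ordinal (omega0)

variable {S : OStr} {Γ : Sys} {θ : ℕ → Ordinal.{0}} {P Z : ℕ → U} {n m : ℕ} {E : ℕ → Fld}

/-- `Main` with signs and requests only at the top level -/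
theorem np_sg_top (hM : Main S Γ θ) (hT : Tow S θ P n E) {R : Set U} (hR : R.Finite)
    (hR' : R ⊆ E n) : ∃ (c : Ctx) (E' : ℕ → Fld), Sem S θ c n ∧ Pt S θ c P n E' ∧ Ext E E' n ∧
      ∀ e ∈ R, c.Rep n P e ∧ Sg S c n P e := by
  obtain ⟨c, E', h1, -, h2, h3, h4⟩ := Main.sg hM hT (R := fun k => if k = n then R else ∅)
    (fun k _ => by
      by_cases hk : k = n
      · subst hk; simpa using ⟨hR, hR'⟩
      · simp [hk])
  exact ⟨c, E', h1, h2, h3, fun e he => h4 n le_rfl e (by simpa using he)⟩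

/-- curves along which finitely many monotone functions vary little -/
theorem np_curve {h : ℕ} {ψ : ℕ → Fn (h + 1)} {B : Set (Fin (h + 1) → ℝ)} (hB : IsOpen B)
    (hψ : ∀ i ≤ h, AnalyticOnNhd ℝ (ψ i) B) (hj : ∀ q ∈ B, (jacM ψ q).det ≠ 0)
    (hb : ∀ q ∈ B, |ψ h q| < 1) {ι : Type} (s : Finset ι) (G : ι → Fn (h + 1))
    (hG : ∀ x ∈ s, AnalyticOnNhd ℝ (G x) B) (h0 : ∀ x ∈ s, ∀ q ∈ B, 0 ≤ dirD ψ (G x) q)
    (ht : Tri (dirD ψ fun q => ∑ x ∈ s, dirD ψ (G x) q) B) :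
    ∃ (I : (Fin (h + 1) → ℝ) → Set ℝ) (γ : (Fin (h + 1) → ℝ) → ℝ → Fin (h + 1) → ℝ), ∀ p ∈ B,
      (∀ σ ∈ I p, γ p σ ∈ B ∧ (∀ i < h, ψ i (γ p σ) = ψ i p) ∧
        ∀ x ∈ s, |G x (γ p σ) - G x p| ≤
          ∑ x ∈ s, dirD ψ (G x) p + ∑ x ∈ s, dirD ψ (G x) p) ∧
      ∀ C ⊆ B, IsCompact C → ∃ σ ∈ I p, γ p σ ∉ C := by
  obtain ⟨sm, sp, γ, hγ⟩ := curve_kit hB hψ hj hb
  set G1 : Fn (h + 1) := fun q => ∑ x ∈ s, dirD ψ (G x) q with hG1
  have aG1 : AnalyticOnNhd ℝ G1 B := fun q hq =>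
    Finset.analyticAt_fun_sum s fun x hx => analyticOnNhd_dirD hψ hj (hG x hx) q hq
  have pG1 : ∀ q ∈ B, 0 ≤ G1 q := fun q hq => Finset.sum_nonneg fun x hx => h0 x hx q hq
  have hd : ∀ p ∈ B, ∀ σ ∈ Ioo (sm p) (sp p),
      HasDerivAt (fun t => ∑ x ∈ s, G x (γ p t)) (G1 (γ p σ)) σ ∧
      HasDerivAt (fun t => G1 (γ p t)) (dirD ψ G1 (γ p σ)) σ ∧ 0 ≤ G1 (γ p σ) := by
    intro p hp σ hσ
    obtain ⟨h1, -, -, h2⟩ := (hγ p hp).2.2.2.2.2.1 σ hσ
    exact ⟨HasDerivAt.fun_sum fun x hx => h2 _ (hG x hx), h2 _ aG1, pG1 _ h1⟩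
  have hdom : ∀ p ∈ B, ∀ σ ∈ Ioo (sm p) (sp p), ∀ x ∈ s, |G x (γ p σ) - G x p| ≤
      |∑ x ∈ s, G x (γ p σ) - ∑ x ∈ s, G x (γ p (ψ h p))| := by
    intro p hp σ hσ x hx
    obtain ⟨-, a2, a3, -, a5, a6, -⟩ := hγ p hp
    have := var_dom (g := fun t => G x (γ p t)) (e := fun t => ∑ x ∈ s, G x (γ p t))
      (g' := fun t => dirD ψ (G x) (γ p t)) (e' := fun t => G1 (γ p t))
      (fun u hu => ⟨(a6 u hu).2.2.2 _ (hG x hx), (hd p hp u hu).1, by
        rw [abs_of_nonneg (h0 x hx _ (a6 u hu).1)]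
        exact Finset.single_le_sum (f := fun x => dirD ψ (G x) (γ p u))
          (fun x hx => h0 x hx _ (a6 u hu).1) hx⟩) hσ ⟨a2, a3⟩
    rwa [a5] at this ⊢
  have : (∀ q ∈ B, 0 ≤ dirD ψ G1 q) ∨ ∀ q ∈ B, dirD ψ G1 q ≤ 0 := by
    rcases ht with ht | ht | ht
    · exact Or.inl fun q hq => (ht q hq).le
    · exact Or.inl fun q hq => (ht q hq).ge
    · exact Or.inr fun q hq => (ht q hq).le
  rcases this with ht | ht
  · refine ⟨fun p => Ioo (sm p) (ψ h p), γ, fun p hp => ⟨fun σ hσ => ?_, (hγ p hp).2.2.2.2.2.2.2⟩⟩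
    obtain ⟨a1, a2, a3, a4, a5, a6, -⟩ := hγ p hp
    have hσ' : σ ∈ Ioo (sm p) (sp p) := ⟨hσ.1, hσ.2.trans a3⟩
    refine ⟨(a6 σ hσ').1, (a6 σ hσ').2.1, fun x hx => (hdom p hp σ hσ' x hx).trans ?_⟩
    have := var_left (g := fun t => ∑ x ∈ s, G x (γ p t)) (g' := fun t => G1 (γ p t))
      (g'' := fun t => dirD ψ G1 (γ p t)) (a := sm p) (b := ψ h p) (s := σ)
      (fun t htt => by
        have ht' : t ∈ Ioo (sm p) (sp p) := ⟨htt.1, htt.2.trans_lt a3⟩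
        exact ⟨(hd p hp t ht').1, (hd p hp t ht').2.1, (hd p hp t ht').2.2, ht _ (a6 t ht').1⟩)
      ⟨hσ.1, hσ.2.le⟩
    refine this.trans ?_
    rw [a5]
    change _ ≤ G1 p + G1 p
    nlinarith [pG1 p hp, hσ.1]
  · refine ⟨fun p => Ioo (ψ h p) (sp p), γ, fun p hp =>
      ⟨fun σ hσ => ?_, (hγ p hp).2.2.2.2.2.2.1⟩⟩
    obtain ⟨a1, a2, a3, a4, a5, a6, -⟩ := hγ p hp
    have hσ' : σ ∈ Ioo (sm p) (sp p) := ⟨a2.trans hσ.1, hσ.2⟩
    refine ⟨(a6 σ hσ').1, (a6 σ hσ').2.1, fun x hx => (hdom p hp σ hσ' x hx).trans ?_⟩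
    have := var_right (g := fun t => ∑ x ∈ s, G x (γ p t)) (g' := fun t => G1 (γ p t))
      (g'' := fun t => dirD ψ G1 (γ p t)) (a := ψ h p) (b := sp p) (s := σ)
      (fun t htt => by
        have ht' : t ∈ Ioo (sm p) (sp p) := ⟨a2.trans_le htt.1, htt.2⟩
        exact ⟨(hd p hp t ht').1, (hd p hp t ht').2.1, (hd p hp t ht').2.2, ht _ (a6 t ht').1⟩)
      ⟨hσ.1.le, hσ.2⟩
    refine this.trans ?_
    rw [a5]
    change _ ≤ G1 p + G1 p
    nlinarith [pG1 p hp, hσ.2]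

theorem np_inf_sum {N : Fld} {ι : Type} (s : Finset ι) {f : ι → U} (h : ∀ x ∈ s, Inf N (f x)) :
    Inf N (∑ x ∈ s, f x) :=
  Finset.sum_induction f (Inf N) (fun _ _ => Inf.add) (Inf.zero N) h

/-- Move along the curve on which the first coordinates of `W` are fixed until the boundary of the
cell is reached. -/
theorem np_exit (hM : Main S Γ θ) {h l : ℕ} (hl : l ≤ h) (hT : Tow S θ P (h + 1) E) {W : ℕ → U}
    (hW : Gen S W (h + 1)) (hWP : Agree W P l) (hWK : ∀ i < h + 1, W i ∈ E (h + 1))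
    (hb : |W h| < 1) {ι : Type} (s : Finset ι) (u : ι → U) (hu : ∀ x ∈ s, u x ∈ E (h + 1))
    (h0 : ∀ x ∈ s, 0 ≤ pd S W (h + 1) h (u x)) :
    ∃ (p : ℕ → U) (E' : ℕ → Fld) (j : ℕ) (e : U) (u' : ι → U), Tow S θ p (h + 1) E' ∧
      Agree p P l ∧ Ext E E' l ∧ (∀ i < h, W i ∈ E' (h + 1)) ∧ l ≤ j ∧ j ≤ h ∧ e ∈ E' j ∧
      Inf (dcl S W h) (p j - e) ∧ dcl S p (h + 1) = dcl S (upd W h (p j - e)) (h + 1) ∧
      ∀ x ∈ s, u' x ∈ E' (h + 1) ∧ |u' x - u x| ≤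
        ∑ x ∈ s, pd S W (h + 1) h (u x) + ∑ x ∈ s, pd S W (h + 1) h (u x) := by
  classical
  have hK := hT.dfld le_rfl
  have hPC : PC S W (h + 1) (E (h + 1)) := hK.pc.change hK.le hW hWK
  set d := ∑ x ∈ s, pd S W (h + 1) h (u x) with hd
  set J := Matrix.det (Matrix.of fun i j : Fin (h + 1) => pd S P (h + 1) j (W i)) with hJ
  have hdK : d ∈ E (h + 1) := sum_mem fun x hx => hPC _ _ (hu x hx)
  have hJK : J ∈ E (h + 1) := by
    rw [hJ, Matrix.det_apply']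
    exact sum_mem fun π _ => mul_mem (intCast_mem _ _)
      (prod_mem fun i _ => hK.pc _ _ (hWK _ (π i).2))
  obtain ⟨c, E₁, hc, hp, hE, hR⟩ := np_sg_top hM hT
    (R := (W '' Iio (h + 1) ∪ {1 - W h ^ 2, pd S W (h + 1) h d, J}) ∪
      (u '' s ∪ (fun x => pd S W (h + 1) h (u x)) '' s))
    ((((finite_Iio _).image _).union (toFinite _)).union
      ((s.finite_toSet.image _).union (s.finite_toSet.image _))) (by
      rintro _ ((⟨i, hi, rfl⟩ | rfl | rfl | rfl) | ⟨x, hx, rfl⟩ | ⟨x, hx, rfl⟩)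
      · exact hWK i hi
      · exact sub_mem (one_mem _) (pow_mem (hWK h (Nat.lt_succ_self h)) 2)
      · exact hPC _ _ hdK
      · exact hJK
      · exact hu x hx
      · exact hPC _ _ (hu x hx))
  have hψ : ∀ i, ∃ φ : Fn (h + 1), i ≤ h → (DF S φ ∧ ev φ P = W i) ∧
      AnalyticOnNhd ℝ φ (c.cell (h + 1)) ∧ (i < l → ∀ y, ev φ y = y i) ∧
      (l ≤ i → φ ∈ c.gens (h + 1)) := by
    intro i
    by_cases hi : i < l
    · refine ⟨fun q => q ⟨i, by omega⟩, fun _ => ⟨⟨DF.apply _, ?_⟩, fun q _ => ?_,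
        fun _ y => ev_coord _ y, fun h' => absurd hi (by omega)⟩⟩
      · rw [ev_coord]; exact (hWP i hi).symm
      · exact (ContinuousLinearMap.proj (R := ℝ) (φ := fun _ : Fin (h + 1) => ℝ)
          ⟨i, by omega⟩).analyticAt q
    · by_cases hi' : i ≤ h
      · obtain ⟨φ, h1, h2⟩ := (hR (W i) (Or.inl (Or.inl ⟨i, Nat.lt_succ_of_le hi', rfl⟩))).1
        exact ⟨φ, fun _ => ⟨⟨hc.df _ le_rfl φ h1, h2⟩, hc.an _ le_rfl φ h1,
          fun h' => absurd h' hi, fun _ => h1⟩⟩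
      · exact ⟨fun _ => 0, fun h' => absurd h' hi'⟩
  choose ψ hψ using hψ
  have hG : ∀ x, ∃ φ : Fn (h + 1), x ∈ s → φ ∈ c.gens (h + 1) ∧ ev φ P = u x := by
    intro x
    by_cases hx : x ∈ s
    · obtain ⟨φ, h1⟩ := (hR (u x) (Or.inr (Or.inl ⟨x, hx, rfl⟩))).1
      exact ⟨φ, fun _ => h1⟩
    · exact ⟨fun _ => 0, fun h' => absurd h' hx⟩
  choose G hG using hG
  have dψ : ∀ i ≤ h, DF S (ψ i) := fun i hi => (hψ i hi).1.1
  have aψ : ∀ i ≤ h, AnalyticOnNhd ℝ (ψ i) (c.cell (h + 1)) := fun i hi => (hψ i hi).2.1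
  have dG : ∀ x ∈ s, DF S (G x) := fun x hx => hc.df _ le_rfl _ (hG x hx).1
  have aG : ∀ x ∈ s, AnalyticOnNhd ℝ (G x) (c.cell (h + 1)) := fun x hx =>
    hc.an _ le_rfl _ (hG x hx).1
  have hj : ∀ q ∈ c.cell (h + 1), (jacM ψ q).det ≠ 0 := by
    have e1 : ev (fun q => (jacM ψ q).det) P = J := by
      rw [ev_jac hT.gen dψ, hJ]
      congr 1
      ext i j
      simp only [Matrix.of_apply]
      rw [(hψ i (Nat.le_of_lt_succ i.2)).1.2]
    have t1 := (hR J (Or.inl (Or.inr (by simp)))).2 _ (df_jac dψ) (analyticOnNhd_jac aψ) e1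
    have hJ0 : J ≠ 0 := jac_ne_zero hW fun j hj => hK.le (hWK j hj)
    rcases lt_or_gt_of_ne hJ0 with h1 | h1
    · exact fun q hq => (t1.neg_of hp.has (e1 ▸ h1) q hq).ne
    · exact fun q hq => (t1.pos_of hp.has (e1 ▸ h1) q hq).ne'
  have hb' : ∀ q ∈ c.cell (h + 1), |ψ h q| < 1 := by
    have e1 : ev (fun q => 1 - ψ h q ^ 2) P = 1 - W h ^ 2 := by
      rw [ev_sub, ev_pow, ev_const, map_one, (hψ h le_rfl).1.2]
    have t1 := (hR _ (Or.inl (Or.inr (by simp)))).2 _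
      ((DF.const 1).sub ((dψ h le_rfl).pow 2))
      (fun q hq => analyticAt_const.sub ((aψ h le_rfl q hq).pow 2)) e1
    intro q hq
    have := t1.pos_of hp.has (by rw [e1, sub_pos, sq_lt_one_iff_abs_lt_one]; exact hb) q hq
    rwa [sub_pos, sq_lt_one_iff_abs_lt_one] at this
  have eG : ∀ x ∈ s, ev (dirD ψ (G x)) P = pd S W (h + 1) h (u x) := fun x hx => by
    rw [← pd_dirD hW (fun i hi => (hψ i hi).1) (dG x hx), (hG x hx).2]
  have pG : ∀ x ∈ s, ∀ q ∈ c.cell (h + 1), 0 ≤ dirD ψ (G x) q := fun x hx =>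
    ((hR _ (Or.inr (Or.inr ⟨x, hx, rfl⟩))).2 _ (df_dirD dψ (dG x hx))
      (analyticOnNhd_dirD aψ hj (aG x hx)) (eG x hx)).nonneg_of hp.has
      (by rw [eG x hx]; exact h0 x hx)
  have eS : ev (fun q => ∑ x ∈ s, dirD ψ (G x) q) P = d := by
    rw [ev_sum, hd]; exact Finset.sum_congr rfl eG
  have dS : DF S fun q => ∑ x ∈ s, dirD ψ (G x) q := DF.sum s fun x hx => df_dirD dψ (dG x hx)
  have tS : Tri (dirD ψ fun q => ∑ x ∈ s, dirD ψ (G x) q) (c.cell (h + 1)) :=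
    (hR (pd S W (h + 1) h d) (Or.inl (Or.inr (by simp)))).2 _ (df_dirD dψ dS)
      (analyticOnNhd_dirD aψ hj fun q hq => Finset.analyticAt_fun_sum s fun x hx =>
        analyticOnNhd_dirD aψ hj (aG x hx) q hq)
      (by rw [← pd_dirD hW (fun i hi => (hψ i hi).1) dS, eS])
  obtain ⟨I, γ, hγ⟩ := np_curve (hc.isOpen le_rfl) aψ hj hb' s G aG pG tS
  obtain ⟨σ, p, hσ, j, hjh, hex⟩ := exists_exit hc (sm_tp P (h + 1)) I γ
    (hp.has.mono fun ω hω => ⟨fun σ hσ => ((hγ _ hω).1 σ hσ).1, (hγ _ hω).2⟩) W h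
  have hh : c.Has (h + 1) p := by
    filter_upwards [hσ, hp.has] with ω h1 h2
    rw [h1.2]; exact ((hγ _ h2).1 _ h1.1).1
  have eψ : ∀ i < h, ev (ψ i) p = W i := fun i hi => by
    rw [← (hψ i hi.le).1.2]
    refine ev_eq ?_
    filter_upwards [hσ, hp.has, out_ev (ψ i) P] with ω h1 h2 h3
    rw [h3, h1.2, ((hγ _ h2).1 _ h1.1).2.1 i hi]
  have hpP : Agree p P l := fun i hi => by
    rw [← (hψ i (by omega)).2.2.1 hi p, eψ i (by omega), hWP i hi]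
  obtain ⟨φ, hφ, hi, hne⟩ : ∃ φ ∈ c.gens j, Inf (dcl S W h) (p j - ev φ p) ∧ p j - ev φ p ≠ 0 := by
    obtain ⟨-, h1, h2⟩ := Ctx.has_succ.1 (hh.down (Nat.succ_le_of_lt hjh))
    rcases hex with hex | hex
    · exact ⟨_, hc.lo_mem j hjh, hex, (sub_pos.2 h1).ne'⟩
    · exact ⟨_, hc.hi_mem j hjh, hex, (sub_neg.2 h2).ne⟩
  have dφ : DF S φ := hc.df j hjh.le φ hφ
  have hlj : l ≤ j := by
    by_contra hlt
    have hm : ∀ i < j + 1, p i ∈ dcl S W h := fun i hi => by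
      rw [hpP i (by omega), ← hWP i (by omega)]
      exact self_mem_dcl (by omega)
    exact hne (hi.eq_zero (sub_mem (hm j (Nat.lt_succ_self j))
      (ev_mem (fun i hi => hm i (by omega)) dφ)))
  have hg2 : Gen S (upd W h (p j - ev φ p)) (h + 1) :=
    (hW.mono (Nat.le_succ h)).upd (Inf.notMem (zero_mem _) (by rwa [sub_zero]) hne)
  obtain ⟨hgp, hdp⟩ := hg2.of_span (P := p) fun i hi => by
    rcases Nat.lt_succ_iff_lt_or_eq.1 hi with hi | rfl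
    · rw [upd_of_ne hi.ne, ← eψ i hi]
      exact ev_mem_dcl (dψ i hi.le)
    · rw [upd_self]
      exact sub_mem (self_mem_dcl hjh) (dcl_mono hjh.le (ev_mem_dcl dφ))
  obtain ⟨E₂, hp₂, hE₂⟩ := hc.tower_up (Nat.le_succ_of_le hl) hgp hh
    ((hp.down (Nat.le_succ_of_le hl)).congr hpP.symm)
  refine ⟨p, E₂, j, ev φ p, fun x => ev (G x) p, hp₂.tow, hpP, fun k hk => ?_, fun i hi' => ?_,
    hlj, Nat.le_of_lt_succ hjh, hp₂.vals j hjh.le φ hφ, hi, hdp, fun x hx =>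
      ⟨hp₂.vals _ le_rfl _ (hG x hx).1, ?_⟩⟩
  · rw [hE₂ k hk]; exact hE k (by omega)
  · rw [← eψ i hi']
    by_cases hil : i < l
    · rw [(hψ i hi'.le).2.2.1 hil p]
      exact hp₂.tow.mem (Nat.lt_succ_of_lt hi') le_rfl
    · exact hp₂.vals _ le_rfl _ ((hψ i hi'.le).2.2.2 (not_lt.1 hil))
  · rw [← (hG x hx).2, ← eS, le_iff]
    filter_upwards [hσ, hp.has, out_abs (ev (G x) p - ev (G x) P), out_sub (ev (G x) p) (ev (G x) P),
      out_ev (G x) p, out_ev (G x) P, out_ev (fun q => ∑ x ∈ s, dirD ψ (G x) q) P,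
      out_add (ev (fun q => ∑ x ∈ s, dirD ψ (G x) q) P) (ev (fun q => ∑ x ∈ s, dirD ψ (G x) q) P)]
      with ω h1 h2 h3 h4 h5 h6 h7 h8
    rw [h3, h4, h5, h6, h8, h7, h1.2]
    exact ((hγ _ h2).1 _ h1.1).2.2 x hx

theorem np_succ (hG : Good S Γ θ) (hθ : Clo θ) {p : ℕ} (h1 : RLs S θ p) (h2 : NPs S θ p) :
    NPs S θ (p + 1) := by
  classical
  intro n r P E Z ρ R hr hT hZ ha hm hρ hi hR hRP hRK
  obtain ⟨m, hnm, rfl⟩ : ∃ m, m = n + p ∧ r = m + 1 := ⟨n + p, rfl, hr⟩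
  have hle : n ≤ m := by omega
  have hK := hT.dfld le_rfl
  have ht0 : P n - ρ ≠ 0 := fun h => hT.gen n (by omega) (by rw [sub_eq_zero.1 h]; exact hρ)
  set a := sq1 (Z m) with haa
  obtain ⟨hZ₁, hN⟩ := hZ.of_span (P := upd Z m a) fun i hi => by
    rcases Nat.lt_succ_iff_lt_or_eq.1 hi with hi | rfl
    · rw [← upd_of_ne (P := Z) hi.ne a]
      exact self_mem_dcl (by omega)
    · rw [← sq1i_sq1 (Z i)]
      exact sq1i_mem (mem_dcl_upd a)
  set Y : ℕ → U := fun i => if i ≤ n then P i else Z (i - 1) with hY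
  have Y1 : ∀ i ≤ n, Y i = P i := fun i hi => if_pos hi
  have Y2 : ∀ i, n ≤ i → Y (i + 1) = Z i := fun i hi => if_neg (by omega)
  set W := upd Y (m + 1) a with hW
  have W1 : ∀ i < m + 1, W i = Y i := fun i hi => upd_of_ne hi.ne a
  have W2 : W (m + 1) = a := upd_self a
  set T := upd (upd Z m a) (m + 1) (P n - ρ) with hTT
  have T1 : ∀ i < m, T i = Z i := fun i hi => by
    rw [hTT, upd_of_ne (by omega), upd_of_ne hi.ne]
  have T2 : T m = a := by rw [hTT, upd_of_ne (by omega), upd_self]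
  have T3 : T (m + 1) = P n - ρ := upd_self _
  have hi₁ : Inf (dcl S (upd Z m a) (m + 1)) (P n - ρ) := hN ▸ hi
  have hTg : Gen S T (m + 1 + 1) := hZ₁.upd (Inf.notMem (zero_mem _) (by rwa [sub_zero]) ht0)
  have hPY : dcl S P n ≤ dcl S Y (m + 1) := dcl_le fun i hi => by
    rw [← Y1 i hi.le]; exact self_mem_dcl (by omega)
  have hZY : ∀ i < m, ∃ j < m + 1, Z i = Y j := fun i hi => by
    by_cases hin : i < n
    · exact ⟨i, by omega, by rw [Y1 i hin.le, ha i hin]⟩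
    · exact ⟨i + 1, by omega, (Y2 i (not_lt.1 hin)).symm⟩
  have hYW : dcl S Y (m + 1) ≤ dcl S W (m + 1 + 1) := dcl_le_upd a
  obtain ⟨hWg, hWT⟩ := hTg.of_span (P := W) fun i hi => by
    rcases Nat.lt_succ_iff_lt_or_eq.1 hi with hi | rfl
    · rcases Nat.lt_succ_iff_lt_or_eq.1 hi with hi | rfl
      · obtain ⟨j, hj, e⟩ := hZY i hi
        rw [T1 i hi, e]
        exact hYW (self_mem_dcl hj)
      · rw [T2]; exact mem_dcl_upd a
    · rw [T3, ← Y1 n le_rfl]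
      exact hYW (sub_mem (self_mem_dcl (by omega)) (hPY hρ))
  have hWK : ∀ i < m + 1 + 1, W i ∈ E (m + 1 + 1) := fun i hi => by
    rcases Nat.lt_succ_iff_lt_or_eq.1 hi with hi | rfl
    · rw [W1 i hi]
      by_cases hin : i ≤ n
      · rw [Y1 i hin]; exact hT.mem (by omega) le_rfl
      · obtain ⟨j, rfl⟩ : ∃ j, i = j + 1 := ⟨i - 1, by omega⟩
        rw [Y2 j (by omega)]; exact hm j (by omega)
    · rw [W2]; exact sq1_mem (hm m (Nat.lt_succ_self m))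
  have hPW : dcl S P (m + 1 + 1) = dcl S W (m + 1 + 1) :=
    (hWg.of_span fun i hi => hK.le (hWK i hi)).2
  have hTP : Agree T P n := fun i hi => by rw [T1 i (by omega), ha i hi]
  have hkill : ∀ b ∈ dcl S P n, pd S T (m + 1 + 1) m b = 0 := fun b hb => by
    rw [pd_of_le hTg (by omega : n ≤ m + 1 + 1) (hTP.dcl_eq ▸ hb), pd_of_ge hle]
  have hD : ∀ b ∈ dcl S W (m + 1 + 1),
      pd S T (m + 1 + 1) m b = pd S W (m + 1 + 1) (m + 1) b := fun b hb => by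
    rw [pd_change hTg hWg (fun j hj => hWT ▸ self_mem_dcl hj) hb, Finset.sum_range_succ, W2, ← T2,
      pd_coord hTg (by omega), if_pos rfl, mul_one, Finset.sum_eq_zero, zero_add]
    intro j hj
    have hj := Finset.mem_range.1 hj
    rw [W1 j hj]
    refine mul_eq_zero_of_right _ ?_
    rcases lt_trichotomy j n with hjn | rfl | hjn
    · rw [Y1 j hjn.le]; exact hkill _ (self_mem_dcl hjn)
    · have hρT : ρ ∈ dcl S T (m + 1 + 1) := dcl_mono (by omega) (hTP.dcl_eq ▸ hρ)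
      rw [Y1 j le_rfl, ← sub_add_cancel (P j) ρ, ← T3, pd_add hTg (self_mem_dcl (by omega)) hρT,
        hkill ρ hρ, pd_coord hTg (by omega), if_neg (by omega), add_zero]
    · obtain ⟨j, rfl⟩ : ∃ k, j = k + 1 := ⟨j - 1, by omega⟩
      rw [Y2 j (by omega), ← T1 j (by omega), pd_coord hTg (by omega), if_neg (by omega)]
  have hZP : dcl S Z n = dcl S P n := ha.dcl_eq
  have hDinf : ∀ x ∈ dcl S P n, ∀ u ∈ E (m + 1 + 1), Inf (dcl S Z (m + 1)) (u - x) →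
      Inf (dcl S Z (m + 1)) (pd S W (m + 1 + 1) (m + 1) u) := fun x hx u hu hux => by
    have huW : u ∈ dcl S W (m + 1 + 1) := hPW ▸ hK.le hu
    have hx₁ : x ∈ dcl S (upd Z m a) n :=
      ((agree_upd (P := Z) a).mono hle).dcl_eq ▸ hZP ▸ hx
    have := pd_st hZ₁ hi₁ ht0 (hWT ▸ huW) (dcl_mono (by omega) hx₁) (hN ▸ hux)
      (Nat.lt_succ_self m)
    rwa [pd_of_le hZ₁ (by omega : n ≤ m + 1) hx₁, pd_of_ge hle, sub_zero, hN, hD u huW] at this
  have hch : ∀ x, ∃ y u : U, x ∈ R → (y = x ∨ y = -x) ∧ u ∈ E (m + 1 + 1) ∧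
      Inf (dcl S Z (m + 1)) (u - y) ∧ 0 ≤ pd S W (m + 1 + 1) (m + 1) u := by
    intro x
    by_cases hx : x ∈ R
    · obtain ⟨-, u, hu, hux⟩ := hRK hx
      rcases le_total 0 (pd S W (m + 1 + 1) (m + 1) u) with h0 | h0
      · exact ⟨x, u, fun _ => ⟨Or.inl rfl, hu, hux, h0⟩⟩
      · refine ⟨-x, -u, fun _ => ⟨Or.inr rfl, neg_mem hu, ?_, ?_⟩⟩
        · convert hux.neg using 1; ring
        · rw [pd_neg hWg (hPW ▸ hK.le hu)]; exact neg_nonneg.2 h0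
    · exact ⟨0, 0, fun h => absurd h hx⟩
  choose y u hyu using hch
  have hy : ∀ x ∈ R, y x ∈ dcl S P n := fun x hx => by
    rcases (hyu x hx).1 with e | e <;> rw [e]
    exacts [hRP hx, neg_mem (hRP hx)]
  obtain ⟨q, E₂, j, e, u', hT₂, hqP, hE₂, hWE, hj1, hj2, he, hie, hdq, hu'⟩ :=
    np_exit hG.1 (h := m + 1) (l := n + 1) (by omega) hT hWg
      (fun i hi => by rw [W1 i (by omega), Y1 i (by omega)]) hWK (W2 ▸ abs_sq1_lt _)
      hR.toFinset u (fun x hx => (hyu x (hR.mem_toFinset.1 hx)).2.1)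
      (fun x hx => (hyu x (hR.mem_toFinset.1 hx)).2.2.2)
  have hWY : Agree W Y (m + 1) := agree_upd a
  rw [hWY.dcl_eq] at hie
  rw [(hWY.upd _).dcl_eq] at hdq
  have hsum := np_inf_sum hR.toFinset (f := fun x => pd S W (m + 1 + 1) (m + 1) (u x))
    fun x hx => hDinf _ (hy x (hR.mem_toFinset.1 hx)) _ (hyu x (hR.mem_toFinset.1 hx)).2.1
      (hyu x (hR.mem_toFinset.1 hx)).2.2.1
  have hnear : ∀ x ∈ R, Inf (dcl S Z (m + 1)) (u' x - y x) := fun x hx => by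
    have h3 : Inf (dcl S Z (m + 1)) (u' x - u x) :=
      (hsum.add hsum).of_le ((hu' x (hR.mem_toFinset.2 hx)).2.trans (le_abs_self _))
    convert h3.add (hyu x hx).2.2.1 using 1; ring
  have hst : ∀ x, ∃ z : U, x ∈ R → z ∈ dcl S Y (m + 1) ∧ Inf (dcl S Y (m + 1)) (u' x - z) := by
    intro x
    by_cases hx : x ∈ R
    · obtain ⟨z, hz, hz'⟩ := exists_st hie
        (hdq ▸ (hT₂.dfld le_rfl).le (hu' x (hR.mem_toFinset.2 hx)).1)
        ⟨|y x| + 1, add_mem (abs_mem_if (hPY (hy x hx))) (one_mem _), by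
          have h3 := hnear x hx 1 (one_mem _) one_pos
          have h4 := abs_sub_abs_le_abs_sub (u' x) (y x)
          linarith⟩
      exact ⟨z, fun _ => ⟨hz, hz' Y (m + 1) le_rfl hie⟩⟩
    · exact ⟨0, fun h => absurd h hx⟩
  choose z hz using hst
  have hYq : Agree Y q (n + 1) := fun i hi => by rw [Y1 i (by omega), hqP i hi]
  have hYE : ∀ i < m + 1, Y i ∈ E₂ (m + 1 + 1) := fun i hi => W1 i hi ▸ hWE i hi
  obtain ⟨Q, E₃, hQq, hT₃, -, hE₃, hR₃⟩ := h1.exit (n := n + 1) (r := m + 1) (by omega) hT₂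
    (hWY.gen (hWg.mono (Nat.le_succ _))) hYq hYE hj1 hj2 he hie
    (R := z '' R ∪ Y '' Iio (m + 1)) ((hR.image _).union ((finite_Iio _).image _)) (by
      rintro _ (⟨x, hx, rfl⟩ | ⟨i, hi, rfl⟩)
      · exact ⟨(hz x hx).1, u' x, (hu' x (hR.mem_toFinset.2 hx)).1, (hz x hx).2⟩
      · exact ⟨self_mem_dcl hi, Y i, hYE i hi, by rw [sub_self]; exact Inf.zero _⟩)
  have hQP : Agree Q P (n + 1) := hQq.trans hqP
  have hQd : dcl S Q n = dcl S P n := (hQP.mono (Nat.le_succ n)).dcl_eq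
  have hZZ : dcl S Z m ≤ dcl S Z (m + 1) := dcl_mono (Nat.le_succ m)
  have hZYle : dcl S Z m ≤ dcl S Y (m + 1) := dcl_le fun i hi => by
    obtain ⟨j, hj, e⟩ := hZY i hi
    rw [e]; exact self_mem_dcl hj
  obtain ⟨E₄, hT₄, hE₄, hR₄⟩ := h2 n m Q E₃ Z ρ (y '' R) hnm hT₃ (hZ.mono (Nat.le_succ m))
    (ha.trans (hQP.mono (Nat.le_succ n)).symm)
    (fun i hi => by
      obtain ⟨j, hj, e⟩ := hZY i hi
      rw [e]; exact hR₃ (Or.inr ⟨j, hj, rfl⟩))
    (hQd ▸ hρ) (by rw [hQP n (Nat.lt_succ_self n)]; exact hi.anti hZZ) (hR.image _)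
    (by rintro _ ⟨x, hx, rfl⟩; exact hQd ▸ hy x hx)
    (by
      rintro _ ⟨x, hx, rfl⟩
      refine ⟨dcl_mono hle (hZP ▸ hy x hx), z x, hR₃ (Or.inl ⟨x, hx, rfl⟩), ?_⟩
      convert ((hnear x hx).anti hZZ).sub ((hz x hx).2.anti hZYle) using 1; ring)
  refine ⟨E₄, hT₄.congr hQP, (hE₂.trans hE₃).trans hE₄, fun x hx => ?_⟩
  have h3 : y x ∈ stF (dcl S P n) (E₄ (n + 1)) := hQd ▸ hR₄ ⟨x, hx, rfl⟩
  rcases (hyu x hx).1 with e | e <;> rw [e] at h3
  exacts [h3, neg_neg x ▸ neg_mem h3]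

end Pool.Agent.Lib.MP_1a1eb7_lc
end

-- part Pool.Agent.Lib.MP_1a1eb7_lc.RL
section

/-! C3b: second order limits (RL). -/

namespace Pool.Agent.Lib.MP_1a1eb7_lc

open Set Filter Topology Pool.Agent.Shared.OMin
open Ordinal (omega0)

variable {S : OStr} {Γ : Sys} {θ θ₁ θ₂ τ : ℕ → Ordinal.{0}} {P Q Z Z' y : ℕ → U} {n m k r N : ℕ}
  {E E' : ℕ → Fld} {c c' : Ctx} {α β γ : Ordinal.{0}} {K K₀ K₀' K₁ K₂ K' : Fld}

/-- the first index from `n` on where a tuple of elements of `dcl Z r` stops being generic -/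
theorem rl_first {u : ℕ → U} (hu : ∀ i < r + 1, u i ∈ dcl S Z r) (hn : Gen S u n) (hr : n ≤ r) :
    ∃ n', n ≤ n' ∧ n' ≤ r ∧ Gen S u n' ∧ u n' ∈ dcl S u n' := by
  by_contra hc
  push Not at hc
  have key : ∀ k, n ≤ k → k ≤ r + 1 → Gen S u k := by
    intro k hk
    induction k, hk using Nat.le_induction with
    | base => exact fun _ => hn
    | succ k hk ih => exact fun h => (ih (by omega)).succ (hc k hk (by omega) (ih (by omega)))
  have := (key (r + 1) (by omega) le_rfl).le_of_mem hu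
  omega

/-- the case where the point itself is adjacent to its prefix -/
theorem rl_top (hG : Good S Γ θ) (hθ : Clo θ) (hT : Tow S θ P (r + 1) E) {ρ : U}
    (hρ : ρ ∈ dcl S P r) (hi : Inf (dcl S P r) (P r - ρ))
    (hpc : PC S P r (stF (dcl S P r) (E (r + 1)))) {R : Set U} (hR : R.Finite)
    (hR' : R ⊆ stF (dcl S P r) (E (r + 1))) :
    Out S (fun k => if k = r then θ k + 1 else θ k) r P E (dcl S P r) r R ∧
      ∀ e ∈ E r, Inf (dcl S P r) (P r - e) → Out S θ r P E (dcl S P r) r R := by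
  have hP : Gen S P r := hT.gen.mono (Nat.le_succ r)
  refine ⟨?_, fun e he hie => ?_⟩
  · obtain ⟨β, hβ, hc⟩ := hT.pres (r + 1) le_rfl
    have hc' : Pres S (upd P r (P r)) (r + 1) (adj (E r) (P r)) (E (r + 1)) β := by
      rw [upd_eq_self]; exact hc
    have hne : P r ≠ ρ := fun h => hT.gen.last (h ▸ hρ)
    have hn := (Pres.node_pc hP (hT.dfld (Nat.le_succ r)) hρ hne hi (hT.bd r (Nat.lt_succ_self r))
      hc' hpc).1
    have hγ : omega0 ^ (β + 1) ≤ omega0 ^ θ (r + 1) :=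
      Ordinal.opow_le_opow_right Ordinal.omega0_pos (Order.add_one_le_of_lt hβ)
    have hT' := Tow.extend_top' (τ := fun k => if k = r then θ k + 1 else θ k)
      (CloFrom.mono hθ (Nat.zero_le r)) (hT.down (Nat.le_succ r)) hn hγ
      (fun k hk => by simp [hk.ne]) (by simp)
    refine ⟨P, _, Agree.refl _ _, hT', fun i hi' => self_mem_dcl hi', fun k hk => ?_, ?_⟩
    · rcases hk.lt_or_eq with h | rfl
      · rw [Function.update_of_ne h.ne]
      · rw [Function.update_self]; exact hn.le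
    · rw [Function.update_self]; exact hR'
  · have := hG.2 r r P E P e R le_rfl hT hP (Agree.refl _ _)
      (fun i hi' => hT.mem (by omega) le_rfl) he hie hR hR'
    exact this.mono (fun k hk => by simp [skip, hk]) le_rfl subset_rfl

/-- the case where an earlier coordinate is adjacent to its prefix -/
theorem rl_low (hG : Good S Γ θ) (hθ : Clo θ) (hn : n < r) (h : NPs S θ (r - n))
    (hT : Tow S θ P (r + 1) E) (hZ : Gen S Z r) (ha : Agree Z P n)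
    (hm : ∀ i < r, Z i ∈ E (r + 1)) {ρ : U} (hρ : ρ ∈ dcl S P n)
    (hi : Inf (dcl S Z r) (P n - ρ)) (hpc : PC S Z r (stF (dcl S Z r) (E (r + 1)))) {R : Set U}
    (hR : R.Finite) (hR' : R ⊆ stF (dcl S Z r) (E (r + 1))) :
    Out S θ n P E (dcl S Z r) r R := by
  have hρ' : ρ ∈ dcl S Z n := ha.dcl_eq (S := S) ▸ hρ
  have hle : dcl S P n ≤ dcl S Z r := ha.dcl_eq (S := S) ▸ dcl_mono hn.le
  have hst : ρ ∈ stF (dcl S Z r) (E (r + 1)) :=
    ⟨hle hρ, P n, hT.mem (by omega) le_rfl, hi⟩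
  obtain ⟨E1, hT1, he1, hR1⟩ := h n r P E Z ρ ((fun i => pd S P n i ρ) '' Iio n) (by omega) hT hZ
    ha hm hρ hi ((finite_Iio n).image _) (by rintro _ ⟨i, _, rfl⟩; exact pd_mem i ρ) (by
      rintro _ ⟨i, _, rfl⟩
      have := hpc i ρ hst
      rwa [pd_of_le hZ hn.le hρ', ha.pd_eq] at this)
  obtain ⟨E2, hT2, he2, hρ2⟩ := node_main hG.1 hθ hT1 (hT.pos (by omega)) hρ (hi.anti hle)
    fun i hi' => hR1 ⟨i, hi', rfl⟩
  obtain ⟨E3, hT3, h32, he3⟩ := Tow.reattach (τ := θ) hT (by omega : n ≤ r + 1) hT2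
    ((he1.mono (Nat.le_succ n)).trans he2) (fun _ _ => le_rfl) fun _ _ _ => le_rfl
  have := hG.2 n r P E3 Z ρ R hn.le hT3 hZ ha (fun i hi' => he3 _ le_rfl (hm i hi'))
    (h32 n le_rfl ▸ hρ2) hi hR (hR'.trans (stF_mono (he3 _ le_rfl)))
  refine (this.mono (fun k hk => ?_) le_rfl subset_rfl).of_ext (he3.mono (by omega))
    (Agree.refl _ _)
  unfold skip
  split_ifs
  · exact le_rfl
  · exact CloFrom.succ_le hθ (Nat.zero_le k) (hT.pos (by omega))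

theorem rl_step (hG : Good S Γ θ) (hθ : Clo θ) {s : ℕ} (h : ∀ p ≤ s, NPs S θ p) :
    RLs S θ s := by
  rintro n r P E Z R hr hT hZ ha hm ⟨t, ht, h0, hti⟩ hpc hR hR'
  have hK := hT.dfld (le_refl (r + 1))
  have hnr : n ≤ r := by omega
  obtain ⟨_, hd⟩ := rl0_span hZ (fun i hi => hK.le (hm i hi)) ht h0 hti
  have hu : ∀ i, ∃ u, i < r + 1 → u ∈ dcl S Z r ∧ Inf (dcl S Z r) (P i - u) := by
    intro i
    by_cases hi : i < r + 1
    · obtain ⟨ρ, hρ, h1⟩ := exists_st hti (hd ▸ self_mem_dcl hi : P i ∈ _)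
        ⟨1, one_mem _, (hT.bd i hi).le⟩
      exact ⟨ρ, fun _ => ⟨hρ, h1 Z r le_rfl hti⟩⟩
    · exact ⟨0, fun h => absurd h hi⟩
  choose u hu using hu
  have hun : Agree u P n := fun i hi => by
    have h1 : P i ∈ dcl S Z r := ha i hi ▸ self_mem_dcl (by omega)
    have h2 := hu i (by omega)
    exact (sub_eq_zero.1 (h2.2.eq_zero (sub_mem h1 h2.1))).symm
  obtain ⟨n', hn1, hn2, hg, G, dG, hG'⟩ := rl_first (fun i hi => (hu i hi).1)
    (hun.symm.gen (hT.gen.mono (by omega))) hnr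
  obtain ⟨Zb, hb1, hb2, hb3⟩ := hg.extend hZ fun i hi => (hu i (by omega)).1
  obtain ⟨Z', hZ'⟩ : ∃ Z' : ℕ → U, ∀ i, Z' i = if i < n' then P i else Zb i := ⟨_, fun _ => rfl⟩
  have ha' : Agree Z' P n' := fun i hi => by rw [hZ', if_pos hi]
  have hall : ∀ i < r, Zb i ∈ dcl S Z r ∧ Z' i ∈ E (r + 1) ∧ Inf (dcl S Z r) (Z' i - Zb i) := by
    intro i hi
    rw [hZ']
    split_ifs with h1
    · rw [hb1 i h1]
      exact ⟨(hu i (by omega)).1, hT.mem (by omega) le_rfl, (hu i (by omega)).2⟩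
    · obtain ⟨j, hj, e⟩ := hb3 i (by omega) hi
      rw [e]
      exact ⟨self_mem_dcl hj, hm j hj, by simpa using Inf.zero _⟩
  have hdb : dcl S Z r = dcl S Zb r := (hb2.of_span fun i hi => (hall i hi).1).2
  obtain ⟨hs, hnear⟩ := near_sameTp hb2 (fun i hi => (hall i hi).1) fun i hi => (hall i hi).2.2
  have hiff : ∀ {e : U}, Inf (dcl S Z' r) e ↔ Inf (dcl S Z r) e :=
    near_inf_iff hb2 (fun i hi => (hall i hi).1) fun i hi => (hall i hi).2.2
  have hg' : Gen S Z' r := hs.symm.gen hb2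
  have htr : ∀ {a b : U}, Tr S Z' Zb r a b → Inf (dcl S Z r) (a - b) := by
    rintro _ _ ⟨F, dF, rfl, rfl⟩
    exact hnear F dF
  have hst : ∀ {a b : U}, Tr S Z' Zb r a b →
      (a ∈ stF (dcl S Z' r) (E (r + 1)) ↔ b ∈ stF (dcl S Z r) (E (r + 1))) := by
    intro a b hab
    constructor
    · rintro ⟨_, e, he, h1⟩
      exact ⟨hdb ▸ hab.mem_right, e, he, by simpa using (hiff.1 h1).add (htr hab)⟩
    · rintro ⟨_, e, he, h1⟩
      exact ⟨hab.mem_left, e, he, hiff.2 (by simpa using h1.sub (htr hab))⟩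
  have hpcb : PC S Zb r (stF (dcl S Z r) (E (r + 1))) :=
    hpc.change stF_le hb2 fun i hi => ⟨(hall i hi).1, _, (hall i hi).2.1, (hall i hi).2.2⟩
  have hpc' : PC S Z' r (stF (dcl S Z' r) (E (r + 1))) := fun i a ha => by
    obtain ⟨b, hab⟩ := exists_tr Zb (stF_le ha)
    exact (hst (hs.tr_pd hg' hab i)).2 (hpcb i b ((hst hab).1 ha))
  have hf : ∀ b, ∃ a, b ∈ R → Tr S Z' Zb r a b := by
    intro b
    by_cases hb : b ∈ R
    · obtain ⟨a, hab⟩ := exists_tr Z' (hdb ▸ stF_le (hR' hb) : b ∈ dcl S Zb r)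
      exact ⟨a, fun _ => hab.symm⟩
    · exact ⟨0, fun h => absurd h hb⟩
  choose f hf using hf
  have hR1 : f '' R ⊆ stF (dcl S Z' r) (E (r + 1)) := by
    rintro _ ⟨b, hb, rfl⟩
    exact (hst (hf b hb)).2 (hR' hb)
  have hlev : ∀ j ≤ n', ∀ F : Fn j, DF S F → Inf (dcl S Z r) (ev F P - ev F u) := by
    intro j hj F dF
    rw [← (ha'.mono hj).ev_eq, ← (hb1.mono hj).ev_eq]
    exact htr (Tr.mono ⟨F, dF, rfl, rfl⟩ (by omega))
  have hρ : Inf (dcl S Z' r) (P n' - ev G P) := hiff.2 (by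
    have := (hu n' (by omega)).2.sub (hlev n' le_rfl G dG)
    rw [hG'] at this
    simpa using this)
  have red : ∀ τ : ℕ → Ordinal.{0}, Out S τ n' P E (dcl S Z' r) r (f '' R) →
      Out S τ n P E (dcl S Z r) r R := fun τ ho => by
    rw [hdb]
    exact (ho.mono (fun _ _ => le_rfl) hn1 subset_rfl).transport hnr hs (ha'.mono hn1)
      ((hb1.mono hn1).trans hun) fun b hb => ⟨f b, ⟨b, hb, rfl⟩, hf b hb⟩
  rcases hn2.lt_or_eq with hlt | rfl
  · have := red θ (rl_low hG hθ hlt (h _ (by omega)) hT hg' ha' (fun i hi => (hall i hi).2.1)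
      (ev_mem_dcl dG) hρ hpc' (hR.image f) hR1)
    refine ⟨this.mono (fun k _ => ?_) le_rfl subset_rfl, fun _ => this⟩
    split_ifs
    · exact le_self_add
    · exact le_rfl
  · have e : dcl S Z' n' = dcl S P n' := ha'.dcl_eq
    have hpc2 : PC S P n' (stF (dcl S P n') (E (n' + 1))) := fun i a ha => by
      rw [← ha'.pd_eq, ← e]
      exact hpc' i a (e ▸ ha)
    obtain ⟨h1, h2⟩ := rl_top hG hθ hT (ev_mem_dcl dG) (e ▸ hρ) hpc2 (hR.image f) (e ▸ hR1)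
    refine ⟨red _ (e ▸ h1), ?_⟩
    rintro ⟨j, _, hj, x, hx, hix⟩
    rcases hj.lt_or_eq with hlt | rfl
    · exfalso
      obtain ⟨F, dF, rfl⟩ := (hT.dfld (by omega : j ≤ n' + 1)).le hx
      have h3 : Inf (dcl S Z n') (u j - ev F u) := by
        have := (hix.sub (hu j (by omega)).2).add (hlev j hj F dF)
        simpa using this
      have h4 : ev F u ∈ dcl S Z n' := ev_mem (fun i hi => (hu i (by omega)).1) dF
      have h5 := sub_eq_zero.1 (h3.eq_zero (sub_mem (hu j (by omega)).1 h4))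
      exact hg j hlt (h5 ▸ ev_mem_dcl dF)
    · exact red _ (e ▸ h2 x hx (e ▸ hiff.2 hix))

theorem rl (hG : Good S Γ θ) (hθ : Clo θ) (s : ℕ) : RLs S θ s := by
  have key : ∀ s, ∀ p ≤ s, NPs S θ p := by
    intro s
    induction s with
    | zero => intro p hp; rw [Nat.le_zero.1 hp]; exact np_zero
    | succ s ih =>
      intro p hp
      rcases hp.lt_or_eq with h | rfl
      · exact ih p (by omega)
      · exact np_succ hG hθ (rl_step hG hθ ih) (ih s le_rfl)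
  exact rl_step hG hθ (key s)

end Pool.Agent.Lib.MP_1a1eb7_lc
end
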