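import Pool.Agent.Lib.MP_1a1eb7_lc.LeafFin
import Pool.Agent.Lib.MP_1a1eb7_lc.RL

-- part Pool.Agent.Lib.MP_1a1eb7_lc.Tru
section

/-! C7c: cells adapted to a leaf. -/

namespace Pool.Agent.Lib.MP_1a1eb7_lc

open Set Filter Topology Pool.Agent.Shared.OMin
open Ordinal (omega0)

variable {S : OStr} {Γ : Sys} {θ θ₁ θ₂ τ : ℕ → Ordinal.{0}} {P Q Z Z' y : ℕ → U} {n m k r N : ℕ}
  {E E' : ℕ → Fld} {c c' : Ctx} {α β γ : Ordinal.{0}} {K K₀ K₀' K₁ K₂ K' : Fld}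

theorem tru_cont_snoc (x : Fin n → ℝ) :
    Continuous fun t : ℝ => (Fin.snoc x t : Fin (n + 1) → ℝ) := by
  refine continuous_pi fun i => ?_
  refine Fin.lastCases ?_ (fun j => ?_) i
  · simpa using continuous_id'
  · simpa using continuous_const

theorem tru_cont_snoc' (t : ℝ) :
    Continuous fun x : Fin n → ℝ => (Fin.snoc x t : Fin (n + 1) → ℝ) := by
  refine continuous_pi fun i => ?_
  refine Fin.lastCases ?_ (fun j => ?_) i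
  · simpa using continuous_const
  · simpa using continuous_apply j

theorem tru_snoc_add (x : Fin n → ℝ) (t a : ℝ) :
    (Fin.snoc x t : Fin (n + 1) → ℝ) + a • uv (n + 1) n = Fin.snoc x (t + a) := by
  funext i
  refine Fin.lastCases ?_ (fun j => ?_) i
  · simp [uv]
  · have : (j : ℕ) ≠ n := j.2.ne
    simp [uv, this]

/-- monotonicity in the last coordinate inside a band -/
theorem tru_mono {C : Set (Fin n → ℝ)} {lo hi : Fn n} {W : Set (Fin (n + 1) → ℝ)} {ν : ℝ}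
    (hν : ν = 1 ∨ ν = -1) (hW : W ⊆ band C lo hi)
    (h : ∀ z ∈ W, ∀ t : ℝ, 0 ≤ t → (∀ s ∈ Icc 0 t, z + (ν * s) • uv (n + 1) n ∈ band C lo hi) →
      z + (ν * t) • uv (n + 1) n ∈ W) (x : Fin n → ℝ) (t t' : ℝ)
    (ht : (Fin.snoc x t : Fin (n + 1) → ℝ) ∈ W)
    (ht' : (Fin.snoc x t' : Fin (n + 1) → ℝ) ∈ band C lo hi) (hle : 0 ≤ ν * (t' - t)) :
    (Fin.snoc x t' : Fin (n + 1) → ℝ) ∈ W := by
  have h1 := snoc_mem_band.1 (hW ht)
  have h2 := snoc_mem_band.1 ht'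
  have h3 := h _ ht _ hle fun s hs => by
    rw [tru_snoc_add]
    refine snoc_mem_band.2 ⟨h1.1, ?_⟩
    obtain ⟨h4, h5⟩ := hs
    rcases hν with rfl | rfl <;> constructor <;> linarith [h1.2.1, h1.2.2, h2.2.1, h2.2.2]
  rw [tru_snoc_add] at h3
  have h4 : t + ν * (ν * (t' - t)) = t' := by
    rcases hν with rfl | rfl <;> ring
  rwa [h4] at h3

/-- the boundary of a monotone definable set inside the fibres -/
theorem tru_beta {C : Set (Fin n → ℝ)} {lo hi : Fn n} {W : Set (Fin (n + 1) → ℝ)} {ν : ℝ}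
    (hν : ν = 1 ∨ ν = -1) (dlo : DF S lo) (dhi : DF S hi) (dW : DP S fun z => z ∈ W)
    (hlt : ∀ x ∈ C, lo x < hi x)
    (hm : ∀ (x : Fin n → ℝ) (t t' : ℝ), (Fin.snoc x t : Fin (n + 1) → ℝ) ∈ W →
      (Fin.snoc x t' : Fin (n + 1) → ℝ) ∈ band C lo hi → 0 ≤ ν * (t' - t) →
      (Fin.snoc x t' : Fin (n + 1) → ℝ) ∈ W) :
    ∃ b : Fn n, DF S b ∧ ∀ x ∈ C, lo x ≤ b x ∧ b x ≤ hi x ∧ ∀ t, lo x < t → t < hi x →
      (0 < ν * (t - b x) → (Fin.snoc x t : Fin (n + 1) → ℝ) ∈ W) ∧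
      (ν * (t - b x) < 0 → (Fin.snoc x t : Fin (n + 1) → ℝ) ∉ W) := by
  let A : (Fin n → ℝ) → Set ℝ := fun x => {t | (lo x < t ∧ t < hi x ∧
    ((Fin.snoc x t : Fin (n + 1) → ℝ) ∈ W ↔ ν = 1)) ∨ t = hi x}
  have dA : DP S fun z : (Fin n → ℝ) × ℝ => z.2 ∈ A z.1 := by
    have h1 : DP S fun z : (Fin n → ℝ) × ℝ => (Fin.snoc z.1 z.2 : Fin (n + 1) → ℝ) ∈ W :=
      DP.mem dW (by fun_prop)
    have h2 : DP S fun z : (Fin n → ℝ) × ℝ => lo z.1 < z.2 :=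
      DP.lt (dlo.comp DF.id'.fst) DF.id'.snd
    have h3 : DP S fun z : (Fin n → ℝ) × ℝ => z.2 < hi z.1 :=
      DP.lt DF.id'.snd (dhi.comp DF.id'.fst)
    have h4 : DP S fun z : (Fin n → ℝ) × ℝ => z.2 = hi z.1 :=
      DP.eq DF.id'.snd (dhi.comp DF.id'.fst)
    exact (h2.and (h3.and (h1.iff (DP.const _)))).or h4
  refine ⟨fun x => sInf (A x), DF.sInf_fam dA, fun x hx => ?_⟩
  have hne : (A x).Nonempty := ⟨hi x, Or.inr rfl⟩
  have hlb : ∀ t ∈ A x, lo x ≤ t := by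
    rintro t (ht | rfl)
    · exact ht.1.le
    · exact (hlt x hx).le
  have hbd : BddBelow (A x) := ⟨lo x, hlb⟩
  refine ⟨le_csInf hne hlb, csInf_le hbd (Or.inr rfl), fun t h1 h2 => ?_⟩
  have hlow : t < sInf (A x) → ¬ ((Fin.snoc x t : Fin (n + 1) → ℝ) ∈ W ↔ ν = 1) :=
    fun h3 h4 => notMem_of_lt_csInf h3 hbd (Or.inl ⟨h1, h2, h4⟩)
  have hup : sInf (A x) < t → ((Fin.snoc x t : Fin (n + 1) → ℝ) ∈ W ↔ ν = 1) := by
    intro h3
    obtain ⟨t', ht', h4⟩ := exists_lt_of_csInf_lt hne h3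
    rcases ht' with ⟨h5, h6, h7⟩ | rfl
    · rcases hν with rfl | rfl
      · exact iff_of_true (hm x t' t (h7.2 rfl) (snoc_mem_band.2 ⟨hx, h1, h2⟩) (by linarith)) rfl
      · refine iff_of_false (fun h8 => ?_) (by norm_num)
        have := h7.1 (hm x t t' h8 (snoc_mem_band.2 ⟨hx, h5, h6⟩) (by linarith))
        norm_num at this
    · exact absurd h2 (not_lt.2 h4.le)
  rcases hν with rfl | rfl
  · exact ⟨fun h3 => (hup (by linarith)).2 rfl,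
      fun h3 h4 => hlow (by linarith) (iff_of_true h4 rfl)⟩
  · refine ⟨fun h3 => ?_, fun h3 h4 => ?_⟩
    · by_contra h4
      exact hlow (by linarith) (iff_of_false h4 (by norm_num))
    · have := (hup (by linarith)).1 h4
      norm_num at this

/-- a relatively closed set contains the boundary point -/
theorem tru_closed {A W : Set (Fin (n + 1) → ℝ)} {ν lo hi b : ℝ} {x : Fin n → ℝ}
    (hν : ν = 1 ∨ ν = -1) (ho : IsOpen (A \ W)) (hA : (Fin.snoc x b : Fin (n + 1) → ℝ) ∈ A)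
    (h1 : lo < b) (h2 : b < hi)
    (h : ∀ t, lo < t → t < hi → 0 < ν * (t - b) → (Fin.snoc x t : Fin (n + 1) → ℝ) ∈ W) :
    (Fin.snoc x b : Fin (n + 1) → ℝ) ∈ W := by
  by_contra hb
  have hc : Continuous fun δ : ℝ => b + ν * δ := by fun_prop
  have ht : Tendsto (fun δ : ℝ => b + ν * δ) (𝓝[>] 0) (𝓝 b) := by
    have := hc.tendsto 0
    simp only [mul_zero, add_zero] at this
    exact this.mono_left nhdsWithin_le_nhds
  have e1 : ∀ᶠ t in 𝓝 b, (Fin.snoc x t : Fin (n + 1) → ℝ) ∈ A \ W :=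
    (tru_cont_snoc x).continuousAt.eventually (ho.mem_nhds ⟨hA, hb⟩)
  obtain ⟨δ, ⟨h3, h4, h5⟩, h6⟩ := ((ht.eventually (e1.and ((lt_mem_nhds h1).and
    (gt_mem_nhds h2)))).and self_mem_nhdsWithin).exists
  refine h3.2 (h _ h4 h5 ?_)
  have h7 : (0 : ℝ) < δ := h6
  rcases hν with rfl | rfl <;> linarith

/-- represent an element together with its derivatives and its position between two functions -/
theorem tru_req (hM : Main S Γ θ) (hc : Sem S θ c n) (hP : Pt S θ c P n E) (hT : Tow S θ P n E')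
    (hE : Ext E E' n) {lo hi : Fn n} (hlo : lo ∈ c.gens n) (hhi : hi ∈ c.gens n) {s : U}
    (hs : s ∈ E' n) : ∃ (c₁ : Ctx) (E₁ : ℕ → Fld) (σ : Fn n), Sem S θ c₁ n ∧ Pt S θ c₁ P n E₁ ∧
      Ext E E₁ n ∧ c₁.Le c n ∧ σ ∈ c₁.gens n ∧ ev σ P = s ∧
      Tri (fun x => σ x - lo x) (c₁.cell n) ∧ Tri (fun x => hi x - σ x) (c₁.cell n) ∧
      ∀ i < n, ∃ d ∈ c₁.gens n, EqOn d (pdv σ i) (c₁.cell n) := by
  have hP' := hP.of_ext hT hE
  let R : Set U := {s, s - ev lo P, ev hi P - s} ∪ (fun i => pd S P n i s) '' Iio n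
  have hR : R.Finite := (Set.toFinite _).union ((finite_Iio n).image _)
  have hR' : R ⊆ E' n := by
    rintro e ((rfl | rfl | rfl) | ⟨i, -, rfl⟩)
    · exact hs
    · exact (E' n).sub_mem hs (hP'.vals n le_rfl _ hlo)
    · exact (E' n).sub_mem (hP'.vals n le_rfl _ hhi) hs
    · exact (hT.dfld le_rfl).pc i _ hs
  obtain ⟨c₁, E₁, h1, -, h2, h3, h4, h5⟩ := hM.top hc le_rfl hT hP.has hP'.vals hR hR'
  obtain ⟨σ, hσ, hσs⟩ := (h5 s (Or.inl (by simp))).1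
  have hlo₁ := (h4 n le_rfl).2 hlo
  have hhi₁ := (h4 n le_rfl).2 hhi
  have dσ := h1.df n le_rfl _ hσ
  have aσ := h1.an n le_rfl _ hσ
  refine ⟨c₁, E₁, σ, h1, h2, hE.trans h3, h4, hσ, hσs, ?_, ?_, fun i hi' => ?_⟩
  · refine (h5 (s - ev lo P) (Or.inl (by simp))).2 _ (dσ.sub (h1.df n le_rfl _ hlo₁))
      (aσ.sub (h1.an n le_rfl _ hlo₁)) ?_
    rw [ev_sub, hσs]
  · refine (h5 (ev hi P - s) (Or.inl (by simp))).2 _ ((h1.df n le_rfl _ hhi₁).sub dσ)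
      ((h1.an n le_rfl _ hhi₁).sub aσ) ?_
    rw [ev_sub, hσs]
  · obtain ⟨d, hd, hds⟩ := (h5 (pd S P n i s) (Or.inr ⟨i, hi', rfl⟩)).1
    refine ⟨d, hd, h1.ident le_rfl hT.gen h2.has (h1.df n le_rfl _ hd) (dσ.pdv i)
      (h1.an n le_rfl _ hd) (analyticOnNhd_pdv aσ i) ?_⟩
    rw [hds, ← hσs, pd_ev hT.gen dσ]

/-- the side set of the data and the other side set -/
theorem tru_sides {A D : Set (Fin n → ℝ)} {g h f : Fn n} {F : ℕ → Fn (n + 1)}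
    {Bp Bm B : Set ((Fin n → ℝ) × ℝ)} {top : Prop} (hs : Sep S A g h F D f Bp Bm) (hA : IsOpen A)
    (dA : DP S fun x => x ∈ A) (hlt : ∀ x ∈ A, g x < h x)
    (hB : (top ∧ B = Bm) ∨ (¬ top ∧ B = Bp)) :
    (DP S fun x => x ∈ sideSet A g h B) ∧ IsOpen (A \ sideSet A g h B) ∧
      ∃ W : Set (Fin n → ℝ), (DP S fun x => x ∈ W) ∧ IsOpen (A \ W) ∧
        (∀ x ∈ sideSet A g h B, x ∉ W) ∧ ∀ x, x ∈ D ↔ x ∈ A ∧ x ∉ sideSet A g h B ∧ x ∉ W := by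
  have hdis : ∀ x ∈ sideSet A g h Bp, x ∉ sideSet A g h Bm := by
    intro x h1 h2
    have h3 := hlt x h1.1
    have h4 : (x, (g x + h x) / 2) ∈ bnd A g h := ⟨h1.1, by simp only; linarith, by simp only; linarith⟩
    exact Set.disjoint_left.1 hs.rolle.disj (h1.2 _ h4) (h2.2 _ h4)
  have hd := hs.dp_side hA dA hlt
  have ho := hs.isOpen_diff hA hlt
  rcases hB with ⟨-, rfl⟩ | ⟨-, rfl⟩
  · refine ⟨hd.2, ho.2, _, hd.1, ho.1, fun x h1 h2 => hdis x h2 h1, fun x => ?_⟩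
    rw [hs.cover hlt]
    tauto
  · exact ⟨hd.1, ho.1, _, hd.2, ho.2, hdis, fun x => hs.cover hlt⟩

/-- the boundary of the side set has low rank -/
theorem tru_low (hG : Good S Γ θ) (hθ : Clo θ) (hc : Sem S θ c (n + 2)) {F : ℕ → Fn (n + 2)}
    (hF : ∀ i < n + 1, F i ∈ c.gens (n + 2)) {D : Set (Fin (n + 1) → ℝ)} {f : Fn (n + 1)}
    {Bp Bm : Set ((Fin (n + 1) → ℝ) × ℝ)}
    (hs : Sep S (c.cell (n + 1)) (c.lo (n + 1)) (c.hi (n + 1)) F D f Bp Bm)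
    {V W : Set (Fin (n + 1) → ℝ)} (dV : DP S fun x => x ∈ V) (oV : IsOpen (c.cell (n + 1) \ V))
    (dW : DP S fun x => x ∈ W) (oW : IsOpen (c.cell (n + 1) \ W)) (hVW : ∀ x ∈ V, x ∉ W)
    (hD : ∀ x, x ∈ D ↔ x ∈ c.cell (n + 1) ∧ x ∉ V ∧ x ∉ W) {ν : ℝ} (hν : ν = 1 ∨ ν = -1)
    (hc' : Sem S θ c' (n + 1)) (hle : c'.Le c (n + 1)) {b : Fn n} (db : DF S b)
    (hb : ∀ x ∈ c'.cell n, c'.lo n x ≤ b x ∧ b x ≤ c'.hi n x ∧
      ∀ t, c'.lo n x < t → t < c'.hi n x →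
        (0 < ν * (t - b x) → (Fin.snoc x t : Fin (n + 1) → ℝ) ∈ V) ∧
        (ν * (t - b x) < 0 → (Fin.snoc x t : Fin (n + 1) → ℝ) ∉ V))
    (hP : Pt S θ c' P n E) : ∃ E', Tow S θ P n E' ∧ Ext E E' n ∧ ev b P ∈ E' n := by
  by_cases h1 : ev b P = ev (c'.lo n) P
  · exact ⟨E, hP.tow, Ext.refl _ _, h1 ▸ hP.vals n le_rfl _ (hc'.lo_mem n n.lt_succ_self)⟩
  by_cases h2 : ev b P = ev (c'.hi n) P
  · exact ⟨E, hP.tow, Ext.refl _ _, h2 ▸ hP.vals n le_rfl _ (hc'.hi_mem n n.lt_succ_self)⟩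
  have hbd : ev b P ∈ dcl S P n := ev_mem_dcl db
  have h3 : ∀ᶠ ω in 𝔲, tp P n ω ∈ c'.cell n ∧ c'.lo n (tp P n ω) < b (tp P n ω) ∧
      b (tp P n ω) < c'.hi n (tp P n ω) := by
    have e1 := ev_not.2 (mt ev_eq_iff.2 h1)
    have e2 := ev_not.2 (mt ev_eq_iff.2 h2)
    filter_upwards [hP.has, e1, e2] with ω h4 h5 h6
    exact ⟨h4, lt_of_le_of_ne (hb _ h4).1 (Ne.symm h5), lt_of_le_of_ne (hb _ h4).2.1 h6⟩
  have h4 : At (fun z => z ∈ c'.cell (n + 1) ∧ z ∈ V) (upd P n (ev b P)) := by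
    filter_upwards [h3, out_ev b P] with ω h5 h6
    rw [tp_upd, h6]
    have h7 : (Fin.snoc (tp P n ω) (b (tp P n ω)) : Fin (n + 1) → ℝ) ∈ c'.cell (n + 1) :=
      snoc_mem_band.2 h5
    exact ⟨h7, tru_closed hν oV ((hle _ le_rfl).1 h7) h5.2.1 h5.2.2
      fun t h8 h9 => ((hb _ h5.1).2.2 t h8 h9).1⟩
  obtain ⟨ε, hε, hεi⟩ := exists_inf S P n
  obtain ⟨s, hs1, hs2, hs3⟩ : ∃ s, s ≠ ev b P ∧ Inf (dcl S P n) (s - ev b P) ∧
      ∀ᶠ ω in 𝔲, ν * (out s ω - b (tp P n ω)) < 0 := by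
    rcases hν with rfl | rfl
    · have h5 : ev b P - ε < ev b P := by linarith
      refine ⟨ev b P - ε, h5.ne, by simpa using hεi.neg, ?_⟩
      filter_upwards [lt_iff.1 h5, out_ev b P] with ω h6 h7
      rw [h7] at h6
      linarith
    · have h5 : ev b P < ev b P + ε := by linarith
      refine ⟨ev b P + ε, h5.ne', by simpa using hεi, ?_⟩
      filter_upwards [lt_iff.1 h5, out_ev b P] with ω h6 h7
      rw [h7] at h6
      linarith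
  have h5 : At (fun z => z ∈ c'.cell (n + 1) ∧ z ∉ W) (upd P n s) := by
    refine nhds_near (S := S) (P := P) (k := n) (y := upd P n (ev b P)) (fun i hi => ?_)
      (fun i hi => ?_) ((hc'.dp le_rfl).and dW.not) ?_
    · rcases Nat.lt_succ_iff_lt_or_eq.1 hi with h6 | rfl
      · rw [upd_of_ne h6.ne]
        exact self_mem_dcl h6
      · rwa [upd_self]
    · rcases Nat.lt_succ_iff_lt_or_eq.1 hi with h6 | rfl
      · rw [upd_of_ne h6.ne, upd_of_ne h6.ne, sub_self]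
        exact Inf.zero _
      · rwa [upd_self, upd_self]
    · filter_upwards [h4] with ω h6
      filter_upwards [(hc'.isOpen le_rfl).mem_nhds h6.1,
        oW.mem_nhds ⟨(hle _ le_rfl).1 h6.1, hVW _ h6.2⟩] with z h7 h8
      exact ⟨h7, h8.2⟩
  refine ep_sep hG hθ hc hF subset_rfl (hc.isOpen (by omega)) (hc.dp (by omega)) hs
    (hP.of_le (hle.down n.le_succ)) hbd ?_ hs1 hs2 ?_
  · filter_upwards [h4] with ω h6
    exact ⟨(hle _ le_rfl).1 h6.1, fun h7 => ((hD _).1 h7).2.1 h6.2⟩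
  · filter_upwards [h5, hs3] with ω h6 h7
    refine (hD _).2 ⟨(hle _ le_rfl).1 h6.1, ?_, h6.2⟩
    rw [tp_upd] at h6 ⊢
    have h8 := snoc_mem_band.1 h6.1
    exact ((hb _ h8.1).2.2 _ h8.2.1 h8.2.2).2 h7

/-- the statement proved by induction -/
def TruSide (S : OStr) (θ : ℕ → Ordinal.{0}) (top : Prop) (n : ℕ) : Prop := ∀ (c : Ctx)
    (F : ℕ → Fn (n + 1)) (D : Set (Fin n → ℝ)) (f : Fn n) (Bp Bm B : Set ((Fin n → ℝ) × ℝ)),
    Sem S θ c (n + 1) → (∀ i < n, F i ∈ c.gens (n + 1)) →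
    Sep S (c.cell n) (c.lo n) (c.hi n) F D f Bp Bm → ((top ∧ B = Bm) ∨ (¬ top ∧ B = Bp)) →
    Inside S θ c n (sideSet (c.cell n) (c.lo n) (c.hi n) B)ᶜ

/-- a section that misses the side set at a point misses it on a cell -/
theorem tru_section (hθ : Clo θ) {top : Prop} (ih : TruSide S θ top n) (hc : Sem S θ c (n + 2))
    {F : ℕ → Fn (n + 2)} (hF : ∀ i < n + 1, F i ∈ c.gens (n + 2)) {D : Set (Fin (n + 1) → ℝ)}
    {f : Fn (n + 1)} {Bp Bm B : Set ((Fin (n + 1) → ℝ) × ℝ)}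
    (hs : Sep S (c.cell (n + 1)) (c.lo (n + 1)) (c.hi (n + 1)) F D f Bp Bm)
    (hB : (top ∧ B = Bm) ∨ (¬ top ∧ B = Bp)) (hc' : Sem S θ c' n) (hle : c'.Le c n)
    (hP : Pt S θ c' P n E) {σ : Fn n} (hσ : σ ∈ c'.gens n)
    (hd : ∀ i < n, ∃ d ∈ c'.gens n, EqOn d (pdv σ i) (c'.cell n))
    (hm : ∀ x ∈ c'.cell n, Fin.snoc x (σ x) ∈ c.cell (n + 1))
    (hn : At (fun x => Fin.snoc x (σ x) ∉
      sideSet (c.cell (n + 1)) (c.lo (n + 1)) (c.hi (n + 1)) B) P) :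
    ∃ (c₁ : Ctx) (E₁ : ℕ → Fld), Sem S θ c₁ n ∧ Pt S θ c₁ P n E₁ ∧ Ext E E₁ n ∧ c₁.Le c' n ∧
      ∀ x ∈ c₁.cell n, Fin.snoc x (σ x) ∉
        sideSet (c.cell (n + 1)) (c.lo (n + 1)) (c.hi (n + 1)) B := by
  obtain ⟨c₇, E₇, h1, h2, h3, h4, h5, -, -, h6, h7, h8⟩ := Sem.slice hθ hc hc' hle hσ hd hm hF hP
  have hs' := hs.slice (hc'.isOpen le_rfl) (hc'.dp le_rfl) (hc'.df n le_rfl _ hσ)
    (hc'.an n le_rfl _ hσ) hm
  have hiff : ∀ x, x ∈ sideSet (c'.cell n) (slc σ (c.lo (n + 1))) (slc σ (c.hi (n + 1)))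
      {p | p.1 ∈ c'.cell n ∧ (Fin.snoc p.1 (σ p.1), p.2) ∈ B} ↔ x ∈ c'.cell n ∧ Fin.snoc x (σ x) ∈
        sideSet (c.cell (n + 1)) (c.lo (n + 1)) (c.hi (n + 1)) B := by
    intro x
    constructor
    · rintro ⟨e1, e2⟩
      exact ⟨e1, hm x e1, fun w hw => (e2 w ⟨e1, hw.2.1, hw.2.2⟩).2⟩
    · rintro ⟨e1, e2, e3⟩
      exact ⟨e1, fun w hw => ⟨e1, e3 w ⟨e2, hw.2.1, hw.2.2⟩⟩⟩
  have hI := ih c₇ (slcF σ F) _ _ _ _ {p | p.1 ∈ c'.cell n ∧ (Fin.snoc p.1 (σ p.1), p.2) ∈ B}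
    h1 h6 (by rw [h3, h4, h5]; exact hs') (by
      rcases hB with ⟨e1, rfl⟩ | ⟨e1, rfl⟩
      · exact Or.inl ⟨e1, rfl⟩
      · exact Or.inr ⟨e1, rfl⟩)
  rw [h3, h4, h5] at hI
  obtain ⟨c₈, E₈, g1, g2, g3, g4, g5⟩ := hI c₇ P E₇ (h1.down n.le_succ) (Ctx.Le.refl _ _) h7 (by
    filter_upwards [hn] with ω e1 e2
    exact e1 ((hiff _).1 e2).2)
  refine ⟨c₈, E₈, g1, g2, h8.trans g3, g4.trans h2, fun x hx e1 => g5 hx ((hiff x).2 ⟨?_, e1⟩)⟩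
  exact ((g4.trans h2) n le_rfl).1 hx

/-- the side set itself is a union of cells, if it is monotone in the last coordinate -/
theorem tru_in (hG : Good S Γ θ) (hθ : Clo θ) {top : Prop} (ih : TruSide S θ top n)
    (hc : Sem S θ c (n + 2)) {F : ℕ → Fn (n + 2)} (hF : ∀ i < n + 1, F i ∈ c.gens (n + 2))
    {D : Set (Fin (n + 1) → ℝ)} {f : Fn (n + 1)} {Bp Bm B : Set ((Fin (n + 1) → ℝ) × ℝ)}
    (hs : Sep S (c.cell (n + 1)) (c.lo (n + 1)) (c.hi (n + 1)) F D f Bp Bm)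
    (hB : (top ∧ B = Bm) ∨ (¬ top ∧ B = Bp)) {ν : ℝ} (hν : ν = 1 ∨ ν = -1)
    (hmono : ∀ (x : Fin n → ℝ) (t t' : ℝ), (Fin.snoc x t : Fin (n + 1) → ℝ) ∈
      sideSet (c.cell (n + 1)) (c.lo (n + 1)) (c.hi (n + 1)) B →
      (Fin.snoc x t' : Fin (n + 1) → ℝ) ∈ c.cell (n + 1) → 0 ≤ ν * (t' - t) →
      (Fin.snoc x t' : Fin (n + 1) → ℝ) ∈
        sideSet (c.cell (n + 1)) (c.lo (n + 1)) (c.hi (n + 1)) B) :
    Inside S θ c (n + 1) (sideSet (c.cell (n + 1)) (c.lo (n + 1)) (c.hi (n + 1)) B) := by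
  obtain ⟨dV, oV, W, dW, oW, hVW, hD⟩ := tru_sides hs (hc.isOpen (by omega)) (hc.dp (by omega))
    (fun x hx => (hc.lt (n + 1) (by omega) x hx).2.1) hB
  have hsec := fun (c' : Ctx) (P : ℕ → U) (E : ℕ → Fld) =>
    tru_section (c' := c') (P := P) (E := E) hθ ih hc hF hs hB
  generalize sideSet (c.cell (n + 1)) (c.lo (n + 1)) (c.hi (n + 1)) B = V at *
  intro c₂ P E₂ hc₂ hle₂ hP hV
  have hlo₂ := hc₂.lo_mem n n.lt_succ_self
  have hhi₂ := hc₂.hi_mem n n.lt_succ_self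
  obtain ⟨b, db, hb⟩ := tru_beta (C := c₂.cell n) hν (hc₂.df n n.le_succ _ hlo₂)
    (hc₂.df n n.le_succ _ hhi₂) dV (fun x hx => (hc₂.lt n n.lt_succ_self x hx).2.1)
    (fun x t t' h1 h2 => hmono x t t' h1 ((hle₂ _ le_rfl).1 h2))
  have hlow := fun (P : ℕ → U) (E : ℕ → Fld) =>
    tru_low (P := P) (E := E) hG hθ hc hF hs dV oV dW oW hVW hD hν hc₂ hle₂ db hb
  obtain ⟨E₃, hT₃, hE₃, hb₃⟩ := hlow P E₂ (hP.down n.le_succ)
  obtain ⟨c₄, E₄, b', hc₄, hP₄, hE₄, hle₄, hb', hbb, ht1, ht2, -⟩ :=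
    tru_req hG.1 (hc₂.down n.le_succ) (hP.down n.le_succ) hT₃ hE₃ hlo₂ hhi₂ hb₃
  have hbb' : ∀ᶠ ω in 𝔲, b' (tp P n ω) = b (tp P n ω) := ev_eq_iff.1 hbb
  have hpos : ∀ᶠ ω in 𝔲, tp P n ω ∈ c₂.cell n ∧ c₂.lo n (tp P n ω) < out (P n) ω ∧
      out (P n) ω < c₂.hi n (tp P n ω) ∧ 0 < ν * (out (P n) ω - b (tp P n ω)) := by
    have h1 : P n ≠ ev b P := fun h => hP.tow.gen.last (h ▸ ev_mem_dcl db)
    filter_upwards [hP.has, hV, ne_iff.1 h1, out_ev b P] with ω h2 h3 h4 h5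
    rw [tp_succ] at h2 h3
    rw [h5] at h4
    have h6 := snoc_mem_band.1 h2
    refine ⟨h6.1, h6.2.1, h6.2.2, lt_of_le_of_ne (not_lt.1 fun h7 =>
      ((hb _ h6.1).2.2 _ h6.2.1 h6.2.2).2 h7 h3) (Ne.symm (mul_ne_zero ?_ (sub_ne_zero.2 h4)))⟩
    rcases hν with rfl | rfl <;> norm_num
  have hw1 : ∀ x ∈ c₄.cell n, 0 ≤ b' x - c₂.lo n x := by
    refine ht1.nonneg_of hP₄.has ?_
    rw [ev_sub, sub_nonneg, ev_le_iff]
    filter_upwards [hpos, hbb'] with ω h1 h2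
    rw [h2]
    exact (hb _ h1.1).1
  have hw2 : ∀ x ∈ c₄.cell n, 0 ≤ c₂.hi n x - b' x := by
    refine ht2.nonneg_of hP₄.has ?_
    rw [ev_sub, sub_nonneg, ev_le_iff]
    filter_upwards [hpos, hbb'] with ω h1 h2
    rw [h2]
    exact (hb _ h1.1).2.1
  obtain ⟨lo, hi, hlo, hhi, hlt, hiff⟩ : ∃ lo hi : Fn n, lo ∈ c₄.gens n ∧ hi ∈ c₄.gens n ∧
      (∀ x ∈ c₄.cell n, c₂.lo n x ≤ lo x ∧ lo x < hi x ∧ hi x ≤ c₂.hi n x) ∧
      ∀ x ∈ c₄.cell n, ∀ t, (lo x < t ∧ t < hi x) ↔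
        (c₂.lo n x < t ∧ t < c₂.hi n x ∧ 0 < ν * (t - b' x)) := by
    rcases hν with rfl | rfl
    · have h1 : ∀ x ∈ c₄.cell n, 0 < c₂.hi n x - b' x := by
        refine ht2.pos_of hP₄.has ?_
        rw [ev_sub, sub_pos, ev_lt_iff]
        filter_upwards [hpos, hbb'] with ω h1 h2
        rw [h2]
        linarith [h1.2.2.1, h1.2.2.2]
      refine ⟨b', c₂.hi n, hb', (hle₄ n le_rfl).2 hhi₂, fun x hx => ?_, fun x hx t => ?_⟩
      · exact ⟨sub_nonneg.1 (hw1 x hx), sub_pos.1 (h1 x hx), le_rfl⟩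
      · have := hw1 x hx
        constructor
        · rintro ⟨h2, h3⟩
          exact ⟨by linarith, h3, by linarith⟩
        · rintro ⟨-, h3, h4⟩
          exact ⟨by linarith, h3⟩
    · have h1 : ∀ x ∈ c₄.cell n, 0 < b' x - c₂.lo n x := by
        refine ht1.pos_of hP₄.has ?_
        rw [ev_sub, sub_pos, ev_lt_iff]
        filter_upwards [hpos, hbb'] with ω h1 h2
        rw [h2]
        linarith [h1.2.1, h1.2.2.2]
      refine ⟨c₂.lo n, b', (hle₄ n le_rfl).2 hlo₂, hb', fun x hx => ?_, fun x hx t => ?_⟩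
      · exact ⟨le_rfl, sub_pos.1 (h1 x hx), sub_nonneg.1 (hw2 x hx)⟩
      · have := hw2 x hx
        constructor
        · rintro ⟨h2, h3⟩
          exact ⟨h2, by linarith, by linarith⟩
        · rintro ⟨h2, -, h4⟩
          exact ⟨h2, by linarith⟩
  have dlo := hc₄.df n le_rfl _ hlo
  have dhi := hc₄.df n le_rfl _ hhi
  obtain ⟨hc₄', hle₄'⟩ := Sem.setTop hc₄ hc₂ hle₄ hlo hhi hlt
  have hbo : IsOpen (band (c₄.cell n) lo hi) := by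
    have := hc₄'.isOpen le_rfl
    rwa [Ctx.setTop_cell_succ] at this
  have hbs : band (c₄.cell n) lo hi ⊆ c.cell (n + 1) := by
    have := ((hle₄'.trans hle₂) _ le_rfl).1
    rwa [Ctx.setTop_cell_succ] at this
  let X : Set (Fin n → ℝ) := {x | ∃ t : ℝ, (Fin.snoc x t : Fin (n + 1) → ℝ) ∈
    band (c₄.cell n) lo hi ∧ (Fin.snoc x t : Fin (n + 1) → ℝ) ∉ V}
  have dX : DP S fun x => x ∈ X := by
    have h1 : DP S fun z => z ∈ band (c₄.cell n) lo hi := by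
      have := hc₄'.dp le_rfl
      rwa [Ctx.setTop_cell_succ] at this
    have h2 : DF S fun z : (Fin n → ℝ) × ℝ => (Fin.snoc z.1 z.2 : Fin (n + 1) → ℝ) := by fun_prop
    exact DP.ex_real (P := fun (x : Fin n → ℝ) (t : ℝ) => (Fin.snoc x t : Fin (n + 1) → ℝ) ∈
      band (c₄.cell n) lo hi ∧ (Fin.snoc x t : Fin (n + 1) → ℝ) ∉ V)
      ((DP.mem h1 h2).and (DP.mem dV h2).not)
  have oX : IsOpen X := by
    refine isOpen_iff_mem_nhds.2 ?_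
    rintro x ⟨t, h1, h2⟩
    have h3 := (tru_cont_snoc' t).continuousAt.eventually
      ((hbo.inter oV).mem_nhds (show (Fin.snoc x t : Fin (n + 1) → ℝ) ∈ _ from
        ⟨h1, hbs h1, h2⟩))
    filter_upwards [h3] with u hu
    exact ⟨t, hu.1, hu.2.2⟩
  have hmid : ∀ x ∈ X, lo x < (b x + b' x) / 2 ∧ (b x + b' x) / 2 < hi x ∧
      (Fin.snoc x ((b x + b' x) / 2) : Fin (n + 1) → ℝ) ∉ V := by
    rintro x ⟨t, h1, h2⟩
    obtain ⟨hx, h3⟩ := snoc_mem_band.1 h1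
    obtain ⟨h4, h5, h6⟩ := (hiff x hx t).1 h3
    obtain ⟨h7, h8, h9⟩ := hb x ((hle₄ n le_rfl).1 hx)
    have h10 : ν * (t - b x) ≤ 0 := not_lt.1 fun h => h2 ((h9 t h4 h5).1 h)
    have h11 := hw1 x hx
    have h12 := hw2 x hx
    have h13 : c₂.lo n x < (b x + b' x) / 2 ∧ (b x + b' x) / 2 < c₂.hi n x ∧
        0 < ν * ((b x + b' x) / 2 - b' x) ∧ ν * ((b x + b' x) / 2 - b x) < 0 := by
      rcases hν with rfl | rfl <;> refine ⟨?_, ?_, ?_, ?_⟩ <;> linarith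
    have h14 := (hiff x hx _).2 ⟨h13.1, h13.2.1, h13.2.2.1⟩
    exact ⟨h14.1, h14.2, (h9 _ h13.1 h13.2.1).2 h13.2.2.2⟩
  have hIX : Inside S θ c₄ n X := by
    intro c₅ x E₅ hc₅ hle₅ hx hxX
    obtain ⟨E₆, hT₆, hE₆, hb₆⟩ := hlow x E₅ (hx.of_le (hle₅.trans hle₄))
    have hmem : ev (fun u => (b u + b' u) / 2) x ∈ E₆ n := by
      rw [ev_div, ev_add, ev_const]
      exact (E₆ n).div_mem ((E₆ n).add_mem hb₆
        (hE₆ n le_rfl (hx.vals n le_rfl _ ((hle₅ n le_rfl).2 hb')))) ((E₆ n).algebraMap_mem _)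
    obtain ⟨c₆, E₇, σ, hc₆, hx₆, hE₇, hle₆, hσ, hσe, hu1, hu2, hd⟩ :=
      tru_req hG.1 hc₅ hx hT₆ hE₆ ((hle₅ n le_rfl).2 hlo) ((hle₅ n le_rfl).2 hhi) hmem
    have hσe' : ∀ᶠ ω in 𝔲, lo (tp x n ω) < σ (tp x n ω) ∧ σ (tp x n ω) < hi (tp x n ω) ∧
        (Fin.snoc (tp x n ω) (σ (tp x n ω)) : Fin (n + 1) → ℝ) ∉ V := by
      filter_upwards [ev_eq_iff.1 hσe, hxX] with ω h1 h2
      rw [h1]
      exact hmid _ h2
    have hv1 : ∀ u ∈ c₆.cell n, 0 < σ u - lo u := by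
      refine hu1.pos_of hx₆.has ?_
      rw [ev_sub, sub_pos, ev_lt_iff]
      filter_upwards [hσe'] with ω h1 using h1.1
    have hv2 : ∀ u ∈ c₆.cell n, 0 < hi u - σ u := by
      refine hu2.pos_of hx₆.has ?_
      rw [ev_sub, sub_pos, ev_lt_iff]
      filter_upwards [hσe'] with ω h1 using h1.2.1
    have hin : ∀ u ∈ c₆.cell n, (Fin.snoc u (σ u) : Fin (n + 1) → ℝ) ∈ band (c₄.cell n) lo hi :=
      fun u hu => snoc_mem_band.2 ⟨((hle₆.trans hle₅) n le_rfl).1 hu, sub_pos.1 (hv1 u hu),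
        sub_pos.1 (hv2 u hu)⟩
    obtain ⟨c₈, E₈, g1, g2, g3, g4, g5⟩ := hsec c₆ x E₇ hc₆
      (((hle₆.trans hle₅).trans hle₄).trans (hle₂.down n.le_succ)) hx₆ hσ hd
      (fun u hu => hbs (hin u hu)) (by filter_upwards [hσe'] with ω h1 using h1.2.2)
    exact ⟨c₈, E₈, g1, g2, hE₇.trans g3, g4.trans hle₆,
      fun u hu => ⟨σ u, hin u ((g4 n le_rfl).1 hu), g5 u hu⟩⟩
  obtain ⟨c₉, E₉, g1, g2, g3, g4, g5⟩ := propagate hG.1 n c₄ X hc₄ dX (IsOpen.fat oX) hIX c₄ P E₄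
    hc₄ (Ctx.Le.refl _ _) hP₄ (by
      filter_upwards [hbb'] with ω h1
      rintro ⟨t, h2, h3⟩
      obtain ⟨hx, h4⟩ := snoc_mem_band.1 h2
      obtain ⟨h5, h6, h7⟩ := (hiff _ hx t).1 h4
      rw [h1] at h7
      exact h3 (((hb _ ((hle₄ n le_rfl).1 hx)).2.2 t h5 h6).1 h7))
  obtain ⟨k1, k2⟩ := Sem.setTop g1 hc₂ (g4.trans hle₄) ((g4 n le_rfl).2 hlo) ((g4 n le_rfl).2 hhi)
    fun x hx => hlt x ((g4 n le_rfl).1 hx)
  obtain ⟨E'', k3, k4, k5⟩ := hP.tow.reattach (τ := θ) n.le_succ g2.tow (hE₄.trans g3)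
    (fun _ _ => le_rfl) fun _ _ _ => le_rfl
  refine ⟨_, E'', k1, ⟨k3, ?_, fun j hj => ?_⟩, k5, k2, ?_⟩
  · show At (fun z => z ∈ (c₉.setTop n lo hi (c₂.gens (n + 1))).cell (n + 1)) P
    rw [Ctx.setTop_cell_succ]
    filter_upwards [g2.has, hpos, hbb'] with ω h1 h2 h3
    rw [tp_succ]
    refine snoc_mem_band.2 ⟨h1, (hiff _ ((g4 n le_rfl).1 h1) _).2 ⟨h2.2.1, h2.2.2.1, ?_⟩⟩
    rw [h3]
    exact h2.2.2.2
  · rcases Nat.le_succ_iff.1 hj with hj' | rfl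
    · intro φ hφ
      rw [Ctx.setTop_gens hj'] at hφ
      rw [k4 j hj']
      exact g2.vals j hj' φ hφ
    · intro φ hφ
      rw [Ctx.setTop_gens_succ] at hφ
      exact k5 _ le_rfl (hP.vals _ le_rfl φ hφ)
  · rw [Ctx.setTop_cell_succ]
    intro z hz
    by_contra hzV
    refine g5 hz.1 ⟨z (Fin.last n), ?_, ?_⟩
    · rw [Fin.snoc_init_self]
      exact ⟨(g4 n le_rfl).1 hz.1, hz.2⟩
    · rwa [Fin.snoc_init_self]

theorem tru_zero (top : Prop) : TruSide S θ top 0 := by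
  intro c F D f Bp Bm B _ _ _ _ c' P E h1 _ h2 h3
  refine ⟨c', E, h1, h2, Ext.refl _ _, Ctx.Le.refl _ _, fun x _ => ?_⟩
  obtain ⟨ω, hω⟩ := h3.exists
  rwa [Subsingleton.elim x (tp P 0 ω)]

theorem tru_succ (hG : Good S Γ θ) (hθ : Clo θ) {top : Prop} (ih : TruSide S θ top n) :
    TruSide S θ top (n + 1) := by
  intro c F D f Bp Bm B hc hF hs hB c' P E hc' hle hP hV
  have hlo := hc.lo_mem (n + 1) (by omega)
  have hhi := hc.hi_mem (n + 1) (by omega)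
  have hlt := fun x hx => (hc.lt (n + 1) (by omega) x hx).2.1
  obtain ⟨hcb, hleb⟩ := Sem.setTop hc' hc hle ((hle _ le_rfl).2 hlo) ((hle _ le_rfl).2 hhi)
    fun x hx => ⟨le_rfl, hlt x ((hle _ le_rfl).1 hx), le_rfl⟩
  obtain ⟨e, he, he'⟩ : ∃ e : Fn (n + 1), e ∈ c.gens (n + 1) ∧
      ((e = c.hi (n + 1) ∧ B = Bm) ∨ (e = c.lo (n + 1) ∧ B = Bp)) := by
    rcases hB with ⟨-, h⟩ | ⟨-, h⟩
    · exact ⟨_, hhi, Or.inl ⟨rfl, h⟩⟩
    · exact ⟨_, hlo, Or.inr ⟨rfl, h⟩⟩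
  have de := hc.df (n + 1) (by omega) e he
  obtain ⟨c₁, E₁, e', hc₁, hP₁, hE₁, hle₁, he₁, hbet, htri⟩ := exists_strip hG.1 hcb
    (hP.setTop _ _ _) (e := e)
    (by rw [Ctx.setTop_lo, Ctx.setTop_hi]; tauto)
    (T := (fun i => fun z : Fin (n + 2) → ℝ => pdv e i (Fin.init z) - F i z) '' Iio (n + 1))
    ((finite_Iio _).image _) (by
      rintro _ ⟨i, hi, rfl⟩
      have dF := hc.df (n + 2) le_rfl _ (hF i hi)
      refine ⟨((de.pdv i).comp DF.id'.init).sub dF, ?_, fun w E' hw => ?_⟩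
      · refine AnalyticOnNhd.mono ?_ (hleb _ le_rfl).1
        exact (analyticOnNhd_init (analyticOnNhd_pdv (hc.an (n + 1) (by omega) e he) i)
          fun z hz => hz.1).sub (hc.an (n + 2) le_rfl _ (hF i hi))
      · have hw' := hw.of_le hleb
        rw [ev_sub, ev_init, ← pd_ev (hw.tow.gen.mono (n + 1).le_succ) de]
        refine (E' (n + 2)).sub_mem (hw.tow.le (n + 1).le_succ le_rfl ?_)
          (hw'.vals _ le_rfl _ (hF i hi))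
        exact (hw.tow.dfld (n + 1).le_succ).pc i _ (hw'.vals _ (n + 1).le_succ _ he))
  rw [Ctx.setTop_lo, Ctx.setTop_hi] at hbet
  have hle₁' : c₁.Le c' (n + 1) := hle₁.trans Ctx.setTop_le
  have hle₁c : c₁.Le c (n + 1) := hle₁'.trans hle
  have hsub := (hle₁c _ le_rfl).1
  have hs₁ := hs.restrict (hc₁.isOpen le_rfl) (hc₁.dp le_rfl) hsub
  have hlt₁ := fun x hx => hlt x (hsub hx)
  have he₁' : (e = c.hi (n + 1) ∧ B ∩ {p | p.1 ∈ c₁.cell (n + 1)} =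
      Bm ∩ {p | p.1 ∈ c₁.cell (n + 1)}) ∨ (e = c.lo (n + 1) ∧
      B ∩ {p | p.1 ∈ c₁.cell (n + 1)} = Bp ∩ {p | p.1 ∈ c₁.cell (n + 1)}) := by
    rcases he' with ⟨h1, rfl⟩ | ⟨h1, rfl⟩
    · exact Or.inl ⟨h1, rfl⟩
    · exact Or.inr ⟨h1, rfl⟩
  have hB₁ : (top ∧ B ∩ {p | p.1 ∈ c₁.cell (n + 1)} = Bm ∩ {p | p.1 ∈ c₁.cell (n + 1)}) ∨
      (¬ top ∧ B ∩ {p | p.1 ∈ c₁.cell (n + 1)} = Bp ∩ {p | p.1 ∈ c₁.cell (n + 1)}) := by
    rcases hB with ⟨h1, rfl⟩ | ⟨h1, rfl⟩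
    · exact Or.inl ⟨h1, rfl⟩
    · exact Or.inr ⟨h1, rfl⟩
  have ag := (hc.an (n + 1) (by omega) _ hlo).mono hsub
  have ah := (hc.an (n + 1) (by omega) _ hhi).mono hsub
  have ce := (hc₁.an (n + 1) le_rfl _ he₁).continuousOn
  have hfat := hs₁.side_fat (hc₁.isOpen le_rfl) ag ah hlt₁ he₁' ce hbet
    fun i hi => htri _ ⟨i, hi, rfl⟩
  obtain ⟨ν, hν, hmono⟩ := hs₁.side_mono (hc₁.isOpen le_rfl) ag ah hlt₁ he₁' ce hbet
    (htri _ ⟨n, n.lt_succ_self, rfl⟩)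
  have dV := (tru_sides hs₁ (hc₁.isOpen le_rfl) (hc₁.dp le_rfl) hlt₁ hB₁).1
  obtain ⟨hcc, -⟩ := Sem.setTop hc₁ hc hle₁c ((hle₁c _ le_rfl).2 hlo) ((hle₁c _ le_rfl).2 hhi)
    fun x hx => ⟨le_rfl, hlt₁ x hx, le_rfl⟩
  have hI := tru_in (F := F) (D := D ∩ c₁.cell (n + 1)) (f := f)
    (Bp := Bp ∩ {p | p.1 ∈ c₁.cell (n + 1)}) (Bm := Bm ∩ {p | p.1 ∈ c₁.cell (n + 1)})
    (B := B ∩ {p | p.1 ∈ c₁.cell (n + 1)}) hG hθ ih hcc
    (by rw [Ctx.setTop_gens_succ]; exact hF)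
    (by rw [Ctx.setTop_cell le_rfl, Ctx.setTop_lo, Ctx.setTop_hi]; exact hs₁) hB₁ hν
    (by
      rw [Ctx.setTop_cell le_rfl, Ctx.setTop_lo, Ctx.setTop_hi]
      exact tru_mono hν (fun z hz => hz.1) hmono)
  rw [Ctx.setTop_cell le_rfl, Ctx.setTop_lo, Ctx.setTop_hi] at hI
  obtain ⟨c₂, E₂, g1, g2, g3, g4, g5⟩ := propagate hG.1 (n + 1) c₁ _ hc₁ dV hfat
    (hI.of_le Ctx.le_setTop) c₁ P E₁ hc₁ (Ctx.Le.refl _ _) hP₁ (by
      filter_upwards [hV] with ω h1 h2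
      exact h1 ⟨hsub h2.1, fun w hw => (h2.2 w ⟨h2.1, hw.2⟩).1⟩)
  refine ⟨c₂, E₂, g1, g2, hE₁.trans g3, g4.trans hle₁', fun x hx h1 => g5 hx ?_⟩
  have h2 := (g4 _ le_rfl).1 hx
  exact ⟨h2, fun w hw => ⟨h1.2 w ⟨h1.1, hw.2⟩, h2⟩⟩

theorem tru_side (hG : Good S Γ θ) (hθ : Clo θ) (top : Prop) (n : ℕ) : ∀ (c : Ctx)
    (F : ℕ → Fn (n + 1)) (D : Set (Fin n → ℝ)) (f : Fn n) (Bp Bm B : Set ((Fin n → ℝ) × ℝ)),
    Sem S θ c (n + 1) → (∀ i < n, F i ∈ c.gens (n + 1)) →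
    Sep S (c.cell n) (c.lo n) (c.hi n) F D f Bp Bm → ((top ∧ B = Bm) ∨ (¬ top ∧ B = Bp)) →
    Inside S θ c n (sideSet (c.cell n) (c.lo n) (c.hi n) B)ᶜ := by
  show TruSide S θ top n
  induction n with
  | zero => exact tru_zero top
  | succ n ih => exact tru_succ hG hθ ih

theorem tru (hG : Good S Γ θ) (hθ : Clo θ) {F : ℕ → Fn (n + 1)} {D : Set (Fin n → ℝ)} {f : Fn n}
    {Bp Bm : Set ((Fin n → ℝ) × ℝ)} (hc : Sem S θ c (n + 1)) (hF : ∀ i < n, F i ∈ c.gens (n + 1))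
    (hs : Sep S (c.cell n) (c.lo n) (c.hi n) F D f Bp Bm) : Inside S θ c n D := by
  have hlt := fun x hx => (hc.lt n n.lt_succ_self x hx).2.1
  intro c' P E hc' hle hP hD
  obtain ⟨c₁, E₁, h1, h2, h3, h4, h5⟩ := tru_side hG hθ True n c F D f Bp Bm Bm hc hF hs
    (Or.inl ⟨trivial, rfl⟩) c' P E hc' hle hP (by
      filter_upwards [hD] with ω h using ((hs.cover hlt).1 h).2.2)
  obtain ⟨c₂, E₂, g1, g2, g3, g4, g5⟩ := tru_side hG hθ False n c F D f Bp Bm Bp hc hF hs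
    (Or.inr ⟨not_false, rfl⟩) c₁ P E₁ h1 (h4.trans hle) h2 (by
      filter_upwards [hD] with ω h using ((hs.cover hlt).1 h).2.1)
  refine ⟨c₂, E₂, g1, g2, h3.trans g3, g4.trans h4, fun x hx => (hs.cover hlt).2 ⟨?_, g5 hx, ?_⟩⟩
  · exact (((g4.trans h4).trans hle) n le_rfl).1 hx
  · exact h5 ((g4 n le_rfl).1 hx)

end Pool.Agent.Lib.MP_1a1eb7_lc
end

-- part Pool.Agent.Lib.MP_1a1eb7_lc.Cons1
section

/-! C8b: a solution germ at a generic point extends to a solution on a cell. -/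

namespace Pool.Agent.Lib.MP_1a1eb7_lc

open Set Filter Topology Pool.Agent.Shared.OMin
open Ordinal (omega0)

variable {S : OStr} {Γ : Sys} {θ θ₁ θ₂ τ : ℕ → Ordinal.{0}} {P Q Z Z' y : ℕ → U} {n m k r N : ℕ}
  {E E' : ℕ → Fld} {c c' : Ctx} {α β γ : Ordinal.{0}} {K K₀ K₀' K₁ K₂ K' : Fld}

theorem cons1_at_upd {s : Fn n} {X : (Fin (n + 1) → ℝ) → Prop} :
    At X (upd P n (ev s P)) ↔ At (fun x => X (Fin.snoc x (s x))) P := by
  unfold At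
  refine eventually_congr ?_
  filter_upwards [out_ev s P] with ω h
  rw [tp_upd, h]

theorem cons1_ev_upd (s : Fn n) (G : Fn (n + 1)) :
    ev G (upd P n (ev s P)) = ev (fun x => G (Fin.snoc x (s x))) P := by
  refine ev_eq ?_
  filter_upwards [out_ev s P, out_ev (fun x => G (Fin.snoc x (s x))) P] with ω h h'
  rw [h', tp_upd, h]

theorem cons1_at_band {V : Set (Fin n → ℝ)} {a b : Fn n} :
    At (fun z => z ∈ band V a b) P ↔ At (fun x => x ∈ V) P ∧ ev a P < P n ∧ P n < ev b P := by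
  rw [lt_iff, lt_iff]
  unfold At
  rw [← eventually_and, ← eventually_and]
  refine eventually_congr ?_
  filter_upwards [out_ev a P, out_ev b P] with ω h h'
  rw [tp_succ, snoc_mem_band, h, h']

theorem cons1_at_band_upd {V : Set (Fin n → ℝ)} {a b : Fn n} {w : U} :
    At (fun z => z ∈ band V a b) (upd P n w) ↔
      At (fun x => x ∈ V) P ∧ ev a P < w ∧ w < ev b P := by
  rw [cons1_at_band, (agree_upd w).at_iff, (agree_upd w).ev_eq, (agree_upd w).ev_eq, upd_self]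

theorem cons1_dp_solAt {F : ℕ → Fn (n + 1)} {f : Fn n} (dF : ∀ i < n, DF S (F i))
    (df : DF S f) : DP S (SolAt F f) := by
  refine DP.and (DP.diffAt (f := fun _ => f) (df.comp (DF.snd DF.id')) DF.id') ?_
  refine DP.finset_and (s := Iio n) (finite_Iio n)
    (P := fun i x => pdv f i x = F i (Fin.snoc x (f x))) fun i hi => ?_
  exact DP.eq (df.pdv i) ((dF i hi).comp (DF.snoc DF.id' df))

theorem cons1_isOpen_band {V : Set (Fin n → ℝ)} {a b : Fn n} (hV : IsOpen V)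
    (ha : ContinuousOn a V) (hb : ContinuousOn b V) : IsOpen (band V a b) := by
  have hi : Continuous fun z : Fin (n + 1) → ℝ => Fin.init z :=
    continuous_pi fun i => continuous_apply _
  have ho : IsOpen {z : Fin (n + 1) → ℝ | Fin.init z ∈ V} := hV.preimage hi
  have h1 : ContinuousOn (fun z : Fin (n + 1) → ℝ => z (Fin.last n) - a (Fin.init z))
      {z | Fin.init z ∈ V} :=
    (continuous_apply _).continuousOn.sub (ha.comp hi.continuousOn fun _ h => h)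
  have h2 : ContinuousOn (fun z : Fin (n + 1) → ℝ => b (Fin.init z) - z (Fin.last n))
      {z | Fin.init z ∈ V} :=
    (hb.comp hi.continuousOn fun _ h => h).sub (continuous_apply _).continuousOn
  have h3 := (h1.isOpen_inter_preimage ho isOpen_Ioi (t := Ioi 0)).inter
    (h2.isOpen_inter_preimage ho isOpen_Ioi (t := Ioi 0))
  convert h3 using 1
  ext z
  simp only [band, mem_ofPred_eq, mem_inter_iff, mem_preimage, mem_Ioi, sub_pos]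
  tauto

theorem cons1_dp_band {V : Set (Fin n → ℝ)} {a b : Fn n} (dV : DP S fun x => x ∈ V)
    (da : DF S a) (db : DF S b) : DP S fun z => z ∈ band V a b := by
  have h1 : DP S fun z : Fin (n + 1) → ℝ => Fin.init z ∈ V := dV.mem (DF.init DF.id')
  have h2 : DF S fun z : Fin (n + 1) → ℝ => a (Fin.init z) := da.comp (DF.init DF.id')
  have h3 : DF S fun z : Fin (n + 1) → ℝ => b (Fin.init z) := db.comp (DF.init DF.id')
  exact h1.and ((DP.lt h2 (DF.apply _)).and (DP.lt (DF.apply _) h3))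

/-- put the top level of `c` over the smaller context `c'` -/
theorem cons1_over (h' : Sem S θ c' n) (h : Sem S θ c (n + 1)) (hle : c'.Le c n) :
    ∃ c'' : Ctx, Sem S θ c'' (n + 1) ∧ c''.Le c (n + 1) ∧ c''.Le c' n ∧ c'.Le c'' n ∧
      c''.cell n = c'.cell n ∧ c''.lo n = c.lo n ∧ c''.hi n = c.hi n ∧
      c''.gens (n + 1) = c.gens (n + 1) := by
  have hn : n < n + 1 := n.lt_succ_self
  obtain ⟨h1, h2⟩ := Sem.setTop h' h hle ((hle n le_rfl).2 (h.lo_mem n hn))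
    ((hle n le_rfl).2 (h.hi_mem n hn))
    fun x hx => ⟨le_rfl, (h.lt n hn x ((hle n le_rfl).1 hx)).2.1, le_rfl⟩
  exact ⟨_, h1, h2, Ctx.setTop_le, Ctx.le_setTop, Ctx.setTop_cell le_rfl, Ctx.setTop_lo,
    Ctx.setTop_hi, Ctx.setTop_gens_succ⟩

theorem cons1_strip (hM : Main S Γ θ) (hc : Sem S θ c (n + 2)) {G : Fn (n + 2)}
    (hG : G ∈ c.gens (n + 2)) (hc' : Sem S θ c' (n + 1)) (hle : c'.Le c (n + 1))
    (hP : Pt S θ c' P (n + 1) E) {e : Fn (n + 1)} (he : e = c.lo (n + 1) ∨ e = c.hi (n + 1)) :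
    ∃ (c₁ : Ctx) (E₁ : ℕ → Fld) (e' : Fn (n + 1)), Sem S θ c₁ (n + 1) ∧
      Pt S θ c₁ P (n + 1) E₁ ∧ Ext E E₁ (n + 1) ∧ c₁.Le c' (n + 1) ∧
      ContinuousOn e' (c₁.cell (n + 1)) ∧
      (∀ x ∈ c₁.cell (n + 1), c.lo (n + 1) x ≤ e' x ∧ e' x ≤ c.hi (n + 1) x ∧ e' x ≠ e x) ∧
      Tri (fun p => pdv e n (Fin.init p) - G p) (strip (c₁.cell (n + 1)) e e') := by
  obtain ⟨c'', s1, l1, l2, l3, -, e2, e3, e4⟩ := cons1_over hc' hc hle
  have hn : n + 1 < n + 2 := by omega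
  have hem : e ∈ c''.gens (n + 1) := by
    rcases he with rfl | rfl
    · exact e2 ▸ s1.lo_mem _ hn
    · exact e3 ▸ s1.hi_mem _ hn
  have hG' : G ∈ c''.gens (n + 2) := e4 ▸ hG
  have de := s1.df _ hn.le e hem
  have dG := s1.df _ le_rfl G hG'
  obtain ⟨c₁, E₁, e', t1, t2, t3, t4, t5, t6, t7⟩ := exists_strip hM s1 (hP.of_le l3) (e := e)
    (by rw [e2, e3]; exact he) (T := {fun p => pdv e n (Fin.init p) - G p}) (finite_singleton _)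
    (by
      rintro _ rfl
      refine ⟨((de.pdv n).comp (DF.init DF.id')).sub dG, ?_, fun w E' hw => ?_⟩
      · exact (analyticOnNhd_init (analyticOnNhd_pdv (s1.an _ hn.le e hem) n)
          fun z hz => hz.1).sub (s1.an _ le_rfl G hG')
      · rw [ev_sub, ev_init, ← pd_ev (hw.tow.gen.mono hn.le) de]
        refine (E' _).sub_mem (hw.tow.le hn.le le_rfl ?_) (hw.vals _ le_rfl G hG')
        exact (hw.tow.dfld hn.le).pc n _ (hw.vals _ hn.le e hem))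
  refine ⟨c₁, E₁, e', t1, t2, t3, t4.trans l2, (t1.an _ le_rfl e' t5).continuousOn, ?_,
    t7 _ rfl⟩
  rw [← e2, ← e3]
  exact t6

/-- the data for the leaf theorem -/
structure Cons1D (S : OStr) (θ : ℕ → Ordinal.{0}) (c c₂ : Ctx) (n : ℕ) (F : ℕ → Fn (n + 2)) :
    Prop where
  hc : Sem S θ c (n + 2)
  hc₂ : Sem S θ c₂ (n + 1)
  le : c₂.Le c (n + 1)
  hF : ∀ i < n + 1, F i ∈ c.gens (n + 2)
  hI : ∀ p ∈ c.cell (n + 2), ∀ i < n + 1, ∀ j < n + 1, itg F i j p = 0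
  str : ∃ g' h' : Fn (n + 1), ContinuousOn g' (c₂.cell (n + 1)) ∧
    ContinuousOn h' (c₂.cell (n + 1)) ∧
    (∀ z ∈ c₂.cell (n + 1), c.lo (n + 1) z < c.hi (n + 1) z ∧ c.lo (n + 1) z < g' z ∧
      g' z ≤ c.hi (n + 1) z ∧ c.lo (n + 1) z ≤ h' z ∧ h' z < c.hi (n + 1) z) ∧
    Tri (fun p => pdv (c.hi (n + 1)) n (Fin.init p) - F n p)
      (strip (c₂.cell (n + 1)) (c.hi (n + 1)) h') ∧
    Tri (fun p => pdv (c.lo (n + 1)) n (Fin.init p) - F n p)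
      (strip (c₂.cell (n + 1)) (c.lo (n + 1)) g')

theorem cons1_strip_mono {A A' : Set (Fin n → ℝ)} (h : A' ⊆ A) (e e' : Fn n) :
    strip A' e e' ⊆ strip A e e' := fun _ hz => ⟨h hz.1, hz.2⟩

theorem cons1_data (hM : Main S Γ θ) (hc : Sem S θ c (n + 2)) {F : ℕ → Fn (n + 2)}
    (hF : ∀ i < n + 1, F i ∈ c.gens (n + 2))
    (hI : ∀ p ∈ c.cell (n + 2), ∀ i < n + 1, ∀ j < n + 1, itg F i j p = 0)
    (hP : Pt S θ c P (n + 1) E) : ∃ (c₂ : Ctx) (E₂ : ℕ → Fld), Cons1D S θ c c₂ n F ∧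
      Pt S θ c₂ P (n + 1) E₂ ∧ Ext E E₂ (n + 1) := by
  have hn : n + 1 < n + 2 := by omega
  obtain ⟨c₁, E₁, h', s1, s2, s3, s4, s5, s6, s7⟩ := cons1_strip hM hc (hF n n.lt_succ_self)
    (hc.down hn.le) (Ctx.Le.refl c _) hP (.inr rfl)
  obtain ⟨c₂, E₂, g', t1, t2, t3, t4, t5, t6, t7⟩ := cons1_strip hM hc (hF n n.lt_succ_self)
    s1 s4 s2 (.inl rfl)
  have hsub := (t4 _ le_rfl).1
  refine ⟨c₂, E₂, ⟨hc, t1, t4.trans s4, hF, hI, g', h', t5, s5.mono hsub, fun z hz => ?_,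
    s7.mono (cons1_strip_mono hsub _ _), t7⟩, t2, s3.trans t3⟩
  obtain ⟨a1, a2, a3⟩ := t6 z hz
  obtain ⟨b1, b2, b3⟩ := s6 z (hsub hz)
  exact ⟨(hc.lt _ hn z ((s4 _ le_rfl).1 (hsub hz))).2.1, lt_of_le_of_ne a1 a3.symm, a2, b1,
    lt_of_le_of_ne b2 b3⟩

variable {c₂ : Ctx} {F : ℕ → Fn (n + 2)}

theorem Cons1D.dF (D : Cons1D S θ c c₂ n F) : ∀ i < n + 1, DF S (F i) :=
  fun i hi => D.hc.df _ le_rfl _ (D.hF i hi)

theorem Cons1D.band_sub {V : Set (Fin n → ℝ)} (hV : V ⊆ c₂.cell n) :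
    band V (c₂.lo n) (c₂.hi n) ⊆ c₂.cell (n + 1) := fun _ hz => ⟨hV hz.1, hz.2⟩

/-- the leaf theorem over an open subset of the level `n` cell -/
theorem Cons1D.leaf (D : Cons1D S θ c c₂ n F) (hS : PfClosed S) {V : Set (Fin n → ℝ)}
    (hV : IsOpen V) (dV : DP S fun x => x ∈ V) (hsub : V ⊆ c₂.cell n) {s φ : Fn n}
    (cs : ContinuousOn s V)
    (hm : ∀ x ∈ V, c₂.lo n x < s x ∧ s x < c₂.hi n x ∧
      (Fin.snoc (Fin.snoc x (s x) : Fin (n + 1) → ℝ) (φ x) : Fin (n + 2) → ℝ) ∈ c.cell (n + 2))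
    (hloc : ∀ x ∈ V, ∃ f₀ : Fn (n + 1),
      (∀ᶠ z in 𝓝 (Fin.snoc x (s x) : Fin (n + 1) → ℝ), SolAt F f₀ z) ∧
      ∀ᶠ z in 𝓝 x, f₀ (Fin.snoc z (s z)) = φ z) :
    ∃ (a b : Fn n) (f : Fn (n + 1)) (Bp Bm : Set ((Fin (n + 1) → ℝ) × ℝ)), DF S a ∧ DF S b ∧
      Sep S (band V (c₂.lo n) (c₂.hi n)) (c.lo (n + 1)) (c.hi (n + 1)) F (band V a b) f Bp Bm ∧
      (∀ x ∈ V, c₂.lo n x ≤ a x ∧ a x < b x ∧ b x ≤ c₂.hi n x) ∧
      ∀ x ∈ V, ∀ (s₁ s₂ : ℝ) (f' : Fn (n + 1)), c₂.lo n x ≤ s₁ → s₁ < s x → s x < s₂ →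
        s₂ ≤ c₂.hi n x → f' (Fin.snoc x (s x)) = φ x →
        (∀ t ∈ Ioo s₁ s₂, (Fin.snoc (Fin.snoc x t : Fin (n + 1) → ℝ) (f' (Fin.snoc x t)) :
          Fin (n + 2) → ℝ) ∈ c.cell (n + 2) ∧ SolAt F f' (Fin.snoc x t)) →
        ∀ t ∈ Ioo s₁ s₂, (Fin.snoc x t : Fin (n + 1) → ℝ) ∈ band V a b ∧
          f (Fin.snoc x t) = f' (Fin.snoc x t) := by
  obtain ⟨g', h', cg, ch, hlt, top, bot⟩ := D.str
  have hn : n < n + 1 := n.lt_succ_self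
  have hn' : n + 1 < n + 2 := by omega
  have hb := Cons1D.band_sub hsub
  have hb' : band V (c₂.lo n) (c₂.hi n) ⊆ c.cell (n + 1) := hb.trans (D.le _ le_rfl).1
  have hbb : band (band V (c₂.lo n) (c₂.hi n)) (c.lo (n + 1)) (c.hi (n + 1)) ⊆ c.cell (n + 2) :=
    fun _ hz => ⟨hb' hz.1, hz.2⟩
  have key : ∀ {x : Fin n → ℝ} {t w : ℝ}, x ∈ V → c₂.lo n x < t → t < c₂.hi n x →
      (Fin.snoc (Fin.snoc x t : Fin (n + 1) → ℝ) w : Fin (n + 2) → ℝ) ∈ c.cell (n + 2) →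
      (Fin.snoc (Fin.snoc x t : Fin (n + 1) → ℝ) w : Fin (n + 2) → ℝ) ∈
        band (band V (c₂.lo n) (c₂.hi n)) (c.lo (n + 1)) (c.hi (n + 1)) := by
    intro x t w h1 h2 h3 h4
    exact snoc_mem_band.2 ⟨snoc_mem_band.2 ⟨h1, h2, h3⟩, (snoc_mem_band.1 h4).2⟩
  have mlo := D.hc₂.lo_mem n hn
  have mhi := D.hc₂.hi_mem n hn
  have mg := D.hc.lo_mem _ hn'
  have mh := D.hc.hi_mem _ hn'
  obtain ⟨a, b, f, Bp, Bm, da, db, hs, hbd, hu⟩ := leaf_fin hS (s := s) (φ := φ) hV dV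
    (D.hc₂.df n hn.le _ mlo) (D.hc₂.df n hn.le _ mhi) (D.hc.df _ hn'.le _ mg)
    (D.hc.df _ hn'.le _ mh) D.dF ((D.hc₂.an n hn.le _ mlo).continuousOn.mono hsub)
    ((D.hc₂.an n hn.le _ mhi).continuousOn.mono hsub) ((D.hc.an _ hn'.le _ mg).mono hb')
    ((D.hc.an _ hn'.le _ mh).mono hb') (cg.mono hb) (ch.mono hb) (fun z hz => hlt z (hb hz))
    (fun i hi => (D.hc.an _ le_rfl _ (D.hF i hi)).mono hbb) (fun p hp => D.hI p (hbb hp))
    (top.mono (cons1_strip_mono hb _ _)) (bot.mono (cons1_strip_mono hb _ _)) cs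
    (fun x hx => key hx (hm x hx).1 (hm x hx).2.1 (hm x hx).2.2) hloc
  refine ⟨a, b, f, Bp, Bm, da, db, hs, fun x hx => ?_, fun x hx s₁ s₂ f' h1 h2 h3 h4 h5 h6 => ?_⟩
  · obtain ⟨a1, a2, a3, a4, -⟩ := hbd x hx
    exact ⟨a1, a2.trans a3, a4⟩
  · obtain ⟨a1, a2, a3⟩ := hu x hx s₁ s₂ f' h2 h3 h5 fun t ht =>
      ⟨key hx (h1.trans_lt ht.1) (ht.2.trans_le h4) (h6 t ht).1, (h6 t ht).2⟩
    exact fun t ht => ⟨snoc_mem_band.2 ⟨hx, a1.trans_lt ht.1, ht.2.trans_le a2⟩, (a3 t ht).symm⟩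

/-- the first leaf, through the germ of the solution -/
theorem Cons1D.first (D : Cons1D S θ c c₂ n F) (hS : PfClosed S) (hP : Gen S P (n + 1))
    (hh : c₂.Has (n + 1) P) {φ : Fn (n + 1)} (dφ : DF S φ)
    (hsol : At (fun z => Fin.snoc z (φ z) ∈ c.cell (n + 2) ∧ SolAt F φ z) P) :
    ∃ (V : Set (Fin n → ℝ)) (a b : Fn n) (f : Fn (n + 1)) (Bp Bm : Set ((Fin (n + 1) → ℝ) × ℝ)),
      IsOpen V ∧ (DP S fun x => x ∈ V) ∧ V ⊆ c₂.cell n ∧ DF S a ∧ DF S b ∧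
      Sep S (band V (c₂.lo n) (c₂.hi n)) (c.lo (n + 1)) (c.hi (n + 1)) F (band V a b) f Bp Bm ∧
      (∀ x ∈ V, c₂.lo n x ≤ a x ∧ a x < b x ∧ b x ≤ c₂.hi n x) ∧
      At (fun z => z ∈ band V a b) P ∧ ev f P = ev φ P := by
  have hn : n < n + 1 := n.lt_succ_self
  have hPn := hP.mono hn.le
  obtain ⟨X, hX⟩ : ∃ X : (Fin (n + 1) → ℝ) → Prop,
      X = fun z => Fin.snoc z (φ z) ∈ c.cell (n + 2) ∧ SolAt F φ z := ⟨_, rfl⟩
  have dX : DP S X :=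
    hX ▸ ((D.hc.dp le_rfl).mem (DF.snoc DF.id' dφ)).and (cons1_dp_solAt D.dF dφ)
  have dG : DP S fun z => ∀ᶠ u in 𝓝 z, X u :=
    DP.ev_nhds (P := fun _ u => X u) (dX.comp (DF.snd DF.id')) DF.id'
  have dG' : DP S fun z : (Fin n → ℝ) × ℝ =>
      ∀ᶠ u in 𝓝 (Fin.snoc z.1 z.2 : Fin (n + 1) → ℝ), X u :=
    dG.comp (DF.snoc (DF.fst DF.id') (DF.snd DF.id'))
  have hG := hP.nhds dX (hX ▸ hsol)
  obtain ⟨h0, h1, h2⟩ := Ctx.has_succ.1 hh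
  have dlo := D.hc₂.df n hn.le _ (D.hc₂.lo_mem n hn)
  have dhi := D.hc₂.df n hn.le _ (D.hc₂.hi_mem n hn)
  obtain ⟨_, ⟨A, dA, rfl⟩, _, ⟨B, dB, rfl⟩, i1, i2, i3, i4, i5, -⟩ :=
    exists_interval (InD.tp_self (S := S) (P := P) (k := n))
      (X := fun x t => ∀ᶠ u in 𝓝 (Fin.snoc x t : Fin (n + 1) → ℝ), X u) dG' hP.last
      (ev_mem_dcl dlo) (ev_mem_dcl dhi) h1 h2
      (by filter_upwards [hG] with ω h; rwa [tp_succ] at h)
  obtain ⟨Y, hY⟩ : ∃ Y : (Fin n → ℝ) → Prop, Y = fun x => x ∈ c₂.cell n ∧ ContinuousAt A x ∧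
      ContinuousAt B x ∧ c₂.lo n x ≤ A x ∧ A x < B x ∧ B x ≤ c₂.hi n x ∧
      ∀ t, A x < t → t < B x → ∀ᶠ u in 𝓝 (Fin.snoc x t : Fin (n + 1) → ℝ), X u := ⟨_, rfl⟩
  have dY : DP S Y := by
    rw [hY]
    refine (D.hc₂.dp hn.le).and ((DP.contAt (f := fun _ => A) (dA.comp (DF.snd DF.id')) DF.id').and
      ((DP.contAt (f := fun _ => B) (dB.comp (DF.snd DF.id')) DF.id').and ((DP.le dlo dA).and
      ((DP.lt dA dB).and ((DP.le dB dhi).and (DP.all ?_))))))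
    exact DP.imp (DP.lt (dA.comp (DF.fst DF.id')) (DF.snd DF.id'))
      (DP.imp (DP.lt (DF.snd DF.id') (dB.comp (DF.fst DF.id'))) dG')
  have hYP : At Y P := by
    rw [hY]
    filter_upwards [h0, hPn.contDiffAt dA, hPn.contDiffAt dB, ev_le_iff.1 i1,
      ev_lt_iff.1 (i2.trans i3), ev_le_iff.1 i4, i5, out_ev A P, out_ev B P]
      with ω k1 k2 k3 k4 k5 k6 k7 k8 k9
    exact ⟨k1, k2.continuousAt, k3.continuousAt, k4, k5, k6, fun t a1 a2 =>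
      k7 t ⟨k8 ▸ a1, k9 ▸ a2⟩⟩
  have hVP := hPn.nhds dY hYP
  have dV : DP S fun x => ∀ᶠ u in 𝓝 x, Y u :=
    DP.ev_nhds (P := fun _ u => Y u) (dY.comp (DF.snd DF.id')) DF.id'
  have hVY : ∀ x ∈ {x | ∀ᶠ u in 𝓝 x, Y u}, x ∈ c₂.cell n ∧ ContinuousAt A x ∧
      ContinuousAt B x ∧ c₂.lo n x ≤ A x ∧ A x < B x ∧ B x ≤ c₂.hi n x ∧
      ∀ t, A x < t → t < B x → ∀ᶠ u in 𝓝 (Fin.snoc x t : Fin (n + 1) → ℝ), X u := by
    intro x hx
    have := Eventually.self_of_nhds hx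
    rwa [hY] at this
  have hmid : ∀ x ∈ {x | ∀ᶠ u in 𝓝 x, Y u},
      A x < (A x + B x) / 2 ∧ (A x + B x) / 2 < B x := fun x hx => by
    have := (hVY x hx).2.2.2.2.1
    constructor <;> linarith
  obtain ⟨a, b, f, Bp, Bm, da, db, hs, hbd, hu⟩ := D.leaf hS (V := {x | ∀ᶠ u in 𝓝 x, Y u})
    isOpen_setOfPred_eventually_nhds dV (fun x hx => (hVY x hx).1)
    (s := fun x => (A x + B x) / 2) (φ := fun x => φ (Fin.snoc x ((A x + B x) / 2)))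
    (fun x hx => (((hVY x hx).2.1.add (hVY x hx).2.2.1).div_const 2).continuousWithinAt)
    (fun x hx => by
      obtain ⟨-, -, -, k4, -, k6, k7⟩ := hVY x hx
      obtain ⟨m1, m2⟩ := hmid x hx
      have := (k7 _ m1 m2).self_of_nhds
      rw [hX] at this
      exact ⟨k4.trans_lt m1, m2.trans_le k6, this.1⟩)
    (fun x hx => by
      obtain ⟨m1, m2⟩ := hmid x hx
      refine ⟨φ, ((hVY x hx).2.2.2.2.2.2 _ m1 m2).mono fun u hu => ?_, .of_forall fun _ => rfl⟩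
      rw [hX] at hu
      exact hu.2)
  have hfin : At (fun z => z ∈ band {x | ∀ᶠ u in 𝓝 x, Y u} a b ∧ f z = φ z) P := by
    filter_upwards [hVP, lt_iff.1 i2, lt_iff.1 i3, out_ev A P, out_ev B P] with ω k1 k2 k3 k4 k5
    obtain ⟨-, -, -, l4, -, l6, l7⟩ := hVY _ k1
    obtain ⟨m1, m2⟩ := hmid _ k1
    rw [tp_succ]
    refine hu _ k1 _ _ φ l4 m1 m2 l6 rfl (fun t ht => ?_) _ ⟨k4 ▸ k2, k5 ▸ k3⟩
    have := (l7 t ht.1 ht.2).self_of_nhds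
    rwa [hX] at this
  exact ⟨_, a, b, f, Bp, Bm, isOpen_setOfPred_eventually_nhds, dV, fun x hx => (hVY x hx).1, da, db,
    hs, hbd, hfin.mono fun _ h => h.1, ev_eq_iff.2 (hfin.mono fun _ h => h.2)⟩

/-- the ends of the domain of the leaf have low rank -/
theorem Cons1D.ends (D : Cons1D S θ c c₂ n F) (hG : Good S Γ θ) (hθ : Clo θ)
    {V : Set (Fin n → ℝ)} {a b : Fn n} {f : Fn (n + 1)} {Bp Bm : Set ((Fin (n + 1) → ℝ) × ℝ)}
    (hV : IsOpen V) (dV : DP S fun x => x ∈ V) (hsub : V ⊆ c₂.cell n) (da : DF S a) (db : DF S b)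
    (hs : Sep S (band V (c₂.lo n) (c₂.hi n)) (c.lo (n + 1)) (c.hi (n + 1)) F (band V a b) f Bp Bm)
    (hbd : ∀ x ∈ V, c₂.lo n x ≤ a x ∧ a x < b x ∧ b x ≤ c₂.hi n x)
    (hPV : At (fun x => x ∈ V) P) (hP : Pt S θ c₂ P n E) :
    ∃ E', Pt S θ c₂ P n E' ∧ Ext E E' n ∧ ev a P ∈ E' n ∧ ev b P ∈ E' n := by
  have hn : n < n + 1 := n.lt_succ_self
  have mlo := D.hc₂.lo_mem n hn
  have mhi := D.hc₂.hi_mem n hn
  have key : ∀ (E : ℕ → Fld) (u s : U), Pt S θ c₂ P n E → u ∈ dcl S P n →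
      ev (c₂.lo n) P ≤ u → u ≤ ev (c₂.hi n) P → ¬ (ev a P < u ∧ u < ev b P) → s ≠ u →
      Inf (dcl S P n) (s - u) → ev a P < s → s < ev b P →
      ∃ E', Pt S θ c₂ P n E' ∧ Ext E E' n ∧ u ∈ E' n := by
    intro E u s hP hu h1 h2 h3 h4 h5 h6 h7
    rcases h1.eq_or_lt with rfl | h1
    · exact ⟨E, hP, Ext.refl _ _, hP.vals n le_rfl _ mlo⟩
    rcases h2.eq_or_lt with rfl | h2
    · exact ⟨E, hP, Ext.refl _ _, hP.vals n le_rfl _ mhi⟩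
    obtain ⟨E', t1, t2, t3⟩ := ep_sep hG hθ D.hc D.hF
      ((Cons1D.band_sub hsub).trans (D.le _ le_rfl).1)
      (cons1_isOpen_band hV ((D.hc₂.an n hn.le _ mlo).continuousOn.mono hsub)
        ((D.hc₂.an n hn.le _ mhi).continuousOn.mono hsub))
      (cons1_dp_band dV (D.hc₂.df n hn.le _ mlo) (D.hc₂.df n hn.le _ mhi)) hs
      (hP.of_le (D.le.down hn.le)) hu
      ((cons1_at_band_upd.2 ⟨hPV, h1, h2⟩).and
        (ev_not.2 fun h => h3 (cons1_at_band_upd.1 h).2)) h4 h5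
      (cons1_at_band_upd.2 ⟨hPV, h6, h7⟩)
    exact ⟨E', hP.of_ext t1 t2, t2, t3⟩
  have b1 : ev (c₂.lo n) P ≤ ev a P := ev_le_iff.2 (hPV.mono fun _ h => (hbd _ h).1)
  have b2 : ev a P < ev b P := ev_lt_iff.2 (hPV.mono fun _ h => (hbd _ h).2.1)
  have b3 : ev b P ≤ ev (c₂.hi n) P := ev_le_iff.2 (hPV.mono fun _ h => (hbd _ h).2.2)
  obtain ⟨ε, h0, hε⟩ := exists_inf S P n
  have ma := ev_mem_dcl (P := P) da
  have mb := ev_mem_dcl (P := P) db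
  have hlt : ε < ev b P - ev a P :=
    (le_abs_self ε).trans_lt (hε _ ((dcl S P n).sub_mem mb ma) (sub_pos.2 b2))
  obtain ⟨E₁, t1, t2, t3⟩ := key E (ev a P) (ev a P + ε) hP ma b1 (b2.le.trans b3)
    (fun h => lt_irrefl _ h.1) (by linarith) (by simpa using hε) (by linarith) (by linarith)
  obtain ⟨E₂, u1, u2, u3⟩ := key E₁ (ev b P) (ev b P - ε) t1 mb (b1.trans b2.le) b3
    (fun h => lt_irrefl _ h.2) (by linarith) (by simpa using hε.neg) (by linarith) (by linarith)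
  exact ⟨E₂, u1, t2.trans u2, u2 n le_rfl t3, u3⟩

theorem cons1_vals_upd (hP : Pt S θ c P n E) (w : U) {j : ℕ} (hj : j ≤ n) :
    c.Vals j (upd P n w) (E n) :=
  ((hP.vals j hj).mono (hP.tow.le hj le_rfl)).congr ((agree_upd w).symm.mono hj)

theorem cons1_upd_mem (hP : Tow S θ P n E) {w : U} (hw : w ∈ E n) :
    ∀ i < n + 1, upd P n w i ∈ E n := by
  intro i hi
  rcases (Nat.lt_succ_iff.1 hi).eq_or_lt with rfl | h
  · rwa [upd_self]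
  · rw [upd_of_ne h.ne]
    exact hP.mem h le_rfl

/-- the value of a solution over a point of the top field is a node -/
theorem cons1_node (hθ : Clo θ) (hc : Sem S θ c (n + 2)) (hF : ∀ i < n + 1, F i ∈ c.gens (n + 2))
    (hP : Pt S θ c P n E) {s : U} (hs : s ∈ E n) {f : Fn (n + 1)} (df : DF S f)
    (hy : At (fun z => Fin.snoc z (f z) ∈ c.cell (n + 2) ∧ SolAt F f z) (upd P n s)) :
    ∃ K γ, Pres S P n (E n) K γ ∧ γ ≤ omega0 ^ θ (n + 1) ∧ c.Vals (n + 1) (upd P n s) K ∧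
      ev f (upd P n s) ∈ K := by
  have hn : n + 1 < n + 2 := by omega
  obtain ⟨y, hyd⟩ : ∃ y, y = upd P n s := ⟨_, rfl⟩
  have hym : ∀ i < n + 1, y i ∈ E n := hyd ▸ cons1_upd_mem hP.tow hs
  have hv : ∀ j < n + 1, c.Vals j y (E n) := fun j hj =>
    hyd ▸ cons1_vals_upd hP s (Nat.lt_succ_iff.1 hj)
  rw [← hyd] at hy ⊢
  have hg := hP.tow.gen
  have hE := hP.tow.dfld le_rfl
  have hh : c.Has (n + 2) (upd y (n + 1) (ev f y)) :=
    cons1_at_upd.2 (hy.mono fun _ h => h.1)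
  obtain ⟨h1, h2, h3⟩ := Ctx.has_upd.1 hh
  obtain ⟨a, ha, hch⟩ := hc.chain (n + 1) hn.le
  obtain ⟨K₁, p1, v1⟩ := hch P n y (E n) hg hE hym h1 hv
  have hK₁ := p1.dfld hE
  have hyd' : ∀ i < n + 1, y i ∈ dcl S P n := fun i hi => hE.le (hym i hi)
  have mf : ev f y ∈ dcl S P n := ev_mem hyd' df
  have mh : ev (c.hi (n + 1)) y ∈ dcl S P n := ev_mem hyd' (hc.df _ hn.le _ (hc.hi_mem _ hn))
  obtain ⟨ε, h0, hε⟩ := exists_inf S P n
  have hlt : ε < ev (c.hi (n + 1)) y - ev f y :=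
    (le_abs_self ε).trans_lt (hε _ ((dcl S P n).sub_mem mh mf) (sub_pos.2 h3))
  obtain ⟨w, hw⟩ : ∃ w, w = ev f y + ε := ⟨_, rfl⟩
  have hne : w ≠ ev f y := by rw [hw]; linarith
  have hi : Inf (dcl S P n) (w - ev f y) := by simpa [hw] using hε
  have hh' : c.Has (n + 2) (upd y (n + 1) w) :=
    Ctx.has_upd.2 ⟨h1, by rw [hw]; linarith, by rw [hw]; linarith⟩
  have hb : |w| < 1 := by simpa using hc.has_abs_lt hh' hn
  have hg' : Gen S (upd P n w) (n + 1) := hg.upd (hi.notMem mf hne)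
  have hadj : DFld S (upd P n w) (n + 1) (adj K₁ w) := by
    simpa using DFld.adj hg' (hK₁.congr (agree_upd w).symm)
  obtain ⟨b, hb', hch'⟩ := hc.chain (n + 2) le_rfl
  obtain ⟨K', p2, v2⟩ := hch' (upd P n w) (n + 1) (upd y (n + 1) w) (adj K₁ w) hg' hadj
    (fun i hi => by
      rcases (Nat.lt_succ_iff.1 hi).eq_or_lt with rfl | h
      · rw [upd_self]
        exact mem_adj _ _
      · rw [upd_of_ne h.ne]
        exact le_adj _ _ (p1.le (hym i h))) hh'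
    (fun j hj => by
      have hj' := Nat.lt_succ_iff.1 hj
      refine Ctx.Vals.congr (Ctx.Vals.mono ?_ (le_adj K₁ w)) ((agree_upd w).symm.mono hj')
      rcases hj'.eq_or_lt with rfl | h
      · exact v1
      · exact (hv j h).mono p1.le)
  obtain ⟨K₂, p3, m3, -⟩ := node_at hg hK₁ (fun i hi => p1.le (hym i hi)) df
    (fun i hi => hc.df _ le_rfl _ (hF i hi))
    (hy.mono fun _ h => ⟨h.2.1, fun i hi => ⟨h.2.2 i hi,
      (hc.an _ le_rfl _ (hF i hi) _ h.1).differentiableAt⟩⟩) hne hi hb p2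
    (fun i hi => v2 _ (hF i hi))
  refine ⟨K₂, _, p1.trans p3, ?_, v1.mono p3.le, m3⟩
  refine le_trans ?_ ((hθ (n + 1) (Nat.zero_le _) a ha).trans
    (Ordinal.right_le_opow _ Ordinal.one_lt_omega0))
  exact add_le_add_right
    (Ordinal.opow_le_opow_right Ordinal.omega0_pos (Order.add_one_le_of_lt hb')) _

/-- a section through the leaf over a cell -/
theorem Cons1D.sec (D : Cons1D S θ c c₂ n F) (hM : Main S Γ τ) (hP : Pt S τ c₂ P n E) {u : U}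
    (hu : u ∈ E n) (hh : c₂.Has (n + 1) (upd P n u)) {f : Fn (n + 1)} (df : DF S f)
    (hy : At (fun z => Fin.snoc z (f z) ∈ c.cell (n + 2) ∧ SolAt F f z) (upd P n u))
    (hv : c.Vals (n + 1) (upd P n u) (E n)) (hf : ev f (upd P n u) ∈ E n) :
    ∃ (c₅ : Ctx) (E' : ℕ → Fld) (s φ : Fn n), Sem S τ c₅ n ∧ Pt S τ c₅ P n E' ∧ Ext E E' n ∧
      c₅.Le c₂ n ∧ ev s P = u ∧ ev φ P = ev f (upd P n u) ∧ ContinuousOn s (c₅.cell n) ∧
      (∀ x ∈ c₅.cell n, c₂.lo n x < s x ∧ s x < c₂.hi n x ∧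
        (Fin.snoc (Fin.snoc x (s x) : Fin (n + 1) → ℝ) (φ x) : Fin (n + 2) → ℝ) ∈
          c.cell (n + 2)) ∧
      ∀ x ∈ c₅.cell n, ∃ f₀ : Fn (n + 1),
        (∀ᶠ z in 𝓝 (Fin.snoc x (s x) : Fin (n + 1) → ℝ), SolAt F f₀ z) ∧
        ∀ᶠ z in 𝓝 x, f₀ (Fin.snoc z (s z)) = φ z := by
  have hn : n < n + 1 := n.lt_succ_self
  have hn' : n + 1 < n + 2 := by omega
  have mlo := D.hc₂.lo_mem n hn
  have mhi := D.hc₂.hi_mem n hn
  have mg := D.hc.lo_mem _ hn'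
  have mh := D.hc.hi_mem _ hn'
  have hg := hP.tow.gen
  obtain ⟨c₅, E', s1, -, s2, s3, s4, s5⟩ := Main.top hM (D.hc₂.down hn.le) le_rfl hP.tow hP.has
    hP.vals (R := {u, ev f (upd P n u), u - ev (c₂.lo n) P, ev (c₂.hi n) P - u,
      ev f (upd P n u) - ev (c.lo (n + 1)) (upd P n u),
      ev (c.hi (n + 1)) (upd P n u) - ev f (upd P n u)}) (toFinite _) (by
        have := hP.vals n le_rfl
        rintro _ (rfl | rfl | rfl | rfl | rfl | rfl)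
        exacts [hu, hf, (E n).sub_mem hu (this _ mlo), (E n).sub_mem (this _ mhi) hu,
          (E n).sub_mem hf (hv _ mg), (E n).sub_mem (hv _ mh) hf])
  obtain ⟨s, ms, rfl⟩ := (s5 u (by simp)).1
  obtain ⟨φ, mφ, eφ⟩ := (s5 (ev f (upd P n (ev s P))) (by simp)).1
  have ds := s1.df n le_rfl s ms
  have dφ := s1.df n le_rfl φ mφ
  have as := s1.an n le_rfl s ms
  have aφ := s1.an n le_rfl φ mφ
  have hsub := (s4 n le_rfl).1
  obtain ⟨-, h1, h2⟩ := Ctx.has_upd.1 hh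
  have pos : ∀ {A B : Fn n}, DF S A → DF S B → AnalyticOnNhd ℝ A (c₅.cell n) →
      AnalyticOnNhd ℝ B (c₅.cell n) → Sg S c₅ n P (ev B P - ev A P) → ev A P < ev B P →
      ∀ x ∈ c₅.cell n, A x < B x := by
    intro A B dA dB aA aB hsg hlt x hx
    have := (hsg (fun x => B x - A x) (dB.sub dA) (aB.sub aA) (ev_sub _ _ _)).pos_of s2.has
      (by rw [ev_sub]; exact sub_pos.2 hlt) x hx
    exact sub_pos.1 this
  have k1 := pos (D.hc₂.df n hn.le _ mlo) ds ((D.hc₂.an n hn.le _ mlo).mono hsub) as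
    (s5 _ (by simp)).2 h1
  have k2 := pos ds (D.hc₂.df n hn.le _ mhi) as ((D.hc₂.an n hn.le _ mhi).mono hsub)
    (s5 _ (by simp)).2 h2
  have hm : ∀ x ∈ c₅.cell n, (Fin.snoc x (s x) : Fin (n + 1) → ℝ) ∈ c.cell (n + 1) := fun x hx =>
    (D.le _ le_rfl).1 (snoc_mem_band.2 ⟨hsub hx, k1 x hx, k2 x hx⟩)
  have dsn : DF S fun x => (Fin.snoc x (s x) : Fin (n + 1) → ℝ) := DF.snoc DF.id' ds
  have hh' : c.Has (n + 2) (upd (upd P n (ev s P)) (n + 1) (ev f (upd P n (ev s P)))) :=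
    cons1_at_upd.2 (hy.mono fun _ h => h.1)
  obtain ⟨-, h3, h4⟩ := Ctx.has_upd.1 hh'
  have k3 := pos ((D.hc.df _ hn'.le _ mg).comp dsn) dφ
    (analyticOnNhd_snoc as (D.hc.an _ hn'.le _ mg) hm) aφ
    (by rw [← cons1_ev_upd, eφ]; exact (s5 _ (by simp)).2) (by rwa [← cons1_ev_upd, eφ])
  have k4 := pos dφ ((D.hc.df _ hn'.le _ mh).comp dsn) aφ
    (analyticOnNhd_snoc as (D.hc.an _ hn'.le _ mh) hm)
    (by rw [← cons1_ev_upd, eφ]; exact (s5 _ (by simp)).2) (by rwa [← cons1_ev_upd, eφ])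
  have hm' : ∀ x ∈ c₅.cell n,
      (Fin.snoc (Fin.snoc x (s x) : Fin (n + 1) → ℝ) (φ x) : Fin (n + 2) → ℝ) ∈ c.cell (n + 2) :=
    fun x hx => snoc_mem_band.2 ⟨hm x hx, k3 x hx, k4 x hx⟩
  obtain ⟨G, hG⟩ : ∃ G : ℕ → Fn n, G = fun i x =>
      F i (Fin.snoc (Fin.snoc x (s x) : Fin (n + 1) → ℝ) (φ x)) := ⟨_, rfl⟩
  have dG : ∀ i < n + 1, DF S (G i) := fun i hi => hG ▸ (D.dF i hi).comp (DF.snoc dsn dφ)
  have aG : ∀ i < n + 1, AnalyticOnNhd ℝ (G i) (c₅.cell n) := by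
    intro i hi x hx
    rw [hG]
    refine AnalyticAt.fun_comp (g := F i) (D.hc.an _ le_rfl _ (D.hF i hi) _ (hm' x hx)) ?_
    refine analyticAt_pi_iff.2 fun j => ?_
    refine Fin.lastCases ?_ (fun j => ?_) j
    · simpa using aφ x hx
    · refine Fin.lastCases ?_ (fun j => ?_) j
      · simpa using as x hx
      · simp only [Fin.snoc_castSucc]
        exact (ContinuousLinearMap.proj (R := ℝ) (φ := fun _ : Fin n => ℝ) j).analyticAt x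
  have eG : ∀ i < n + 1, ev (pdv f i) (upd P n (ev s P)) = ev (G i) P := by
    intro i hi
    rw [cons1_ev_upd, ev_eq_iff, hG]
    rw [cons1_ev_upd, ev_eq_iff] at eφ
    filter_upwards [cons1_at_upd.1 hy, eφ] with ω l1 l2
    rw [l1.2.2 i hi, l2]
  have hsol : ∀ x ∈ c₅.cell n, SolAt (slcF s F) φ x := by
    intro x hx
    refine ⟨(aφ x hx).differentiableAt, fun i hi => ?_⟩
    have hyd : ∀ j < n + 1, upd P n (ev s P) j ∈ dcl S P n := fun j hj =>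
      (hP.tow.dfld le_rfl).le (cons1_upd_mem hP.tow hu j hj)
    have := s1.ident le_rfl hg s2.has (dφ.pdv i)
      ((dG i (hi.trans hn)).add ((dG n hn).mul (ds.pdv i))) (analyticOnNhd_pdv aφ i)
      ((aG i (hi.trans hn)).add ((aG n hn).mul (analyticOnNhd_pdv as i))) (by
        rw [← pd_ev hg dφ, eφ, pd_chain hg hyd df (hy.mono fun _ h => h.2.1),
          Finset.sum_range_succ, upd_self, pd_ev hg ds, eG n hn, ev_add, ev_mul,
          Finset.sum_eq_single i, upd_of_ne hi.ne, pd_coord hg hi, if_pos rfl, mul_one,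
          eG i (hi.trans hn)]
        · intro j hj hji
          have hj' := Finset.mem_range.1 hj
          rw [upd_of_ne hj'.ne, pd_coord hg hj', if_neg hji.symm, mul_zero]
        · intro h
          exact absurd (Finset.mem_range.2 hi) h) hx
    simpa [slcF, slc₂, hG] using this
  refine ⟨c₅, E', s, φ, s1, s2, s3, s4, rfl, eφ, as.continuousOn,
    fun x hx => ⟨k1 x hx, k2 x hx, hm' x hx⟩, fun x hx => ?_⟩
  refine loc_of_slice (fun i hi => D.hc.an _ le_rfl _ (D.hF i hi) _ (hm' x hx)) ?_ (as x hx) ?_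
  · filter_upwards [(D.hc.isOpen le_rfl).mem_nhds (hm' x hx)] with p hp using D.hI p hp
  · filter_upwards [(s1.isOpen le_rfl).mem_nhds hx] with z hz using hsol z hz

theorem Sep.cons1_sol {A D : Set (Fin (n + 1) → ℝ)} {f : Fn (n + 1)}
    {Bp Bm : Set ((Fin (n + 1) → ℝ) × ℝ)}
    (hs : Sep S A (c.lo (n + 1)) (c.hi (n + 1)) F D f Bp Bm) (hA : A ⊆ c.cell (n + 1))
    {z : Fin (n + 1) → ℝ} (hz : z ∈ D) : Fin.snoc z (f z) ∈ c.cell (n + 2) ∧ SolAt F f z := by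
  obtain ⟨h1, h2, h3⟩ := hs.sol hz
  exact ⟨snoc_mem_band.2 ⟨hA (hs.sub hz), h1, h2⟩, h3⟩

/-- the geometric heart: a solution germ at a generic point, whose graph point is inside the cell
of a context, extends to a solution on a cell of a context with slightly bigger bounds -/
theorem extend_leaf (hS : PfClosed S) (hθ : Clo θ) (IH : Below S Γ θ) (hτ : Clo τ)
    (hlt : ∀ k ≤ n + 1, τ k < θ k) (hc : Sem S τ c (n + 2)) {F : ℕ → Fn (n + 2)}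
    (hF : ∀ i < n + 1, F i ∈ c.gens (n + 2))
    (hI : ∀ p ∈ c.cell (n + 2), ∀ i < n + 1, ∀ j < n + 1, itg F i j p = 0)
    (hP : Pt S τ c P (n + 1) E) {φ : Fn (n + 1)} (dφ : DF S φ)
    (hsol : At (fun z => Fin.snoc z (φ z) ∈ c.cell (n + 2) ∧ SolAt F φ z) P) :
    ∃ (τ' : ℕ → Ordinal.{0}) (c' : Ctx) (E' : ℕ → Fld) (f : Fn (n + 1)), Clo τ' ∧
      (∀ k ≤ n + 1, τ' k < θ k) ∧ (∀ k, n + 1 ≤ k → τ' k = τ k) ∧ Sem S τ' c' (n + 1) ∧
      Full Γ c' (n + 1) ∧ Pt S τ' c' P (n + 1) E' ∧ Ext E E' (n + 1) ∧ c'.Le c (n + 1) ∧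
      DF S f ∧ ev f P = ev φ P ∧
      ∀ z ∈ c'.cell (n + 1), Fin.snoc z (f z) ∈ c.cell (n + 2) ∧ SolAt F f z := by
  have hn : n < n + 1 := n.lt_succ_self
  have hn' : n + 1 < n + 2 := by omega
  have hG : Good S Γ τ := IH τ hτ (hlt 0 (Nat.zero_le _))
  obtain ⟨c₂, E₂, D, p2, e2⟩ := cons1_data hG.1 hc hF hI hP
  obtain ⟨V, a, b, f₀, Bp, Bm, hV, dV, hsub, da, db, hs, hbd, hPD, ef₀⟩ :=
    D.first hS hP.tow.gen p2.has dφ hsol
  obtain ⟨hPV, ha, hb⟩ := cons1_at_band.1 hPD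
  have hA : band V (c₂.lo n) (c₂.hi n) ⊆ c.cell (n + 1) :=
    (Cons1D.band_sub hsub).trans (D.le _ le_rfl).1
  obtain ⟨E₄, p4, e4, ma, mb⟩ := D.ends hG hτ hV dV hsub da db hs hbd hPV (p2.down hn.le)
  obtain ⟨u, hu⟩ : ∃ u, u = (ev a P + ev b P) / 2 := ⟨_, rfl⟩
  have mu : u ∈ E₄ n :=
    hu ▸ (E₄ n).div_mem ((E₄ n).add_mem ma mb) (by exact_mod_cast (E₄ n).natCast_mem 2)
  have hau : ev a P < u := by rw [hu]; linarith
  have hub : u < ev b P := by rw [hu]; linarith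
  have hyD : At (fun z => z ∈ band V a b) (upd P n u) := cons1_at_band_upd.2 ⟨hPV, hau, hub⟩
  have hy : At (fun z => Fin.snoc z (f₀ z) ∈ c.cell (n + 2) ∧ SolAt F f₀ z) (upd P n u) :=
    hyD.mono fun _ h => hs.cons1_sol hA h
  obtain ⟨K, γ, pK, hγ, vK, mK⟩ := cons1_node hτ hc hF (p4.of_le (D.le.down hn.le)) mu hs.df hy
  obtain ⟨τ', hτ', t1, t2, t3⟩ := shrink hθ (n := n + 1) (φ := τ) (ρ := τ)
    (CloFrom.mono hτ (Nat.zero_le _)) (hlt _ le_rfl) fun k hk => hlt k hk.le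
  have hle : ∀ k, τ k ≤ τ' k := fun k => by
    rcases lt_or_ge k (n + 1) with h | h
    exacts [(t1 k h).le, (t3 k h).ge]
  have hG' : Good S Γ τ' := IH τ' hτ' (t2 0 (Nat.zero_le _))
  have T5 := Tow.extend_top' (CloFrom.mono hτ (Nat.zero_le _)) p4.tow pK hγ
    (fun k _ => hle k) (t1 n hn)
  have e5 : Ext E₄ (Function.update E₄ n K) n := fun k hk => by
    rcases hk.eq_or_lt with rfl | h
    · simpa using pK.le
    · rw [Function.update_of_ne h.ne]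
  obtain ⟨c₅, E₆, s, ψ, s5, p6, e6, l5, es, eψ, cs, hm, hloc⟩ := D.sec hG'.1 (p4.of_ext T5 e5)
    (e5 n le_rfl mu) (hyD.mono fun _ h => Cons1D.band_sub hsub (hs.sub h)) hs.df hy
    (by simpa using vK) (by simpa using mK)
  obtain ⟨a₁, b₁, f₁, Bp₁, Bm₁, -, -, hs₁, -, hu₁⟩ := D.leaf hS (s5.isOpen le_rfl) (s5.dp le_rfl)
    (l5 n le_rfl).1 cs hm hloc
  have hfin : At (fun z => z ∈ band (c₅.cell n) a₁ b₁ ∧ f₁ z = f₀ z) P := by
    subst es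
    rw [cons1_ev_upd, ev_eq_iff] at eψ
    filter_upwards [p6.has, hPV, ev_lt_iff.1 hau, ev_lt_iff.1 hub, eψ, hPD]
      with ω k1 k2 k3 k4 k5 k6
    rw [tp_succ] at k6 ⊢
    refine hu₁ _ k1 _ _ f₀ (hbd _ k2).1 k3 k4 (hbd _ k2).2.2 k5.symm
      (fun t ht => hs.cons1_sol hA (snoc_mem_band.2 ⟨k2, ht⟩)) _ (snoc_mem_band.1 k6).2
  obtain ⟨c₆, s6, l6, l6', l6'', q1, q2, q3, q4⟩ :=
    cons1_over s5 (D.hc₂.mono fun k _ => hle k) l5
  have hc₆ : c₆.cell (n + 1) = band (c₅.cell n) (c₂.lo n) (c₂.hi n) := by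
    rw [← q1, ← q2, ← q3]; rfl
  obtain ⟨c₇, s7, -, -, l7, r1, r2, r3, r4⟩ :=
    cons1_over s6 (hc.mono fun k _ => hle k) (l6.trans D.le)
  have hin := tru hG' hτ' s7 (F := F) (D := band (c₅.cell n) a₁ b₁) (f := f₁) (Bp := Bp₁)
    (Bm := Bm₁) (by rw [r4]; exact hF) (by rw [r1, r2, r3, hc₆]; exact hs₁)
  obtain ⟨E₇, T7, q7, e7⟩ := Tow.reattach (τ := τ') p2.tow hn.le p6.tow
    (e4.trans (e5.trans e6)) (fun _ _ => le_rfl) fun k _ _ => hle k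
  have p7 : Pt S τ' c₆ P (n + 1) E₇ := by
    refine ⟨T7, ?_, fun k hk => ?_⟩
    · have := hfin.mono fun _ h => hs₁.sub h.1
      rwa [← hc₆] at this
    · rcases hk.eq_or_lt with rfl | h
      · intro G hG
        exact e7 _ le_rfl (p2.vals _ le_rfl G (q4 ▸ hG))
      · have hk' := Nat.lt_succ_iff.1 h
        rw [q7 k hk']
        exact (p6.of_le l6'').vals k hk'
  obtain ⟨c₈, E₈, s8, p8, e8, l8, hD⟩ := hin c₆ P E₇ s6 l7 p7 (hfin.mono fun _ h => h.1)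
  obtain ⟨c₉, E₉, s9, fu, p9, e9, l9, -⟩ := Main.top hG'.1 s8 le_rfl p8.tow p8.has p8.vals
    finite_empty (empty_subset _)
  refine ⟨τ', c₉, E₉, f₁, hτ', t2, t3, s9, fu, p9, e2.trans (e7.trans (e8.trans e9)),
    l9.trans (l8.trans (l6.trans D.le)), hs₁.df,
    (ev_eq_iff.2 (hfin.mono fun _ h => h.2)).trans ef₀, fun z hz => ?_⟩
  exact hs₁.cons1_sol ((Cons1D.band_sub (l5 n le_rfl).1).trans (D.le _ le_rfl).1)
    (hD ((l9 _ le_rfl).1 hz))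

end Pool.Agent.Lib.MP_1a1eb7_lc
end
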