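import Pool.Agent.Lib.MP_1a1eb7_lc.RL

-- part Pool.Agent.Lib.MP_1a1eb7_lc.Lim21
section

/-! C4b, first part: points on the curve through a point of a cell, choice of the last
coordinate, and the call of `Main` with the sign requests. -/

namespace Pool.Agent.Lib.MP_1a1eb7_lc

open Set Filter Topology Pool.Agent.Shared.OMin
open Ordinal (omega0)

variable {S : OStr} {Γ : Sys} {θ τ : ℕ → Ordinal.{0}} {P Q Y Z W : ℕ → U} {n m h r l : ℕ}
  {E : ℕ → Fld} {c : Ctx} {ψ : ℕ → Fn (h + 1)}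

theorem lim2_out_nat (k : ℕ) : ∀ᶠ ω in 𝔲, out (k : U) ω = k := by
  simpa using out_real (k : ℝ)

theorem lim2_abs_le {a b x y M : U}
    (H : ∀ᶠ ω in 𝔲, |out a ω - out b ω| ≤ out M ω * |out x ω - out y ω|) :
    |a - b| ≤ M * |x - y| := by
  rw [le_iff]
  filter_upwards [H, out_abs (a - b), out_sub a b, out_mul M |x - y|, out_abs (x - y),
    out_sub x y] with ω h1 h2 h3 h4 h5 h6
  rwa [h2, h3, h4, h5, h6]

/-- `q` is the point with parameter `σ` on the curve through `p` -/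
structure Lim2Pt (c : Ctx) (ψ : ℕ → Fn (h + 1)) (p q : ℕ → U) (σ : U) : Prop where
  has : c.Has (h + 1) q
  fix : ∀ i < h, ev (ψ i) q = ev (ψ i) p
  val : ev (ψ h) q = σ
  dom : ∀ G : Fn (h + 1), AnalyticOnNhd ℝ G (c.cell (h + 1)) →
    (∀ x ∈ c.cell (h + 1), |dirD ψ G x| ≤ 1) → |ev G q - ev G p| ≤ |σ - ev (ψ h) p|

/-- the curve leaves the cell infinitely close to `p`, or it is defined on a two sided
interval whose length is not infinitesimal -/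
theorem lim2_dich (hc : Sem S θ c (h + 1))
    (hψ : ∀ i ≤ h, AnalyticOnNhd ℝ (ψ i) (c.cell (h + 1)))
    (hj : ∀ q ∈ c.cell (h + 1), (jacM ψ q).det ≠ 0) (hb : ∀ q ∈ c.cell (h + 1), |ψ h q| < 1)
    {p : ℕ → U} (hp : c.Has (h + 1) p) (N : Fld) (Y : ℕ → U) (l : ℕ) :
    (∃ σ q, Lim2Pt c ψ p q σ ∧ Inf N (σ - ev (ψ h) p) ∧ ∃ j < h + 1,
      Inf (dcl S Y l) (q j - ev (c.lo j) q) ∨ Inf (dcl S Y l) (q j - ev (c.hi j) q)) ∨
    ∃ δ ∈ N, 0 < δ ∧ ∀ σ, |σ - ev (ψ h) p| ≤ δ / 2 → ∃ q, Lim2Pt c ψ p q σ ∧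
      ∀ G : Fn (h + 1), AnalyticOnNhd ℝ G (c.cell (h + 1)) → (∀ x ∈ c.cell (h + 1), |G x| ≤ 1) →
        Tri (dirD ψ (dirD ψ G)) (c.cell (h + 1)) →
        |ev G q - ev G p| ≤ 8 / δ * |σ - ev (ψ h) p| := by
  obtain ⟨sm, sp, γ, H⟩ := curve_kit (hc.isOpen le_rfl) hψ hj hb
  have hp' : ∀ᶠ ω in 𝔲, tp p (h + 1) ω ∈ c.cell (h + 1) := hp
  have key : ∀ (σ : U) (q : ℕ → U), (∀ᶠ ω in 𝔲,
      out σ ω ∈ Ioo (sm (tp p (h + 1) ω)) (sp (tp p (h + 1) ω)) ∧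
        tp q (h + 1) ω = γ (tp p (h + 1) ω) (out σ ω)) → Lim2Pt c ψ p q σ := by
    intro σ q hq
    refine ⟨?_, fun i hi => ev_eq ?_, ev_eq ?_, fun G aG hG => ?_⟩
    · filter_upwards [hp', hq] with ω h1 h2
      rw [h2.2]
      exact ((H _ h1).2.2.2.2.2.1 _ h2.1).1
    · filter_upwards [hp', hq, out_ev (ψ i) p] with ω h1 h2 h3
      rw [h2.2, h3]
      exact (((H _ h1).2.2.2.2.2.1 _ h2.1).2.1 i hi).symm
    · filter_upwards [hp', hq] with ω h1 h2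
      rw [h2.2]
      exact ((H _ h1).2.2.2.2.2.1 _ h2.1).2.2.1.symm
    · rw [← one_mul |σ - ev (ψ h) p|]
      refine lim2_abs_le ?_
      filter_upwards [hp', hq, out_ev G q, out_ev G p, out_ev (ψ h) p, out_one]
        with ω h1 h2 h3 h4 h5 h6
      obtain ⟨-, a1, a2, -, a3, a4, -⟩ := H _ h1
      rw [h3, h4, h5, h6, h2.2, one_mul]
      have := var_dom (g := fun s => G (γ (tp p (h + 1) ω) s)) (e := fun s => s)
        (g' := fun s => dirD ψ G (γ (tp p (h + 1) ω) s)) (e' := fun _ => 1)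
        (fun u hu => ⟨(a4 u hu).2.2.2 G aG, hasDerivAt_id' u, hG _ (a4 u hu).1⟩) h2.1 ⟨a1, a2⟩
      simpa only [a3] using this
  have hlo : ev sm p < ev (ψ h) p := ev_lt_iff.2 (hp'.mono fun ω h1 => (H _ h1).2.1)
  have hhi : ev (ψ h) p < ev sp p := ev_lt_iff.2 (hp'.mono fun ω h1 => (H _ h1).2.2.1)
  by_cases h1 : Inf N (ev sp p - ev (ψ h) p)
  · obtain ⟨σ, q, hq, hex⟩ := exists_exit hc (sm_tp p (h + 1)) (fun x => Ioo (ψ h x) (sp x)) γ
      (hp'.mono fun ω h1 => ⟨fun σ hσ => ((H _ h1).2.2.2.2.2.1 σ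
        ⟨(H _ h1).2.1.trans hσ.1, hσ.2⟩).1, (H _ h1).2.2.2.2.2.2.1⟩) Y l
    refine .inl ⟨σ, q, key σ q ?_, h1.of_le ?_, hex⟩
    · filter_upwards [hp', hq] with ω h1 h2
      exact ⟨⟨(H _ h1).2.1.trans h2.1.1, h2.1.2⟩, h2.2⟩
    · have a1 : ev (ψ h) p < σ := lt_iff.2 (by
        filter_upwards [hq, out_ev (ψ h) p] with ω h2 h3
        exact h3 ▸ h2.1.1)
      have a2 : σ < ev sp p := lt_iff.2 (by
        filter_upwards [hq, out_ev sp p] with ω h2 h3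
        exact h3 ▸ h2.1.2)
      rw [abs_of_pos (by linarith), abs_of_pos (by linarith)]
      linarith
  by_cases h2 : Inf N (ev sm p - ev (ψ h) p)
  · obtain ⟨σ, q, hq, hex⟩ := exists_exit hc (sm_tp p (h + 1)) (fun x => Ioo (sm x) (ψ h x)) γ
      (hp'.mono fun ω h1 => ⟨fun σ hσ => ((H _ h1).2.2.2.2.2.1 σ
        ⟨hσ.1, hσ.2.trans (H _ h1).2.2.1⟩).1, (H _ h1).2.2.2.2.2.2.2⟩) Y l
    refine .inl ⟨σ, q, key σ q ?_, h2.of_le ?_, hex⟩
    · filter_upwards [hp', hq] with ω h1 h2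
      exact ⟨⟨h2.1.1, h2.1.2.trans (H _ h1).2.2.1⟩, h2.2⟩
    · have a1 : σ < ev (ψ h) p := lt_iff.2 (by
        filter_upwards [hq, out_ev (ψ h) p] with ω h2 h3
        exact h3 ▸ h2.1.2)
      have a2 : ev sm p < σ := lt_iff.2 (by
        filter_upwards [hq, out_ev sm p] with ω h2 h3
        exact h3 ▸ h2.1.1)
      rw [abs_of_neg (by linarith), abs_of_neg (by linarith)]
      linarith
  unfold Inf at h1 h2
  push Not at h1 h2
  obtain ⟨δ₁, m1, p1, l1⟩ := h1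
  obtain ⟨δ₂, m2, p2, l2⟩ := h2
  rw [abs_of_pos (by linarith)] at l1
  rw [abs_of_neg (by linarith)] at l2
  obtain ⟨δ, hδ, h0, u1, u2⟩ : ∃ δ ∈ N, 0 < δ ∧ ev (ψ h) p + δ ≤ ev sp p ∧
      ev sm p ≤ ev (ψ h) p - δ := by
    rcases le_total δ₁ δ₂ with h3 | h3
    · exact ⟨δ₁, m1, p1, by linarith, by linarith⟩
    · exact ⟨δ₂, m2, p2, by linarith, by linarith⟩
  refine .inr ⟨δ, hδ, h0, fun σ hσ => ?_⟩
  obtain ⟨q, hq⟩ := exists_tuple (Sm.comp₂ γ (sm_tp p (h + 1)) (sm_out σ))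
  have hall : ∀ᶠ ω in 𝔲, 0 < out δ ω ∧ ψ h (tp p (h + 1) ω) + out δ ω ≤ sp (tp p (h + 1) ω) ∧
      sm (tp p (h + 1) ω) ≤ ψ h (tp p (h + 1) ω) - out δ ω ∧
      |out σ ω - ψ h (tp p (h + 1) ω)| ≤ out δ ω / 2 := by
    have hσ' : |σ - ev (ψ h) p| + |σ - ev (ψ h) p| ≤ δ := by linarith
    filter_upwards [infin_pos_iff.1 h0, le_iff.1 u1, le_iff.1 u2, le_iff.1 hσ',
      out_add (ev (ψ h) p) δ, out_sub (ev (ψ h) p) δ, out_ev (ψ h) p, out_ev sp p, out_ev sm p,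
      out_add |σ - ev (ψ h) p| |σ - ev (ψ h) p|, out_abs (σ - ev (ψ h) p),
      out_sub σ (ev (ψ h) p)] with ω b1 b2 b3 b4 b5 b6 b7 b8 b9 b10 b11 b12
    rw [b5, b7, b8] at b2
    rw [b6, b7, b9] at b3
    rw [b10, b11, b12, b7] at b4
    exact ⟨b1, b2, b3, by linarith⟩
  refine ⟨q, key σ q ?_, fun G aG hG hT => lim2_abs_le ?_⟩
  · filter_upwards [hall, hq] with ω ⟨b1, b2, b3, b4⟩ h2
    have := abs_le.1 b4
    exact ⟨⟨by linarith, by linarith⟩, h2⟩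
  · have h8 : (8 : U) = ((8 : ℕ) : U) := by norm_num
    filter_upwards [hp', hall, hq, out_ev G q, out_ev G p, out_ev (ψ h) p, out_div 8 δ,
      lim2_out_nat 8] with ω h1 ⟨b1, b2, b3, b4⟩ h2 h3 h4 h5 h6 h7
    obtain ⟨-, a1, a2, -, a3, a4, -⟩ := H _ h1
    rw [h3, h4, h5, h6, h2, h8, h7]
    have hsub : ∀ u ∈ Ioo (ψ h (tp p (h + 1) ω) - out δ ω) (ψ h (tp p (h + 1) ω) + out δ ω),
        u ∈ Ioo (sm (tp p (h + 1) ω)) (sp (tp p (h + 1) ω)) := fun u hu =>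
      ⟨b3.trans_lt hu.1, hu.2.trans_le b2⟩
    have := lip_of_tri (g := fun s => G (γ (tp p (h + 1) ω) s))
      (g' := fun s => dirD ψ G (γ (tp p (h + 1) ω) s))
      (g'' := fun s => dirD ψ (dirD ψ G) (γ (tp p (h + 1) ω) s)) b1
      (fun u hu => ⟨(a4 u (hsub u hu)).2.2.2 G aG,
        (a4 u (hsub u hu)).2.2.2 _ (analyticOnNhd_dirD hψ hj aG), hG _ (a4 u (hsub u hu)).1⟩)
      (by
        rcases hT with hT | hT | hT
        exacts [.inl fun u hu => hT _ (a4 u (hsub u hu)).1,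
          .inr (.inl fun u hu => hT _ (a4 u (hsub u hu)).1),
          .inr (.inr fun u hu => hT _ (a4 u (hsub u hu)).1)]) b4
    simpa only [a3, Nat.cast_ofNat] using this

theorem lim2_upd_mem {t : U} {N : Fld} (H : ∀ i < r, Z i ∈ N) (ht : t ∈ N) :
    ∀ i < r + 1, upd Z r t i ∈ N := fun i hi => by
  rcases Nat.lt_succ_iff_lt_or_eq.1 hi with h1 | rfl
  · rw [upd_of_ne h1.ne]; exact H i h1
  · rwa [upd_self]

/-- choice of a last coordinate that dominates finitely many elements -/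
theorem lim2_coord (hP : Gen S P (h + 1)) (hY : Gen S Y h) (hm : ∀ i < h, Y i ∈ dcl S P (h + 1))
    {T : Set U} (hT : T.Finite) (hT' : T ⊆ dcl S P (h + 1)) :
    ∃ e, (e ∈ T ∨ ∃ i < h + 1, e = P i) ∧ Gen S (upd Y h e) (h + 1) ∧
      ∀ x ∈ T, |pd S (upd Y h e) (h + 1) h x| ≤ 1 := by
  obtain ⟨l, hl, hc⟩ : ∃ l < h + 1, P l ∉ dcl S Y h := by
    by_contra hc
    push Not at hc
    have := hP.le_of_mem hc
    omega
  have hg : Gen S (upd Y h (P l)) (h + 1) := hY.upd hc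
  have hd : dcl S P (h + 1) = dcl S (upd Y h (P l)) (h + 1) :=
    (hg.of_span (lim2_upd_mem hm (self_mem_dcl hl))).2
  obtain ⟨e, he, hmax⟩ := Set.exists_max_image (insert (P l) T)
    (fun x => |pd S (upd Y h (P l)) (h + 1) h x|) (hT.insert _) (insert_nonempty _ _)
  have h1 : pd S (upd Y h (P l)) (h + 1) h (P l) = 1 := by
    have := pd_coord hg (i := h) (Nat.lt_succ_self h)
    rwa [upd_self, if_pos rfl] at this
  have h2 : 1 ≤ |pd S (upd Y h (P l)) (h + 1) h e| := by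
    have := hmax _ (mem_insert _ _)
    rwa [h1, abs_one] at this
  have hem : e ∈ dcl S P (h + 1) := by
    rcases he with rfl | he
    exacts [self_mem_dcl hl, hT' he]
  have hne : e ∉ dcl S Y h := fun h3 => by
    rw [← (agree_upd (P l)).dcl_eq] at h3
    rw [pd_of_le hg (Nat.le_succ h) h3, pd_of_ge le_rfl, abs_zero] at h2
    linarith
  have hg' : Gen S (upd Y h e) (h + 1) := hY.upd hne
  have hm' := lim2_upd_mem hm hem
  have hd' : dcl S P (h + 1) = dcl S (upd Y h e) (h + 1) := (hg'.of_span hm').2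
  refine ⟨e, ?_, hg', fun x hx => ?_⟩
  · rcases he with rfl | he
    exacts [.inr ⟨l, hl, rfl⟩, .inl he]
  · have h3 := pd_change hg hg' (fun j hj => hd ▸ hm' j hj) (hd' ▸ hT' hx) h
    rw [Finset.sum_range_succ, Finset.sum_eq_zero, zero_add, upd_self] at h3
    · have h4 := hmax x (mem_insert_of_mem _ hx)
      rw [h3, abs_mul] at h4
      by_contra h5
      nlinarith [not_le.1 h5]
    · intro j hj
      have hj' := Finset.mem_range.1 hj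
      have h4 := pd_coord hg (i := h) (hj'.trans (Nat.lt_succ_self h))
      rw [upd_of_ne hj'.ne, if_neg hj'.ne'] at h4
      rw [upd_of_ne hj'.ne, h4, mul_zero]

theorem lim2_det_mem {K : Fld} {k : ℕ} {A : Matrix (Fin k) (Fin k) U} (H : ∀ i j, A i j ∈ K) :
    A.det ∈ K := by
  rw [Matrix.det_apply']
  exact sum_mem fun σ _ => mul_mem (intCast_mem K _) (prod_mem fun i _ => H _ _)

theorem lim2_ev_sq (G : Fn h) : ev (fun x => 1 - G x ^ 2) P = 1 - ev G P ^ 2 := by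
  rw [ev_sub, ev_pow, ev_one']

/-- the call of `Main` with the sign requests -/
theorem lim2_main (hM : Main S Γ τ) (hT : Tow S τ P (h + 1) E) (hW : Gen S W (h + 1))
    (hWE : ∀ i < h + 1, W i ∈ E (h + 1)) (hm : m ≤ h) (hWP : Agree W P m) (hb : |W h| < 1)
    {T₁ T₂ : Set U} (f1 : T₁.Finite) (f2 : T₂.Finite) (s1 : T₁ ⊆ E (h + 1))
    (s2 : T₂ ⊆ E (h + 1)) (h1 : ∀ x ∈ T₁, |pd S W (h + 1) h x| ≤ 1) (h2 : ∀ x ∈ T₂, |x| < 1) :
    ∃ (c : Ctx) (E' : ℕ → Fld) (ψ : ℕ → Fn (h + 1)), Sem S τ c (h + 1) ∧ Pt S τ c P (h + 1) E' ∧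
      Ext E E' (h + 1) ∧ (∀ i ≤ h, AnalyticOnNhd ℝ (ψ i) (c.cell (h + 1)) ∧ ev (ψ i) P = W i) ∧
      (∀ i < m, ∀ q, ev (ψ i) q = q i) ∧ (∀ i, m ≤ i → i ≤ h → ψ i ∈ c.gens (h + 1)) ∧
      (∀ q ∈ c.cell (h + 1), (jacM ψ q).det ≠ 0) ∧ (∀ q ∈ c.cell (h + 1), |ψ h q| < 1) ∧
      (∀ x ∈ T₁, ∃ G ∈ c.gens (h + 1), ev G P = x ∧ ∀ q ∈ c.cell (h + 1), |dirD ψ G q| ≤ 1) ∧
      ∀ x ∈ T₂, ∃ G ∈ c.gens (h + 1), ev G P = x ∧ (∀ q ∈ c.cell (h + 1), |G q| ≤ 1) ∧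
        Tri (dirD ψ (dirD ψ G)) (c.cell (h + 1)) := by
  have hK := hT.dfld (le_refl (h + 1))
  have hpc : PC S W (h + 1) (E (h + 1)) := hK.pc.change hK.le hW hWE
  set D := pd S W (h + 1) h with hD
  set J := Matrix.det (Matrix.of fun i j : Fin (h + 1) => pd S P (h + 1) j (W i)) with hJ
  let T : Set U := W '' Iic h ∪ T₁ ∪ T₂ ∪ {J, 1 - W h ^ 2} ∪ (fun x => 1 - D x ^ 2) '' T₁ ∪
    (fun x => 1 - x ^ 2) '' T₂ ∪ (fun x => D (D x)) '' T₂
  have fT : T.Finite := ((((((((finite_Iic h).image W).union f1).union f2).union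
    (toFinite _)).union (f1.image _)).union (f2.image _)).union (f2.image _))
  have sT : T ⊆ E (h + 1) := by
    rintro x ((((((⟨i, hi, rfl⟩ | hx) | hx) | rfl | rfl) | ⟨x, hx, rfl⟩) | ⟨x, hx, rfl⟩) |
      ⟨x, hx, rfl⟩)
    · exact hWE i (Nat.lt_succ_of_le hi)
    · exact s1 hx
    · exact s2 hx
    · exact lim2_det_mem fun i j => hK.pc _ _ (hWE i i.2)
    · exact sub_mem (one_mem _) (pow_mem (hWE h (Nat.lt_succ_self h)) 2)
    · exact sub_mem (one_mem _) (pow_mem (hpc h x (s1 hx)) 2)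
    · exact sub_mem (one_mem _) (pow_mem (s2 hx) 2)
    · exact hpc h _ (hpc h x (s2 hx))
  obtain ⟨c, E', hc, -, hp, he, hR⟩ := Main.sg hM hT
    (R := fun k => if k = h + 1 then T else ∅) fun k _ => by
      beta_reduce
      split_ifs with h3
      · exact ⟨fT, h3 ▸ sT⟩
      · exact ⟨finite_empty, empty_subset _⟩
  have hR' : ∀ e ∈ T, c.Rep (h + 1) P e ∧ Sg S c (h + 1) P e := fun e he =>
    hR (h + 1) le_rfl e (by simpa using he)
  have hex : ∀ i, ∃ G : Fn (h + 1), i ≤ h → (DF S G ∧ ev G P = W i) ∧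
      AnalyticOnNhd ℝ G (c.cell (h + 1)) ∧ (i < m → ∀ q, ev G q = q i) ∧
      (m ≤ i → G ∈ c.gens (h + 1)) := by
    intro i
    by_cases hi : i ≤ h
    swap
    · exact ⟨0, fun h3 => absurd h3 hi⟩
    by_cases hi' : i < m
    · refine ⟨fun x => x ⟨i, Nat.lt_succ_of_le hi⟩, fun _ => ⟨⟨DF.apply _, ?_⟩, ?_,
        fun _ q => ev_coord _ q, fun h3 => absurd hi' (not_lt.2 h3)⟩⟩
      · rw [ev_coord, hWP i hi']
      · exact (ContinuousLinearMap.proj (R := ℝ) (φ := fun _ : Fin (h + 1) => ℝ)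
          ⟨i, Nat.lt_succ_of_le hi⟩).analyticOnNhd _
    · obtain ⟨G, hG, e⟩ := (hR' (W i) (.inl (.inl (.inl (.inl (.inl (.inl ⟨i, hi, rfl⟩))))))).1
      exact ⟨G, fun _ => ⟨⟨hc.df _ le_rfl G hG, e⟩, hc.an _ le_rfl G hG,
        fun h3 => absurd h3 hi', fun _ => hG⟩⟩
  choose ψ hψ using hex
  have dψ : ∀ i ≤ h, DF S (ψ i) := fun i hi => (hψ i hi).1.1
  have aψ : ∀ i ≤ h, AnalyticOnNhd ℝ (ψ i) (c.cell (h + 1)) := fun i hi => (hψ i hi).2.1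
  have hsq : ∀ G : Fn (h + 1), DF S G → AnalyticOnNhd ℝ G (c.cell (h + 1)) →
      1 - ev G P ^ 2 ∈ T → Tri (fun x => 1 - G x ^ 2) (c.cell (h + 1)) := fun G dG aG hG =>
    (hR' _ hG).2 _ ((DF.const 1).sub (dG.pow 2)) (analyticOnNhd_const.sub (aG.pow 2)) (lim2_ev_sq G)
  have hj : ∀ q ∈ c.cell (h + 1), (jacM ψ q).det ≠ 0 := by
    have e : ev (fun q => (jacM ψ q).det) P = J := by
      rw [ev_jac hT.gen dψ, hJ]
      congr 2
      funext i j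
      rw [(hψ i (Nat.lt_succ_iff.1 i.2)).1.2]
    have ht := (hR' J (by simp [T])).2 _ (df_jac dψ) (analyticOnNhd_jac aψ) e
    have hne : J ≠ 0 := jac_ne_zero hW fun j hj => hK.le (hWE j hj)
    rcases hne.lt_or_gt with h3 | h3
    · exact fun q hq => (ht.neg_of hp.has (e ▸ h3) q hq).ne
    · exact fun q hq => (ht.pos_of hp.has (e ▸ h3) q hq).ne'
  have hdir : ∀ G : Fn (h + 1), DF S G → ev (dirD ψ G) P = D (ev G P) := fun G dG =>
    (pd_dirD hW (fun i hi => (hψ i hi).1) dG).symm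
  refine ⟨c, E', ψ, hc, hp, he, fun i hi => ⟨aψ i hi, (hψ i hi).1.2⟩,
    fun i hi => (hψ i (by omega)).2.2.1 hi, fun i h3 hi => (hψ i hi).2.2.2 h3, hj, ?_,
    fun x hx => ?_, fun x hx => ?_⟩
  · have e := (hψ h le_rfl).1.2
    have ht := hsq _ (dψ h le_rfl) (aψ h le_rfl) (by simp [T, e])
    intro q hq
    have := ht.pos_of hp.has (by
      rw [lim2_ev_sq, e]
      exact sub_pos.2 ((sq_lt_one_iff_abs_lt_one _).2 hb)) q hq
    exact (sq_lt_one_iff_abs_lt_one _).1 (sub_pos.1 this)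
  · obtain ⟨G, hG, e⟩ := (hR' x (by simp [T, hx])).1
    have dG := hc.df _ le_rfl G hG
    have ht := hsq _ (df_dirD dψ dG) (analyticOnNhd_dirD aψ hj (hc.an _ le_rfl G hG))
      (by rw [hdir G dG, e]; exact .inl (.inl (.inr ⟨x, hx, rfl⟩)))
    refine ⟨G, hG, e, fun q hq => ?_⟩
    have := ht.nonneg_of hp.has (by
      rw [lim2_ev_sq, hdir G dG, e]
      exact sub_nonneg.2 ((sq_le_one_iff_abs_le_one _).2 (h1 x hx))) q hq
    exact (sq_le_one_iff_abs_le_one _).1 (sub_nonneg.1 this)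
  · obtain ⟨G, hG, e⟩ := (hR' x (by simp [T, hx])).1
    have dG := hc.df _ le_rfl G hG
    have aG := hc.an _ le_rfl G hG
    have ht := hsq _ dG aG (by rw [e]; exact .inl (.inr ⟨x, hx, rfl⟩))
    refine ⟨G, hG, e, fun q hq => ?_, (hR' (D (D x)) (.inr ⟨x, hx, rfl⟩)).2 _
      (df_dirD dψ (df_dirD dψ dG))
      (analyticOnNhd_dirD aψ hj (analyticOnNhd_dirD aψ hj aG)) ?_⟩
    · have := ht.nonneg_of hp.has (by
        rw [lim2_ev_sq, e]
        exact sub_nonneg.2 ((sq_le_one_iff_abs_le_one _).2 (h2 x hx).le)) q hq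
      exact (sq_le_one_iff_abs_le_one _).1 (sub_nonneg.1 this)
    · rw [hdir _ (df_dirD dψ dG), hdir G dG, e]

end Pool.Agent.Lib.MP_1a1eb7_lc
end

-- part Pool.Agent.Lib.MP_1a1eb7_lc.Lim2
section

/-! C4b: the limit lemma for a top level that ends with a node. -/

namespace Pool.Agent.Lib.MP_1a1eb7_lc

open Set Filter Topology Pool.Agent.Shared.OMin
open Ordinal (omega0)

variable {S : OStr} {Γ : Sys} {θ θ₁ θ₂ τ : ℕ → Ordinal.{0}} {P Q Z Z' y : ℕ → U} {n m k r N : ℕ}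
  {E E' : ℕ → Fld} {c c' : Ctx} {α β γ : Ordinal.{0}} {K K₀ K₀' K₁ K₂ K' : Fld}

variable {ρ : U} {R : Set U}

theorem lim2_near {L : Fld} {a b x : U} (h : Inf L (a - b)) (h' : Inf L (b - x)) :
    Inf L (a - x) := by simpa using h.add h'

theorem lim2_near_symm {L : Fld} {a b : U} (h : Inf L (a - b)) : Inf L (b - a) := by
  simpa using h.neg

theorem lim2_near_eq {L : Fld} {a b : U} (ha : a ∈ L) (hb : b ∈ L) (h : Inf L (a - b)) : a = b :=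
  sub_eq_zero.1 (h.eq_zero (sub_mem ha hb))

theorem lim2_near_refl (L : Fld) (a : U) : Inf L (a - a) := by simpa using Inf.zero L

/-- finitely many lifts -/
theorem lim2_lift {L : Fld} (hR : R ⊆ stF L K) : ∃ g : U → U, ∀ x ∈ R, g x ∈ K ∧ Inf L (g x - x) := by
  have : ∀ x, ∃ a, x ∈ R → a ∈ K ∧ Inf L (a - x) := fun x => by
    by_cases hx : x ∈ R
    · obtain ⟨-, a, ha⟩ := hR hx
      exact ⟨a, fun _ => ha⟩
    · exact ⟨0, fun h => absurd h hx⟩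
  choose g hg using this
  exact ⟨g, hg⟩

/-- the standard part stays the same over a bigger closure -/
theorem lim2_st_up {t e a : U} (ht : Inf (dcl S Z r) t) (he : e ∈ dcl S (upd Z r t) (r + 1))
    (ha : a ∈ dcl S Z r) (h : Inf (dcl S Z r) (e - a)) (hle : dcl S Z r ≤ dcl S Q m)
    (ht' : Inf (dcl S Q m) t) : Inf (dcl S Q m) (e - a) := by
  obtain ⟨b, hb, H⟩ := exists_st ht he (Bdd.of_near ha h)
  rw [lim2_near_eq ha hb (lim2_near (lim2_near_symm h) (H Z r le_rfl ht))]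
  exact H Q m hle ht'

/-- standard parts of finitely many elements -/
theorem lim2_sts {t : U} (ht : Inf (dcl S Z r) t) (hd : K ≤ dcl S (upd Z r t) (r + 1))
    {T : Set U} (hT : ∀ a ∈ T, a ∈ K ∧ Bdd (dcl S Z r) a) :
    ∃ g : U → U, ∀ a ∈ T, g a ∈ stF (dcl S Z r) K ∧ Inf (dcl S Z r) (a - g a) := by
  have : ∀ a, ∃ b, a ∈ T → b ∈ stF (dcl S Z r) K ∧ Inf (dcl S Z r) (a - b) := fun a => by
    by_cases ha : a ∈ T
    · obtain ⟨b, hb, H⟩ := exists_st ht (hd (hT a ha).1) (hT a ha).2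
      exact ⟨b, fun _ => ⟨⟨hb, a, (hT a ha).1, H Z r le_rfl ht⟩, H Z r le_rfl ht⟩⟩
    · exact ⟨0, fun h => absurd h ha⟩
  choose g hg using this
  exact ⟨g, hg⟩

theorem lim2_rep_dcl (hc : Sem S τ c m) {a : U} (h : c.Rep m y a) : a ∈ dcl S y m := by
  obtain ⟨G, hG, rfl⟩ := h
  exact ev_mem_dcl (hc.df m le_rfl G hG)

theorem lim2_rep_mem (hp : Pt S τ c y m E) {a : U} (h : c.Rep m y a) : a ∈ E m := by
  obtain ⟨G, hG, rfl⟩ := h
  exact hp.vals m le_rfl G hG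

theorem lim2_reps {L : Fld} (h : ∀ x ∈ R, x ∈ L ∧ ∃ a, c.Rep m y a ∧ Inf L (a - x)) :
    ∃ g : U → U, ∀ x ∈ R, c.Rep m y (g x) ∧ Inf L (g x - x) := by
  have : ∀ x, ∃ a, x ∈ R → c.Rep m y a ∧ Inf L (a - x) := fun x => by
    by_cases hx : x ∈ R
    · obtain ⟨-, a, ha⟩ := h x hx
      exact ⟨a, fun _ => ha⟩
    · exact ⟨0, fun h => absurd h hx⟩
  choose g hg using this
  exact ⟨g, hg⟩

theorem lim2_ne (hP : Gen S P (n + 1)) (hρ : ρ ∈ dcl S P n) : P n - ρ ≠ 0 := fun h =>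
  hP.last (sub_eq_zero.1 h ▸ hρ)

/-- L1: the centre of the node lies in the lower tower -/
theorem lim2_end (hG : Good S Γ τ) (hn : n ≤ r) {f w : U} (hP : Gen S P (r + 1))
    (hT : Tow S τ (upd P (r + 1) w) (r + 2) E) (hf : f ∈ E (r + 1))
    (hw : Inf (dcl S P (r + 1)) (w - f)) (hK2 : K ≤ stF (dcl S P (r + 1)) (E (r + 2)))
    (hZ : Gen S Z r) (ha : Agree Z P n) (hm : ∀ i < r, Z i ∈ K) (hρ : ρ ∈ E n)
    (hi : Inf (dcl S Z r) (P n - ρ)) (hR : R.Finite) (hR' : R ⊆ stF (dcl S Z r) K) :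
    Out S (skip τ n) n P E (dcl S Z r) r R := by
  obtain ⟨g, hg⟩ := lim2_lift hR'
  have hag : Agree (upd P (r + 1) w) P (r + 1) := agree_upd w
  obtain ⟨E2, hT2, he2, hR2⟩ := (hG.2 (r + 1) (r + 1) _ E P f (g '' R ∪ Z '' Iio r) le_rfl hT hP
    hag.symm (fun i hi' => hag i hi' ▸ hT.mem (by omega) le_rfl) hf (by rwa [upd_self])
    ((hR.image g).union ((finite_Iio r).image Z)) (by
      rintro _ (⟨x, hx, rfl⟩ | ⟨i, hi', rfl⟩)
      exacts [hK2 (hg x hx).1, hK2 (hm i hi')])).self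
  have hT3 : Tow S τ P (r + 1) E2 := (hT2.mono fun k hk => by simp [skip, hk]).congr hag
  exact (hG.2 n r P E2 Z ρ R hn hT3 hZ ha (fun i hi' => hR2 (.inr ⟨i, hi', rfl⟩))
    (he2 n (by omega) hρ) hi hR fun x hx =>
      ⟨(hR' hx).1, g x, hR2 (.inl ⟨x, hx, rfl⟩), (hg x hx).2⟩).of_ext (he2.mono (by omega))
    (Agree.refl _ _)

/-- L2, exit case -/
theorem lim2_exit (hG : Good S Γ τ) (hτ : Clo τ) (hn : n ≤ r) (hc : Sem S τ c (r + 2))
    (hp : Pt S τ c P (n + 1) E) {Y q : ℕ → U} (hY : Gen S Y (r + 1)) (hYP : Agree Y P (n + 1))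
    (hd : dcl S P (r + 1) = dcl S Y (r + 1))
    (hZ : Gen S Z r) (ha : Agree Z P n) (hZY : ∀ i < r, ∃ j < r + 1, Z i = Y j)
    (hρ : ρ ∈ E n) (hi : Inf (dcl S Z r) (P n - ρ)) (hh : c.Has (r + 2) q)
    (hq : Agree q P (n + 1)) (hYq : ∀ i, n < i → i < r + 1 → c.Rep (r + 2) q (Y i))
    (hex : ∃ j < r + 2, Inf (dcl S Y (r + 1)) (q j - ev (c.lo j) q) ∨
      Inf (dcl S Y (r + 1)) (q j - ev (c.hi j) q)) (hR : R.Finite)
    (hR' : ∀ x ∈ R, x ∈ dcl S Z r ∧ ∃ a, c.Rep (r + 2) q a ∧ Inf (dcl S Z r) (a - x)) :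
    Out S (skip τ n) n P E (dcl S Z r) r R := by
  obtain ⟨j, hj, φ, hφ, h0, hinf⟩ : ∃ j < r + 2, ∃ φ ∈ c.gens j, q j - ev φ q ≠ 0 ∧
      Inf (dcl S Y (r + 1)) (q j - ev φ q) := by
    obtain ⟨j, hj, h⟩ := hex
    obtain ⟨-, h1, h2⟩ := Ctx.has_succ.1 (hh.down (Nat.succ_le_of_lt hj))
    rcases h with h | h
    exacts [⟨j, hj, _, hc.lo_mem j hj, (sub_pos.2 h1).ne', h⟩,
      ⟨j, hj, _, hc.hi_mem j hj, (sub_neg.2 h2).ne, h⟩]
  have dφ := hc.df j hj.le φ hφ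
  have hjn : n + 1 ≤ j := by
    by_contra hlt
    refine h0 (hinf.eq_zero (hd ▸ sub_mem ?_ ?_))
    · rw [hq j (by omega)]; exact self_mem_dcl (by omega)
    · rw [(hq.mono (by omega : j ≤ n + 1)).ev_eq]
      exact dcl_mono (by omega) (ev_mem_dcl dφ)
  have hYm : ∀ i < r + 1, Y i ∈ dcl S q (r + 2) := fun i hi' => by
    by_cases h : n < i
    · exact lim2_rep_dcl hc (hYq i h hi')
    · rw [hYP i (by omega), ← hq i (by omega)]; exact self_mem_dcl (by omega)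
  have htm : q j - ev φ q ∈ dcl S q (r + 2) :=
    sub_mem (self_mem_dcl hj) (dcl_mono hj.le (ev_mem_dcl dφ))
  obtain ⟨hg, hdq⟩ := rl0_span hY hYm htm h0 hinf
  have hgq : Gen S q (r + 2) := (hg.of_span (lim2_upd_mem hYm htm)).1
  obtain ⟨E2, hp2, he2⟩ := hc.tower_up (by omega : n + 1 ≤ r + 2) hgq hh (hp.congr hq.symm)
  have hNM : dcl S Z r ≤ dcl S Y (r + 1) := dcl_le fun i hi' => by
    obtain ⟨j, hj, e⟩ := hZY i hi'
    exact e ▸ self_mem_dcl hj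
  have hYE : ∀ i < r + 1, Y i ∈ E2 (r + 2) := fun i hi' => by
    by_cases h : n < i
    · exact lim2_rep_mem hp2 (hYq i h hi')
    · rw [hYP i (by omega), ← hq i (by omega)]; exact hp2.tow.mem (by omega) le_rfl
  obtain ⟨g, hg1⟩ := lim2_reps hR'
  obtain ⟨s, hs⟩ := lim2_sts (T := g '' R) hinf (hdq ▸ (hp2.tow.dfld le_rfl).le) (by
    rintro _ ⟨x, hx, rfl⟩
    obtain ⟨M, hM, h⟩ := Bdd.of_near (hR' x hx).1 (hg1 x hx).2
    exact ⟨lim2_rep_mem hp2 (hg1 x hx).1, M, hNM hM, h⟩)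
  obtain ⟨Q, E3, hQ, hT3, -, he3, hR3⟩ := (rl hG hτ (r - n)).exit (n := n + 1) (by omega) hp2.tow hY
    (hYP.trans hq.symm) hYE hjn (by omega) (hp2.vals j hj.le φ hφ) hinf
    (R := s '' (g '' R) ∪ Y '' Iio (r + 1))
    (((hR.image g).image s).union ((finite_Iio _).image Y)) (by
      rintro _ (⟨a, ha', rfl⟩ | ⟨i, hi', rfl⟩)
      exacts [(hs a ha').1, ⟨self_mem_dcl hi', _, hYE i hi', lim2_near_refl _ _⟩])
  have hQP : Agree Q P (n + 1) := hQ.trans hq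
  have hext : Ext E E3 n := fun k hk => he2 k (by omega) ▸ he3 k (by omega)
  refine (hG.2 n r Q E3 Z ρ R hn hT3 hZ (ha.trans (hQP.symm.mono (Nat.le_succ n))) (fun i hi' => ?_)
    (hext n le_rfl hρ) (by rwa [hQP n (Nat.lt_succ_self n)]) hR fun x hx => ?_).of_ext hext
    (hQP.symm.mono (Nat.le_succ n))
  · obtain ⟨j, hj, e⟩ := hZY i hi'
    exact hR3 (.inr ⟨j, hj, e.symm⟩)
  · exact ⟨(hR' x hx).1, s (g x), hR3 (.inl ⟨_, ⟨x, hx, rfl⟩, rfl⟩),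
      lim2_near (lim2_near_symm ((hs _ ⟨x, hx, rfl⟩).2.anti hNM)) (hg1 x hx).2⟩

/-- L2, two sided case -/
theorem lim2_two (hτ : Clo τ) (IH : ∀ τ', Clo τ' → τ' 0 ≤ τ 0 → Good S Γ τ') (hn : n ≤ r)
    (hc : Sem S τ c (r + 2)) (hp : Pt S τ c P (n + 1) E) (hZ : Gen S Z r) (ha : Agree Z P n)
    (hρ : ρ ∈ E n) {ε b : U} (h0 : 0 < ε) (hε : Inf (dcl S Z r) ε)
    (ht : Inf (dcl S (upd Z r ε) (r + 1)) (P n - ρ)) (hb : b ∈ dcl S Z r) {q : ℕ → U}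
    (hh : c.Has (r + 2) q) (hq : Agree q P (n + 1))
    (hZq : ∀ i, n ≤ i → i < r → c.Rep (r + 2) q (Z i)) (hσ : c.Rep (r + 2) q (b + ε))
    (hF : ∀ i < r, ∃ a, c.Rep (r + 2) q a ∧
      ∃ M ∈ dcl S Z r, |a - sq1 (pd S Z r i b)| ≤ M * |ε|) (hR : R.Finite)
    (hR' : ∀ x ∈ R, x ∈ dcl S Z r ∧ ∃ a, c.Rep (r + 2) q a ∧ Inf (dcl S Z r) (a - x)) :
    Out S (fun k => skip τ n k + 1) n P E (dcl S Z r) r R := by
  have hG := IH τ hτ le_rfl
  have hσb : Inf (dcl S Z r) (b + ε - b) := by simpa using hε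
  have hσne : b + ε ≠ b := by linarith [h0] |> fun h : b < b + ε => h.ne'
  set Zp := upd Z r (b + ε) with hZp
  have hgp : Gen S Zp (r + 1) := hZ.upd (Inf.notMem hb hσb hσne)
  have hNp : dcl S Z r ≤ dcl S Zp (r + 1) := dcl_le_upd _
  have hεp : ε ∈ dcl S Zp (r + 1) := by
    simpa using sub_mem (mem_dcl_upd (P := Z) (k := r) (S := S) (b + ε)) (hNp hb)
  rw [← (rl0_span hZ (fun i hi => hNp (self_mem_dcl hi)) hεp h0.ne' hε).2] at ht
  have hρd : ρ ∈ dcl S P n := (hp.tow.dfld (Nat.le_succ n)).le hρ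
  have hZm : ∀ i < r + 1, Zp i ∈ dcl S q (r + 2) := lim2_upd_mem (fun i hi => by
    by_cases h : n ≤ i
    · exact lim2_rep_dcl hc (hZq i h hi)
    · rw [ha i (by omega), ← hq i (by omega)]; exact self_mem_dcl (by omega)) (lim2_rep_dcl hc hσ)
  have htm : P n - ρ ∈ dcl S q (r + 2) := by
    refine sub_mem ?_ (dcl_mono (by omega) ((hq.mono (Nat.le_succ n)).dcl_eq (S := S) ▸ hρd))
    rw [← hq n (Nat.lt_succ_self n)]; exact self_mem_dcl (by omega)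
  obtain ⟨hg, hdq⟩ := rl0_span hgp hZm htm (lim2_ne hp.tow.gen hρd) ht
  have hgq : Gen S q (r + 2) := (hg.of_span (lim2_upd_mem hZm htm)).1
  obtain ⟨E2, hp2, he2⟩ := hc.tower_up (by omega : n + 1 ≤ r + 2) hgq hh (hp.congr hq.symm)
  have hZE : ∀ i < r + 1, Zp i ∈ E2 (r + 2) := lim2_upd_mem (fun i hi => by
    by_cases h : n ≤ i
    · exact lim2_rep_mem hp2 (hZq i h hi)
    · rw [ha i (by omega), ← hq i (by omega)]; exact hp2.tow.mem (by omega) le_rfl)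
    (lim2_rep_mem hp2 hσ)
  obtain ⟨g, hg1⟩ := lim2_reps hR'
  choose! a haR M hM haM using hF
  obtain ⟨s, hs⟩ := lim2_sts (T := g '' R ∪ a '' Iio r) ht (hdq ▸ (hp2.tow.dfld le_rfl).le) (by
    rintro _ (⟨x, hx, rfl⟩ | ⟨i, hi, rfl⟩)
    · obtain ⟨M, hM, h⟩ := Bdd.of_near (hR' x hx).1 (hg1 x hx).2
      exact ⟨lim2_rep_mem hp2 (hg1 x hx).1, M, hNp hM, h⟩
    · refine ⟨lim2_rep_mem hp2 (haR i hi), M i * |ε| + 1,
        add_mem (mul_mem (hNp (hM i hi)) (abs_mem_if hεp)) (one_mem _), ?_⟩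
      have h1 := abs_sub_abs_le_abs_sub (a i) (sq1 (pd S Z r i b))
      linarith [haM i hi, abs_sq1_lt (pd S Z r i b)])
  have haq : Agree Zp q n :=
    (((agree_upd _).mono hn).trans ha).trans (hq.symm.mono (Nat.le_succ n))
  obtain ⟨Q, E3, hQ, hT3, hQm, he3, hR3⟩ := hG.2 n (r + 1) q E2 Zp ρ
    (s '' (g '' R ∪ a '' Iio r) ∪ Zp '' Iio (r + 1)) (by omega) hp2.tow hgp haq hZE
    (he2 n (Nat.le_succ n) ▸ hρ) (by rwa [hq n (Nat.lt_succ_self n)])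
    ((((hR.image g).union ((finite_Iio _).image a)).image s).union ((finite_Iio _).image Zp)) (by
      rintro _ (⟨x, hx, rfl⟩ | ⟨i, hi', rfl⟩)
      exacts [(hs x hx).1, ⟨self_mem_dcl hi', _, hZE i hi', lim2_near_refl _ _⟩])
  have hdQ : dcl S Zp (r + 1) = dcl S Q (r + 1) := (hT3.gen.of_span hQm).2
  have hQP : Agree Q P n := hQ.trans (hq.mono (Nat.le_succ n))
  have hext : Ext E E3 n := fun k hk => he2 k (by omega) ▸ he3 k hk
  have hτ' : Clo (skip τ n) := hτ.skip (hp.tow.pos le_rfl)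
  have hK := hT3.dfld (le_refl (r + 1))
  have hZK : ∀ i < r + 1, Zp i ∈ E3 (r + 1) := fun i hi => hR3 (.inr ⟨i, hi, rfl⟩)
  have hpc : PC S Z r (stF (dcl S Z r) (E3 (r + 1))) := by
    refine pc_stF hZ hb hσb hσne (hdQ ▸ hK.le) (hK.pc.change hK.le hgp hZK) fun i hi => ?_
    have h1 := hs (a i) (.inr ⟨i, hi, rfl⟩)
    have h2 := h1.2 ε hεp h0
    have h3 : |s (a i) - sq1 (pd S Z r i b)| ≤ (M i + 1) * |ε| := by
      have := abs_sub_le (s (a i)) (a i) (sq1 (pd S Z r i b))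
      rw [abs_sub_comm] at h2
      linarith [haM i hi, le_abs_self ε]
    obtain ⟨M', hM', h4⟩ := lip_of_sq1 (pd_mem i b) (add_mem (hM i hi) (one_mem _)) hε h3
    exact ⟨_, sq1i_mem (hR3 (.inl ⟨_, .inr ⟨i, hi, rfl⟩, rfl⟩)), M', hM', by simpa using h4⟩
  refine (((rl (IH _ hτ' (by simp [skip])) hτ' (r - n)) n r Q E3 Z R (by omega) hT3 hZ
    (ha.trans hQP.symm) (fun i hi => ?_) ⟨ε, hdQ ▸ hεp, h0.ne', hε⟩ hpc hR fun x hx => ?_).1.mono
    (fun k _ => ?_) le_rfl subset_rfl).of_ext hext hQP.symm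
  · have := hZK i (by omega)
    rwa [hZp, upd_of_ne hi.ne] at this
  · exact ⟨(hR' x hx).1, s (g x), hR3 (.inl ⟨_, .inl ⟨x, hx, rfl⟩, rfl⟩),
      lim2_near (lim2_near_symm ((hs _ (.inl ⟨x, hx, rfl⟩)).2.anti hNp)) (hg1 x hx).2⟩
  · split_ifs
    exacts [le_rfl, le_self_add]

/-- L1 and L2; `τ` comes from Tow.child -/
theorem lim_cons (hτ : Clo τ) (IH : ∀ τ', Clo τ' → τ' 0 ≤ τ 0 → Good S Γ τ') (hn : n ≤ r)
    {f w : U} (hP : Gen S P (r + 1)) (hT : Tow S τ (upd P (r + 1) w) (r + 2) E)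
    (hK : DFld S P (r + 1) K) (hK1 : E (r + 1) ≤ K) (hf : f ∈ K)
    (hw : Inf (dcl S P (r + 1)) (w - f)) (hK2 : K ≤ stF (dcl S P (r + 1)) (E (r + 2)))
    (hZ : Gen S Z r) (ha : Agree Z P n) (hm : ∀ i < r, Z i ∈ K) (hρ : ρ ∈ E n)
    (hi : Inf (dcl S Z r) (P n - ρ)) (hR : R.Finite) (hR' : R ⊆ stF (dcl S Z r) K) :
    Out S (fun k => skip τ n k + 1) n P E (dcl S Z r) r R := by
  have hG := IH τ hτ le_rfl
  have hag : Agree (upd P (r + 1) w) P (r + 1) := agree_upd w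
  have hE := hT.dfld (le_refl (r + 2))
  have hρd : ρ ∈ dcl S P n := by
    rw [← (hag.mono (by omega : n ≤ r + 1)).dcl_eq]
    exact (hT.dfld (by omega)).le hρ
  have hPK : ∀ i < r + 1, P i ∈ K := fun i hi' => hK1 (hag i hi' ▸ hT.mem hi' (by omega))
  have hPE : ∀ i < r + 1, P i ∈ E (r + 2) := fun i hi' => hag i hi' ▸ hT.mem (by omega) le_rfl
  have htK : P n - ρ ∈ K := sub_mem (hPK n (by omega)) (hK1 (hT.le (by omega) (by omega) hρ))
  have ht0 : P n - ρ ≠ 0 := lim2_ne (hP.mono (by omega)) hρd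
  obtain ⟨hgt, hdt⟩ := rl0_span hZ (fun i hi' => hK.le (hm i hi')) (hK.le htK) ht0 hi
  have hNM : dcl S Z r ≤ dcl S P (r + 1) := dcl_le fun i hi' => hK.le (hm i hi')
  have hpc : PC S (upd Z r (P n - ρ)) (r + 1) K :=
    hK.pc.change hK.le hgt (lim2_upd_mem hm htK)
  obtain ⟨g, hg⟩ := lim2_lift hR'
  suffices h : Out S (fun k => skip τ n k + 1) n P E (dcl S Z r) r (sq1 '' R) by
    obtain ⟨Q, E', h1, h2, h3, h4, h5⟩ := h
    exact ⟨Q, E', h1, h2, h3, h4, fun x hx => sq1i_sq1 x ▸ sq1i_mem (h5 ⟨x, hx, rfl⟩)⟩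
  have hg' : ∀ x ∈ R, sq1 x ∈ dcl S Z r ∧ sq1 (g x) ∈ K ∧ Inf (dcl S Z r) (sq1 (g x) - sq1 x) :=
    fun x hx => ⟨sq1_mem (hR' hx).1, sq1_mem (hg x hx).1, (hg x hx).2.of_le (abs_sq1_sub_le _ _)⟩
  obtain ⟨L, hL⟩ := lim2_lift (R := (K : Set U)) hK2
  obtain ⟨Y, hY⟩ : ∃ Y : ℕ → U, ∀ i, Y i = if i ≤ n then P i else Z (i - 1) := ⟨_, fun _ => rfl⟩
  obtain ⟨A, hA⟩ : ∃ A : ℕ → U, ∀ i, A i = if i ≤ n then P i else L (Z (i - 1)) :=
    ⟨_, fun _ => rfl⟩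
  have hYP : Agree Y P (n + 1) := fun i hi' => by rw [hY, if_pos (by omega)]
  have hAP : Agree A P (n + 1) := fun i hi' => by rw [hA, if_pos (by omega)]
  have hZY : ∀ i < r, n ≤ i → Z i = Y (i + 1) := fun i _ h => by
    rw [hY, if_neg (by omega), Nat.add_sub_cancel]
  have hZY' : ∀ i < r, ∃ j < r + 1, Z i = Y j := fun i hi' => by
    by_cases h : n ≤ i
    · exact ⟨i + 1, by omega, hZY i hi' h⟩
    · exact ⟨i, by omega, by rw [ha i (by omega), hYP i (by omega)]⟩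
  have hYA : ∀ i < r + 1, Y i ∈ K ∧ A i ∈ E (r + 2) ∧ Inf (dcl S P (r + 1)) (A i - Y i) := by
    intro i hi'
    rw [hY, hA]
    split_ifs with h
    · exact ⟨hPK i hi', hPE i hi', lim2_near_refl _ _⟩
    · exact ⟨hm _ (by omega), hL _ (hm _ (by omega))⟩
  obtain ⟨hgY, hdY⟩ := hgt.of_span (P := Y) (lim2_upd_mem (fun i hi' => by
    obtain ⟨j, hj, e⟩ := hZY' i hi'
    exact e ▸ self_mem_dcl hj) (sub_mem (hYP n (Nat.lt_succ_self n) ▸ self_mem_dcl (by omega))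
      (dcl_mono (by omega) ((hYP.mono (Nat.le_succ n)).dcl_eq (S := S) ▸ hρd))))
  have hgA : Gen S A (r + 1) := (near_sameTp hgY (fun i hi' => hK.le (hYA i hi').1)
    fun i hi' => (hYA i hi').2.2).1.symm.gen hgY
  have s1 : (fun x => L (sq1 (g x))) '' R ⊆ E (r + 2) := by
    rintro _ ⟨x, hx, rfl⟩
    exact (hL _ (hg' x hx).2.1).1
  obtain ⟨e, he, hW, hD⟩ := lim2_coord hT.gen hgA (fun i hi' => hE.le (hYA i hi').2.1)
    (hR.image _) (s1.trans hE.le)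
  obtain ⟨heE, heb, e0, he0, hee⟩ : e ∈ E (r + 2) ∧ |e| < 1 ∧
      ∃ e0 ∈ K, Inf (dcl S P (r + 1)) (e - e0) := by
    rcases he with ⟨x, hx, rfl⟩ | ⟨i, hi', rfl⟩
    · have h1 := hL _ (hg' x hx).2.1
      refine ⟨h1.1, ?_, _, (hg' x hx).2.1, h1.2⟩
      have h2 := h1.2 _ (sub_mem (one_mem _) (abs_mem_if (hK.le (hg' x hx).2.1)))
        (sub_pos.2 (abs_sq1_lt _))
      linarith [abs_sub_abs_le_abs_sub (L (sq1 (g x))) (sq1 (g x))]
    · refine ⟨hT.mem hi' le_rfl, hT.bd i hi', ?_⟩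
      rcases Nat.lt_succ_iff_lt_or_eq.1 hi' with h | rfl
      · exact ⟨P i, hPK i h, by rw [hag i h]; exact lim2_near_refl _ _⟩
      · exact ⟨f, hf, by rwa [upd_self]⟩
  have he0t : e0 ∈ dcl S (upd Z r (P n - ρ)) (r + 1) := hdt ▸ hK.le he0
  obtain ⟨b, hb, hbe⟩ := exists_st hi he0t ⟨1 + 1, add_mem (one_mem _) (one_mem _), by
    have h1 := hee 1 (one_mem _) one_pos
    rw [abs_sub_comm] at h1
    linarith [abs_sub_abs_le_abs_sub e0 e]⟩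
  obtain ⟨d, hd⟩ : ∃ d : ℕ → U, ∀ i, d i = pd S (upd Z r (P n - ρ)) (r + 1) i e0 :=
    ⟨_, fun _ => rfl⟩
  have hdK : ∀ i, d i ∈ K := fun i => hd i ▸ hpc i e0 he0
  obtain ⟨c, E1, ψ, hc, hp, hE1, hψ, hψ1, hψ2, hj, hψb, hT1, hT2⟩ := lim2_main (m := n + 1) hG.1 hT
    hW (lim2_upd_mem (fun i hi' => (hYA i hi').2.1) heE) (by omega)
    ((((agree_upd e).mono (by omega)).trans hAP).trans (hag.symm.mono (by omega)))
    (by rwa [upd_self]) (T₂ := (fun i => sq1 (L (d i))) '' Iio r) (hR.image _)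
    ((finite_Iio r).image _) s1 (by rintro _ ⟨i, -, rfl⟩; exact sq1_mem (hL _ (hdK i)).1) hD
    (by rintro _ ⟨i, -, rfl⟩; exact abs_sq1_lt _)
  have hρ1 : ρ ∈ E1 n := hE1 n (by omega) hρ
  suffices h : Out S (fun k => skip τ n k + 1) n P E1 (dcl S Z r) r (sq1 '' R) from
    h.of_ext (hE1.mono (by omega)) (Agree.refl _ _)
  rcases Pt.end_or_has hc hp (ρ := f) (by rw [hag.dcl_eq]; exact hK.le hf)
    (by rwa [hag.dcl_eq, upd_self]) with hf1 | hin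
  · refine (lim2_end hG hn hP hp.tow hf1 hw (hK2.trans (stF_mono (hE1 _ le_rfl))) hZ ha hm hρ1 hi
      (hR.image _) ?_).mono (fun k _ => le_self_add) le_rfl subset_rfl
    rintro _ ⟨x, hx, rfl⟩
    exact ⟨(hg' x hx).1, _, (hg' x hx).2⟩
  obtain ⟨p, hpd⟩ : ∃ p, p = upd (upd P (r + 1) w) (r + 1) f := ⟨_, rfl⟩
  have hph : c.Has (r + 2) p := hpd ▸ hin f (lim2_near_refl _ _)
  have hpP : Agree p P (r + 1) := hpd ▸ (agree_upd f).trans hag
  have hpm : ∀ i < r + 2, p i ∈ dcl S P (r + 1) := by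
    rw [hpd]
    exact lim2_upd_mem (fun i hi' => by rw [hag i hi']; exact self_mem_dcl hi') (hK.le hf)
  have hval : ∀ G ∈ c.gens (r + 2), ∀ a ∈ K,
      Inf (dcl S P (r + 1)) (ev G (upd P (r + 1) w) - a) → ev G p = a := by
    intro G hG' a ha' h
    have dG := hc.df _ le_rfl G hG'
    refine lim2_near_eq (ev_mem hpm dG) (hK.le ha') (lim2_near (lim2_near_symm
      (cont_near hpm (fun i hi' => ?_) dG ?_)) h)
    · rcases Nat.lt_succ_iff_lt_or_eq.1 hi' with h1 | rfl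
      · rw [hag i h1, hpP i h1]; exact lim2_near_refl _ _
      · rwa [hpd, upd_self, upd_self]
    · exact Eventually.mono hph fun ω h1 => (hc.an _ le_rfl G hG' _ h1).continuousAt
  have hψe : ev (ψ (r + 1)) p = e0 := hval _ (hψ2 _ (by omega) le_rfl) _ he0 (by
    rwa [(hψ _ le_rfl).2, upd_self])
  have hp1 : Pt S τ c P (n + 1) E1 := (hp.down (by omega)).congr (hag.mono (by omega))
  have hcom : ∀ σ q, Lim2Pt c ψ p q σ → Inf (dcl S Z r) (σ - e0) → Agree q P (n + 1) ∧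
      (∀ i, n < i → i < r + 1 → c.Rep (r + 2) q (Y i)) ∧ ∀ x ∈ sq1 '' R, x ∈ dcl S Z r ∧
        ∃ a, c.Rep (r + 2) q a ∧ Inf (dcl S Z r) (a - x) := by
    intro σ q hq hσ
    refine ⟨fun i hi' => ?_, fun i h1 h2 => ⟨ψ i, hψ2 i h1 (by omega), ?_⟩, ?_⟩
    · rw [← hψ1 i hi' q, hq.fix i (by omega), hψ1 i hi' p, hpP i (by omega)]
    · rw [hq.fix i h2]
      refine hval _ (hψ2 i h1 (by omega)) _ (hYA i h2).1 ?_
      rw [(hψ i (by omega)).2, upd_of_ne h2.ne]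
      exact (hYA i h2).2.2
    · rintro _ ⟨x, hx, rfl⟩
      obtain ⟨G, hG', e1, h1⟩ := hT1 _ ⟨x, hx, rfl⟩
      have h2 := hq.dom G (hc.an _ le_rfl G hG') h1
      rw [hψe, hval G hG' _ (hg' x hx).2.1 (e1 ▸ (hL _ (hg' x hx).2.1).2)] at h2
      exact ⟨(hg' x hx).1, _, ⟨G, hG', rfl⟩, lim2_near (hσ.of_le h2) (hg' x hx).2.2⟩
  rcases lim2_dich hc (fun i hi' => (hψ i hi').1) hj hψb hph (dcl S Z r) Y (r + 1) with
    ⟨σ, q, hq, hσ, hex⟩ | ⟨δ, hδ, h0, H⟩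
  · obtain ⟨h1, h2, h3⟩ := hcom σ q hq (hψe ▸ hσ)
    exact (lim2_exit hG hτ hn hc hp1 hgY hYP (hdt.trans hdY.symm) hZ ha hZY' hρ1 hi hq.has h1 h2
      hex (hR.image _) h3).mono (fun k _ => le_self_add) le_rfl subset_rfl
  obtain ⟨ε, hε0, hε, htε⟩ := exists_inf_between hi
  have h1 : |e0 - b| < ε := hbe _ _ (dcl_le_upd ε) htε ε (mem_dcl_upd ε) hε0
  have h2 : |b + ε - e0| ≤ 2 * ε := by
    rw [abs_le]
    constructor <;> linarith [abs_lt.1 h1]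
  have h4 : (4 : U) ∈ dcl S Z r := by exact_mod_cast (dcl S Z r).natCast_mem 4
  have h16 : (16 : U) ∈ dcl S Z r := by exact_mod_cast (dcl S Z r).natCast_mem 16
  have h3 := hε (δ / 4) (div_mem hδ h4) (by positivity)
  rw [abs_of_pos hε0] at h3
  rw [hψe] at H
  obtain ⟨q, hq, hlip⟩ := H (b + ε) (by linarith)
  obtain ⟨h5, h6, h7⟩ := hcom _ q hq ((hε.add hε).of_le (by
    rw [abs_of_pos (add_pos hε0 hε0)]; linarith))
  refine lim2_two hτ IH hn hc hp1 hZ ha hρ1 hε0 hε htε hb hq.has h5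
    (fun i h8 h9 => hZY i h9 h8 ▸ h6 (i + 1) (by omega) (by omega))
    ⟨_, hψ2 _ (by omega) le_rfl, hq.val⟩ (fun i hi' => ?_) (hR.image _) h7
  obtain ⟨G, hG', e1, h8, h9⟩ := hT2 _ ⟨i, hi', rfl⟩
  have h10 := hlip G (hc.an _ le_rfl G hG') h8 h9
  rw [hval G hG' _ (sq1_mem (hdK i)) (e1 ▸ (hL _ (hdK i)).2.of_le (abs_sq1_sub_le _ _))] at h10
  have h11 : |d i - pd S Z r i b| < ε := lim2_st_up hi (hdt ▸ hK.le (hdK i)) (pd_mem i b)
    (hd i ▸ pd_st hZ hi ht0 he0t hb (hbe Z r le_rfl hi) hi') (dcl_le_upd ε) htε ε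
    (mem_dcl_upd ε) hε0
  refine ⟨_, ⟨G, hG', rfl⟩, 16 / δ + 1, add_mem (div_mem h16 hδ) (one_mem _), ?_⟩
  have h12 := abs_sub_le (ev G q) (sq1 (d i)) (sq1 (pd S Z r i b))
  have h13 := abs_sq1_sub_le (d i) (pd S Z r i b)
  have h14 : 8 / δ * |b + ε - e0| ≤ 8 / δ * (2 * ε) :=
    mul_le_mul_of_nonneg_left h2 (by positivity)
  have h15 : (16 / δ + 1) * |ε| = 8 / δ * (2 * ε) + ε := by
    rw [abs_of_pos hε0]; ring
  linarith

end Pool.Agent.Lib.MP_1a1eb7_lc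
end

-- part Pool.Agent.Lib.MP_1a1eb7_lc.Lim
section

/-! C4: the limit lemma. -/

namespace Pool.Agent.Lib.MP_1a1eb7_lc

open Set Filter Topology Pool.Agent.Shared.OMin
open Ordinal (omega0)

variable {S : OStr} {Γ : Sys} {θ θ₁ θ₂ τ : ℕ → Ordinal.{0}} {P Q Z Z' y : ℕ → U} {n m k r N : ℕ}
  {E E' : ℕ → Fld} {c c' : Ctx} {α β γ : Ordinal.{0}} {K K₀ K₀' K₁ K₂ K' : Fld}

variable {ρ : U} {R : Set U}

theorem lim_mem_stF {N K : Fld} {a : U} (h : a ∈ N) (h' : a ∈ K) : a ∈ stF N K :=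
  mem_stF.2 ⟨h, a, h', by simpa using Inf.zero N⟩

theorem lim_gen_upd {t : U} (hZ : Gen S Z r) (h0 : t ≠ 0) (ht : Inf (dcl S Z r) t) :
    Gen S (upd Z r t) (r + 1) :=
  hZ.upd (Inf.notMem (zero_mem _) (by simpa using ht) h0)

theorem lim_upd_mem {t : U} {N : Fld} (h : ∀ i < r, Z i ∈ N) (ht : t ∈ N) :
    ∀ i < r + 1, upd Z r t i ∈ N := fun i hi => by
  rcases (Nat.lt_succ_iff.1 hi).eq_or_lt with rfl | h1
  · rwa [upd_self]
  · rw [upd_of_ne h1.ne]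
    exact h i h1

/-- a basis of a subfield of `dcl Z r` which extends the prefix of `P` -/
theorem lim_basis (hP : Gen S P n) (hK : K ≤ dcl S Z r) (hm : ∀ i < n, P i ∈ K) :
    ∃ j Y, n ≤ j ∧ Agree Y P n ∧ Gen S Y j ∧ (∀ i < j, Y i ∈ K) ∧ K ≤ dcl S Y j := by
  by_contra h
  have key : ∀ d, ∃ Y, Agree Y P n ∧ Gen S Y (n + d) ∧ ∀ i < n + d, Y i ∈ K := fun d => by
    induction d with
    | zero => exact ⟨P, Agree.refl _ _, hP, hm⟩
    | succ d ih =>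
      obtain ⟨Y, h1, h2, h3⟩ := ih
      obtain ⟨x, hx, hx'⟩ := SetLike.not_le_iff_exists.1 fun h4 =>
        h ⟨n + d, Y, Nat.le_add_right _ _, h1, h2, h3, h4⟩
      exact ⟨upd Y (n + d) x, ((agree_upd x).mono (Nat.le_add_right _ _)).trans h1, h2.upd hx',
        lim_upd_mem h3 hx⟩
  obtain ⟨Y, -, h2, h3⟩ := key (r + 1)
  have := h2.le_of_mem fun i hi => hK (h3 i hi)
  omega

theorem lim_skip_le {τ' : ℕ → Ordinal.{0}} (h : ∀ k ≤ r + 1, τ k < τ' k) (hk : k ≤ r) :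
    skip τ n k < skip τ' n k := by
  unfold skip
  split_ifs
  exacts [h k (by omega), h (k + 1) (by omega)]

/-- L0 -/
theorem lim_nil (hθ : Clo θ) (IH : Below S Γ θ) (hn : n ≤ r) (hT : Tow S θ P (r + 1) E)
    (hZ : Gen S Z r) (ha : Agree Z P n) (hm : ∀ i < r, Z i ∈ E (r + 1)) (hρ : ρ ∈ E n)
    (hi : Inf (dcl S Z r) (P n - ρ)) (hR : R.Finite) (hR' : R ⊆ stF (dcl S Z r) (E (r + 1)))
    (hnil : E (r + 1) = adj (E r) (P r)) : Out S (skip θ n) n P E (dcl S Z r) r R := by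
  have hEn := hT.dfld (k := n) (by omega)
  have hEr := hT.dfld (k := r) (by omega)
  rcases hn.eq_or_lt with rfl | hlt
  · refine ⟨P, E, Agree.refl _ _, (hT.down (Nat.le_succ n)).mono fun k hk => ?_,
      fun i hi => ha i hi ▸ self_mem_dcl hi, Ext.refl _ _, hR'.trans fun x hx => ?_⟩
    · simp only [skip, if_pos hk, le_refl]
    · refine stF_adj_inf hEn.rc (ha.dcl_eq ▸ hEn.le) hi (stF_mono ?_ hx)
      rw [hnil]
      refine (rc_adj _ _).adj_le (le_adj _ _) ?_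
      simpa using add_mem (mem_adj (E n) (P n - ρ)) (le_adj _ _ hρ)
  have ht0 : P n - ρ ≠ 0 := fun e =>
    hT.gen n (by omega) (sub_eq_zero.1 e ▸ hEn.le hρ)
  have htr : P n - ρ ∈ dcl S P r :=
    sub_mem (self_mem_dcl hlt) (dcl_mono hn (hEn.le hρ))
  have hspan := ((lim_gen_upd hZ ht0 hi).of_span (lim_upd_mem
    (fun i hi => (hT.dfld le_rfl).le (hm i hi)) (dcl_mono (Nat.le_succ r) htr))).2
  have hst : ∀ e ∈ E r, Bdd (dcl S Z r) e → ∃ a ∈ dcl S Z r, Inf (dcl S Z r) (e - a) := by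
    intro e he hb
    obtain ⟨a, h1, h2⟩ := exists_st hi (hspan ▸ dcl_mono (Nat.le_succ r) (hEr.le he)) hb
    exact ⟨a, h1, h2 Z r le_rfl hi⟩
  obtain ⟨j, Y, hj, hY, gY, mY, sY⟩ := lim_basis (K := stF (dcl S Z r) (E r))
    (hT.gen.mono (by omega)) stF_le fun i hi =>
      lim_mem_stF (ha i hi ▸ self_mem_dcl (hi.trans hlt)) (hT.mem (hi.trans hlt) (by omega))
  have mY' : ∀ i < j, Y i ∈ dcl S Z r := fun i hi => stF_le (mY i hi)
  have hlift : ∀ i, ∃ e, (i < n → e = P i) ∧ (i < j → e ∈ E r ∧ Inf (dcl S Z r) (e - Y i)) := by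
    intro i
    by_cases h1 : i < n
    · refine ⟨P i, fun _ => rfl, fun _ => ⟨hT.mem (h1.trans hlt) (by omega), ?_⟩⟩
      simpa [hY i h1] using Inf.zero _
    by_cases h2 : i < j
    · obtain ⟨-, e, h3⟩ := mem_stF.1 (mY i h2)
      exact ⟨e, fun h => absurd h h1, fun _ => h3⟩
    · exact ⟨0, fun h => absurd h h1, fun h => absurd h h2⟩
  choose Y' aY' lY' using hlift
  obtain ⟨hs, hnear⟩ := near_sameTp gY mY' fun i hi => (lY' i hi).2
  have gY' := hs.symm.gen gY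
  have inf' : ∀ {e : U}, Inf (dcl S Z r) e → Inf (dcl S Y' j) e := fun he =>
    near_inf gY mY' (fun i hi => (lY' i hi).2) he
  have hjr : j + 1 ≤ r := (lim_gen_upd gY' ht0 (inf' hi)).le_of_mem
    (lim_upd_mem (fun i hi => hEr.le (lY' i hi).1) htr)
  have hZk : ∀ {Q : ℕ → U} {l : ℕ}, stF (dcl S Z r) (E (r + 1)) ≤ dcl S Q l → r ≤ l := fun h =>
    hZ.le_of_mem fun i hi => h (lim_mem_stF (self_mem_dcl hi) (hm i hi))
  obtain ⟨c₀, hc₀, hc₀'⟩ := SetLike.not_le_iff_exists.1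
    fun h : stF (dcl S Z r) (E (r + 1)) ≤ stF (dcl S Z r) (E r) => by
      have := hZk (h.trans sY)
      omega
  have hc := sq1_mem hc₀
  have hc' : sq1 c₀ ∉ stF (dcl S Z r) (E r) := fun h => hc₀' (sq1i_sq1 c₀ ▸ sq1i_mem h)
  have hle : stF (dcl S Z r) (E (r + 1)) ≤ adj (stF (dcl S Z r) (E r)) (sq1 c₀) := by
    rw [hnil] at hc ⊢
    exact stF_adj_le rc_dcl hEr.rc hst hc hc'
  have hrj := hZk (hle.trans (rc_dcl.adj_le (sY.trans (dcl_le_upd _)) (mem_dcl_upd _)))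
  obtain rfl : r = j + 1 := by omega
  have hcY : sq1 c₀ ∉ dcl S Y j := fun h => by
    have := hZk (hle.trans (rc_dcl.adj_le sY h))
    omega
  obtain ⟨T, hT1, hT2, hT3⟩ := exists_finite_adj hR (hR'.trans hle)
  have hpre : ∀ x ∈ T, ∃ x' ∈ stF (dcl S Y' j) (E (j + 1)), Tr S Y' Y j x' x := by
    intro x hx
    obtain ⟨G, hG, rfl⟩ := sY (hT2 hx)
    obtain ⟨-, e, he, h⟩ := mem_stF.1 (hT2 hx)
    refine ⟨ev G Y', mem_stF.2 ⟨ev_mem_dcl hG, e, he, inf' ?_⟩, G, hG, rfl, rfl⟩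
    simpa using h.sub (hnear G hG)
  choose! g hg hg' using hpre
  obtain ⟨τ, hτ, hτ', hTτ⟩ := (hT.down (Nat.le_succ _)).drop hθ (hT.pos le_rfl)
  obtain ⟨Q, E', hQ, tQ, mQ, eQ, rQ⟩ := ((IH τ hτ (hτ' 0 (Nat.zero_le _))).2 n j P E Y' ρ (g '' T)
    hj hTτ gY' aY' (fun i hi => (lY' i hi).1) hρ (inf' hi) (hT1.image g)
    (by rintro _ ⟨x, hx, rfl⟩; exact hg x hx)).transport (R' := T) hj hs aY' hY
    fun x hx => ⟨g x, mem_image_of_mem g hx, hg' x hx⟩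
  have hQY := (tQ.gen.of_span mQ).2
  have ag : Agree (upd Q j (sq1 c₀)) Q j := agree_upd _
  have tQ' := ((tQ.mono (τ := skip θ n) fun k hk => (lim_skip_le hτ' hk).le).congr ag.symm).succ
    (by rw [upd_self, ag.dcl_eq, ← hQY]; exact hcY) (by rw [upd_self]; exact abs_sq1_lt _)
    (Pres.nil (α := 0)) (by
      simp only [skip, if_neg (show ¬ j + 1 ≤ n by omega)]
      exact hT.pos le_rfl)
  refine ⟨_, _, (ag.mono hj).trans hQ, tQ', lim_upd_mem (fun i hi => dcl_le mY' (mQ i hi))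
    (stF_le hc), fun k hk => ?_, ?_⟩
  · rw [Function.update_of_ne (by omega)]
    exact eQ k hk
  · rw [Function.update_self, upd_self]
    exact hT3 _ rQ

theorem lim_step (hθ : Clo θ) (IH : Below S Γ θ) : LIM S θ := by
  intro n r P E Z ρ R hn hT hZ ha hm hρ hi hR hR'
  obtain ⟨α, hα, hp⟩ := hT.pres (r + 1) le_rfl
  rcases hp.cases' with h | ⟨K₁, K', α', β, f, w, h1, hf, hne, hw, hb, hc, hK, hK1, hK2, hle⟩
  · exact lim_nil hθ IH hn hT hZ ha hm hρ hi hR hR' h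
  obtain ⟨τ, hτ, hτ', -, tτ⟩ := hT.child hθ h1 (hK.le hf) hne hw hb hc (hle.trans_lt hα)
  have e : ∀ k ≤ n, Function.update (Function.update E (r + 1) K₁) (r + 1 + 1) K' k = E k :=
    fun k hk => by rw [Function.update_of_ne (by omega), Function.update_of_ne (by omega)]
  refine ((lim_cons (Γ := Γ) hτ
    (fun τ' h1 h2 => IH τ' h1 (h2.trans_lt (hτ' 0 (Nat.zero_le _)))) hn hT.gen tτ hK ?_ hf hw ?_
    hZ ha hm (e n le_rfl ▸ hρ) hi hR hR').of_ext (fun k hk => (e k hk).ge)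
    (Agree.refl _ _)).mono (fun k hk => Order.add_one_le_of_lt (lim_skip_le hτ' hk)) le_rfl
    Subset.rfl
  · rw [Function.update_of_ne (by omega), Function.update_self]
    exact hK1
  · rw [Function.update_self]
    exact hK2

end Pool.Agent.Lib.MP_1a1eb7_lc
end
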