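import Pool.Agent.Lib.MP_1a1eb7_lc.EP1
import Pool.Agent.Shared.OMin.Semialg

-- part Pool.Agent.Lib.MP_1a1eb7_lc.Nil1
section

/-! C5, first half: semialgebraic functions, certificates for algebraic elements. -/

namespace Pool.Agent.Lib.MP_1a1eb7_lc

open Set Filter Topology Pool.Agent.Shared.OMin Polynomial

variable {S : OStr} {P : ℕ → U} {k : ℕ} {K : Fld}

theorem semialg_le (S : OStr) {X : Type} [NormedAddCommGroup X] [NormedSpace ℝ X]
    [FiniteDimensional ℝ X] {A : X → Prop} (h : DP semialg A) : DP S A := SA_le S h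

theorem semialg_char {ι : Type} [Fintype ι] {A : (ι → ℝ) → Prop} (h : DP semialg A) :
    ∃ T : Finset (MvPolynomial ι ℝ), ∀ x y, (∀ p ∈ T, SignType.sign (MvPolynomial.eval x p) =
      SignType.sign (MvPolynomial.eval y p)) → (A x ↔ A y) := SA_char h

theorem nil_df_le (S : OStr) {X : Type} [NormedAddCommGroup X] [NormedSpace ℝ X]
    [FiniteDimensional ℝ X] {σ : X → ℝ} (h : DF semialg σ) : DF S σ :=
  DF.mk' (semialg_le S h.graph)

/-- analytic implicit function theorem, one equation -/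
theorem nil_ift {X : Type} [NormedAddCommGroup X] [NormedSpace ℝ X] [CompleteSpace X]
    {f : X × ℝ → ℝ} {x : X} {t D : ℝ} (hf : AnalyticAt ℝ f (x, t))
    (hd : HasDerivAt (fun s => f (x, s)) D t) (hD : D ≠ 0) :
    ∃ ψ : X → ℝ, AnalyticAt ℝ ψ x ∧ ψ x = t ∧
      ∀ᶠ v in 𝓝 (x, t), f v = f (x, t) ↔ ψ v.1 = v.2 := by
  have cdf : ContDiffAt ℝ ⊤ f (x, t) := hf.contDiffAt
  have hd' : HasFDerivAt (fun s => f (x, s))
      (fderiv ℝ f (x, t) ∘L ContinuousLinearMap.inr ℝ X ℝ) t :=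
    HasFDerivAt.comp t (f := fun s : ℝ => (x, s)) hf.differentiableAt.hasFDerivAt
      (hasFDerivAt_prodMk_right x t)
  have hinv : (fderiv ℝ f (x, t) ∘L ContinuousLinearMap.inr ℝ X ℝ).IsInvertible := by
    rw [hd'.unique hd.hasFDerivAt]
    exact ⟨ContinuousLinearEquiv.unitsEquivAut ℝ (Units.mk0 _ hD), by ext; simp⟩
  exact ⟨_, (cdf.contDiffAt_implicitFunction (by simp) hinv).analyticAt,
    cdf.implicitFunction_apply_self (by simp) hinv,
    cdf.eventually_apply_eq_iff_implicitFunction (by simp) hinv⟩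

/-- a continuous simple root of a polynomial with analytic coefficients is analytic -/
theorem analyticOnNhd_simple_root {C : Set (Fin k → ℝ)} (hC : IsOpen C) {g : Fn k} {d : ℕ}
    {q : ℕ → Fn k} (hq : ∀ i, AnalyticOnNhd ℝ (q i) C) (hg : ContinuousOn g C)
    (h0 : ∀ x ∈ C, ∑ i ∈ Finset.range (d + 1), q i x * g x ^ i = 0)
    (h1 : ∀ x ∈ C, ∑ i ∈ Finset.range (d + 1), i * q i x * g x ^ (i - 1) ≠ 0) :
    AnalyticOnNhd ℝ g C := by
  intro x hx
  let f : (Fin k → ℝ) × ℝ → ℝ := fun z => ∑ i ∈ Finset.range (d + 1), q i z.1 * z.2 ^ i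
  have hf : AnalyticAt ℝ f (x, g x) := by
    refine Finset.analyticAt_fun_sum _ fun i _ => AnalyticAt.mul ?_ (analyticAt_snd.pow i)
    exact AnalyticAt.comp (g := q i) (f := Prod.fst) (hq i x hx) analyticAt_fst
  have hd : HasDerivAt (fun t => f (x, t))
      (∑ i ∈ Finset.range (d + 1), i * q i x * g x ^ (i - 1)) (g x) :=
    HasDerivAt.fun_sum fun i _ =>
      ((hasDerivAt_pow i (g x)).const_mul (q i x)).congr_deriv (by ring)
  obtain ⟨ψ, hψ, -, h2⟩ := nil_ift hf hd (h1 x hx)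
  refine hψ.congr ?_
  have hc : ContinuousAt (fun y => (y, g y)) x :=
    continuousAt_id.prodMk (hg.continuousAt (hC.mem_nhds hx))
  filter_upwards [hc.eventually h2, hC.mem_nhds hx] with y h2 hy
  exact h2.1 ((h0 y hy).trans (h0 x hx).symm)

/-- Thom's lemma -/
theorem nil_thom (d : ℕ) : ∀ (R : ℝ[X]) (ε : ℕ → ℝ), R.natDegree ≤ d →
    {t | ∀ j ≤ d, 0 < ε j * (derivative^[j] R).eval t}.OrdConnected := by
  induction d with
  | zero =>
    intro R ε h
    rw [eq_C_of_natDegree_le_zero h]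
    refine ⟨fun a ha b _ t _ j hj => ?_⟩
    obtain rfl : j = 0 := by omega
    simpa using ha 0 le_rfl
  | succ d ih =>
    intro R ε h
    have h1 := ih (derivative R) (fun j => ε (j + 1)) (by
      have := natDegree_derivative_le R
      omega)
    refine ⟨fun a ha b hb t ht j hj => ?_⟩
    have ha' : a ∈ {t | ∀ j ≤ d, 0 < ε (j + 1) * (derivative^[j] (derivative R)).eval t} :=
      fun j hj => ha (j + 1) (by omega)
    have hb' : b ∈ {t | ∀ j ≤ d, 0 < ε (j + 1) * (derivative^[j] (derivative R)).eval t} :=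
      fun j hj => hb (j + 1) (by omega)
    rcases j with _ | j
    · have h2 : ∀ s ∈ Icc a b, 0 < ε 1 * (derivative R).eval s :=
        fun s hs => h1.out ha' hb' hs 0 (Nat.zero_le _)
      have hm : StrictMonoOn (fun s => ε 1 * R.eval s) (Icc a b) := by
        refine strictMonoOn_of_deriv_pos (convex_Icc a b) (by fun_prop) fun s hs => ?_
        rw [((R.hasDerivAt s).const_mul (ε 1)).deriv]
        exact h2 s (interior_subset hs)
      have h3 := hm.monotoneOn (left_mem_Icc.2 (ht.1.trans ht.2)) ht ht.1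
      have h4 := hm.monotoneOn ht (right_mem_Icc.2 (ht.1.trans ht.2)) ht.2
      have h5 := ha 0 (Nat.zero_le _)
      have h6 := hb 0 (Nat.zero_le _)
      have h7 : ε 1 ≠ 0 := fun h => by simpa [h] using h2 t ht
      simp only [Function.iterate_zero, id] at h3 h4 h5 h6 ⊢
      rcases h7.lt_or_gt with h7 | h7
      · have e1 : R.eval t ≤ R.eval a := by nlinarith
        have e2 : R.eval b ≤ R.eval t := by nlinarith
        rcases le_total 0 (ε 0) with h | h <;> nlinarith
      · have e1 : R.eval a ≤ R.eval t := by nlinarith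
        have e2 : R.eval t ≤ R.eval b := by nlinarith
        rcases le_total 0 (ε 0) with h | h <;> nlinarith
    · exact h1.out ha' hb' ht j (by omega)

/-- a root is determined by the signs of the derivatives -/
theorem nil_thom_uniq {d : ℕ} {R : ℝ[X]} {ε : ℕ → ℝ} (h : R.natDegree ≤ d + 1) {s t : ℝ}
    (hs : R.eval s = 0) (ht : R.eval t = 0)
    (hs' : ∀ j ≤ d, 0 < ε j * (derivative^[j + 1] R).eval s)
    (ht' : ∀ j ≤ d, 0 < ε j * (derivative^[j + 1] R).eval t) : s = t := by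
  have h1 := nil_thom d (derivative R) ε (by
    have := natDegree_derivative_le R
    omega)
  wlog hst : s < t generalizing s t
  · rcases (not_lt.1 hst).eq_or_lt with e | e
    exacts [e.symm, (this ht hs ht' hs' e).symm]
  obtain ⟨c, hc, h2⟩ := exists_hasDerivAt_eq_zero hst R.continuous.continuousOn (hs.trans ht.symm)
    fun x _ => R.hasDerivAt x
  have := h1.out hs' ht' (Ioo_subset_Icc_self hc) 0 (Nat.zero_le _)
  simp [h2] at this

section Fam

variable {ι : Type}

theorem nil_df [Fintype ι] (S : OStr) (Q : (MvPolynomial ι ℝ)[X]) :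
    DF S fun z : (ι → ℝ) × ℝ => (Q.map (MvPolynomial.eval z.1)).eval z.2 := by
  induction Q using Polynomial.induction_on' with
  | add p q hp hq =>
    simp only [Polynomial.map_add, eval_add]
    exact hp.add hq
  | monomial n a =>
    simp only [Polynomial.map_monomial, eval_monomial]
    exact (DF.mvPolynomial a (f := fun z : (ι → ℝ) × ℝ => z.1) fun i => by fun_prop).mul
      (by fun_prop)

theorem nil_an [Fintype ι] (Q : (MvPolynomial ι ℝ)[X]) (z : (ι → ℝ) × ℝ) :
    AnalyticAt ℝ (fun z : (ι → ℝ) × ℝ => (Q.map (MvPolynomial.eval z.1)).eval z.2) z := by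
  induction Q using Polynomial.induction_on' with
  | add p q hp hq =>
    simp only [Polynomial.map_add, eval_add]
    exact hp.add hq
  | monomial n a =>
    simp only [Polynomial.map_monomial, eval_monomial]
    exact AnalyticAt.mul (AnalyticAt.comp (g := fun x => MvPolynomial.eval x a) (f := Prod.fst)
      (AnalyticOnNhd.eval_mvPolynomial a _ (mem_univ _)) analyticAt_fst) (analyticAt_snd.pow n)

theorem nil_out (Q : (MvPolynomial ι ℝ)[X]) (a : ι → U) (e : U) : ∀ᶠ ω in 𝔲,
    out ((Q.map (MvPolynomial.aeval (R := ℝ) a).toRingHom).eval e) ω =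
      (Q.map (MvPolynomial.eval (tup a ω))).eval (out e ω) := by
  induction Q using Polynomial.induction_on' with
  | add p q hp hq =>
    simp only [Polynomial.map_add, eval_add]
    filter_upwards [out_add _ _, hp, hq] with ω h1 h2 h3
    rw [h1, h2, h3]
  | monomial n c =>
    simp only [Polynomial.map_monomial, eval_monomial]
    filter_upwards [out_mul (MvPolynomial.aeval a c) (e ^ n), out_mvPoly c a, out_pow e n]
      with ω h1 h2 h3
    exact h1.trans (by rw [h2, h3]; rfl)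

theorem nil_map_zero {Q : (MvPolynomial ι ℝ)[X]} {a : ι → U}
    (h : Q.map (MvPolynomial.aeval (R := ℝ) a).toRingHom = 0) :
    ∀ᶠ ω in 𝔲, Q.map (MvPolynomial.eval (tup a ω)) = 0 := by
  have h1 : ∀ i, MvPolynomial.aeval a (Q.coeff i) = 0 := fun i => by
    simpa using congrArg (coeff · i) h
  filter_upwards [(Q.support.eventually_all).2 fun i _ => out_mvPoly (Q.coeff i) a, out_zero]
    with ω h2 h3
  ext i
  by_cases hi : i ∈ Q.support
  · have := h2 i hi
    rw [h1, h3] at this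
    rw [coeff_map, coeff_zero]
    exact this.symm
  · simp [notMem_support_iff.1 hi]

theorem nil_aeval_mem {a : ι → U} (ha : ∀ i, a i ∈ K) (p : MvPolynomial ι ℝ) :
    MvPolynomial.aeval a p ∈ K := by
  induction p using MvPolynomial.induction_on with
  | C r => simp
  | add p q hp hq => simpa using K.add_mem hp hq
  | mul_X p i hp => simpa using K.mul_mem hp (ha i)

/-- a real closed subfield is closed under semialgebraic functions -/
theorem nil_semi_mem [Fintype ι] (hK : RC K) {b : ι → U} (hb : ∀ i, b i ∈ K)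
    {σ : (ι → ℝ) → ℝ} (hσ : DF semialg σ) {e : U} (he : ∀ᶠ ω in 𝔲, out e ω = σ (tup b ω)) :
    e ∈ K := by
  by_contra hn
  obtain ⟨T, hT⟩ := semialg_char (ι := Option ι) (A := fun z => z none = σ fun i => z (some i))
    (by fun_prop)
  have key : ∀ p ∈ T, ∀ᶠ ω in 𝔲, ∀ᶠ t in 𝓝 (out e ω),
      SignType.sign (MvPolynomial.eval (fun o => Option.elim o t (tup b ω)) p) =
      SignType.sign (MvPolynomial.eval (fun o => Option.elim o (out e ω) (tup b ω)) p) := by
    intro p _
    simp only [MvPolynomial.optionEquivLeft_elim_eval]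
    generalize MvPolynomial.optionEquivLeft ℝ ι p = Q
    by_cases h0 : Q.map (MvPolynomial.aeval (R := ℝ) b).toRingHom = 0
    · filter_upwards [nil_map_zero h0] with ω h1
      simp [h1]
    · have h1 : (Q.map (MvPolynomial.aeval (R := ℝ) b).toRingHom).eval e ≠ 0 := fun h1 =>
        hn (hK e (alg_iff.2 ⟨_, h0, fun i => by
          rw [coeff_map]; exact nil_aeval_mem hb _, h1⟩))
      filter_upwards [ne_iff.1 h1, nil_out Q b e, out_zero] with ω h2 h3 h4
      rw [h3, h4] at h2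
      have hc := (Q.map (MvPolynomial.eval (tup b ω))).continuous.continuousAt (x := out e ω)
      rcases h2.lt_or_gt with h2 | h2
      · filter_upwards [hc.eventually (gt_mem_nhds h2)] with t ht
        rw [sign_neg ht, sign_neg h2]
      · filter_upwards [hc.eventually (lt_mem_nhds h2)] with t ht
        rw [sign_pos ht, sign_pos h2]
  obtain ⟨ω, h1, h2⟩ := (he.and (T.eventually_all.2 key)).exists
  have h3 : ∀ᶠ t in 𝓝 (out e ω), t = out e ω := by
    filter_upwards [T.eventually_all.2 h2] with t ht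
    exact ((hT _ _ ht).2 h1).trans h1.symm
  obtain ⟨t, h4, h5⟩ := ((h3.filter_mono (nhdsWithin_le_nhds (s := {out e ω}ᶜ))).and
    self_mem_nhdsWithin).exists
  exact h5 h4

end Fam

theorem nil_dcl_le (hK : RC K) (hP : ∀ i < k, P i ∈ K) : dcl semialg P k ≤ K := by
  rintro _ ⟨G, hG, rfl⟩
  exact nil_semi_mem hK (b := fun i : Fin k => P i) (fun i => hP i i.2) hG (out_ev G P)

/-- a semialgebraic condition at a transcendental point holds on an interval with ends in the
field -/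
theorem exists_alg_interval {ι : Type} [Fintype ι] (hK : RC K) {a : ι → U} (ha : ∀ i, a i ∈ K)
    {s : U} (hs : s ∉ K) (hb : |s| < 1) {Φ : (ι → ℝ) → ℝ → Prop}
    (hΦ : DP semialg fun z : (ι → ℝ) × ℝ => Φ z.1 z.2) (h : ∀ᶠ ω in 𝔲, Φ (tup a ω) (out s ω)) :
    ∃ g ∈ K, ∃ h ∈ K, -1 ≤ g ∧ g < s ∧ s < h ∧ h ≤ 1 ∧
      ∀ᶠ ω in 𝔲, ∀ t ∈ Ioo (out g ω) (out h ω), Φ (tup a ω) t := by
  let e := Fintype.equivFin ι
  let P : ℕ → U := fun i => if h : i < Fintype.card ι then a (e.symm ⟨i, h⟩) else 0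
  have hle : dcl semialg P (Fintype.card ι) ≤ K := nil_dcl_le hK fun i hi => by
    simp only [P, dif_pos hi]
    exact ha _
  have hp : InD semialg P (Fintype.card ι) (tup a) :=
    ⟨fun x i => x (e i), by fun_prop, Eventually.of_forall fun ω => by
      funext i
      simp [tup, tp, P]⟩
  obtain ⟨g, hg, h', hh', h1, h2, h3, h4, h5, -⟩ := exists_interval hp hΦ (w := s) (lo := -1)
    (hi := 1) (fun h => hs (hle h)) (neg_mem (one_mem _)) (one_mem _) (abs_lt.1 hb).1
    (abs_lt.1 hb).2 h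
  exact ⟨g, hle hg, h', hle hh', h1, h2, h3, h4, h5⟩

/-- Certificate for an algebraic element: a polynomial of least degree over the ring generated by
`a`; the root is described by the signs of the derivatives (Thom). -/
theorem cert {ι : Type} [Fintype ι] (a : ι → U) {e : U}
    (he : IsAlgebraic (IntermediateField.adjoin ℝ (range a)) e) :
    ∃ (σ : (ι → ℝ) → ℝ) (Φ : (ι → ℝ) → Prop) (d : ℕ) (q : ℕ → MvPolynomial ι ℝ),
      DF semialg σ ∧ DP semialg Φ ∧ (∀ᶠ ω in 𝔲, Φ (tup a ω) ∧ out e ω = σ (tup a ω)) ∧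
      ContinuousOn σ {x | Φ x} ∧ ∀ x, Φ x → MvPolynomial.eval x (q d) ≠ 0 ∧
        ∑ i ∈ Finset.range (d + 1), MvPolynomial.eval x (q i) * σ x ^ i = 0 ∧
        ∑ i ∈ Finset.range (d + 1), i * MvPolynomial.eval x (q i) * σ x ^ (i - 1) ≠ 0 := by
  classical
  let φ := (MvPolynomial.aeval (R := ℝ) a).toRingHom
  have hex : ∃ d, ∃ Q ∈ lifts φ, Q ≠ 0 ∧ Q.eval e = 0 ∧ Q.natDegree = d := by
    obtain ⟨p, hp, h0⟩ := IntermediateField.isAlgebraic_adjoin_iff.1 he
    refine ⟨_, p.map (algebraMap _ U), (lifts_iff_coeff_lifts _).2 fun i => ?_,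
      (Polynomial.map_ne_zero_iff Subtype.val_injective).2 hp,
      by rwa [eval_map_algebraMap], rfl⟩
    rw [coeff_map]
    exact (Algebra.adjoin_range_eq_range_aeval ℝ a).le (p.coeff i).2
  obtain ⟨Q, hQ, hQ0, hQe, hd⟩ := Nat.find_spec hex
  obtain ⟨𝒬, rfl, hd'⟩ := exists_natDegree_eq_of_mem_lifts hQ
  have hmin : ∀ Q' ∈ lifts φ, Q' ≠ 0 → Q'.eval e = 0 → 𝒬.natDegree ≤ Q'.natDegree :=
    fun Q' h1 h2 h3 => by
      rw [hd', hd]
      exact Nat.find_min' hex ⟨Q', h1, h2, h3, rfl⟩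
  obtain ⟨d, hdd⟩ : ∃ d, 𝒬.natDegree = d + 1 := by
    refine Nat.exists_eq_succ_of_ne_zero fun h => hQ0 ?_
    rw [hd'] at h
    rw [eq_C_of_natDegree_eq_zero h] at hQe ⊢
    rw [eval_C] at hQe
    rw [hQe, map_zero]
  have hlead : φ (𝒬.coeff (d + 1)) ≠ 0 := by
    rw [← coeff_map, ← hdd, hd']
    exact leadingCoeff_ne_zero.2 hQ0
  have hne : ∀ j ≤ d, ((derivative^[j + 1] 𝒬).map φ).eval e ≠ 0 := fun j hj h => by
    have h1 := hmin _ (mem_lifts _ |>.2 ⟨_, rfl⟩) (fun h1 => ?_) h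
    · have h2 := natDegree_iterate_derivative 𝒬 (j + 1)
      have h3 := natDegree_map_le (f := φ) (p := derivative^[j + 1] 𝒬)
      omega
    · have h2 := congrArg (coeff · (d - j)) h1
      have h3 : d - j + (j + 1) = d + 1 := by omega
      simp only [coeff_map, coeff_iterate_derivative, h3, coeff_zero, map_nsmul,
        smul_eq_zero, Nat.descFactorial_eq_zero_iff_lt] at h2
      exact h2.elim (by omega) hlead
  let ε : ℕ → ℝ := fun j => if 0 < ((derivative^[j + 1] 𝒬).map φ).eval e then 1 else -1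
  let Rel : (ι → ℝ) → ℝ → Prop := fun x t => MvPolynomial.eval x (𝒬.coeff (d + 1)) ≠ 0 ∧
    (∀ j ≤ d, 0 < ε j * ((derivative^[j + 1] 𝒬).map (MvPolynomial.eval x)).eval t) ∧
    (𝒬.map (MvPolynomial.eval x)).eval t = 0
  have hR : DP semialg fun z : (ι → ℝ) × ℝ => Rel z.1 z.2 :=
    (DP.ne (DF.mvPolynomial _ (f := fun z : (ι → ℝ) × ℝ => z.1) fun i => by fun_prop)
      (DF.const 0)).and (DP.and (DP.finset_and (s := Iic d) (finite_Iic d) fun j _ =>
        DP.lt (DF.const 0) ((DF.const _).mul (nil_df _ _))) (DP.eq (nil_df _ _) (DF.const 0)))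
  have huniq : ∀ x s t, Rel x s → Rel x t → s = t := fun x s t hs ht =>
    nil_thom_uniq (ε := ε) (natDegree_map_le.trans hdd.le) hs.2.2 ht.2.2
      (fun j hj => by rw [iterate_derivative_map]; exact hs.2.1 j hj)
      (fun j hj => by rw [iterate_derivative_map]; exact ht.2.1 j hj)
  obtain ⟨σ, hσ, hσ'⟩ := DP.choice_real hR
  have hder : ∀ x t, Rel x t → (derivative (𝒬.map (MvPolynomial.eval x))).eval t ≠ 0 :=
    fun x t h h0 => by
      have := h.2.1 0 (Nat.zero_le _)
      rw [← iterate_derivative_map] at this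
      exact this.ne' (mul_eq_zero_of_right _ h0)
  refine ⟨σ, fun x => ∃ t, Rel x t, d + 1, 𝒬.coeff, hσ, DP.ex_real hR, ?_, ?_, ?_⟩
  · have h1 : ∀ j ∈ Finset.Iic d, ∀ᶠ ω in 𝔲, 0 < ε j *
        ((derivative^[j + 1] 𝒬).map (MvPolynomial.eval (tup a ω))).eval (out e ω) := by
      intro j hj
      by_cases h : 0 < ((derivative^[j + 1] 𝒬).map φ).eval e
      · filter_upwards [lt_iff.1 h, nil_out (derivative^[j + 1] 𝒬) a e, out_zero] with ω h2 h3 h4
        rw [h3, h4] at h2
        simpa only [ε, if_pos h, one_mul] using h2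
      · have h' := (not_lt.1 h).lt_of_ne (hne j (Finset.mem_Iic.1 hj))
        filter_upwards [lt_iff.1 h', nil_out (derivative^[j + 1] 𝒬) a e, out_zero]
          with ω h2 h3 h4
        rw [h3, h4] at h2
        simpa only [ε, if_neg h, neg_mul, one_mul, Left.neg_pos_iff] using h2
    filter_upwards [(Finset.Iic d).eventually_all.2 h1, ne_iff.1 hlead, out_zero,
      out_mvPoly (𝒬.coeff (d + 1)) a, nil_out 𝒬 a e] with ω h2 h3 h4 h5 h6
    rw [hQe, h4] at h6
    have h7 : Rel (tup a ω) (out e ω) :=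
      ⟨fun h => h3 (h5.trans (h.trans h4.symm)), fun j hj => h2 j (Finset.mem_Iic.2 hj), h6.symm⟩
    exact ⟨⟨_, h7⟩, huniq _ _ _ h7 (hσ' _ ⟨_, h7⟩)⟩
  · intro x hx
    have h1 := hσ' x hx
    obtain ⟨ψ, hψ, h2, h3⟩ := nil_ift (nil_an 𝒬 (x, σ x))
      ((𝒬.map (MvPolynomial.eval x)).hasDerivAt (σ x)) (hder x _ h1)
    have hc : Tendsto (fun y => (y, ψ y)) (𝓝 x) (𝓝 (x, σ x)) := by
      rw [← h2]
      exact continuousAt_id.prodMk hψ.continuousAt
    have h4 : ∀ j ∈ Finset.Iic d, ∀ᶠ v in 𝓝 (x, σ x), 0 < ε j *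
        ((derivative^[j + 1] 𝒬).map (MvPolynomial.eval v.1)).eval v.2 := fun j hj =>
      (continuousAt_const.mul (nil_an _ _).continuousAt).eventually
        (lt_mem_nhds (h1.2.1 j (Finset.mem_Iic.1 hj)))
    have h5 : σ =ᶠ[𝓝 x] ψ := by
      filter_upwards [hc.eventually h3, hc.eventually ((Finset.Iic d).eventually_all.2 h4),
        (MvPolynomial.continuous_eval (𝒬.coeff (d + 1))).continuousAt.eventually_ne h1.1]
        with y h5 h6 h7
      have h8 : Rel y (ψ y) :=
        ⟨h7, fun j hj => h6 j (Finset.mem_Iic.2 hj), (h5.2 rfl).trans h1.2.2⟩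
      exact huniq _ _ _ (hσ' _ ⟨_, h8⟩) h8
    exact (hψ.continuousAt.congr h5.symm).continuousWithinAt
  · intro x hx
    have h1 := hσ' x hx
    have h2 : (𝒬.map (MvPolynomial.eval x)).natDegree < d + 1 + 1 :=
      Nat.lt_succ_of_le (natDegree_map_le.trans hdd.le)
    refine ⟨h1.1, ?_, ?_⟩
    · have := h1.2.2
      rw [eval_eq_sum_range' h2] at this
      simpa only [coeff_map] using this
    · have := hder x _ h1
      rw [derivative_eval, sum_over_range' _ (by simp) _ h2] at this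
      convert this using 3 with i
      rw [coeff_map, mul_comm]

end Pool.Agent.Lib.MP_1a1eb7_lc
end

-- part Pool.Agent.Lib.MP_1a1eb7_lc.Nil
section

/-! C5: the algebraic case. -/

namespace Pool.Agent.Lib.MP_1a1eb7_lc

open Set Filter Topology Pool.Agent.Shared.OMin
open Ordinal (omega0)

variable {S : OStr} {Γ : Sys} {θ θ₁ θ₂ τ : ℕ → Ordinal.{0}} {P Q Z Z' y : ℕ → U} {n m k r N : ℕ}
  {E E' : ℕ → Fld} {c c' : Ctx} {α β γ : Ordinal.{0}} {K K₀ K₀' K₁ K₂ K' : Fld}

theorem main_zero (hT : Tow S θ P 0 E) {R : ℕ → Set U} (hR : Req R E 0) :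
    ∃ (c : Ctx) (E' : ℕ → Fld), Sem S θ c 0 ∧ Full Γ c 0 ∧ Pt S θ c P 0 E' ∧ Ext E E' 0 ∧
      ∀ k ≤ 0, ∀ e ∈ R k, c.Rep k P e := by
  have hv : ∀ (k : ℕ) (y : ℕ → U) (K : Fld), Ctx.Vals ⟨fun _ _ => 0, fun _ _ => 0,
      fun _ => (fun r _ => r) '' {r : ℝ | algebraMap ℝ U r ∈ R 0}⟩ k y K := by
    rintro k y K _ ⟨r, -, rfl⟩
    rw [ev_const]
    exact K.algebraMap_mem r
  refine ⟨⟨fun _ _ => 0, fun _ _ => 0,
    fun _ => (fun r _ => r) '' {r : ℝ | algebraMap ℝ U r ∈ R 0}⟩, E,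
    ⟨fun k _ => ?_, ?_, ?_, fun k hk => absurd hk k.not_lt_zero,
      fun k hk => absurd hk k.not_lt_zero, fun k hk => absurd hk k.not_lt_zero, fun k hk => ?_⟩,
    fun k hk => ?_, ⟨hT, Eventually.of_forall fun _ => mem_univ _, fun k _ => hv k P _⟩,
    Ext.refl E 0, fun k hk e he => ?_⟩
  · exact ((hR 0 le_rfl).1.preimage (algebraMap ℝ U).injective.injOn).image _
  · rintro k - _ ⟨r, -, rfl⟩
    exact DF.const r
  · rintro k - _ ⟨r, -, rfl⟩
    exact analyticOnNhd_const
  · exact ⟨0, hT.pos hk, fun P m y K _ _ _ _ _ => ⟨K, Pres.nil, hv k y K⟩⟩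
  · obtain rfl := Nat.le_zero.1 hk
    refine ⟨Γ.zero, ?_⟩
    rintro _ ⟨r, -, rfl⟩
    exact Γ.const r Γ.zero
  · obtain rfl := Nat.le_zero.1 hk
    have h1 : e ∈ dcl S P 0 := (hT.dfld le_rfl).le ((hR 0 le_rfl).2 he)
    rw [dcl_zero] at h1
    obtain ⟨r, rfl⟩ := IntermediateField.mem_bot.1 h1
    exact ⟨_, ⟨r, he, rfl⟩, ev_const r P⟩

theorem nil_pf_poly {ι : Type} {A : Set (Fin k → ℝ)} (hA : Γ.Cell k A) {f : ι → Fn k}
    (hf : ∀ i, Γ.Pf k A (f i)) (p : MvPolynomial ι ℝ) :
    Γ.Pf k A fun x => MvPolynomial.eval (fun i => f i x) p := by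
  induction p using MvPolynomial.induction_on with
  | C r => simpa using Γ.const r hA
  | add p q hp hq => simpa using Γ.add hp hq
  | mul_X p i hp => simpa using Γ.mul hp (hf i)

/-- the last coordinate together with functions of the other coordinates -/
def nilB {ι : Type} (f : ι → Fn n) : Option ι → Fn (n + 1) :=
  fun o z => o.elim (z (Fin.last n)) fun i => f i (Fin.init z)

theorem nil_tup {ι : Type} [Finite ι] (f : ι → Fn n) (y : ℕ → U) : ∀ᶠ ω in 𝔲,
    (fun o => nilB f o (tp y (n + 1) ω)) =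
      tup (fun o : Option ι => o.elim (y n) fun i => ev (f i) y) ω := by
  filter_upwards [eventually_all.2 fun i => out_ev (f i) y] with ω h
  funext o
  cases o with
  | none => rfl
  | some i => exact (h i).symm

theorem nil_sign {X : Type} {χ : X → ℝ} {C : Set X} (h : Tri χ C) {x z : X} (hx : x ∈ C)
    (hz : z ∈ C) : SignType.sign (χ x) = SignType.sign (χ z) := by
  rcases h with h | h | h
  · rw [sign_pos (h x hx), sign_pos (h z hz)]
  · rw [h x hx, h z hz]
  · rw [sign_neg (h x hx), sign_neg (h z hz)]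

/-- a context below on whose cell a semialgebraic condition holds -/
theorem nil_lower (hM : Main S Γ τ) (hT : Tow S τ P n E) {R : ℕ → Set U} (hR : Req R E n)
    {ι : Type} [Fintype ι] {a : ι → U} (ha : ∀ i, a i ∈ E n) {Ψ : (ι → ℝ) → Prop}
    (hΨ : DP semialg Ψ) (h : ∀ᶠ ω in 𝔲, Ψ (tup a ω)) :
    ∃ (c : Ctx) (E' : ℕ → Fld) (f : ι → Fn n), Sem S τ c n ∧ Full Γ c n ∧ Pt S τ c P n E' ∧
      Ext E E' n ∧ (∀ k ≤ n, ∀ e ∈ R k, c.Rep k P e) ∧ (∀ i, f i ∈ c.gens n ∧ ev (f i) P = a i) ∧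
      ∀ x ∈ c.cell n, Ψ fun i => f i x := by
  obtain ⟨T, hT'⟩ := semialg_char hΨ
  obtain ⟨c, E', h1, h2, h3, h4, h5⟩ := hM.sg hT
    (R := Function.update R n (R n ∪ range a ∪ (fun p => MvPolynomial.aeval a p) ''
      (T : Set (MvPolynomial ι ℝ))))
    fun k hk => by
      rcases hk.eq_or_lt with rfl | hk'
      · rw [Function.update_self]
        refine ⟨((hR k le_rfl).1.union (finite_range a)).union (T.finite_toSet.image _),
          union_subset (union_subset (hR k le_rfl).2 (range_subset_iff.2 ha)) ?_⟩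
        rintro _ ⟨p, -, rfl⟩
        exact nil_aeval_mem ha p
      · rw [Function.update_of_ne hk'.ne]
        exact hR k hk
  have h6 := h5 n le_rfl
  rw [Function.update_self] at h6
  choose f hf hf' using fun i => (h6 (a i) (.inl (.inr (mem_range_self i)))).1
  refine ⟨c, E', f, h1, h2, h3, h4, fun k hk e he => (h5 k hk e ?_).1, fun i => ⟨hf i, hf' i⟩,
    fun x hx => ?_⟩
  · rcases hk.eq_or_lt with rfl | hk'
    · rw [Function.update_self]
      exact .inl (.inl he)
    · rwa [Function.update_of_ne hk'.ne]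
  · obtain ⟨ω, h7, h8, h9⟩ :=
      (h.and (h3.has.and (eventually_all.2 fun i => out_ev (f i) P))).exists
    have e : tup a ω = fun i => f i (tp P n ω) := funext fun i => by
      rw [← h9 i, hf' i]; rfl
    rw [e] at h7
    refine (hT' _ _ fun p hp => ?_).2 h7
    refine nil_sign (χ := fun x => MvPolynomial.eval (fun i => f i x) p) ((h6 _
      (.inr ⟨p, hp, rfl⟩)).2 _ (DF.mvPolynomial p fun i => h1.df n le_rfl _ (hf i))
      (AnalyticOnNhd.aeval_mvPolynomial (f := fun x i => f i x)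
        (fun i => h1.an n le_rfl _ (hf i)) p) ?_) hx h8
    rw [ev_mvPoly, funext hf']

theorem main_nil (hθ : Clo θ) (IH : Below S Γ θ) (hT : Tow S θ P (n + 1) E)
    (hnil : E (n + 1) = adj (E n) (P n)) {R : ℕ → Set U} (hR : Req R E (n + 1)) :
    ∃ (c : Ctx) (E' : ℕ → Fld), Sem S θ c (n + 1) ∧ Full Γ c (n + 1) ∧ Pt S θ c P (n + 1) E' ∧
      Ext E E' (n + 1) ∧ ∀ k ≤ n + 1, ∀ e ∈ R k, c.Rep k P e := by
  obtain ⟨hfin, hsub⟩ := hR (n + 1) le_rfl
  rw [hnil] at hsub
  obtain ⟨T, hT1, hT2, hT3⟩ := exists_finite_adj hfin hsub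
  have := hT1.fintype
  have := hfin.to_subtype
  let b : Option T → U := fun o => o.elim (P n) Subtype.val
  have halg : ∀ e : R (n + 1), IsAlgebraic (IntermediateField.adjoin ℝ (range b)) (e : U) :=
    fun e => alg_mono (sup_le le_rfl (IntermediateField.adjoin.mono ℝ _ _
      (singleton_subset_iff.2 ⟨none, rfl⟩))) (mem_rcl.1 (hT3 _ (fun x hx =>
        IntermediateField.subset_adjoin ℝ _ (mem_range_self (f := b) (some ⟨x, hx⟩))) e.2))
  choose σ Φ d q hσ hΦ hev hcont hq using fun e => cert b (halg e)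
  have hE := hT.dfld n.le_succ
  have hΦ' : DP semialg fun z : (T → ℝ) × ℝ => ∀ e, Φ e fun o => o.elim z.2 z.1 :=
    DP.fin_and fun e => (hΦ e).comp (DF.pi fun o => by cases o <;> simp only [Option.elim] <;>
      fun_prop)
  obtain ⟨g, hg, h, hh, g1, g2, g3, g4, g5⟩ := exists_alg_interval (a := (Subtype.val : T → U))
    (Φ := fun x t => ∀ e, Φ e fun o => o.elim t x) hE.rc (fun i => hT2 i.2)
    (fun h => hT.gen.last (hE.le h)) (hT.bd n n.lt_succ_self) hΦ' (by
      filter_upwards [eventually_all.2 hev] with ω h e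
      convert (h e).1 using 2 with o
      cases o <;> rfl)
  obtain ⟨τ, hτ, hτθ, hTτ⟩ := (hT.down n.le_succ).drop hθ (hT.pos le_rfl)
  have hτle : ∀ k ≤ n, τ k ≤ θ k := fun k hk => (hτθ k hk).le
  let a : T ⊕ Bool → U := Sum.elim Subtype.val fun s => cond s h g
  have ha : ∀ i, a i ∈ E n := by
    rintro (i | _ | _)
    exacts [hT2 i.2, hg, hh]
  let Ψ : (T ⊕ Bool → ℝ) → Prop := fun x => x (.inr false) < x (.inr true) ∧
    (∀ t, x (.inr false) < t ∧ t < x (.inr true) → ∀ e, Φ e fun o => o.elim t fun i => x (.inl i)) ∧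
    (if g = -1 then x (.inr false) = -1 else -1 < x (.inr false)) ∧
    (if h = 1 then x (.inr true) = 1 else x (.inr true) < 1)
  have hΨ : DP semialg Ψ := by
    refine DP.and (by fun_prop) (DP.and (DP.all (DP.imp (by fun_prop) (hΦ'.comp
      (g := fun z : (T ⊕ Bool → ℝ) × ℝ => (fun i => z.1 (.inl i), z.2)) (by fun_prop))))
      (DP.and ?_ ?_))
    · split_ifs <;> fun_prop
    · split_ifs <;> fun_prop
  have hΨa : ∀ᶠ ω in 𝔲, Ψ (tup a ω) := by
    have e1 : ∀ᶠ ω in 𝔲, if g = -1 then out g ω = -1 else -1 < out g ω := by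
      split_ifs with e
      · filter_upwards [out_neg 1, out_one] with ω h1 h2
        rw [e, h1, h2]
      · filter_upwards [lt_iff.1 (g1.lt_of_ne' e), out_neg 1, out_one] with ω h0 h1 h2
        rwa [h1, h2] at h0
    have e2 : ∀ᶠ ω in 𝔲, if h = 1 then out h ω = 1 else out h ω < 1 := by
      split_ifs with e
      · rw [e]; exact out_one
      · filter_upwards [lt_iff.1 (g4.lt_of_ne e), out_one] with ω h0 h2
        rwa [h2] at h0
    filter_upwards [lt_iff.1 (g2.trans g3), g5, e1, e2] with ω h1 h2 h3 h4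
    exact ⟨h1, h2, h3, h4⟩
  obtain ⟨c, E₁, f, hc, hF, hp, hext, hrep, hf, hcell⟩ := nil_lower (IH τ hτ (hτθ 0 n.zero_le)).1
    hTτ (R := R) (fun k hk => hR k (hk.trans n.le_succ)) ha hΨ hΨa
  have hlo : (∀ x ∈ c.cell n, f (.inr false) x = -1) ∨ ∀ x ∈ c.cell n, -1 < f (.inr false) x := by
    by_cases e : g = -1
    · exact .inl fun x hx => by simpa only [if_pos e] using (hcell x hx).2.2.1
    · exact .inr fun x hx => by simpa only [if_neg e] using (hcell x hx).2.2.1
  have hhi : (∀ x ∈ c.cell n, f (.inr true) x = 1) ∨ ∀ x ∈ c.cell n, f (.inr true) x < 1 := by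
    by_cases e : h = 1
    · exact .inl fun x hx => by simpa only [if_pos e] using (hcell x hx).2.2.2
    · exact .inr fun x hx => by simpa only [if_neg e] using (hcell x hx).2.2.2
  set A := band (c.cell n) (f (.inr false)) (f (.inr true)) with hA
  let B : Option T → Fn (n + 1) := nilB fun i => f (.inl i)
  have hB : ∀ z ∈ A, ∀ e, Φ e fun o => B o z := fun z hz => (hcell _ hz.1).2.1 _ hz.2
  have fan : ∀ i, AnalyticOnNhd ℝ (f i) (c.cell n) := fun i => hc.an n le_rfl _ (hf i).1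
  have hAo : IsOpen A :=
    CtxB.isOpen_band (hc.isOpen le_rfl) (fan _).continuousOn (fan _).continuousOn
  have hAc : Γ.Cell (n + 1) A := Γ.band (hF n le_rfl).1 ((hF n le_rfl).2 _ (hf _).1)
    ((hF n le_rfl).2 _ (hf _).1) (fun x hx => (hcell x hx).1) hlo hhi
  have Bd : ∀ o, DF S (B o) := by
    rintro (_ | i)
    · exact DF.apply (Fin.last n)
    · exact (hc.df n le_rfl _ (hf (.inl i)).1).comp (DF.init DF.id')
  have Ba : ∀ o, AnalyticOnNhd ℝ (B o) A := by
    rintro (_ | i)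
    · exact fun z _ => (ContinuousLinearMap.proj (R := ℝ) (φ := fun _ : Fin (n + 1) => ℝ)
        (Fin.last n)).analyticAt z
    · exact analyticOnNhd_init (fan (.inl i)) fun z hz => hz.1
  have Bp : ∀ o, Γ.Pf (n + 1) A (B o) := by
    rintro (_ | i)
    · exact Γ.coord (Fin.last n) hAc
    · exact Γ.lift ((hF n le_rfl).2 _ (hf (.inl i)).1) hAc fun z hz => hz.1
  let φ : R (n + 1) → Fn (n + 1) := fun e z => σ e fun o => B o z
  have φa : ∀ e, AnalyticOnNhd ℝ (φ e) A := fun e =>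
    analyticOnNhd_simple_root hAo (q := fun i z => MvPolynomial.eval (fun o => B o z) (q e i))
      (fun i => AnalyticOnNhd.aeval_mvPolynomial (f := fun z o => B o z) Ba (q e i))
      ((hcont e).comp (continuousOn_pi.2 fun o => (Ba o).continuousOn) fun z hz => hB z hz e)
      (fun z hz => (hq e _ (hB z hz e)).2.1) fun z hz => (hq e _ (hB z hz e)).2.2
  have φe : ∀ e, ev (φ e) P = e := fun e => ev_eq (by
    filter_upwards [hev e, nil_tup (fun i => f (.inl i)) P] with ω h1 h2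
    refine h1.2.trans (congrArg (σ e) (Eq.trans ?_ h2.symm))
    congr 1
    funext o
    cases o with
    | none => rfl
    | some i => exact (hf (.inl i)).2.symm)
  have hp' := hp.setTop (f (.inr false)) (f (.inr true)) (range φ)
  have hadj : adj (E n) (P n) ≤ adj (E₁ n) (P n) := adj_mono (hext n le_rfl) _
  refine ⟨c.setTop n (f (.inr false)) (f (.inr true)) (range φ),
    Function.update E₁ (n + 1) (adj (E₁ n) (P n)),
    (hc.mono hτle).setTop' (hf _).1 (hf _).1 (fun x hx => ⟨?_, (hcell x hx).1, ?_⟩)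
      (finite_range φ) ?_ (hT.pos le_rfl) ?_, fun k hk => ?_,
    ⟨(hp.tow.mono hτle).succ hT.gen.last (hT.bd n n.lt_succ_self) Pres.nil (hT.pos le_rfl),
      Ctx.has_succ.2 ⟨hp'.has, ?_, ?_⟩, fun k hk => ?_⟩, fun k hk => ?_, fun k hk e he => ?_⟩
  · exact hlo.elim (fun h => (h x hx).ge) fun h => (h x hx).le
  · exact hhi.elim (fun h => (h x hx).le) fun h => (h x hx).le
  · rintro _ ⟨e, rfl⟩
    exact ⟨(nil_df_le S (hσ e)).comp (DF.pi Bd), φa e⟩
  · intro P' m y K _ hK hy _ hv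
    refine ⟨K, Pres.nil, fun ψ hψ => ?_⟩
    rw [Ctx.setTop_gens_succ] at hψ
    obtain ⟨e, rfl⟩ := hψ
    refine nil_semi_mem hK.rc (b := fun o : Option T => o.elim (y n) fun i => ev (f (.inl i)) y)
      ?_ (hσ e) ?_
    · rintro (_ | i)
      · exact hy n n.lt_succ_self
      · exact hv n n.lt_succ_self _ (by rw [Ctx.setTop_gens le_rfl]; exact (hf (.inl i)).1)
    · filter_upwards [out_ev (φ e) y, nil_tup (fun i => f (.inl i)) y] with ω h1 h2
      exact h1.trans (congrArg (σ e) h2)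
  · rcases hk.eq_or_lt with rfl | hk'
    · rw [Ctx.setTop_cell_succ, Ctx.setTop_gens_succ]
      refine ⟨hAc, ?_⟩
      rintro _ ⟨e, rfl⟩
      exact Γ.alg (d e) (fun i z => MvPolynomial.eval (fun o => B o z) (q e i)) hAc
        (fun i => nil_pf_poly hAc Bp (q e i)) (φa e) (fun z hz => (hq e _ (hB z hz e)).2.1)
        (fun z hz => (hq e _ (hB z hz e)).1) fun z hz => (hq e _ (hB z hz e)).2.2
    · have hk' := Nat.lt_succ_iff.1 hk'
      rw [Ctx.setTop_cell hk', Ctx.setTop_gens hk']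
      exact hF k hk'
  · rw [Ctx.setTop_lo, (hf _).2]
    exact g2
  · rw [Ctx.setTop_hi, (hf _).2]
    exact g3
  · rcases hk.eq_or_lt with rfl | hk'
    · rw [Function.update_self]
      intro ψ hψ
      rw [Ctx.setTop_gens_succ] at hψ
      obtain ⟨e, rfl⟩ := hψ
      rw [φe]
      exact hadj (hsub e.2)
    · rw [Function.update_of_ne hk'.ne]
      exact hp'.vals k (Nat.lt_succ_iff.1 hk')
  · rcases hk.eq_or_lt with rfl | hk'
    · rw [Function.update_self, hnil]
      exact hadj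
    · rw [Function.update_of_ne hk'.ne]
      exact hext k (Nat.lt_succ_iff.1 hk')
  · rcases hk.eq_or_lt with rfl | hk'
    · exact ⟨φ ⟨e, he⟩, by rw [Ctx.setTop_gens_succ]; exact mem_range_self _, φe _⟩
    · have hk' := Nat.lt_succ_iff.1 hk'
      obtain ⟨ψ, h1, h2⟩ := hrep k hk' e he
      exact ⟨ψ, by rwa [Ctx.setTop_gens hk'], h2⟩

end Pool.Agent.Lib.MP_1a1eb7_lc
end
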