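import Pool.Agent.Lib.MP_1a1eb7_lc.CDefs
import Pool.Agent.Shared.OMin.Transp

-- part Pool.Agent.Lib.MP_1a1eb7_lc.PresB
section

/-! C1: basic properties of presentations, towers, bounds. -/

namespace Pool.Agent.Lib.MP_1a1eb7_lc

open Set Filter Topology Pool.Agent.Shared.OMin
open Ordinal (omega0)

variable {S : OStr} {Γ : Sys} {θ θ₁ θ₂ τ : ℕ → Ordinal.{0}} {P Q Z Z' y : ℕ → U} {n m k r N : ℕ}
  {E E' : ℕ → Fld} {c c' : Ctx} {α β γ : Ordinal.{0}} {K K₀ K₀' K₁ K₂ K' : Fld}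

/-! ### presentations -/

theorem presB_upd_self (w : U) : upd P n w n = w := by simp [upd]

theorem presB_gen (hP : Gen S P n) {f w : U} (hf : f ∈ dcl S P n) (hne : w ≠ f)
    (hw : Inf (dcl S P n) (w - f)) : Gen S (upd P n w) (n + 1) :=
  hP.upd (Inf.notMem hf hw hne)

theorem presB_dfld_adj {w : U} (hg : Gen S (upd P n w) (n + 1)) (h : DFld S P n K) :
    DFld S (upd P n w) (n + 1) (adj K w) := by
  have := DFld.adj hg (h.congr (agree_upd w).symm)
  rwa [presB_upd_self] at this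

theorem presB_tr_congr {P' Q' : ℕ → U} {a b : U} (e : Agree P P' n) (e' : Agree Q Q' n)
    (h : Tr S P Q n a b) : Tr S P' Q' n a b := by
  obtain ⟨G, hG, rfl, rfl⟩ := h
  exact ⟨G, hG, e.ev_eq G, e'.ev_eq G⟩

theorem presB_trF_congr {P' Q' : ℕ → U} (e : Agree P P' n) (e' : Agree Q Q' n) (K : Fld) :
    trF S P Q n K = trF S P' Q' n K := by
  ext b
  simp only [mem_trF]
  exact ⟨fun ⟨a, ha, h⟩ => ⟨a, ha, presB_tr_congr e e' h⟩,
    fun ⟨a, ha, h⟩ => ⟨a, ha, presB_tr_congr e.symm e'.symm h⟩⟩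

theorem Pres.le (h : Pres S P n K₀ K α) : K₀ ≤ K := by
  induction h with
  | nil => exact le_rfl
  | cons _ _ _ _ _ _ _ h12 _ _ ih _ => exact ih.trans h12

theorem Pres.dfld (h : Pres S P n K₀ K α) (h0 : DFld S P n K₀) : DFld S P n K := by
  cases h with
  | nil => exact h0
  | cons _ _ _ _ _ _ hD _ _ _ => exact hD

theorem Pres.mono (h : Pres S P n K₀ K α) (hα : α ≤ γ) : Pres S P n K₀ K γ := by
  cases h with
  | nil => exact .nil
  | cons h1 hf hne hw hb hc hD h12 hst hr =>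
    exact .cons h1 hf hne hw hb hc hD h12 hst (hr.trans hα)

theorem Pres.congr (h : Pres S P n K₀ K α) (e : Agree P Q n) : Pres S Q n K₀ K α := by
  induction h generalizing Q with
  | nil => exact .nil
  | cons _ hf hne hw hb _ hD h12 hst hr ih1 ih2 =>
    rw [e.dcl_eq] at hw hst
    exact .cons (ih1 e) hf hne hw hb (ih2 (e.upd _)) (hD.congr e) h12 hst hr

theorem Pres.cases' (h : Pres S P n K₀ K α) : K = K₀ ∨ ∃ K₁ K' α' β f w,
    Pres S P n K₀ K₁ α' ∧ f ∈ K ∧ w ≠ f ∧ Inf (dcl S P n) (w - f) ∧ |w| < 1 ∧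
    Pres S (upd P n w) (n + 1) (adj K₁ w) K' β ∧ DFld S P n K ∧ K₁ ≤ K ∧
    K ≤ stF (dcl S P n) K' ∧ α' + omega0 ^ (β + 1) ≤ α := by
  cases h with
  | nil => exact .inl rfl
  | cons h1 hf hne hw hb hc hD h12 hst hr =>
    exact .inr ⟨_, _, _, _, _, _, h1, hf, hne, hw, hb, hc, hD, h12, hst, hr⟩

/-- in the cons case take `rcl (K₁' ⊔ K₂)` (DFld.sup, rc_stF) -/
theorem Pres.base_change (h : Pres S P n K₀ K α) (hP : Gen S P n) (h0 : DFld S P n K₀)
    (h0' : DFld S P n K₀') (hle : K₀ ≤ K₀') : ∃ K', K ≤ K' ∧ Pres S P n K₀' K' α := by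
  induction h generalizing K₀' with
  | nil => exact ⟨_, hle, .nil⟩
  | @cons P n E₀ E₁ E' E₂ α' β α f w h1 hf hne hw hb _ hD _ hst hr ih1 ih2 =>
    obtain ⟨F₁, hF₁, p1⟩ := ih1 hP h0 h0' hle
    have hg := presB_gen hP (hD.le hf) hne hw
    have d1 := p1.dfld h0'
    have da := presB_dfld_adj hg d1
    obtain ⟨F', hF', p2⟩ := ih2 hg (presB_dfld_adj hg (h1.dfld h0)) da (adj_mono hF₁ w)
    refine ⟨rcl (F₁ ⊔ E₂), le_sup_right.trans (le_rcl _), ?_⟩
    refine .cons p1 ((le_sup_right.trans (le_rcl _) : E₂ ≤ rcl (F₁ ⊔ E₂)) hf) hne hw hb p2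
      (DFld.sup hP d1 hD) (le_sup_left.trans (le_rcl _)) ?_ hr
    refine (rc_stF rc_dcl (p2.dfld da).rc).rcl_le (sup_le ?_ (hst.trans (stF_mono hF')))
    exact le_stF d1.le ((le_adj _ _).trans p2.le)

theorem Pres.trans (h : Pres S P n K₀ K₁ α) (h' : Pres S P n K₁ K₂ γ) :
    Pres S P n K₀ K₂ (α + γ) := by
  induction h' with
  | nil => exact h.mono le_self_add
  | cons _ hf hne hw hb hc hD h12 hst hr ih1 _ =>
    refine .cons (ih1 h) hf hne hw hb hc hD h12 hst ?_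
    rw [add_assoc]
    exact add_le_add_right hr _

theorem Pres.transport (h : Pres S P n K₀ K α) (hs : SameTp S P Q n) (hP : Gen S P n)
    (h0 : DFld S P n K₀) : Pres S Q n (trF S P Q n K₀) (trF S P Q n K) α := by
  induction h generalizing Q with
  | nil => exact .nil
  | @cons P n E₀ E₁ E' E₂ α' β α f w h1 hf hne hw hb hc hD h12 hst hr ih1 ih2 =>
    obtain ⟨w', hs'⟩ := hs.extend w
    obtain ⟨f', hf'⟩ := exists_tr Q (hD.le hf)
    have aP : Agree P (upd P n w) n := (agree_upd w).symm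
    have aQ : Agree Q (upd Q n w') n := (agree_upd w').symm
    have tf : Tr S (upd P n w) (upd Q n w') (n + 1) f f' :=
      (presB_tr_congr aP aQ hf').mono n.le_succ
    have tw : Tr S (upd P n w) (upd Q n w') (n + 1) w w' := by
      have := Tr.coord (S := S) (P := upd P n w) (Q := upd Q n w') n.lt_succ_self
      rwa [presB_upd_self, presB_upd_self] at this
    have hg := presB_gen hP (hD.le hf) hne hw
    have d1 := h1.dfld h0
    have da := presB_dfld_adj hg d1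
    have d1' : E₁ ≤ dcl S (upd P n w) n := aP.dcl_eq (S := S) ▸ d1.le
    have p2 := ih2 hs' hg da
    rw [hs'.trF_adj (d1'.trans (dcl_mono n.le_succ)) tw, hs'.trF_of_le n.le_succ d1',
      ← presB_trF_congr aP aQ] at p2
    refine .cons (ih1 hs hP h0) (mem_trF.2 ⟨f, hf, hf'⟩) (fun e => hne ((hs'.eq_iff tw tf).2 e))
      ?_ ((hs'.lt_iff tw.abs Tr.one).1 hb) p2 (hs.trF_dfld hP hD) (trF_mono h12) ?_ hr
    · rw [aQ.dcl_eq]
      exact hs'.inf n.le_succ (tw.sub tf) (aP.dcl_eq (S := S) ▸ hw)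
    · refine (trF_mono hst).trans (le_of_eq ?_)
      rw [presB_trF_congr aP aQ, aP.dcl_eq, aQ.dcl_eq]
      exact hs'.trF_stF n.le_succ (hc.dfld da).le

/-- a node whose standard part field is known to be closed under the derivatives -/
theorem Pres.node_pc (hP : Gen S P n) (h1 : DFld S P n K₁) {f w : U} (hf : f ∈ dcl S P n)
    (hne : w ≠ f) (hw : Inf (dcl S P n) (w - f)) (hb : |w| < 1)
    (hc : Pres S (upd P n w) (n + 1) (adj K₁ w) K' β) (hpc : PC S P n (stF (dcl S P n) K')) :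
    Pres S P n K₁ (stF (dcl S P n) K') (omega0 ^ (β + 1)) ∧ f ∈ stF (dcl S P n) K' := by
  have hf' : f ∈ stF (dcl S P n) K' := mem_stF.2 ⟨hf, w, hc.le (mem_adj _ _), hw⟩
  have d := hc.dfld (presB_dfld_adj (presB_gen hP hf hne hw) h1)
  refine ⟨.cons (α' := 0) .nil hf' hne hw hb hc ⟨stF_le, rc_stF rc_dcl d.rc, hpc⟩
    (le_stF h1.le ((le_adj _ _).trans hc.le)) le_rfl (by rw [zero_add]), hf'⟩

/-- a node with first order approximation of the derivatives (pc_stF) -/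
theorem Pres.node (hP : Gen S P n) (h1 : DFld S P n K₁) {f w : U} (hf : f ∈ dcl S P n)
    (hne : w ≠ f) (hw : Inf (dcl S P n) (w - f)) (hb : |w| < 1)
    (hc : Pres S (upd P n w) (n + 1) (adj K₁ w) K' β)
    (hF : ∀ i < n, ∃ F ∈ K', ∃ M ∈ dcl S P n, |F - pd S P n i f| ≤ M * |w - f|) :
    Pres S P n K₁ (stF (dcl S P n) K') (omega0 ^ (β + 1)) ∧ f ∈ stF (dcl S P n) K' := by
  have d := hc.dfld (presB_dfld_adj (presB_gen hP hf hne hw) h1)
  exact Pres.node_pc hP h1 hf hne hw hb hc (pc_stF hP hf hw hne d.le d.pc hF)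

theorem presB_tp_graph (f : Fn k) (y : ℕ → U) : ∀ᶠ ω in 𝔲,
    tp (upd y k (ev f y)) (k + 1) ω = Fin.snoc (tp y k ω) (f (tp y k ω)) := by
  filter_upwards [out_ev f y] with ω h
  rw [tp_upd, h]

theorem presB_ev_graph (f : Fn k) (H : Fn (k + 1)) (y : ℕ → U) :
    ev (fun x => H (Fin.snoc x (f x))) y = ev H (upd y k (ev f y)) :=
  (ev_comp (F := fun x => Fin.snoc x (f x)) (presB_tp_graph f y) H).symm

/-- A solution of a Pfaffian system evaluated at a definable point `y` is a node.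
pd_chain gives pd (f y) = sum F_j(y, f y) pd y_j; approximate by sum F_j(y, w) pd y_j (lip_near). -/
theorem node_at (hP : Gen S P m) (hK : DFld S P m K) (hy : ∀ i < k, y i ∈ K) {f : Fn k}
    {F : ℕ → Fn (k + 1)} (df : DF S f) (dF : ∀ i < k, DF S (F i))
    (hd : At (fun x => DifferentiableAt ℝ f x ∧ ∀ i < k, pdv f i x = F i (Fin.snoc x (f x)) ∧
      DifferentiableAt ℝ (F i) (Fin.snoc x (f x))) y)
    {w : U} (hne : w ≠ ev f y) (hw : Inf (dcl S P m) (w - ev f y)) (hb : |w| < 1)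
    (hc : Pres S (upd P m w) (m + 1) (adj K w) K' β) (hF : ∀ i < k, ev (F i) (upd y k w) ∈ K') :
    ∃ K₂, Pres S P m K K₂ (omega0 ^ (β + 1)) ∧ ev f y ∈ K₂ ∧
      ∀ H : Fn (k + 1), DF S H → At (fun x => ContinuousAt H (Fin.snoc x (f x))) y →
        ev H (upd y k w) ∈ K' → ev (fun x => H (Fin.snoc x (f x))) y ∈ K₂ := by
  have hy' : ∀ i < k, y i ∈ dcl S P m := fun i hi => hK.le (hy i hi)
  have hf : ev f y ∈ dcl S P m := ev_mem hy' df
  have hKK : K ≤ K' := (le_adj _ _).trans hc.le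
  have hyu : ∀ i < k + 1, upd y k (ev f y) i ∈ dcl S P m := by
    intro i hi
    rcases (Nat.lt_succ_iff.1 hi).eq_or_lt with rfl | hi
    · rwa [presB_upd_self]
    · rw [upd_of_ne hi.ne]; exact hy' i hi
  have hlip : ∀ j, ∃ M ∈ dcl S P m, j < k →
      |ev (F j) (upd y k w) - ev (pdv f j) y| ≤ M * |w - ev f y| := by
    intro j
    by_cases hj : j < k
    · have hdj : At (fun x => DifferentiableAt ℝ (F j) x) (upd y k (ev f y)) := by
        filter_upwards [hd, presB_tp_graph f y] with ω h1 h2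
        rw [h2]; exact (h1.2 j hj).2
      obtain ⟨M, hM, h⟩ := lip_near hy' hf hw (dF j hj) hdj
      refine ⟨M, hM, fun _ => ?_⟩
      have e : ev (pdv f j) y = ev (F j) (upd y k (ev f y)) := by
        rw [← presB_ev_graph, ev_eq_iff]
        filter_upwards [hd] with ω h1
        exact (h1.2 j hj).1
      rwa [e]
    · exact ⟨0, zero_mem _, fun h => absurd h hj⟩
  choose M hM hlip using hlip
  obtain ⟨h1, h2⟩ := Pres.node hP hK hf hne hw hb hc fun i _ => by
    refine ⟨∑ j ∈ Finset.range k, ev (F j) (upd y k w) * pd S P m i (y j),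
      sum_mem fun j hj => mul_mem (hF j (Finset.mem_range.1 hj))
        (hKK (hK.pc i _ (hy j (Finset.mem_range.1 hj)))),
      ∑ j ∈ Finset.range k, M j * |pd S P m i (y j)|,
      sum_mem fun j _ => mul_mem (hM j) (abs_mem_if (pd_mem i _)), ?_⟩
    rw [pd_chain hP hy' df (hd.mono fun ω h => h.1) i, ← Finset.sum_sub_distrib, Finset.sum_mul]
    refine (Finset.abs_sum_le_sum_abs _ _).trans (Finset.sum_le_sum fun j hj => ?_)
    rw [← sub_mul, abs_mul, mul_right_comm]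
    exact mul_le_mul_of_nonneg_right (hlip j (Finset.mem_range.1 hj)) (abs_nonneg _)
  refine ⟨_, h1, h2, fun H dH hH hm => ?_⟩
  rw [presB_ev_graph]
  refine mem_stF.2 ⟨ev_mem hyu dH, _, hm, cont_near hyu (fun i hi => ?_) dH ?_⟩
  · rcases (Nat.lt_succ_iff.1 hi).eq_or_lt with rfl | hi
    · rwa [presB_upd_self, presB_upd_self]
    · rw [upd_of_ne hi.ne, upd_of_ne hi.ne, sub_self]; exact Inf.zero _
  · filter_upwards [hH, presB_tp_graph f y] with ω h1 h2
    rw [h2]; exact h1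

/-! ### bounds -/

theorem presB_opow_pos (β : Ordinal.{0}) : 0 < omega0 ^ β :=
  Ordinal.opow_pos _ Ordinal.omega0_pos

theorem presB_absorb {a : Ordinal.{0}} (h : a < α + omega0 ^ β) :
    a + omega0 ^ β ≤ α + omega0 ^ β := by
  rcases le_total a α with h1 | h1
  · exact add_le_add_left h1 _
  · obtain ⟨d, rfl⟩ := exists_add_of_le h1
    rw [add_assoc, Ordinal.add_omega0_opow (lt_of_add_lt_add_left h)]

theorem CloFrom.mono (h : CloFrom n θ) (hm : n ≤ m) : CloFrom m θ :=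
  fun k hk => h k (hm.trans hk)

theorem CloFrom.succ_le (h : CloFrom n θ) (hk : n ≤ k) (h0 : 0 < θ k) : θ (k + 1) ≤ θ k := by
  have := h k hk 0 h0
  rw [zero_add] at this
  exact (Ordinal.right_le_opow _ Ordinal.one_lt_omega0).trans this

theorem CloFrom.add_lt (h : CloFrom n θ) (hk : n ≤ k) (hα : α < θ k)
    (hγ : γ < omega0 ^ θ (k + 1)) : α + γ < θ k :=
  (add_lt_add_right hγ α).trans_le (h k hk α hα)

theorem CloFrom.succ_lt (h : CloFrom n θ) (hk : n ≤ k) (h0 : 0 < θ (k + 1)) (hα : α < θ k) :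
    α + 1 < θ k :=
  h.add_lt hk hα (Ordinal.one_lt_opow.2 ⟨Ordinal.one_lt_omega0, h0.ne'⟩)

theorem Clo.skip (h : Clo θ) (h0 : 0 < θ (n + 1)) : Clo (skip θ n) := by
  intro k _ a ha
  unfold MP_1a1eb7_lc.skip at ha ⊢
  rcases lt_trichotomy k n with hk | rfl | hk
  · rw [if_pos hk.le] at ha ⊢
    rw [if_pos (Nat.succ_le_of_lt hk)]
    exact h k k.zero_le a ha
  · rw [if_pos le_rfl] at ha ⊢
    rw [if_neg (by omega)]
    refine le_trans (add_le_add_right ?_ a) (h k k.zero_le a ha)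
    exact Ordinal.opow_le_opow_right Ordinal.omega0_pos (CloFrom.succ_le h (Nat.zero_le _) h0)
  · rw [if_neg (by omega)] at ha ⊢
    rw [if_neg (by omega)]
    exact h (k + 1) (Nat.zero_le _) a ha

theorem cloFrom_zero : CloFrom n fun _ => 0 := fun _ _ _ ha => absurd ha (not_lt.2 zero_le)

/-- the bounds for the child call -/
theorem cloFrom_child (α β : Ordinal.{0}) (n : ℕ) : CloFrom n fun k =>
    if k = n then α + omega0 ^ (β + 1) else if k = n + 1 then β + 1 else 0 := by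
  intro k hk a ha
  simp only at ha ⊢
  by_cases h1 : k = n
  · subst h1
    rw [if_pos rfl] at ha ⊢
    rw [if_neg (by omega), if_pos rfl]
    exact presB_absorb ha
  · by_cases h2 : k = n + 1
    · subst h2
      rw [if_neg h1, if_pos rfl] at ha ⊢
      rw [if_neg (by omega), if_neg (by omega), Ordinal.opow_zero]
      exact add_le_add_left (Order.lt_add_one_iff.1 ha) _
    · rw [if_neg h1, if_neg h2] at ha
      exact absurd ha (not_lt.2 zero_le)

theorem presB_down (ρ : ℕ → Ordinal.{0}) (n : ℕ) : ∀ φ : ℕ → Ordinal.{0}, CloFrom n φ →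
    ∃ τ, Clo τ ∧ (∀ k < n, τ k = ρ k + omega0 ^ τ (k + 1)) ∧ ∀ k, n ≤ k → τ k = φ k := by
  induction n with
  | zero => exact fun φ h => ⟨φ, h, fun k hk => absurd hk k.not_lt_zero, fun _ _ => rfl⟩
  | succ n ih =>
    intro φ h
    obtain ⟨τ, h1, h2, h3⟩ := ih (Function.update φ n (ρ n + omega0 ^ φ (n + 1))) (by
      intro k hk a ha
      rw [Function.update_of_ne (by omega : k + 1 ≠ n)]
      rcases hk.eq_or_lt with rfl | hk
      · rw [Function.update_self] at ha ⊢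
        exact presB_absorb ha
      · rw [Function.update_of_ne hk.ne'] at ha ⊢
        exact h k hk a ha)
    have h4 : ∀ k, n + 1 ≤ k → τ k = φ k := fun k hk => by
      rw [h3 k (by omega), Function.update_of_ne (by omega)]
    refine ⟨τ, h1, fun k hk => ?_, h4⟩
    rcases (Nat.lt_succ_iff.1 hk).eq_or_lt with rfl | hk
    · rw [h3 k le_rfl, Function.update_self, h4 _ le_rfl]
    · exact h2 k hk

/-- define `τ k = ρ k + ω ^ τ (k+1)` for `k < n` and `τ k = φ k` for `n ≤ k` -/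
theorem shrink (hθ : Clo θ) {φ ρ : ℕ → Ordinal.{0}} (hφ : CloFrom n φ) (hn : φ n < θ n)
    (hρ : ∀ k < n, ρ k < θ k) : ∃ τ, Clo τ ∧ (∀ k < n, ρ k < τ k) ∧ (∀ k ≤ n, τ k < θ k) ∧
      ∀ k, n ≤ k → τ k = φ k := by
  obtain ⟨τ, h1, h2, h3⟩ := presB_down ρ n φ hφ
  refine ⟨τ, h1, fun k hk => ?_, fun k hk => ?_, h3⟩
  · rw [h2 k hk]
    exact lt_add_of_pos_right _ (presB_opow_pos _)
  · induction hk using Nat.decreasingInduction with
    | self => rwa [h3 n le_rfl]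
    | of_succ k hk ih =>
      rw [h2 k hk]
      exact CloFrom.add_lt hθ k.zero_le (hρ k hk)
        ((Ordinal.opow_lt_opow_iff_right Ordinal.one_lt_omega0).2 ih)

theorem exists_clo (ρ : ℕ → Ordinal.{0}) (n : ℕ) : ∃ τ, Clo τ ∧ ∀ k ≤ n, ρ k < τ k := by
  obtain ⟨τ, h1, h2, -⟩ := presB_down ρ (n + 1) _ cloFrom_zero
  refine ⟨τ, h1, fun k hk => ?_⟩
  rw [h2 k (Nat.lt_succ_of_le hk)]
  exact lt_add_of_pos_right _ (presB_opow_pos _)

/-! ### towers -/

theorem presB_base_congr (e : Agree P Q k) (h : ∀ j < k, E j = E' j) :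
    base P E k = base Q E' k := by
  cases k with
  | zero => rfl
  | succ k => simp only [base, e k k.lt_succ_self, h k k.lt_succ_self]

theorem Ext.refl (E : ℕ → Fld) (n : ℕ) : Ext E E n := fun _ _ => le_rfl
theorem Ext.trans {E'' : ℕ → Fld} (h : Ext E E' n) (h' : Ext E' E'' n) : Ext E E'' n :=
  fun k hk => (h k hk).trans (h' k hk)
theorem Ext.mono (h : Ext E E' n) (hm : m ≤ n) : Ext E E' m := fun k hk => h k (hk.trans hm)

theorem Tow.down (h : Tow S θ P n E) (hm : m ≤ n) : Tow S θ P m E :=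
  ⟨h.gen.mono hm, fun i hi => h.bd i (hi.trans_le hm), fun k hk => h.pres k (hk.trans hm)⟩

theorem Tow.pos (h : Tow S θ P n E) (hk : k ≤ n) : 0 < θ k := by
  obtain ⟨α, hα, -⟩ := h.pres k hk
  exact (zero_le (a := α)).trans_lt hα

theorem Tow.dfld (h : Tow S θ P n E) (hk : k ≤ n) : DFld S P k (E k) := by
  induction k with
  | zero =>
    obtain ⟨α, -, hp⟩ := h.pres 0 hk
    exact hp.dfld dfld_bot
  | succ k ih =>
    obtain ⟨α, -, hp⟩ := h.pres (k + 1) hk
    exact hp.dfld (DFld.adj (h.gen.mono hk) (ih (by omega)))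

theorem Tow.dfld_base (h : Tow S θ P n E) (hk : k ≤ n) : DFld S P k (base P E k) := by
  cases k with
  | zero => exact dfld_bot
  | succ k => exact DFld.adj (h.gen.mono hk) (h.dfld (by omega))

theorem presB_adj_le (h : Tow S θ P n E) (hk : k < n) : adj (E k) (P k) ≤ E (k + 1) := by
  obtain ⟨α, -, hp⟩ := h.pres (k + 1) hk
  exact hp.le

theorem Tow.le (h : Tow S θ P n E) (hm : m ≤ k) (hk : k ≤ n) : E m ≤ E k := by
  induction hm with
  | refl => exact le_rfl
  | step _ ih => exact (ih (Nat.le_of_succ_le hk)).trans ((le_adj _ _).trans (presB_adj_le h hk))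

theorem Tow.mem (h : Tow S θ P n E) {i : ℕ} (hi : i < k) (hk : k ≤ n) : P i ∈ E k :=
  h.le hi hk (presB_adj_le h (hi.trans_le hk) (mem_adj _ _))

theorem Tow.mono (h : Tow S θ P n E) (hτ : ∀ k ≤ n, θ k ≤ τ k) : Tow S τ P n E :=
  ⟨h.gen, h.bd, fun k hk => by
    obtain ⟨α, hα, hp⟩ := h.pres k hk
    exact ⟨α, hα.trans_le (hτ k hk), hp⟩⟩

theorem Tow.congr (h : Tow S θ P n E) (e : Agree P Q n) : Tow S θ Q n E :=
  ⟨e.gen h.gen, fun i hi => e i hi ▸ h.bd i hi, fun k hk => by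
    obtain ⟨α, hα, hp⟩ := h.pres k hk
    rw [presB_base_congr (e.mono hk) (E' := E) fun _ _ => rfl] at hp
    exact ⟨α, hα, hp.congr (e.mono hk)⟩⟩

theorem Tow.congr_fld (h : Tow S θ P n E) (e : ∀ k ≤ n, E' k = E k) : Tow S θ P n E' :=
  ⟨h.gen, h.bd, fun k hk => by
    rw [e k hk, presB_base_congr (Agree.refl P k) fun j hj => e j (hj.le.trans hk)]
    exact h.pres k hk⟩

theorem Tow.ranks (h : Tow S θ P n E) : ∃ ρ : ℕ → Ordinal.{0}, (∀ k ≤ n, ρ k < θ k) ∧
    ∀ τ : ℕ → Ordinal.{0}, (∀ k ≤ n, ρ k < τ k) → Tow S τ P n E := by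
  choose! ρ h1 h2 using h.pres
  exact ⟨ρ, h1, fun τ hτ => ⟨h.gen, h.bd, fun k hk => ⟨ρ k, hτ k hk, h2 k hk⟩⟩⟩

theorem Tow.succ (h : Tow S θ P n E) (hg : P n ∉ dcl S P n) (hb : |P n| < 1)
    (hK : Pres S P (n + 1) (adj (E n) (P n)) K α) (hα : α < θ (n + 1)) :
    Tow S θ P (n + 1) (Function.update E (n + 1) K) := by
  refine ⟨h.gen.succ hg, fun i hi => ?_, fun k hk => ?_⟩
  · rcases (Nat.lt_succ_iff.1 hi).eq_or_lt with rfl | hi
    exacts [hb, h.bd i hi]
  · rw [presB_base_congr (Agree.refl P k) (E' := E)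
      fun j hj => Function.update_of_ne (by omega) _ _]
    rcases hk.eq_or_lt with rfl | hk
    · rw [Function.update_self]
      exact ⟨α, hα, hK⟩
    · rw [Function.update_of_ne hk.ne]
      exact h.pres k (Nat.lt_succ_iff.1 hk)

theorem Tow.top (h : Tow S θ P n E) (hK : Pres S P n (base P E n) K α) (hτ : ∀ k < n, θ k ≤ τ k)
    (hα : α < τ n) : Tow S τ P n (Function.update E n K) := by
  refine ⟨h.gen, h.bd, fun k hk => ?_⟩
  rw [presB_base_congr (Agree.refl P k) (E' := E)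
    fun j hj => Function.update_of_ne (by omega) _ _]
  rcases hk.eq_or_lt with rfl | hk
  · rw [Function.update_self]
    exact ⟨α, hα, hK⟩
  · rw [Function.update_of_ne hk.ne]
    obtain ⟨a, ha, hp⟩ := h.pres k hk.le
    exact ⟨a, ha.trans_le (hτ k hk), hp⟩

theorem Tow.extend_top (hθ : CloFrom n θ) (h : Tow S θ P n E) (hK : Pres S P n (E n) K γ)
    (hγ : γ < omega0 ^ θ (n + 1)) : Tow S θ P n (Function.update E n K) := by
  obtain ⟨α, hα, hp⟩ := h.pres n le_rfl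
  exact h.top (hp.trans hK) (fun _ _ => le_rfl) (hθ.add_lt le_rfl hα hγ)

/-- non strict version -/
theorem Tow.extend_top' (hθ : CloFrom n θ) (h : Tow S θ P n E) (hK : Pres S P n (E n) K γ)
    (hγ : γ ≤ omega0 ^ θ (n + 1)) (hτ : ∀ k < n, θ k ≤ τ k) (hn : θ n < τ n) :
    Tow S τ P n (Function.update E n K) := by
  obtain ⟨α, hα, hp⟩ := h.pres n le_rfl
  exact h.top (hp.trans hK) hτ
    (((add_le_add_right hγ α).trans (hθ n le_rfl α hα)).trans_lt hn)

/-- put the upper levels of `E` on top of the bigger lower tower `E'` (base_change) -/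
theorem Tow.reattach (h : Tow S θ₁ P N E) (hn : n ≤ N) (h' : Tow S θ₂ P n E') (he : Ext E E' n)
    (h2 : ∀ k ≤ n, θ₂ k ≤ τ k) (h1 : ∀ k, n < k → k ≤ N → θ₁ k ≤ τ k) :
    ∃ E'', Tow S τ P N E'' ∧ (∀ k ≤ n, E'' k = E' k) ∧ Ext E E'' N := by
  induction N, hn using Nat.le_induction with
  | base => exact ⟨E', h'.mono h2, fun _ _ => rfl, he⟩
  | succ N hn ih =>
    obtain ⟨F, t, e1, e2⟩ := ih (h.down N.le_succ) fun k a b => h1 k a (b.trans N.le_succ)
    obtain ⟨α, hα, hp⟩ := h.pres (N + 1) le_rfl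
    obtain ⟨K', hK', hp'⟩ := hp.base_change h.gen (h.dfld_base le_rfl)
      (DFld.adj h.gen (t.dfld le_rfl)) (adj_mono (e2 N le_rfl) _)
    refine ⟨_, t.succ h.gen.last (h.bd N N.lt_succ_self) hp'
      (hα.trans_le (h1 _ (by omega) le_rfl)), fun k hk => ?_, fun k hk => ?_⟩
    · rw [Function.update_of_ne (by omega), e1 k hk]
    · rcases hk.eq_or_lt with rfl | hk
      · rwa [Function.update_self]
      · rw [Function.update_of_ne hk.ne]
        exact e2 k (Nat.lt_succ_iff.1 hk)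

theorem Tow.transport (h : Tow S θ P n E) (hs : SameTp S P Q n) :
    Tow S θ Q n fun k => trF S P Q k (E k) := by
  refine ⟨hs.gen h.gen, fun i hi => (hs.lt_iff (Tr.coord hi).abs Tr.one).1 (h.bd i hi),
    fun k hk => ?_⟩
  obtain ⟨α, hα, hp⟩ := h.pres k hk
  have hs' := hs.mono hk
  have hp' := hp.transport hs' (h.gen.mono hk) (h.dfld_base hk)
  refine ⟨α, hα, ?_⟩
  convert hp' using 1
  cases k with
  | zero => exact (hs'.trF_fix (n := 0) (fun i hi => absurd hi i.not_lt_zero) le_rfl bot_le).symm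
  | succ k =>
    have hle := (h.dfld (k := k) (by omega)).le
    simp only [base]
    rw [hs'.trF_adj (hle.trans (dcl_mono k.le_succ)) (Tr.coord k.lt_succ_self),
      hs'.trF_of_le k.le_succ hle]

/-- the tower of a cons step: lower part, and the child tower, with smaller closed bounds -/
theorem Tow.child (hθ : Clo θ) (h : Tow S θ P n E) {α' : Ordinal.{0}} {f w : U}
    (h1 : Pres S P n (base P E n) K₁ α') (hf : f ∈ dcl S P n) (hne : w ≠ f)
    (hw : Inf (dcl S P n) (w - f)) (hb : |w| < 1)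
    (hc : Pres S (upd P n w) (n + 1) (adj K₁ w) K' β) (hlt : α' + omega0 ^ (β + 1) < θ n) :
    ∃ τ, Clo τ ∧ (∀ k ≤ n, τ k < θ k) ∧ τ (n + 1) = β + 1 ∧
      Tow S τ (upd P n w) (n + 1) (Function.update (Function.update E n K₁) (n + 1) K') := by
  obtain ⟨ρ, hρ, ht⟩ := h.ranks
  obtain ⟨τ, c1, c2, c3, c4⟩ := shrink (ρ := ρ) hθ (cloFrom_child α' β n) (by simpa using hlt)
    fun k hk => hρ k hk.le
  have e1 : τ (n + 1) = β + 1 := by simpa using c4 (n + 1) n.le_succ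
  have e0 : τ n = α' + omega0 ^ (β + 1) := by simpa using c4 n le_rfl
  have t0 := (ht (fun k => ρ k + 1) fun k _ => lt_add_one _).top (τ := τ) h1
    (fun k hk => Order.add_one_le_iff.2 (c2 k hk))
    (by rw [e0]; exact lt_add_of_pos_right _ (presB_opow_pos _))
  refine ⟨τ, c1, c3, e1, (t0.congr (agree_upd w).symm).succ (α := β)
    (presB_gen h.gen hf hne hw).last (by rwa [presB_upd_self]) ?_ (by rw [e1]; exact lt_add_one _)⟩
  rwa [Function.update_self, presB_upd_self]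

/-- dropping the top level gives room -/
theorem Tow.drop (hθ : Clo θ) (h : Tow S θ P n E) (h0 : 0 < θ (n + 1)) :
    ∃ τ, Clo τ ∧ (∀ k ≤ n, τ k < θ k) ∧ Tow S τ P n E := by
  obtain ⟨ρ, hρ, ht⟩ := h.ranks
  have hφ : CloFrom n fun k => if k = n then ρ n + 1 else 0 := by
    intro k hk a ha
    simp only at ha ⊢
    rw [if_neg (by omega : k + 1 ≠ n), Ordinal.opow_zero]
    split_ifs at ha ⊢ with h1
    · exact add_le_add_left (Order.lt_add_one_iff.1 ha) _
    · exact absurd ha (not_lt.2 zero_le)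
  obtain ⟨τ, c1, c2, c3, c4⟩ := shrink (ρ := ρ) hθ hφ
    (by simpa using CloFrom.succ_lt hθ n.zero_le h0 (hρ n le_rfl)) fun k hk => hρ k hk.le
  refine ⟨τ, c1, c3, ht τ fun k hk => ?_⟩
  rcases hk.eq_or_lt with rfl | hk
  · rw [c4 k le_rfl, if_pos rfl]; exact lt_add_one _
  · exact c2 k hk

/-! ### outputs -/

theorem Out.mono {R R' : Set U} (h : Out S θ n P E K r R) (hτ : ∀ k ≤ r, θ k ≤ τ k) (hm : m ≤ n)
    (hR : R' ⊆ R) : Out S τ m P E K r R' := by
  obtain ⟨Q, E', a, t, hN, e, hr⟩ := h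
  exact ⟨Q, E', a.mono hm, t.mono hτ, hN, e.mono hm, hR.trans hr⟩

theorem Out.of_ext {R : Set U} (h : Out S θ n Q E' K r R) (he : Ext E E' n) (ha : Agree P Q n) :
    Out S θ n P E K r R := by
  obtain ⟨Q', E'', a, t, hN, e, hr⟩ := h
  exact ⟨Q', E'', a.trans ha.symm, t, hN, he.trans e, hr⟩

theorem Out.transport {R R' : Set U} (h : Out S θ n P E (dcl S Z r) r R) (hn : n ≤ r)
    (hs : SameTp S Z Z' r) (ha : Agree Z P n) (ha' : Agree Z' P n)
    (hR : ∀ b ∈ R', ∃ a ∈ R, Tr S Z Z' r a b) : Out S θ n P E (dcl S Z' r) r R' := by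
  obtain ⟨Q, E', a, t, hN, e, hr⟩ := h
  have hex : ∀ i, ∃ b, (i < n → b = P i) ∧ (i < r → Tr S Z Z' r (Q i) b) := by
    intro i
    by_cases h1 : i < n
    · refine ⟨P i, fun _ => rfl, fun hi => ?_⟩
      have := Tr.coord (S := S) (P := Z) (Q := Z') hi
      rw [ha' i h1, ha i h1] at this
      rwa [a i h1]
    · by_cases h2 : i < r
      · obtain ⟨b, hb⟩ := exists_tr Z' (hN i h2)
        exact ⟨b, fun h => absurd h h1, fun _ => hb⟩
      · exact ⟨0, fun h => absurd h h1, fun h => absurd h h2⟩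
  choose Q' q1 q2 using hex
  have hq := (hs.tuple q2).1
  refine ⟨Q', _, q1, t.transport hq, fun i hi => (q2 i hi).mem_right, fun k hk => ?_,
    fun b hb => ?_⟩
  · have hk' := hk.trans hn
    have ag : Agree Q Q' k := fun i hi => (a i (hi.trans_le hk)).trans (q1 i (hi.trans_le hk)).symm
    simp only
    rw [(hq.mono hk').trF_fix ag le_rfl (t.dfld hk').le]
    exact e k hk
  · obtain ⟨x, hx, tr⟩ := hR b hb
    have : b ∈ trF S Z Z' r (E' r) := mem_trF.2 ⟨x, hr hx, tr⟩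
    rw [← hs.trF_tuple q2 (t.dfld le_rfl).le] at this
    exact this

theorem Out.self {R : Set U} (h : Out S θ n P E K n R) :
    ∃ E', Tow S θ P n E' ∧ Ext E E' n ∧ R ⊆ E' n := by
  obtain ⟨Q, E', a, t, -, e, hr⟩ := h
  exact ⟨E', t.congr a, e, hr⟩

end Pool.Agent.Lib.MP_1a1eb7_lc
end

-- part Pool.Agent.Lib.MP_1a1eb7_lc.CtxB1
section

/-! C2, first half: cells of contexts, points, the identity theorem, signs. -/

namespace Pool.Agent.Lib.MP_1a1eb7_lc

open Set Filter Topology Pool.Agent.Shared.OMin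
open Ordinal (omega0)

variable {S : OStr} {Γ : Sys} {θ θ₁ θ₂ τ : ℕ → Ordinal.{0}} {P Q Z Z' y : ℕ → U} {n m k r N : ℕ}
  {E E' : ℕ → Fld} {c c' : Ctx} {α β γ : Ordinal.{0}} {K K₀ K₀' K₁ K₂ K' : Fld}

theorem CtxB.cell_succ (c : Ctx) (k : ℕ) :
    c.cell (k + 1) = band (c.cell k) (c.lo k) (c.hi k) := rfl

theorem CtxB.mem_cell_succ {z : Fin (k + 1) → ℝ} : z ∈ c.cell (k + 1) ↔
    Fin.init z ∈ c.cell k ∧ c.lo k (Fin.init z) < z (Fin.last k) ∧
      z (Fin.last k) < c.hi k (Fin.init z) := Iff.rfl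

theorem CtxB.continuous_init : Continuous fun z : Fin (k + 1) → ℝ => (Fin.init z : Fin k → ℝ) :=
  continuous_pi fun i => continuous_apply i.castSucc

theorem CtxB.continuous_snoc :
    Continuous fun p : (Fin k → ℝ) × ℝ => (Fin.snoc p.1 p.2 : Fin (k + 1) → ℝ) := by
  refine continuous_pi fun i => ?_
  refine Fin.lastCases ?_ (fun j => ?_) i
  · simpa using continuous_snd
  · simp only [Fin.snoc_castSucc]
    exact (continuous_apply j).comp continuous_fst

theorem CtxB.isOpen_band {A : Set (Fin k → ℝ)} {g h : Fn k} (hA : IsOpen A)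
    (hg : ContinuousOn g A) (hh : ContinuousOn h A) : IsOpen (band A g h) := by
  have hO : IsOpen ((fun z : Fin (k + 1) → ℝ => (Fin.init z : Fin k → ℝ)) ⁻¹' A) :=
    hA.preimage CtxB.continuous_init
  have h1 : ContinuousOn (fun z : Fin (k + 1) → ℝ => z (Fin.last k) - g (Fin.init z))
      ((fun z : Fin (k + 1) → ℝ => (Fin.init z : Fin k → ℝ)) ⁻¹' A) :=
    (continuous_apply _).continuousOn.sub
      (hg.comp CtxB.continuous_init.continuousOn fun _ hz => hz)
  have h2 : ContinuousOn (fun z : Fin (k + 1) → ℝ => h (Fin.init z) - z (Fin.last k))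
      ((fun z : Fin (k + 1) → ℝ => (Fin.init z : Fin k → ℝ)) ⁻¹' A) :=
    (hh.comp CtxB.continuous_init.continuousOn fun _ hz => hz).sub
      (continuous_apply _).continuousOn
  have := (h1.isOpen_inter_preimage hO (isOpen_Ioi (a := (0 : ℝ)))).inter
    (h2.isOpen_inter_preimage hO (isOpen_Ioi (a := (0 : ℝ))))
  convert this using 1
  ext z
  simp only [band, mem_ofPred_eq, mem_inter_iff, mem_preimage, mem_Ioi, sub_pos]
  tauto

theorem CtxB.isPreconnected_band {A : Set (Fin k → ℝ)} {g h : Fn k} (hA : IsPreconnected A)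
    (hg : ContinuousOn g A) (hh : ContinuousOn h A) (hlt : ∀ x ∈ A, g x < h x) :
    IsPreconnected (band A g h) := by
  have h1 : IsPreconnected (A ×ˢ Ioo (0 : ℝ) 1) := hA.prod isPreconnected_Ioo
  have hg' : ContinuousOn (fun p : (Fin k → ℝ) × ℝ => g p.1) (A ×ˢ Ioo (0 : ℝ) 1) :=
    hg.comp continuous_fst.continuousOn fun _ hp => hp.1
  have hh' : ContinuousOn (fun p : (Fin k → ℝ) × ℝ => h p.1) (A ×ˢ Ioo (0 : ℝ) 1) :=
    hh.comp continuous_fst.continuousOn fun _ hp => hp.1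
  have h2 : ContinuousOn (fun p : (Fin k → ℝ) × ℝ =>
      (Fin.snoc p.1 (g p.1 + p.2 * (h p.1 - g p.1)) : Fin (k + 1) → ℝ)) (A ×ˢ Ioo (0 : ℝ) 1) :=
    CtxB.continuous_snoc.comp_continuousOn (continuous_fst.continuousOn.prodMk
      (hg'.add (continuous_snd.continuousOn.mul (hh'.sub hg'))))
  convert h1.image _ h2 using 1
  ext z
  constructor
  · rintro ⟨hz, h3, h4⟩
    have hd : 0 < h (Fin.init z) - g (Fin.init z) := sub_pos.2 (hlt _ hz)
    refine ⟨(Fin.init z, (z (Fin.last k) - g (Fin.init z)) / (h (Fin.init z) - g (Fin.init z))),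
      ⟨hz, div_pos (sub_pos.2 h3) hd, (div_lt_one hd).2 (by linarith)⟩, ?_⟩
    have : g (Fin.init z) + (z (Fin.last k) - g (Fin.init z)) / (h (Fin.init z) - g (Fin.init z)) *
        (h (Fin.init z) - g (Fin.init z)) = z (Fin.last k) := by
      rw [div_mul_cancel₀ _ hd.ne']; ring
    simp only [this, Fin.snoc_init_self]
  · rintro ⟨⟨x, t⟩, ⟨hx, h3, h4⟩, rfl⟩
    have hd : 0 < h x - g x := sub_pos.2 (hlt _ hx)
    simp only at hx h3 h4
    refine snoc_mem_band.2 ⟨hx, ?_, ?_⟩ <;> nlinarith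

theorem Sem.down (h : Sem S θ c n) (hm : m ≤ n) : Sem S θ c m where
  fin k hk := h.fin k (hk.trans hm)
  df k hk := h.df k (hk.trans hm)
  an k hk := h.an k (hk.trans hm)
  lo_mem k hk := h.lo_mem k (hk.trans_le hm)
  hi_mem k hk := h.hi_mem k (hk.trans_le hm)
  lt k hk := h.lt k (hk.trans_le hm)
  chain k hk := h.chain k (hk.trans hm)

theorem Sem.mono (h : Sem S θ c n) (hτ : ∀ k ≤ n, θ k ≤ τ k) : Sem S τ c n :=
  { h with
    chain := fun k hk => by
      obtain ⟨a, ha, hc⟩ := h.chain k hk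
      exact ⟨a, ha.trans_le (hτ k hk), hc⟩ }

theorem Sem.pos (h : Sem S θ c n) (hk : k ≤ n) : 0 < θ k := by
  obtain ⟨a, ha, -⟩ := h.chain k hk
  exact lt_of_le_of_lt zero_le ha

theorem Sem.ranks (h : Sem S θ c n) : ∃ ρ : ℕ → Ordinal.{0}, (∀ k ≤ n, ρ k < θ k) ∧
    ∀ τ : ℕ → Ordinal.{0}, (∀ k ≤ n, ρ k < τ k) → Sem S τ c n := by
  choose! ρ h1 h2 using h.chain
  exact ⟨ρ, h1, fun τ hτ => { h with chain := fun k hk => ⟨ρ k, hτ k hk, h2 k hk⟩ }⟩

theorem CtxB.an_lo (h : Sem S θ c n) (hk : k < n) : AnalyticOnNhd ℝ (c.lo k) (c.cell k) :=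
  h.an k hk.le _ (h.lo_mem k hk)

theorem CtxB.an_hi (h : Sem S θ c n) (hk : k < n) : AnalyticOnNhd ℝ (c.hi k) (c.cell k) :=
  h.an k hk.le _ (h.hi_mem k hk)

theorem CtxB.df_lo (h : Sem S θ c n) (hk : k < n) : DF S (c.lo k) :=
  h.df k hk.le _ (h.lo_mem k hk)

theorem CtxB.df_hi (h : Sem S θ c n) (hk : k < n) : DF S (c.hi k) :=
  h.df k hk.le _ (h.hi_mem k hk)

theorem Sem.isOpen (h : Sem S θ c n) (hk : k ≤ n) : IsOpen (c.cell k) := by
  induction k with
  | zero => exact isOpen_univ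
  | succ k ih =>
    exact CtxB.isOpen_band (ih (by omega)) (CtxB.an_lo h hk).continuousOn
      (CtxB.an_hi h hk).continuousOn

theorem Sem.isPreconnected (h : Sem S θ c n) (hk : k ≤ n) : IsPreconnected (c.cell k) := by
  induction k with
  | zero => exact isPreconnected_univ
  | succ k ih =>
    exact CtxB.isPreconnected_band (ih (by omega)) (CtxB.an_lo h hk).continuousOn
      (CtxB.an_hi h hk).continuousOn fun x hx => (h.lt k hk x hx).2.1

theorem Sem.nonempty (h : Sem S θ c n) (hk : k ≤ n) : (c.cell k).Nonempty := by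
  induction k with
  | zero => exact univ_nonempty
  | succ k ih =>
    obtain ⟨x, hx⟩ := ih (by omega)
    have := (h.lt k hk x hx).2.1
    exact ⟨Fin.snoc x ((c.lo k x + c.hi k x) / 2),
      snoc_mem_band.2 ⟨hx, by linarith, by linarith⟩⟩

theorem Sem.dp (h : Sem S θ c n) (hk : k ≤ n) : DP S fun x => x ∈ c.cell k := by
  induction k with
  | zero => exact (DP.const True).congr fun x => by simp [Ctx.cell]
  | succ k ih =>
    have h0 : DF S fun z : Fin (k + 1) → ℝ => (Fin.init z : Fin k → ℝ) := DF.init DF.id'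
    have h1 := (ih (by omega)).comp h0
    have h2 := (CtxB.df_lo h hk).comp h0
    have h3 := (CtxB.df_hi h hk).comp h0
    have h4 : DF S fun z : Fin (k + 1) → ℝ => z (Fin.last k) := DF.apply _
    exact (h1.and ((DP.lt h2 h4).and (DP.lt h4 h3))).congr fun _ => Iff.rfl

theorem Sem.abs_lt (h : Sem S θ c n) (hk : k ≤ n) {x : Fin k → ℝ} (hx : x ∈ c.cell k) (i : Fin k) :
    |x i| < 1 := by
  induction k with
  | zero => exact i.elim0
  | succ k ih =>
    obtain ⟨h1, h2, h3⟩ := hx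
    refine Fin.lastCases ?_ (fun j => ?_) i
    · have := h.lt k hk _ h1
      exact _root_.abs_lt.2 ⟨by linarith, by linarith⟩
    · exact ih (by omega) h1 j

theorem Ctx.has_succ : c.Has (k + 1) y ↔
    c.Has k y ∧ ev (c.lo k) y < y k ∧ y k < ev (c.hi k) y := by
  rw [lt_iff, lt_iff]
  constructor
  · intro h
    refine ⟨?_, ?_, ?_⟩
    · filter_upwards [h] with ω h1
      exact init_tp ω ▸ h1.1
    · filter_upwards [h, out_ev (c.lo k) y] with ω h1 h2
      rw [h2, ← init_tp ω, ← tp_last ω]; exact h1.2.1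
    · filter_upwards [h, out_ev (c.hi k) y] with ω h1 h2
      rw [h2, ← init_tp ω, ← tp_last ω]; exact h1.2.2
  · rintro ⟨h1, h2, h3⟩
    filter_upwards [h1, h2, h3, out_ev (c.lo k) y, out_ev (c.hi k) y] with ω h1 h2 h3 h4 h5
    rw [tp_succ]
    exact snoc_mem_band.2 ⟨h1, h4 ▸ h2, h5 ▸ h3⟩

theorem Ctx.Has.down (h : c.Has n y) (hk : k ≤ n) : c.Has k y := by
  induction n, hk using Nat.le_induction with
  | base => exact h
  | succ n _ ih => exact ih (Ctx.has_succ.1 h).1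

theorem Ctx.Has.congr (h : c.Has n y) (e : Agree y Q n) : c.Has n Q := e.at_iff.1 h

theorem Ctx.Vals.congr (h : c.Vals n y K) (e : Agree y Q n) : c.Vals n Q K :=
  fun φ hφ => e.ev_eq φ ▸ h φ hφ

theorem Ctx.Vals.mono (h : c.Vals n y K) (e : K ≤ K') : c.Vals n y K' := fun φ hφ => e (h φ hφ)

theorem Ctx.has_upd {w : U} : c.Has (k + 1) (upd y k w) ↔
    c.Has k y ∧ ev (c.lo k) y < w ∧ w < ev (c.hi k) y := by
  rw [Ctx.has_succ, upd_self, (agree_upd w).ev_eq, (agree_upd w).ev_eq]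
  exact and_congr_left' (agree_upd w).at_iff

theorem Sem.has_abs_lt (h : Sem S θ c n) (hy : c.Has n y) {i : ℕ} (hi : i < n) : |y i| < 1 := by
  rw [lt_iff]
  filter_upwards [hy, out_abs (y i), out_one] with ω h1 h2 h3
  rw [h2, h3]
  exact h.abs_lt le_rfl h1 ⟨i, hi⟩

theorem Ctx.Le.refl (c : Ctx) (n : ℕ) : c.Le c n := fun _ _ => ⟨Subset.rfl, Subset.rfl⟩

theorem Ctx.Le.trans {c'' : Ctx} (h : c''.Le c' n) (h' : c'.Le c n) : c''.Le c n :=
  fun k hk => ⟨(h k hk).1.trans (h' k hk).1, (h' k hk).2.trans (h k hk).2⟩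

theorem Ctx.Le.down (h : c'.Le c n) (hm : m ≤ n) : c'.Le c m := fun k hk => h k (hk.trans hm)

theorem CtxB.has_of_subset (h : c'.Has k y) (hc : c'.cell k ⊆ c.cell k) : c.Has k y :=
  Filter.Eventually.mono h fun _ hx => hc hx

theorem Pt.down (h : Pt S θ c P n E) (hm : m ≤ n) : Pt S θ c P m E :=
  ⟨h.tow.down hm, h.has.down hm, fun k hk => h.vals k (hk.trans hm)⟩

theorem Pt.congr (h : Pt S θ c P n E) (e : Agree P Q n) : Pt S θ c Q n E :=
  ⟨h.tow.congr e, h.has.congr e, fun k hk => (h.vals k hk).congr (e.mono hk)⟩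

theorem Pt.of_le (h : Pt S θ c' P n E) (hc : c'.Le c n) : Pt S θ c P n E :=
  ⟨h.tow, CtxB.has_of_subset h.has (hc n le_rfl).1,
    fun k hk φ hφ => h.vals k hk φ ((hc k hk).2 hφ)⟩

theorem Pt.of_ext (h : Pt S θ c P n E) (h' : Tow S τ P n E') (he : Ext E E' n) :
    Pt S τ c P n E' := ⟨h', h.has, fun k hk => (h.vals k hk).mono (he k hk)⟩

/-- identity theorem at a generic point -/
theorem ident {C : Set (Fin k → ℝ)} (ho : IsOpen C) (hc : IsPreconnected C) (hP : Gen S P k)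
    (hC : At (fun x => x ∈ C) P) {φ ψ : Fn k} (dφ : DF S φ) (dψ : DF S ψ)
    (aφ : AnalyticOnNhd ℝ φ C) (aψ : AnalyticOnNhd ℝ ψ C) (e : ev φ P = ev ψ P) :
    EqOn φ ψ C := by
  have _ := ho
  have h1 := hP.nhds (DP.eq dφ dψ) (ev_eq_iff.1 e)
  obtain ⟨ω, h2, h3⟩ := (Filter.Eventually.and hC h1).exists
  exact aφ.eqOn_of_preconnected_of_eventuallyEq aψ hc h2 h3

theorem Sem.ident (h : Sem S θ c n) (hk : k ≤ n) (hP : Gen S P k) (hC : c.Has k P) {φ ψ : Fn k}
    (dφ : DF S φ) (dψ : DF S ψ) (aφ : AnalyticOnNhd ℝ φ (c.cell k))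
    (aψ : AnalyticOnNhd ℝ ψ (c.cell k)) (e : ev φ P = ev ψ P) : EqOn φ ψ (c.cell k) :=
  MP_1a1eb7_lc.ident (h.isOpen hk) (h.isPreconnected hk) hP hC dφ dψ aφ aψ e

theorem Tri.pos_of {C : Set (Fin k → ℝ)} {χ : Fn k} (h : Tri χ C) (hC : At (fun x => x ∈ C) y)
    (h0 : 0 < ev χ y) : ∀ x ∈ C, 0 < χ x := by
  obtain ⟨ω, h2, h3⟩ := (Filter.Eventually.and hC (ev_pos_iff.1 h0)).exists
  rcases h with h | h | h
  · exact h
  · exact absurd (h _ h2) (ne_of_gt h3)
  · exact absurd (h _ h2) (not_lt.2 (le_of_lt h3))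

theorem Tri.neg_of {C : Set (Fin k → ℝ)} {χ : Fn k} (h : Tri χ C) (hC : At (fun x => x ∈ C) y)
    (h0 : ev χ y < 0) : ∀ x ∈ C, χ x < 0 := by
  obtain ⟨ω, h2, h3⟩ := (Filter.Eventually.and hC (ev_neg_iff.1 h0)).exists
  rcases h with h | h | h
  · exact absurd (h _ h2) (not_lt.2 (le_of_lt h3))
  · exact absurd (h _ h2) (ne_of_lt h3)
  · exact h

theorem Tri.zero_of {C : Set (Fin k → ℝ)} {χ : Fn k} (h : Tri χ C) (hC : At (fun x => x ∈ C) y)
    (h0 : ev χ y = 0) : ∀ x ∈ C, χ x = 0 := by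
  obtain ⟨ω, h2, h3⟩ := (Filter.Eventually.and hC (ev_eq_zero_iff.1 h0)).exists
  rcases h with h | h | h
  · exact absurd h3 (ne_of_gt (h _ h2))
  · exact h
  · exact absurd h3 (ne_of_lt (h _ h2))

theorem Tri.nonneg_of {C : Set (Fin k → ℝ)} {χ : Fn k} (h : Tri χ C) (hC : At (fun x => x ∈ C) y)
    (h0 : 0 ≤ ev χ y) : ∀ x ∈ C, 0 ≤ χ x := by
  rcases h0.eq_or_lt with h1 | h1
  · exact fun x hx => (h.zero_of hC h1.symm x hx).ge
  · exact fun x hx => (h.pos_of hC h1 x hx).le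

theorem Tri.mono {X : Type} {χ : X → ℝ} {C C' : Set X} (h : Tri χ C) (hC : C' ⊆ C) :
    Tri χ C' := by
  rcases h with h | h | h
  · exact .inl fun x hx => h x (hC hx)
  · exact .inr (.inl fun x hx => h x (hC hx))
  · exact .inr (.inr fun x hx => h x (hC hx))

theorem analyticOnNhd_pdv {C : Set (Fin k → ℝ)} {χ : Fn k} (h : AnalyticOnNhd ℝ χ C) (i : ℕ) :
    AnalyticOnNhd ℝ (pdv χ i) C :=
  (ContinuousLinearMap.apply ℝ ℝ (uv k i)).comp_analyticOnNhd h.fderiv

theorem CtxB.analyticAt_init (z : Fin (k + 1) → ℝ) :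
    AnalyticAt ℝ (fun z : Fin (k + 1) → ℝ => (Fin.init z : Fin k → ℝ)) z :=
  analyticAt_pi_iff.2 fun i =>
    (ContinuousLinearMap.proj (R := ℝ) (φ := fun _ : Fin (k + 1) => ℝ) i.castSucc).analyticAt z

theorem analyticOnNhd_init {C : Set (Fin k → ℝ)} {B : Set (Fin (k + 1) → ℝ)} {χ : Fn k}
    (h : AnalyticOnNhd ℝ χ C) (hB : ∀ z ∈ B, Fin.init z ∈ C) :
    AnalyticOnNhd ℝ (fun z : Fin (k + 1) → ℝ => χ (Fin.init z)) B :=
  fun z hz => AnalyticAt.comp (g := χ) (h _ (hB z hz)) (CtxB.analyticAt_init z)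

theorem analyticOnNhd_snoc {C : Set (Fin k → ℝ)} {B : Set (Fin (k + 1) → ℝ)} {f : Fn k}
    {χ : Fn (k + 1)} (hf : AnalyticOnNhd ℝ f C) (h : AnalyticOnNhd ℝ χ B)
    (hB : ∀ x ∈ C, Fin.snoc x (f x) ∈ B) :
    AnalyticOnNhd ℝ (fun x => χ (Fin.snoc x (f x))) C := by
  intro x hx
  refine AnalyticAt.comp (g := χ) (f := fun x => (Fin.snoc x (f x) : Fin (k + 1) → ℝ))
    (h _ (hB x hx)) (analyticAt_pi_iff.2 fun i => ?_)
  refine Fin.lastCases ?_ (fun j => ?_) i
  · simpa using hf x hx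
  · simp only [Fin.snoc_castSucc]
    exact (ContinuousLinearMap.proj (R := ℝ) (φ := fun _ : Fin k => ℝ) j).analyticAt x

/-- a continuous function without zeros on a connected set has constant sign -/
theorem CtxB.tri_of_ne {C : Set (Fin k → ℝ)} {χ : Fn k} (hc : IsPreconnected C)
    (h : ContinuousOn χ C) (h0 : ∀ x ∈ C, χ x ≠ 0) : Tri χ C := by
  by_contra hn
  simp only [Tri, not_or, not_forall, not_lt] at hn
  obtain ⟨⟨x, hx, h1⟩, -, ⟨z, hz, h2⟩⟩ := hn
  obtain ⟨u, hu, h3⟩ := hc.intermediate_value hx hz h ⟨h1, h2⟩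
  exact h0 u hu h3

/-- a represented inverse gives constant signs -/
theorem CtxB.sg_of_rep (h : Sem S θ c n) (hk : k ≤ n) (hP : Gen S P k) (hC : c.Has k P) {e : U}
    (he : c.Rep k P e⁻¹) : Sg S c k P e := by
  intro χ dχ aχ eχ
  by_cases h0 : e = 0
  · refine .inr (.inl (h.ident hk hP hC dχ (DF.const 0) aχ analyticOnNhd_const ?_))
    rw [eχ, h0, ev_const, map_zero]
  · obtain ⟨ψ, hψ, eψ⟩ := he
    have h1 := h.ident hk hP hC (φ := fun x => ψ x * χ x) (ψ := fun _ => 1)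
      ((h.df k hk ψ hψ).mul dχ) (DF.const 1) ((h.an k hk ψ hψ).mul aχ) analyticOnNhd_const
      (by rw [ev_mul, eψ, eχ, inv_mul_cancel₀ h0, ev_const, map_one])
    refine CtxB.tri_of_ne (h.isPreconnected hk) aχ.continuousOn fun x hx hx0 => ?_
    have := h1 hx
    simp [hx0] at this

end Pool.Agent.Lib.MP_1a1eb7_lc
end
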