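import Pool.Agent.Lib.MP_1a1eb7_lc.VS1

/-! D1b: the bounded coordinate, bounded cells, general cells. -/

namespace Pool.Agent.Lib.MP_1a1eb7_lc

open Set Filter Topology Pool.Agent.Shared.OMin

variable {S : OStr} {s : Bool} {m d n : ℕ} {A : Set (Fin m → ℝ)} {f g : Fn m}
  {o : Option (Fn m)} {P y : ℕ → U}

/-! ### the bounded coordinate -/

theorem vsb_rho_eq (t : ℝ) : rho t = Real.sin (Real.arctan t) := (Real.sin_arctan t).symm

theorem vsb_rhoi_eq (u : ℝ) : rhoi u = Real.tan (Real.arcsin u) := (Real.tan_arcsin u).symm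

theorem vsb_one_sub (t : ℝ) : 1 - rho t ^ 2 = Real.cos (Real.arctan t) ^ 2 := by
  rw [vsb_rho_eq, Real.cos_sq']

theorem abs_rho_lt (t : ℝ) : |rho t| < 1 := by
  have h := vsb_one_sub t
  have h2 := pow_pos (Real.cos_arctan_pos t) 2
  exact (sq_lt_one_iff_abs_lt_one _).1 (by linarith)

theorem rhoi_rho (t : ℝ) : rhoi (rho t) = t := by
  rw [vsb_rhoi_eq, vsb_rho_eq, Real.arcsin_sin (Real.neg_pi_div_two_lt_arctan t).le
    (Real.arctan_lt_pi_div_two t).le, Real.tan_arctan]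

theorem rho_rhoi {u : ℝ} (h : |u| < 1) : rho (rhoi u) = u := by
  obtain ⟨h1, h2⟩ := abs_lt.1 h
  rw [vsb_rhoi_eq, vsb_rho_eq, Real.arctan_tan (Real.neg_pi_div_two_lt_arcsin.2 h1)
    (Real.arcsin_lt_pi_div_two.2 h2), Real.sin_arcsin h1.le h2.le]

theorem rho_strictMono : StrictMono rho := fun a b h => by
  rw [vsb_rho_eq, vsb_rho_eq]
  exact Real.strictMonoOn_sin
    ⟨(Real.neg_pi_div_two_lt_arctan a).le, (Real.arctan_lt_pi_div_two a).le⟩
    ⟨(Real.neg_pi_div_two_lt_arctan b).le, (Real.arctan_lt_pi_div_two b).le⟩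
    (Real.arctan_strictMono h)

theorem analyticAt_rho (t : ℝ) : AnalyticAt ℝ rho t := by
  have h : (0 : ℝ) < 1 + t ^ 2 := by positivity
  exact (ContDiffAt.div contDiffAt_id (ContDiffAt.sqrt (f := fun t : ℝ => 1 + t ^ 2) (x := t)
    (by fun_prop) h.ne') (Real.sqrt_pos.2 h).ne').analyticAt

theorem analyticAt_rhoi {u : ℝ} (h : |u| < 1) : AnalyticAt ℝ rhoi u := by
  have h : (0 : ℝ) < 1 - u ^ 2 := sub_pos.2 ((sq_lt_one_iff_abs_lt_one _).2 h)
  exact (ContDiffAt.div contDiffAt_id (ContDiffAt.sqrt (f := fun t : ℝ => 1 - t ^ 2) (x := u)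
    (by fun_prop) h.ne') (Real.sqrt_pos.2 h).ne').analyticAt

theorem df_rho (S : OStr) : DF S rho :=
  DF.id'.div ((DF.const 1).add (DF.id'.pow 2)).sqrt

theorem df_rhoi (S : OStr) : DF S rhoi :=
  DF.id'.div ((DF.const 1).sub (DF.id'.pow 2)).sqrt

theorem hasDerivAt_rho (t : ℝ) :
    HasDerivAt rho ((1 - rho t ^ 2) * √(1 - rho t ^ 2)) t := by
  have h := (Real.hasDerivAt_arctan t).sin
  rw [show rho = fun t => Real.sin (Real.arctan t) from funext vsb_rho_eq]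
  refine h.congr_deriv ?_
  rw [← Real.cos_sq', Real.sqrt_sq (Real.cos_arctan_pos t).le, Real.cos_sq_arctan, mul_comm]

theorem VS.rho (h : VS m A (some f)) : VS m A (some fun x => rho (f x)) := by
  have h0 : ∀ x ∈ A, (0 : ℝ) < 1 + f x * f x := fun x _ => by nlinarith [mul_self_nonneg (f x)]
  refine (h.mul ((((VS.const 1 h.cell).add (h.mul h)).sqrt h0).inv
    fun x hx => (Real.sqrt_pos.2 (h0 x hx)).ne')).congr fun x _ => ?_
  simp only [MP_1a1eb7_lc.rho, div_eq_mul_inv, sq]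

theorem VS.rhoi (h : VS m A (some f)) (hb : ∀ x ∈ A, |f x| < 1) :
    VS m A (some fun x => rhoi (f x)) := by
  have h0 : ∀ x ∈ A, (0 : ℝ) < 1 - f x * f x := fun x hx => by
    have := (sq_lt_one_iff_abs_lt_one _).2 (hb x hx)
    nlinarith
  refine (h.mul ((((VS.const 1 h.cell).sub (h.mul h)).sqrt h0).inv
    fun x hx => (Real.sqrt_pos.2 (h0 x hx)).ne')).congr fun x _ => ?_
  simp only [MP_1a1eb7_lc.rhoi, div_eq_mul_inv, sq]

theorem vsb_band_eq : band A f g = eband A (some f) (some g) := by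
  ext z
  simp [band, eband]

theorem vsb_snoc_mem {g h : Option (Fn m)} {x : Fin m → ℝ} {t : ℝ} :
    (Fin.snoc x t : Fin (m + 1) → ℝ) ∈ eband A g h ↔
      x ∈ A ∧ (∀ g' ∈ g, g' x < t) ∧ ∀ h' ∈ h, t < h' x := by
  simp only [eband, mem_ofPred_eq, Fin.init_snoc, Fin.snoc_last]

theorem vsb_fibre {g h : Option (Fn m)} (hlt : ∀ g' ∈ g, ∀ h' ∈ h, ∀ x ∈ A, g' x < h' x)
    {x : Fin m → ℝ} (hx : x ∈ A) : ∃ t, (Fin.snoc x t : Fin (m + 1) → ℝ) ∈ eband A g h := by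
  simp only [vsb_snoc_mem]
  rcases g with _ | g <;> rcases h with _ | h
  · exact ⟨0, hx, by simp, by simp⟩
  · exact ⟨h x - 1, hx, by simp, by simp⟩
  · exact ⟨g x + 1, hx, by simp, by simp⟩
  · obtain ⟨t, h1, h2⟩ := exists_between (hlt g rfl h rfl x hx)
    exact ⟨t, hx, by simpa using h1, by simpa using h2⟩

theorem BCell.vs (h : BCell m A) : VS m A none := by
  induction h with
  | point => exact VS.point
  | band _ hg hh hlt _ _ ih =>
    rw [vsb_band_eq]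
    refine VS.band ih (by simpa using hg) (by simpa using hh) ?_
    rintro _ ⟨⟩ _ ⟨⟩
    exact hlt

theorem BCell.abs_lt (h : BCell m A) : ∀ x ∈ A, ∀ i, |x i| < 1 := by
  induction h with
  | point => exact fun _ _ i => i.elim0
  | band _ _ _ _ h1 h2 ih =>
    intro z hz i
    refine Fin.lastCases ?_ (fun j => ih _ hz.1 j) i
    have k1 := h1.elim (fun h => (h _ hz.1).ge) fun h => (h _ hz.1).le
    have k2 := h2.elim (fun h => (h _ hz.1).le) fun h => (h _ hz.1).le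
    exact _root_.abs_lt.2 ⟨k1.trans_lt hz.2.1, hz.2.2.trans_le k2⟩

theorem vsb_rhoi_lt {u t : ℝ} (h : |u| < 1) : rhoi u < t ↔ u < rho t := by
  rw [← rho_strictMono.lt_iff_lt, rho_rhoi h]

theorem vsb_lt_rhoi {u t : ℝ} (h : |u| < 1) : t < rhoi u ↔ rho t < u := by
  rw [← rho_strictMono.lt_iff_lt, rho_rhoi h]

/-- the preimage of a bounded cell under coordinatewise `rho` is a cell -/
theorem BCell.pull (h : BCell m A) : VS m {x | (fun i => rho (x i)) ∈ A} none := by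
  induction h with
  | point => exact VS.point
  | @band m A g h _ hg hh hlt h1 h2 ih =>
    have hπ : ∀ i, VS m {x | (fun i => rho (x i)) ∈ A} (some fun x => rho (x i)) :=
      fun i => (VS.coord i ih).rho
    have k1 : ∀ x ∈ A, -1 ≤ g x := fun x hx => h1.elim (fun h => (h _ hx).ge) fun h => (h _ hx).le
    have k2 : ∀ x ∈ A, h x ≤ 1 := fun x hx => h2.elim (fun h => (h _ hx).le) fun h => (h _ hx).le
    obtain ⟨g', vg, eg⟩ : ∃ g' : Option (Fn m),
        (∀ φ ∈ g', VS m {x | (fun i => rho (x i)) ∈ A} (some φ)) ∧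
        ∀ x : Fin m → ℝ, (fun i => rho (x i)) ∈ A → ∀ t,
          (∀ φ ∈ g', φ x < t) ↔ g (fun i => rho (x i)) < rho t := by
      rcases h1 with h1 | h1
      · refine ⟨none, by simp, fun x hx t => ?_⟩
        simpa [h1 _ hx] using (_root_.abs_lt.1 (abs_rho_lt t)).1
      · have hb : ∀ x ∈ A, |g x| < 1 := fun x hx =>
          _root_.abs_lt.2 ⟨h1 x hx, (hlt x hx).trans_le (k2 x hx)⟩
        refine ⟨some fun x => rhoi (g fun i => rho (x i)), ?_, fun x hx t => ?_⟩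
        · rintro _ ⟨⟩
          exact (hg.superpose ih hπ fun _ hx => hx).rhoi fun x hx => hb _ hx
        · simpa using vsb_rhoi_lt (hb _ hx)
    obtain ⟨h', vh, eh⟩ : ∃ h' : Option (Fn m),
        (∀ φ ∈ h', VS m {x | (fun i => rho (x i)) ∈ A} (some φ)) ∧
        ∀ x : Fin m → ℝ, (fun i => rho (x i)) ∈ A → ∀ t,
          (∀ φ ∈ h', t < φ x) ↔ rho t < h (fun i => rho (x i)) := by
      rcases h2 with h2 | h2
      · refine ⟨none, by simp, fun x hx t => ?_⟩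
        simpa [h2 _ hx] using (_root_.abs_lt.1 (abs_rho_lt t)).2
      · have hb : ∀ x ∈ A, |h x| < 1 := fun x hx =>
          _root_.abs_lt.2 ⟨(k1 x hx).trans_lt (hlt x hx), h2 x hx⟩
        refine ⟨some fun x => rhoi (h fun i => rho (x i)), ?_, fun x hx t => ?_⟩
        · rintro _ ⟨⟩
          exact (hh.superpose ih hπ fun _ hx => hx).rhoi fun x hx => hb _ hx
        · simpa using vsb_lt_rhoi (hb _ hx)
    have e : {z : Fin (m + 1) → ℝ | (fun i => rho (z i)) ∈ MP_1a1eb7_lc.band A g h} =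
        eband {x | (fun i => rho (x i)) ∈ A} g' h' := by
      ext z
      exact and_congr_right fun hz => and_congr (eg _ hz _).symm (eh _ hz _).symm
    rw [e]
    refine VS.band ih vg vh ?_
    rintro φ rfl ψ rfl x hx
    by_contra hc
    have a1 := (eg x hx (φ x)).not.1 (by simp)
    have a2 := (eh x hx (φ x)).not.1 (by simpa using hc)
    linarith [hlt _ hx]

/-- the class of bounded cells as an abstract system: Cell = BCell, Pf m A f = BCell m A and VS -/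
theorem exists_sys : ∃ Γ : Sys, ∀ (m : ℕ) (A : Set (Fin m → ℝ)), Γ.Cell m A →
    VS m {x | (fun i => rho (x i)) ∈ A} none :=
  ⟨{ Cell := BCell
     Pf := fun m A f => BCell m A ∧ VS m A (some f)
     zero := BCell.point
     band := fun h hg hh hlt h1 h2 => BCell.band h hg.2 hh.2 hlt h1 h2
     const := fun c h => ⟨h, VS.const c h.vs⟩
     coord := fun i h => ⟨h, VS.coord i h.vs⟩
     add := fun h h' => ⟨h.1, h.2.add h'.2⟩
     mul := fun h h' => ⟨h.1, h.2.mul h'.2⟩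
     congr := fun h e => ⟨h.1, h.2.congr e⟩
     alg := fun d c h hc ha h1 h2 h3 => ⟨h, VS.alg d c (fun i => (hc i).2) ha h1 h2 h3⟩
     lift := fun h hB hs => ⟨hB, h.2.lift hB.vs hs⟩
     comp := fun h h' hs => ⟨h.1, h.2.comp h'.2 hs⟩
     ode := fun F h hB ha hF h1 h2 => ⟨h, VS.ode F h.vs hB.vs ha (fun i hi => (hF i hi).2) h1 h2⟩ },
    fun _ _ h => BCell.pull h⟩

/-! ### general cells -/

variable {Pf Pf' : (m : ℕ) → Set (Fin m → ℝ) → Option (Fn m) → Prop} {A₀ : Set (Fin d → ℝ)}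
  {ι : (Fin d → ℝ) → Fin m → ℝ}

theorem GCell.mono (h : GCell Pf m d A₀ ι) (hP : ∀ m A f, Pf m A (some f) → Pf' m A (some f)) :
    GCell Pf' m d A₀ ι := by
  induction h with
  | point => exact GCell.point
  | graph _ hf ih => exact ih.graph (hP _ _ _ hf)
  | band _ hg hh hlt ih =>
    exact ih.band (fun φ h => hP _ _ _ (hg φ h)) (fun φ h => hP _ _ _ (hh φ h)) hlt

theorem GCell.exists_proj (h : GCell Pf m d A₀ ι) :
    ∃ σ : Fin d → Fin m, ∀ x, (fun i => ι x (σ i)) = x := by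
  induction h with
  | point => exact ⟨id, fun _ => rfl⟩
  | graph _ _ ih =>
    obtain ⟨σ, hσ⟩ := ih
    exact ⟨fun i => (σ i).castSucc, fun x => by simpa using hσ x⟩
  | band _ _ _ _ ih =>
    obtain ⟨σ, hσ⟩ := ih
    refine ⟨Fin.snoc (fun i => (σ i).castSucc) (Fin.last _), fun z => funext fun i => ?_⟩
    refine Fin.lastCases ?_ (fun j => ?_) i
    · simp
    · simpa [Fin.init] using congrFun (hσ (Fin.init z)) j

theorem GCell.vs (h : GCell VS m d A₀ ι) :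
    VS d A₀ none ∧ ∀ i, VS d A₀ (some fun x => ι x i) := by
  induction h with
  | point => exact ⟨VS.point, fun i => i.elim0⟩
  | graph _ hf ih =>
    refine ⟨ih.1, fun i => Fin.lastCases ?_ (fun j => ?_) i⟩
    · simpa using hf
    · simpa using ih.2 j
  | band _ hg hh hlt ih =>
    have hB := VS.band ih.1 hg hh hlt
    refine ⟨hB, fun i => Fin.lastCases ?_ (fun j => ?_) i⟩
    · simpa using VS.coord (Fin.last _) hB
    · simpa using (ih.2 j).lift hB fun z hz => hz.1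

theorem GCell.pff (h : GCell (Pff s) m d A₀ ι) : Pff s d A₀ none := by
  induction h with
  | point => exact Pff.point
  | graph _ _ ih => exact ih
  | band _ hg hh hlt ih => exact ih.band hg hh hlt

theorem GCell.restrict (h : GCell VS m d A₀ ι) {A₁ : Set (Fin d → ℝ)} (h1 : VS d A₁ none)
    (hs : A₁ ⊆ A₀) : GCell VS m d A₁ ι := by
  induction h with
  | point =>
    rw [Subsingleton.eq_univ_of_nonempty h1.basic.2.1]
    exact GCell.point
  | graph _ hf ih => exact (ih h1 hs).graph (hf.restrict h1 hs)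
  | band _ _ _ _ ih =>
    obtain ⟨A', g', h', rfl, hA', hg, hh, hlt⟩ := h1.inv_band
    refine (ih hA' fun x hx => ?_).band hg hh hlt
    obtain ⟨t, ht⟩ := vsb_fibre hlt hx
    exact (vsb_snoc_mem.1 (hs ht)).1

theorem Pff.gcell (h : Pff s m A none) : GCell (Pff s) m m A id := by
  induction m with
  | zero =>
    cases h
    exact GCell.point
  | succ m ih =>
    cases h with
    | band hA hg hh hlt =>
      have := (ih hA).band hg hh hlt
      simp only [id_eq, Fin.snoc_init_self] at this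
      exact this

theorem IsCell.toPff (h : IsCell VS m A) (s : Bool) : IsCell (Pff s) m A := by
  obtain ⟨d, A₀, ι, h1, h2⟩ := h
  exact ⟨d, A₀, ι, h1.mono fun _ _ _ h => h.toPff s, h2⟩

theorem IsPf.toPff (h : IsPf VS m A f) (s : Bool) : IsPf (Pff s) m A f := by
  obtain ⟨d, A₀, ι, h1, h2, h3⟩ := h
  exact ⟨d, A₀, ι, h1.mono fun _ _ _ h => h.toPff s, h2, h3.toPff s⟩

theorem IsCell.nonempty (h : IsCell VS m A) : A.Nonempty := by
  obtain ⟨d, A₀, ι, h1, rfl⟩ := h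
  exact h1.vs.1.basic.2.1.image _

theorem IsCell.isPf_zero (h : IsCell VS m A) : IsPf VS m A fun _ => 0 := by
  obtain ⟨d, A₀, ι, h1, h2⟩ := h
  exact ⟨d, A₀, ι, h1, h2, VS.const 0 h1.vs.1⟩

/-- restriction to a general subcell -/
theorem IsPf.restrict (h : IsPf VS m A f) (h' : GCell VS m d A₀ ι) (hs : ι '' A₀ ⊆ A) :
    VS d A₀ (some (f ∘ ι)) := by
  obtain ⟨d₁, A₁, ι₁, h1, rfl, h3⟩ := h
  obtain ⟨σ, hσ⟩ := h1.exists_proj
  have key : ∀ x ∈ A₀, (fun i => ι x (σ i)) ∈ A₁ ∧ ι₁ (fun i => ι x (σ i)) = ι x := by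
    intro x hx
    obtain ⟨u, hu, e⟩ := hs (mem_image_of_mem ι hx)
    rw [← e, hσ]
    exact ⟨hu, rfl⟩
  refine (h3.superpose h'.vs.1 (π := fun x i => ι x (σ i)) (fun i => h'.vs.2 (σ i))
    fun x hx => (key x hx).1).congr fun x hx => ?_
  simp only [Function.comp_apply, (key x hx).2]

theorem vsb_graph_eq (f : Fn m) : (fun x => (Fin.snoc (ι x) (f (ι x)) : Fin (m + 1) → ℝ)) '' A₀ =
    {z : Fin (m + 1) → ℝ | Fin.init z ∈ ι '' A₀ ∧ z (Fin.last m) = f (Fin.init z)} := by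
  ext z
  constructor
  · rintro ⟨x, hx, rfl⟩
    simpa using ⟨x, hx, rfl⟩
  · rintro ⟨⟨x, hx, e⟩, e'⟩
    exact ⟨x, hx, by simp only [e, ← e', Fin.snoc_init_self]⟩

theorem vsb_band_image (g h : Option (Fn m)) :
    (fun z : Fin (d + 1) → ℝ => (Fin.snoc (ι (Fin.init z)) (z (Fin.last d)) : Fin (m + 1) → ℝ)) ''
      eband A₀ (g.map (· ∘ ι)) (h.map (· ∘ ι)) = eband (ι '' A₀) g h := by
  ext z
  constructor
  · rintro ⟨w, ⟨h1, h2, h3⟩, rfl⟩
    exact vsb_snoc_mem.2 ⟨mem_image_of_mem _ h1,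
      fun φ hφ => h2 _ (Option.mem_map_of_mem _ hφ), fun φ hφ => h3 _ (Option.mem_map_of_mem _ hφ)⟩
  · rintro ⟨⟨x, hx, e⟩, h2, h3⟩
    refine ⟨Fin.snoc x (z (Fin.last m)), vsb_snoc_mem.2 ⟨hx, fun φ hφ => ?_, fun φ hφ => ?_⟩, ?_⟩
    · obtain ⟨ψ, hψ, rfl⟩ := Option.mem_map.1 hφ
      simpa [e] using h2 ψ hψ
    · obtain ⟨ψ, hψ, rfl⟩ := Option.mem_map.1 hφ
      simpa [e] using h3 ψ hψ
    · simp only [Fin.init_snoc, Fin.snoc_last, e, Fin.snoc_init_self]

/-- structure of a general cell in dimension `m+1` -/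
theorem IsCell.inv {C : Set (Fin (m + 1) → ℝ)} (h : IsCell VS (m + 1) C) :
    ∃ A, IsCell VS m A ∧ ((∃ f, IsPf VS m A f ∧
        C = {z : Fin (m + 1) → ℝ | Fin.init z ∈ A ∧ z (Fin.last m) = f (Fin.init z)}) ∨
      ∃ g h : Option (Fn m), (∀ g' ∈ g, IsPf VS m A g') ∧ (∀ h' ∈ h, IsPf VS m A h') ∧
        C = eband A g h) := by
  obtain ⟨d, A₀, ι, h1, rfl⟩ := h
  cases h1 with
  | @graph _ _ _ ι f h0 hf =>
    obtain ⟨σ, hσ⟩ := h0.exists_proj
    have e : (fun y => f fun i => y (σ i)) ∘ ι = f := funext fun x => congrArg f (hσ x)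
    refine ⟨_, ⟨_, _, _, h0, rfl⟩, .inl ⟨fun y => f fun i => y (σ i),
      ⟨_, _, _, h0, rfl, e.symm ▸ hf⟩, ?_⟩⟩
    refine Eq.trans ?_ (vsb_graph_eq fun y => f fun i => y (σ i))
    simp only [hσ]
  | @band _ d A ι g h h0 hg hh hlt =>
    obtain ⟨σ, hσ⟩ := h0.exists_proj
    have e : ∀ f : Fn d, (fun y => f fun i => y (σ i)) ∘ ι = f :=
      fun f => funext fun x => congrArg f (hσ x)
    have e' : ∀ o : Option (Fn d),
        (o.map fun f (y : Fin m → ℝ) => f fun i => y (σ i)).map (· ∘ ι) = o := by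
      rintro (_ | f)
      · rfl
      · exact congrArg some (e f)
    refine ⟨_, ⟨_, _, _, h0, rfl⟩, .inr ⟨g.map fun f y => f fun i => y (σ i),
      h.map fun f y => f fun i => y (σ i), fun φ hφ => ?_, fun φ hφ => ?_, ?_⟩⟩
    · obtain ⟨ψ, hψ, rfl⟩ := Option.mem_map.1 hφ
      exact ⟨_, _, _, h0, rfl, (e ψ).symm ▸ hg ψ hψ⟩
    · obtain ⟨ψ, hψ, rfl⟩ := Option.mem_map.1 hφ
      exact ⟨_, _, _, h0, rfl, (e ψ).symm ▸ hh ψ hψ⟩
    · rw [← vsb_band_image, e', e']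

theorem IsPf.graph (h : IsPf VS m A f) :
    IsCell VS (m + 1) {z | Fin.init z ∈ A ∧ z (Fin.last m) = f (Fin.init z)} := by
  obtain ⟨d, A₀, ι, h1, rfl, h3⟩ := h
  exact ⟨d, A₀, _, h1.graph h3, (vsb_graph_eq f).symm⟩

theorem IsCell.band_cell (hA : IsCell VS m A) {g h : Option (Fn m)} (hg : ∀ g' ∈ g, IsPf VS m A g')
    (hh : ∀ h' ∈ h, IsPf VS m A h') (hlt : ∀ g' ∈ g, ∀ h' ∈ h, ∀ x ∈ A, g' x < h' x) :
    IsCell VS (m + 1) (eband A g h) := by
  obtain ⟨d, A₀, ι, h1, rfl⟩ := hA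
  refine ⟨d + 1, _, _, h1.band (g := g.map (· ∘ ι)) (h := h.map (· ∘ ι)) (fun φ hφ => ?_)
    (fun φ hφ => ?_) fun φ hφ φ' hφ' x hx => ?_, (vsb_band_image g h).symm⟩
  · obtain ⟨ψ, hψ, rfl⟩ := Option.mem_map.1 hφ
    exact (hg ψ hψ).restrict h1 Subset.rfl
  · obtain ⟨ψ, hψ, rfl⟩ := Option.mem_map.1 hφ
    exact (hh ψ hψ).restrict h1 Subset.rfl
  · obtain ⟨ψ, hψ, rfl⟩ := Option.mem_map.1 hφ
    obtain ⟨ψ', hψ', rfl⟩ := Option.mem_map.1 hφ'
    exact hlt ψ hψ ψ' hψ' _ (mem_image_of_mem _ hx)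

end Pool.Agent.Lib.MP_1a1eb7_lc
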