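import Pool.Agent.Lib.MP_1a1eb7_lc.Pre1
import Pool.Agent.Lib.MP_1a1eb7_lc.VSB
import Pool.Agent.Lib.MP_1a1eb7_lc.CtxB1

/-! D2b: values of Pfaffian functions can be presented. -/

namespace Pool.Agent.Lib.MP_1a1eb7_lc

open Set Filter Topology Pool.Agent.Shared.OMin

variable {S : OStr} {s : Bool} {m d n : ℕ} {A : Set (Fin m → ℝ)} {f g : Fn m}
  {o : Option (Fn m)} {P y : ℕ → U}

/-- a differential algebra of definable analytic functions on `A` whose values at any point of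
`A` can be presented simultaneously -/
structure DAlg (S : OStr) (A : Set (Fin m → ℝ)) (R : Subalgebra ℝ (Fn m)) : Prop where
  df : ∀ φ ∈ R, DF S φ
  an : ∀ φ ∈ R, AnalyticOnNhd ℝ φ A
  pd : ∀ φ ∈ R, ∀ i, ∃ ψ ∈ R, EqOn ψ (pdv φ i) A
  pres : ∀ (P : ℕ → U) (n : ℕ) (y : ℕ → U) (E : Fld), Gen S P n → DFld S P n E →
    (∀ i < m, y i ∈ E) → At (fun x => x ∈ A) y →
    ∃ E' α, Pres S P n E E' α ∧ ∀ φ ∈ R, ev φ y ∈ E'

/-- evaluation at a point as an algebra map -/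
noncomputable def pre2_evH (m : ℕ) (y : ℕ → U) : Fn m →ₐ[ℝ] U where
  toFun φ := ev φ y
  map_one' := ev_one'
  map_zero' := ev_zero'
  map_mul' φ ψ := ev_mul φ ψ y
  map_add' φ ψ := ev_add φ ψ y
  commutes' r := ev_const r y

theorem pre2_pdv_ge {i : ℕ} (hi : m ≤ i) (φ : Fn m) (x : Fin m → ℝ) : pdv φ i x = 0 := by
  have : uv m i = 0 := funext fun j => if_neg (by omega)
  rw [pdv, this, map_zero]

theorem pre2_pdv_congr (hA : IsOpen A) (e : EqOn f g A) (i : ℕ) : EqOn (pdv f i) (pdv g i) A :=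
  fun _ hx => by
    simp only [pdv, (e.eventuallyEq_of_mem (hA.mem_nhds hx)).fderiv_eq]

theorem pre2_pdv_snoc {H : Fn (m + 1)} {x : Fin m → ℝ} (hf : DifferentiableAt ℝ f x)
    (hH : DifferentiableAt ℝ H (Fin.snoc x (f x))) {i : ℕ} (hi : i < m) :
    pdv (fun x => H (Fin.snoc x (f x))) i x =
      pdv H i (Fin.snoc x (f x)) + pdv H m (Fin.snoc x (f x)) * pdv f i x := by
  have e : ∀ x, snocL m 1 (x, f x) = Fin.snoc x (f x) := fun x => by rw [snocL_apply, one_mul]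
  have h1 := (snocL m 1).hasFDerivAt.comp x ((hasFDerivAt_id x).prodMk hf.hasFDerivAt)
  have h2 : HasFDerivAt (fun x => H (snocL m 1 (x, f x))) _ x :=
    (e x ▸ hH).hasFDerivAt.comp x h1
  simp only [e] at h2
  have h3 : (uv m i, fderiv ℝ f x (uv m i)) =
      (uv m i, (0 : ℝ)) + fderiv ℝ f x (uv m i) • ((0 : Fin m → ℝ), (1 : ℝ)) := by simp
  simp only [pdv, h2.fderiv, ContinuousLinearMap.comp_apply, ContinuousLinearMap.prod_apply,
    ContinuousLinearMap.id_apply]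
  rw [h3, map_add, map_smul, snocL_uv 1 hi, snocL_last, one_smul, map_add, map_smul, smul_eq_mul,
    mul_comm]

theorem pre2_gen {T : Set (Fn m)} (h1 : ∀ φ ∈ T, DF S φ ∧ AnalyticOnNhd ℝ φ A ∧
      ∀ i < m, ∃ ψ ∈ Algebra.adjoin ℝ T, EqOn ψ (pdv φ i) A)
    (h2 : ∀ (P : ℕ → U) (n : ℕ) (y : ℕ → U) (E : Fld), Gen S P n → DFld S P n E →
      (∀ i < m, y i ∈ E) → At (fun x => x ∈ A) y →
      ∃ E' α, Pres S P n E E' α ∧ ∀ φ ∈ T, ev φ y ∈ E') : DAlg S A (Algebra.adjoin ℝ T) := by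
  have key : ∀ φ ∈ Algebra.adjoin ℝ T, DF S φ ∧ AnalyticOnNhd ℝ φ A ∧
      ∀ i < m, ∃ ψ ∈ Algebra.adjoin ℝ T, EqOn ψ (pdv φ i) A := fun φ hφ => by
    induction hφ using Algebra.adjoin_induction with
    | mem φ hφ => exact h1 φ hφ
    | algebraMap r =>
      refine ⟨DF.const r, analyticOnNhd_const, fun i _ => ⟨0, zero_mem _, fun x _ => ?_⟩⟩
      change 0 = fderiv ℝ (fun _ => r) x _
      simp
    | add φ ψ _ _ a b =>
      refine ⟨a.1.add b.1, a.2.1.add b.2.1, fun i hi => ?_⟩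
      obtain ⟨φ', a1, a2⟩ := a.2.2 i hi
      obtain ⟨ψ', b1, b2⟩ := b.2.2 i hi
      refine ⟨φ' + ψ', add_mem a1 b1, fun x hx => ?_⟩
      rw [Pi.add_apply, a2 hx, b2 hx, pdv, pdv, pdv,
        fderiv_add (a.2.1 x hx).differentiableAt (b.2.1 x hx).differentiableAt]
      rfl
    | mul φ ψ hφ hψ a b =>
      refine ⟨a.1.mul b.1, a.2.1.mul b.2.1, fun i hi => ?_⟩
      obtain ⟨φ', a1, a2⟩ := a.2.2 i hi
      obtain ⟨ψ', b1, b2⟩ := b.2.2 i hi
      refine ⟨φ * ψ' + ψ * φ', add_mem (mul_mem hφ b1) (mul_mem hψ a1), fun x hx => ?_⟩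
      rw [Pi.add_apply, Pi.mul_apply, Pi.mul_apply, a2 hx, b2 hx, pdv, pdv, pdv,
        fderiv_mul (a.2.1 x hx).differentiableAt (b.2.1 x hx).differentiableAt]
      rfl
  refine ⟨fun φ hφ => (key φ hφ).1, fun φ hφ => (key φ hφ).2.1, fun φ hφ i => ?_,
    fun P n y E a1 a2 a3 a4 => ?_⟩
  · rcases lt_or_ge i m with hi | hi
    · exact (key φ hφ).2.2 i hi
    · exact ⟨0, zero_mem _, fun x _ => (pre2_pdv_ge hi φ x).symm⟩
  · obtain ⟨E', α, b1, b2⟩ := h2 P n y E a1 a2 a3 a4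
    exact ⟨E', α, b1, fun φ hφ =>
      (Algebra.adjoin_le (S := E'.toSubalgebra.comap (pre2_evH m y)) b2 :) hφ⟩

theorem pre2_base (S : OStr) (A : Set (Fin m → ℝ)) :
    DAlg S A (Algebra.adjoin ℝ (range fun (j : Fin m) (x : Fin m → ℝ) => x j)) := by
  refine pre2_gen ?_ fun P n y E _ _ hy _ => ⟨E, 0, .nil, ?_⟩
  · rintro _ ⟨j, rfl⟩
    let L := ContinuousLinearMap.proj (R := ℝ) (φ := fun _ : Fin m => ℝ) j
    refine ⟨DF.apply j, fun x _ => L.analyticAt x, fun i _ =>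
      ⟨algebraMap ℝ _ (uv m i j), algebraMap_mem _ _, fun x _ => ?_⟩⟩
    exact (congrArg (fun M : (Fin m → ℝ) →L[ℝ] ℝ => M (uv m i)) (L.fderiv (x := x))).symm
  · rintro _ ⟨j, rfl⟩
    rw [ev_coord]
    exact hy j j.2

theorem DAlg.sup {R R' : Subalgebra ℝ (Fn m)} (hA : IsOpen A) (h : DAlg S A R) (h' : DAlg S A R') :
    DAlg S A (R ⊔ R') := by
  have _ := hA
  rw [Algebra.sup_def]
  refine pre2_gen ?_ fun P n y E a1 a2 a3 a4 => ?_
  · rintro φ (hφ | hφ)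
    · exact ⟨h.df φ hφ, h.an φ hφ, fun i _ => (h.pd φ hφ i).imp fun ψ b =>
        ⟨Algebra.subset_adjoin (.inl b.1), b.2⟩⟩
    · exact ⟨h'.df φ hφ, h'.an φ hφ, fun i _ => (h'.pd φ hφ i).imp fun ψ b =>
        ⟨Algebra.subset_adjoin (.inr b.1), b.2⟩⟩
  · obtain ⟨E₁, α, b1, b2⟩ := h.pres P n y E a1 a2 a3 a4
    obtain ⟨E₂, β, c1, c2⟩ := h'.pres P n y E₁ a1 (b1.dfld a2) (fun i hi => b1.le (a3 i hi)) a4
    refine ⟨E₂, _, b1.trans c1, ?_⟩
    rintro φ (hφ | hφ)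
    exacts [c1.le (b2 φ hφ), c2 φ hφ]

theorem pre2_alg {E : Fld} {k : ℕ} {a : ℕ → U} {b : U} (ha : ∀ i, a i ∈ E)
    (hne : ∃ i ≤ k, a i ≠ 0) (h0 : ∑ i ∈ Finset.range (k + 1), a i * b ^ i = 0) :
    IsAlgebraic E b := by
  have hc : ∀ j, (∑ i ∈ Finset.range (k + 1), Polynomial.monomial i (a i)).coeff j =
      if j ∈ Finset.range (k + 1) then a j else 0 := fun j => by
    simp only [Polynomial.finsetSum_coeff, Polynomial.coeff_monomial, Finset.sum_ite_eq']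
  refine alg_iff.2 ⟨∑ i ∈ Finset.range (k + 1), Polynomial.monomial i (a i), fun e => ?_,
    fun j => ?_, ?_⟩
  · obtain ⟨i, hi, h⟩ := hne
    have := hc i
    rw [e, if_pos (Finset.mem_range.2 (Nat.lt_succ_of_le hi))] at this
    exact h this.symm
  · rw [hc]
    split_ifs
    exacts [ha j, zero_mem _]
  · simpa only [Polynomial.eval_finsetSum, Polynomial.eval_monomial] using h0

theorem pre2_ev_rel (k : ℕ) (c : ℕ → Fn m) (g : Fn m) (y : ℕ → U) :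
    ev (fun x => ∑ i ∈ Finset.range (k + 1), c i x * g x ^ i) y =
      ∑ i ∈ Finset.range (k + 1), ev (c i) y * ev g y ^ i := by
  rw [ev_sum]
  exact Finset.sum_congr rfl fun i _ => by rw [ev_mul, ev_pow]

/-- a nonempty open definable set has a generic point -/
theorem pre2_exists_gen (hA : IsOpen A) (dA : DP S fun x => x ∈ A) {x : Fin m → ℝ} (hx : x ∈ A) :
    ∃ Q, Gen S Q m ∧ At (fun x => x ∈ A) Q := by
  let a : ℕ → U := fun i => algebraMap ℝ U (if h : i < m then x ⟨i, h⟩ else 0)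
  have key : ∀ k, ∃ Q, Gen S Q k ∧ ∀ i < k, Inf ⊥ (Q i - a i) := fun k => by
    induction k with
    | zero => exact ⟨a, gen_zero, fun i hi => absurd hi (Nat.not_lt_zero _)⟩
    | succ k ih =>
      obtain ⟨Q, h1, h2⟩ := ih
      obtain ⟨ε, h3, h4⟩ := exists_inf S Q k
      have h5 : Inf (dcl S Q k) (a k + ε - a k) := by rwa [add_sub_cancel_left]
      refine ⟨upd Q k (a k + ε), presB_gen (f := a k) h1
        (IntermediateField.algebraMap_mem _ _) (by simpa using h3.ne') h5, fun i hi => ?_⟩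
      rcases (Nat.lt_succ_iff.1 hi).eq_or_lt with rfl | hi
      · rw [upd_self]
        exact h5.anti bot_le
      · rw [upd_of_ne hi.ne]
        exact h2 i hi
  obtain ⟨Q, h1, h2⟩ := key m
  refine ⟨Q, h1, nhds_near (P := Q) (k := 0) (y := a)
    (fun i _ => IntermediateField.algebraMap_mem _ _) (fun i hi => dcl_zero (S := S) ▸ h2 i hi) dA ?_⟩
  filter_upwards [eventually_all.2 fun i : Fin m => out_real (x i)] with ω hω
  have : tp a m ω = x := funext fun i => by simpa only [tp, a, dif_pos i.2] using hω i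
  rw [this]
  exact hA.mem_nhds hx

/-- the definable analytic functions that are algebraic over `R` on `A` form a `DAlg` (work in the
integral domain of analytic functions on the connected open set `A`; differentiate a relation of
minimal degree; values by algVal and RC) -/
theorem DAlg.alg {R : Subalgebra ℝ (Fn m)} (hA : IsOpen A) (hc : IsPreconnected A)
    (dA : DP S fun x => x ∈ A) (h : DAlg S A R) {k : ℕ} {c : ℕ → Fn m} (hcR : ∀ i, c i ∈ R)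
    (dg : DF S g) (hg : AnalyticOnNhd ℝ g A)
    (h0 : ∀ x ∈ A, ∑ i ∈ Finset.range (k + 1), c i x * g x ^ i = 0)
    (hne : ∃ i ≤ k, ∃ x ∈ A, c i x ≠ 0) : ∃ R', DAlg S A R' ∧ g ∈ R' := by
  obtain ⟨i₀, hi₀, x₀, hx₀, hne⟩ := hne
  obtain ⟨Q, hQ, hQA⟩ := pre2_exists_gen hA dA hx₀
  let K := IntermediateField.adjoin ℝ (R.map (pre2_evH m Q) : Set U)
  have hK : ∀ φ ∈ R, ev φ Q ∈ K := fun φ hφ => IntermediateField.subset_adjoin _ _ ⟨φ, hφ, rfl⟩
  have hle : K ≤ dcl S Q m := IntermediateField.adjoin_le_iff.2 <| by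
    rintro _ ⟨φ, hφ, rfl⟩
    exact ev_mem_dcl (h.df φ hφ)
  have hpc : PC S Q m K := fun i b hb => by
    refine ((IntermediateField.adjoin_le_iff.2 ?_ : K ≤ pcF hQ K hle i) hb).2
    rintro _ ⟨φ, hφ, rfl⟩
    obtain ⟨ψ, a1, a2⟩ := h.pd φ hφ i
    refine ⟨hK φ hφ, ?_⟩
    change Shared.OMin.pd S Q m i (ev φ Q) ∈ K
    rw [pd_ev hQ (h.df φ hφ), ← ev_eq_iff.2 (hQA.mono fun ω hω => a2 hω)]
    exact hK ψ a1
  refine ⟨Algebra.adjoin ℝ {φ | DF S φ ∧ AnalyticOnNhd ℝ φ A ∧ ev φ Q ∈ rcl K},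
    pre2_gen (fun φ hφ => ⟨hφ.1, hφ.2.1, fun i _ => ⟨pdv φ i, Algebra.subset_adjoin
      ⟨hφ.1.pdv i, analyticOnNhd_pdv hφ.2.1 i, ?_⟩, fun _ _ => rfl⟩⟩) fun P n y E a1 a2 a3 a4 => ?_,
    Algebra.subset_adjoin ⟨dg, hg, mem_rcl.2 (pre2_alg (a := fun i => ev (c i) Q) (k := k)
      (fun i => hK _ (hcR i)) ⟨i₀, hi₀, fun e => hne ?_⟩ ?_)⟩⟩
  · rw [← pd_ev hQ hφ.1]
    exact hpc.rcl hQ hle i _ hφ.2.2
  · obtain ⟨E', α, b1, b2⟩ := h.pres P n y E a1 a2 a3 a4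
    refine ⟨E', α, b1, fun φ hφ => (b1.dfld a2).rc _ ?_⟩
    have h1 := IntermediateField.isAlgebraic_adjoin_iff.1 (mem_rcl.1 hφ.2.2)
    rw [Algebra.adjoin_eq] at h1
    obtain ⟨p, hp, hp0⟩ := h1
    choose e he he' using fun i => (p.coeff i).2
    have he'' : ∀ i, ev (e i) Q = p.coeff i := he'
    have h2 : EqOn (fun x => ∑ i ∈ Finset.range (p.natDegree + 1), e i x * φ x ^ i)
        (fun _ => 0) A := by
      refine ident hA hc hQ hQA (DF.sum _ fun i _ => (h.df _ (he i)).mul (hφ.1.pow i)) (DF.const 0)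
        (Finset.analyticOnNhd_fun_sum _ fun i _ => (h.an _ (he i)).mul (hφ.2.1.pow i))
        analyticOnNhd_const ?_
      rw [pre2_ev_rel, ev_zero', ← hp0, Polynomial.aeval_eq_sum_range]
      exact Finset.sum_congr rfl fun i _ => by rw [he'']; rfl
    have h3 : ev (e p.natDegree) Q ≠ 0 := by
      rw [he'']
      exact fun e0 => Polynomial.leadingCoeff_ne_zero.2 hp (Subtype.ext e0)
    obtain ⟨ω, h4, h5⟩ := (Filter.Eventually.and hQA (ev_ne_zero_iff.1 h3)).exists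
    obtain ⟨T, t1, t2, t3⟩ := algVal hA hc dA (R := Subalgebra.toSubmodule R)
      (fun ψ hψ => ⟨h.df ψ hψ, h.an ψ hψ, h.pd ψ hψ⟩) he hφ.2.1 h2 ⟨_, le_rfl, _, h4, h5⟩
    have := t1.to_subtype
    obtain ⟨⟨c', j⟩, h6⟩ := ev_exists_finite (ι := T × Fin (p.natDegree + 1))
      (P := fun z ω => z.1.1 z.2 (tp y m ω) ≠ 0 ∧
        ∑ i ∈ Finset.range (p.natDegree + 1), z.1.1 i (tp y m ω) * φ (tp y m ω) ^ i = 0)
      (a4.mono fun ω hω => by
        obtain ⟨c', c1, ⟨j, c2, c3⟩, c4⟩ := t3 _ hω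
        exact ⟨(⟨c', c1⟩, ⟨j, Nat.lt_succ_of_le c2⟩), c3, c4⟩)
    refine pre2_alg (a := fun i => ev (c'.1 i) y) (k := p.natDegree)
      (fun i => b2 _ (t2 _ c'.2 i)) ⟨j, Nat.lt_succ_iff.1 j.2,
        ev_ne_zero_iff.2 (h6.mono fun ω hω => hω.1)⟩ ?_
    rw [← pre2_ev_rel]
    exact ev_eq_zero_iff.2 (h6.mono fun ω hω => hω.2)
  · exact ident hA hc hQ hQA (h.df _ (hcR i₀)) (DF.const 0) (h.an _ (hcR i₀)) analyticOnNhd_const
      (e.trans ev_zero'.symm) hx₀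
  · rw [← pre2_ev_rel]
    exact ev_eq_zero_iff.2 (hQA.mono fun ω hω => h0 _ hω)

theorem pre2_upd_mem {E : Fld} (hy : ∀ i < m, y i ∈ E) {w : U} (hw : w ∈ E) :
    ∀ i < m + 1, upd y m w i ∈ E := fun i hi => by
  rcases (Nat.lt_succ_iff.1 hi).eq_or_lt with rfl | hi
  · rwa [upd_self]
  · rw [upd_of_ne hi.ne]
    exact hy i hi

/-- the functions along the graph of `f` -/
theorem pre2_graph {B : Set (Fin (m + 1) → ℝ)} {RB : Subalgebra ℝ (Fn (m + 1))}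
    {R' : Subalgebra ℝ (Fn m)} (h' : DAlg S B RB) (df : DF S f) (hf : AnalyticOnNhd ℝ f A)
    (hm : ∀ x ∈ A, Fin.snoc x (f x) ∈ B) (h1 : ∀ i < m, ∃ ψ ∈ R', EqOn ψ (pdv f i) A)
    (h2 : ∀ F ∈ RB, (fun x => F (Fin.snoc x (f x))) ∈ R') {F : Fn (m + 1)} (hF : F ∈ RB) :
    DF S (fun x => F (Fin.snoc x (f x))) ∧ AnalyticOnNhd ℝ (fun x => F (Fin.snoc x (f x))) A ∧
      ∀ i < m, ∃ ψ ∈ R', EqOn ψ (pdv (fun x => F (Fin.snoc x (f x))) i) A := by
  refine ⟨(h'.df F hF).comp (DF.snoc DF.id' df), analyticOnNhd_snoc hf (h'.an F hF) hm,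
    fun i hi => ?_⟩
  obtain ⟨ψ, a1, a2⟩ := h1 i hi
  obtain ⟨F₁, b1, b2⟩ := h'.pd F hF i
  obtain ⟨F₂, c1, c2⟩ := h'.pd F hF m
  refine ⟨_, add_mem (h2 F₁ b1) (mul_mem (h2 F₂ c1) a1), fun x hx => ?_⟩
  rw [pre2_pdv_snoc (hf x hx).differentiableAt (h'.an F hF _ (hm x hx)).differentiableAt hi,
    ← a2 hx, ← b2 (hm x hx), ← c2 (hm x hx)]
  rfl

theorem DAlg.comp {R : Subalgebra ℝ (Fn m)} {B : Set (Fin (m + 1) → ℝ)}
    {RB : Subalgebra ℝ (Fn (m + 1))} (hA : IsOpen A) (hB : IsOpen B) (h : DAlg S A R)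
    (h' : DAlg S B RB) (hf : f ∈ R) (hm : ∀ x ∈ A, Fin.snoc x (f x) ∈ B) :
    ∃ R', DAlg S A R' ∧ ∀ F ∈ RB, (fun x => F (Fin.snoc x (f x))) ∈ R' := by
  have _ := hA
  have _ := hB
  let T : Set (Fn m) := R ∪ (fun (F : Fn (m + 1)) x => F (Fin.snoc x (f x))) '' RB
  have h1 : ∀ φ ∈ R, ∀ i < m, ∃ ψ ∈ Algebra.adjoin ℝ T, EqOn ψ (pdv φ i) A := fun φ hφ i _ =>
    (h.pd φ hφ i).imp fun ψ b => ⟨Algebra.subset_adjoin (.inl b.1), b.2⟩
  have h2 : ∀ F ∈ RB, (fun x => F (Fin.snoc x (f x))) ∈ Algebra.adjoin ℝ T := fun F hF =>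
    Algebra.subset_adjoin (.inr ⟨F, hF, rfl⟩)
  refine ⟨Algebra.adjoin ℝ T, pre2_gen ?_ fun P n y E a1 a2 a3 a4 => ?_, h2⟩
  · rintro φ (hφ | ⟨F, hF, rfl⟩)
    · exact ⟨h.df φ hφ, h.an φ hφ, h1 φ hφ⟩
    · exact pre2_graph h' (h.df f hf) (h.an f hf) hm (h1 f hf) h2 hF
  · obtain ⟨E₁, α, b1, b2⟩ := h.pres P n y E a1 a2 a3 a4
    obtain ⟨E₂, β, c1, c2⟩ := h'.pres P n (upd y m (ev f y)) E₁ a1 (b1.dfld a2)
      (pre2_upd_mem (fun i hi => b1.le (a3 i hi)) (b2 f hf)) (by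
        filter_upwards [a4, presB_tp_graph f y] with ω e1 e2
        rw [e2]
        exact hm _ e1)
    refine ⟨E₂, _, b1.trans c1, ?_⟩
    rintro φ (hφ | ⟨F, hF, rfl⟩)
    · exact c1.le (b2 φ hφ)
    · rw [presB_ev_graph]
      exact c2 F hF

theorem pre2_abs {a : U} (hb : |a| < 1) : ∀ᶠ ω in 𝔲, |out a ω| < 1 := by
  filter_upwards [lt_iff.1 hb, out_abs a, out_one] with ω h1 h2 h3
  rwa [h2, h3] at h1

theorem pre2_sqrt_mem {E : Fld} (hE : RC E) {a : U} (ha : a ∈ E) (hb : |a| < 1) :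
    (cl fun ω => √(1 - out a ω ^ 2)) ∈ E := by
  have e : (cl fun ω => √(1 - out a ω ^ 2)) ^ 2 = 1 - a ^ 2 := by
    rw [eq_iff]
    filter_upwards [out_pow (cl fun ω => √(1 - out a ω ^ 2)) 2,
      out_cl ((sm_out a).comp fun t => √(1 - t ^ 2)), out_sub 1 (a ^ 2), out_one, out_pow a 2,
      pre2_abs hb] with ω h1 h2 h3 h4 h5 h6
    rw [h1, h2, h3, h4, h5, Real.sq_sqrt (sub_nonneg.2 ((sq_le_one_iff_abs_le_one _).2 h6.le))]
  refine hE _ (IsAlgebraic.of_pow two_pos ?_)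
  rw [e]
  exact isAlgebraic_algebraMap (⟨_, sub_mem (one_mem _) (pow_mem ha 2)⟩ : E)

theorem pre2_rhoi_mem {E : Fld} (hE : RC E) {a : U} (ha : a ∈ E) (hb : |a| < 1) :
    (cl fun ω => rhoi (out a ω)) ∈ E := by
  have e : (cl fun ω => rhoi (out a ω)) = a / cl fun ω => √(1 - out a ω ^ 2) := cl_eq <| by
    filter_upwards [out_div a (cl fun ω => √(1 - out a ω ^ 2)),
      out_cl ((sm_out a).comp fun t => √(1 - t ^ 2))] with ω h1 h2
    rw [h1, h2, rhoi]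
  rw [e]
  exact div_mem ha (pre2_sqrt_mem hE ha hb)

/-- undo the bounded coordinate in the last entry -/
noncomputable def pre2_tau (z : Fin (m + 1) → ℝ) : Fin (m + 1) → ℝ :=
  Fin.snoc (Fin.init z) (rhoi (z (Fin.last m)))

theorem pre2_tau_snoc (x : Fin m → ℝ) (t : ℝ) :
    pre2_tau (Fin.snoc x t) = Fin.snoc x (rhoi t) := by simp [pre2_tau]

theorem pre2_tau_df : DF S (pre2_tau (m := m)) :=
  DF.snoc (DF.init DF.id') ((df_rhoi S).comp (DF.apply _))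

theorem pre2_tau_an (x : Fin m → ℝ) (t : ℝ) : AnalyticAt ℝ pre2_tau (Fin.snoc x (rho t)) := by
  refine analyticAt_pi_iff.2 fun i => ?_
  refine Fin.lastCases ?_ (fun j => ?_) i
  · simp only [pre2_tau, Fin.snoc_last]
    exact AnalyticAt.comp (g := rhoi) (by simpa using analyticAt_rhoi (abs_rho_lt t))
      ((ContinuousLinearMap.proj (R := ℝ) (φ := fun _ : Fin (m + 1) => ℝ) _).analyticAt _)
  · simp only [pre2_tau, Fin.snoc_castSucc]
    exact (ContinuousLinearMap.proj (R := ℝ) (φ := fun _ : Fin (m + 1) => ℝ) _).analyticAt _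

/-- node_at for the bounded function rho o f, the system
rho'(rhoi u) F_i(x, rhoi u), and the functions H(x, rhoi u); the child point is
`upd y m (rhoi w)`, whose last entry is algebraic over `w` -/
theorem DAlg.ode {B : Set (Fin (m + 1) → ℝ)} {RB : Subalgebra ℝ (Fn (m + 1))} (hA : IsOpen A)
    (hB : IsOpen B) (dB : DP S fun x => x ∈ B) (h' : DAlg S B RB) (df : DF S f)
    (hf : AnalyticOnNhd ℝ f A) (hm : ∀ x ∈ A, Fin.snoc x (f x) ∈ B) {F : ℕ → Fn (m + 1)}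
    (hF : ∀ i < m, F i ∈ RB) (hode : ∀ x ∈ A, ∀ i < m, pdv f i x = F i (Fin.snoc x (f x))) :
    ∃ R', DAlg S A R' ∧ f ∈ R' := by
  have _ := hA
  let T : Set (Fn m) := insert f ((fun (F : Fn (m + 1)) x => F (Fin.snoc x (f x))) '' RB)
  have h2 : ∀ F ∈ RB, (fun x => F (Fin.snoc x (f x))) ∈ Algebra.adjoin ℝ T := fun F hF =>
    Algebra.subset_adjoin (.inr ⟨F, hF, rfl⟩)
  have h1 : ∀ i < m, ∃ ψ ∈ Algebra.adjoin ℝ T, EqOn ψ (pdv f i) A := fun i hi =>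
    ⟨_, h2 _ (hF i hi), fun x hx => (hode x hx i hi).symm⟩
  refine ⟨Algebra.adjoin ℝ T, pre2_gen ?_ fun P n y E a1 a2 a3 a4 => ?_,
    Algebra.subset_adjoin (.inl rfl)⟩
  · rintro φ (rfl | ⟨F, hF, rfl⟩)
    · exact ⟨df, hf, h1⟩
    · exact pre2_graph h' df hf hm h1 h2 hF
  have hτ : ∀ x, pre2_tau (Fin.snoc x (rho (f x))) = (Fin.snoc x (f x) : Fin (m + 1) → ℝ) :=
    fun x => by rw [pre2_tau_snoc, rhoi_rho]
  have hHτ : ∀ H ∈ RB, ∀ x ∈ A, AnalyticAt ℝ (fun z => H (pre2_tau z)) (Fin.snoc x (rho (f x))) :=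
    fun H hH x hx => AnalyticAt.comp (g := H) (hτ x ▸ h'.an H hH _ (hm x hx)) (pre2_tau_an _ _)
  have du : DF S fun x => rho (f x) := (df_rho S).comp df
  have hy : ∀ i < m, y i ∈ dcl S P n := fun i hi => a2.le (a3 i hi)
  obtain ⟨u, hu⟩ : ∃ u, u = ev (fun x => rho (f x)) y := ⟨_, rfl⟩
  have hud : u ∈ dcl S P n := hu ▸ ev_mem hy du
  have hub : |u| < 1 := by
    rw [hu, ← ev_abs, ← ev_one' (k := m) (P := y), ev_lt_iff]
    exact Eventually.of_forall fun ω => abs_rho_lt _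
  obtain ⟨ε, e1, e2⟩ := exists_inf S P n
  obtain ⟨w, hw, hne⟩ : ∃ w, Inf (dcl S P n) (w - u) ∧ w ≠ u :=
    ⟨u + ε, by rwa [add_sub_cancel_left], by simpa using e1.ne'⟩
  have hb : |w| < 1 := by
    have := hw _ (sub_mem (one_mem _) (abs_mem_if hud)) (sub_pos.2 hub)
    linarith [abs_sub_abs_le_abs_sub w u]
  have hg := presB_gen a1 hud hne hw
  have hD := presB_dfld_adj hg a2
  have hp : ∀ᶠ ω in 𝔲, tp (upd y m (cl fun ω => rhoi (out w ω))) (m + 1) ω =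
      pre2_tau (tp (upd y m w) (m + 1) ω) := by
    filter_upwards [out_cl ((sm_out w).comp rhoi)] with ω e
    rw [tp_upd, tp_upd, pre2_tau_snoc, e]
  have hin : At (fun z => pre2_tau z ∈ B) (upd y m w) := by
    refine nhds_near (pre2_upd_mem hy hud) (fun i hi => ?_) (dB.comp pre2_tau_df) ?_
    · rcases (Nat.lt_succ_iff.1 hi).eq_or_lt with rfl | hi
      · rwa [upd_self, upd_self]
      · rw [upd_of_ne hi.ne, upd_of_ne hi.ne, sub_self]
        exact Inf.zero _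
    · filter_upwards [a4, presB_tp_graph (fun x => rho (f x)) y] with ω c1 c2
      rw [hu, c2]
      exact (pre2_tau_an _ _).continuousAt.eventually (hB.mem_nhds (hτ _ ▸ hm _ c1))
  obtain ⟨K', β, b1, b2⟩ := h'.pres _ _ (upd y m (cl fun ω => rhoi (out w ω))) _ hg hD
    (pre2_upd_mem (fun i hi => le_adj _ _ (a3 i hi)) (pre2_rhoi_mem hD.rc (mem_adj _ _) hb))
    (by filter_upwards [hp, hin] with ω c1 c2 using c1 ▸ c2)
  simp only [ev_comp hp] at b2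
  have hwK : w ∈ K' := b1.le (mem_adj _ _)
  subst hu
  obtain ⟨K₂, c1, c2, c3⟩ := node_at (F := fun i z => (1 - z (Fin.last m) ^ 2) *
      √(1 - z (Fin.last m) ^ 2) * F i (pre2_tau z)) a1 a2 a3 du
    (fun i hi => by
      have d : DF S fun z : Fin (m + 1) → ℝ => 1 - z (Fin.last m) ^ 2 := by fun_prop
      exact (d.mul d.sqrt).mul ((h'.df _ (hF i hi)).comp pre2_tau_df))
    (a4.mono fun ω hx => by
      generalize tp y m ω = x at hx
      have d1 := (hasDerivAt_rho (f x)).comp_hasFDerivAt x (hf x hx).differentiableAt.hasFDerivAt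
      refine ⟨d1.differentiableAt, fun i hi => ⟨?_, ?_⟩⟩
      · rw [hτ, ← hode x hx i hi, Fin.snoc_last]
        exact congrArg (fun M : (Fin m → ℝ) →L[ℝ] ℝ => M (uv m i)) d1.fderiv
      · have d2 : DifferentiableAt ℝ (fun z : Fin (m + 1) → ℝ => 1 - z (Fin.last m) ^ 2)
            (Fin.snoc x (rho (f x))) := by fun_prop
        refine (d2.mul (d2.sqrt ?_)).mul (hHτ _ (hF i hi) x hx).differentiableAt
        rw [Fin.snoc_last]
        exact (sub_pos.2 ((sq_lt_one_iff_abs_lt_one _).2 (abs_rho_lt _))).ne')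
    hne hw hb b1 fun i hi => by
      rw [ev_mul, ev_mul, ev_sub, ev_pow, ev_one', ev_last, upd_self]
      refine mul_mem (mul_mem (sub_mem (one_mem _) (pow_mem hwK 2)) ?_) (b2 _ (hF i hi))
      have := pre2_sqrt_mem (b1.dfld hD).rc hwK hb
      rw [← upd_self (P := y) (k := m) w] at this
      exact this
  refine ⟨K₂, _, c1, ?_⟩
  rintro φ (rfl | ⟨H, hH, rfl⟩)
  · have e : (cl fun ω => rhoi (out (ev (fun x => rho (φ x)) y) ω)) = ev φ y := cl_eq <| by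
      filter_upwards [out_ev φ y, out_ev (fun x => rho (φ x)) y] with ω d1 d2
      rw [d1, d2, rhoi_rho]
    exact e ▸ pre2_rhoi_mem (c1.dfld a2).rc c2 hub
  · have := c3 _ ((h'.df H hH).comp pre2_tau_df)
      (a4.mono fun ω hx => (hHτ H hH _ hx).continuousAt) (b2 H hH)
    simpa only [hτ] using this

theorem pre2_fin (hA : IsOpen A) {ι : Type} [Fintype ι] {φ : ι → Fn m}
    (h : ∀ i, ∃ R, DAlg S A R ∧ ∃ f' ∈ R, EqOn f' (φ i) A) :
    ∃ R, DAlg S A R ∧ ∃ φ' : ι → Fn m, ∀ i, φ' i ∈ R ∧ EqOn (φ' i) (φ i) A := by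
  classical
  have key : ∀ t : Finset ι, ∃ R, DAlg S A R ∧ ∀ i ∈ t, ∃ f' ∈ R, EqOn f' (φ i) A := fun t => by
    induction t using Finset.induction_on with
    | empty => exact ⟨_, pre2_base S A, by simp⟩
    | insert j t _ ih =>
      obtain ⟨R, a1, a2⟩ := ih
      obtain ⟨R', b1, f', b2, b3⟩ := h j
      refine ⟨_, a1.sup hA b1, fun i hi => ?_⟩
      rcases Finset.mem_insert.1 hi with rfl | hi
      · exact ⟨f', (le_sup_right : R' ≤ R ⊔ R') b2, b3⟩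
      · exact (a2 i hi).imp fun _ c => ⟨(le_sup_left : R ≤ R ⊔ R') c.1, c.2⟩
  obtain ⟨R, a1, a2⟩ := key Finset.univ
  choose φ' h1 h2 using fun i => a2 i (Finset.mem_univ i)
  exact ⟨R, a1, φ', fun i => ⟨h1 i, h2 i⟩⟩

theorem pre2_dalg (hS : PfClosed S) (h : Pff s m A o) :
    ∀ f ∈ o, ∃ R, DAlg S A R ∧ ∃ f' ∈ R, EqOn f' f A := by
  have h0 := h
  induction h with
  | point => simp
  | band => simp
  | const c _ _ =>
    rintro _ ⟨rfl⟩
    exact ⟨_, pre2_base S _, _, algebraMap_mem _ c, fun _ _ => rfl⟩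
  | coord i _ _ =>
    rintro _ ⟨rfl⟩
    exact ⟨_, pre2_base S _, _, Algebra.subset_adjoin ⟨i, rfl⟩, fun _ _ => rfl⟩
  | add h1 h2 ih1 ih2 =>
    rintro _ ⟨rfl⟩
    obtain ⟨R, a1, f', a2, a3⟩ := ih1 h1 _ rfl
    obtain ⟨R', b1, g', b2, b3⟩ := ih2 h2 _ rfl
    exact ⟨_, a1.sup h0.basic.1 b1, f' + g', add_mem ((le_sup_left : R ≤ R ⊔ R') a2)
      ((le_sup_right : R' ≤ R ⊔ R') b2), fun x hx => by rw [Pi.add_apply, a3 hx, b3 hx]⟩
  | mul h1 h2 ih1 ih2 =>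
    rintro _ ⟨rfl⟩
    obtain ⟨R, a1, f', a2, a3⟩ := ih1 h1 _ rfl
    obtain ⟨R', b1, g', b2, b3⟩ := ih2 h2 _ rfl
    exact ⟨_, a1.sup h0.basic.1 b1, f' * g', mul_mem ((le_sup_left : R ≤ R ⊔ R') a2)
      ((le_sup_right : R' ≤ R ⊔ R') b2), fun x hx => by rw [Pi.mul_apply, a3 hx, b3 hx]⟩
  | @alg m A g k c h1 h2 h3 h4 ih =>
    rintro _ ⟨rfl⟩
    obtain ⟨hA, hc, ⟨x₀, hx₀⟩, -⟩ := h0.basic
    obtain ⟨dA, hg⟩ := h0.dp hS
    obtain ⟨g', g1, g2⟩ := hg _ rfl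
    obtain ⟨R, a1, c', a2⟩ := pre2_fin hA fun i => ih i (h1 i) _ rfl
    let e : ℕ → Fn m := fun j => if hj : j < k + 1 then c' ⟨j, hj⟩ else 0
    obtain ⟨R', b1, b2⟩ := a1.alg hA hc dA (k := k) (c := fun i => e (k - i))
      (fun i => by
        simp only [e]
        split_ifs
        exacts [(a2 _).1, zero_mem _]) g1 (h2.congr hA g2.symm) (fun x hx => by
        rw [← h3 x hx, ← Finset.sum_flip, Finset.sum_range]
        refine Finset.sum_congr rfl fun i _ => ?_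
        simp only [e, Nat.sub_sub_self (Nat.lt_succ_iff.1 i.2), dif_pos i.2]
        rw [(a2 i).2 hx, g2 hx]) ⟨k, le_rfl, by
        simp only [e, Nat.sub_self, dif_pos k.succ_pos]
        split_ifs at h4
        · exact ⟨x₀, hx₀, ((a2 _).2 hx₀).trans_ne (h4 x₀ hx₀)⟩
        · exact h4.imp fun x hx => ⟨hx.1, ((a2 _).2 hx.1).trans_ne hx.2⟩⟩
    exact ⟨R', b1, g', b2, g2⟩
  | comp h1 h2 h3 ih1 ih2 =>
    rintro _ ⟨rfl⟩
    obtain ⟨R, a1, f', a2, a3⟩ := ih1 h1 _ rfl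
    obtain ⟨RB, b1, F', b2, b3⟩ := ih2 h2 _ rfl
    obtain ⟨R', c1, c2⟩ := a1.comp h1.basic.1 h2.basic.1 b1 a2 fun x hx => a3 hx ▸ h3 x hx
    exact ⟨R', c1, _, c2 F' b2, fun x hx => by simp only [a3 hx, b3 (h3 x hx)]⟩
  | @ode m A B f F h1 h2 h3 h4 h5 h6 _ _ ih =>
    rintro _ ⟨rfl⟩
    have hA := h1.basic.1
    obtain ⟨f', f1, f2⟩ := (h0.dp hS).2 _ rfl
    obtain ⟨RB, a1, F', a2⟩ := pre2_fin h2.basic.1 fun i => ih i (h4 i) _ rfl
    obtain ⟨R', b1, b2⟩ := a1.ode (F := fun i => if hi : i < m then F' ⟨i, hi⟩ else 0) hA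
      h2.basic.1 (h2.dp hS).1 f1 (h3.congr hA f2.symm) (fun x hx => f2 hx ▸ h5 x hx)
      (fun i hi => by simpa only [dif_pos hi] using (a2 _).1) fun x hx i hi => by
        have e : uv m i = Pi.single ⟨i, hi⟩ 1 := funext fun j => by
          simp [uv, Pi.single_apply, Fin.ext_iff]
        rw [dif_pos hi, pre2_pdv_congr hA f2 i hx, f2 hx, (a2 _).2 (h5 x hx), pdv, e, h6 x hx]
    exact ⟨R', b1, f', b2, f2⟩
  | congr h1 h2 ih =>
    rintro _ ⟨rfl⟩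
    obtain ⟨R, a1, f', a2, a3⟩ := ih h1 _ rfl
    exact ⟨R, a1, f', a2, a3.trans h2.symm⟩

theorem Pff.dalg (hS : PfClosed S) (h : Pff s m A (some f)) :
    ∃ R, DAlg S A R ∧ ∃ f' ∈ R, EqOn f' f A := pre2_dalg hS h f rfl

theorem pre2_able (hy : ∀ i < m, Able S P n (y i)) {E : Fld} (h1 : DFld S P n E)
    (h2 : ∀ i < n, P i ∈ E) : ∃ E' α, Pres S P n E E' α ∧ ∀ i < m, y i ∈ E' := by
  induction m with
  | zero => exact ⟨E, 0, .nil, fun i hi => absurd hi (Nat.not_lt_zero _)⟩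
  | succ m ih =>
    obtain ⟨E₁, α, a1, a2⟩ := ih fun i hi => hy i (Nat.lt_succ_of_lt hi)
    obtain ⟨E₂, β, b1, b2⟩ := hy m m.lt_succ_self E₁ (a1.dfld h1) fun i hi => a1.le (h2 i hi)
    refine ⟨E₂, _, a1.trans b1, fun i hi => ?_⟩
    rcases (Nat.lt_succ_iff.1 hi).eq_or_lt with rfl | hi
    exacts [b2, b1.le (a2 i hi)]

theorem Pff.able (hS : PfClosed S) (h : Pff s m A (some f)) (hP : Gen S P n)
    (hy : ∀ i < m, Able S P n (y i)) (hA : At (fun x => x ∈ A) y) : Able S P n (ev f y) := by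
  intro E h1 h2
  obtain ⟨R, a1, f', a2, a3⟩ := h.dalg hS
  obtain ⟨E₁, α, b1, b2⟩ := pre2_able hy h1 h2
  obtain ⟨E₂, β, c1, c2⟩ := a1.pres P n y E₁ hP (b1.dfld h1) b2 hA
  exact ⟨E₂, _, b1.trans c1, ev_eq_iff.2 (hA.mono fun ω hω => a3 hω) ▸ c2 f' a2⟩

theorem Able.coord {i : ℕ} (hi : i < n) : Able S P n (P i) :=
  fun E _ h => ⟨E, 0, .nil, h i hi⟩
theorem Able.sub {a b : U} (ha : Able S P n a) (hb : Able S P n b) : Able S P n (a - b) := by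
  intro E h1 h2
  obtain ⟨E₁, α, a1, a2⟩ := ha E h1 h2
  obtain ⟨E₂, β, b1, b2⟩ := hb E₁ (a1.dfld h1) fun i hi => a1.le (h2 i hi)
  exact ⟨E₂, _, a1.trans b1, sub_mem (b1.le a2) b2⟩
theorem Able.rhoi {a : U} (ha : Able S P n a) (hb : |a| < 1) :
    Able S P n (cl fun ω => rhoi (out a ω)) := by
  intro E h1 h2
  obtain ⟨E₁, α, a1, a2⟩ := ha E h1 h2
  exact ⟨E₁, α, a1, pre2_rhoi_mem (a1.dfld h1).rc a2 hb⟩

end Pool.Agent.Lib.MP_1a1eb7_lc
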