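import Pool.Agent.Lib.MP_1a1eb7_lc.Cons1
import Pool.Agent.Lib.MP_1a1eb7_lc.Nil
import Pool.Agent.Lib.MP_1a1eb7_lc.Lim
import Pool.Agent.Lib.MP_1a1eb7_lc.Pre2

-- part Pool.Agent.Lib.MP_1a1eb7_lc.Cons
section

/-! C8c: the node case of Main. -/

namespace Pool.Agent.Lib.MP_1a1eb7_lc

open Set Filter Topology Pool.Agent.Shared.OMin
open Ordinal (omega0)

variable {S : OStr} {Γ : Sys} {θ θ₁ θ₂ τ : ℕ → Ordinal.{0}} {P Q Z Z' y : ℕ → U} {n m k r N : ℕ}
  {E E' : ℕ → Fld} {c c' : Ctx} {α β γ : Ordinal.{0}} {K K₀ K₀' K₁ K₂ K' : Fld}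

theorem cons_upd_upd (w v : U) : upd (upd P k w) k v = upd P k v := by
  simp [upd]

theorem cons_ev_snoc (φ : Fn k) (G : Fn (k + 1)) :
    ev (fun x => G (Fin.snoc x (φ x))) y = ev G (upd y k (ev φ y)) := ev_eq (by
  filter_upwards [out_ev G (upd y k (ev φ y)), out_ev φ y] with ω h1 h2
  rw [h1, tp_upd, h2])

theorem cons_at_snoc (φ : Fn k) (X : (Fin (k + 1) → ℝ) → Prop) :
    At (fun x => X (Fin.snoc x (φ x))) y ↔ At X (upd y k (ev φ y)) := by
  refine eventually_congr ?_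
  filter_upwards [out_ev φ y] with ω h2
  rw [tp_upd, h2]

theorem cons_upd_mem {w : U} (hy : ∀ i < k, y i ∈ K) (hw : w ∈ K) :
    ∀ i < k + 1, upd y k w i ∈ K := fun i hi => by
  rcases Nat.lt_succ_iff_lt_or_eq.1 hi with h | rfl
  · rw [upd_of_ne h.ne]; exact hy i h
  · rw [upd_self]; exact hw

theorem cons_upd_near {w f : U} (hw : Inf K (w - f)) :
    ∀ i < k + 1, Inf K (upd y k w i - upd y k f i) := fun i hi => by
  rcases Nat.lt_succ_iff_lt_or_eq.1 hi with h | rfl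
  · rw [upd_of_ne h.ne, upd_of_ne h.ne, sub_self]; exact Inf.zero K
  · rw [upd_self, upd_self]; exact hw

theorem cons_eq_of_near {a b e : U} (ha : a ∈ K) (hb : b ∈ K) (h : Inf K (e - a))
    (h' : Inf K (e - b)) : a = b := by
  have := (h'.sub h).eq_zero (by simpa using sub_mem ha hb)
  exact sub_eq_zero.1 (by simpa using this)

theorem cons_cell (c : Ctx) (G : ∀ k, Set (Fn k)) :
    ∀ k, (Ctx.mk c.lo c.hi G).cell k = c.cell k
  | 0 => rfl
  | k + 1 => by simp only [Ctx.cell, cons_cell c G k]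

theorem cons_dfld_adj (hP : Gen S P k) (hK : DFld S P k K) {f w : U} (hf : f ∈ dcl S P k)
    (hne : w ≠ f) (hw : Inf (dcl S P k) (w - f)) :
    Gen S (upd P k w) (k + 1) ∧ DFld S (upd P k w) (k + 1) (adj K w) := by
  have hg := hP.upd (Inf.notMem hf hw hne)
  have := DFld.adj hg (hK.congr (agree_upd w).symm)
  rw [upd_self] at this
  exact ⟨hg, this⟩

/-- values of a function of the top level at a point of the cell and at a nearby point -/
theorem cons_near (hc : Sem S τ c (k + 1)) (hy : ∀ i < k, y i ∈ dcl S P m) {f w : U}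
    (hf : f ∈ dcl S P m) (hw : Inf (dcl S P m) (w - f)) (hh : c.Has (k + 1) (upd y k f))
    {G : Fn (k + 1)} (hG : G ∈ c.gens (k + 1)) :
    ev G (upd y k f) ∈ dcl S P m ∧ Inf (dcl S P m) (ev G (upd y k w) - ev G (upd y k f)) :=
  ⟨ev_mem (cons_upd_mem hy hf) (hc.df _ le_rfl G hG),
    cont_near (cons_upd_mem hy hf) (cons_upd_near hw) (hc.df _ le_rfl G hG)
      (Eventually.mono hh fun _ hx => (hc.an _ le_rfl G hG _ hx).continuousAt)⟩

theorem cons_has_near (hc : Sem S τ c (k + 1)) (hy : ∀ i < k, y i ∈ dcl S P m) {f w : U}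
    (hf : f ∈ dcl S P m) (hw : Inf (dcl S P m) (w - f)) (hh : c.Has (k + 1) (upd y k f)) :
    c.Has (k + 1) (upd y k w) :=
  nhds_near (cons_upd_mem hy hf) (cons_upd_near hw) (hc.dp le_rfl)
    (Eventually.mono hh fun _ hx => (hc.isOpen le_rfl).mem_nhds hx)

theorem cons_pow_le (h : α < β + 1) : omega0 ^ (α + 1) ≤ omega0 ^ (β + 1) :=
  Ordinal.opow_le_opow_right Ordinal.omega0_pos (by
    have := Order.lt_add_one_iff.1 h
    gcongr)

/-- the new generators are presented at every point of the cell -/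
theorem cons_chain (hc : Sem S τ c (k + 1)) (hτ : τ (k + 1) = β + 1) (hle : c'.Le c k)
    {F : ℕ → Fn (k + 1)} (hF : ∀ i < k, F i ∈ c.gens (k + 1)) {f : Fn k} (df : DF S f)
    (hs : ∀ z ∈ c'.cell k, Fin.snoc z (f z) ∈ c.cell (k + 1) ∧ SolAt F f z)
    (hP : Gen S P m) (hK : DFld S P m K) (hy : ∀ i < k, y i ∈ K) (hh : c'.Has k y)
    (hv : ∀ j ≤ k, c'.Vals j y K) :
    ∃ K', Pres S P m K K' (omega0 ^ (β + 1)) ∧
      ∀ φ ∈ insert f (slc f '' c.gens (k + 1)), ev φ y ∈ K' := by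
  obtain ⟨a, ha, hch⟩ := hc.chain (k + 1) le_rfl
  have hy' : ∀ i < k, y i ∈ dcl S P m := fun i hi => hK.le (hy i hi)
  have hf : ev f y ∈ dcl S P m := ev_mem hy' df
  obtain ⟨ε, h0, hε⟩ := exists_inf S P m
  have hw : Inf (dcl S P m) (ev f y + ε - ev f y) := by simpa using hε
  have hne : ev f y + ε ≠ ev f y := by simpa using h0.ne'
  have h1 : c.Has (k + 1) (upd y k (ev f y)) :=
    (cons_at_snoc f fun x => x ∈ c.cell (k + 1)).1 (Eventually.mono hh fun _ hx => (hs _ hx).1)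
  have h2 := cons_has_near hc hy' hf hw h1
  have hb : |ev f y + ε| < 1 := by simpa using hc.has_abs_lt h2 (Nat.lt_succ_self k)
  obtain ⟨hg, hd⟩ := cons_dfld_adj hP hK hf hne hw
  obtain ⟨K₃, hK₃, hv₃⟩ := hch _ _ (upd y k (ev f y + ε)) _ hg hd
    (cons_upd_mem (fun i hi => le_adj _ _ (hy i hi)) (mem_adj _ _)) h2 fun j hj =>
      Ctx.Vals.mono (Ctx.Vals.congr (fun φ hφ => hv j (by omega) φ ((hle j (by omega)).2 hφ))
        ((agree_upd _).symm.mono (by omega))) (le_adj _ _)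
  obtain ⟨K₂, hK₂, hf₂, hH⟩ := node_at hP hK hy df (fun i hi => hc.df _ le_rfl _ (hF i hi))
    (Eventually.mono hh fun _ hx => ⟨(hs _ hx).2.1, fun i hi => ⟨(hs _ hx).2.2 i hi,
      (hc.an _ le_rfl _ (hF i hi) _ (hs _ hx).1).differentiableAt⟩⟩) hne hw hb hK₃
    fun i hi => hv₃ _ (hF i hi)
  refine ⟨K₂, hK₂.mono (cons_pow_le (hτ ▸ ha)), ?_⟩
  rintro _ (rfl | ⟨H, hH', rfl⟩)
  · exact hf₂
  · exact hH H (hc.df _ le_rfl H hH') (Eventually.mono hh fun _ hx =>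
      (hc.an _ le_rfl H hH' _ (hs _ hx).1).continuousAt) (hv₃ H hH')

theorem cons_itg_df {F : ℕ → Fn (k + 1)} {i j : ℕ} (hi : DF S (F i)) (hj : DF S (F j)) :
    DF S (itg F i j) :=
  ((hj.pdv i).add (hi.mul (hj.pdv k))).sub ((hi.pdv j).add (hj.mul (hi.pdv k)))

theorem cons_itg_an {F : ℕ → Fn (k + 1)} {i j : ℕ} {C : Set (Fin (k + 1) → ℝ)}
    (hi : AnalyticOnNhd ℝ (F i) C) (hj : AnalyticOnNhd ℝ (F j) C) :
    AnalyticOnNhd ℝ (itg F i j) C :=
  ((analyticOnNhd_pdv hj i).add (hi.mul (analyticOnNhd_pdv hj k))).sub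
    ((analyticOnNhd_pdv hi j).add (hj.mul (analyticOnNhd_pdv hi k)))

/-- the integrability tensor in the field -/
noncomputable def consI (S : OStr) (P : ℕ → U) (k : ℕ) (F : ℕ → U) (i j : ℕ) : U :=
  pd S P (k + 1) i (F j) + F i * pd S P (k + 1) k (F j) -
    (pd S P (k + 1) j (F i) + F j * pd S P (k + 1) k (F i))

theorem cons_itg_ev (hP : Gen S P (k + 1)) {F : ℕ → Fn (k + 1)} {G : ℕ → U} {i j : ℕ}
    (hi : DF S (F i)) (hj : DF S (F j)) (ei : ev (F i) P = G i) (ej : ev (F j) P = G j) :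
    ev (itg F i j) P = consI S P k G i j := by
  unfold consI
  rw [← ei, ← ej, pd_ev hP hj, pd_ev hP hj, pd_ev hP hi, pd_ev hP hi, ← ev_mul, ← ev_mul,
    ← ev_add, ← ev_add, ← ev_sub]
  rfl

theorem cons_I_mem (hK : DFld S P (k + 1) K) {G : ℕ → U} (hG : ∀ i, G i ∈ K) (i j : ℕ) :
    consI S P k G i j ∈ K :=
  sub_mem (add_mem (hK.pc _ _ (hG j)) (mul_mem (hG i) (hK.pc _ _ (hG j))))
    (add_mem (hK.pc _ _ (hG i)) (mul_mem (hG j) (hK.pc _ _ (hG i))))

theorem cons_sol_nhds (hP : Gen S P k) {F : ℕ → Fn (k + 1)} (dF : ∀ i < k, DF S (F i)) {φ : Fn k}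
    (dφ : DF S φ) (h : ∀ i < k, ev (pdv φ i) P = ev (F i) (upd P k (ev φ P))) :
    At (fun x => ∀ᶠ z in 𝓝 x, SolAt F φ z) P := by
  have h1 : At (fun x => ∀ i ∈ Iio k, pdv φ i x = F i (Fin.snoc x (φ x))) P :=
    (eventually_all_finite (finite_Iio k)).2 fun i hi => by
      have := h i hi
      rw [← cons_ev_snoc] at this
      exact ev_eq_iff.1 this
  have h2 := hP.nhds (DP.finset_and (finite_Iio k) fun i hi =>
    DP.eq (dφ.pdv i) ((dF i hi).comp (DF.snoc DF.id' dφ))) h1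
  filter_upwards [h2, hP.contDiffAt dφ] with ω h2 h3
  filter_upwards [h2, h3.eventually (by simp)] with z h4 h5
  exact ⟨h5.differentiableAt one_ne_zero, h4⟩

/-- the case where the centre is an end of the cell -/
theorem cons_end (hτ : Clo τ) (hG : Good S Γ τ) (hlt : ∀ k ≤ m, τ k < θ k)
    (hβ : τ (m + 1) = β + 1) (hT : Tow S θ P m E) {f w : U} (hf : f ∈ E m) (hne : w ≠ f)
    (hw : Inf (dcl S P m) (w - f)) (hb : |w| < 1) (hd1 : DFld S P m K₁)
    (hc : Pres S (upd P m w) (m + 1) (adj K₁ w) K' β) (hK2 : E m ≤ stF (dcl S P m) K')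
    (hT' : Tow S τ (upd P m w) (m + 1) E') (e1 : ∀ k < m, E k ≤ E' k) (e2 : K₁ ≤ E' m)
    (e3 : K' ≤ E' (m + 1)) (hf' : f ∈ E' m) {R : ℕ → Set U} (hR : Req R E m) :
    ∃ (c : Ctx) (E' : ℕ → Fld), Sem S θ c m ∧ Full Γ c m ∧ Pt S θ c P m E' ∧
      Ext E E' m ∧ ∀ k ≤ m, ∀ e ∈ R k, c.Rep k P e := by
  have hdE := hT.dfld (le_refl m)
  have hfd := hdE.le hf
  obtain ⟨E2, hT2, he2, hR2⟩ := (hG.2 m m (upd P m w) E' P f (R m) le_rfl hT' hT.gen
    (agree_upd w).symm (fun i hi => by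
      have := hT'.mem (i := i) (k := m + 1) (by omega) le_rfl
      rwa [upd_of_ne hi.ne] at this) hf' (by simpa using hw) (hR m le_rfl).1
    fun e he => stF_mono e3 (hK2 ((hR m le_rfl).2 he))).self
  have hT3 : Tow S τ P m E2 :=
    (hT2.mono fun k hk => by simp [skip, hk]).congr (agree_upd w)
  obtain ⟨c3, E3, hs3, hF3, hp3, he3, hr3⟩ := hG.1 m P E2 R hT3 fun k hk => ⟨(hR k hk).1, by
    rcases hk.lt_or_eq with h | rfl
    · exact fun e he => he2 k hk (e1 k h ((hR k hk).2 he))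
    · exact hR2⟩
  have hd3 := hp3.tow.dfld (le_refl m)
  obtain ⟨hg, hd⟩ := cons_dfld_adj hT.gen hd1 hfd hne hw
  obtain ⟨K4, h4, hK4⟩ := hc.base_change hg hd (cons_dfld_adj hT.gen hd3 hfd hne hw).2
    (adj_mono (e2.trans ((he2 m le_rfl).trans (he3 m le_rfl))) w)
  have hrc : RC K4 := (hK4.dfld (cons_dfld_adj hT.gen hd3 hfd hne hw).2).rc
  have hl1 : E3 m ≤ rcl (E3 m ⊔ E m) := le_sup_left.trans (le_rcl _)
  have hl2 : E m ≤ rcl (E3 m ⊔ E m) := le_sup_right.trans (le_rcl _)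
  have hK : Pres S P m (E3 m) (rcl (E3 m ⊔ E m)) (omega0 ^ (β + 1)) :=
    Pres.cons (Pres.nil (α := 0)) (hl2 hf) hne hw hb hK4 (DFld.sup hT.gen hd3 hdE) hl1
      ((rc_stF rc_dcl hrc).rcl_le (sup_le (le_stF hd3.le ((le_adj _ _).trans hK4.le))
        (hK2.trans (stF_mono h4)))) (by simp)
  have hT4 := Tow.extend_top' (τ := θ) (CloFrom.mono hτ (Nat.zero_le m)) hp3.tow hK
    (by rw [hβ]) (fun k hk => (hlt k hk.le).le) (hlt m le_rfl)
  have hx : Ext E3 (Function.update E3 m (rcl (E3 m ⊔ E m))) m := fun k hk => by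
    rcases hk.lt_or_eq with h | rfl
    · rw [Function.update_of_ne h.ne]
    · rw [Function.update_self]; exact hl1
  refine ⟨c3, _, hs3.mono fun k hk => (hlt k hk).le, hF3, hp3.of_ext hT4 hx, fun k hk => ?_, hr3⟩
  rcases hk.lt_or_eq with h | rfl
  · exact (e1 k h).trans ((he2 k hk).trans ((he3 k hk).trans (hx k hk)))
  · rw [Function.update_self]; exact hl2

theorem main_cons (hS : PfClosed S) (hθ : Clo θ) (IH : Below S Γ θ) (hT : Tow S θ P (n + 1) E)
    {α' : Ordinal.{0}} {f w : U} (h1 : Pres S P (n + 1) (base P E (n + 1)) K₁ α')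
    (hf : f ∈ E (n + 1)) (hne : w ≠ f) (hw : Inf (dcl S P (n + 1)) (w - f)) (hb : |w| < 1)
    (hc : Pres S (upd P (n + 1) w) (n + 2) (adj K₁ w) K' β) (hK1 : K₁ ≤ E (n + 1))
    (hK2 : E (n + 1) ≤ stF (dcl S P (n + 1)) K') (hlt : α' + omega0 ^ (β + 1) < θ (n + 1))
    {R : ℕ → Set U} (hR : Req R E (n + 1)) :
    ∃ (c : Ctx) (E' : ℕ → Fld), Sem S θ c (n + 1) ∧ Full Γ c (n + 1) ∧ Pt S θ c P (n + 1) E' ∧
      Ext E E' (n + 1) ∧ ∀ k ≤ n + 1, ∀ e ∈ R k, c.Rep k P e := by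
  classical
  have hdE := hT.dfld (le_refl (n + 1))
  have hfd := hdE.le hf
  obtain ⟨τ, hτ, hlτ, hβ, hTc⟩ := hT.child hθ h1 hfd hne hw hb hc hlt
  have hG : Good S Γ τ := IH τ hτ (hlτ 0 (Nat.zero_le _))
  set Ec := Function.update (Function.update E (n + 1) K₁) (n + 1 + 1) K' with hEc
  have ec0 : ∀ k < n + 1, Ec k = E k := fun k hk => by
    rw [hEc, Function.update_of_ne (by omega), Function.update_of_ne hk.ne]
  have ec1 : Ec (n + 1) = K₁ := by
    rw [hEc, Function.update_of_ne (by omega), Function.update_self]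
  have ec2 : Ec (n + 2) = K' := by rw [hEc, Function.update_self]
  have hdK : DFld S (upd P (n + 1) w) (n + 2) K' := ec2 ▸ hTc.dfld (le_refl (n + 2))
  have hlift : ∀ e : U, ∃ H ∈ K', e ∈ E (n + 1) → Inf (dcl S P (n + 1)) (H - e) := fun e => by
    by_cases he : e ∈ E (n + 1)
    · obtain ⟨-, H, hH, h⟩ := hK2 he
      exact ⟨H, hH, fun _ => h⟩
    · exact ⟨0, zero_mem _, fun h => absurd h he⟩
  choose H hH hH' using hlift
  let G : ℕ → U := fun i => H (pd S P (n + 1) i f)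
  let T : Set U := H '' R (n + 1) ∪ G '' Iio (n + 1) ∪
    image2 (consI S (upd P (n + 1) w) (n + 1) G) (Iio (n + 1)) (Iio (n + 1))
  let R' : ℕ → Set U := fun k => if k < n + 1 then R k else if k = n + 2 then T else ∅
  have hR' : Req R' Ec (n + 2) := fun k hk => by
    by_cases h : k < n + 1
    · simp only [R', if_pos h, ec0 k h]
      exact hR k h.le
    · by_cases h' : k = n + 2
      · subst h'
        simp only [R', if_neg h, if_true, ec2]
        refine ⟨(((hR _ le_rfl).1.image _).union ((finite_Iio _).image _)).union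
          ((finite_Iio _).image2 _ (finite_Iio _)), ?_⟩
        rintro _ ((⟨e, -, rfl⟩ | ⟨i, -, rfl⟩) | ⟨i, -, j, -, rfl⟩)
        exacts [hH _, hH _, cons_I_mem hdK (fun i => hH _) i j]
      · simp only [R', if_neg h, if_neg h']
        exact ⟨finite_empty, empty_subset _⟩
  obtain ⟨c, E1, hs, hF, hp, he, hr⟩ := hG.1.sg hTc hR'
  have hrT : ∀ e ∈ T, c.Rep (n + 2) (upd P (n + 1) w) e ∧ Sg S c (n + 2) (upd P (n + 1) w) e :=
    fun e he => hr (n + 2) le_rfl e (by simpa [R'] using he)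
  have e1 : ∀ k < n + 1, E k ≤ E1 k := fun k hk => ec0 k hk ▸ he k (by omega)
  have e2 : K₁ ≤ E1 (n + 1) := ec1 ▸ he (n + 1) (by omega)
  have e3 : K' ≤ E1 (n + 2) := ec2 ▸ he (n + 2) le_rfl
  have hag : Agree (upd P (n + 1) w) P (n + 1) := agree_upd w
  have hdc : dcl S (upd P (n + 1) w) (n + 1) = dcl S P (n + 1) := hag.dcl_eq
  rcases hp.end_or_has hs (ρ := f) (hdc ▸ hfd) (by rw [hdc, upd_self]; exact hw) with hend | hin
  · exact cons_end hτ hG hlτ hβ hT hf hne hw hb (h1.dfld (hT.dfld_base le_rfl)) hc hK2 hp.tow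
      e1 e2 e3 hend hR
  have hh : c.Has (n + 2) (upd P (n + 1) f) := by
    have := hin f (by simpa using Inf.zero _)
    rwa [cons_upd_upd] at this
  clear hin
  obtain ⟨φ, dφ, rfl⟩ := id hfd
  have hPd : ∀ i < n + 1, P i ∈ dcl S P (n + 1) := fun i hi => self_mem_dcl hi
  have hex : ∀ i, ∃ F : Fn (n + 2), i < n + 1 →
      F ∈ c.gens (n + 2) ∧ ev F (upd P (n + 1) w) = G i := fun i => by
    by_cases hi : i < n + 1
    · obtain ⟨F, hF⟩ := (hrT (G i) (.inl (.inr ⟨i, hi, rfl⟩))).1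
      exact ⟨F, fun _ => hF⟩
    · exact ⟨fun _ => 0, fun h => absurd h hi⟩
  choose F hFF using hex
  have hFg : ∀ i < n + 1, F i ∈ c.gens (n + 2) := fun i hi => (hFF i hi).1
  have dF : ∀ i < n + 1, DF S (F i) := fun i hi => hs.df _ le_rfl _ (hFg i hi)
  have aF : ∀ i < n + 1, AnalyticOnNhd ℝ (F i) (c.cell (n + 2)) :=
    fun i hi => hs.an _ le_rfl _ (hFg i hi)
  have hpd : ∀ i < n + 1, pd S P (n + 1) i (ev φ P) = ev (F i) (upd P (n + 1) (ev φ P)) :=
    fun i hi => by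
      obtain ⟨h2, h3⟩ := cons_near hs hPd hfd hw hh (hFg i hi)
      rw [(hFF i hi).2] at h3
      exact cons_eq_of_near (pd_mem _ _) h2 (hH' _ (hdE.pc i _ hf)) h3
  have hsol := cons_sol_nhds hT.gen dF dφ fun i hi => by rw [← pd_ev hT.gen dφ, hpd i hi]
  have hin : At (fun z => Fin.snoc z (φ z) ∈ c.cell (n + 2)) P :=
    (cons_at_snoc φ fun x => x ∈ c.cell (n + 2)).2 hh
  have hI : ∀ p ∈ c.cell (n + 2), ∀ i < n + 1, ∀ j < n + 1, itg F i j p = 0 := by
    intro p hp' i hi j hj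
    refine Tri.zero_of ((hrT _ (.inr ⟨i, hi, j, hj, rfl⟩)).2 _ (cons_itg_df (dF i hi) (dF j hj))
      (cons_itg_an (aF i hi) (aF j hj)) (cons_itg_ev hp.tow.gen (dF i hi) (dF j hj) (hFF i hi).2
        (hFF j hj).2)) hh ?_ p hp'
    rw [← cons_ev_snoc, ev_eq_zero_iff]
    filter_upwards [hsol, hin] with ω h2 h3
    exact itg_of_sol (fun i hi => aF i hi _ h3) h2 hi hj
  obtain ⟨τ', c', E2, g, hτ', hl', heq, hs', hF', hp', he', hle, dg, eg, hg⟩ :=
    extend_leaf hS hθ IH hτ hlτ hs hFg hI ((hp.down (Nat.le_succ _)).congr hag) dφ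
      (by filter_upwards [hsol, hin] with ω h2 h3 using ⟨h3, h2.self_of_nhds⟩)
  have ag : AnalyticOnNhd ℝ g (c'.cell (n + 1)) := fun x hx =>
    analyticAt_of_solAt (fun i hi => aF i hi _ (hg x hx).1)
      (Eventually.mono ((hs'.isOpen le_rfl).mem_nhds hx) fun z hz => (hg z hz).2)
  let T' : Set (Fn (n + 1)) := insert g (slc g '' c.gens (n + 2))
  have hs2 := hs'.addGens (τ := θ) (γ := omega0 ^ (β + 1)) (T := T')
    (((hs.fin _ le_rfl).image _).insert _) (by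
      rintro _ (rfl | ⟨H, hH, rfl⟩)
      · exact ⟨dg, ag⟩
      · exact ⟨(hs.df _ le_rfl H hH).comp (DF.snoc DF.id' dg),
          analyticOnNhd_snoc ag (hs.an _ le_rfl H hH) fun x hx => (hg x hx).1⟩)
    (fun k hk => (hl' k hk.le).le) (fun a ha => by
      have := hτ (n + 1) (Nat.zero_le _) a (heq (n + 1) le_rfl ▸ ha)
      rw [hβ] at this
      exact this.trans_lt (hlτ _ le_rfl))
    fun P₀ m y K h1 h2 h3 h4 h5 => cons_chain hs hβ hle hFg dg hg h1 h2 h3 h4 h5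
  obtain ⟨a, ha, hpr⟩ := hp.tow.pres (n + 2) le_rfl
  have hbase : base (upd P (n + 1) w) E1 (n + 2) = adj (E1 (n + 1)) w := by
    simp only [base, upd_self]
  have hd2 := hp'.tow.dfld (le_refl (n + 1))
  obtain ⟨K4, h4, hK4⟩ := hpr.base_change hp.tow.gen (hp.tow.dfld_base le_rfl)
    (cons_dfld_adj hT.gen hd2 hfd hne hw).2 (hbase ▸ adj_mono (he' _ le_rfl) w)
  obtain ⟨hK, hf4⟩ := Pres.node hT.gen hd2 hfd hne hw hb hK4 fun i hi =>
    ⟨G i, h4 (e3 (hH _)), by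
      rw [hpd i hi, ← (hFF i hi).2]
      exact lip_near hPd hfd hw (dF i hi)
        (Eventually.mono hh fun _ hx => (aF i hi _ hx).differentiableAt)⟩
  have hT4 := Tow.extend_top' (τ := θ) (CloFrom.mono hτ' (Nat.zero_le (n + 1))) hp'.tow hK
    (by rw [heq (n + 2) (by omega), hβ]; exact cons_pow_le (hβ ▸ ha))
    (fun k hk => (hl' k hk.le).le) (hl' _ le_rfl)
  have hslc : ∀ H : Fn (n + 2), ev (slc g H) P = ev H (upd P (n + 1) (ev φ P)) := fun H => by
    rw [← eg, ← cons_ev_snoc]; rfl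
  have hgens : ∀ k < n + 1, Function.update c'.gens (n + 1) (c'.gens (n + 1) ∪ T') k = c'.gens k :=
    fun k hk => Function.update_of_ne hk.ne _ _
  refine ⟨_, _, hs2, fun k hk => ?_, ⟨hT4, ?_, fun k hk => ?_⟩, fun k hk => ?_, fun k hk => ?_⟩
  · rw [cons_cell]
    refine ⟨(hF' k hk).1, ?_⟩
    rcases hk.lt_or_eq with h | rfl
    · simpa only [hgens k h] using (hF' k hk).2
    · simp only [Function.update_self]
      have pg : Γ.Pf (n + 1) (c'.cell (n + 1)) g := Γ.ode F (hF' _ le_rfl).1 (hF _ le_rfl).1 ag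
        (fun i hi => (hF _ le_rfl).2 _ (hFg i hi)) (fun x hx => (hg x hx).1)
        fun x hx => (hg x hx).2.2
      rintro _ (h | rfl | ⟨H, hH, rfl⟩)
      · exact (hF' _ le_rfl).2 _ h
      · exact pg
      · exact Γ.comp pg ((hF _ le_rfl).2 H hH) fun x hx => (hg x hx).1
  · have := hp'.has
    simpa only [Ctx.Has, cons_cell] using this
  · rcases hk.lt_or_eq with h | rfl
    · rw [Function.update_of_ne h.ne]
      intro ψ hψ
      exact hp'.vals k hk ψ (hgens k h ▸ hψ)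
    · simp only [Ctx.Vals, Function.update_self]
      rintro _ (h | rfl | ⟨H, hH, rfl⟩)
      · exact hK.le (hp'.vals _ le_rfl _ h)
      · exact eg ▸ hf4
      · obtain ⟨h2, h3⟩ := cons_near hs hPd hfd hw hh hH
        rw [hslc]
        exact ⟨h2, _, h4 (hp.vals _ le_rfl H hH), h3⟩
  · rcases hk.lt_or_eq with h | rfl
    · rw [Function.update_of_ne h.ne]
      exact (e1 k h).trans (he' k hk)
    · rw [Function.update_self]
      exact hK2.trans (stF_mono (e3.trans h4))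
  · intro e heR
    rcases hk.lt_or_eq with h | rfl
    · obtain ⟨ψ, hψ, rfl⟩ := (hr k (by omega) e (by simpa only [R', if_pos h] using heR)).1
      exact ⟨ψ, (hgens k h).ge ((hle k hk).2 hψ), ((hag.mono hk).ev_eq ψ).symm⟩
    · obtain ⟨ψ, hψ, e4⟩ := (hrT (H e) (.inl (.inl ⟨e, heR, rfl⟩))).1
      refine ⟨slc g ψ, ?_, ?_⟩
      · simp only [Function.update_self]
        exact .inr (.inr ⟨ψ, hψ, rfl⟩)
      · obtain ⟨h2, h3⟩ := cons_near hs hPd hfd hw hh hψ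
        have h5 := (hR _ le_rfl).2 heR
        rw [hslc]
        exact cons_eq_of_near h2 (hdE.le h5) (e4 ▸ h3) (hH' e h5)

end Pool.Agent.Lib.MP_1a1eb7_lc
end

-- part Pool.Agent.Lib.MP_1a1eb7_lc.Final
section

/-! C9: the induction and the interface for the final part. -/

namespace Pool.Agent.Lib.MP_1a1eb7_lc

open Set Filter Topology Pool.Agent.Shared.OMin
open Ordinal (omega0)

variable {S : OStr} {Γ : Sys} {θ θ₁ θ₂ τ : ℕ → Ordinal.{0}} {P Q Z Z' y : ℕ → U} {n m k r N : ℕ}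
  {E E' : ℕ → Fld} {c c' : Ctx} {α β γ : Ordinal.{0}} {K K₀ K₀' K₁ K₂ K' : Fld}

theorem main_step (hS : PfClosed S) (hθ : Clo θ) (IH : Below S Γ θ) : Main S Γ θ := by
  intro n P E R hT hR
  cases n with
  | zero => exact main_zero hT hR
  | succ n =>
    obtain ⟨a, ha, hp⟩ := hT.pres (n + 1) le_rfl
    rcases hp.cases' with h | ⟨K₁, K', α', β, f, w, h1, hf, hne, hw, hb, hc, -, hK1, hK2, hle⟩
    · exact main_nil hθ IH hT h hR
    · exact main_cons hS hθ IH hT h1 hf hne hw hb hc hK1 hK2 (hle.trans_lt ha) hR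

theorem good_all (hS : PfClosed S) (Γ : Sys) (hθ : Clo θ) : Good S Γ θ := by
  have : ∀ o : Ordinal.{0}, ∀ θ : ℕ → Ordinal.{0}, θ 0 = o → Clo θ → Good S Γ θ := by
    intro o
    induction o using WellFoundedLT.induction with
    | ind o ih =>
      intro θ e hθ
      have IH : Below S Γ θ := fun τ hτ hlt => ih (τ 0) (e ▸ hlt) τ rfl hτ
      exact ⟨main_step hS hθ IH, lim_step hθ IH⟩
  exact this _ θ rfl hθ

/-- the tower without nodes -/
noncomputable def finalTow (P : ℕ → U) : ℕ → Fld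
  | 0 => ⊥
  | k + 1 => adj (finalTow P k) (P k)

theorem exists_st0 (hS : PfClosed S) (Γ : Sys) (hP : Gen S P n) (hb : ∀ i < n, |P i| < 1) :
    ∃ C, St S Γ P n C := by
  obtain ⟨θ, hθ, h0⟩ := exists_clo (fun _ => 0) n
  have hT : Tow S θ P n (finalTow P) := ⟨hP, hb, fun k hk => ⟨0, h0 k hk, by
    cases k <;> exact Pres.nil⟩⟩
  obtain ⟨c, E, h1, h2, h3, -⟩ := (good_all hS Γ hθ).1 n P _ (fun _ => ∅) hT
    fun _ _ => ⟨finite_empty, empty_subset _⟩
  exact ⟨_, θ, c, E, hθ, h1, h2, h3, rfl⟩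

theorem St.props {C : Set (Fin n → ℝ)} (h : St S Γ P n C) : Γ.Cell n C ∧ At (fun x => x ∈ C) P ∧
    IsOpen C ∧ IsPreconnected C ∧ ∀ x ∈ C, ∀ i, |x i| < 1 := by
  obtain ⟨θ, c, E, -, h1, h2, h3, rfl⟩ := h
  exact ⟨(h2 n le_rfl).1, h3.has, h1.isOpen le_rfl, h1.isPreconnected le_rfl,
    fun _ hx i => h1.abs_lt le_rfl hx i⟩

theorem St.refine (hS : PfClosed S) {C : Set (Fin n → ℝ)} (h : St S Γ P n C) {χ : Fn n}
    (hd : DF S χ) (ha : AnalyticOnNhd ℝ χ C) (hp : Able S P n (ev χ P)) :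
    ∃ C' ⊆ C, St S Γ P n C' ∧ Tri χ C' := by
  classical
  obtain ⟨θ, c, E, -, h1, -, h3, rfl⟩ := h
  obtain ⟨K, a, hK, he⟩ := hp (E n) (h3.tow.dfld le_rfl) fun i hi => h3.tow.mem hi le_rfl
  obtain ⟨b, -, hb⟩ := h3.tow.pres n le_rfl
  obtain ⟨τ, hτ, hlt⟩ := exists_clo (fun k => if k = n then b + a else θ k) n
  have hT := h3.tow.top (τ := τ) (hb.trans hK)
    (fun k hk => by simpa only [if_neg hk.ne] using (hlt k hk.le).le)
    (by simpa only [if_true] using hlt n le_rfl)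
  obtain ⟨c', E', g1, g2, g3, -, g5, g6⟩ := (good_all hS Γ hτ).1.top h1 le_rfl hT h3.has
    (fun k hk => by
      rcases hk.lt_or_eq with h | rfl
      · rw [Function.update_of_ne h.ne]; exact h3.vals k hk
      · rw [Function.update_self]; exact (h3.vals k hk).mono hK.le)
    (finite_singleton (ev χ P)) (by simpa using he)
  exact ⟨_, (g5 n le_rfl).1, ⟨τ, c', E', hτ, g1, g2, g3, rfl⟩,
    (g6 _ rfl).2 χ hd (ha.mono (g5 n le_rfl).1) rfl⟩

end Pool.Agent.Lib.MP_1a1eb7_lc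
end

-- part Pool.Agent.Lib.MP_1a1eb7_lc.Special
section

/-! D3a: compatible cells at special points. -/

namespace Pool.Agent.Lib.MP_1a1eb7_lc

open Set Filter Topology Pool.Agent.Shared.OMin

variable {S : OStr} {s : Bool} {m d n : ℕ} {A : Set (Fin m → ℝ)} {f g : Fn m}
  {o : Option (Fn m)} {P y : ℕ → U}

variable {Γ : Sys} {C : Set (Fin d → ℝ)} {Λ : (Fin d → ℝ) → Fin m → ℝ}

/-- the image of the point `P` under `Λ` -/
noncomputable def specialPt (Λ : (Fin d → ℝ) → Fin m → ℝ) (P : ℕ → U) : ℕ → U :=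
  fun i => if h : i < m then ev (fun x => Λ x ⟨i, h⟩) P else 0

theorem special_tp (Λ : (Fin d → ℝ) → Fin m → ℝ) (P : ℕ → U) :
    ∀ᶠ ω in 𝔲, tp (specialPt Λ P) m ω = Λ (tp P d ω) := by
  have : ∀ᶠ ω in 𝔲, ∀ i : Fin m, out (ev (fun x => Λ x i) P) ω = Λ (tp P d ω) i :=
    eventually_all.2 fun i => out_ev (fun x => Λ x i) P
  filter_upwards [this] with ω h
  funext i
  simp only [tp, specialPt, dif_pos i.2]
  exact h i

theorem special_open (hS : PfClosed S) (hf : Pff s m A (some f)) (hP : Gen S P d)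
    (hC : At (fun x => x ∈ C) P) (dΛ : DF S Λ) (aΛ : AnalyticOnNhd ℝ Λ C)
    (bΛ : ∀ i, Able S P d (ev (fun x => Λ x i) P)) (hm : MapsTo Λ C A) :
    ∃ χ : Fn d, DF S χ ∧ AnalyticOnNhd ℝ χ C ∧ Able S P d (ev χ P) ∧
      ∀ x ∈ C, χ x = f (Λ x) := by
  obtain ⟨f', df', e⟩ := (hf.dp hS).2 f rfl
  obtain ⟨ho, -, -, ha⟩ := hf.basic
  refine ⟨fun x => f' (Λ x), df'.comp dΛ, fun x hx => ?_, ?_, fun x hx => e (hm hx)⟩
  · have h1 : AnalyticAt ℝ f' (Λ x) := (ha f rfl _ (hm hx)).congr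
      (by filter_upwards [ho.mem_nhds (hm hx)] with z hz using (e hz).symm)
    exact h1.comp (aΛ x hx)
  · have h2 : ev (fun x => f' (Λ x)) P = ev f (specialPt Λ P) := ev_eq (by
      filter_upwards [out_ev f (specialPt Λ P), special_tp Λ P, hC] with ω h1 h2 h3
      rw [h1, h2, e (hm h3)])
    rw [h2]
    refine hf.able hS hP (fun i hi => ?_) ?_
    · simp only [specialPt, dif_pos hi]
      exact bΛ _
    · filter_upwards [special_tp Λ P, hC] with ω h2 h3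
      rw [h2]
      exact hm h3

theorem special_df_sel {k : ℕ} (dΛ : DF S Λ) (σ : Fin k → Fin m) :
    DF S fun x i => Λ x (σ i) :=
  DF.pi fun i => (DF.apply (σ i)).comp dΛ

theorem special_an_coord (aΛ : AnalyticOnNhd ℝ Λ C) (i : Fin m) :
    AnalyticOnNhd ℝ (fun x => Λ x i) C := fun x hx =>
  ((ContinuousLinearMap.proj (R := ℝ) (φ := fun _ : Fin m => ℝ) i).analyticAt _).comp (aΛ x hx)

theorem special_an_sel {k : ℕ} (aΛ : AnalyticOnNhd ℝ Λ C) (σ : Fin k → Fin m) :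
    AnalyticOnNhd ℝ (fun x i => Λ x (σ i)) C := fun x hx =>
  AnalyticAt.pi fun i => special_an_coord aΛ (σ i) x hx

theorem special_tri_mono {X : Type} {φ : X → ℝ} {u v : Set X} (h : Tri φ u) (hs : v ⊆ u) :
    Tri φ v := by
  rcases h with h | h | h
  · exact Or.inl fun p hp => h p (hs hp)
  · exact Or.inr (Or.inl fun p hp => h p (hs hp))
  · exact Or.inr (Or.inr fun p hp => h p (hs hp))

theorem special_tri_congr {X : Type} {φ ψ : X → ℝ} {u : Set X} (h : Tri φ u)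
    (e : ∀ p ∈ u, ψ p = φ p) : Tri ψ u := by
  rcases h with h | h | h
  · exact Or.inl fun p hp => (e p hp).symm ▸ h p hp
  · exact Or.inr (Or.inl fun p hp => (e p hp).symm ▸ h p hp)
  · exact Or.inr (Or.inr fun p hp => (e p hp).symm ▸ h p hp)

/-- decide the position of `t` relative to an optional Pfaffian function -/
theorem special_sign (hS : PfClosed S) (ho : ∀ f ∈ o, Pff s m A (some f)) (hP : Gen S P d)
    (h : St S Γ P d C) (dΛ : DF S Λ) (aΛ : AnalyticOnNhd ℝ Λ C)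
    (bΛ : ∀ i, Able S P d (ev (fun x => Λ x i) P)) (hm : MapsTo Λ C A) {t : Fn d} (dt : DF S t)
    (ht : AnalyticOnNhd ℝ t C) (bt : Able S P d (ev t P)) :
    ∃ C' ⊆ C, St S Γ P d C' ∧ ∀ f ∈ o, Tri (fun x => t x - f (Λ x)) C' := by
  cases o with
  | none => exact ⟨C, Subset.rfl, h, fun f hf => by simp at hf⟩
  | some f =>
    obtain ⟨χ, d1, a1, b1, e1⟩ := special_open hS (ho f rfl) hP h.props.2.1 dΛ aΛ bΛ hm
    obtain ⟨C', h1, h2, h3⟩ := h.refine hS (χ := fun x => t x - χ x) (dt.sub d1) (ht.sub a1)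
      (by rw [ev_sub]; exact bt.sub b1)
    refine ⟨C', h1, h2, fun f' hf' => ?_⟩
    obtain rfl : f = f' := by simpa using hf'
    exact special_tri_congr h3 fun x hx => by rw [e1 x (h1 hx)]

theorem St.compat (hS : PfClosed S) {d' : ℕ} {A' : Set (Fin d' → ℝ)}
    {ι : (Fin d' → ℝ) → Fin m → ℝ} (hg : GCell (Pff s) m d' A' ι) (hP : Gen S P d)
    (h : St S Γ P d C) (dΛ : DF S Λ) (aΛ : AnalyticOnNhd ℝ Λ C)
    (bΛ : ∀ i, Able S P d (ev (fun x => Λ x i) P)) :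
    ∃ C' ⊆ C, St S Γ P d C' ∧ (MapsTo Λ C' (ι '' A') ∨ ∀ x ∈ C', Λ x ∉ ι '' A') := by
  induction hg with
  | point => exact ⟨C, Subset.rfl, h, Or.inl fun x _ => ⟨Λ x, mem_univ _, rfl⟩⟩
  | @graph m d' A' ι f hg hf ih =>
    obtain ⟨C₁, s1, t1, c1⟩ := ih (Λ := fun x i => Λ x i.castSucc) (special_df_sel dΛ _)
      (special_an_sel aΛ _) fun i => bΛ _
    have key : ∀ x a, Λ x = Fin.snoc (ι a) (f a) → (fun i : Fin m => Λ x i.castSucc) = ι a :=
      fun x a e => by funext i; rw [e, Fin.snoc_castSucc]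
    rcases c1 with c1 | c1
    · obtain ⟨σ, hσ⟩ := hg.exists_proj
      have hm : MapsTo (fun x i => Λ x (σ i).castSucc) C₁ A' := fun x hx => by
        obtain ⟨a, ha, e⟩ := c1 hx
        have : (fun i => Λ x (σ i).castSucc) = a := by
          rw [← hσ a]; funext i; exact (congrFun e (σ i)).symm
        show (fun i => Λ x (σ i).castSucc) ∈ A'
        rw [this]; exact ha
      obtain ⟨C₂, s2, t2, c2⟩ := special_sign hS (o := some f) (fun f' hf' => by
          obtain rfl : f = f' := by simpa using hf'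
          exact hf) hP t1 (special_df_sel dΛ fun i => (σ i).castSucc)
        ((special_an_sel aΛ fun i => (σ i).castSucc).mono s1) (fun i => bΛ _) hm
        (t := fun x => Λ x (Fin.last m)) ((DF.apply _).comp dΛ)
        ((special_an_coord aΛ _).mono s1) (bΛ _)
      have key2 : ∀ x a, Λ x = Fin.snoc (ι a) (f a) →
          Λ x (Fin.last m) - f (fun i => Λ x (σ i).castSucc) = 0 := fun x a e => by
        have : (fun i => Λ x (σ i).castSucc) = a := by
          rw [← hσ a]; funext i; exact congrFun (key x a e) (σ i)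
        rw [this, e, Fin.snoc_last, sub_self]
      refine ⟨C₂, s2.trans s1, t2, ?_⟩
      rcases c2 f rfl with c | c | c
      · exact Or.inr fun x hx ⟨a, _, e⟩ => (c x hx).ne' (key2 x a e.symm)
      · refine Or.inl fun x hx => ?_
        obtain ⟨a, ha, e⟩ := c1 (s2 hx)
        have e2 : (fun i => Λ x (σ i).castSucc) = a := by
          rw [← hσ a]; funext i; exact (congrFun e (σ i)).symm
        refine ⟨a, ha, ?_⟩
        have e3 : f a = Λ x (Fin.last m) := by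
          have := c x hx
          simp only [e2] at this
          linarith
        show Fin.snoc (ι a) (f a) = Λ x
        rw [e, e3]
        exact Fin.snoc_init_self (Λ x)
      · exact Or.inr fun x hx ⟨a, _, e⟩ => (c x hx).ne (key2 x a e.symm)
    · exact ⟨C₁, s1, t1, Or.inr fun x hx ⟨a, ha, e⟩ => c1 x hx ⟨a, ha, (key x a e.symm).symm⟩⟩
  | @band m d' A' ι g h' hg hg1 hh1 hlt ih =>
    obtain ⟨C₁, s1, t1, c1⟩ := ih (Λ := fun x i => Λ x i.castSucc) (special_df_sel dΛ _)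
      (special_an_sel aΛ _) fun i => bΛ _
    have key : ∀ x (z : Fin (d' + 1) → ℝ), Λ x = Fin.snoc (ι (Fin.init z)) (z (Fin.last d')) →
        (fun i : Fin m => Λ x i.castSucc) = ι (Fin.init z) :=
      fun x a e => by funext i; rw [e, Fin.snoc_castSucc]
    rcases c1 with c1 | c1
    · obtain ⟨σ, hσ⟩ := hg.exists_proj
      have hm : MapsTo (fun x i => Λ x (σ i).castSucc) C₁ A' := fun x hx => by
        obtain ⟨a, ha, e⟩ := c1 hx
        have : (fun i => Λ x (σ i).castSucc) = a := by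
          rw [← hσ a]; funext i; exact (congrFun e (σ i)).symm
        show (fun i => Λ x (σ i).castSucc) ∈ A'
        rw [this]; exact ha
      obtain ⟨C₂, s2, t2, c2⟩ := special_sign hS hg1 hP t1
        (special_df_sel dΛ fun i => (σ i).castSucc)
        ((special_an_sel aΛ fun i => (σ i).castSucc).mono s1) (fun i => bΛ _) hm
        (t := fun x => Λ x (Fin.last m)) ((DF.apply _).comp dΛ)
        ((special_an_coord aΛ _).mono s1) (bΛ _)
      obtain ⟨C₃, s3, t3, c3⟩ := special_sign hS hh1 hP t2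
        (special_df_sel dΛ fun i => (σ i).castSucc)
        ((special_an_sel aΛ fun i => (σ i).castSucc).mono (s2.trans s1)) (fun i => bΛ _)
        (hm.mono_left s2) (t := fun x => Λ x (Fin.last m)) ((DF.apply _).comp dΛ)
        ((special_an_coord aΛ _).mono (s2.trans s1)) (bΛ _)
      have iff : ∀ x ∈ C₁, Λ x ∈ (fun z : Fin (d' + 1) → ℝ =>
          (Fin.snoc (ι (Fin.init z)) (z (Fin.last d')) : Fin (m + 1) → ℝ)) '' eband A' g h' ↔
          (∀ g' ∈ g, 0 < Λ x (Fin.last m) - g' (fun i => Λ x (σ i).castSucc)) ∧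
          ∀ g' ∈ h', Λ x (Fin.last m) - g' (fun i => Λ x (σ i).castSucc) < 0 := fun x hx => by
        constructor
        · rintro ⟨z, ⟨-, z1, z2⟩, e⟩
          have e2 : (fun i => Λ x (σ i).castSucc) = Fin.init z := by
            rw [← hσ (Fin.init z)]; funext i; exact congrFun (key x z e.symm) (σ i)
          have e3 : Λ x (Fin.last m) = z (Fin.last d') := by
            rw [← e]; simp
          rw [e2, e3]
          exact ⟨fun g' hg' => sub_pos.2 (z1 g' hg'), fun g' hg' => sub_neg.2 (z2 g' hg')⟩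
        · rintro ⟨z1, z2⟩
          obtain ⟨a, ha, e⟩ := c1 hx
          have e2 : (fun i => Λ x (σ i).castSucc) = a := by
            rw [← hσ a]; funext i; exact (congrFun e (σ i)).symm
          rw [e2] at z1 z2
          refine ⟨Fin.snoc a (Λ x (Fin.last m)), ⟨by simpa using ha, fun g' hg' => ?_,
            fun g' hg' => ?_⟩, ?_⟩
          · simpa using z1 g' hg'
          · simpa using z2 g' hg'
          · simp only [Fin.init_snoc, Fin.snoc_last]
            rw [e]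
            exact Fin.snoc_init_self (Λ x)
      refine ⟨C₃, s3.trans (s2.trans s1), t3, ?_⟩
      by_cases hx : ∀ x ∈ C₃, Λ x ∉ (fun z : Fin (d' + 1) → ℝ =>
          (Fin.snoc (ι (Fin.init z)) (z (Fin.last d')) : Fin (m + 1) → ℝ)) '' eband A' g h'
      · exact Or.inr hx
      · push Not at hx
        obtain ⟨x₀, hx₀, h0⟩ := hx
        obtain ⟨p1, p2⟩ := (iff x₀ (s2 (s3 hx₀))).1 h0
        refine Or.inl fun x hx => (iff x (s2 (s3 hx))).2 ⟨fun g' hg' => ?_, fun g' hg' => ?_⟩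
        · rcases c2 g' hg' with c | c | c
          · exact c x (s3 hx)
          · exact absurd (c x₀ (s3 hx₀)) (p1 g' hg').ne'
          · exact absurd (c x₀ (s3 hx₀)) (p1 g' hg').not_gt
        · rcases c3 g' hg' with c | c | c
          · exact absurd (c x₀ hx₀) (p2 g' hg').not_gt
          · exact absurd (c x₀ hx₀) (p2 g' hg').ne
          · exact c x hx
    · exact ⟨C₁, s1, t1, Or.inr fun x hx ⟨z, hz, e⟩ =>
        c1 x hx ⟨Fin.init z, hz.1, (key x z e.symm).symm⟩⟩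

theorem St.compat_fun (hS : PfClosed S) (hf : IsPf (Pff s) m A f) (hP : Gen S P d)
    (h : St S Γ P d C) (dΛ : DF S Λ) (aΛ : AnalyticOnNhd ℝ Λ C)
    (bΛ : ∀ i, Able S P d (ev (fun x => Λ x i) P)) (hm : MapsTo Λ C A) :
    ∃ χ : Fn d, DF S χ ∧ AnalyticOnNhd ℝ χ C ∧ Able S P d (ev χ P) ∧
      ∀ x ∈ C, χ x = f (Λ x) := by
  obtain ⟨d', A', ι, hg, rfl, hf⟩ := hf
  obtain ⟨σ, hσ⟩ := hg.exists_proj
  have key : ∀ x ∈ C, (fun i => Λ x (σ i)) ∈ A' ∧ ι (fun i => Λ x (σ i)) = Λ x := fun x hx => by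
    obtain ⟨a, ha, e⟩ := hm hx
    rw [← e, hσ a]
    exact ⟨ha, rfl⟩
  obtain ⟨χ, h1, h2, h3, h4⟩ := special_open hS hf hP h.props.2.1 (special_df_sel dΛ σ)
    (special_an_sel aΛ σ) (fun i => bΛ _) fun x hx => (key x hx).1
  exact ⟨χ, h1, h2, h3, fun x hx => by rw [h4 x hx, Function.comp_apply, (key x hx).2]⟩

theorem special_iter {X : Type} {T : Set X} (hT : T.Finite) (Φ : X → Set (Fin d → ℝ) → Prop)
    (mono : ∀ t u v, Φ t u → v ⊆ u → Φ t v) (h : St S Γ P d C)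
    (step : ∀ t ∈ T, ∀ C' ⊆ C, St S Γ P d C' → ∃ C'' ⊆ C', St S Γ P d C'' ∧ Φ t C'') :
    ∃ C' ⊆ C, St S Γ P d C' ∧ ∀ t ∈ T, Φ t C' := by
  induction T, hT using Set.Finite.induction_on with
  | empty => exact ⟨C, Subset.rfl, h, fun t ht => ht.elim⟩
  | @insert a T _ _ ih =>
    obtain ⟨C₁, s1, t1, c1⟩ := ih fun t ht => step t (mem_insert_of_mem _ ht)
    obtain ⟨C₂, s2, t2, c2⟩ := step a (mem_insert _ _) C₁ s1 t1
    refine ⟨C₂, s2.trans s1, t2, fun t ht => ?_⟩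
    rcases ht with rfl | ht
    · exact c2
    · exact mono t _ _ (c1 t ht) s2

theorem special (hS : PfClosed S) {A₀ : Set (Fin d → ℝ)} {ι : (Fin d → ℝ) → Fin m → ℝ}
    (hg : GCell VS m d A₀ ι) (hy : Gen S y d) (hA : At (fun x => x ∈ A₀) y)
    {𝒯 : Set (Set (Fin m → ℝ) × Fn m)} (hT : 𝒯.Finite) (hp : ∀ p ∈ 𝒯, IsPf (Pff s) m p.1 p.2) :
    ∃ A₁ ⊆ A₀, VS d A₁ none ∧ At (fun x => x ∈ A₁) y ∧ Cmp 𝒯 (ι '' A₁) := by
  obtain ⟨Γ, hΓ⟩ := exists_sys
  set P : ℕ → U := fun i => cl fun ω => rho (out (y i) ω) with hPdef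
  have hout : ∀ i, ∀ᶠ ω in 𝔲, out (P i) ω = rho (out (y i) ω) := fun i =>
    out_cl ((sm_out (y i)).comp rho)
  have htp : ∀ᶠ ω in 𝔲, tp P d ω = fun i => rho (tp y d ω i) := by
    filter_upwards [eventually_all.2 fun i : Fin d => hout i] with ω h
    funext i
    exact h i
  have hb : ∀ i, |P i| < 1 := fun i => lt_iff.2 (by
    filter_upwards [out_abs (P i), hout i, out_one] with ω h1 h2 h3
    rw [h1, h2, h3]
    exact abs_rho_lt _)
  have dΛ₀ : DF S fun (x : Fin d → ℝ) i => rhoi (x i) :=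
    DF.pi fun i => (df_rhoi S).comp (DF.apply i)
  have hP : Gen S P d := (hy.of_span fun i hi => by
    have : ev (fun x : Fin d → ℝ => rhoi (x ⟨i, hi⟩)) P = y i := ev_eq (by
      filter_upwards [htp] with ω h
      rw [h, rhoi_rho]
      rfl)
    rw [← this]
    exact ev_mem_dcl ((df_rhoi S).comp (DF.apply _))).1
  obtain ⟨C₀, t0⟩ := exists_st0 hS Γ hP fun i _ => hb i
  have aΛ₀ : AnalyticOnNhd ℝ (fun (x : Fin d → ℝ) i => rhoi (x i)) C₀ := fun x hx =>
    AnalyticAt.pi fun i => (analyticAt_rhoi (t0.props.2.2.2.2 x hx i)).comp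
      (f := fun x : Fin d → ℝ => x i) ((ContinuousLinearMap.proj (R := ℝ) (φ := fun _ : Fin d => ℝ) i).analyticAt x)
  have bΛ₀ : ∀ i : Fin d, Able S P d (ev (fun x : Fin d → ℝ => rhoi (x i)) P) := fun i =>
    (Able.coord i.2).rhoi (hb i)
  obtain ⟨C₁, s1, t1, c1⟩ := St.compat hS (hg.vs.1.toPff s).gcell hP t0 dΛ₀ aΛ₀ bΛ₀
  rw [image_id] at c1
  have hm : MapsTo (fun (x : Fin d → ℝ) i => rhoi (x i)) C₁ A₀ := by
    refine c1.resolve_right fun c => ?_
    obtain ⟨ω, h1, h2, h3⟩ := (htp.and (t1.props.2.1.and hA)).exists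
    refine c _ h2 ?_
    rw [h1]
    simpa only [rhoi_rho] using h3
  choose χ dχ aχ bχ eχ using fun i : Fin m => special_open hS ((hg.vs.2 i).toPff s) hP
    t1.props.2.1 dΛ₀ (aΛ₀.mono s1) bΛ₀ hm
  have dΛ : DF S fun x i => χ i x := DF.pi dχ
  have aΛ : AnalyticOnNhd ℝ (fun x i => χ i x) C₁ := fun x hx => AnalyticAt.pi fun i => aχ i x hx
  obtain ⟨C₂, s2, t2, c2⟩ := special_iter hT
    (fun p C' => MapsTo (fun x i => χ i x) C' p.1 ∨ ∀ x ∈ C', (fun i => χ i x) ∉ p.1)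
    (fun p u v h hs => h.imp (fun h => h.mono_left hs) fun h x hx => h x (hs hx)) t1
    fun p hp' C' s' t' => by
      obtain ⟨d', A', ι', hg', e, -⟩ := hp p hp'
      rw [e]
      exact St.compat hS hg' hP t' dΛ (aΛ.mono s') bχ
  obtain ⟨C₃, s3, t3, c3⟩ := special_iter (hT.prod hT)
    (fun q C' => MapsTo (fun x i => χ i x) C₂ q.1.1 → MapsTo (fun x i => χ i x) C₂ q.2.1 →
      Tri (fun x => q.1.2 (fun i => χ i x) - q.2.2 fun i => χ i x) C')
    (fun p u v h hs h1 h2 => special_tri_mono (h h1 h2) hs) t2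
    fun q hq C' s' t' => by
      by_cases h1 : MapsTo (fun x i => χ i x) C₂ q.1.1
      · by_cases h2 : MapsTo (fun x i => χ i x) C₂ q.2.1
        · obtain ⟨φ, d1, a1, b1, e1⟩ := St.compat_fun hS (hp _ hq.1) hP t' dΛ
            (aΛ.mono (s'.trans s2)) bχ (h1.mono_left s')
          obtain ⟨ψ, d2, a2, b2, e2⟩ := St.compat_fun hS (hp _ hq.2) hP t' dΛ
            (aΛ.mono (s'.trans s2)) bχ (h2.mono_left s')
          obtain ⟨C'', s'', t'', c''⟩ := t'.refine hS (χ := fun x => φ x - ψ x) (d1.sub d2)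
            (a1.sub a2) (by rw [ev_sub]; exact b1.sub b2)
          exact ⟨C'', s'', t'', fun _ _ => special_tri_congr c'' fun x hx => by
            rw [e1 x (s'' hx), e2 x (s'' hx)]⟩
        · exact ⟨C', Subset.rfl, t', fun _ h => absurd h h2⟩
      · exact ⟨C', Subset.rfl, t', fun h => absurd h h1⟩
  have hvs := hΓ d C₃ t3.props.1
  have e0 : ∀ x ∈ {x : Fin d → ℝ | (fun i => rho (x i)) ∈ C₃},
      ι x = fun i => χ i fun j => rho (x j) := fun x hx => by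
    funext i
    rw [eχ i _ (s2 (s3 hx))]
    simp only [rhoi_rho]
  have key : ∀ p ∈ 𝒯, ι '' {x : Fin d → ℝ | (fun i => rho (x i)) ∈ C₃} ⊆ p.1 →
      MapsTo (fun x i => χ i x) C₂ p.1 := fun p hp' hs => by
    refine (c2 p hp').resolve_right fun c => ?_
    obtain ⟨x, hx⟩ := hvs.basic.2.1
    exact c _ (s3 hx) (e0 x hx ▸ hs ⟨x, hx, rfl⟩)
  refine ⟨_, fun x hx => ?_, hvs, ?_, fun p hp' => ?_, fun p hp1 p' hp2 h1 h2 => ?_⟩
  · simpa only [rhoi_rho] using hm (s2 (s3 hx))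
  · filter_upwards [htp, t3.props.2.1] with ω h1 h2
    rw [h1] at h2
    exact h2
  · refine (c2 p hp').imp (fun c => ?_) fun c => disjoint_left.2 ?_
    · rintro _ ⟨x, hx, rfl⟩
      rw [e0 x hx]
      exact c (s3 hx)
    · rintro _ ⟨x, hx, rfl⟩
      rw [e0 x hx]
      exact c _ (s3 hx)
  · have := c3 (p, p') ⟨hp1, hp2⟩ (key p hp1 h1) (key p' hp2 h2)
    rcases this with c | c | c
    · refine Or.inl ?_
      rintro _ ⟨x, hx, rfl⟩
      rw [e0 x hx]
      exact c _ hx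
    · refine Or.inr (Or.inl ?_)
      rintro _ ⟨x, hx, rfl⟩
      rw [e0 x hx]
      exact c _ hx
    · refine Or.inr (Or.inr ?_)
      rintro _ ⟨x, hx, rfl⟩
      rw [e0 x hx]
      exact c _ hx

end Pool.Agent.Lib.MP_1a1eb7_lc
end

-- part Pool.Agent.Lib.MP_1a1eb7_lc.Cover
section

/-! D3b: every point has the same cell type as a special point; finite covers. -/

namespace Pool.Agent.Lib.MP_1a1eb7_lc

open Set Filter Topology Pool.Agent.Shared.OMin

variable {S : OStr} {s : Bool} {m d n : ℕ} {A : Set (Fin m → ℝ)} {f g : Fn m}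
  {o : Option (Fn m)} {P y : ℕ → U}

theorem cover_ev_iff {p q : Ω → Prop} (h : (∀ᶠ ω in 𝔲, p ω) ↔ ∀ᶠ ω in 𝔲, q ω) :
    ∀ᶠ ω in 𝔲, p ω ↔ q ω := by
  rcases ev_em p with h1 | h1
  · filter_upwards [h1, h.1 h1] with ω a b using iff_of_true a b
  · filter_upwards [h1, ev_not.2 fun h2 => ev_not.1 h1 (h.2 h2)] with ω a b using iff_of_false a b

theorem cover_real {I : Type} (J : Finset I) (u w : I → ℝ) (lo hi : I → Prop)
    (h : ∀ i ∈ J, ∀ j ∈ J, lo i → hi j → u i < u j) :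
    ∃ t, ∀ i ∈ J, t ≠ w i ∧ (lo i → u i < t) ∧ (hi i → t < u i) := by
  classical
  obtain ⟨t, h1, h2⟩ := Finset.exists_between' ((J.filter lo).image u) ((J.filter hi).image u)
    (by
      simp only [Finset.mem_image, Finset.mem_filter]
      rintro _ ⟨i, ⟨a, b⟩, rfl⟩ _ ⟨j, ⟨c, e⟩, rfl⟩
      exact h i a j c b e)
  have h3 : {r | ∀ i ∈ J, (lo i → u i < r) ∧ (hi i → r < u i)} ∈ 𝓝 t := by
    refine (eventually_all_finset J).2 fun i hi' => Eventually.and ?_ ?_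
    · exact eventually_imp_distrib_left.2 fun a => eventually_gt_nhds
        (h1 _ (Finset.mem_image_of_mem u (Finset.mem_filter.2 ⟨hi', a⟩)))
    · exact eventually_imp_distrib_left.2 fun a => eventually_lt_nhds
        (h2 _ (Finset.mem_image_of_mem u (Finset.mem_filter.2 ⟨hi', a⟩)))
  obtain ⟨r, h4, h5⟩ := (infinite_of_mem_nhds t h3).exists_notMem_finset (J.image w)
  exact ⟨r, fun i a => ⟨fun e => h5 (e ▸ Finset.mem_image_of_mem w a), h4 i a⟩⟩

/-- `ι y` is a special point with the same cell type as `P` -/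
structure CoverSp (S : OStr) (m : ℕ) (P : ℕ → U) (d : ℕ) (A₀ : Set (Fin d → ℝ))
    (ι : (Fin d → ℝ) → Fin m → ℝ) (y : ℕ → U) : Prop where
  cell : GCell VS m d A₀ ι
  gen : Gen S y d
  mem : At (fun x => x ∈ A₀) y
  iff : ∀ C, IsCell VS m C → (At (fun x => x ∈ C) P ↔ At (fun x => ι x ∈ C) y)

variable {A₀ : Set (Fin d → ℝ)} {ι : (Fin d → ℝ) → Fin m → ℝ}

theorem CoverSp.loc (hS : PfClosed S) (h : CoverSp S m P d A₀ ι y)
    {𝒯 : Set (Set (Fin m → ℝ) × Fn m)} (hT : 𝒯.Finite) (hp : ∀ p ∈ 𝒯, IsPf (Pff s) m p.1 p.2) :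
    ∃ A₁, GCell VS m d A₁ ι ∧ At (fun x => x ∈ A₁) y ∧ At (fun x => x ∈ ι '' A₁) P ∧
      Cmp 𝒯 (ι '' A₁) := by
  obtain ⟨A₁, h1, h2, h3, h4⟩ := special hS h.cell h.gen h.mem hT hp
  exact ⟨A₁, h.cell.restrict h2 h1, h3, (h.iff _ ⟨d, A₁, ι, h.cell.restrict h2 h1, rfl⟩).2
    (h3.mono fun ω a => mem_image_of_mem ι a), h4⟩

theorem cover_sub {𝒯 : Set (Set (Fin m → ℝ) × Fn m)} {Q : Set (Fin m → ℝ)} (h : Cmp 𝒯 Q)
    (hQ : At (fun x => x ∈ Q) P) {p : Set (Fin m → ℝ) × Fn m} (hp : p ∈ 𝒯)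
    (h' : At (fun x => x ∈ p.1) P) : Q ⊆ p.1 :=
  (h.1 p hp).resolve_right fun e => by
    obtain ⟨ω, a, b⟩ := (hQ.and h').exists
    exact disjoint_left.1 e a b

theorem CoverSp.tri (hS : PfClosed S) (h : CoverSp S m P d A₀ ι y) {B : Set (Fin m → ℝ)}
    (hf : IsPf VS m A f) (hg : IsPf VS m B g) (hA : At (fun x => x ∈ A) P)
    (hB : At (fun x => x ∈ B) P) :
    ∀ᶠ ω in 𝔲, f (tp P m ω) < g (tp P m ω) ↔ f (ι (tp y d ω)) < g (ι (tp y d ω)) := by
  obtain ⟨A₁, -, h1, h2, h3⟩ := h.loc (s := true) hS (𝒯 := {(A, f), (B, g)}) (toFinite _) (by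
    rintro _ (rfl | rfl)
    exacts [hf.toPff true, hg.toPff true])
  have h4 := h3.2 (A, f) (by simp) (B, g) (by simp) (cover_sub h3 h2 (by simp) hA)
    (cover_sub h3 h2 (by simp) hB)
  filter_upwards [h1, h2] with ω a b
  have a' := mem_image_of_mem ι a
  rcases h4 with h4 | h4 | h4 <;> have c := h4 _ a' <;> have e := h4 _ b <;>
    constructor <;> intro <;> dsimp only at c e <;> linarith

theorem CoverSp.step (h : CoverSp S m P d A₀ ι y) {τ : Ω → ℝ}
    (hτ : ∀ A f, IsPf VS m A f → At (fun x => x ∈ A) P → ∀ᶠ ω in 𝔲,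
      (f (tp P m ω) < out (P m) ω ↔ f (ι (tp y d ω)) < τ ω) ∧
        (out (P m) ω < f (tp P m ω) ↔ τ ω < f (ι (tp y d ω))))
    {C : Set (Fin (m + 1) → ℝ)} (hC : IsCell VS (m + 1) C) :
    At (fun x => x ∈ C) P ↔ ∀ᶠ ω in 𝔲, (Fin.snoc (ι (tp y d ω)) (τ ω) : Fin (m + 1) → ℝ) ∈ C := by
  obtain ⟨A, hA, hc⟩ := hC.inv
  have h1 := cover_ev_iff (h.iff A hA)
  refine eventually_congr ?_
  rcases ev_em fun ω => tp P m ω ∈ A with h2 | h2
  · rcases hc with ⟨f, hf, rfl⟩ | ⟨g, k, hg, hk, rfl⟩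
    · filter_upwards [h1, hτ A f hf h2] with ω a b
      simp only [mem_ofPred_eq, init_tp, tp_last, Fin.init_snoc, Fin.snoc_last]
      refine and_congr a ?_
      rw [le_antisymm_iff, le_antisymm_iff, ← not_lt, ← not_lt, ← not_lt, ← not_lt, b.1, b.2]
    · have h3 : ∀ o : Option (Fn m), (∀ f ∈ o, IsPf VS m A f) → ∀ᶠ ω in 𝔲, ∀ f ∈ o,
          (f (tp P m ω) < out (P m) ω ↔ f (ι (tp y d ω)) < τ ω) ∧
            (out (P m) ω < f (tp P m ω) ↔ τ ω < f (ι (tp y d ω))) := fun o ho => by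
        rcases o with _ | f
        · simp
        · simpa using hτ A f (ho f rfl) h2
      filter_upwards [h1, h3 g hg, h3 k hk] with ω a b c
      simp only [eband, mem_ofPred_eq, init_tp, tp_last, Fin.init_snoc, Fin.snoc_last]
      exact and_congr a (and_congr (forall₂_congr fun f hf => (b f hf).1)
        (forall₂_congr fun f hf => (c f hf).2))
  · filter_upwards [h1, h2] with ω a b
    rcases hc with ⟨f, -, rfl⟩ | ⟨g, k, -, -, rfl⟩ <;>
      simp only [eband, mem_ofPred_eq, init_tp, Fin.init_snoc, ← a, b, false_and]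

theorem CoverSp.succ (hS : PfClosed S) (h : CoverSp S m P d A₀ ι y) :
    ∃ d' A' ι' y', CoverSp S (m + 1) P d' A' ι' y' := by
  by_cases hc : ∃ B g, IsPf VS m B g ∧ At (fun x => x ∈ B) P ∧
      ∀ᶠ ω in 𝔲, out (P m) ω = g (tp P m ω)
  · obtain ⟨B, g, hg, hB, e⟩ := hc
    obtain ⟨A₁, h0, h1, h2, h3⟩ := h.loc (s := true) hS (𝒯 := {(B, g)}) (toFinite _) (by
      rintro _ rfl
      exact hg.toPff true)
    refine ⟨d, A₁, _, y, h0.graph (hg.restrict h0 (cover_sub h3 h2 rfl hB)), h.gen, h1,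
      fun C hC => h.step (τ := fun ω => g (ι (tp y d ω))) (fun A f hf hA => ?_) hC⟩
    filter_upwards [e, h.tri hS hf hg hA hB, h.tri hS hg hf hB hA] with ω a b c
    rw [a]
    exact ⟨b, c⟩
  let lo : (Set (Fin m → ℝ) × Fn m) × Fn d → Prop := fun i => IsPf VS m i.1.1 i.1.2 ∧
    At (fun x => x ∈ i.1.1) P ∧ ∀ᶠ ω in 𝔲, i.1.2 (tp P m ω) < out (P m) ω
  let hi : (Set (Fin m → ℝ) × Fn m) × Fn d → Prop := fun i => IsPf VS m i.1.1 i.1.2 ∧
    At (fun x => x ∈ i.1.1) P ∧ ∀ᶠ ω in 𝔲, out (P m) ω < i.1.2 (tp P m ω)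
  obtain ⟨t, ht⟩ := sat (sm_tp y d) (I := (Set (Fin m → ℝ) × Fn m) × Fn d)
    (fun i x t => t ≠ i.2 x ∧ (lo i → i.1.2 (ι x) < t) ∧ (hi i → t < i.1.2 (ι x))) fun J => by
      have : ∀ᶠ ω in 𝔲, ∀ i ∈ J, ∀ j ∈ J, lo i → hi j →
          i.1.2 (ι (tp y d ω)) < j.1.2 (ι (tp y d ω)) := by
        simp only [eventually_all_finset, eventually_imp_distrib_left]
        intro i _ j _ a b
        filter_upwards [h.tri hS a.1 b.1 a.2.1 b.2.1, a.2.2, b.2.2] with ω c e e'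
        exact c.1 (e.trans e')
      exact this.mono fun ω a => cover_real J _ _ lo hi a
  refine ⟨d + 1, eband A₀ none none, _, upd y d t, h.cell.band (by simp) (by simp) (by simp),
    h.gen.upd ?_, h.mem.mono fun ω a => by simpa [eband, tp_upd] using a, fun C hC => ?_⟩
  · rintro ⟨G, -, rfl⟩
    obtain ⟨ω, a, b⟩ := ((ht ((∅, 0), G)).and (out_ev G y)).exists
    exact a.1 b
  · rw [h.step (τ := out t) (fun A f hf hA => ?_) hC]
    · simp only [At, tp_upd, Fin.init_snoc, Fin.snoc_last]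
    rcases ev_or.1 (Eventually.of_forall fun ω => lt_trichotomy (f (tp P m ω)) (out (P m) ω))
      with e | e
    · filter_upwards [e, ht ((A, f), 0)] with ω a b
      have c := b.2.1 ⟨hf, hA, e⟩
      exact ⟨iff_of_true a c, iff_of_false a.not_gt c.not_gt⟩
    rcases ev_or.1 e with e | e
    · exact absurd ⟨A, f, hf, hA, e.mono fun ω a => a.symm⟩ hc
    · filter_upwards [e, ht ((A, f), 0)] with ω a b
      have c := b.2.2 ⟨hf, hA, e⟩
      exact ⟨iff_of_false a.not_gt c.not_gt, iff_of_true a c⟩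

theorem cover_exists (hS : PfClosed S) (m : ℕ) (P : ℕ → U) :
    ∃ d A₀ ι y, CoverSp S m P d A₀ ι y := by
  induction m with
  | zero => exact ⟨0, univ, id, P, GCell.point, gen_zero, Eventually.of_forall fun _ => trivial,
      fun _ _ => Iff.rfl⟩
  | succ m ih =>
    obtain ⟨d, A₀, ι, y, h⟩ := ih
    exact h.succ hS

/-- Every point has the same cell type as the image of a generic point of an open cell. -/
theorem exists_special (hS : PfClosed S) (m : ℕ) (P : ℕ → U) :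
    ∃ (d : ℕ) (A₀ : Set (Fin d → ℝ)) (ι : (Fin d → ℝ) → Fin m → ℝ) (y : ℕ → U),
      GCell VS m d A₀ ι ∧ Gen S y d ∧ At (fun x => x ∈ A₀) y ∧
      ∀ C, IsCell VS m C → (At (fun x => x ∈ C) P ↔ At (fun x => ι x ∈ C) y) := by
  obtain ⟨d, A₀, ι, y, h⟩ := cover_exists hS m P
  exact ⟨d, A₀, ι, y, h.cell, h.gen, h.mem, h.iff⟩

theorem exists_cmp_at (hS : PfClosed S) (P : ℕ → U) {𝒯 : Set (Set (Fin m → ℝ) × Fn m)}
    (hT : 𝒯.Finite) (hp : ∀ p ∈ 𝒯, IsPf (Pff s) m p.1 p.2) :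
    ∃ Q, IsCell VS m Q ∧ At (fun x => x ∈ Q) P ∧ Cmp 𝒯 Q := by
  obtain ⟨d, A₀, ι, y, h⟩ := cover_exists hS m P
  obtain ⟨A₁, h0, -, h2, h3⟩ := h.loc hS hT hp
  exact ⟨_, ⟨d, A₁, ι, h0, rfl⟩, h2, h3⟩

/-- compactness -/
theorem exists_cover (hS : PfClosed S) {𝒯 : Set (Set (Fin m → ℝ) × Fn m)}
    (hT : 𝒯.Finite) (hp : ∀ p ∈ 𝒯, IsPf (Pff s) m p.1 p.2) :
    ∃ 𝒬 : Set (Set (Fin m → ℝ)), 𝒬.Finite ∧ (∀ Q ∈ 𝒬, IsCell VS m Q ∧ Cmp 𝒯 Q) ∧
      ⋃₀ 𝒬 = univ := by
  by_contra hc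
  obtain ⟨b, hb⟩ := sat_fin m (Sm.const ()) (I := {Q // IsCell VS m Q ∧ Cmp 𝒯 Q})
    (fun Q _ t => t ∉ Q.1) fun J => Eventually.of_forall fun _ => by
      by_contra h
      push Not at h
      refine hc ⟨Subtype.val '' (J : Set {Q // IsCell VS m Q ∧ Cmp 𝒯 Q}), J.finite_toSet.image _,
        by rintro _ ⟨Q, -, rfl⟩; exact Q.2, eq_univ_of_forall fun t => ?_⟩
      obtain ⟨Q, a, c⟩ := h t
      exact ⟨_, mem_image_of_mem _ a, c⟩
  obtain ⟨Q, h1, h2, h3⟩ := exists_cmp_at hS (fun i => if h : i < m then b ⟨i, h⟩ else 0) hT hp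
  obtain ⟨ω, a, c⟩ := (h2.and (hb ⟨Q, h1, h3⟩)).exists
  refine c ?_
  convert a using 1
  funext i
  simp [tup, tp]

end Pool.Agent.Lib.MP_1a1eb7_lc
end
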