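import Pool.Agent.Lib.MP_1a1eb7_lc.PDefs
import Pool.Agent.Lib.MP_1a1eb7_lc.CDefs

/-! Auxiliary definitions for the final part. -/

namespace Pool.Agent.Lib.MP_1a1eb7_lc

open Set Filter Topology Pool.Agent.Shared.OMin

/-- the very strict class: (P4) only for simple roots and nowhere vanishing leading coefficient -/
inductive VS : (m : ℕ) → Set (Fin m → ℝ) → Option ((Fin m → ℝ) → ℝ) → Prop
  | point : VS 0 univ none
  | band {m A g h} : VS m A none → (∀ g' ∈ g, VS m A (some g')) →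
      (∀ h' ∈ h, VS m A (some h')) → (∀ g' ∈ g, ∀ h' ∈ h, ∀ x ∈ A, g' x < h' x) →
      VS (m + 1) (eband A g h) none
  | const {m A} (c : ℝ) : VS m A none → VS m A (some fun _ => c)
  | coord {m A} (i : Fin m) : VS m A none → VS m A (some fun x => x i)
  | add {m A f g} : VS m A (some f) → VS m A (some g) → VS m A (some fun x => f x + g x)
  | mul {m A f g} : VS m A (some f) → VS m A (some g) → VS m A (some fun x => f x * g x)
  | alg {m A g} (d : ℕ) (c : ℕ → Fn m) : (∀ i, VS m A (some (c i))) → AnalyticOnNhd ℝ g A →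
      (∀ x ∈ A, ∑ i ∈ Finset.range (d + 1), c i x * g x ^ i = 0) → (∀ x ∈ A, c d x ≠ 0) →
      (∀ x ∈ A, ∑ i ∈ Finset.range (d + 1), i * c i x * g x ^ (i - 1) ≠ 0) → VS m A (some g)
  | comp {m A B f F} : VS m A (some f) → VS (m + 1) B (some F) →
      (∀ x ∈ A, Fin.snoc x (f x) ∈ B) → VS m A (some fun x => F (Fin.snoc x (f x)))
  | ode {m A B f} (F : ℕ → Fn (m + 1)) : VS m A none → VS (m + 1) B none →
      AnalyticOnNhd ℝ f A → (∀ i < m, VS (m + 1) B (some (F i))) →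
      (∀ x ∈ A, Fin.snoc x (f x) ∈ B) →
      (∀ x ∈ A, ∀ i < m, pdv f i x = F i (Fin.snoc x (f x))) → VS m A (some f)
  | congr {m A f g} : VS m A (some f) → EqOn g f A → VS m A (some g)

/-- bounded cells -/
inductive BCell : (m : ℕ) → Set (Fin m → ℝ) → Prop
  | point : BCell 0 univ
  | band {m A g h} : BCell m A → VS m A (some g) → VS m A (some h) → (∀ x ∈ A, g x < h x) →
      ((∀ x ∈ A, g x = -1) ∨ ∀ x ∈ A, -1 < g x) → ((∀ x ∈ A, h x = 1) ∨ ∀ x ∈ A, h x < 1) →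
      BCell (m + 1) (band A g h)

/-- analytic bijection of the line onto `(-1,1)` -/
noncomputable def rho (t : ℝ) : ℝ := t / √(1 + t ^ 2)

/-- its inverse -/
noncomputable def rhoi (u : ℝ) : ℝ := u / √(1 - u ^ 2)

/-- compatibility of a set with a family of pairs (set, function) -/
def Cmp {m : ℕ} (𝒯 : Set (Set (Fin m → ℝ) × Fn m)) (Q : Set (Fin m → ℝ)) : Prop :=
  (∀ p ∈ 𝒯, Q ⊆ p.1 ∨ Disjoint Q p.1) ∧
    ∀ p ∈ 𝒯, ∀ p' ∈ 𝒯, Q ⊆ p.1 → Q ⊆ p'.1 → Tri (fun x => p.2 x - p'.2 x) Q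

end Pool.Agent.Lib.MP_1a1eb7_lc
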