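import Pool.Agent.Lib.MP_1a1eb7_lc.CtxB1

-- part Pool.Agent.Lib.MP_1a1eb7_lc.CtxB
section

/-! C2: contexts. -/

namespace Pool.Agent.Lib.MP_1a1eb7_lc

open Set Filter Topology Pool.Agent.Shared.OMin
open Ordinal (omega0)

variable {S : OStr} {Γ : Sys} {θ θ₁ θ₂ τ : ℕ → Ordinal.{0}} {P Q Z Z' y : ℕ → U} {n m k r N : ℕ}
  {E E' : ℕ → Fld} {c c' : Ctx} {α β γ : Ordinal.{0}} {K K₀ K₀' K₁ K₂ K' : Fld}

/-- one more level of a tower at a generic point of the cell -/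
theorem CtxB.tower_step (h : Sem S θ c (m + 1)) (hP : Gen S P (m + 1)) (hh : c.Has (m + 1) P)
    (hp : Pt S θ c P m E) : ∃ K, Pt S θ c P (m + 1) (Function.update E (m + 1) K) := by
  obtain ⟨a, ha, hc⟩ := h.chain (m + 1) le_rfl
  obtain ⟨K, h1, h2⟩ := hc P (m + 1) P (adj (E m) (P m)) hP (DFld.adj hP (hp.tow.dfld le_rfl))
    (fun i hi => by
      rcases (Nat.lt_succ_iff.1 hi).eq_or_lt with rfl | hi
      · exact mem_adj _ _
      · exact le_adj _ _ (hp.tow.mem hi le_rfl)) hh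
    (fun j hj => (hp.vals j (Nat.lt_succ_iff.1 hj)).mono
      ((hp.tow.le (Nat.lt_succ_iff.1 hj) le_rfl).trans (le_adj _ _)))
  refine ⟨K, hp.tow.succ hP.last (h.has_abs_lt hh (Nat.lt_succ_self m)) h1 ha, hh, fun k hk => ?_⟩
  rcases hk.eq_or_lt with rfl | hk
  · rwa [Function.update_self]
  · rw [Function.update_of_ne hk.ne]
    exact hp.vals k (Nat.lt_succ_iff.1 hk)

/-- build the upper levels of a tower at a generic point of the cell -/
theorem Sem.tower_up (h : Sem S θ c N) (hn : n ≤ N) (hP : Gen S P N) (hh : c.Has N P)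
    (hp : Pt S θ c P n E) : ∃ E', Pt S θ c P N E' ∧ ∀ k ≤ n, E' k = E k := by
  induction N, hn using Nat.le_induction with
  | base => exact ⟨E, hp, fun _ _ => rfl⟩
  | succ m hm ih =>
    obtain ⟨E₁, h1, h2⟩ := ih (h.down m.le_succ) (hP.mono m.le_succ) (hh.down m.le_succ)
    obtain ⟨K, h3⟩ := CtxB.tower_step h hP hh h1
    refine ⟨_, h3, fun k hk => ?_⟩
    rw [Function.update_of_ne (by omega), h2 k hk]

/-! ### changing the top -/

theorem CtxB.cell_congr (h : ∀ j < k, c'.lo j = c.lo j ∧ c'.hi j = c.hi j) :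
    c'.cell k = c.cell k := by
  induction k with
  | zero => rfl
  | succ k ih =>
    rw [CtxB.cell_succ, CtxB.cell_succ, ih fun j hj => h j (by omega), (h k k.lt_succ_self).1,
      (h k k.lt_succ_self).2]

theorem CtxB.setTop_lo_ne {lo hi : Fn n} {T : Set (Fn (n + 1))} (hk : k ≠ n) :
    (c.setTop n lo hi T).lo k = c.lo k := Function.update_of_ne hk _ _

theorem CtxB.setTop_hi_ne {lo hi : Fn n} {T : Set (Fn (n + 1))} (hk : k ≠ n) :
    (c.setTop n lo hi T).hi k = c.hi k := Function.update_of_ne hk _ _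

theorem Ctx.setTop_cell {lo hi : Fn n} {T : Set (Fn (n + 1))} (hk : k ≤ n) :
    (c.setTop n lo hi T).cell k = c.cell k :=
  CtxB.cell_congr fun _ hj => ⟨CtxB.setTop_lo_ne (by omega), CtxB.setTop_hi_ne (by omega)⟩

theorem Ctx.setTop_lo {lo hi : Fn n} {T : Set (Fn (n + 1))} : (c.setTop n lo hi T).lo n = lo :=
  Function.update_self _ _ _

theorem Ctx.setTop_hi {lo hi : Fn n} {T : Set (Fn (n + 1))} : (c.setTop n lo hi T).hi n = hi :=
  Function.update_self _ _ _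

theorem Ctx.setTop_cell_succ {lo hi : Fn n} {T : Set (Fn (n + 1))} :
    (c.setTop n lo hi T).cell (n + 1) = band (c.cell n) lo hi := by
  rw [CtxB.cell_succ, Ctx.setTop_cell le_rfl, Ctx.setTop_lo, Ctx.setTop_hi]

theorem Ctx.setTop_gens {lo hi : Fn n} {T : Set (Fn (n + 1))} (hk : k ≤ n) :
    (c.setTop n lo hi T).gens k = c.gens k := Function.update_of_ne (by omega) _ _

theorem Ctx.setTop_gens_succ {lo hi : Fn n} {T : Set (Fn (n + 1))} :
    (c.setTop n lo hi T).gens (n + 1) = T := Function.update_self _ _ _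

theorem Ctx.setTop_le {lo hi : Fn n} {T : Set (Fn (n + 1))} : (c.setTop n lo hi T).Le c n :=
  fun _ hk => ⟨(Ctx.setTop_cell hk).subset, (Ctx.setTop_gens hk).symm.subset⟩

theorem Ctx.le_setTop {lo hi : Fn n} {T : Set (Fn (n + 1))} : c.Le (c.setTop n lo hi T) n :=
  fun _ hk => ⟨(Ctx.setTop_cell hk).symm.subset, (Ctx.setTop_gens hk).subset⟩

theorem Pt.setTop (h : Pt S θ c P n E) (lo hi : Fn n) (T : Set (Fn (n + 1))) :
    Pt S θ (c.setTop n lo hi T) P n E := h.of_le Ctx.le_setTop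

/-- a chain for a bigger context with the same top functions -/
theorem CtxB.schain_of_le (h : SChain S c k α) (hc : c'.cell k ⊆ c.cell k)
    (hg : ∀ j < k, c.gens j ⊆ c'.gens j)
    (ht : ∀ φ ∈ c'.gens k, ∃ ψ ∈ c.gens k, EqOn φ ψ (c'.cell k)) : SChain S c' k α := by
  intro P m y E hP hE hy hh hv
  obtain ⟨E', h1, h2⟩ := h P m y E hP hE hy (CtxB.has_of_subset hh hc)
    fun j hj φ hφ => hv j hj φ (hg j hj hφ)
  refine ⟨E', h1, fun φ hφ => ?_⟩
  obtain ⟨ψ, hψ, e⟩ := ht φ hφ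
  have : ev φ y = ev ψ y := ev_eq_iff.2 (Filter.Eventually.mono hh fun _ hx => e hx)
  exact this ▸ h2 ψ hψ

/-- general top level -/
theorem Sem.setTop' (h : Sem S θ c n) {lo hi : Fn n} {T : Set (Fn (n + 1))} (hlo : lo ∈ c.gens n)
    (hhi : hi ∈ c.gens n) (hlt : ∀ x ∈ c.cell n, -1 ≤ lo x ∧ lo x < hi x ∧ hi x ≤ 1)
    (hT : T.Finite) (hd : ∀ φ ∈ T, DF S φ ∧ AnalyticOnNhd ℝ φ (band (c.cell n) lo hi))
    (hα : α < θ (n + 1)) (hch : SChain S (c.setTop n lo hi T) (n + 1) α) :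
    Sem S θ (c.setTop n lo hi T) (n + 1) where
  fin k hk := by
    rcases hk.eq_or_lt with rfl | hk
    · rwa [Ctx.setTop_gens_succ]
    · rw [Ctx.setTop_gens (Nat.lt_succ_iff.1 hk)]
      exact h.fin k (Nat.lt_succ_iff.1 hk)
  df k hk := by
    rcases hk.eq_or_lt with rfl | hk
    · rw [Ctx.setTop_gens_succ]
      exact fun φ hφ => (hd φ hφ).1
    · rw [Ctx.setTop_gens (Nat.lt_succ_iff.1 hk)]
      exact h.df k (Nat.lt_succ_iff.1 hk)
  an k hk := by
    rcases hk.eq_or_lt with rfl | hk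
    · rw [Ctx.setTop_gens_succ, Ctx.setTop_cell_succ]
      exact fun φ hφ => (hd φ hφ).2
    · rw [Ctx.setTop_gens (Nat.lt_succ_iff.1 hk), Ctx.setTop_cell (Nat.lt_succ_iff.1 hk)]
      exact h.an k (Nat.lt_succ_iff.1 hk)
  lo_mem k hk := by
    rw [Ctx.setTop_gens (Nat.lt_succ_iff.1 hk)]
    rcases (Nat.lt_succ_iff.1 hk).eq_or_lt with rfl | hk
    · rwa [Ctx.setTop_lo]
    · rw [CtxB.setTop_lo_ne hk.ne]
      exact h.lo_mem k hk
  hi_mem k hk := by
    rw [Ctx.setTop_gens (Nat.lt_succ_iff.1 hk)]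
    rcases (Nat.lt_succ_iff.1 hk).eq_or_lt with rfl | hk
    · rwa [Ctx.setTop_hi]
    · rw [CtxB.setTop_hi_ne hk.ne]
      exact h.hi_mem k hk
  lt k hk := by
    rw [Ctx.setTop_cell (Nat.lt_succ_iff.1 hk)]
    rcases (Nat.lt_succ_iff.1 hk).eq_or_lt with rfl | hk
    · rwa [Ctx.setTop_lo, Ctx.setTop_hi]
    · rw [CtxB.setTop_lo_ne hk.ne, CtxB.setTop_hi_ne hk.ne]
      exact h.lt k hk
  chain k hk := by
    rcases hk.eq_or_lt with rfl | hk
    · exact ⟨α, hα, hch⟩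
    · have hk' := Nat.lt_succ_iff.1 hk
      obtain ⟨a, ha, hc⟩ := h.chain k hk'
      refine ⟨a, ha, CtxB.schain_of_le hc (Ctx.setTop_cell hk').subset
        (fun j hj => (Ctx.setTop_gens (by omega)).symm.subset) fun φ hφ => ?_⟩
      rw [Ctx.setTop_gens hk'] at hφ
      exact ⟨φ, hφ, fun _ _ => rfl⟩

/-- a subband of the top level of `c` over the smaller context `c'` -/
theorem Sem.setTop (h' : Sem S θ c' n) (h : Sem S θ c (n + 1)) (hle : c'.Le c n) {lo hi : Fn n}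
    (hlo : lo ∈ c'.gens n) (hhi : hi ∈ c'.gens n)
    (hlt : ∀ x ∈ c'.cell n, c.lo n x ≤ lo x ∧ lo x < hi x ∧ hi x ≤ c.hi n x) :
    Sem S θ (c'.setTop n lo hi (c.gens (n + 1))) (n + 1) ∧
      (c'.setTop n lo hi (c.gens (n + 1))).Le c (n + 1) := by
  have hsub : band (c'.cell n) lo hi ⊆ c.cell (n + 1) := by
    rintro z ⟨h1, h2, h3⟩
    obtain ⟨h4, -, h5⟩ := hlt _ h1
    exact ⟨(hle n le_rfl).1 h1, h4.trans_lt h2, h3.trans_le h5⟩
  obtain ⟨a, ha, hc⟩ := h.chain (n + 1) le_rfl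
  refine ⟨h'.setTop' hlo hhi (fun x hx => ?_) (h.fin _ le_rfl)
    (fun φ hφ => ⟨h.df _ le_rfl φ hφ, (h.an _ le_rfl φ hφ).mono hsub⟩) ha
    (CtxB.schain_of_le hc ?_ (fun j hj => ?_) fun φ hφ => ?_), fun k hk => ?_⟩
  · obtain ⟨h1, h2, h3⟩ := hlt x hx
    obtain ⟨h4, -, h5⟩ := h.lt n n.lt_succ_self x ((hle n le_rfl).1 hx)
    exact ⟨h4.trans h1, h2, h3.trans h5⟩
  · rwa [Ctx.setTop_cell_succ]
  · rw [Ctx.setTop_gens (Nat.lt_succ_iff.1 hj)]
    exact (hle j (Nat.lt_succ_iff.1 hj)).2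
  · rw [Ctx.setTop_gens_succ] at hφ
    exact ⟨φ, hφ, fun _ _ => rfl⟩
  · rcases hk.eq_or_lt with rfl | hk
    · rw [Ctx.setTop_cell_succ, Ctx.setTop_gens_succ]
      exact ⟨hsub, Subset.rfl⟩
    · rw [Ctx.setTop_cell (Nat.lt_succ_iff.1 hk), Ctx.setTop_gens (Nat.lt_succ_iff.1 hk)]
      exact hle k (Nat.lt_succ_iff.1 hk)

theorem CtxB.cell_gens (c : Ctx) (G : ∀ k, Set (Fn k)) (k : ℕ) :
    (⟨c.lo, c.hi, G⟩ : Ctx).cell k = c.cell k := CtxB.cell_congr fun _ _ => ⟨rfl, rfl⟩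

/-- add functions at the top level -/
theorem Sem.addGens (h : Sem S θ c n) {T : Set (Fn n)} (hT : T.Finite)
    (hd : ∀ φ ∈ T, DF S φ ∧ AnalyticOnNhd ℝ φ (c.cell n)) (hτ : ∀ k < n, θ k ≤ τ k)
    (hα : ∀ a < θ n, a + γ < τ n)
    (hch : ∀ (P : ℕ → U) (m : ℕ) (y : ℕ → U) (K : Fld), Gen S P m → DFld S P m K →
      (∀ i < n, y i ∈ K) → c.Has n y → (∀ j ≤ n, c.Vals j y K) →
      ∃ K', Pres S P m K K' γ ∧ ∀ φ ∈ T, ev φ y ∈ K') :
    Sem S τ ⟨c.lo, c.hi, Function.update c.gens n (c.gens n ∪ T)⟩ n := by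
  have g1 : ∀ k < n, Function.update c.gens n (c.gens n ∪ T) k = c.gens k :=
    fun k hk => Function.update_of_ne hk.ne _ _
  have g2 : Function.update c.gens n (c.gens n ∪ T) n = c.gens n ∪ T := Function.update_self _ _ _
  refine ⟨fun k hk => ?_, fun k hk => ?_, fun k hk => ?_, fun k hk => ?_, fun k hk => ?_,
    fun k hk => ?_, fun k hk => ?_⟩
  · rcases hk.eq_or_lt with rfl | hk
    · simp only [g2]
      exact (h.fin k le_rfl).union hT
    · simp only [g1 k hk]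
      exact h.fin k hk.le
  · rcases hk.eq_or_lt with rfl | hk
    · simp only [g2]
      rintro φ (hφ | hφ)
      exacts [h.df k le_rfl φ hφ, (hd φ hφ).1]
    · simp only [g1 k hk]
      exact h.df k hk.le
  · rw [CtxB.cell_gens]
    rcases hk.eq_or_lt with rfl | hk
    · simp only [g2]
      rintro φ (hφ | hφ)
      exacts [h.an k le_rfl φ hφ, (hd φ hφ).2]
    · simp only [g1 k hk]
      exact h.an k hk.le
  · simp only [g1 k hk]
    exact h.lo_mem k hk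
  · simp only [g1 k hk]
    exact h.hi_mem k hk
  · rw [CtxB.cell_gens]
    exact h.lt k hk
  · obtain ⟨a, ha, hc⟩ := h.chain k hk
    rcases hk.eq_or_lt with rfl | hk
    · refine ⟨a + γ, hα a ha, fun P m y E hP hE hy hh hv => ?_⟩
      have hh' : c.Has k y := CtxB.has_of_subset hh (CtxB.cell_gens _ _ _).subset
      have hv' : ∀ j < k, c.Vals j y E := fun j hj φ hφ => hv j hj φ ((g1 j hj).symm.subset hφ)
      obtain ⟨E₁, h1, h2⟩ := hc P m y E hP hE hy hh' hv'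
      obtain ⟨E₂, h3, h4⟩ := hch P m y E₁ hP (h1.dfld hE) (fun i hi => h1.le (hy i hi)) hh'
        fun j hj => by
          rcases hj.eq_or_lt with rfl | hj
          exacts [h2, (hv' j hj).mono h1.le]
      refine ⟨E₂, h1.trans h3, fun φ hφ => ?_⟩
      simp only [g2] at hφ
      rcases hφ with hφ | hφ
      exacts [h3.le (h2 φ hφ), h4 φ hφ]
    · refine ⟨a, ha.trans_le (hτ k hk), CtxB.schain_of_le hc (CtxB.cell_gens _ _ _).subset
        (fun j hj => (g1 j (hj.trans hk)).symm.subset) fun φ hφ => ?_⟩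
      simp only [g1 k hk] at hφ
      exact ⟨φ, hφ, fun _ _ => rfl⟩

/-- the part of the cell at distance at least `δ` from all ends is compact -/
theorem Sem.isCompact_core (h : Sem S θ c n) {δ : ℝ} (hδ : 0 < δ) :
    IsCompact {x | x ∈ c.cell n ∧ ∀ j : Fin n,
      δ ≤ x j - c.lo j (fun i : Fin j => x (Fin.castLE j.2.le i)) ∧
      δ ≤ c.hi j (fun i : Fin j => x (Fin.castLE j.2.le i)) - x j} := by
  induction n with
  | zero => exact (Set.toFinite _).isCompact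
  | succ n ih =>
    have hK := ih (h.down n.le_succ)
    set K := {x | x ∈ c.cell n ∧ ∀ j : Fin n,
      δ ≤ x j - c.lo j (fun i : Fin j => x (Fin.castLE j.2.le i)) ∧
      δ ≤ c.hi j (fun i : Fin j => x (Fin.castLE j.2.le i)) - x j} with hKdef
    have hO : IsClosed ((fun z : Fin (n + 1) → ℝ => (Fin.init z : Fin n → ℝ)) ⁻¹' K) :=
      hK.isClosed.preimage CtxB.continuous_init
    have h1 : ContinuousOn (fun z : Fin (n + 1) → ℝ => z (Fin.last n) - c.lo n (Fin.init z))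
        ((fun z : Fin (n + 1) → ℝ => (Fin.init z : Fin n → ℝ)) ⁻¹' K) :=
      (continuous_apply _).continuousOn.sub ((CtxB.an_lo h n.lt_succ_self).continuousOn.comp
        CtxB.continuous_init.continuousOn fun _ hz => hz.1)
    have h2 : ContinuousOn (fun z : Fin (n + 1) → ℝ => c.hi n (Fin.init z) - z (Fin.last n))
        ((fun z : Fin (n + 1) → ℝ => (Fin.init z : Fin n → ℝ)) ⁻¹' K) :=
      ((CtxB.an_hi h n.lt_succ_self).continuousOn.comp
        CtxB.continuous_init.continuousOn fun _ hz => hz.1).sub (continuous_apply _).continuousOn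
    have h3 := (hO.isClosed_le continuousOn_const h1 (f := fun _ => δ)).inter
      (hO.isClosed_le continuousOn_const h2 (f := fun _ => δ))
    refine Metric.isCompact_of_isClosed_isBounded ?_ ?_
    · refine (congrArg IsClosed (Set.ext fun z => ?_)).mpr h3
      constructor
      · rintro ⟨hz, h4⟩
        have h5 : Fin.init z ∈ K := ⟨hz.1, fun j => h4 j.castSucc⟩
        exact ⟨⟨h5, (h4 (Fin.last n)).1⟩, h5, (h4 (Fin.last n)).2⟩
      · rintro ⟨⟨h5, h6⟩, -, h7⟩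
        refine ⟨⟨h5.1, by linarith, by linarith⟩, fun j => ?_⟩
        refine Fin.lastCases ?_ (fun i => ?_) j
        · exact ⟨h6, h7⟩
        · exact h5.2 i
    · refine (Metric.isBounded_closedBall (x := (0 : Fin (n + 1) → ℝ)) (r := 1)).subset ?_
      intro z hz
      rw [mem_closedBall_zero_iff, pi_norm_le_iff_of_nonneg zero_le_one]
      exact fun i => (h.abs_lt le_rfl hz.1 i).le

/-- the requests that force the new cell of level `k` into the old one -/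
def CtxB.ends (c : Ctx) (P : ℕ → U) : ℕ → Set U
  | 0 => ∅
  | k + 1 => {(P k - ev (c.lo k) P)⁻¹, (ev (c.hi k) P - P k)⁻¹}

theorem CtxB.ends_finite (c : Ctx) (P : ℕ → U) (k : ℕ) : (CtxB.ends c P k).Finite := by
  cases k with
  | zero => exact finite_empty
  | succ k => exact (finite_singleton _).insert _

theorem CtxB.cell_subset {n₀ : ℕ} (hc : Sem S θ₁ c n₀) (hc' : Sem S θ c' n₀) (hP : Gen S P n₀)
    (hh : c.Has n₀ P) (hh' : c'.Has n₀ P)
    (hR : ∀ k ≤ n₀, ∀ e ∈ CtxB.ends c P k, c'.Rep k P e) (hk : k ≤ n₀) :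
    c'.cell k ⊆ c.cell k := by
  induction k with
  | zero => exact Subset.rfl
  | succ k ih =>
    have hs := ih (by omega)
    obtain ⟨-, h1, h2⟩ := Ctx.has_succ.1 (hh.down hk)
    have h0 : DF S fun z : Fin (k + 1) → ℝ => (Fin.init z : Fin k → ℝ) := DF.init DF.id'
    have h4 : DF S fun z : Fin (k + 1) → ℝ => z (Fin.last k) := DF.apply _
    have a4 : AnalyticOnNhd ℝ (fun z : Fin (k + 1) → ℝ => z (Fin.last k)) (c'.cell (k + 1)) :=
      fun z _ =>
        (ContinuousLinearMap.proj (R := ℝ) (φ := fun _ : Fin (k + 1) => ℝ) (Fin.last k)).analyticAt z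
    have alo := analyticOnNhd_init (B := c'.cell (k + 1)) (CtxB.an_lo hc hk) fun z hz => hs hz.1
    have ahi := analyticOnNhd_init (B := c'.cell (k + 1)) (CtxB.an_hi hc hk) fun z hz => hs hz.1
    have e1 : ev (fun z : Fin (k + 1) → ℝ => z (Fin.last k) - c.lo k (Fin.init z)) P =
        P k - ev (c.lo k) P := by rw [ev_sub, ev_last, ev_init]
    have e2 : ev (fun z : Fin (k + 1) → ℝ => c.hi k (Fin.init z) - z (Fin.last k)) P =
        ev (c.hi k) P - P k := by rw [ev_sub, ev_last, ev_init]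
    have t1 := (CtxB.sg_of_rep hc' hk (hP.mono hk) (hh'.down hk) (hR _ hk _ (.inl rfl)) _
      (h4.sub ((CtxB.df_lo hc hk).comp h0)) (a4.sub alo) e1).pos_of (hh'.down hk)
      (e1 ▸ sub_pos.2 h1)
    have t2 := (CtxB.sg_of_rep hc' hk (hP.mono hk) (hh'.down hk) (hR _ hk _ (.inr rfl)) _
      (((CtxB.df_hi hc hk).comp h0).sub h4) (ahi.sub a4) e2).pos_of (hh'.down hk)
      (e2 ▸ sub_pos.2 h2)
    exact fun z hz => ⟨hs hz.1, sub_pos.1 (t1 z hz), sub_pos.1 (t2 z hz)⟩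

/-- add functions that agree on the cells with functions of the context -/
theorem CtxB.sem_addEq (h : Sem S θ c n) {G : ∀ k, Set (Fn k)} (hG : ∀ k ≤ n, (G k).Finite)
    (hd : ∀ k ≤ n, ∀ φ ∈ G k, DF S φ ∧ ∃ ψ ∈ c.gens k, EqOn φ ψ (c.cell k)) :
    Sem S θ ⟨c.lo, c.hi, fun k => c.gens k ∪ G k⟩ n := by
  refine ⟨fun k hk => (h.fin k hk).union (hG k hk), fun k hk => ?_, fun k hk => ?_,
    fun k hk => .inl (h.lo_mem k hk), fun k hk => .inl (h.hi_mem k hk), fun k hk => ?_,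
    fun k hk => ?_⟩
  · rintro φ (hφ | hφ)
    exacts [h.df k hk φ hφ, (hd k hk φ hφ).1]
  · rw [CtxB.cell_gens]
    rintro φ (hφ | hφ)
    · exact h.an k hk φ hφ
    · obtain ⟨ψ, hψ, e⟩ := (hd k hk φ hφ).2
      exact (h.an k hk ψ hψ).congr (h.isOpen hk) e.symm
  · rw [CtxB.cell_gens]
    exact h.lt k hk
  · obtain ⟨a, ha, hc⟩ := h.chain k hk
    refine ⟨a, ha, CtxB.schain_of_le hc (CtxB.cell_gens _ _ _).subset
      (fun j _ => subset_union_left) ?_⟩
    rw [CtxB.cell_gens]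
    rintro φ (hφ | hφ)
    exacts [⟨φ, hφ, fun _ _ => rfl⟩, (hd k hk φ hφ).2]

/-- Main relative to a given context, with signs. Add the requests: inverses, values of the old
functions, inverses of the distances to the old ends; then add the old functions to the new
context. -/
theorem Main.ctx (hM : Main S Γ θ) {n₀ : ℕ} (hc : Sem S θ₁ c n₀) (hn : n₀ ≤ n)
    (hT : Tow S θ P n E) (hh : c.Has n₀ P) (hv : ∀ k ≤ n₀, c.Vals k P (E k)) {R : ℕ → Set U}
    (hR : Req R E n) : ∃ (c' : Ctx) (E' : ℕ → Fld), Sem S θ c' n ∧ Full Γ c' n ∧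
      Pt S θ c' P n E' ∧ Ext E E' n ∧ c'.Le c n₀ ∧
      ∀ k ≤ n, ∀ e ∈ R k, c'.Rep k P e ∧ Sg S c' k P e := by
  let G : ∀ k, Set (Fn k) := fun k => {φ | k ≤ n₀ ∧ φ ∈ c.gens k}
  have hG : ∀ k, (G k).Finite := fun k => by
    by_cases hk : k ≤ n₀
    · exact (hc.fin k hk).subset fun _ hφ => hφ.2
    · exact finite_empty.subset fun _ hφ => hk hφ.1
  let R' : ℕ → Set U := fun k => (R k ∪ (fun e => e⁻¹) '' R k) ∪
    ((fun φ => ev φ P) '' G k ∪ {e | k ≤ n₀ ∧ e ∈ CtxB.ends c P k})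
  have hR' : Req R' E n := by
    intro k hk
    refine ⟨((hR k hk).1.union ((hR k hk).1.image _)).union (((hG k).image _).union
      ((CtxB.ends_finite c P k).subset fun _ he => he.2)), ?_⟩
    rintro e ((he | ⟨e, he, rfl⟩) | (⟨φ, hφ, rfl⟩ | ⟨hk', he⟩))
    · exact (hR k hk).2 he
    · exact (E k).inv_mem ((hR k hk).2 he)
    · exact hv k hφ.1 φ hφ.2
    · cases k with
      | zero => exact he.elim
      | succ k =>
        have h1 : P k ∈ E (k + 1) := hT.mem k.lt_succ_self hk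
        have h2 : E k ≤ E (k + 1) := hT.le k.le_succ hk
        rcases he with rfl | rfl
        · exact (E (k + 1)).inv_mem ((E (k + 1)).sub_mem h1
            (h2 (hv k (by omega) _ (hc.lo_mem k hk'))))
        · exact (E (k + 1)).inv_mem ((E (k + 1)).sub_mem
            (h2 (hv k (by omega) _ (hc.hi_mem k hk'))) h1)
  obtain ⟨c₁, E₁, s1, f1, p1, x1, r1⟩ := hM n P E R' hT hR'
  have hsub : ∀ k ≤ n₀, c₁.cell k ⊆ c.cell k := fun k hk =>
    CtxB.cell_subset hc (s1.down hn) (hT.gen.mono hn) hh (p1.has.down hn)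
      (fun j hj e he => r1 j (hj.trans hn) e (.inr (.inr ⟨hj, he⟩))) hk
  have hd : ∀ k ≤ n, ∀ φ ∈ G k, DF S φ ∧ ∃ ψ ∈ c₁.gens k, EqOn φ ψ (c₁.cell k) := by
    intro k hk φ hφ
    obtain ⟨ψ, hψ, e⟩ := r1 k hk _ (.inr (.inl ⟨φ, hφ, rfl⟩))
    exact ⟨hc.df k hφ.1 φ hφ.2, ψ, hψ, s1.ident hk (hT.gen.mono hk) (p1.has.down hk)
      (hc.df k hφ.1 φ hφ.2) (s1.df k hk ψ hψ) ((hc.an k hφ.1 φ hφ.2).mono (hsub k hφ.1))
      (s1.an k hk ψ hψ) e.symm⟩
  refine ⟨⟨c₁.lo, c₁.hi, fun k => c₁.gens k ∪ G k⟩, E₁, CtxB.sem_addEq s1 (fun k _ => hG k) hd,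
    fun k hk => ?_, ⟨p1.tow, CtxB.has_of_subset p1.has (CtxB.cell_gens _ _ _).symm.subset,
      fun k hk => ?_⟩, x1, fun k hk => ?_, fun k hk e he => ⟨?_, ?_⟩⟩
  · rw [CtxB.cell_gens]
    refine ⟨(f1 k hk).1, ?_⟩
    rintro φ (hφ | hφ)
    · exact (f1 k hk).2 φ hφ
    · obtain ⟨ψ, hψ, e⟩ := (hd k hk φ hφ).2
      exact Γ.congr ((f1 k hk).2 ψ hψ) e
  · rintro φ (hφ | hφ)
    · exact p1.vals k hk φ hφ
    · exact x1 k hk (hv k hφ.1 φ hφ.2)
  · rw [CtxB.cell_gens]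
    exact ⟨hsub k hk, fun φ hφ => .inr ⟨hk, hφ⟩⟩
  · obtain ⟨ψ, hψ, e⟩ := r1 k hk e (.inl (.inl he))
    exact ⟨ψ, .inl hψ, e⟩
  · have := CtxB.sg_of_rep s1 hk (hT.gen.mono hk) (p1.has.down hk)
      (r1 k hk _ (.inl (.inr ⟨e, he, rfl⟩)))
    unfold Sg at this ⊢
    rwa [CtxB.cell_gens]

theorem CtxB.sem_zero (S : OStr) :
    Sem S (fun _ => 1) ⟨fun _ _ => 0, fun _ _ => 0, fun _ => ∅⟩ 0 where
  fin _ _ := finite_empty
  df _ _ _ h := h.elim
  an _ _ _ h := h.elim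
  lo_mem _ h := absurd h (Nat.not_lt_zero _)
  hi_mem _ h := absurd h (Nat.not_lt_zero _)
  lt _ h := absurd h (Nat.not_lt_zero _)
  chain _ _ := ⟨0, zero_lt_one, fun _ _ _ E _ _ _ _ _ => ⟨E, Pres.nil, fun _ h => h.elim⟩⟩

theorem Main.sg (hM : Main S Γ θ) (hT : Tow S θ P n E) {R : ℕ → Set U} (hR : Req R E n) :
    ∃ (c' : Ctx) (E' : ℕ → Fld), Sem S θ c' n ∧ Full Γ c' n ∧ Pt S θ c' P n E' ∧ Ext E E' n ∧
      ∀ k ≤ n, ∀ e ∈ R k, c'.Rep k P e ∧ Sg S c' k P e := by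
  obtain ⟨c', E', h1, h2, h3, h4, -, h5⟩ := hM.ctx (CtxB.sem_zero S) n.zero_le hT
    (Eventually.of_forall fun _ => mem_univ _) (fun _ _ _ h => h.elim) hR
  exact ⟨c', E', h1, h2, h3, h4, h5⟩

/-- requests only at the top level -/
theorem Main.top (hM : Main S Γ θ) {n₀ : ℕ} (hc : Sem S θ₁ c n₀) (hn : n₀ ≤ n)
    (hT : Tow S θ P n E) (hh : c.Has n₀ P) (hv : ∀ k ≤ n₀, c.Vals k P (E k)) {R : Set U}
    (hR : R.Finite) (hR' : R ⊆ E n) : ∃ (c' : Ctx) (E' : ℕ → Fld), Sem S θ c' n ∧ Full Γ c' n ∧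
      Pt S θ c' P n E' ∧ Ext E E' n ∧ c'.Le c n₀ ∧
      ∀ e ∈ R, c'.Rep n P e ∧ Sg S c' n P e := by
  have hq : Req (fun k => {e | k = n ∧ e ∈ R}) E n := fun k _ =>
    ⟨hR.subset fun _ he => he.2, by rintro e ⟨rfl, he⟩; exact hR' he⟩
  obtain ⟨c', E', h1, h2, h3, h4, h5, h6⟩ := hM.ctx hc hn hT hh hv hq
  exact ⟨c', E', h1, h2, h3, h4, h5, fun e he => h6 n le_rfl e ⟨rfl, he⟩⟩

/-- a point adjacent to `ρ`: either `ρ` is an end of the cell or it is inside -/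
theorem Pt.end_or_has (hc : Sem S θ₁ c (n + 1)) (h : Pt S θ c P (n + 1) E) {ρ : U}
    (hρ : ρ ∈ dcl S P n) (hi : Inf (dcl S P n) (P n - ρ)) :
    ρ ∈ E n ∨ ∀ w, Inf (dcl S P n) (w - ρ) → c.Has (n + 1) (upd P n w) := by
  obtain ⟨h0, h1, h2⟩ := Ctx.has_succ.1 h.has
  have dlo : ev (c.lo n) P ∈ dcl S P n := ev_mem_dcl (CtxB.df_lo hc n.lt_succ_self)
  have dhi : ev (c.hi n) P ∈ dcl S P n := ev_mem_dcl (CtxB.df_hi hc n.lt_succ_self)
  rcases lt_trichotomy ρ (ev (c.lo n) P) with h3 | h3 | h3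
  · have := (abs_lt.1 (hi _ ((dcl S P n).sub_mem dlo hρ) (sub_pos.2 h3))).2
    exact absurd h1 (not_lt.2 (by linarith))
  · exact .inl (h3 ▸ h.vals n n.le_succ _ (hc.lo_mem n n.lt_succ_self))
  rcases lt_trichotomy ρ (ev (c.hi n) P) with h4 | h4 | h4
  · refine .inr fun w hw => Ctx.has_upd.2 ⟨h0, ?_, ?_⟩
    · have := (abs_lt.1 (hw _ ((dcl S P n).sub_mem hρ dlo) (sub_pos.2 h3))).1
      linarith
    · have := (abs_lt.1 (hw _ ((dcl S P n).sub_mem dhi hρ) (sub_pos.2 h4))).2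
      linarith
  · exact .inl (h4 ▸ h.vals n n.le_succ _ (hc.hi_mem n n.lt_succ_self))
  · have := (abs_lt.1 (hi _ ((dcl S P n).sub_mem hρ dhi) (sub_pos.2 h4))).1
    exact absurd h2 (not_lt.2 (by linarith))

theorem CtxB.ends_le (h' : Sem S θ₁ c' (n + 1)) (hle : c'.cell (n + 1) ⊆ c.cell (n + 1))
    {x : Fin n → ℝ} (hx : x ∈ c'.cell n) : c.lo n x ≤ c'.lo n x ∧ c'.hi n x ≤ c.hi n x := by
  have h0 := (h'.lt n n.lt_succ_self x hx).2.1
  have key : ∀ t, c'.lo n x < t → t < c'.hi n x → c.lo n x < t ∧ t < c.hi n x := fun t h1 h2 =>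
    (snoc_mem_band.1 (hle (snoc_mem_band.2 ⟨hx, h1, h2⟩))).2
  constructor
  · by_contra h1
    obtain ⟨t, h2, h3⟩ := exists_between (lt_min (not_le.1 h1) h0)
    exact absurd (key t h2 (h3.trans_le (min_le_right _ _))).1
      (not_lt.2 (h3.trans_le (min_le_left _ _)).le)
  · by_contra h1
    obtain ⟨t, h2, h3⟩ := exists_between (max_lt (not_le.1 h1) h0)
    exact absurd (key t ((le_max_right _ _).trans_lt h2) h3).2
      (not_lt.2 ((le_max_left _ _).trans_lt h2).le)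

/-- if the point is adjacent to an end of the bigger context then that end is kept -/
theorem Sem.keep_end (h : Sem S θ c (n + 1)) (h' : Sem S θ₁ c' (n + 1)) (hle : c'.Le c (n + 1))
    (hP : Gen S P (n + 1)) (hh : c'.Has (n + 1) P) :
    (Inf (dcl S P n) (P n - ev (c.hi n) P) → EqOn (c'.hi n) (c.hi n) (c'.cell n)) ∧
    (Inf (dcl S P n) (P n - ev (c.lo n) P) → EqOn (c'.lo n) (c.lo n) (c'.cell n)) := by
  obtain ⟨h0, h1, h2⟩ := Ctx.has_succ.1 hh
  have hn := n.lt_succ_self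
  have l1 : ev (c.lo n) P ≤ ev (c'.lo n) P := ev_le_iff.2
    (Filter.Eventually.mono h0 fun _ hx => (CtxB.ends_le h' (hle _ le_rfl).1 hx).1)
  have l2 : ev (c'.hi n) P ≤ ev (c.hi n) P := ev_le_iff.2
    (Filter.Eventually.mono h0 fun _ hx => (CtxB.ends_le h' (hle _ le_rfl).1 hx).2)
  constructor
  · intro hi
    refine h'.ident hn.le (hP.mono hn.le) h0 (CtxB.df_hi h' hn) (CtxB.df_hi h hn) (CtxB.an_hi h' hn)
      ((CtxB.an_hi h hn).mono (hle n hn.le).1) ?_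
    refine l2.eq_of_not_lt fun h3 => ?_
    have := (_root_.abs_lt.1 (hi _ ((dcl S P n).sub_mem (ev_mem_dcl (CtxB.df_hi h hn))
      (ev_mem_dcl (CtxB.df_hi h' hn))) (sub_pos.2 h3))).1
    linarith
  · intro hi
    refine h'.ident hn.le (hP.mono hn.le) h0 (CtxB.df_lo h' hn) (CtxB.df_lo h hn) (CtxB.an_lo h' hn)
      ((CtxB.an_lo h hn).mono (hle n hn.le).1) ?_
    refine (l1.eq_of_not_lt fun h3 => ?_).symm
    have := (_root_.abs_lt.1 (hi _ ((dcl S P n).sub_mem (ev_mem_dcl (CtxB.df_lo h' hn))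
      (ev_mem_dcl (CtxB.df_lo h hn))) (sub_pos.2 h3))).2
    linarith

/-- NodeMain: Main with the approximations as requests; either `ρ` is an end, or it is inside
the cell and the approximation is first order (lip_near), so `ρ` is a node (Pres.node,
Tow.extend_top, CloFrom.succ_lt). -/
theorem node_main (hM : Main S Γ θ) (hθ : Clo θ) (hT : Tow S θ P (n + 1) E) (h2 : 0 < θ (n + 2))
    {ρ : U} (hρ : ρ ∈ dcl S P n) (hi : Inf (dcl S P n) (P n - ρ))
    (hκ : ∀ i < n, pd S P n i ρ ∈ stF (dcl S P n) (E (n + 1))) :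
    ∃ E', Tow S θ P n E' ∧ Ext E E' n ∧ ρ ∈ E' n := by
  choose! F hF1 hF2 using fun i hi => (mem_stF.1 (hκ i hi)).2
  have hq : Req (fun k => {e | k = n + 1 ∧ e ∈ F '' Iio n}) E (n + 1) := fun k _ =>
    ⟨((finite_Iio n).image F).subset fun _ he => he.2, by
      rintro e ⟨rfl, i, hi, rfl⟩; exact hF1 i hi⟩
  obtain ⟨c, E₁, s1, -, p1, x1, r1⟩ := hM (n + 1) P E _ hT hq
  have t1 := p1.tow.down n.le_succ
  rcases p1.end_or_has s1 hρ hi with h | h
  · exact ⟨E₁, t1, x1.mono n.le_succ, h⟩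
  have hin := h ρ (by simpa using Inf.zero _)
  obtain ⟨b, hb, hp⟩ := p1.tow.pres (n + 1) le_rfl
  have hne : P n ≠ ρ := fun e => hT.gen.last (e ▸ hρ)
  have hp' : Pres S (upd P n (P n)) (n + 1) (adj (E₁ n) (P n)) (E₁ (n + 1)) b := by
    rw [upd_eq_self]; exact hp
  obtain ⟨h3, h4⟩ := Pres.node t1.gen (t1.dfld le_rfl) hρ hne hi (hT.bd n n.lt_succ_self) hp'
    fun i hi' => by
      obtain ⟨φ, hφ, e⟩ := r1 (n + 1) le_rfl (F i) ⟨rfl, i, hi', rfl⟩
      have dφ := s1.df _ le_rfl φ hφ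
      obtain ⟨M, hM, h5⟩ := lip_near (y := P) (m := n) (fun j hj => self_mem_dcl hj) hρ hi dφ
        (Filter.Eventually.mono hin fun _ hx => (s1.an _ le_rfl φ hφ _ hx).differentiableAt)
      rw [upd_eq_self, e] at h5
      have h6 : ev φ (upd P n ρ) ∈ dcl S P n := ev_mem (fun j hj => by
        rcases (Nat.lt_succ_iff.1 hj).eq_or_lt with rfl | hj
        · rwa [upd_self]
        · rw [upd_of_ne hj.ne]; exact self_mem_dcl hj) dφ
      have h7 : Inf (dcl S P n) (F i - ev φ (upd P n ρ)) :=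
        (Inf.bdd_mul (Bdd.of_mem hM) hi).of_le
          (h5.trans (by rw [abs_mul]; exact mul_le_mul_of_nonneg_right (le_abs_self _) (abs_nonneg _)))
      have h8 : ev φ (upd P n ρ) - pd S P n i ρ = 0 := by
        refine Inf.eq_zero ?_ ((dcl S P n).sub_mem h6 (pd_mem i ρ))
        have := (hF2 i hi').sub h7
        convert this using 1
        ring
      exact ⟨F i, x1 _ le_rfl (hF1 i hi'), M, hM, sub_eq_zero.1 h8 ▸ h5⟩
  have hlt : omega0 ^ (b + 1) < omega0 ^ θ (n + 1) :=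
    (Ordinal.opow_lt_opow_iff_right Ordinal.one_lt_omega0).2
      (CloFrom.succ_lt hθ (n + 1).zero_le h2 hb)
  refine ⟨_, Tow.extend_top (CloFrom.mono hθ n.zero_le) t1 h3 hlt, fun k hk => ?_, ?_⟩
  · rcases hk.eq_or_lt with rfl | hk
    · rw [Function.update_self]
      exact (x1 k k.le_succ).trans h3.le
    · rw [Function.update_of_ne hk.ne]
      exact x1 k (by omega)
  · rwa [Function.update_self]

end Pool.Agent.Lib.MP_1a1eb7_lc
end

-- part Pool.Agent.Lib.MP_1a1eb7_lc.EP1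
section

/-! C6a: exit points of leaves have low rank (theorem `ep`). -/

namespace Pool.Agent.Lib.MP_1a1eb7_lc

open Set Filter Topology Pool.Agent.Shared.OMin
open Ordinal (omega0)

variable {S : OStr} {Γ : Sys} {θ θ₁ θ₂ τ : ℕ → Ordinal.{0}} {P Q Z Z' y z : ℕ → U}
  {n m k r N : ℕ} {E E' : ℕ → Fld} {c c' : Ctx} {e : Fn (n + 1)} {F : ℕ → Fn (n + 2)} {d : U}

/-- difference between the slope of the end and the slope of the system -/
noncomputable def ep1D (e : Fn (n + 1)) (F : ℕ → Fn (n + 2)) (i : ℕ) : Fn (n + 2) :=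
  fun q => pdv e i (Fin.init q) - F i q

/-- slope of the level sets of the distance to the end -/
noncomputable def ep1G (e : Fn (n + 1)) (F : ℕ → Fn (n + 2)) (i : ℕ) : Fn (n + 2) :=
  fun q => - ep1D e F i q / ep1D e F n q

/-- bounded version of the slope -/
noncomputable def ep1X (e : Fn (n + 1)) (F : ℕ → Fn (n + 2)) (i : ℕ) : Fn (n + 2) :=
  fun q => ep1G e F i q / (1 + |ep1G e F i q|)

/-- derivative of `χ` along the curves parallel to the end -/
noncomputable def ep1H (e : Fn (n + 1)) (χ : Fn (n + 2)) : Fn (n + 2) :=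
  fun q => pdv χ n q + pdv χ (n + 1) q * pdv e n (Fin.init q)

/-- the point at distance `d` from the end -/
noncomputable def ep1T (e : Fn (n + 1)) (d : U) (z : ℕ → U) : ℕ → U := upd z (n + 1) (ev e z - d)

/-- `e` is the end of the top band on the side given by the sign of `d` -/
def ep1End (c : Ctx) (e : Fn (n + 1)) (d : U) : Prop :=
  (0 < d ∧ EqOn (c.hi (n + 1)) e (c.cell (n + 1))) ∨
    (d < 0 ∧ EqOn (c.lo (n + 1)) e (c.cell (n + 1)))

theorem ep1_agree : Agree (ep1T e d z) z (n + 1) := agree_upd _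

theorem ep1_last : ep1T e d z (n + 1) = ev e z - d := upd_self _

theorem ep1End.ne (h : ep1End c e d) : d ≠ 0 := by
  rcases h with h | h
  exacts [h.1.ne', h.1.ne]

theorem ep1_ev_eq {g g' : Fn k} (h : EqOn g g' (c.cell k)) (hz : c.Has k z) : ev g z = ev g' z :=
  ev_eq_iff.2 (Eventually.mono hz fun _ hω => h hω)

theorem ep1_df_D (he : DF S e) {i : ℕ} (hF : DF S (F i)) : DF S (ep1D e F i) :=
  ((he.pdv i).comp (DF.init DF.id')).sub hF

theorem ep1_df_G (he : DF S e) {i : ℕ} (hF : DF S (F i)) (hn : DF S (F n)) : DF S (ep1G e F i) :=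
  (ep1_df_D he hF).neg.div (ep1_df_D he hn)

theorem ep1_df_X (he : DF S e) {i : ℕ} (hF : DF S (F i)) (hn : DF S (F n)) : DF S (ep1X e F i) :=
  (ep1_df_G he hF hn).div ((DF.const 1).add (ep1_df_G he hF hn).abs)

theorem ep1_df_H (he : DF S e) {χ : Fn (n + 2)} (h : DF S χ) : DF S (ep1H e χ) :=
  (h.pdv n).add ((h.pdv (n + 1)).mul ((he.pdv n).comp (DF.init DF.id')))

theorem ep1_ev_D (i : ℕ) : ev (ep1D e F i) y = ev (pdv e i) y - ev (F i) y :=
  ev_sub (fun q : Fin (n + 2) → ℝ => pdv e i (Fin.init q)) (F i) y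

theorem ep1_ev_G (i : ℕ) : ev (ep1G e F i) y = - ev (ep1D e F i) y / ev (ep1D e F n) y := by
  rw [← ev_neg, ← ev_div]; rfl

theorem ep1_ev_X (i : ℕ) : ev (ep1X e F i) y = sq1 (ev (ep1G e F i) y) := by
  rw [sq1, ← ev_abs, ← ev_one' (P := y) (k := n + 2), ← ev_add, ← ev_div]; rfl

theorem ep1_ev_H (χ : Fn (n + 2)) :
    ev (ep1H e χ) y = ev (pdv χ n) y + ev (pdv χ (n + 1)) y * ev (pdv e n) y := by
  rw [← ev_init (pdv e n), ← ev_mul, ← ev_add]; rfl

theorem ep1_init_mem {q : Fin (k + 1) → ℝ} (h : q ∈ c.cell (k + 1)) : Fin.init q ∈ c.cell k := h.1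

theorem ep1_an_D (hc : Sem S θ c (n + 2)) (he : e ∈ c.gens (n + 1)) {i : ℕ}
    (hF : F i ∈ c.gens (n + 2)) : AnalyticOnNhd ℝ (ep1D e F i) (c.cell (n + 2)) :=
  (analyticOnNhd_init (analyticOnNhd_pdv (hc.an _ (by omega) _ he) i)
    fun _ => ep1_init_mem).sub (hc.an _ le_rfl _ hF)

theorem ep1_an_sq {B : Set (Fin k → ℝ)} (hB : IsOpen B) {G : Fn k} (hG : AnalyticOnNhd ℝ G B)
    (ht : Tri G B) : AnalyticOnNhd ℝ (fun q => G q / (1 + |G q|)) B := by
  rcases ht with ht | ht | ht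
  · refine (hG.div ((analyticOnNhd_const (v := 1)).add hG) fun q hq => ?_).congr hB fun q hq => ?_
    · exact (by linarith [ht q hq] : (0 : ℝ) < 1 + G q).ne'
    · simp [abs_of_pos (ht q hq)]
  · exact hG.congr hB fun q hq => by simp [ht q hq]
  · refine (hG.div ((analyticOnNhd_const (v := 1)).sub hG) fun q hq => ?_).congr hB fun q hq => ?_
    · exact (by linarith [ht q hq] : (0 : ℝ) < 1 - G q).ne'
    · simp [abs_of_neg (ht q hq), sub_eq_add_neg]

theorem ep1_val_pdv (hc : Sem S θ₁ c (n + 2)) (h : Pt S θ c y (n + 2) E) (he : e ∈ c.gens (n + 1))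
    (i : ℕ) : ev (pdv e i) y ∈ E (n + 2) := by
  rw [← pd_ev (h.tow.gen.mono (by omega)) (hc.df _ (by omega) _ he)]
  exact h.tow.le (Nat.le_succ _) le_rfl
    ((h.tow.dfld (k := n + 1) (by omega)).pc i _ (h.vals _ (by omega) _ he))

theorem ep1_val_D (hc : Sem S θ₁ c (n + 2)) (h : Pt S θ c y (n + 2) E) (he : e ∈ c.gens (n + 1))
    {i : ℕ} (hF : F i ∈ c.gens (n + 2)) : ev (ep1D e F i) y ∈ E (n + 2) := by
  rw [ep1_ev_D]
  exact sub_mem (ep1_val_pdv hc h he i) (h.vals _ le_rfl _ hF)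

theorem ep1_val_G (hc : Sem S θ₁ c (n + 2)) (h : Pt S θ c y (n + 2) E) (he : e ∈ c.gens (n + 1))
    {i : ℕ} (hF : F i ∈ c.gens (n + 2)) (hn : F n ∈ c.gens (n + 2)) :
    ev (ep1G e F i) y ∈ E (n + 2) := by
  rw [ep1_ev_G]
  exact div_mem (neg_mem (ep1_val_D hc h he hF)) (ep1_val_D hc h he hn)

theorem ep1_val_X (hc : Sem S θ₁ c (n + 2)) (h : Pt S θ c y (n + 2) E) (he : e ∈ c.gens (n + 1))
    {i : ℕ} (hF : F i ∈ c.gens (n + 2)) (hn : F n ∈ c.gens (n + 2)) :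
    ev (ep1X e F i) y ∈ E (n + 2) := by
  rw [ep1_ev_X]
  exact sq1_mem (ep1_val_G hc h he hF hn)

theorem ep1_val_H (hc : Sem S θ₁ c (n + 2)) (h : Pt S θ c y (n + 2) E) (he : e ∈ c.gens (n + 1))
    {χ : Fn (n + 2)} (dχ : DF S χ) (hχ : ev χ y ∈ E (n + 2)) : ev (ep1H e χ) y ∈ E (n + 2) := by
  rw [ep1_ev_H, ← pd_ev h.tow.gen dχ, ← pd_ev h.tow.gen dχ]
  exact add_mem ((h.tow.dfld le_rfl).pc _ _ hχ)
    (mul_mem ((h.tow.dfld le_rfl).pc _ _ hχ) (ep1_val_pdv hc h he n))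

theorem ep1_gen (hz : Gen S z (n + 1)) (he : DF S e) (hd : Inf (dcl S z (n + 1)) d) (h0 : d ≠ 0) :
    Gen S (ep1T e d z) (n + 2) :=
  hz.upd (Inf.notMem (ev_mem_dcl he) (by simpa using hd.neg) (by simpa using h0))

theorem ep1_has (hc : Sem S θ c (n + 2)) (h : ep1End c e d) (hz : c.Has (n + 1) z)
    (hd : Inf (dcl S z (n + 1)) d) : c.Has (n + 2) (ep1T e d z) := by
  have hlo := hc.df _ (by omega) _ (hc.lo_mem (n + 1) (by omega))
  have hhi := hc.df _ (by omega) _ (hc.hi_mem (n + 1) (by omega))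
  have hlt : ev (c.lo (n + 1)) z < ev (c.hi (n + 1)) z :=
    ev_lt_iff.2 (Eventually.mono hz fun ω hω => (hc.lt _ (by omega) _ hω).2.1)
  have hw := abs_lt.1 (hd _ (sub_mem (ev_mem_dcl hhi) (ev_mem_dcl hlo)) (sub_pos.2 hlt))
  refine Ctx.has_upd.2 ⟨hz, ?_⟩
  rcases h with ⟨h0, h⟩ | ⟨h0, h⟩
  · rw [← ep1_ev_eq h hz]
    constructor <;> linarith [hw.1, hw.2]
  · rw [← ep1_ev_eq h hz]
    constructor <;> linarith [hw.1, hw.2]

theorem ep1_keep (hc : Sem S θ c (n + 2)) (hc' : Sem S θ₁ c' (n + 2)) (hle : c'.Le c (n + 2))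
    (h : ep1End c e d) (hg : Gen S (ep1T e d z) (n + 2)) (hz : c'.Has (n + 2) (ep1T e d z))
    (hd : Inf (dcl S z (n + 1)) d) : ep1End c' e d := by
  have hsub := (hle (n + 1) (by omega)).1
  have hz1 : c.Has (n + 1) (ep1T e d z) :=
    Eventually.mono (hz.down (Nat.le_succ _)) fun ω hω => hsub hω
  have hk := hc.keep_end hc' hle hg hz
  have hd' : Inf (dcl S (ep1T e d z) (n + 1)) (ep1T e d z (n + 1) - ev e (ep1T e d z)) := by
    rw [ep1_agree.dcl_eq, ep1_agree.ev_eq, ep1_last]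
    simpa using hd.neg
  rcases h with ⟨h0, h⟩ | ⟨h0, h⟩
  · exact .inl ⟨h0, (hk.1 (by rwa [ep1_ev_eq h hz1])).trans (h.mono hsub)⟩
  · exact .inr ⟨h0, (hk.2 (by rwa [ep1_ev_eq h hz1])).trans (h.mono hsub)⟩

/-- put the top band of `c` over the smaller context `c'` -/
theorem ep1_top (hc : Sem S θ c (n + 2)) (hc' : Sem S θ c' (n + 1)) (hle : c'.Le c (n + 1))
    (h : ep1End c e d) : ∃ c'' : Ctx, Sem S θ c'' (n + 2) ∧ c''.Le c (n + 2) ∧ c''.Le c' (n + 1) ∧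
      c'.Le c'' (n + 1) ∧ ep1End c'' e d := by
  have h1 := hc'.setTop hc hle ((hle _ le_rfl).2 (hc.lo_mem (n + 1) (by omega)))
    ((hle _ le_rfl).2 (hc.hi_mem (n + 1) (by omega)))
    fun x hx => ⟨le_rfl, (hc.lt _ (by omega) _ ((hle _ le_rfl).1 hx)).2.1, le_rfl⟩
  refine ⟨_, h1.1, h1.2, Ctx.setTop_le, Ctx.le_setTop, ?_⟩
  have hsub := (h1.2 (n + 1) (by omega)).1
  rcases h with ⟨h0, h⟩ | ⟨h0, h⟩
  · exact .inl ⟨h0, by rw [Ctx.setTop_hi]; exact h.mono hsub⟩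
  · exact .inr ⟨h0, by rw [Ctx.setTop_lo]; exact h.mono hsub⟩

/-- standard parts of bounded values at `ep1T e d z` are represented at `z` -/
theorem ep1_side (hG : Good S Γ θ) (hc : Sem S θ c (n + 2)) (h : Pt S θ c (ep1T e d z) (n + 2) E)
    (he : e ∈ c.gens (n + 1)) (hd : Inf (dcl S z (n + 1)) d) {v : ℕ → U}
    (hv : ∀ i < n, v i ∈ E (n + 2) ∧ |v i| ≤ 1) :
    ∃ (c' : Ctx) (E' : ℕ → Fld) (H : ℕ → Fn (n + 1)), Sem S θ c' (n + 1) ∧
      Pt S θ c' z (n + 1) E' ∧ c'.Le c (n + 1) ∧ Ext E E' (n + 1) ∧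
      ∀ i < n, H i ∈ c'.gens (n + 1) ∧ Inf (dcl S z (n + 1)) (v i - ev (H i) z) := by
  have de := hc.df _ (by omega) _ he
  have hz : Gen S z (n + 1) := ep1_agree.gen (h.tow.gen.mono (by omega))
  have hle : dcl S (ep1T e d z) (n + 2) ≤ dcl S (upd z (n + 1) d) (n + 2) := by
    refine dcl_le fun i hi => ?_
    rcases (Nat.lt_succ_iff.1 hi).lt_or_eq with hi | rfl
    · rw [ep1_agree i hi]
      exact dcl_le_upd _ (self_mem_dcl hi)
    · rw [ep1_last]
      exact sub_mem (dcl_le_upd _ (ev_mem_dcl de)) (mem_dcl_upd _)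
  have hst : ∀ i, ∃ u, i < n → u ∈ dcl S z (n + 1) ∧ Inf (dcl S z (n + 1)) (v i - u) := by
    intro i
    by_cases hi : i < n
    · obtain ⟨u, hu, h2⟩ := exists_st hd (hle ((h.tow.dfld le_rfl).le (hv i hi).1))
        ⟨1, one_mem _, (hv i hi).2⟩
      exact ⟨u, fun _ => ⟨hu, h2 z (n + 1) le_rfl hd⟩⟩
    · exact ⟨0, fun h => absurd h hi⟩
  choose u hu using hst
  have hR : (u '' Iio n).Finite := (finite_Iio n).image _
  obtain ⟨E2, hT2, hE2, hR2⟩ := (hG.2 (n + 1) (n + 1) (ep1T e d z) E z (ev e z) (u '' Iio n) le_rfl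
    h.tow hz ep1_agree.symm (fun i hi => ep1_agree (e := e) (d := d) (z := z) i hi ▸ h.tow.mem (by omega) le_rfl)
    (ep1_agree.ev_eq e ▸ h.vals _ (by omega) _ he) (by rw [ep1_last]; simpa using hd.neg) hR
    (by
      rintro _ ⟨i, hi, rfl⟩
      exact ⟨(hu i hi).1, _, (hv i hi).1, (hu i hi).2⟩)).self
  have hP2 : Pt S θ c z (n + 1) E2 :=
    ((h.down (Nat.le_succ _)).of_ext (hT2.mono fun k hk => by simp [skip, hk]) hE2).congr ep1_agree
  obtain ⟨c3, E3, hc3, -, hP3, hE3, hle3, hrep⟩ := Main.top hG.1 (hc.down (Nat.le_succ _)) le_rfl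
    hP2.tow hP2.has hP2.vals hR hR2
  have hH : ∀ i, ∃ H : Fn (n + 1), i < n → H ∈ c3.gens (n + 1) ∧ ev H z = u i := by
    intro i
    by_cases hi : i < n
    · obtain ⟨H, h1, h2⟩ := (hrep _ ⟨i, hi, rfl⟩).1
      exact ⟨H, fun _ => ⟨h1, h2⟩⟩
    · exact ⟨fun _ => 0, fun h => absurd h hi⟩
  choose H hH using hH
  exact ⟨c3, E3, H, hc3, hP3, hle3, hE2.trans hE3, fun i hi =>
    ⟨(hH i hi).1, (hH i hi).2 ▸ (hu i hi).2⟩⟩

/-- the slopes at the point of the leaf approximate the derivatives of `b` -/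
theorem ep1_slope (hP : Gen S P n) {b s : U} (hb : b ∈ dcl S P n) (hs : s ≠ b)
    (hi : Inf (dcl S P n) (s - b)) {φ : Fn (n + 1)} (hφ : DF S φ) (he : DF S e)
    (hsol : At (fun x => ∀ i < n + 1, pdv φ i x = F i (Fin.snoc x (φ x))) (upd P n s))
    (hd : d = ev e (upd P n s) - ev φ (upd P n s)) (h0 : d ≠ 0) (hlim : Inf (dcl S P n) d) :
    ev (ep1D e F n) (ep1T e d (upd P n s)) ≠ 0 ∧ s ∈ dcl S (upd P n d) (n + 1) ∧ ∀ i < n,
      Inf (dcl S P n) (ev (ep1G e F i) (ep1T e d (upd P n s)) - pd S P n i b) := by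
  have hz : Gen S (upd P n s) (n + 1) := hP.upd (Inf.notMem hb hi hs)
  have hW : Gen S (upd P n d) (n + 1) := hP.upd_inf hlim h0
  have hdm : d ∈ dcl S (upd P n s) (n + 1) := hd ▸ sub_mem (ev_mem_dcl he) (ev_mem_dcl hφ)
  have hsp := (hW.of_span (P := upd P n s) fun i hi => by
    rcases (Nat.lt_succ_iff.1 hi).lt_or_eq with hi | rfl
    · rw [agree_upd _ i hi]
      exact dcl_le_upd _ (self_mem_dcl hi)
    · rwa [upd_self]).2
  have hsW : s ∈ dcl S (upd P n d) (n + 1) := hsp ▸ mem_dcl_upd s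
  have hq : ep1T e d (upd P n s) = upd (upd P n s) (n + 1) (ev φ (upd P n s)) := by
    rw [ep1T, hd, sub_sub_cancel]
  have hD : ∀ j < n + 1, pd S (upd P n s) (n + 1) j d = ev (ep1D e F j) (ep1T e d (upd P n s)) := by
    intro j hj
    rw [ep1_ev_D, ep1_agree.ev_eq, hq]
    conv_lhs => rw [hd]
    rw [pd_sub hz (ev_mem_dcl he) (ev_mem_dcl hφ), pd_ev hz he, pd_ev hz hφ]
    congr 1
    refine ev_eq ?_
    filter_upwards [hsol, out_ev φ (upd P n s),
      out_ev (F j) (upd (upd P n s) (n + 1) (ev φ (upd P n s)))] with ω h1 h2 h3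
    rw [h3, tp_upd, h2, h1 j hj]
  have key : ∀ i < n + 1, (if i = n then (1 : U) else 0) =
      (if i < n then ev (ep1D e F i) (ep1T e d (upd P n s)) else 0) +
        ev (ep1D e F n) (ep1T e d (upd P n s)) * pd S (upd P n d) (n + 1) i s := by
    intro i hi
    have h1 := pd_change hW hz (fun j hj => hsp ▸ self_mem_dcl hj) hdm i
    have h2 := pd_coord hW (i := i) (Nat.lt_succ_self n)
    rw [upd_self] at h2
    rw [← h2, h1, Finset.sum_range_succ, upd_self, hD n (Nat.lt_succ_self n)]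
    congr 1
    rw [Finset.sum_congr rfl (g := fun j => if i = j then
      ev (ep1D e F j) (ep1T e d (upd P n s)) else 0) fun j hj => ?_]
    · simp [Finset.sum_ite_eq]
    · have hj := Finset.mem_range.1 hj
      rw [agree_upd s j hj, ← agree_upd (P := P) d j hj, pd_coord hW (by omega), hD j (by omega)]
      split_ifs <;> simp
  have hn : ev (ep1D e F n) (ep1T e d (upd P n s)) ≠ 0 := fun h => by
    simpa [h] using key n (Nat.lt_succ_self n)
  refine ⟨hn, hsW, fun i hi' => ?_⟩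
  have h1 := key i (by omega)
  rw [if_neg hi'.ne, if_pos hi'] at h1
  have h2 : ev (ep1G e F i) (ep1T e d (upd P n s)) = pd S (upd P n d) (n + 1) i s := by
    rw [ep1_ev_G, div_eq_iff hn]
    linear_combination h1
  rw [h2]
  exact pd_st hP hlim h0 hsW hb hi hi'

theorem ep1_hasDerivAt_snoc {γ : ℝ → Fin k → ℝ} {γ' : Fin k → ℝ} {g : ℝ → ℝ} {g' t : ℝ}
    (h : HasDerivAt γ γ' t) (hg : HasDerivAt g g' t) :
    HasDerivAt (fun t => (Fin.snoc (γ t) (g t) : Fin (k + 1) → ℝ)) (Fin.snoc γ' g') t := by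
  refine hasDerivAt_pi.2 fun j => ?_
  refine Fin.lastCases ?_ (fun j => ?_) j
  · simpa using hg
  · simpa using hasDerivAt_pi.1 h j

theorem ep1_hasDerivAt {χ : Fn (n + 2)} {x : Fin n → ℝ} {t u : ℝ}
    (he : DifferentiableAt ℝ e (Fin.snoc x t))
    (hχ : DifferentiableAt ℝ χ (Fin.snoc (Fin.snoc x t) (e (Fin.snoc x t) - u))) :
    HasDerivAt (fun t => χ (Fin.snoc (Fin.snoc x t) (e (Fin.snoc x t) - u)))
      (ep1H e χ (Fin.snoc (Fin.snoc x t) (e (Fin.snoc x t) - u))) t := by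
  have h1 := ep1_hasDerivAt_snoc (hasDerivAt_const t x) (hasDerivAt_id' t)
  have e1 : (Fin.snoc (0 : Fin n → ℝ) (1 : ℝ) : Fin (n + 1) → ℝ) = uv (n + 1) n := by
    funext j
    refine Fin.lastCases ?_ (fun j => ?_) j
    · simp [uv]
    · simp [uv, j.2.ne]
  rw [e1] at h1
  have h2 := (he.hasFDerivAt.comp_hasDerivAt t h1).sub_const u
  have h3 := hχ.hasFDerivAt.comp_hasDerivAt t (ep1_hasDerivAt_snoc h1 h2)
  have e2 : (Fin.snoc (uv (n + 1) n) (fderiv ℝ e (Fin.snoc x t) (uv (n + 1) n)) :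
      Fin (n + 2) → ℝ) = uv (n + 2) n + pdv e n (Fin.snoc x t) • uv (n + 2) (n + 1) := by
    funext j
    refine Fin.lastCases ?_ (fun j => ?_) j
    · simp [uv, pdv]
    · simp [uv, j.2.ne]
  rw [e2, map_add, map_smul] at h3
  exact h3.congr_deriv (by simp [ep1H, pdv, mul_comm])

theorem ep1_between {g g' : ℝ → ℝ} {a b s : ℝ} (h : ∀ t ∈ Icc a b, HasDerivAt g (g' t) t)
    (h0 : ∀ t ∈ Icc a b, 0 ≤ g' t) (hs : s ∈ Icc a b) : g a ≤ g s ∧ g s ≤ g b := by
  have hm : MonotoneOn g (Icc a b) :=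
    monotoneOn_of_hasDerivWithinAt_nonneg (convex_Icc a b)
      (fun t ht => (h t ht).continuousAt.continuousWithinAt)
      (fun t ht => (h t (interior_subset ht)).hasDerivWithinAt)
      fun t ht => h0 t (interior_subset ht)
  have hab := hs.1.trans hs.2
  exact ⟨hm (left_mem_Icc.2 hab) hs hs.1, hm hs (right_mem_Icc.2 hab) hs.2⟩

theorem ep1_out (χ : Fn (n + 2)) (u : U) : ∀ᶠ ω in 𝔲, out (ev χ (ep1T e d (upd P n u))) ω =
    χ (Fin.snoc (Fin.snoc (tp P n ω) (out u ω))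
      (e (Fin.snoc (tp P n ω) (out u ω)) - out d ω)) := by
  filter_upwards [out_ev χ (ep1T e d (upd P n u)), out_sub (ev e (upd P n u)) d,
    out_ev e (upd P n u)] with ω h1 h2 h3
  rw [h1, ep1T, tp_upd, h2, h3, tp_upd]

/-- the segment parallel to the end lies in the cell -/
theorem ep1_segment (hc : Sem S θ c (n + 2)) (h : ep1End c e d) {a a' : U}
    (ha : c.Has (n + 1) (upd P n a)) (ha' : c.Has (n + 1) (upd P n a'))
    (hP : ∀ i < n, P i ∈ dcl S Z r) (haN : a ∈ dcl S Z r) (haN' : a' ∈ dcl S Z r)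
    (hd : Inf (dcl S Z r) d) : ∀ᶠ ω in 𝔲, ∀ t ∈ Icc (out a ω) (out a' ω),
      (Fin.snoc (Fin.snoc (tp P n ω) t) (e (Fin.snoc (tp P n ω) t) - out d ω) :
        Fin (n + 2) → ℝ) ∈ c.cell (n + 2) := by
  have mlo := hc.lo_mem (n + 1) (by omega)
  have mhi := hc.hi_mem (n + 1) (by omega)
  have hlo := hc.df _ (by omega) _ mlo
  have hhi := hc.df _ (by omega) _ mhi
  have seg : ∀ᶠ ω in 𝔲, ∀ t ∈ Icc (out a ω) (out a' ω),
      (Fin.snoc (tp P n ω) t : Fin (n + 1) → ℝ) ∈ c.cell (n + 1) := by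
    filter_upwards [ha, ha'] with ω h1 h2 t ht
    rw [tp_upd] at h1 h2
    have h1 := snoc_mem_band.1 h1
    have h2 := snoc_mem_band.1 h2
    exact snoc_mem_band.2 ⟨h1.1, h1.2.1.trans_le ht.1, ht.2.trans_lt h2.2.2⟩
  have hsn : DF S fun w : (((Fin n → ℝ) × ℝ × ℝ) × ℝ) × ℝ =>
      (Fin.snoc w.1.1.1 w.2 : Fin (n + 1) → ℝ) := DF.snoc (by fun_prop) (by fun_prop)
  have wid := infin_adj ((InD.tp hP).prod ((mem_dcl_iff.1 haN).prod (mem_dcl_iff.1 haN')))
    (X := fun (p : (Fin n → ℝ) × ℝ × ℝ) (u : ℝ) => ∀ t : ℝ, p.2.1 ≤ t ∧ t ≤ p.2.2 →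
      |u| < c.hi (n + 1) (Fin.snoc p.1 t) - c.lo (n + 1) (Fin.snoc p.1 t))
    (DP.all (DP.imp (by fun_prop) (DP.lt (by fun_prop) ((hhi.comp hsn).sub (hlo.comp hsn)))))
    (zero_mem _) (w := d) (by simpa using hd) (by
      filter_upwards [seg, out_zero] with ω h1 h2
      have hcont : Continuous fun t : ℝ => (Fin.snoc (tp P n ω) t : Fin (n + 1) → ℝ) :=
        continuous_iff_continuousAt.2 fun t =>
          (ep1_hasDerivAt_snoc (hasDerivAt_const t _) (hasDerivAt_id' t)).continuousAt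
      obtain ⟨m, hm, hm'⟩ := (isCompact_Icc (a := out a ω) (b := out a' ω)).exists_forall_le'
        (f := fun t => c.hi (n + 1) (Fin.snoc (tp P n ω) t) - c.lo (n + 1) (Fin.snoc (tp P n ω) t))
        (((hc.an _ (by omega) _ mhi).continuousOn.comp hcont.continuousOn h1).sub
          ((hc.an _ (by omega) _ mlo).continuousOn.comp hcont.continuousOn h1))
        (a := 0) fun t ht => sub_pos.2 (hc.lt _ (by omega) _ (h1 t ht)).2.1
      rw [h2]
      filter_upwards [Ioo_mem_nhds (neg_neg_of_pos hm) hm] with u hu t ht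
      exact (abs_lt.2 hu).trans_le (hm' t ht))
  rcases h with ⟨h0, h⟩ | ⟨h0, h⟩
  · filter_upwards [seg, wid, lt_iff.1 h0, out_zero] with ω h1 h2 h3 h4 t ht
    have h5 := abs_lt.1 (h2 t ht)
    refine snoc_mem_band.2 ⟨h1 t ht, ?_⟩
    rw [← h (h1 t ht)]
    constructor <;> linarith [h5.1, h5.2]
  · filter_upwards [seg, wid, lt_iff.1 h0, out_zero] with ω h1 h2 h3 h4 t ht
    have h5 := abs_lt.1 (h2 t ht)
    refine snoc_mem_band.2 ⟨h1 t ht, ?_⟩
    rw [← h (h1 t ht)]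
    constructor <;> linarith [h5.1, h5.2]

theorem ep1_sandwich (hc : Sem S θ c (n + 2)) (he : e ∈ c.gens (n + 1)) {a a' s : U}
    (hseg : ∀ᶠ ω in 𝔲, ∀ t ∈ Icc (out a ω) (out a' ω),
      (Fin.snoc (Fin.snoc (tp P n ω) t) (e (Fin.snoc (tp P n ω) t) - out d ω) :
        Fin (n + 2) → ℝ) ∈ c.cell (n + 2)) (h1 : a ≤ s) (h2 : s ≤ a') {χ : Fn (n + 2)}
    (hχ : AnalyticOnNhd ℝ χ (c.cell (n + 2))) (ht : Tri (ep1H e χ) (c.cell (n + 2))) {K : Fld}
    {u : U} (ia : Inf K (ev χ (ep1T e d (upd P n a)) - u))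
    (ia' : Inf K (ev χ (ep1T e d (upd P n a')) - u)) :
    Inf K (ev χ (ep1T e d (upd P n s)) - u) := by
  have hder : ∀ᶠ ω in 𝔲, ∀ t ∈ Icc (out a ω) (out a' ω), HasDerivAt
      (fun t => χ (Fin.snoc (Fin.snoc (tp P n ω) t) (e (Fin.snoc (tp P n ω) t) - out d ω)))
      (ep1H e χ (Fin.snoc (Fin.snoc (tp P n ω) t) (e (Fin.snoc (tp P n ω) t) - out d ω))) t := by
    filter_upwards [hseg] with ω h t ht
    exact ep1_hasDerivAt (hc.an _ (by omega) _ he _ (snoc_mem_band.1 (h t ht)).1).differentiableAt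
      (hχ _ (h t ht)).differentiableAt
  have hpn : (∀ q ∈ c.cell (n + 2), 0 ≤ ep1H e χ q) ∨ ∀ q ∈ c.cell (n + 2), ep1H e χ q ≤ 0 := by
    rcases ht with ht | ht | ht
    exacts [.inl fun q hq => (ht q hq).le, .inl fun q hq => (ht q hq).ge,
      .inr fun q hq => (ht q hq).le]
  have key : (ev χ (ep1T e d (upd P n a)) ≤ ev χ (ep1T e d (upd P n s)) ∧
      ev χ (ep1T e d (upd P n s)) ≤ ev χ (ep1T e d (upd P n a'))) ∨
      (ev χ (ep1T e d (upd P n s)) ≤ ev χ (ep1T e d (upd P n a)) ∧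
        ev χ (ep1T e d (upd P n a')) ≤ ev χ (ep1T e d (upd P n s))) := by
    simp only [le_iff, ← eventually_and]
    refine hpn.imp (fun hp => ?_) fun hp => ?_
    · filter_upwards [hder, hseg, le_iff.1 h1, le_iff.1 h2, ep1_out (e := e) (d := d) (P := P) χ a,
        ep1_out (e := e) (d := d) (P := P) χ a', ep1_out (e := e) (d := d) (P := P) χ s]
        with ω k1 k2 k3 k4 k5 k6 k7
      rw [k5, k6, k7]
      exact ep1_between k1 (fun t ht => hp _ (k2 t ht)) ⟨k3, k4⟩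
    · filter_upwards [hder, hseg, le_iff.1 h1, le_iff.1 h2, ep1_out (e := e) (d := d) (P := P) χ a,
        ep1_out (e := e) (d := d) (P := P) χ a', ep1_out (e := e) (d := d) (P := P) χ s]
        with ω k1 k2 k3 k4 k5 k6 k7
      rw [k5, k6, k7]
      have := ep1_between (fun t ht => (k1 t ht).neg) (fun t ht => neg_nonneg.2 (hp _ (k2 t ht)))
        ⟨k3, k4⟩
      simpa using this
  intro δ hδ h0
  have k1 := abs_lt.1 (ia δ hδ h0)
  have k2 := abs_lt.1 (ia' δ hδ h0)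
  rw [abs_lt]
  rcases key with ⟨k3, k4⟩ | ⟨k3, k4⟩ <;> constructor <;> linarith [k1.1, k1.2, k2.1, k2.2]

/-- opposite standard parts of two values of a function of constant sign vanish -/
theorem ep1_tri_zero {C : Set (Fin k → ℝ)} {χ : Fn k} (ht : Tri χ C) (hy : At (fun x => x ∈ C) y)
    (hz : At (fun x => x ∈ C) z) {K : Fld} {δ : U} (hδ : δ ∈ K) (h1 : Inf K (ev χ y - δ))
    (h2 : Inf K (ev χ z + δ)) : δ = 0 := by
  by_contra h0
  have k1 := abs_lt.1 (h1 _ (abs_mem_if hδ) (abs_pos.2 h0))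
  have k2 := abs_lt.1 (h2 _ (abs_mem_if hδ) (abs_pos.2 h0))
  rcases lt_or_gt_of_ne h0 with h | h
  · rw [abs_of_neg h] at k1 k2
    have := ev_neg_iff.2 (Eventually.mono hz fun ω hω =>
      ht.neg_of hy (by linarith [k1.2]) _ hω)
    linarith [k2.1]
  · rw [abs_of_pos h] at k1 k2
    have := ev_pos_iff.2 (Eventually.mono hz fun ω hω =>
      ht.pos_of hy (by linarith [k1.1]) _ hω)
    linarith [k2.2]

theorem ep1_near {b w : U} (hb : b ∈ dcl S P n) (hw : Inf (dcl S P n) (w - b)) {G : Fn (n + 1)}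
    (hG : DF S G) (h : At (fun x => ContinuousAt G x) (upd P n b)) :
    ev G (upd P n b) ∈ dcl S P n ∧ Inf (dcl S P n) (ev G (upd P n w) - ev G (upd P n b)) := by
  have hy : ∀ i < n + 1, upd P n b i ∈ dcl S P n := fun i hi => by
    rcases (Nat.lt_succ_iff.1 hi).lt_or_eq with hi | rfl
    · rw [agree_upd _ i hi]
      exact self_mem_dcl hi
    · rwa [upd_self]
  refine ⟨ev_mem hy hG, cont_near hy (fun i hi => ?_) hG h⟩
  rcases (Nat.lt_succ_iff.1 hi).lt_or_eq with hi | rfl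
  · rw [agree_upd _ i hi, agree_upd _ i hi, sub_self]
    exact Inf.zero _
  · rwa [upd_self, upd_self]

theorem ep1_dcl_le {w w' : U} (h : w ∈ dcl S (upd P n w') (n + 1)) :
    dcl S (upd P n w) (n + 1) ≤ dcl S (upd P n w') (n + 1) := by
  refine dcl_le fun i hi => ?_
  rcases (Nat.lt_succ_iff.1 hi).lt_or_eq with hi | rfl
  · rw [agree_upd _ i hi]
    exact dcl_le_upd _ (self_mem_dcl hi)
  · rwa [upd_self]

theorem ep (hG : Good S Γ θ) (hθ : Clo θ) (hc : Sem S θ c (n + 2)) {F : ℕ → Fn (n + 2)}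
    (hF : ∀ i < n + 1, F i ∈ c.gens (n + 2)) (hP : Pt S θ c P n E) {b s : U}
    (hb : b ∈ dcl S P n) (hin : c.Has (n + 1) (upd P n b)) (hs : s ≠ b)
    (hi : Inf (dcl S P n) (s - b)) {φ e : Fn (n + 1)} (hφ : DF S φ)
    (he : e = c.lo (n + 1) ∨ e = c.hi (n + 1))
    (hsol : At (fun z => Fin.snoc z (φ z) ∈ c.cell (n + 2) ∧
      ∀ i < n + 1, pdv φ i z = F i (Fin.snoc z (φ z))) (upd P n s))
    (hlim : Inf (dcl S P n) (ev e (upd P n s) - ev φ (upd P n s))) :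
    ∃ E', Tow S θ P n E' ∧ Ext E E' n ∧ b ∈ E' n := by
  by_contra hcon
  have gP := hP.tow.gen
  -- every cell of a point adjacent to `b` contains both sides of `b`
  have across : ∀ {c' : Ctx} {E' : ℕ → Fld} {s' : U}, Sem S θ c' (n + 1) →
      Pt S θ c' (upd P n s') (n + 1) E' → Ext E E' n → Inf (dcl S P n) (s' - b) →
      ∀ w, Inf (dcl S P n) (w - b) → c'.Has (n + 1) (upd P n w) := by
    intro c' E' s' h1 h2 h3 h4 w hw
    have e0 : dcl S (upd P n s') n = dcl S P n := (agree_upd s').dcl_eq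
    rcases h2.end_or_has h1 (ρ := b) (e0 ▸ hb) (by rwa [e0, upd_self]) with h | h
    · exact absurd ⟨E', (h2.tow.down (Nat.le_succ _)).congr (agree_upd s'), h3, h⟩ hcon
    · exact (h w (e0 ▸ hw)).congr ((agree_upd s').upd w)
  have hen : e ∈ c.gens (n + 1) := by
    rcases he with rfl | rfl
    exacts [hc.lo_mem _ (by omega), hc.hi_mem _ (by omega)]
  have de := hc.df _ (by omega) _ hen
  have hFn := hF n (Nat.lt_succ_self n)
  have dF : ∀ i < n + 1, DF S (F i) := fun i hi => hc.df _ le_rfl _ (hF i hi)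
  have dX : ∀ i < n, DF S (ep1X e F i) := fun i hi =>
    ep1_df_X de (dF i (by omega)) (dF n (by omega))
  obtain ⟨d, hd⟩ : ∃ d, d = ev e (upd P n s) - ev φ (upd P n s) := ⟨_, rfl⟩
  rw [← hd] at hlim
  have hend : ep1End c e d := by
    rcases he with rfl | rfl
    · refine .inr ⟨hd ▸ sub_neg.2 (ev_lt_iff.2 ?_), fun _ _ => rfl⟩
      exact Eventually.mono hsol fun ω h => (snoc_mem_band.1 h.1).2.1
    · refine .inl ⟨hd ▸ sub_pos.2 (ev_lt_iff.2 ?_), fun _ _ => rfl⟩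
      exact Eventually.mono hsol fun ω h => (snoc_mem_band.1 h.1).2.2
  obtain ⟨hDq, hsW, hslope⟩ := ep1_slope gP hb hs hi hφ de
    (Eventually.mono hsol fun ω h => h.2) hd hend.ne hlim
  have hq : c.Has (n + 2) (ep1T e d (upd P n s)) := by
    rw [ep1T, hd, sub_sub_cancel]
    filter_upwards [hsol, out_ev φ (upd P n s)] with ω h1 h2
    rw [tp_upd, h2]
    exact h1.1
  -- the intermediate infinitesimal
  obtain ⟨ε, hε0, hε, hdε⟩ := exists_inf_between hlim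
  have hbε : b ∈ dcl S (upd P n ε) (n + 1) := dcl_le_upd _ hb
  have hsε : Inf (dcl S (upd P n ε) (n + 1)) (s - b) := by
    obtain ⟨ρ, hρ, h⟩ := exists_st hlim hsW (Bdd.of_near hb hi)
    have h1 : ρ - b = 0 := Inf.eq_zero
      (by simpa using hi.sub (h P n le_rfl hlim)) (sub_mem hρ hb)
    rw [← sub_eq_zero.1 h1]
    exact h _ _ (dcl_le_upd _) hdε
  have hsb := abs_lt.1 (hsε ε (mem_dcl_upd _) hε0)
  obtain ⟨a, ha⟩ : ∃ a, a = b - ε := ⟨_, rfl⟩
  obtain ⟨a', ha'⟩ : ∃ a', a' = b + ε := ⟨_, rfl⟩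
  have ia : Inf (dcl S P n) (a - b) := by simpa [ha] using hε.neg
  have ia' : Inf (dcl S P n) (a' - b) := by simpa [ha'] using hε
  have ma : a ∈ dcl S (upd P n ε) (n + 1) := ha ▸ sub_mem hbε (mem_dcl_upd _)
  have ma' : a' ∈ dcl S (upd P n ε) (n + 1) := ha' ▸ add_mem hbε (mem_dcl_upd _)
  have da : Inf (dcl S (upd P n a) (n + 1)) d := hdε.anti (ep1_dcl_le ma)
  have da' : Inf (dcl S (upd P n a') (n + 1)) d := hdε.anti (ep1_dcl_le ma')
  have ga : Gen S (ep1T e d (upd P n a)) (n + 2) :=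
    ep1_gen (gP.upd (Inf.notMem hb ia (by rw [ha]; linarith))) de da hend.ne
  have ga' : Gen S (ep1T e d (upd P n a')) (n + 2) :=
    ep1_gen (gP.upd (Inf.notMem hb ia' (by rw [ha']; linarith))) de da' hend.ne
  have agr : ∀ w, Agree P (ep1T e d (upd P n w)) n := fun w =>
    ((ep1_agree.mono (Nat.le_succ _)).trans (agree_upd w)).symm
  have ca : c.Has (n + 2) (ep1T e d (upd P n a)) := by
    refine ep1_has hc hend ?_ da
    obtain ⟨h1, h2, h3⟩ := Ctx.has_upd.1 hin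
    have h4 := abs_lt.1 (ia _ (sub_mem hb (ev_mem_dcl
      (hc.df _ (by omega) _ (hc.lo_mem n (by omega))))) (sub_pos.2 h2))
    exact Ctx.has_upd.2 ⟨h1, by linarith [h4.1], by linarith⟩
  have hDa : ev (ep1D e F n) (ep1T e d (upd P n a)) ≠ 0 := fun h0 => by
    have h1 := hc.ident le_rfl ga ca (ep1_df_D de (dF n (by omega))) (DF.const 0)
      (ep1_an_D hc hen hFn) analyticOnNhd_const (by rw [h0, ev_zero'])
    exact hDq (ev_eq_zero_iff.2 (Eventually.mono hq fun ω h => h1 h))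
  -- first call: signs of the slopes and of their derivatives along the end
  obtain ⟨E0, hP0, hE0⟩ := hc.tower_up (by omega) ga ca (hP.congr (agr a))
  obtain ⟨c1, E1, hc1, -, hP1, hE1, hle1, hsg1⟩ := Main.top hG.1 hc le_rfl hP0.tow hP0.has
    hP0.vals (R := insert (ev (ep1D e F n) (ep1T e d (upd P n a)))
      ((fun i => ev (ep1G e F i) (ep1T e d (upd P n a))) '' Iio n ∪
        (fun i => ev (ep1H e (ep1X e F i)) (ep1T e d (upd P n a))) '' Iio n))
    ((((finite_Iio n).image _).union ((finite_Iio n).image _)).insert _) (by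
      rintro _ (rfl | ⟨i, hi, rfl⟩ | ⟨i, hi, rfl⟩)
      · exact ep1_val_D hc hP0 hen hFn
      · exact ep1_val_G hc hP0 hen (hF i (Nat.lt_succ_of_lt hi)) hFn
      · exact ep1_val_H hc hP0 hen (dX i hi)
          (ep1_val_X hc hP0 hen (hF i (Nat.lt_succ_of_lt hi)) hFn))
  have hend1 : ep1End c1 e d := ep1_keep hc hc1 hle1 hend ga hP1.has da
  have hen1 : e ∈ c1.gens (n + 1) := (hle1 _ (by omega)).2 hen
  have hF1 : ∀ i < n + 1, F i ∈ c1.gens (n + 2) := fun i hi => (hle1 _ le_rfl).2 (hF i hi)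
  have hD1 : ∀ q ∈ c1.cell (n + 2), ep1D e F n q ≠ 0 := by
    have ht := (hsg1 _ (.inl rfl)).2 _ (ep1_df_D de (dF n (by omega)))
      (ep1_an_D hc1 hen1 (hF1 n (by omega))) rfl
    rcases lt_or_gt_of_ne hDa with h | h
    · exact fun q hq => (ht.neg_of hP1.has h q hq).ne
    · exact fun q hq => (ht.pos_of hP1.has h q hq).ne'
  have aX : ∀ i < n, AnalyticOnNhd ℝ (ep1X e F i) (c1.cell (n + 2)) := by
    intro i hi
    have aG : AnalyticOnNhd ℝ (ep1G e F i) (c1.cell (n + 2)) :=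
      (ep1_an_D hc1 hen1 (hF1 i (by omega))).neg.div (ep1_an_D hc1 hen1 (hF1 n (by omega))) hD1
    exact ep1_an_sq (hc1.isOpen le_rfl) aG ((hsg1 _ (.inr (.inl ⟨i, hi, rfl⟩))).2 _
      (ep1_df_G de (dF i (by omega)) (dF n (by omega))) aG rfl)
  have tH : ∀ i < n, Tri (ep1H e (ep1X e F i)) (c1.cell (n + 2)) := fun i hi =>
    (hsg1 _ (.inr (.inr ⟨i, hi, rfl⟩))).2 _ (ep1_df_H de (dX i hi))
      ((analyticOnNhd_pdv (aX i hi) n).add ((analyticOnNhd_pdv (aX i hi) (n + 1)).mul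
        (analyticOnNhd_init (analyticOnNhd_pdv (hc1.an _ (by omega) _ hen1) n)
          fun _ => ep1_init_mem))) rfl
  have bX : ∀ i y, |ev (ep1X e F i) y| ≤ 1 := fun i y => ep1_ev_X (e := e) (F := F) i ▸
    (abs_sq1_lt _).le
  have x1 : Ext E E1 n := fun k hk => (hE0 k hk).ge.trans (hE1 k (by omega))
  -- standard parts on the left
  obtain ⟨c3, E3, Hm, hc3, hP3, hle3, hE3, hHm⟩ := ep1_side hG hc1 hP1 hen1 da
    (v := fun i => ev (ep1X e F i) (ep1T e d (upd P n a))) fun i hi =>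
      ⟨ep1_val_X hc1 hP1 hen1 (hF1 i (by omega)) (hF1 n (by omega)), bX _ _⟩
  have x3 : Ext E E3 n := x1.trans (hE3.mono (Nat.le_succ _))
  obtain ⟨c4, hc4, hle4, hle43, hle34, hend4⟩ := ep1_top hc1 hc3 hle3 hend1
  have hP4' := hP3.of_le hle34
  have hen4 : e ∈ c4.gens (n + 1) := (hle4 _ (by omega)).2 hen1
  have hF4 : ∀ i < n + 1, F i ∈ c4.gens (n + 2) := fun i hi => (hle4 _ le_rfl).2 (hF1 i hi)
  -- standard parts on the right
  obtain ⟨E4, hP4, hE4⟩ := hc4.tower_up (n := n) (by omega) ga'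
    (ep1_has hc4 hend4 (across (hc4.down (Nat.le_succ _)) hP4' x3 ia a' ia') da')
    ((hP4'.down (Nat.le_succ _)).congr ((agree_upd a).trans (agr a')))
  obtain ⟨c5, E5, Hp, hc5, hP5, hle5, hE5, hHp⟩ := ep1_side hG hc4 hP4 hen4 da'
    (v := fun i => ev (ep1X e F i) (ep1T e d (upd P n a'))) fun i hi =>
      ⟨ep1_val_X hc4 hP4 hen4 (hF4 i (by omega)) (hF4 n (by omega)), bX _ _⟩
  have x5 : Ext E E5 n :=
    x3.trans fun k hk => (hE4 k hk).ge.trans (hE5 k (by omega))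
  obtain ⟨c6, hc6, hle6, hle65, hle56, hend6⟩ := ep1_top hc4 hc5 hle5 hend4
  have hP6' := hP5.of_le hle56
  have hen6 : e ∈ c6.gens (n + 1) := (hle6 _ (by omega)).2 hen4
  have hF6 : ∀ i < n + 1, F i ∈ c6.gens (n + 2) := fun i hi => (hle6 _ le_rfl).2 (hF4 i hi)
  have mHp : ∀ i < n, Hp i ∈ c5.gens (n + 1) := fun i hi => (hHp i hi).1
  have mHm : ∀ i < n, Hm i ∈ c5.gens (n + 1) := fun i hi =>
    (hle5 _ le_rfl).2 ((hle43 _ le_rfl).2 (hHm i hi).1)
  obtain ⟨E6, hP6, hE6⟩ := hc6.tower_up (n := n + 1) (by omega) ga'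
    (ep1_has hc6 hend6 hP6'.has da') (hP6'.congr ep1_agree.symm)
  -- comparison of the two sides
  let Y : ℕ → Fn (n + 2) := fun i q =>
    ep1X e F i q - (Hp i (Fin.init q) + Hm i (Fin.init q)) * (1 / 2)
  have evY : ∀ i w, ev (Y i) (ep1T e d w) = ev (ep1X e F i) (ep1T e d w) -
      (ev (Hp i) w + ev (Hm i) w) * (1 / 2) := fun i w => by
    rw [ev_sub, ev_mul, ev_add, ev_init, ev_init, ev_const, ep1_agree.ev_eq (Hp i),
      ep1_agree.ev_eq (Hm i)]
    simp [map_ofNat]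
  have half : ∀ K : Fld, (1 / 2 : U) ∈ K := fun K =>
    div_mem (one_mem _) (by exact_mod_cast K.natCast_mem 2)
  obtain ⟨c7, E7, hc7, -, hP7, hE7, hle7, hsg7⟩ := Main.top hG.1 hc6 le_rfl hP6.tow hP6.has
    hP6.vals (R := (fun i => ev (Y i) (ep1T e d (upd P n a'))) '' Iio n)
    ((finite_Iio n).image _) (by
      rintro _ ⟨i, hi, rfl⟩
      have h1 : E5 (n + 1) ≤ E6 (n + 2) :=
        (hE6 _ le_rfl).ge.trans (hP6.tow.le (Nat.le_succ _) le_rfl)
      simp only [evY]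
      exact sub_mem (ep1_val_X hc6 hP6 hen6 (hF6 i (Nat.lt_succ_of_lt hi)) (hF6 n (by omega)))
        (mul_mem (add_mem (h1 (hP5.vals _ le_rfl _ (mHp i hi)))
          (h1 (hP5.vals _ le_rfl _ (mHm i hi)))) (half _)))
  have x7 : Ext E E7 n :=
    x5.trans fun k hk => (hE6 k (by omega)).ge.trans (hE7 k (by omega))
  have c7a : c7.Has (n + 2) (ep1T e d (upd P n a)) :=
    ep1_has hc7 (ep1_keep hc6 hc7 hle7 hend6 ga' hP7.has da') (across (hc7.down (Nat.le_succ _))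
      ((hP7.down (Nat.le_succ _)).congr ep1_agree) x7 ia' a ia) da
  have c5b : c5.Has (n + 1) (upd P n b) := across hc5 hP5 x5 ia' b (by simpa using Inf.zero _)
  have hseg := ep1_segment hc1 hend1 (Z := upd P n ε) (r := n + 1)
    ((hP1.has.down (Nat.le_succ _)).congr ep1_agree)
    (Eventually.mono hP5.has fun ω h =>
      (hle4 (n + 1) (by omega)).1 ((hle5 _ le_rfl).1 h))
    (fun i hi => dcl_le_upd _ (self_mem_dcl hi)) ma ma' hdε
  have hκ : ∀ i < n, pd S P n i b ∈ stF (dcl S P n) (E3 (n + 1)) := by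
    intro i hi
    have dp := hc5.df _ le_rfl _ (mHp i hi)
    have dm := hc5.df _ le_rfl _ (mHm i hi)
    have ap := hc5.an _ le_rfl _ (mHp i hi)
    have am := hc5.an _ le_rfl _ (mHm i hi)
    have cp : At (fun x => ContinuousAt (Hp i) x) (upd P n b) :=
      Eventually.mono c5b fun ω h => (ap _ h).continuousAt
    have cm : At (fun x => ContinuousAt (Hm i) x) (upd P n b) :=
      Eventually.mono c5b fun ω h => (am _ h).continuousAt
    obtain ⟨mp, p1⟩ := ep1_near hb ia dp cp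
    obtain ⟨mm, m1⟩ := ep1_near hb ia dm cm
    have p2 := (ep1_near hb ia' dp cp).2
    have m2 := (ep1_near hb ia' dm cm).2
    have v1 := ((hHm i hi).2.anti (dcl_le_upd a)).add m1
    have v2 := ((hHp i hi).2.anti (dcl_le_upd a')).add p2
    rw [sub_add_sub_cancel] at v1 v2
    have sub75 : ∀ q ∈ c7.cell (n + 2), Fin.init q ∈ c5.cell (n + 1) := fun q hq =>
      (hle65 _ le_rfl).1 (ep1_init_mem ((hle7 _ le_rfl).1 hq))
    have tY : Tri (Y i) (c7.cell (n + 2)) := (hsg7 _ ⟨i, hi, rfl⟩).2 _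
      ((dX i hi).sub (((dp.comp (DF.init DF.id')).add (dm.comp (DF.init DF.id'))).mul
        (DF.const _)))
      (((aX i hi).mono fun q hq => (hle4 _ le_rfl).1 ((hle6 _ le_rfl).1
        ((hle7 _ le_rfl).1 hq))).sub (((analyticOnNhd_init ap sub75).add
          (analyticOnNhd_init am sub75)).mul analyticOnNhd_const)) rfl
    have hh := Bdd.of_mem (half (dcl S P n))
    have h0 := ep1_tri_zero tY hP7.has c7a (K := dcl S P n)
      (δ := (ev (Hp i) (upd P n b) - ev (Hm i) (upd P n b)) * (1 / 2))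
      (mul_mem (sub_mem mp mm) (half _))
      (by convert v2.sub ((p2.add m2).mul_bdd hh) using 1; rw [evY]; ring)
      (by convert v1.sub ((p1.add m1).mul_bdd hh) using 1; rw [evY]; ring)
    have e0 : ev (Hp i) (upd P n b) = ev (Hm i) (upd P n b) := by linarith
    rw [e0] at v2
    have v0 := ep1_sandwich hc1 hen1 hseg (s := s) (by linarith [hsb.1]) (by linarith [hsb.2])
      (aX i hi) (tH i hi) v1 v2
    have v3 : Inf (dcl S P n) (ev (ep1X e F i) (ep1T e d (upd P n s)) - sq1 (pd S P n i b)) := by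
      rw [ep1_ev_X]
      exact (hslope i hi).of_le (abs_sq1_sub_le _ _)
    have e1 : ev (Hm i) (upd P n b) - sq1 (pd S P n i b) = 0 := Inf.eq_zero
      (by simpa using v3.sub v0) (sub_mem mm (sq1_mem (pd_mem _ _)))
    rw [sub_eq_zero.1 e1] at m1
    exact ⟨pd_mem _ _, _, sq1i_mem (hP3.vals _ le_rfl _ (hHm i hi).1), m1.of_sq1 (pd_mem _ _)⟩
  have e0 : dcl S (upd P n a) n = dcl S P n := (agree_upd a).dcl_eq
  obtain ⟨E', h1, h2, h3⟩ := node_main hG.1 hθ hP3.tow (hc.pos le_rfl) (ρ := b) (e0 ▸ hb)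
    (by rwa [e0, upd_self]) (by rwa [e0, (agree_upd a).pd_eq])
  exact hcon ⟨E', h1.congr (agree_upd a), x3.trans h2, h3⟩

end Pool.Agent.Lib.MP_1a1eb7_lc
end
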