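import Mathlib

/-! Superposition operators of analytic maps are analytic; analytic radial integration. -/

open Set Filter Topology

namespace Pool.Agent.Lib.MP_1a1eb7_lc

section Super

variable {K X G : Type} [TopologicalSpace K] [CompactSpace K]
  [NormedAddCommGroup X] [NormedSpace ℝ X] [NormedAddCommGroup G] [NormedSpace ℝ G]

/-- pointwise lift of a continuous multilinear map -/
noncomputable def liftM0 (K : Type) [TopologicalSpace K] [CompactSpace K] {n : ℕ}
    (A : ContinuousMultilinearMap ℝ (fun _ : Fin n => X) G) :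
    MultilinearMap ℝ (fun _ : Fin n => C(K, X)) C(K, G) where
  toFun u := ⟨fun t => A (fun i => u i t), A.cont.comp (continuous_pi fun i => (u i).continuous)⟩
  map_update_add' u i x y := by
    ext t
    have h : ∀ z : C(K, X), (fun j => Function.update u i z j t) =
        Function.update (fun j => u j t) i (z t) := by
      intro z; funext j
      by_cases hj : j = i
      · subst hj; simp
      · simp [Function.update_of_ne hj]
    simp only [ContinuousMap.coe_mk, ContinuousMap.add_apply, h]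
    exact A.map_update_add _ _ _ _
  map_update_smul' u i c x := by
    ext t
    have h : ∀ z : C(K, X), (fun j => Function.update u i z j t) =
        Function.update (fun j => u j t) i (z t) := by
      intro z; funext j
      by_cases hj : j = i
      · subst hj; simp
      · simp [Function.update_of_ne hj]
    simp only [ContinuousMap.coe_mk, ContinuousMap.smul_apply, h]
    exact A.map_update_smul _ _ _ _

theorem liftM0_bound {n : ℕ} (A : ContinuousMultilinearMap ℝ (fun _ : Fin n => X) G)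
    (u : Fin n → C(K, X)) : ‖liftM0 K A u‖ ≤ ‖A‖ * ∏ i, ‖u i‖ := by
  refine (ContinuousMap.norm_le _ (by positivity)).2 fun t => ?_
  refine (A.le_opNorm _).trans ?_
  gcongr with i
  exact (u i).norm_coe_le_norm t

/-- pointwise lift of a continuous multilinear map, as a continuous multilinear map -/
noncomputable def liftM (K : Type) [TopologicalSpace K] [CompactSpace K] {n : ℕ}
    (A : ContinuousMultilinearMap ℝ (fun _ : Fin n => X) G) :
    ContinuousMultilinearMap ℝ (fun _ : Fin n => C(K, X)) C(K, G) :=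
  (liftM0 K A).mkContinuous ‖A‖ (liftM0_bound A)

theorem liftM_norm {n : ℕ} (A : ContinuousMultilinearMap ℝ (fun _ : Fin n => X) G) :
    ‖liftM K A‖ ≤ ‖A‖ :=
  MultilinearMap.mkContinuous_norm_le _ (norm_nonneg _) _

theorem liftM_apply {n : ℕ} (A : ContinuousMultilinearMap ℝ (fun _ : Fin n => X) G)
    (u : Fin n → C(K, X)) (t : K) : liftM K A u t = A (fun i => u i t) := rfl

theorem exists_super [CompleteSpace G] {F : X → G} {p0 : X} (hF : AnalyticAt ℝ F p0) :
    ∃ N : C(K, X) → C(K, G), AnalyticAt ℝ N (ContinuousMap.const K p0) ∧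
      ∀ᶠ u in 𝓝 (ContinuousMap.const K p0), ∀ t, N u t = F (u t) := by
  obtain ⟨p, r, hp⟩ := hF
  let q : FormalMultilinearSeries ℝ C(K, X) C(K, G) := fun n => liftM K (p n)
  have hq : p.radius ≤ q.radius :=
    FormalMultilinearSeries.radius_le_of_le fun n => liftM_norm (p n)
  have hr : r ≤ q.radius := hp.r_le.trans hq
  have hq0 : 0 < q.radius := hp.r_pos.trans_le hr
  have hs := q.hasFPowerSeriesOnBall hq0
  refine ⟨fun u => q.sum (u - ContinuousMap.const K p0), ?_, ?_⟩
  · have h1 : AnalyticAt ℝ q.sum (ContinuousMap.const K p0 - ContinuousMap.const K p0) := by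
      rw [sub_self]; exact hs.analyticAt
    exact h1.comp (f := fun u => u - ContinuousMap.const K p0)
      (analyticAt_id.sub analyticAt_const)
  · filter_upwards [Metric.eball_mem_nhds (ContinuousMap.const K p0) hp.r_pos] with u hu t
    set y := u - ContinuousMap.const K p0 with hy
    have hy1 : y ∈ Metric.eball (0 : C(K, X)) r := by
      rw [Metric.mem_eball, edist_zero_right, hy, ← edist_eq_enorm_sub]
      exact hu
    have hy2 : y t ∈ Metric.eball (0 : X) r := by
      rw [Metric.mem_eball, edist_zero_right] at hy1 ⊢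
      refine lt_of_le_of_lt ?_ hy1
      rw [← ofReal_norm, ← ofReal_norm]
      exact ENNReal.ofReal_le_ofReal (y.norm_coe_le_norm t)
    have h1 := (q.hasSum (Metric.eball_subset_eball hr hy1)).mapL (ContinuousMap.evalCLM ℝ t)
    have h2 := hp.hasSum hy2
    have h3 : p0 + y t = u t := by simp [hy]
    rw [h3] at h2
    exact h1.unique h2

end Super

section Radial

/-- primitive of a continuous function on the unit interval -/
noncomputable def prim (y : C(Icc (0 : ℝ) 1, ℝ)) (t : ℝ) : ℝ :=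
  ∫ s in (0 : ℝ)..t, y (projIcc 0 1 zero_le_one s)

theorem cont_ext (y : C(Icc (0 : ℝ) 1, ℝ)) :
    Continuous fun s : ℝ => y (projIcc 0 1 zero_le_one s) :=
  y.continuous.comp continuous_projIcc

theorem hasDerivAt_prim (y : C(Icc (0 : ℝ) 1, ℝ)) (t : ℝ) :
    HasDerivAt (prim y) (y (projIcc 0 1 zero_le_one t)) t :=
  ((cont_ext y).integral_hasStrictDerivAt 0 t).hasDerivAt

theorem continuous_prim (y : C(Icc (0 : ℝ) 1, ℝ)) : Continuous (prim y) :=
  continuous_iff_continuousAt.2 fun t => (hasDerivAt_prim y t).continuousAt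

/-- the integral operator -/
noncomputable def intOp : C(Icc (0 : ℝ) 1, ℝ) →L[ℝ] C(Icc (0 : ℝ) 1, ℝ) :=
  LinearMap.mkContinuous
    { toFun := fun y => ⟨fun t => prim y t, (continuous_prim y).comp continuous_subtype_val⟩
      map_add' := fun y z => by
        ext t
        simp only [prim, ContinuousMap.coe_mk, ContinuousMap.add_apply]
        exact intervalIntegral.integral_add ((cont_ext y).intervalIntegrable _ _)
          ((cont_ext z).intervalIntegrable _ _)
      map_smul' := fun c y => by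
        ext t
        simp only [prim, ContinuousMap.coe_mk, ContinuousMap.smul_apply, RingHom.id_apply]
        exact intervalIntegral.integral_smul c _ } 1
    (fun y => by
      refine (ContinuousMap.norm_le _ (by positivity)).2 fun t => ?_
      have h := intervalIntegral.norm_integral_le_of_norm_le_const (a := 0) (b := (t : ℝ))
        (C := ‖y‖) (f := fun s : ℝ => y (projIcc 0 1 zero_le_one s))
        fun s _ => y.norm_coe_le_norm _
      refine le_trans h ?_
      rw [sub_zero, abs_of_nonneg t.2.1, one_mul]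
      exact mul_le_of_le_one_right (norm_nonneg _) t.2.2)

theorem intOp_apply (y : C(Icc (0 : ℝ) 1, ℝ)) (t : Icc (0 : ℝ) 1) : intOp y t = prim y t := rfl

variable {E : Type} [NormedAddCommGroup E] [NormedSpace ℝ E]

/-- the path along the ray -/
noncomputable def rayOp (E : Type) [NormedAddCommGroup E] [NormedSpace ℝ E] :
    ((E × ℝ) × E) × C(Icc (0 : ℝ) 1, ℝ) →L[ℝ] C(Icc (0 : ℝ) 1, (E × ℝ) × E) :=
  LinearMap.mkContinuous
    { toFun := fun z => ⟨fun t => ((z.1.1.1 + (t : ℝ) • z.1.2, z.2 t), z.1.2), by fun_prop⟩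
      map_add' := fun y z => by
        ext t
        · simp only [ContinuousMap.coe_mk, ContinuousMap.add_apply, Prod.fst_add, Prod.snd_add,
            smul_add]
          abel
        · simp
        · simp
      map_smul' := fun c y => by
        ext t
        · simp only [ContinuousMap.coe_mk, ContinuousMap.smul_apply, Prod.smul_fst, Prod.smul_snd,
            smul_add, RingHom.id_apply, smul_comm c (t : ℝ)]
        · simp
        · simp } 2
    (fun z => by
      refine (ContinuousMap.norm_le _ (by positivity)).2 fun t => ?_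
      have h1 : ‖z.1.1.1‖ ≤ ‖z‖ :=
        (norm_fst_le z.1.1).trans ((norm_fst_le z.1).trans (norm_fst_le z))
      have h2 : ‖z.1.2‖ ≤ ‖z‖ := (norm_snd_le z.1).trans (norm_fst_le z)
      have h3 : ‖z.2 t‖ ≤ ‖z‖ := (z.2.norm_coe_le_norm t).trans (norm_snd_le z)
      have h4 : ‖(t : ℝ) • z.1.2‖ ≤ ‖z‖ := by
        rw [norm_smul, Real.norm_eq_abs, abs_of_nonneg t.2.1]
        exact (mul_le_of_le_one_left (norm_nonneg _) t.2.2).trans h2
      have h5 := norm_add_le z.1.1.1 ((t : ℝ) • z.1.2)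
      have h6 := norm_nonneg z
      show ‖((z.1.1.1 + (t : ℝ) • z.1.2, z.2 t), z.1.2)‖ ≤ 2 * ‖z‖
      simp only [Prod.norm_mk, max_le_iff]
      exact ⟨⟨by linarith, by linarith⟩, by linarith⟩)

theorem rayOp_apply (z : ((E × ℝ) × E) × C(Icc (0 : ℝ) 1, ℝ)) (t : Icc (0 : ℝ) 1) :
    rayOp E z t = ((z.1.1.1 + (t : ℝ) • z.1.2, z.2 t), z.1.2) := rfl

/-- analytic radial integration with a variable centre -/
theorem radial [CompleteSpace E] {F : E × ℝ → E →L[ℝ] ℝ} {p0 : E × ℝ} (hF : AnalyticAt ℝ F p0) :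
    ∃ Φ : (E × ℝ) × E → ℝ, AnalyticAt ℝ Φ (p0, 0) ∧ ∀ W ∈ 𝓝 p0, ∀ᶠ q in 𝓝 (p0, (0 : E)),
      ∃ y : ℝ → ℝ, y 0 = q.1.2 ∧ y 1 = Φ q ∧ ∀ t ∈ Icc (0 : ℝ) 1,
        (q.1.1 + t • q.2, y t) ∈ W ∧ HasDerivAt y (F (q.1.1 + t • q.2, y t) q.2) t := by
  have hH : AnalyticAt ℝ (fun x : (E × ℝ) × E => F x.1 x.2) (p0, 0) :=
    (ContDiffAt.clm_apply (n := ⊤)
      (AnalyticAt.comp (f := Prod.fst) (x := (p0, (0 : E))) hF analyticAt_fst).contDiffAt
      contDiffAt_snd).analyticAt
  obtain ⟨N, hN, hNe⟩ := exists_super (K := Icc (0 : ℝ) 1) hH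
  set u0 : ((E × ℝ) × E) × C(Icc (0 : ℝ) 1, ℝ) :=
    ((p0, 0), ContinuousMap.const _ p0.2) with hu0
  have hU0 : rayOp E u0 = ContinuousMap.const _ (p0, 0) := by
    ext t <;> simp [rayOp_apply, hu0]
  let C : ((E × ℝ) × E) × C(Icc (0 : ℝ) 1, ℝ) →L[ℝ] C(Icc (0 : ℝ) 1, ℝ) :=
    (ContinuousLinearMap.const ℝ (Icc (0 : ℝ) 1)) ∘L (ContinuousLinearMap.snd ℝ E ℝ) ∘L
      (ContinuousLinearMap.fst ℝ (E × ℝ) E) ∘L (ContinuousLinearMap.fst ℝ _ _)
  have hC : ∀ z t, C z t = z.1.1.2 := fun z t => rfl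
  let G : ((E × ℝ) × E) × C(Icc (0 : ℝ) 1, ℝ) → C(Icc (0 : ℝ) 1, ℝ) :=
    fun z => z.2 - C z - intOp (N (rayOp E z))
  have hNU : AnalyticAt ℝ (fun z => N (rayOp E z)) u0 :=
    AnalyticAt.comp (f := rayOp E) (by rw [hU0]; exact hN) ((rayOp E).analyticAt u0)
  have hG : AnalyticAt ℝ G u0 :=
    (analyticAt_snd.sub (C.analyticAt u0)).sub ((intOp.analyticAt _).comp hNU)
  have hNUe : ∀ᶠ z in 𝓝 u0, ∀ t, N (rayOp E z) t =
      F (z.1.1.1 + (t : ℝ) • z.1.2, z.2 t) z.1.2 := by
    have := ((rayOp E).continuous.tendsto u0).eventually (by rw [hU0]; exact hNe)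
    exact this
  have hin : HasFDerivAt (fun y : C(Icc (0 : ℝ) 1, ℝ) => ((p0, (0 : E)), y))
      (ContinuousLinearMap.inr ℝ ((E × ℝ) × E) C(Icc (0 : ℝ) 1, ℝ)) u0.2 :=
    hasFDerivAt_prodMk_right _ _
  have hGe : (fun y : C(Icc (0 : ℝ) 1, ℝ) => G ((p0, (0 : E)), y)) =ᶠ[𝓝 u0.2]
      fun y => y - ContinuousMap.const _ p0.2 := by
    filter_upwards [hin.continuousAt.tendsto.eventually hNUe] with y hy
    have : N (rayOp E ((p0, (0 : E)), y)) = 0 := by
      ext t
      rw [hy t]; simp
    simp only [G, this, map_zero, sub_zero]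
    rfl
  have hinv : (fderiv ℝ G u0 ∘L ContinuousLinearMap.inr ℝ ((E × ℝ) × E)
      C(Icc (0 : ℝ) 1, ℝ)).IsInvertible := by
    have h1 := hG.differentiableAt.hasFDerivAt.comp u0.2 hin
    have h2 : HasFDerivAt (fun y : C(Icc (0 : ℝ) 1, ℝ) => G ((p0, (0 : E)), y))
        (ContinuousLinearMap.id ℝ _) u0.2 :=
      ((hasFDerivAt_id u0.2).sub_const _).congr_of_eventuallyEq hGe
    rw [h1.unique h2]
    exact ⟨ContinuousLinearEquiv.refl ℝ _, rfl⟩
  have hcd : ContDiffAt ℝ ⊤ G u0 := hG.contDiffAt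
  have hn : (⊤ : WithTop ℕ∞) ≠ 0 := by simp
  set ψ := hcd.implicitFunction hn hinv with hψ
  have hψa : AnalyticAt ℝ ψ (p0, 0) :=
    (hcd.contDiffAt_implicitFunction hn hinv).analyticAt
  have hψ0 : ψ (p0, 0) = u0.2 := hcd.implicitFunction_apply_self hn hinv
  have hG0 : G u0 = 0 := by
    have := hGe.self_of_nhds
    simp only [hu0, sub_self] at this
    exact this
  have hψe : ∀ᶠ q in 𝓝 (p0, (0 : E)), G (q, ψ q) = 0 := by
    have := hcd.eventually_apply_implicitFunction hn hinv
    rw [hG0] at this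
    exact this
  have ht : Tendsto (fun q => (q, ψ q)) (𝓝 (p0, (0 : E))) (𝓝 u0) := by
    have h1 := hψa.continuousAt.tendsto
    rw [hψ0] at h1
    exact tendsto_id.prodMk_nhds h1
  refine ⟨fun q => ψ q ⟨1, by simp⟩,
    ((ContinuousMap.evalCLM ℝ (M := ℝ) (⟨1, by simp⟩ : Icc (0 : ℝ) 1)).analyticAt _).comp hψa,
    ?_⟩
  intro W hW
  obtain ⟨ε, hε, hεW⟩ := Metric.mem_nhds_iff.1 hW
  have hb : ∀ᶠ z in 𝓝 u0, dist (rayOp E z) (ContinuousMap.const _ (p0, 0)) < ε := by
    have := ((rayOp E).continuous.tendsto u0).eventually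
      (Metric.ball_mem_nhds (rayOp E u0) hε)
    rw [hU0] at this
    exact this
  filter_upwards [hψe, ht.eventually hNUe, ht.eventually hb] with q h1 h2 h3
  have hy : ∀ t : Icc (0 : ℝ) 1, q.1.2 + prim (N (rayOp E (q, ψ q))) t = ψ q t := by
    intro t
    have := congrArg (fun y : C(Icc (0 : ℝ) 1, ℝ) => y t) h1
    simp only [G, ContinuousMap.sub_apply, hC, intOp_apply, ContinuousMap.zero_apply] at this
    linarith
  refine ⟨fun s => q.1.2 + prim (N (rayOp E (q, ψ q))) s, by simp [prim], hy ⟨1, by simp⟩,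
    fun t ht => ?_⟩
  have hyt := hy ⟨t, ht⟩
  simp only at hyt ⊢
  rw [hyt]
  constructor
  · apply hεW
    have h4 := lt_of_le_of_lt (ContinuousMap.dist_apply_le_dist (⟨t, ht⟩ : Icc (0 : ℝ) 1)) h3
    rw [rayOp_apply, ContinuousMap.const_apply, Prod.dist_eq, max_lt_iff] at h4
    exact h4.1
  · have h5 := (hasDerivAt_prim (N (rayOp E (q, ψ q))) t).const_add q.1.2
    rw [projIcc_of_mem _ ht, h2] at h5
    exact h5

end Radial

end Pool.Agent.Lib.MP_1a1eb7_lc
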