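import Pool.Agent.Lib.MP_1a1eb7_lc.FDefs
import Pool.Agent.Lib.MP_1a1eb7_lc.Super

/-! Local analytic Frobenius theorem for one Pfaffian equation. -/

open Set Filter Topology
open scoped NNReal

namespace Pool.Agent.Lib.MP_1a1eb7_lc

open Pool.Agent.Shared.OMin

variable {E : Type} [NormedAddCommGroup E] [NormedSpace ℝ E]

theorem lip_slice {F : E × ℝ → E →L[ℝ] ℝ} {W : Set (E × ℝ)} {K : ℝ≥0}
    (hK : LipschitzOnWith K F W) (x : E) {u : E} {M : ℝ≥0} (hu : ‖u‖ ≤ M) :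
    LipschitzOnWith (K * M) (fun w => F (x, w) u) {w | (x, w) ∈ W} := by
  refine LipschitzOnWith.of_dist_le_mul fun w hw w' hw' => ?_
  have h1 := hK.dist_le_mul _ hw _ hw'
  have h2 : dist (x, w) (x, w') = dist w w' := by simp [Prod.dist_eq]
  rw [h2, dist_eq_norm] at h1
  rw [dist_eq_norm, ← sub_apply]
  calc ‖(F (x, w) - F (x, w')) u‖ ≤ ‖F (x, w) - F (x, w')‖ * ‖u‖ :=
        ContinuousLinearMap.le_opNorm _ _
    _ ≤ (K * dist w w') * M := by gcongr
    _ = _ := by push_cast; ring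

theorem uniq_path {F : E × ℝ → E →L[ℝ] ℝ} {W : Set (E × ℝ)} {K : ℝ≥0}
    (hK : LipschitzOnWith K F W) {γ γ' : ℝ → E} {M : ℝ≥0} (hM : ∀ t ∈ Icc (0 : ℝ) 1, ‖γ' t‖ ≤ M)
    {y z : ℝ → ℝ}
    (hy : ∀ t ∈ Icc (0 : ℝ) 1, (γ t, y t) ∈ W ∧ HasDerivAt y (F (γ t, y t) (γ' t)) t)
    (hz : ∀ t ∈ Icc (0 : ℝ) 1, (γ t, z t) ∈ W ∧ HasDerivAt z (F (γ t, z t) (γ' t)) t)
    (h0 : y 0 = z 0) : ∀ t ∈ Icc (0 : ℝ) 1, y t = z t :=
  ODE_solution_unique_of_mem_Icc_right (v := fun t w => F (γ t, w) (γ' t))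
    (s := fun t => {w | (γ t, w) ∈ W}) (K := K * M)
    (fun t ht => lip_slice hK _ (hM t (Ico_subset_Icc_self ht)))
    (fun t ht => (hy t ht).2.continuousAt.continuousWithinAt)
    (fun t ht => (hy t (Ico_subset_Icc_self ht)).2.hasDerivWithinAt)
    (fun t ht => (hy t (Ico_subset_Icc_self ht)).1)
    (fun t ht => (hz t ht).2.continuousAt.continuousWithinAt)
    (fun t ht => (hz t (Ico_subset_Icc_self ht)).2.hasDerivWithinAt)
    (fun t ht => (hz t (Ico_subset_Icc_self ht)).1) h0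

theorem ray_mem {x v : E} {r : ℝ} (hv : ‖v‖ < r) {t : ℝ} (ht : t ∈ Icc (0 : ℝ) 1) :
    x + t • v ∈ Metric.ball x r := by
  rw [mem_ball_iff_norm, add_sub_cancel_left, norm_smul, Real.norm_eq_abs, abs_of_nonneg ht.1]
  exact (mul_le_of_le_one_left (norm_nonneg _) ht.2).trans_lt hv

theorem hasDerivAt_ray (x v : E) (t : ℝ) : HasDerivAt (fun s : ℝ => x + s • v) v t := by
  simpa using ((hasDerivAt_id t).smul_const v).const_add x

/-- a full solution restricted to a ray -/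
theorem seg_sol {F : E × ℝ → E →L[ℝ] ℝ} {W : Set (E × ℝ)} {f : E → ℝ} {x v : E} {r : ℝ}
    (hf : ∀ z ∈ Metric.ball x r, (z, f z) ∈ W ∧ HasFDerivAt f (F (z, f z)) z) (hv : ‖v‖ < r) :
    ∀ t ∈ Icc (0 : ℝ) 1, (x + t • v, f (x + t • v)) ∈ W ∧
      HasDerivAt (fun s : ℝ => f (x + s • v)) (F (x + t • v, f (x + t • v)) v) t := fun t ht =>
  ⟨(hf _ (ray_mem hv ht)).1, (hf _ (ray_mem hv ht)).2.comp_hasDerivAt t (hasDerivAt_ray x v t)⟩

theorem sol_ball {F : E × ℝ → E →L[ℝ] ℝ} {W : Set (E × ℝ)} {f : E → ℝ} {x : E}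
    (hW : W ∈ 𝓝 (x, f x)) (hf : ∀ᶠ z in 𝓝 x, HasFDerivAt f (F (z, f z)) z) :
    ∀ᶠ z in 𝓝 x, (z, f z) ∈ W ∧ HasFDerivAt f (F (z, f z)) z :=
  ((continuousAt_id.prodMk hf.self_of_nhds.continuousAt).tendsto.eventually hW).and hf

/-- two full solutions that agree at a point agree nearby -/
theorem sol_unique {F : E × ℝ → E →L[ℝ] ℝ} {f g : E → ℝ} {x : E}
    (hF : AnalyticAt ℝ F (x, f x)) (hf : ∀ᶠ z in 𝓝 x, HasFDerivAt f (F (z, f z)) z)
    (hg : ∀ᶠ z in 𝓝 x, HasFDerivAt g (F (z, g z)) z) (h : f x = g x) : f =ᶠ[𝓝 x] g := by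
  obtain ⟨K, W, hW, hK⟩ := (hF.contDiffAt (n := 1)).exists_lipschitzOnWith
  obtain ⟨r, hr, hb⟩ := Metric.eventually_nhds_iff_ball.1
    ((sol_ball hW hf).and (sol_ball (h ▸ hW) hg))
  filter_upwards [Metric.ball_mem_nhds x hr] with z hz
  have hv : ‖z - x‖ < r := mem_ball_iff_norm.1 hz
  have := uniq_path hK (M := ‖z - x‖₊) (γ' := fun _ => z - x) (fun _ _ => le_rfl)
    (seg_sol (fun z hz => (hb z hz).1) hv) (seg_sol (fun z hz => (hb z hz).2) hv)
    (by simpa using h) 1 (by simp)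
  simpa using this

/-- a solution of an analytic system is analytic -/
theorem analyticAt_of_sol [FiniteDimensional ℝ E] {F : E × ℝ → E →L[ℝ] ℝ} {f : E → ℝ} {x : E}
    (hF : AnalyticAt ℝ F (x, f x)) (hf : ∀ᶠ z in 𝓝 x, HasFDerivAt f (F (z, f z)) z) :
    AnalyticAt ℝ f x := by
  have := FiniteDimensional.complete ℝ E
  obtain ⟨K, W, hW, hK⟩ := (hF.contDiffAt (n := 1)).exists_lipschitzOnWith
  obtain ⟨Φ, hΦ, hΦe⟩ := radial hF
  obtain ⟨r, hr, hb⟩ := Metric.eventually_nhds_iff_ball.1 (sol_ball hW hf)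
  have ha : AnalyticAt ℝ (fun z : E => ((x, f x), z - x)) x :=
    analyticAt_const.prod (analyticAt_id.sub analyticAt_const)
  have ha' : AnalyticAt ℝ (fun z : E => Φ ((x, f x), z - x)) x :=
    AnalyticAt.comp (f := fun z : E => ((x, f x), z - x)) (by simpa using hΦ) ha
  refine ha'.congr ?_
  have ht := ha.continuousAt.tendsto
  simp only [sub_self] at ht
  filter_upwards [Metric.ball_mem_nhds x hr, ht.eventually (hΦe W hW)] with z hz ⟨y, h0, h1, hy⟩
  have hv : ‖z - x‖ < r := mem_ball_iff_norm.1 hz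
  have := uniq_path hK (M := ‖z - x‖₊) (γ' := fun _ => z - x) (fun _ _ => le_rfl)
    hy (seg_sol hb hv) (by simpa using h0) 1 (by simp)
  rw [← h1, this]
  simp

/-- along the graph of a solution the system is integrable -/
theorem integ_of_sol [FiniteDimensional ℝ E] {F : E × ℝ → E →L[ℝ] ℝ} {f : E → ℝ} {x : E}
    (hF : AnalyticAt ℝ F (x, f x)) (hf : ∀ᶠ z in 𝓝 x, HasFDerivAt f (F (z, f z)) z) :
    Integ F (x, f x) := by
  intro u v
  have h1 : HasFDerivAt (fun z => F (z, f z))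
      (fderiv ℝ F (x, f x) ∘L (ContinuousLinearMap.id ℝ E).prod (F (x, f x))) x :=
    HasFDerivAt.comp (f := fun z => (z, f z)) x hF.differentiableAt.hasFDerivAt
      ((hasFDerivAt_id x).prodMk hf.self_of_nhds)
  exact second_derivative_symmetric_of_eventually hf h1 u v

/-- a function that solves the system along rays solves the system -/
theorem radial_solves {F : E × ℝ → E →L[ℝ] ℝ} {W : Set (E × ℝ)} (hW : IsOpen W) {K : ℝ≥0}
    (hK : LipschitzOnWith K F W) (hFa : ∀ p ∈ W, AnalyticAt ℝ F p ∧ Integ F p) {x : E}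
    {g : E → ℝ} {r : ℝ}
    (hg : ∀ v ∈ Metric.ball (0 : E) r, AnalyticAt ℝ g v ∧ (x + v, g v) ∈ W ∧
      fderiv ℝ g v v = F (x + v, g v) v) :
    ∀ v ∈ Metric.ball (0 : E) r, fderiv ℝ g v = F (x + v, g v) := by
  let e : E → E →L[ℝ] ℝ := fun v => fderiv ℝ g v - F (x + v, g v)
  let De : E → E →L[ℝ] E →L[ℝ] ℝ := fun v => fderiv ℝ (fderiv ℝ g) v -
    fderiv ℝ F (x + v, g v) ∘L (ContinuousLinearMap.id ℝ E).prod (fderiv ℝ g v)
  have hD : ∀ v ∈ Metric.ball (0 : E) r, HasFDerivAt e (De v) v := by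
    intro v hv
    obtain ⟨h1, h2, -⟩ := hg v hv
    refine h1.fderiv.differentiableAt.hasFDerivAt.sub ?_
    exact HasFDerivAt.comp (f := fun z => (x + z, g z)) v
      (hFa _ h2).1.differentiableAt.hasFDerivAt
      (((hasFDerivAt_id v).const_add x).prodMk h1.differentiableAt.hasFDerivAt)
  have he0 : ∀ v ∈ Metric.ball (0 : E) r, e v v = 0 := fun v hv => by
    simp [e, (hg v hv).2.2]
  have hD0 : ∀ v ∈ Metric.ball (0 : E) r, ∀ u, De v u v + e v u = 0 := by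
    intro v hv u
    have h1 := (hD v hv).clm_apply (hasFDerivAt_id v)
    have h2 : HasFDerivAt (fun y => e y (id y)) (0 : E →L[ℝ] ℝ) v := by
      refine (hasFDerivAt_const (0 : ℝ) v).congr_of_eventuallyEq ?_
      filter_upwards [Metric.isOpen_ball.mem_nhds hv] with y hy using he0 y hy
    have h3 := congrArg (fun L : E →L[ℝ] ℝ => L u) (h1.unique h2)
    simpa [add_comm] using h3
  have hkey : ∀ v ∈ Metric.ball (0 : E) r, ∀ u,
      De v v u + e v u = e v u * fderiv ℝ F (x + v, g v) (0, 1) v := by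
    intro v hv u
    obtain ⟨h1, h2, h3⟩ := hg v hv
    have hs : fderiv ℝ (fderiv ℝ g) v v u = fderiv ℝ (fderiv ℝ g) v u v :=
      second_derivative_symmetric_of_eventually
        (h1.eventually_analyticAt.mono fun y hy => hy.differentiableAt.hasFDerivAt)
        h1.fderiv.differentiableAt.hasFDerivAt v u
    have hi := (hFa _ h2).2 u v
    have h4 := hD0 v hv u
    have h5 : ((u, fderiv ℝ g v u) : E × ℝ) = (u, F (x + v, g v) u) + e v u • ((0 : E), (1 : ℝ)) := by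
      simp [e]
    simp only [De, sub_apply, ContinuousLinearMap.comp_apply,
      ContinuousLinearMap.prod_apply, ContinuousLinearMap.id_apply] at h4 ⊢
    rw [h5, map_add, map_smul, add_apply, smul_apply,
      smul_eq_mul, hi] at h4
    rw [h3, hs]
    linarith
  intro v hv
  ext u
  have hv' : ‖v‖ < r := mem_ball_zero_iff.1 hv
  have hm : ∀ t ∈ Icc (0 : ℝ) 1, t • v ∈ Metric.ball (0 : E) r := fun t ht => by
    simpa using ray_mem (x := 0) hv' ht
  have hd : ∀ t ∈ Icc (0 : ℝ) 1, HasDerivAt (fun s : ℝ => s * e (s • v) u)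
      (t * e (t • v) u * fderiv ℝ F (x + t • v, g (t • v)) (0, 1) v) t := by
    intro t ht
    have h1 : HasDerivAt (fun s : ℝ => e (s • v)) (De (t • v) v) t :=
      (hD _ (hm t ht)).comp_hasDerivAt t (by simpa using (hasDerivAt_id t).smul_const v)
    have h2 := (hasDerivAt_id t).mul (h1.clm_apply (hasDerivAt_const t u))
    have h3 := hkey _ (hm t ht) u
    rw [map_smul, map_smul, smul_apply, smul_eq_mul, smul_eq_mul] at h3
    refine h2.congr_deriv ?_
    simp only [id, map_zero, add_zero, one_mul]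
    linarith
  have hz := eq_zero_of_abs_deriv_le_mul_abs_self_of_eq_zero_right (K := K * ‖v‖)
    (f := fun s : ℝ => s * e (s • v) u) (a := 0) (b := 1)
    (fun t ht => (hd t ht).continuousAt.continuousWithinAt)
    (fun t ht => (hd t (Ico_subset_Icc_self ht)).hasDerivWithinAt) (by simp)
    (fun t ht => by
      have h1 := norm_fderiv_le_of_lipschitzOn ℝ
        (hW.mem_nhds (hg _ (hm t (Ico_subset_Icc_self ht))).2.1) hK
      have h2 : ‖fderiv ℝ F (x + t • v, g (t • v)) (0, 1) v‖ ≤ K * ‖v‖ := by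
        refine (ContinuousLinearMap.le_opNorm₂ _ _ _).trans ?_
        have : ‖((0 : E), (1 : ℝ))‖ = 1 := by simp [Prod.norm_def]
        rw [this, mul_one]
        gcongr
      rw [norm_mul, mul_comm]
      gcongr) 1 (by simp)
  simpa [e, sub_eq_zero] using hz

/-- Frobenius boxes -/
theorem box [FiniteDimensional ℝ E] {F : E × ℝ → E →L[ℝ] ℝ} {p0 : E × ℝ}
    (hF : AnalyticAt ℝ F p0) (hI : ∀ᶠ p in 𝓝 p0, Integ F p) {W : Set (E × ℝ)} (hW : W ∈ 𝓝 p0) :
    ∃ r > 0, ∀ p ∈ Metric.ball p0 r, ∃ f : E → ℝ, f p.1 = p.2 ∧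
      ∀ z ∈ Metric.ball p.1 r, (z, f z) ∈ W ∧ HasFDerivAt f (F (z, f z)) z := by
  have := FiniteDimensional.complete ℝ E
  obtain ⟨K, W1, hW1, hK1⟩ := (hF.contDiffAt (n := 1)).exists_lipschitzOnWith
  obtain ⟨Φ, hΦ, hΦe⟩ := radial hF
  obtain ⟨W0, hW0, hO, hp0⟩ := mem_nhds_iff.1
    (inter_mem (inter_mem hW hW1) (hF.eventually_analyticAt.and hI))
  have hK : LipschitzOnWith K F W0 := hK1.mono fun p hp => (hW0 hp).1.2
  obtain ⟨r, hr, hb⟩ := Metric.eventually_nhds_iff_ball.1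
    (hΦ.eventually_analyticAt.and (hΦe W0 (hO.mem_nhds hp0)))
  refine ⟨r, hr, fun p hp => ?_⟩
  have hq : ∀ v ∈ Metric.ball (0 : E) r, (p, v) ∈ Metric.ball (p0, (0 : E)) r := fun v hv => by
    rw [← ball_prod_same]; exact ⟨hp, hv⟩
  let g : E → ℝ := fun v => Φ (p, v)
  have hsc : ∀ v ∈ Metric.ball (0 : E) r, ∀ y : ℝ → ℝ, y 0 = p.2 →
      (∀ t ∈ Icc (0 : ℝ) 1, (p.1 + t • v, y t) ∈ W0 ∧
        HasDerivAt y (F (p.1 + t • v, y t) v) t) → ∀ t ∈ Icc (0 : ℝ) 1, g (t • v) = y t := by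
    intro v hv y h0 hy t ht
    have hm : t • v ∈ Metric.ball (0 : E) r := by
      simpa using ray_mem (x := 0) (mem_ball_zero_iff.1 hv) ht
    obtain ⟨-, z, z0, z1, hz⟩ := hb _ (hq _ hm)
    have := uniq_path hK (M := ‖t • v‖₊) (γ' := fun _ => t • v) (fun _ _ => le_rfl) hz
      (z := fun s => y (s * t)) (fun s hs => by
        have hst : s * t ∈ Icc (0 : ℝ) 1 := ⟨mul_nonneg hs.1 ht.1, mul_le_one₀ hs.2 ht.1 ht.2⟩
        obtain ⟨h1, h2⟩ := hy _ hst
        rw [smul_smul]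
        refine ⟨h1, ?_⟩
        refine (h2.comp s (hasDerivAt_mul_const t)).congr_deriv ?_
        rw [map_smul, smul_eq_mul, mul_comm]) (by simpa [h0] using z0) 1 (by simp)
    simp only [one_mul] at this
    rw [← this, z1]
  have hg : ∀ v ∈ Metric.ball (0 : E) r, AnalyticAt ℝ g v ∧ (p.1 + v, g v) ∈ W0 ∧
      fderiv ℝ g v v = F (p.1 + v, g v) v := by
    intro v hv
    obtain ⟨ha, y, y0, y1, hy⟩ := hb _ (hq _ hv)
    have ha' : AnalyticAt ℝ g v :=
      AnalyticAt.comp (f := fun v : E => (p, v)) ha (analyticAt_const.prod analyticAt_id)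
    have h1 := hy 1 (by simp)
    simp only [one_smul, y1] at h1
    refine ⟨ha', h1.1, ?_⟩
    have h2 : HasDerivAt (fun s : ℝ => g (s • v)) (fderiv ℝ g v v) 1 :=
      HasFDerivAt.comp_hasDerivAt_of_eq (f := fun s : ℝ => s • v) 1
        ha'.differentiableAt.hasFDerivAt (by simpa using (hasDerivAt_id (1 : ℝ)).smul_const v)
        (by simp)
    have h3 : HasDerivWithinAt y (fderiv ℝ g v v) (Icc 0 1) 1 :=
      h2.hasDerivWithinAt.congr (fun t ht => (hsc v hv y y0 hy t ht).symm)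
        (hsc v hv y y0 hy 1 (by simp)).symm
    exact (uniqueDiffOn_Icc zero_lt_one 1 (by simp)).eq_deriv _ h3 h1.2.hasDerivWithinAt
  have hs := radial_solves hO hK (fun q hq => (hW0 hq).2) hg
  refine ⟨fun z => g (z - p.1), ?_, fun z hz => ?_⟩
  · obtain ⟨-, y, y0, -, hy⟩ := hb _ (hq 0 (Metric.mem_ball_self hr))
    have := hsc 0 (Metric.mem_ball_self hr) y y0 hy 0 (by simp)
    simp only [sub_self]
    rw [← y0, ← this, zero_smul]
  · have hv : z - p.1 ∈ Metric.ball (0 : E) r := mem_ball_zero_iff.2 (mem_ball_iff_norm.1 hz)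
    obtain ⟨h1, h2, -⟩ := hg _ hv
    have h3 := hs _ hv
    rw [add_sub_cancel] at h2 h3
    refine ⟨(hW0 h2).1.1, ?_⟩
    rw [← h3]
    have h4 := h1.differentiableAt.hasFDerivAt.comp z ((hasFDerivAt_id z).sub_const p.1)
    rw [ContinuousLinearMap.comp_id] at h4
    exact h4

/-- through a slice solution there is a local full solution -/
theorem slice_local [FiniteDimensional ℝ E] {F : (E × ℝ) × ℝ → (E × ℝ) →L[ℝ] ℝ} {x : E}
    {c φ : E → ℝ}
    (hF : AnalyticAt ℝ F ((x, c x), φ x)) (hI : ∀ᶠ p in 𝓝 ((x, c x), φ x), Integ F p)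
    (hc : ContDiffAt ℝ 1 c x)
    (hφ : ∀ᶠ y in 𝓝 x, HasFDerivAt φ
      ((F ((y, c y), φ y)).comp ((ContinuousLinearMap.id ℝ E).prod (fderiv ℝ c y))) y) :
    ∃ f₀ : E × ℝ → ℝ, (∀ᶠ z in 𝓝 (x, c x), HasFDerivAt f₀ (F (z, f₀ z)) z) ∧
      ∀ᶠ y in 𝓝 x, f₀ (y, c y) = φ y := by
  obtain ⟨K, W, hW, hK⟩ := (hF.contDiffAt (n := 1)).exists_lipschitzOnWith
  obtain ⟨r, hr, hb⟩ := box hF hI hW
  obtain ⟨f, hf0, hf⟩ := hb _ (Metric.mem_ball_self hr)
  simp only at hf0 hf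
  refine ⟨f, ?_, ?_⟩
  · filter_upwards [Metric.ball_mem_nhds _ hr] with z hz using (hf z hz).2
  obtain ⟨L, U, hU, hL⟩ := hc.exists_lipschitzOnWith
  have hcc : ContinuousAt (fun y => (y, c y)) x := continuousAt_id.prodMk hc.continuousAt
  have h1 : ∀ᶠ y in 𝓝 x, DifferentiableAt ℝ c y :=
    (hc.eventually (by simp)).mono fun y hy => hy.differentiableAt (by simp)
  have h2 : ∀ᶠ y in 𝓝 x, (y, c y) ∈ Metric.ball (x, c x) r :=
    hcc.tendsto.eventually (Metric.ball_mem_nhds _ hr)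
  have h3 : ∀ᶠ y in 𝓝 x, ((y, c y), φ y) ∈ W :=
    (hcc.prodMk hφ.self_of_nhds.continuousAt).tendsto.eventually hW
  have h4 : ∀ᶠ y in 𝓝 x, ‖fderiv ℝ c y‖ ≤ L :=
    (eventually_mem_nhds_iff.2 hU).mono fun y hy => norm_fderiv_le_of_lipschitzOn ℝ hy hL
  obtain ⟨ρ, hρ, hB⟩ := Metric.eventually_nhds_iff_ball.1 (h1.and (h2.and (h3.and (h4.and hφ))))
  filter_upwards [Metric.ball_mem_nhds x hρ] with z hz
  have hv : ‖z - x‖ < ρ := mem_ball_iff_norm.1 hz
  have hγ : ∀ t ∈ Icc (0 : ℝ) 1, HasDerivAt (fun s : ℝ => (x + s • (z - x), c (x + s • (z - x))))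
      (z - x, fderiv ℝ c (x + t • (z - x)) (z - x)) t := fun t ht =>
    (hasDerivAt_ray x _ t).prodMk
      ((hB _ (ray_mem hv ht)).1.hasFDerivAt.comp_hasDerivAt t (hasDerivAt_ray x _ t))
  have := uniq_path hK (M := (1 + L) * ‖z - x‖₊)
    (γ := fun s : ℝ => (x + s • (z - x), c (x + s • (z - x))))
    (γ' := fun t => (z - x, fderiv ℝ c (x + t • (z - x)) (z - x)))
    (y := fun s => f (x + s • (z - x), c (x + s • (z - x))))
    (z := fun s => φ (x + s • (z - x)))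
    (fun t ht => by
      have h5 := (hB _ (ray_mem hv ht)).2.2.2.1
      have h6 := (fderiv ℝ c (x + t • (z - x))).le_opNorm (z - x)
      have h7 := norm_nonneg (z - x)
      have h8 := L.2
      rw [Prod.norm_mk, max_le_iff]
      push_cast
      constructor <;> nlinarith)
    (fun t ht => ⟨(hf _ (hB _ (ray_mem hv ht)).2.1).1,
      (hf _ (hB _ (ray_mem hv ht)).2.1).2.comp_hasDerivAt t (hγ t ht)⟩)
    (fun t ht => ⟨(hB _ (ray_mem hv ht)).2.2.1, by
      have h9 := (hB _ (ray_mem hv ht)).2.2.2.2.comp_hasDerivAt t (hasDerivAt_ray x (z - x) t)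
      exact h9⟩)
    (by simpa using hf0) 1 (by simp)
  simpa using this

end Pool.Agent.Lib.MP_1a1eb7_lc
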