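import Pool.Agent.Lib.MP_1a1eb7_lc.FDefs

/-! Trapping lemmas near a barrier, and end behaviour of bounded solutions. -/

open Set Filter Topology

namespace Pool.Agent.Lib.MP_1a1eb7_lc

theorem end_lim {y g h : ℝ → ℝ} {l : Filter ℝ} {G H : ℝ} (hg : Tendsto g l (𝓝 G))
    (hh : Tendsto h l (𝓝 H)) (hGH : G < H) (hy : ∀ᶠ s in l, g s < y s ∧ y s < h s)
    (hcl : ∀ w ∈ Ioo G H, ¬ MapClusterPt w l y) (hc : ∀ᶠ s in l, ContinuousAt y s)
    (hconn : ∀ S ∈ l, ∃ T ∈ l, T ⊆ S ∧ IsPreconnected T) :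
    Tendsto y l (𝓝 H) ∨ Tendsto y l (𝓝 G) := by
  have h1 : ∀ w, MapClusterPt w l y → w = G ∨ w = H := by
    intro w hw
    have a1 : w ≤ H := by
      by_contra a
      push Not at a
      obtain ⟨m, m1, m2⟩ := exists_between a
      obtain ⟨s, b1, b2, b3⟩ := ((hw.frequently (lt_mem_nhds m2)).and_eventually
        (hy.and (hh.eventually (gt_mem_nhds m1)))).exists
      linarith [b2.2]
    have a2 : G ≤ w := by
      by_contra a
      push Not at a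
      obtain ⟨m, m1, m2⟩ := exists_between a
      obtain ⟨s, b1, b2, b3⟩ := ((hw.frequently (gt_mem_nhds m1)).and_eventually
        (hy.and (hg.eventually (lt_mem_nhds m2)))).exists
      linarith [b2.1]
    by_contra a
    push Not at a
    exact hcl w ⟨lt_of_le_of_ne a2 a.1.symm, lt_of_le_of_ne a1 a.2⟩ hw
  obtain ⟨m, m1, m2⟩ := exists_between hGH
  have h2 : ∀ᶠ s in l, y s ≠ m := by
    by_contra a
    refine hcl m ⟨m1, m2⟩ (mapClusterPt_iff_frequently.2 fun S hS => ?_)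
    refine (not_eventually.1 a).mono fun s hs => ?_
    rw [not_not.1 hs]
    exact mem_of_mem_nhds hS
  obtain ⟨T, hT, hTS, hTc⟩ := hconn _ (h2.and hc)
  rcases hTc.mapsTo_Ioi_or_Iio (f := y) (b := m)
    (fun s hs => (hTS hs).2.continuousWithinAt) (fun s hs => (hTS hs).1) with a | a
  · left
    refine (isCompact_Icc (a := m) (b := H + 1)).tendsto_nhds_of_unique_mapClusterPt ?_
      fun w hw hw' => (h1 w hw').resolve_left (by rintro rfl; linarith [hw.1])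
    filter_upwards [hT, hy, hh.eventually (gt_mem_nhds (lt_add_one H))] with s b1 b2 b3
    exact ⟨le_of_lt (a b1), by linarith [b2.2]⟩
  · right
    refine (isCompact_Icc (a := G - 1) (b := m)).tendsto_nhds_of_unique_mapClusterPt ?_
      fun w hw hw' => (h1 w hw').resolve_right (by rintro rfl; linarith [hw.2])
    filter_upwards [hT, hy, hg.eventually (lt_mem_nhds (sub_one_lt G))] with s b1 b2 b3
    exact ⟨by linarith [b2.1], le_of_lt (a b1)⟩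

theorem conn_lt (b : ℝ) : ∀ S ∈ 𝓝[<] b, ∃ T ∈ 𝓝[<] b, T ⊆ S ∧ IsPreconnected T := fun S hS => by
  obtain ⟨l, hl, h⟩ := mem_nhdsLT_iff_exists_Ioo_subset.1 hS
  exact ⟨_, Ioo_mem_nhdsLT hl, h, isPreconnected_Ioo⟩

theorem conn_gt (b : ℝ) : ∀ S ∈ 𝓝[>] b, ∃ T ∈ 𝓝[>] b, T ⊆ S ∧ IsPreconnected T := fun S hS => by
  obtain ⟨l, hl, h⟩ := mem_nhdsGT_iff_exists_Ioo_subset.1 hS
  exact ⟨_, Ioo_mem_nhdsGT hl, h, isPreconnected_Ioo⟩

variable {E : Type} [NormedAddCommGroup E]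

/-- `u` is the distance to a barrier along the leaf, `τ` its derivative and `m` a margin -/
structure TrapData (V : Set E) (lo hi a b : E → ℝ) (u τ m : E × ℝ → ℝ) : Prop where
  openU : IsOpen (bnd V lo hi)
  openD : IsOpen (bnd V a b)
  ord : ∀ x ∈ V, lo x ≤ a x ∧ a x < b x ∧ b x ≤ hi x
  cu : ContinuousOn u (bnd V a b)
  pos : ∀ z ∈ bnd V a b, 0 < u z
  der : ∀ z ∈ bnd V a b, HasDerivAt (fun s => u (z.1, s)) (τ z) z.2
  cm : ContinuousOn m (bnd V lo hi)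
  mpos : ∀ z ∈ bnd V lo hi, 0 < m z
  tri : Tri τ {z | z ∈ bnd V a b ∧ u z < m z}
  endb : ∀ x ∈ V, b x < hi x → Tendsto (fun s => u (x, s)) (𝓝[<] b x) (𝓝 0) ∨
    ∃ L, m (x, b x) ≤ L ∧ Tendsto (fun s => u (x, s)) (𝓝[<] b x) (𝓝 L)
  enda : ∀ x ∈ V, lo x < a x → Tendsto (fun s => u (x, s)) (𝓝[>] a x) (𝓝 0) ∨
    ∃ L, m (x, a x) ≤ L ∧ Tendsto (fun s => u (x, s)) (𝓝[>] a x) (𝓝 L)

variable {V : Set E} {lo hi a b : E → ℝ} {u τ m : E × ℝ → ℝ}

theorem TrapData.trapb (T : TrapData V lo hi a b u τ m) {z0 : E × ℝ} (hz0 : z0 ∈ bnd V lo hi)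
    (hb : b z0.1 ≤ z0.2) (ht : Tendsto (fun s => u (z0.1, s)) (𝓝[<] b z0.1) (𝓝 0)) {ε0 : ℝ}
    (hε0 : 0 < ε0) : ∀ᶠ z in 𝓝 z0,
      (b z.1 ≤ z.2 ∧ Tendsto (fun s => u (z.1, s)) (𝓝[<] b z.1) (𝓝 0)) ∨
        (z ∈ bnd V a b ∧ u z < ε0) := by
  obtain ⟨x0, s0⟩ := z0
  obtain ⟨hx0, hlo, hhi⟩ := hz0
  simp only at hb ht hx0 hlo hhi
  obtain ⟨o1, o2, o3⟩ := T.ord x0 hx0
  obtain ⟨c0, c1, c2⟩ := exists_between o2
  obtain ⟨s2, d1, d2⟩ := exists_between hhi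
  have hK : ∀ s ∈ Icc c0 s2, (x0, s) ∈ bnd V lo hi := fun s hs =>
    ⟨hx0, by simp only; linarith [hs.1], by simp only; linarith [hs.2]⟩
  obtain ⟨μ, hμ, hμm⟩ := (isCompact_Icc (a := c0) (b := s2)).exists_forall_le'
    (f := fun s => m (x0, s)) (T.cm.comp (by fun_prop) hK) fun s hs => T.mpos _ (hK s hs)
  obtain ⟨ε, hε, hε'⟩ := exists_between (lt_min hμ hε0)
  rw [lt_min_iff] at hε'
  have h1 : ∀ᶠ x in 𝓝 x0, ∀ s ∈ Icc c0 s2, (x, s) ∈ bnd V lo hi ∧ ε < m (x, s) :=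
    isCompact_Icc.eventually_forall_of_forall_eventually fun s hs =>
      (T.openU.eventually_mem (hK s hs)).and
        ((T.cm.continuousAt (T.openU.mem_nhds (hK s hs))).eventually
          (lt_mem_nhds (hε'.1.trans_le (hμm s hs))))
  obtain ⟨l, hl, hl'⟩ := mem_nhdsLT_iff_exists_Ioo_subset.1 (ht.eventually (gt_mem_nhds hε))
  obtain ⟨s1, e1, e2⟩ := exists_between (max_lt c2 hl)
  rw [max_lt_iff] at e1
  have hD : ∀ s ∈ Ico s1 (b x0), (x0, s) ∈ bnd V a b := fun s hs =>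
    ⟨hx0, by simp only; linarith [hs.1, e1.1], hs.2⟩
  have hT : ∀ s ∈ Ico s1 (b x0), (x0, s) ∈ {z | z ∈ bnd V a b ∧ u z < m z} := fun s hs =>
    ⟨hD s hs, (hl' ⟨e1.2.trans_le hs.1, hs.2⟩).trans
      (hε'.1.trans_le (hμm s ⟨by linarith [hs.1, e1.1], by linarith [hs.2]⟩))⟩
  have hneg : ∀ z, z ∈ bnd V a b → u z < m z → τ z < 0 := by
    have key : ¬ ∀ s ∈ Ico s1 (b x0), 0 ≤ τ (x0, s) := by
      intro hτ
      have hmono : MonotoneOn (fun s => u (x0, s)) (Ico s1 (b x0)) :=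
        monotoneOn_of_hasDerivWithinAt_nonneg (convex_Ico _ _) (f' := fun s => τ (x0, s))
          (fun s hs => (T.der _ (hD s hs)).continuousAt.continuousWithinAt)
          (fun s hs => (T.der _ (hD s (interior_subset hs))).hasDerivWithinAt)
          fun s hs => hτ s (interior_subset hs)
      have : u (x0, s1) ≤ 0 := ge_of_tendsto ht (by
        filter_upwards [Ioo_mem_nhdsLT e2] with s hs
        exact hmono ⟨le_rfl, e2⟩ (Ioo_subset_Ico_self hs) hs.1.le)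
      exact this.not_gt (T.pos _ (hD s1 ⟨le_rfl, e2⟩))
    rcases T.tri with h | h | h
    · exact (key fun s hs => (h _ (hT s hs)).le).elim
    · exact (key fun s hs => (h _ (hT s hs)).ge).elim
    · exact fun z h1 h2 => h z ⟨h1, h2⟩
  have h2 : ∀ᶠ x in 𝓝 x0, (x, s1) ∈ bnd V a b ∧ u (x, s1) < ε := by
    have hc : Tendsto (fun x => (x, s1)) (𝓝 x0) (𝓝 (x0, s1)) :=
      (continuous_id.prodMk continuous_const).tendsto x0
    have h3 := hD s1 ⟨le_rfl, e2⟩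
    exact hc.eventually ((T.openD.eventually_mem h3).and
      ((T.cu.continuousAt (T.openD.mem_nhds h3)).eventually
        (gt_mem_nhds (hl' ⟨e1.2, e2⟩))))
  have h3 : ∀ᶠ x in 𝓝 x0, ∀ s ∈ Icc s1 s2, s < b x → u (x, s) ≤ ε := by
    filter_upwards [h1, h2] with x f1 f2 s hs hsb
    have hD' : ∀ t ∈ Icc s1 s, (x, t) ∈ bnd V a b := fun t ht =>
      ⟨f2.1.1, lt_of_lt_of_le f2.1.2.1 ht.1, lt_of_le_of_lt ht.2 hsb⟩
    exact image_le_of_deriv_right_lt_deriv_boundary (f := fun t => u (x, t))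
      (f' := fun t => τ (x, t)) (a := s1) (b := s)
      (fun t ht => (T.der _ (hD' t ht)).continuousAt.continuousWithinAt)
      (fun t ht => (T.der _ (hD' t (Ico_subset_Icc_self ht))).hasDerivWithinAt)
      (B := fun _ => ε) (B' := fun _ => 0) f2.2.le (fun t => hasDerivAt_const t ε)
      (fun t ht he => hneg _ (hD' t (Ico_subset_Icc_self ht))
        (he.trans_lt (f1 t ⟨by linarith [ht.1, e1.1], by linarith [ht.2, hs.2]⟩).2))
      ⟨hs.1, le_rfl⟩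
  have hf : Tendsto (fun z : E × ℝ => z.1) (𝓝 (x0, s0)) (𝓝 x0) := continuous_fst.tendsto _
  have hs : Tendsto (fun z : E × ℝ => z.2) (𝓝 (x0, s0)) (𝓝 s0) := continuous_snd.tendsto _
  filter_upwards [hf.eventually h1, hf.eventually h2, hf.eventually h3,
    hs.eventually (Ioo_mem_nhds (e2.trans_le hb) d1)] with z f1 f2 f3 f4
  obtain ⟨x, s⟩ := z
  simp only [mem_Ioo] at f1 f2 f3 f4 ⊢
  have g1 : s1 < b x := f2.1.2.2
  rcases lt_or_ge s (b x) with g2 | g2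
  · exact .inr ⟨⟨f2.1.1, lt_trans f2.1.2.1 f4.1, g2⟩,
      (f3 s ⟨f4.1.le, f4.2.le⟩ g2).trans_lt hε'.2⟩
  · refine .inl ⟨g2, ?_⟩
    have g3 := f1 (b x) ⟨by linarith [e1.1], by linarith⟩
    rcases T.endb x f2.1.1 g3.1.2.2 with g4 | ⟨L, g4, g5⟩
    · exact g4
    · have : L ≤ ε := le_of_tendsto g5 (by
        filter_upwards [Ioo_mem_nhdsLT g1] with t ht
        exact f3 t ⟨ht.1.le, by linarith [ht.2]⟩ ht.2)
      linarith [g3.2]

omit [NormedAddCommGroup E] in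
theorem mem_bnd_neg {z : E × ℝ} :
    z ∈ bnd V (fun x => -hi x) (fun x => -lo x) ↔ (z.1, -z.2) ∈ bnd V lo hi := by
  simp only [bnd, mem_ofPred_eq]
  constructor
  · rintro ⟨h1, h2, h3⟩; exact ⟨h1, by linarith, by linarith⟩
  · rintro ⟨h1, h2, h3⟩; exact ⟨h1, by linarith, by linarith⟩

theorem TrapData.refl (T : TrapData V lo hi a b u τ m) :
    TrapData V (fun x => -hi x) (fun x => -lo x) (fun x => -b x) (fun x => -a x)
      (fun z => u (z.1, -z.2)) (fun z => -τ (z.1, -z.2)) (fun z => m (z.1, -z.2)) := by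
  have hρ : Continuous fun z : E × ℝ => (z.1, -z.2) := by fun_prop
  have e : ∀ p q : E → ℝ, bnd V (fun x => -q x) (fun x => -p x) =
      (fun z : E × ℝ => (z.1, -z.2)) ⁻¹' bnd V p q := fun p q => Set.ext fun z => mem_bnd_neg
  refine ⟨e lo hi ▸ T.openU.preimage hρ, e a b ▸ T.openD.preimage hρ, fun x hx => ?_,
    T.cu.comp hρ.continuousOn fun z hz => mem_bnd_neg.1 hz,
    fun z hz => T.pos _ (mem_bnd_neg.1 hz), fun z hz => ?_,
    T.cm.comp hρ.continuousOn fun z hz => mem_bnd_neg.1 hz,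
    fun z hz => T.mpos _ (mem_bnd_neg.1 hz), ?_, fun x hx h => ?_, fun x hx h => ?_⟩
  · obtain ⟨h1, h2, h3⟩ := T.ord x hx
    exact ⟨by linarith, by linarith, by linarith⟩
  · have h1 := (T.der _ (mem_bnd_neg.1 hz)).comp z.2 (hasDerivAt_neg z.2)
    exact h1.congr_deriv (by ring)
  · rcases T.tri with h | h | h
    · exact .inr (.inr fun z hz => neg_lt_zero.2 (h _ ⟨mem_bnd_neg.1 hz.1, hz.2⟩))
    · exact .inr (.inl fun z hz => neg_eq_zero.2 (h _ ⟨mem_bnd_neg.1 hz.1, hz.2⟩))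
    · exact .inl fun z hz => neg_pos.2 (h _ ⟨mem_bnd_neg.1 hz.1, hz.2⟩)
  · rcases T.enda x hx (by linarith) with h1 | ⟨L, h1, h2⟩
    · exact .inl (h1.comp tendsto_neg_nhdsLT_neg)
    · exact .inr ⟨L, by simpa using h1, h2.comp tendsto_neg_nhdsLT_neg⟩
  · rcases T.endb x hx (by linarith) with h1 | ⟨L, h1, h2⟩
    · exact .inl (h1.comp tendsto_neg_nhdsGT_neg)
    · exact .inr ⟨L, by simpa using h1, h2.comp tendsto_neg_nhdsGT_neg⟩

theorem TrapData.trapa (T : TrapData V lo hi a b u τ m) {z0 : E × ℝ} (hz0 : z0 ∈ bnd V lo hi)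
    (ha : z0.2 ≤ a z0.1) (ht : Tendsto (fun s => u (z0.1, s)) (𝓝[>] a z0.1) (𝓝 0)) {ε0 : ℝ}
    (hε0 : 0 < ε0) : ∀ᶠ z in 𝓝 z0,
      (z.2 ≤ a z.1 ∧ Tendsto (fun s => u (z.1, s)) (𝓝[>] a z.1) (𝓝 0)) ∨
        (z ∈ bnd V a b ∧ u z < ε0) := by
  have h := T.refl.trapb (z0 := (z0.1, -z0.2)) (mem_bnd_neg.2 (by simpa using hz0))
    (neg_le_neg ha) (ht.comp tendsto_neg_nhdsLT_neg) hε0
  have hρ : Tendsto (fun z : E × ℝ => (z.1, -z.2)) (𝓝 z0) (𝓝 (z0.1, -z0.2)) :=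
    Continuous.tendsto (f := fun z : E × ℝ => (z.1, -z.2)) (by fun_prop) z0
  filter_upwards [hρ.eventually h] with z hz
  rcases hz with ⟨h1, h2⟩ | ⟨h1, h2⟩
  · refine .inl ⟨neg_le_neg_iff.1 h1, ?_⟩
    have := h2.comp tendsto_neg_nhdsGT
    simpa [Function.comp_def] using this
  · exact .inr ⟨by simpa using mem_bnd_neg.1 h1, by simpa using h2⟩

/-- points over which the leaf has left through the barrier -/
def Exit (V : Set E) (lo hi a b : E → ℝ) (u : E × ℝ → ℝ) : Set (E × ℝ) :=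
  {z | z ∈ bnd V lo hi ∧
    ((b z.1 ≤ z.2 ∧ Tendsto (fun s => u (z.1, s)) (𝓝[<] b z.1) (𝓝 0)) ∨
      (z.2 ≤ a z.1 ∧ Tendsto (fun s => u (z.1, s)) (𝓝[>] a z.1) (𝓝 0)))}

theorem TrapData.trap (T : TrapData V lo hi a b u τ m) {z0 : E × ℝ}
    (hz0 : z0 ∈ Exit V lo hi a b u) {ε0 : ℝ} (hε0 : 0 < ε0) :
    ∀ᶠ z in 𝓝 z0, z ∈ Exit V lo hi a b u ∨ (z ∈ bnd V a b ∧ u z < ε0) := by
  rcases hz0 with ⟨h0, ⟨h1, h2⟩ | ⟨h1, h2⟩⟩
  · filter_upwards [T.trapb h0 h1 h2 hε0, T.openU.mem_nhds h0] with z hz hz'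
    exact hz.imp (fun h => ⟨hz', .inl h⟩) id
  · filter_upwards [T.trapa h0 h1 h2 hε0, T.openU.mem_nhds h0] with z hz hz'
    exact hz.imp (fun h => ⟨hz', .inr h⟩) id

end Pool.Agent.Lib.MP_1a1eb7_lc
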