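import Pool.Agent.Lib.MP_1a1eb7_lc.Frob
import Pool.Agent.Lib.MP_1a1eb7_lc.Trap

/-! Construction of a separating leaf from a scalar equation. -/

open Set Filter Topology

namespace Pool.Agent.Lib.MP_1a1eb7_lc

open Pool.Agent.Shared.OMin

variable {E : Type} [NormedAddCommGroup E] [NormedSpace ℝ E] [FiniteDimensional ℝ E]

namespace Leaf

/-- `y` solves the scalar equation over `x` inside `O` -/
def Sol (O : Set ((E × ℝ) × ℝ)) (F : (E × ℝ) × ℝ → (E × ℝ) →L[ℝ] ℝ) (x : E) (y : ℝ → ℝ)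
    (s₁ s₂ : ℝ) : Prop :=
  ∀ s ∈ Ioo s₁ s₂, ((x, s), y s) ∈ O ∧ HasDerivAt y (F ((x, s), y s) (0, 1)) s

variable {O : Set ((E × ℝ) × ℝ)} {F : (E × ℝ) × ℝ → (E × ℝ) →L[ℝ] ℝ} {x : E} {y z : ℝ → ℝ}
  {s₁ s₂ t₁ t₂ : ℝ}

omit [NormedSpace ℝ E] [FiniteDimensional ℝ E] in
theorem isOpen_bnd {C : Set E} (hC : IsOpen C) {lo hi : E → ℝ} (hlo : ContinuousOn lo C)
    (hhi : ContinuousOn hi C) : IsOpen (bnd C lo hi) := by
  refine isOpen_iff_mem_nhds.2 fun p hp => ?_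
  have h1 := continuousAt_fst.eventually (hC.mem_nhds hp.1)
  have h2 := (ContinuousAt.comp (hlo.continuousAt (hC.mem_nhds hp.1))
    continuousAt_fst).eventually_lt continuousAt_snd hp.2.1
  have h3 := continuousAt_snd.eventually_lt (ContinuousAt.comp
    (hhi.continuousAt (hC.mem_nhds hp.1)) continuousAt_fst) hp.2.2
  filter_upwards [h1, h2, h3] with q a1 a2 a3 using ⟨a1, a2, a3⟩

omit [FiniteDimensional ℝ E] in
theorem hasDerivAt_vert (x : E) (s : ℝ) :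
    HasDerivAt (fun s : ℝ => (x, s)) ((0, 1) : E × ℝ) s :=
  (hasDerivAt_const s x).prodMk (hasDerivAt_id s)

omit [FiniteDimensional ℝ E] in
theorem Sol.uniq (hF : AnalyticOnNhd ℝ F O) (h : Sol O F x y s₁ s₂) (h' : Sol O F x z t₁ t₂)
    {σ τ : ℝ} (a1 : σ ∈ Ioo s₁ s₂) (a2 : σ ∈ Ioo t₁ t₂) (e : y σ = z σ) (b1 : τ ∈ Ioo s₁ s₂)
    (b2 : τ ∈ Ioo t₁ t₂) : y τ = z τ := by
  refine ((ordConnected_Ioo.inter ordConnected_Ioo).isPreconnected.induction₂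
    (fun s t => y s = z s ↔ y t = z t) (fun s hs => ?_) (fun _ _ _ _ _ _ => Iff.trans)
    (fun _ _ _ _ => Iff.symm) ⟨a1, a2⟩ ⟨b1, b2⟩).1 e
  have h1 := (h s hs.1).2.continuousAt
  have h2 := (h' s hs.2).2.continuousAt
  by_cases hs' : y s = z s
  · obtain ⟨K, W, hW, hK⟩ := ((hF _ (h s hs.1).1).contDiffAt (n := 1)).exists_lipschitzOnWith
    have hc := (hasDerivAt_vert x s).continuousAt
    have := ODE_solution_unique_of_eventually (v := fun t w => F ((x, t), w) (0, 1))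
      (s := fun t => {w | ((x, t), w) ∈ W}) (t₀ := s) (f := y) (g := z)
      (Eventually.of_forall fun t => lip_slice hK (x, t) (M := ‖((0, 1) : E × ℝ)‖₊) le_rfl)
      (by
        filter_upwards [isOpen_Ioo.mem_nhds hs.1, (hc.prodMk h1).eventually hW] with t c1 c2
        exact ⟨(h t c1).2, c2⟩)
      (by
        filter_upwards [isOpen_Ioo.mem_nhds hs.2, (hc.prodMk h2).eventually (hs' ▸ hW)]
          with t c1 c2
        exact ⟨(h' t c1).2, c2⟩) hs'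
    filter_upwards [nhdsWithin_le_nhds this] with t ht using iff_of_true hs' ht
  · filter_upwards [nhdsWithin_le_nhds ((h1.sub h2).eventually_ne (sub_ne_zero.2 hs'))] with t ht
    exact iff_of_false hs' (sub_ne_zero.1 ht)

omit [FiniteDimensional ℝ E] in
theorem Sol.glue (hF : AnalyticOnNhd ℝ F O) (h : Sol O F x y s₁ s₂) (h' : Sol O F x z t₁ t₂)
    {σ : ℝ} (a1 : σ ∈ Ioo s₁ s₂) (a2 : σ ∈ Ioo t₁ t₂) (e : y σ = z σ) :
    ∃ χ, Sol O F x χ (min s₁ t₁) (max s₂ t₂) ∧ ∀ τ ∈ Ioo t₁ t₂, χ τ = z τ := by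
  classical
  refine ⟨fun τ => if τ ∈ Ioo t₁ t₂ then z τ else y τ, fun τ hτ => ?_, fun τ hτ => if_pos hτ⟩
  by_cases b2 : τ ∈ Ioo t₁ t₂
  · simp only [if_pos b2]
    refine ⟨(h' τ b2).1, (h' τ b2).2.congr_of_eventuallyEq ?_⟩
    filter_upwards [isOpen_Ioo.mem_nhds b2] with t ht using if_pos ht
  · have b1 : τ ∈ Ioo s₁ s₂ := by
      simp only [mem_Ioo, min_lt_iff, lt_max_iff] at *
      grind
    simp only [if_neg b2]
    refine ⟨(h τ b1).1, (h τ b1).2.congr_of_eventuallyEq ?_⟩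
    filter_upwards [isOpen_Ioo.mem_nhds b1] with t ht
    split_ifs with ht'
    · exact (h.uniq hF h' a1 a2 e ht ht').symm
    · rfl

omit [FiniteDimensional ℝ E] in
theorem sol_of_full {f : E × ℝ → ℝ} {x0 : E} {s r : ℝ}
    (hf : ∀ p ∈ Metric.ball (x0, s) r, (p, f p) ∈ O ∧ HasFDerivAt f (F (p, f p)) p)
    (hx : x ∈ Metric.ball x0 r) : Sol O F x (fun t => f (x, t)) (s - r) (s + r) := fun t ht => by
  have h : (x, t) ∈ Metric.ball (x0, s) r := by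
    rw [← ball_prod_same, Real.ball_eq_Ioo]; exact ⟨hx, ht⟩
  exact ⟨(hf _ h).1, (hf _ h).2.comp_hasDerivAt t (hasDerivAt_vert x t)⟩

omit [FiniteDimensional ℝ E] in
theorem exists_max (hF : AnalyticOnNhd ℝ F O) {lo hi c φ : ℝ}
    (hb : ∀ s w, ((x, s), w) ∈ O → s ∈ Ioo lo hi) (h0 : Sol O F x y s₁ s₂) (hc : c ∈ Ioo s₁ s₂)
    (hy : y c = φ) :
    ∃ (m M : ℝ) (G : ℝ → ℝ), lo ≤ m ∧ c ∈ Ioo m M ∧ M ≤ hi ∧ G c = φ ∧
      Sol O F x G m M ∧ ∀ y s₁ s₂, Sol O F x y s₁ s₂ → c ∈ Ioo s₁ s₂ →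
        y c = φ → m ≤ s₁ ∧ s₂ ≤ M := by
  classical
  let A : Set ((ℝ → ℝ) × ℝ × ℝ) := {a | Sol O F x a.1 a.2.1 a.2.2 ∧
    c ∈ Ioo a.2.1 a.2.2 ∧ a.1 c = φ}
  have h1 : ∀ a ∈ A, lo ≤ a.2.1 ∧ a.2.2 ≤ hi := fun a ha => by
    have : Ioo a.2.1 a.2.2 ⊆ Ioo lo hi := fun σ hσ => hb _ _ (ha.1 σ hσ).1
    exact (Ioo_subset_Ioo_iff (ha.2.1.1.trans ha.2.1.2)).1 this
  obtain ⟨a₀, ha₀⟩ : A.Nonempty := ⟨(y, s₁, s₂), h0, hc, hy⟩
  have hne : ∀ k : (ℝ → ℝ) × ℝ × ℝ → ℝ, (k '' A).Nonempty := fun k => ⟨_, a₀, ha₀, rfl⟩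
  have hlo : ∀ a ∈ A, sInf ((fun a => a.2.1) '' A) ≤ a.2.1 := fun a ha =>
    csInf_le ⟨lo, by rintro _ ⟨a, ha, rfl⟩; exact (h1 a ha).1⟩ ⟨a, ha, rfl⟩
  have hhi : ∀ a ∈ A, a.2.2 ≤ sSup ((fun a => a.2.2) '' A) := fun a ha =>
    le_csSup ⟨hi, by rintro _ ⟨a, ha, rfl⟩; exact (h1 a ha).2⟩ ⟨a, ha, rfl⟩
  let G : ℝ → ℝ := fun σ => if h : ∃ a ∈ A, σ ∈ Ioo a.2.1 a.2.2 then h.choose.1 σ else 0
  have hG : ∀ a ∈ A, ∀ σ ∈ Ioo a.2.1 a.2.2, G σ = a.1 σ := fun a ha σ hσ => by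
    have h : ∃ a ∈ A, σ ∈ Ioo a.2.1 a.2.2 := ⟨a, ha, hσ⟩
    obtain ⟨hc, hc'⟩ := h.choose_spec
    simp only [G, dif_pos h]
    exact hc.1.uniq hF ha.1 hc.2.1 ha.2.1 (hc.2.2.trans ha.2.2.symm) hc' hσ
  refine ⟨sInf ((fun a => a.2.1) '' A), sSup ((fun a => a.2.2) '' A), G,
    le_csInf (hne _) (by rintro _ ⟨a, ha, rfl⟩; exact (h1 a ha).1),
    ⟨(hlo a₀ ha₀).trans_lt ha₀.2.1.1, ha₀.2.1.2.trans_le (hhi a₀ ha₀)⟩,
    csSup_le (hne _) (by rintro _ ⟨a, ha, rfl⟩; exact (h1 a ha).2),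
    (hG a₀ ha₀ _ ha₀.2.1).trans ha₀.2.2, fun σ hσ => ?_, fun φ s₁ s₂ a1 a2 a3 =>
      ⟨hlo (φ, s₁, s₂) ⟨a1, a2, a3⟩, hhi (φ, s₁, s₂) ⟨a1, a2, a3⟩⟩⟩
  obtain ⟨a, ha, h⟩ : ∃ a ∈ A, σ ∈ Ioo a.2.1 a.2.2 := by
    rcases le_total σ c with h | h
    · obtain ⟨_, ⟨a, ha, rfl⟩, h2⟩ := exists_lt_of_csInf_lt (hne _) hσ.1
      exact ⟨a, ha, h2, h.trans_lt ha.2.1.2⟩
    · obtain ⟨_, ⟨a, ha, rfl⟩, h2⟩ := exists_lt_of_lt_csSup (hne _) hσ.2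
      exact ⟨a, ha, ha.2.1.1.trans_le h, h2⟩
  rw [hG a ha σ h]
  refine ⟨(ha.1 σ h).1, (ha.1 σ h).2.congr_of_eventuallyEq ?_⟩
  filter_upwards [isOpen_Ioo.mem_nhds h] with t ht using hG a ha t ht

/-- a family of maximal solutions -/
structure Fam (O : Set ((E × ℝ) × ℝ)) (F : (E × ℝ) × ℝ → (E × ℝ) →L[ℝ] ℝ) (V : Set E)
    (a b : E → ℝ) (f : E × ℝ → ℝ) : Prop where
  openO : IsOpen O
  aF : AnalyticOnNhd ℝ F O
  int : ∀ p ∈ O, Integ F p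
  sol : ∀ x ∈ V, Sol O F x (fun s => f (x, s)) (a x) (b x)
  ext : ∀ x ∈ V, ∀ y s₁ s₂ σ, Sol O F x y s₁ s₂ → σ ∈ Ioo s₁ s₂ → σ ∈ Ioo (a x) (b x) →
    y σ = f (x, σ) → a x ≤ s₁ ∧ s₂ ≤ b x ∧ ∀ s ∈ Ioo s₁ s₂, y s = f (x, s)

variable {V : Set E} {a b : E → ℝ} {f : E × ℝ → ℝ}

theorem Fam.box (H : Fam O F V a b f) {q : (E × ℝ) × ℝ} (hq : q ∈ O) :
    ∃ r > 0, ∀ p ∈ Metric.ball q r, ∃ f₀ : E × ℝ → ℝ, f₀ p.1 = p.2 ∧
      ∀ z ∈ Metric.ball p.1 r, (z, f₀ z) ∈ O ∧ HasFDerivAt f₀ (F (z, f₀ z)) z :=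
  MP_1a1eb7_lc.box (H.aF q hq) ((H.openO.eventually_mem hq).mono H.int) (H.openO.mem_nhds hq)

/-- near this point the family is a full solution -/
def Good (F : (E × ℝ) × ℝ → (E × ℝ) →L[ℝ] ℝ) (V : Set E) (a b : E → ℝ) (f : E × ℝ → ℝ)
    (p : E × ℝ) : Prop :=
  ∀ᶠ z in 𝓝 p, z ∈ bnd V a b ∧ HasFDerivAt f (F (z, f z)) z

omit [FiniteDimensional ℝ E] in
theorem Fam.good_of_local (H : Fam O F V a b f) {f₀ : E × ℝ → ℝ} {s r : ℝ} (hr : 0 < r)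
    (hf : ∀ p ∈ Metric.ball (x, s) r, (p, f₀ p) ∈ O ∧ HasFDerivAt f₀ (F (p, f₀ p)) p)
    (he : ∀ᶠ x' in 𝓝 x, x' ∈ V ∧ ∃ σ ∈ Ioo (s - r) (s + r), σ ∈ Ioo (a x') (b x') ∧
      f₀ (x', σ) = f (x', σ)) {t : ℝ} (ht : t ∈ Ioo (s - r) (s + r)) : Good F V a b f (x, t) := by
  have h1 : ∀ᶠ z in 𝓝 (x, t), z ∈ bnd V a b ∧ f z = f₀ z ∧ z ∈ Metric.ball (x, s) r := by
    have hf' : Tendsto (fun z : E × ℝ => z.1) (𝓝 (x, t)) (𝓝 x) := continuous_fst.tendsto _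
    have hs' : Tendsto (fun z : E × ℝ => z.2) (𝓝 (x, t)) (𝓝 t) := continuous_snd.tendsto _
    filter_upwards [hf'.eventually he, hf'.eventually (Metric.ball_mem_nhds x hr),
      hs'.eventually (isOpen_Ioo.mem_nhds ht)] with z ⟨c1, σ, c2, c3, c4⟩ c5 c6
    obtain ⟨d1, d2, d3⟩ := H.ext _ c1 _ _ _ σ (sol_of_full hf c5) c2 c3 c4
    refine ⟨⟨c1, d1.trans_lt c6.1, c6.2.trans_le d2⟩, (d3 _ c6).symm, ?_⟩
    rw [← ball_prod_same, Real.ball_eq_Ioo]; exact ⟨c5, c6⟩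
  filter_upwards [h1.eventually_nhds] with z hz
  obtain ⟨c1, c2, c3⟩ := hz.self_of_nhds
  refine ⟨c1, ?_⟩
  rw [c2]
  exact (hf z c3).2.congr_of_eventuallyEq (hz.mono fun w hw => hw.2.1)

theorem Fam.good (H : Fam O F V a b f) (hx : x ∈ V) {c : ℝ} (hc : c ∈ Ioo (a x) (b x))
    (hg : Good F V a b f (x, c)) {s : ℝ} (hs : s ∈ Ioo (a x) (b x)) : Good F V a b f (x, s) := by
  refine (isPreconnected_Ioo.induction₂
    (fun s t => Good F V a b f (x, s) ↔ Good F V a b f (x, t)) (fun s hs => ?_)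
    (fun _ _ _ _ _ _ => Iff.trans) (fun _ _ _ _ => Iff.symm) hc hs).1 hg
  obtain ⟨r, hr, hb⟩ := H.box (H.sol x hx s hs).1
  obtain ⟨f₀, h0, hf⟩ := hb _ (Metric.mem_ball_self hr)
  simp only at h0 hf
  have hs0 : s ∈ Ioo (s - r) (s + r) := ⟨by linarith, by linarith⟩
  obtain ⟨-, -, d3⟩ := H.ext x hx _ _ _ s (sol_of_full hf (Metric.mem_ball_self hr)) hs0 hs h0
  have key : ∀ t ∈ Ioo (s - r) (s + r), Good F V a b f (x, t) →
      ∀ t' ∈ Ioo (s - r) (s + r), Good F V a b f (x, t') := by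
    intro t ht hg t' ht'
    have hm : (x, t) ∈ Metric.ball (x, s) r := by
      rw [← ball_prod_same, Real.ball_eq_Ioo]; exact ⟨Metric.mem_ball_self hr, ht⟩
    have h1 : f₀ =ᶠ[𝓝 (x, t)] f := sol_unique (H.aF _ (hf _ hm).1)
      (by filter_upwards [Metric.isOpen_ball.mem_nhds hm] with z hz using (hf z hz).2)
      (hg.mono fun z hz => hz.2) (d3 t ht)
    refine H.good_of_local hr hf ?_ ht'
    have hc : Tendsto (fun x' => (x', t)) (𝓝 x) (𝓝 (x, t)) :=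
      (continuous_id.prodMk continuous_const).tendsto x
    filter_upwards [hc.eventually h1, hc.eventually hg] with x' c1 c2
    exact ⟨c2.1.1, t, ht, c2.1.2, c1⟩
  filter_upwards [nhdsWithin_le_nhds (isOpen_Ioo.mem_nhds hs0)] with t ht
  exact ⟨fun h => key s hs0 h t ht, fun h => key t ht h s hs0⟩

theorem Fam.not_cluster (H : Fam O F V a b f) (hx : x ∈ V) {l : Filter ℝ} {s w : ℝ}
    (hl : l ≤ 𝓝 s) (hl' : Ioo (a x) (b x) ∈ l) (hs : s ∉ Ioo (a x) (b x))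
    (hw : ((x, s), w) ∈ O) : ¬ MapClusterPt w l fun t => f (x, t) := by
  intro hc
  obtain ⟨r, hr, hb⟩ := H.box hw
  obtain ⟨t, c1, c2, c3⟩ := ((hc.frequently (Metric.ball_mem_nhds w hr)).and_eventually
    (Eventually.and (hl (Metric.ball_mem_nhds s hr)) hl')).exists
  obtain ⟨f₀, h0, hf⟩ := hb ((x, t), f (x, t)) (by
    rw [← ball_prod_same, ← ball_prod_same]
    exact ⟨⟨Metric.mem_ball_self hr, c2⟩, c1⟩)
  simp only at h0 hf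
  obtain ⟨d1, d2, -⟩ := H.ext x hx _ _ _ t (sol_of_full hf (Metric.mem_ball_self hr))
    ⟨by linarith, by linarith⟩ c3 h0
  have c4 : s ∈ Metric.ball t r := Metric.mem_ball_comm.1 c2
  rw [Real.ball_eq_Ioo] at c4
  exact hs ⟨d1.trans_lt c4.1, c4.2.trans_le d2⟩

end Leaf

open Leaf in
theorem LeafData.exists_leaf {V : Set E} {lo hi : E → ℝ} {g h g' h' : E × ℝ → ℝ}
    {F : (E × ℝ) × ℝ → (E × ℝ) →L[ℝ] ℝ} (H : LeafData V lo hi g h g' h' F) {c φ : E → ℝ}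
    (hc : ContinuousOn c V) (hm : ∀ x ∈ V, ((x, c x), φ x) ∈ bnd (bnd V lo hi) g h)
    (hloc : ∀ x ∈ V, ∃ f₀ : E × ℝ → ℝ,
      (∀ᶠ z in 𝓝 (x, c x), HasFDerivAt f₀ (F (z, f₀ z)) z) ∧ ∀ᶠ y in 𝓝 x, f₀ (y, c y) = φ y) :
    ∃ (a b : E → ℝ) (f : E × ℝ → ℝ) (Bp Bm : Set ((E × ℝ) × ℝ)),
      RolleGraph (bnd (bnd V lo hi) g h) F (bnd V a b) f Bp Bm ∧
      (∀ x ∈ V, lo x ≤ a x ∧ a x < c x ∧ c x < b x ∧ b x ≤ hi x ∧ f (x, c x) = φ x) ∧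
      (∀ z ∈ bnd V a b, ∀ w, (z, w) ∈ bnd (bnd V lo hi) g h →
        (f z < w → (z, w) ∈ Bp) ∧ (w < f z → (z, w) ∈ Bm)) ∧
      (∀ z ∈ bnd V lo hi, z ∉ bnd V a b →
        (∀ w, (z, w) ∈ bnd (bnd V lo hi) g h → (z, w) ∈ Bp) ∨
        (∀ w, (z, w) ∈ bnd (bnd V lo hi) g h → (z, w) ∈ Bm)) ∧
      (∀ x ∈ V, b x < hi x →
        Tendsto (fun s => h (x, s) - f (x, s)) (𝓝[<] b x) (𝓝 0) ∨
        Tendsto (fun s => g (x, s) - f (x, s)) (𝓝[<] b x) (𝓝 0)) ∧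
      (∀ x ∈ V, lo x < a x →
        Tendsto (fun s => h (x, s) - f (x, s)) (𝓝[>] a x) (𝓝 0) ∨
        Tendsto (fun s => g (x, s) - f (x, s)) (𝓝[>] a x) (𝓝 0)) ∧
      (∀ x ∈ V, ∀ (s₁ s₂ : ℝ) (y : ℝ → ℝ), s₁ < c x → c x < s₂ → y (c x) = φ x →
        (∀ s ∈ Ioo s₁ s₂, ((x, s), y s) ∈ bnd (bnd V lo hi) g h ∧
          HasDerivAt y (F ((x, s), y s) (0, 1)) s) →
        a x ≤ s₁ ∧ s₂ ≤ b x ∧ ∀ s ∈ Ioo s₁ s₂, y s = f (x, s)) := by
  have hU : IsOpen (bnd V lo hi) := isOpen_bnd H.openV H.clo H.chi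
  have hO : IsOpen (bnd (bnd V lo hi) g h) := isOpen_bnd hU H.ag.continuousOn H.ah.continuousOn
  have hloc' : ∀ x ∈ V, ∃ (f₀ : E × ℝ → ℝ) (r : ℝ), 0 < r ∧
      (∀ p ∈ Metric.ball (x, c x) r, (p, f₀ p) ∈ bnd (bnd V lo hi) g h ∧
        HasFDerivAt f₀ (F (p, f₀ p)) p) ∧ ∀ᶠ y in 𝓝 x, f₀ (y, c y) = φ y := by
    intro x hx
    obtain ⟨f₀, h1, h2⟩ := hloc x hx
    obtain ⟨r, hr, h3⟩ := Metric.eventually_nhds_iff_ball.1
      (sol_ball (W := bnd (bnd V lo hi) g h) (hO.mem_nhds (h2.self_of_nhds ▸ hm x hx)) h1)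
    exact ⟨f₀, r, hr, h3, h2⟩
  have hex : ∀ x ∈ V, ∃ (m M : ℝ) (G : ℝ → ℝ), lo x ≤ m ∧ c x ∈ Ioo m M ∧ M ≤ hi x ∧
      G (c x) = φ x ∧ Sol (bnd (bnd V lo hi) g h) F x G m M ∧
      ∀ y s₁ s₂, Sol (bnd (bnd V lo hi) g h) F x y s₁ s₂ → c x ∈ Ioo s₁ s₂ →
        y (c x) = φ x → m ≤ s₁ ∧ s₂ ≤ M := by
    intro x hx
    obtain ⟨f₀, r, hr, h1, h2⟩ := hloc' x hx
    exact exists_max H.aF (fun s w hp => hp.1.2) (sol_of_full h1 (Metric.mem_ball_self hr))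
      ⟨by linarith, by linarith⟩ h2.self_of_nhds
  choose! a b G h1 h2 h3 h4 h5 h6 using hex
  set f : E × ℝ → ℝ := fun z => G z.1 z.2 with hf
  have A : Fam (bnd (bnd V lo hi) g h) F V a b f := by
    refine ⟨hO, H.aF, H.int, h5, fun x hx y s₁ s₂ σ a1 a2 a3 a4 => ?_⟩
    obtain ⟨χ, b1, b2⟩ := a1.glue H.aF (h5 x hx) a2 a3 a4
    have := h6 x hx χ _ _ b1 ⟨min_lt_of_right_lt (h2 x hx).1, lt_max_of_lt_right (h2 x hx).2⟩
      ((b2 _ (h2 x hx)).trans (h4 x hx))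
    have a7 := this.1.trans (min_le_left _ _)
    have a8 := (le_max_left _ _).trans this.2
    exact ⟨a7, a8, fun s hs => a1.uniq H.aF (h5 x hx) a2 a3 a4 hs (Ioo_subset_Ioo a7 a8 hs)⟩
  have hgood : ∀ z ∈ bnd V a b, Good F V a b f z := by
    rintro ⟨x, s⟩ ⟨hx, hs⟩
    refine A.good hx (h2 x hx) ?_ hs
    obtain ⟨f₀, r, hr, b1, b2⟩ := hloc' x hx
    have hcx : c x ∈ Ioo (c x - r) (c x + r) := ⟨by linarith, by linarith⟩
    refine A.good_of_local hr b1 ?_ hcx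
    filter_upwards [H.openV.mem_nhds hx, b2, (hc.continuousAt (H.openV.mem_nhds hx)).eventually
      (isOpen_Ioo.mem_nhds hcx)] with x' c1 c2 c3
    exact ⟨c1, c x', c3, h2 x' c1, c2.trans (h4 x' c1).symm⟩
  have hD : IsOpen (bnd V a b) :=
    isOpen_iff_mem_nhds.2 fun z hz => (hgood z hz).mono fun w hw => hw.1
  have hder : ∀ z ∈ bnd V a b, HasFDerivAt f (F (z, f z)) z := fun z hz =>
    (hgood z hz).self_of_nhds.2
  have hmem : ∀ z ∈ bnd V a b, (z, f z) ∈ bnd (bnd V lo hi) g h := fun z hz =>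
    (h5 z.1 hz.1 z.2 hz.2).1
  have hab : ∀ x ∈ V, a x < b x := fun x hx => (h2 x hx).1.trans (h2 x hx).2
  have hlim : ∀ k : E × ℝ → ℝ, AnalyticOnNhd ℝ k (bnd V lo hi) → ∀ x s, (x, s) ∈ bnd V lo hi →
      ∀ l ≤ 𝓝 s, Tendsto (fun t => k (x, t)) l (𝓝 (k (x, s))) := fun k hk x s hs l hl =>
    ((hk _ hs).continuousAt.tendsto.comp (hasDerivAt_vert x s).continuousAt.tendsto).mono_left hl
  have hend : ∀ x ∈ V, ∀ s, (x, s) ∈ bnd V lo hi → s ∉ Ioo (a x) (b x) → ∀ l ≤ 𝓝 s,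
      Ioo (a x) (b x) ∈ l → (∀ S ∈ l, ∃ T ∈ l, T ⊆ S ∧ IsPreconnected T) →
      (Tendsto (fun t => h (x, t) - f (x, t)) l (𝓝 0) ∧
        Tendsto (fun t => f (x, t) - g (x, t)) l (𝓝 (h (x, s) - g (x, s)))) ∨
      (Tendsto (fun t => f (x, t) - g (x, t)) l (𝓝 0) ∧
        Tendsto (fun t => h (x, t) - f (x, t)) l (𝓝 (h (x, s) - g (x, s)))) := by
    intro x hx s hs hs' l hl hl' hconn
    have b1 := hlim g H.ag x s hs l hl
    have b2 := hlim h H.ah x s hs l hl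
    rcases end_lim (y := fun t => f (x, t)) b1 b2 (H.lt _ hs).2.2
      (by filter_upwards [hl'] with t ht using (h5 x hx t ht).1.2)
      (fun w hw => A.not_cluster hx hl hl' hs' ⟨hs, hw⟩)
      (by filter_upwards [hl'] with t ht using (h5 x hx t ht).2.continuousAt) hconn with e | e
    · exact .inl ⟨by simpa using b2.sub e, e.sub b1⟩
    · exact .inr ⟨by simpa using e.sub b1, b2.sub e⟩
  have hUb : ∀ x ∈ V, b x < hi x → (x, b x) ∈ bnd V lo hi := fun x hx hb =>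
    ⟨hx, (h1 x hx).trans_lt (hab x hx), hb⟩
  have hUa : ∀ x ∈ V, lo x < a x → (x, a x) ∈ bnd V lo hi := fun x hx hb =>
    ⟨hx, hb, (hab x hx).trans_le (h3 x hx)⟩
  have hendb := fun x (hx : x ∈ V) (hb : b x < hi x) => hend x hx (b x) (hUb x hx hb)
    (fun h => lt_irrefl _ h.2) (𝓝[<] b x) nhdsWithin_le_nhds (Ioo_mem_nhdsLT (hab x hx))
    (conn_lt _)
  have henda := fun x (hx : x ∈ V) (hb : lo x < a x) => hend x hx (a x) (hUa x hx hb)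
    (fun h => lt_irrefl _ h.1) (𝓝[>] a x) nhdsWithin_le_nhds (Ioo_mem_nhdsGT (hab x hx))
    (conn_gt _)
  have hcf : ContinuousOn f (bnd V a b) := fun z hz =>
    (hder z hz).continuousAt.continuousWithinAt
  have hDU : bnd V a b ⊆ bnd V lo hi := fun z hz => (hmem z hz).1
  have hdv : ∀ k : E × ℝ → ℝ, AnalyticOnNhd ℝ k (bnd V lo hi) → ∀ z ∈ bnd V a b,
      HasDerivAt (fun s => k (z.1, s)) (fderiv ℝ k z (0, 1)) z.2 := fun k hk z hz =>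
    (hk z (hDU hz)).differentiableAt.hasFDerivAt.comp_hasDerivAt z.2 (hasDerivAt_vert z.1 z.2)
  have Tt : TrapData V lo hi a b (fun z => h z - f z)
      (fun z => fderiv ℝ h z (0, 1) - F (z, f z) (0, 1))
      (fun z => min (h z - h' z) (h z - g z)) := by
    refine ⟨hU, hD, fun x hx => ⟨h1 x hx, hab x hx, h3 x hx⟩,
      (H.ah.continuousOn.mono hDU).sub hcf, fun z hz => sub_pos.2 (hmem z hz).2.2,
      fun z hz => (hdv h H.ah z hz).sub (h5 z.1 hz.1 z.2 hz.2).2,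
      (H.ah.continuousOn.sub H.ch').inf (H.ah.continuousOn.sub H.ag.continuousOn),
      fun z hz => lt_min (sub_pos.2 (H.lt z hz).2.1) (sub_pos.2 (H.lt z hz).2.2), ?_,
      fun x hx hb => (hendb x hx hb).imp (fun e => e.1) fun e => ⟨_, min_le_right _ _, e.2⟩,
      fun x hx hb => (henda x hx hb).imp (fun e => e.1) fun e => ⟨_, min_le_right _ _, e.2⟩⟩
    have e : ∀ z ∈ {z | z ∈ bnd V a b ∧ h z - f z < min (h z - h' z) (h z - g z)},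
        (z, f z) ∈ {p : (E × ℝ) × ℝ | p ∈ bnd (bnd V lo hi) g h ∧ h' p.1 < p.2} := fun z hz =>
      ⟨hmem z hz.1, by have := (lt_min_iff.1 hz.2).1; simp only; linarith⟩
    exact H.top.imp (fun t z hz => t _ (e z hz))
      (Or.imp (fun t z hz => t _ (e z hz)) fun t z hz => t _ (e z hz))
  have Tb : TrapData V lo hi a b (fun z => f z - g z)
      (fun z => F (z, f z) (0, 1) - fderiv ℝ g z (0, 1))
      (fun z => min (g' z - g z) (h z - g z)) := by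
    refine ⟨hU, hD, fun x hx => ⟨h1 x hx, hab x hx, h3 x hx⟩,
      hcf.sub (H.ag.continuousOn.mono hDU), fun z hz => sub_pos.2 (hmem z hz).2.1,
      fun z hz => (h5 z.1 hz.1 z.2 hz.2).2.sub (hdv g H.ag z hz),
      (H.cg'.sub H.ag.continuousOn).inf (H.ah.continuousOn.sub H.ag.continuousOn),
      fun z hz => lt_min (sub_pos.2 (H.lt z hz).1) (sub_pos.2 (H.lt z hz).2.2), ?_,
      fun x hx hb => (hendb x hx hb).symm.imp (fun e => e.1) fun e => ⟨_, min_le_right _ _, e.2⟩,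
      fun x hx hb => (henda x hx hb).symm.imp (fun e => e.1) fun e => ⟨_, min_le_right _ _, e.2⟩⟩
    have e : ∀ z ∈ {z | z ∈ bnd V a b ∧ f z - g z < min (g' z - g z) (h z - g z)},
        (z, f z) ∈ {p : (E × ℝ) × ℝ | p ∈ bnd (bnd V lo hi) g h ∧ p.2 < g' p.1} := fun z hz =>
      ⟨hmem z hz.1, by have := (lt_min_iff.1 hz.2).1; simp only; linarith⟩
    rcases H.bot with t | t | t
    · exact .inr (.inr fun z hz => by have := t _ (e z hz); simp only at this ⊢; linarith)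
    · exact .inr (.inl fun z hz => by have := t _ (e z hz); simp only at this ⊢; linarith)
    · exact .inl fun z hz => by have := t _ (e z hz); simp only at this ⊢; linarith
  have hED : ∀ u z, z ∈ Exit V lo hi a b u → z ∉ bnd V a b := by
    rintro u z ⟨-, ⟨e, -⟩ | ⟨e, -⟩⟩ hz
    · exact e.not_gt hz.2.2
    · exact e.not_gt hz.2.1
  have hEE : ∀ z, z ∈ Exit V lo hi a b (fun z => h z - f z) →
      z ∉ Exit V lo hi a b (fun z => f z - g z) := by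
    rintro ⟨x, s⟩ ⟨hz, ⟨e, e'⟩ | ⟨e, e'⟩⟩ ⟨-, ⟨d, d'⟩ | ⟨d, d'⟩⟩
    · have hb : b x < hi x := e.trans_lt hz.2.2
      have := sub_pos.2 (H.lt _ (hUb x hz.1 hb)).2.2
      rcases hendb x hz.1 hb with k | k
      · exact this.ne' (tendsto_nhds_unique k.2 d')
      · exact this.ne' (tendsto_nhds_unique k.2 e')
    · exact (hab x hz.1).not_ge (e.trans d)
    · exact (hab x hz.1).not_ge (d.trans e)
    · have hb : lo x < a x := hz.2.1.trans_le e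
      have := sub_pos.2 (H.lt _ (hUa x hz.1 hb)).2.2
      rcases henda x hz.1 hb with k | k
      · exact this.ne' (tendsto_nhds_unique k.2 d')
      · exact this.ne' (tendsto_nhds_unique k.2 e')
  have hcov : ∀ z ∈ bnd V lo hi, z ∉ bnd V a b → z ∈ Exit V lo hi a b (fun z => f z - g z) ∨
      z ∈ Exit V lo hi a b (fun z => h z - f z) := by
    rintro ⟨x, s⟩ hz hz'
    rcases le_or_gt (b x) s with e | e
    · exact (hendb x hz.1 (e.trans_lt hz.2.2)).symm.imp (fun k => ⟨hz, .inl ⟨e, k.1⟩⟩)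
        fun k => ⟨hz, .inl ⟨e, k.1⟩⟩
    · have e' : s ≤ a x := not_lt.1 fun k => hz' ⟨hz.1, k, e⟩
      exact (henda x hz.1 (hz.2.1.trans_le e')).symm.imp (fun k => ⟨hz, .inr ⟨e', k.1⟩⟩)
        fun k => ⟨hz, .inr ⟨e', k.1⟩⟩
  have hfst : ∀ p : (E × ℝ) × ℝ, Tendsto (fun q : (E × ℝ) × ℝ => q.1) (𝓝 p) (𝓝 p.1) :=
    fun p => continuous_fst.tendsto p
  have hcont : ∀ (k : E × ℝ → ℝ) (p : (E × ℝ) × ℝ), ContinuousAt k p.1 →
      ContinuousAt (fun q : (E × ℝ) × ℝ => k q.1) p := fun k p hk =>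
    ContinuousAt.comp hk continuousAt_fst
  refine ⟨a, b, f, {p | p ∈ bnd (bnd V lo hi) g h ∧ ((p.1 ∈ bnd V a b ∧ f p.1 < p.2) ∨
      p.1 ∈ Exit V lo hi a b (fun z => f z - g z))},
    {p | p ∈ bnd (bnd V lo hi) g h ∧ ((p.1 ∈ bnd V a b ∧ p.2 < f p.1) ∨
      p.1 ∈ Exit V lo hi a b (fun z => h z - f z))},
    ⟨hO, H.aF.contDiffOn_of_completeSpace, hD, hmem, hder, ?_, ?_, ?_, fun p => ?_,
      fun z hz => ?_⟩,
    fun x hx => ⟨h1 x hx, (h2 x hx).1, (h2 x hx).2, h3 x hx, h4 x hx⟩,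
    fun z hz w hw => ⟨fun e => ⟨hw, .inl ⟨hz, e⟩⟩, fun e => ⟨hw, .inl ⟨hz, e⟩⟩⟩,
    fun z hz hz' => (hcov z hz hz').imp (fun e w hw => ⟨hw, .inr e⟩) fun e w hw => ⟨hw, .inr e⟩,
    fun x hx hb => (hendb x hx hb).imp (fun e => e.1) fun e => by simpa using e.1.neg,
    fun x hx hb => (henda x hx hb).imp (fun e => e.1) fun e => by simpa using e.1.neg,
    fun x hx s₁ s₂ y a1 a2 a3 a4 => A.ext x hx y s₁ s₂ (c x) a4 ⟨a1, a2⟩ (h2 x hx)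
      (a3.trans (h4 x hx).symm)⟩
  · refine isOpen_iff_mem_nhds.2 ?_
    rintro p ⟨hp, ⟨e, e'⟩ | e⟩
    · filter_upwards [hO.mem_nhds hp, (hfst p).eventually (hD.mem_nhds e),
        (hcont f p (hder _ e).continuousAt).eventually_lt continuousAt_snd e'] with q c1 c2 c3
      exact ⟨c1, .inl ⟨c2, c3⟩⟩
    · obtain ⟨ε, e1, e2⟩ := exists_between (sub_pos.2 hp.2.1)
      filter_upwards [hO.mem_nhds hp, (hfst p).eventually (Tb.trap e e1),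
        (continuousAt_snd.sub (hcont g p (H.ag _ hp.1).continuousAt)).eventually
          (lt_mem_nhds e2)] with q c1 c2 c3
      refine ⟨c1, c2.symm.imp (fun k => ⟨k.1, ?_⟩) id⟩
      have := k.2
      simp only [Pi.sub_apply] at c3 this
      linarith
  · refine isOpen_iff_mem_nhds.2 ?_
    rintro p ⟨hp, ⟨e, e'⟩ | e⟩
    · filter_upwards [hO.mem_nhds hp, (hfst p).eventually (hD.mem_nhds e),
        continuousAt_snd.eventually_lt (hcont f p (hder _ e).continuousAt) e'] with q c1 c2 c3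
      exact ⟨c1, .inl ⟨c2, c3⟩⟩
    · obtain ⟨ε, e1, e2⟩ := exists_between (sub_pos.2 hp.2.2)
      filter_upwards [hO.mem_nhds hp, (hfst p).eventually (Tt.trap e e1),
        ((hcont h p (H.ah _ hp.1).continuousAt).sub continuousAt_snd).eventually
          (lt_mem_nhds e2)] with q c1 c2 c3
      refine ⟨c1, c2.symm.imp (fun k => ⟨k.1, ?_⟩) id⟩
      have := k.2
      simp only [Pi.sub_apply] at c3 this
      linarith
  · refine Set.disjoint_left.2 ?_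
    rintro p ⟨-, ⟨e, e'⟩ | e⟩ ⟨-, ⟨d, d'⟩ | d⟩
    · exact e'.not_gt d'
    · exact hED _ _ d e
    · exact hED _ _ e d
    · exact hEE _ d e
  · constructor
    · rintro (⟨hp, ⟨e, e'⟩ | e⟩ | ⟨hp, ⟨e, e'⟩ | e⟩)
      · exact ⟨hp, fun k => e'.ne' k.2⟩
      · exact ⟨hp, fun k => hED _ _ e k.1⟩
      · exact ⟨hp, fun k => e'.ne k.2⟩
      · exact ⟨hp, fun k => hED _ _ e k.1⟩
    · rintro ⟨hp, e⟩
      by_cases d : p.1 ∈ bnd V a b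
      · rcases lt_or_gt_of_ne (fun k => e ⟨d, k⟩) with k | k
        · exact .inr ⟨hp, .inl ⟨d, k⟩⟩
        · exact .inl ⟨hp, .inl ⟨d, k⟩⟩
      · exact (hcov _ hp.1 d).imp (fun k => ⟨hp, .inr k⟩) fun k => ⟨hp, .inr k⟩
  · filter_upwards [hO.mem_nhds (hmem z hz), (hfst (z, f z)).eventually (hD.mem_nhds hz)]
      with q c1 c2
    exact ⟨fun e => ⟨c1, .inl ⟨c2, e⟩⟩, fun e => ⟨c1, .inl ⟨c2, e⟩⟩⟩

end Pool.Agent.Lib.MP_1a1eb7_lc
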