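import Pool.Agent.Lib.MP_1a1eb7_lc.CDefs
import Pool.Agent.Lib.MP_1a1eb7_lc.Leaf
import Pool.Agent.Shared.OMin.Top

/-! Transport of Pfaffian systems along linear isomorphisms, and the form in coordinates. -/

namespace Pool.Agent.Lib.MP_1a1eb7_lc

open Set Filter Topology Pool.Agent.Shared.OMin

section Pull

variable {α β : Type} [NormedAddCommGroup α] [NormedSpace ℝ α] [FiniteDimensional ℝ α]
  [NormedAddCommGroup β] [NormedSpace ℝ β] [FiniteDimensional ℝ β]

/-- pull back of a system along a linear isomorphism of the base -/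
noncomputable def leafFin_pull (e : α ≃L[ℝ] β) (F : β × ℝ → β →L[ℝ] ℝ) (p : α × ℝ) :
    α →L[ℝ] ℝ := (F (e p.1, p.2)).comp (e : α →L[ℝ] β)

/-- the induced map on the total space -/
noncomputable def leafFin_up (e : α ≃L[ℝ] β) : (α × ℝ) →L[ℝ] (β × ℝ) :=
  (e : α →L[ℝ] β).prodMap (ContinuousLinearMap.id ℝ ℝ)

variable {e : α ≃L[ℝ] β} {F : β × ℝ → β →L[ℝ] ℝ}

omit [FiniteDimensional ℝ α] [FiniteDimensional ℝ β] in
theorem leafFin_up_apply (p : α × ℝ) : leafFin_up e p = (e p.1, p.2) := rfl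

omit [FiniteDimensional ℝ α] [FiniteDimensional ℝ β] in
theorem leafFin_pull_symm : leafFin_pull e.symm (leafFin_pull e F) = F := by
  funext p
  ext v
  simp [leafFin_pull]

omit [FiniteDimensional ℝ α] [FiniteDimensional ℝ β] in
theorem leafFin_pull_eq : leafFin_pull e F = fun p =>
    ((ContinuousLinearMap.compL ℝ α β ℝ).flip (e : α →L[ℝ] β)) (F (leafFin_up e p)) := by
  funext p
  ext v
  simp [leafFin_pull, leafFin_up_apply]

omit [FiniteDimensional ℝ α] [FiniteDimensional ℝ β] in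
theorem leafFin_pull_analytic {p : α × ℝ} (h : AnalyticAt ℝ F (e p.1, p.2)) :
    AnalyticAt ℝ (leafFin_pull e F) p := by
  rw [leafFin_pull_eq]
  exact (ContinuousLinearMap.analyticAt _ _).comp
    (AnalyticAt.comp (f := leafFin_up e) h ((leafFin_up e).analyticAt p))

omit [FiniteDimensional ℝ α] [FiniteDimensional ℝ β] in
theorem leafFin_pull_deriv {f : β → ℝ} {z : α} (h : HasFDerivAt f (F (e z, f (e z))) (e z)) :
    HasFDerivAt (fun x => f (e x)) (leafFin_pull e F (z, f (e z))) z :=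
  h.comp z (e : α →L[ℝ] β).hasFDerivAt

omit [FiniteDimensional ℝ α] [FiniteDimensional ℝ β] in
theorem leafFin_pull_integ {p : α × ℝ} (hd : DifferentiableAt ℝ F (e p.1, p.2))
    (h : Integ F (e p.1, p.2)) : Integ (leafFin_pull e F) p := by
  have h1 : HasFDerivAt (leafFin_pull e F)
      (((ContinuousLinearMap.compL ℝ α β ℝ).flip (e : α →L[ℝ] β)).comp
        ((fderiv ℝ F (e p.1, p.2)).comp (leafFin_up e))) p := by
    rw [leafFin_pull_eq]
    exact (ContinuousLinearMap.hasFDerivAt _).comp p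
      (HasFDerivAt.comp (f := leafFin_up e) p hd.hasFDerivAt (leafFin_up e).hasFDerivAt)
  intro u v
  rw [h1.fderiv]
  exact h (e u) (e v)

theorem leafFin_pull_df {S : OStr} (h : DF S F) : DF S (leafFin_pull e F) := by
  rw [leafFin_pull_eq]
  exact (DF.clm _).comp (h.comp (DF.clm (leafFin_up e)))

omit [FiniteDimensional ℝ α] [FiniteDimensional ℝ β] in
theorem leafFin_rolle_pull (e : α ≃L[ℝ] β) {O : Set (β × ℝ)} {D : Set β} {f : β → ℝ}
    {Bp Bm : Set (β × ℝ)} (H : RolleGraph O F D f Bp Bm) :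
    RolleGraph (leafFin_up e ⁻¹' O) (leafFin_pull e F) (e ⁻¹' D) (fun x => f (e x))
      (leafFin_up e ⁻¹' Bp) (leafFin_up e ⁻¹' Bm) where
  openO := H.openO.preimage (leafFin_up e).continuous
  smooth := by
    rw [leafFin_pull_eq]
    exact (ContinuousLinearMap.contDiff _).comp_contDiffOn
      (H.smooth.comp (leafFin_up e).contDiff.contDiffOn fun _ hp => hp)
  openD := H.openD.preimage e.continuous
  mem x hx := H.mem _ hx
  deriv x hx := leafFin_pull_deriv (H.deriv _ hx)
  openp := H.openp.preimage (leafFin_up e).continuous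
  openm := H.openm.preimage (leafFin_up e).continuous
  disj := H.disj.preimage _
  cover p := H.cover (leafFin_up e p)
  side x hx := ((leafFin_up e).continuous.tendsto (x, f (e x))).eventually (H.side _ hx)

omit [FiniteDimensional ℝ β] in
theorem leafFin_rolle_congr {O : Set (β × ℝ)} {D : Set β} {f f' : β → ℝ}
    {Bp Bm : Set (β × ℝ)} (H : RolleGraph O F D f Bp Bm) (hf : EqOn f' f D) :
    RolleGraph O F D f' Bp Bm where
  openO := H.openO
  smooth := H.smooth
  openD := H.openD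
  mem x hx := hf hx ▸ H.mem x hx
  deriv x hx := by
    rw [hf hx]
    exact (H.deriv x hx).congr_of_eventuallyEq (hf.eventuallyEq_of_mem (H.openD.mem_nhds hx))
  openp := H.openp
  openm := H.openm
  disj := H.disj
  cover p := by
    rw [H.cover p]
    by_cases hp : p.1 ∈ D
    · simp [hp, hf hp]
    · simp [hp]
  side x hx := by
    rw [hf hx]
    filter_upwards [H.side x hx, (continuous_fst.tendsto (x, f x)).eventually
      (H.openD.mem_nhds hx)] with p h1 h2
    rwa [hf h2]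

end Pull

variable {n : ℕ}

/-- the isomorphism `(x, t) ↦ snoc x t` -/
noncomputable def leafFin_sn (n : ℕ) : ((Fin n → ℝ) × ℝ) ≃L[ℝ] (Fin (n + 1) → ℝ) :=
  LinearEquiv.toContinuousLinearEquiv
    { toFun := fun z => Fin.snoc z.1 z.2
      invFun := fun z => (Fin.init z, z (Fin.last n))
      map_add' := fun z w => funext fun j => by
        refine Fin.lastCases ?_ (fun j => ?_) j <;> simp
      map_smul' := fun c z => funext fun j => by
        refine Fin.lastCases ?_ (fun j => ?_) j <;> simp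
      left_inv := fun z => by simp
      right_inv := fun z => by simp }

theorem leafFin_sn_apply (z : (Fin n → ℝ) × ℝ) : leafFin_sn n z = Fin.snoc z.1 z.2 := rfl

theorem leafFin_sn_symm (z : Fin (n + 1) → ℝ) :
    (leafFin_sn n).symm z = (Fin.init z, z (Fin.last n)) := rfl

theorem leafFin_snoc_uv {i : ℕ} (hi : i < n) (a : ℝ) :
    (Fin.snoc (uv n i) a : Fin (n + 1) → ℝ) = uv (n + 1) i + a • uv (n + 1) n :=
  funext fun j => by
    refine Fin.lastCases ?_ (fun j => ?_) j
    · simp [uv, hi.ne']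
    · simp [uv, Nat.ne_of_lt j.2]

theorem leafFin_snoc_last :
    (Fin.snoc (0 : Fin n → ℝ) (1 : ℝ) : Fin (n + 1) → ℝ) = uv (n + 1) n :=
  funext fun j => by
    refine Fin.lastCases ?_ (fun j => ?_) j
    · simp [uv]
    · simp [uv, Nat.ne_of_lt j.2]

theorem leafFin_sum_uv (u : Fin n → ℝ) : u = ∑ i : Fin n, u i • uv n i := by
  funext j
  simp [uv, Finset.sum_apply, Fin.val_inj]

theorem leafFin_clm_ext {L L' : (Fin n → ℝ) →L[ℝ] ℝ} (h : ∀ i < n, L (uv n i) = L' (uv n i)) :
    L = L' := by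
  ext1 u
  rw [leafFin_sum_uv u, map_sum, map_sum]
  exact Finset.sum_congr rfl fun i _ => by rw [map_smul, map_smul, h i i.2]

variable {F : ℕ → Fn (n + 1)}

theorem leafFin_form_uv (p : (Fin n → ℝ) × ℝ) {i : ℕ} (hi : i < n) :
    formOf F p (uv n i) = F i (Fin.snoc p.1 p.2) := by
  have : ∀ j : Fin n, (j : ℕ) = i ↔ j = ⟨i, hi⟩ := fun j => by simp [Fin.ext_iff]
  simp [formOf, uv, this]

theorem leafFin_form_analytic {p : (Fin n → ℝ) × ℝ}
    (h : ∀ i < n, AnalyticAt ℝ (F i) (Fin.snoc p.1 p.2)) : AnalyticAt ℝ (formOf F) p := by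
  unfold formOf
  refine Finset.analyticAt_fun_sum _ fun i _ => AnalyticAt.fun_smul ?_ analyticAt_const
  exact AnalyticAt.comp (f := leafFin_sn n) (h i i.2) ((leafFin_sn n).analyticAt p)

theorem leafFin_form_df {S : OStr} (h : ∀ i < n, DF S (F i)) : DF S (formOf F) := by
  unfold formOf
  refine DF.sum _ fun i _ => DF.smul ?_ (DF.const _)
  exact (h i i.2).comp (DF.snoc (by fun_prop) (by fun_prop))

theorem leafFin_form_fderiv {p : (Fin n → ℝ) × ℝ}
    (h : ∀ i < n, DifferentiableAt ℝ (F i) (Fin.snoc p.1 p.2)) {i j : ℕ} (hi : i < n)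
    (hj : j < n) : fderiv ℝ (formOf F) p (uv n i, formOf F p (uv n i)) (uv n j) =
      pdv (F j) i (Fin.snoc p.1 p.2) +
        F i (Fin.snoc p.1 p.2) * pdv (F j) n (Fin.snoc p.1 p.2) := by
  have h1 : HasFDerivAt (formOf F) (∑ k : Fin n,
      ((fderiv ℝ (F k) (Fin.snoc p.1 p.2)).comp
        (leafFin_sn n : ((Fin n → ℝ) × ℝ) →L[ℝ] (Fin (n + 1) → ℝ))).smulRight
        (ContinuousLinearMap.proj (R := ℝ) (φ := fun _ : Fin n => ℝ) k)) p := by
    unfold formOf
    refine HasFDerivAt.fun_sum fun k _ => ?_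
    exact (HasFDerivAt.comp (f := leafFin_sn n) p (h k k.2).hasFDerivAt
      (leafFin_sn n).hasFDerivAt).smul_const
        (ContinuousLinearMap.proj (R := ℝ) (φ := fun _ : Fin n => ℝ) k)
  have : ∀ k : Fin n, (k : ℕ) = j ↔ k = ⟨j, hj⟩ := fun k => by simp [Fin.ext_iff]
  have h2 : ∀ k : Fin n, uv n j k = if k = ⟨j, hj⟩ then 1 else 0 := fun k => by simp [uv, this]
  rw [h1.fderiv, leafFin_form_uv p hi]
  simp [h2, leafFin_sn_apply, leafFin_snoc_uv hi, pdv]

theorem leafFin_integ_of_uv {G : (Fin n → ℝ) × ℝ → (Fin n → ℝ) →L[ℝ] ℝ} {p : (Fin n → ℝ) × ℝ}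
    (h : ∀ i < n, ∀ j < n, fderiv ℝ G p (uv n i, G p (uv n i)) (uv n j) =
      fderiv ℝ G p (uv n j, G p (uv n j)) (uv n i)) : Integ G p := by
  let B : (Fin n → ℝ) →L[ℝ] (Fin n → ℝ) →L[ℝ] ℝ :=
    (fderiv ℝ G p).comp ((ContinuousLinearMap.id ℝ _).prod (G p))
  have h1 : ∀ i < n, B (uv n i) = B.flip (uv n i) := fun i hi =>
    leafFin_clm_ext fun j hj => h i hi j hj
  intro u v
  have h2 : B.flip v = B v := leafFin_clm_ext fun i hi => by
    rw [ContinuousLinearMap.flip_apply, h1 i hi, ContinuousLinearMap.flip_apply]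
  exact congrArg (fun L : (Fin n → ℝ) →L[ℝ] ℝ => L u) h2

end Pool.Agent.Lib.MP_1a1eb7_lc
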