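import Pool.Agent.Lib.MP_1a1eb7_lc.EP1
import Pool.Agent.Shared.OMin.Rolle
import Pool.Agent.Lib.MP_1a1eb7_lc.LeafFin1

-- part Pool.Agent.Lib.MP_1a1eb7_lc.EP
section

/-! C6: side sets of a separating leaf, exit points of leaves have low rank. -/

namespace Pool.Agent.Lib.MP_1a1eb7_lc

open Set Filter Topology Pool.Agent.Shared.OMin
open Ordinal (omega0)

variable {S : OStr} {Γ : Sys} {θ θ₁ θ₂ τ : ℕ → Ordinal.{0}} {P Q Z Z' y : ℕ → U} {n m k r N : ℕ}
  {E E' : ℕ → Fld} {c c' : Ctx} {α β γ : Ordinal.{0}} {K K₀ K₀' K₁ K₂ K' : Fld}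

theorem ep_formOf_apply (F : ℕ → Fn (n + 1)) (p : (Fin n → ℝ) × ℝ) (v : Fin n → ℝ) :
    formOf F p v = ∑ i : Fin n, F i (Fin.snoc p.1 p.2) * v i := by
  simp [formOf]

theorem ep_formOf_uv (F : ℕ → Fn (n + 1)) (p : (Fin n → ℝ) × ℝ) {i : ℕ} (hi : i < n) :
    formOf F p (uv n i) = F i (Fin.snoc p.1 p.2) := by
  rw [ep_formOf_apply, Finset.sum_eq_single (⟨i, hi⟩ : Fin n)]
  · simp [uv]
  · intro j _ hj
    have : (j : ℕ) ≠ i := fun h => hj (Fin.ext h)
    simp [uv, this]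
  · simp

/-- the set of points whose whole fibre lies on one side -/
def sideSet {n : ℕ} (A : Set (Fin n → ℝ)) (g h : Fn n) (B : Set ((Fin n → ℝ) × ℝ)) :
    Set (Fin n → ℝ) := {x | x ∈ A ∧ ∀ w, (x, w) ∈ bnd A g h → (x, w) ∈ B}

section
variable {A D : Set (Fin n → ℝ)} {g h f : Fn n} {F : ℕ → Fn (n + 1)}
  {Bp Bm : Set ((Fin n → ℝ) × ℝ)}

theorem Sep.sub (hs : Sep S A g h F D f Bp Bm) : D ⊆ A := fun x hx => (hs.rolle.mem x hx).1

theorem Sep.sol (hs : Sep S A g h F D f Bp Bm) {x : Fin n → ℝ} (hx : x ∈ D) :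
    g x < f x ∧ f x < h x ∧ DifferentiableAt ℝ f x ∧
      ∀ i < n, pdv f i x = F i (Fin.snoc x (f x)) := by
  obtain ⟨-, h1, h2⟩ := hs.rolle.mem x hx
  refine ⟨h1, h2, (hs.rolle.deriv x hx).differentiableAt, fun i hi => ?_⟩
  simp only [pdv]
  rw [(hs.rolle.deriv x hx).fderiv, ep_formOf_uv _ _ hi]

theorem Sep.ep_p_sub (hs : Sep S A g h F D f Bp Bm) {p : (Fin n → ℝ) × ℝ} (hp : p ∈ Bp) :
    p ∈ bnd A g h ∧ ¬ (p.1 ∈ D ∧ p.2 = f p.1) := (hs.rolle.cover p).1 (.inl hp)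

theorem Sep.ep_m_sub (hs : Sep S A g h F D f Bp Bm) {p : (Fin n → ℝ) × ℝ} (hp : p ∈ Bm) :
    p ∈ bnd A g h ∧ ¬ (p.1 ∈ D ∧ p.2 = f p.1) := (hs.rolle.cover p).1 (.inr hp)

theorem Sep.ep_not_side (hs : Sep S A g h F D f Bp Bm) {x : Fin n → ℝ} (hx : x ∈ D) :
    x ∉ sideSet A g h Bp ∧ x ∉ sideSet A g h Bm :=
  ⟨fun h1 => (hs.ep_p_sub (h1.2 _ (hs.rolle.mem x hx))).2 ⟨hx, rfl⟩,
    fun h1 => (hs.ep_m_sub (h1.2 _ (hs.rolle.mem x hx))).2 ⟨hx, rfl⟩⟩

theorem Sep.ep_off (hs : Sep S A g h F D f Bp Bm) {x : Fin n → ℝ} (hA : x ∈ A) (hx : x ∉ D) :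
    x ∈ sideSet A g h Bp ∨ x ∈ sideSet A g h Bm :=
  (hs.off x hA hx).imp (fun h1 => ⟨hA, h1⟩) fun h1 => ⟨hA, h1⟩

set_option linter.unusedVariables false in
theorem Sep.cover (hs : Sep S A g h F D f Bp Bm) (hlt : ∀ x ∈ A, g x < h x) {x : Fin n → ℝ} :
    x ∈ D ↔ x ∈ A ∧ x ∉ sideSet A g h Bp ∧ x ∉ sideSet A g h Bm := by
  refine ⟨fun hx => ⟨hs.sub hx, hs.ep_not_side hx⟩, fun ⟨hA, h1, h2⟩ => ?_⟩
  by_contra hx
  exact (hs.ep_off hA hx).elim h1 h2

theorem Sep.ep_disj (hs : Sep S A g h F D f Bp Bm) (hlt : ∀ x ∈ A, g x < h x) {x : Fin n → ℝ}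
    (h1 : x ∈ sideSet A g h Bp) (h2 : x ∈ sideSet A g h Bm) : False := by
  obtain ⟨w, hw⟩ := exists_between (hlt x h1.1)
  exact disjoint_left.1 hs.rolle.disj (h1.2 w ⟨h1.1, hw⟩) (h2.2 w ⟨h1.1, hw⟩)

theorem ep_ev_mem {B : Set ((Fin n → ℝ) × ℝ)} (hB : IsOpen B) {x : Fin n → ℝ} {w : ℝ}
    (h : (x, w) ∈ B) : ∀ᶠ z in 𝓝 x, (z, w) ∈ B :=
  (continuous_id.prodMk continuous_const).continuousAt.eventually (hB.mem_nhds h)

set_option linter.unusedVariables false in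
theorem Sep.isOpen_diff (hs : Sep S A g h F D f Bp Bm) (hA : IsOpen A) (hlt : ∀ x ∈ A, g x < h x) :
    IsOpen (A \ sideSet A g h Bp) ∧ IsOpen (A \ sideSet A g h Bm) := by
  constructor
  · refine isOpen_iff_mem_nhds.2 fun x hx => ?_
    by_cases hD : x ∈ D
    · filter_upwards [hs.rolle.openD.mem_nhds hD] with z hz
      exact ⟨hs.sub hz, (hs.ep_not_side hz).1⟩
    · have h1 := (hs.ep_off hx.1 hD).resolve_left hx.2
      obtain ⟨w, hw⟩ := exists_between (hlt x hx.1)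
      filter_upwards [ep_ev_mem hs.rolle.openm (h1.2 w ⟨hx.1, hw⟩)] with z hz
      have h2 := (hs.ep_m_sub hz).1
      exact ⟨h2.1, fun h3 => disjoint_left.1 hs.rolle.disj (h3.2 w h2) hz⟩
  · refine isOpen_iff_mem_nhds.2 fun x hx => ?_
    by_cases hD : x ∈ D
    · filter_upwards [hs.rolle.openD.mem_nhds hD] with z hz
      exact ⟨hs.sub hz, (hs.ep_not_side hz).2⟩
    · have h1 := (hs.ep_off hx.1 hD).resolve_right hx.2
      obtain ⟨w, hw⟩ := exists_between (hlt x hx.1)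
      filter_upwards [ep_ev_mem hs.rolle.openp (h1.2 w ⟨hx.1, hw⟩)] with z hz
      have h2 := (hs.ep_p_sub hz).1
      exact ⟨h2.1, fun h3 => disjoint_left.1 hs.rolle.disj hz (h3.2 w h2)⟩

theorem ep_dp_piece {s X Y : Set (Fin n → ℝ)} (ds : DP S fun x => x ∈ s) (hX : X ⊆ s)
    (h : ∀ t ⊆ s, IsPreconnected t → t ⊆ X ∨ t ⊆ Y) (hd : ∀ x ∈ X, x ∉ Y) :
    DP S fun x => x ∈ X := by
  obtain ⟨T, hT, h1, h2⟩ := ds.finite_preconnected
  refine (DP.finset_or (s := {t ∈ T | t ⊆ X}) (hT.subset fun _ h => h.1)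
    (P := fun t x => x ∈ t) fun t ht => (h1 t ht.1).1).congr fun x => ⟨fun hx => ?_, ?_⟩
  · obtain ⟨t, ht, hxt⟩ : x ∈ ⋃₀ T := h2 ▸ hX hx
    rcases h t (h2 ▸ subset_sUnion_of_mem ht) (h1 t ht).2 with h3 | h3
    · exact ⟨t, ⟨ht, h3⟩, hxt⟩
    · exact absurd (h3 hxt) (hd x hx)
  · rintro ⟨t, ht, hxt⟩
    exact ht.2 hxt

/-- `A \ D` is a finite union of preconnected definable sets, each inside one of the two
relatively closed disjoint side sets -/
theorem Sep.dp_side (hs : Sep S A g h F D f Bp Bm) (hA : IsOpen A) (dA : DP S fun x => x ∈ A)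
    (hlt : ∀ x ∈ A, g x < h x) :
    (DP S fun x => x ∈ sideSet A g h Bp) ∧ DP S fun x => x ∈ sideSet A g h Bm := by
  have ds : DP S fun x => x ∈ A \ D := dA.and hs.dD.not
  obtain ⟨o1, o2⟩ := hs.isOpen_diff hA hlt
  have key : ∀ t ⊆ A \ D, IsPreconnected t →
      t ⊆ sideSet A g h Bp ∨ t ⊆ sideSet A g h Bm := by
    intro t ht hc
    by_contra hn
    rw [not_or, not_subset, not_subset] at hn
    obtain ⟨⟨a, ha, ha'⟩, b, hb, hb'⟩ := hn
    obtain ⟨z, hz, hz1, hz2⟩ := hc _ _ o1 o2 (fun z hz => by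
      by_cases h1 : z ∈ sideSet A g h Bp
      · exact .inr ⟨(ht hz).1, fun h2 => hs.ep_disj hlt h1 h2⟩
      · exact .inl ⟨(ht hz).1, h1⟩) ⟨a, ha, (ht ha).1, ha'⟩ ⟨b, hb, (ht hb).1, hb'⟩
    exact (ht hz).2 ((hs.cover hlt).2 ⟨hz1.1, hz1.2, hz2.2⟩)
  constructor
  · exact ep_dp_piece ds (fun x hx => ⟨hx.1, fun hD => (hs.ep_not_side hD).1 hx⟩) key
      fun x h1 h2 => hs.ep_disj hlt h1 h2
  · exact ep_dp_piece ds (fun x hx => ⟨hx.1, fun hD => (hs.ep_not_side hD).2 hx⟩)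
      (fun t ht hc => (key t ht hc).symm) fun x h1 h2 => hs.ep_disj hlt h2 h1

theorem Sep.tendsto_top (hs : Sep S A g h F D f Bp Bm) (hh : ContinuousOn h A) (hA : IsOpen A)
    (hlt : ∀ x ∈ A, g x < h x) {x : Fin n → ℝ} (hx : x ∈ sideSet A g h Bm) :
    Tendsto (fun z => h z - f z) (𝓝[D] x) (𝓝 0) := by
  refine Metric.tendsto_nhds.2 fun ε hε => ?_
  obtain ⟨w, hw1, hw2⟩ := exists_between
    (max_lt (hlt x hx.1) (show h x - ε / 2 < h x by linarith))
  have h1 := ep_ev_mem hs.rolle.openm (hx.2 w ⟨hx.1, (le_max_left _ _).trans_lt hw1, hw2⟩)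
  have h2 : ∀ᶠ z in 𝓝 x, h z < h x + ε / 2 :=
    (hh.continuousAt (hA.mem_nhds hx.1)).eventually (gt_mem_nhds (by linarith))
  filter_upwards [nhdsWithin_le_nhds h1, nhdsWithin_le_nhds h2, self_mem_nhdsWithin]
    with z h3 h4 h5
  have h6 : w ≤ f z := not_lt.1 fun h6 =>
    disjoint_left.1 hs.rolle.disj ((hs.above z h5 w (hs.ep_m_sub h3).1).1 h6) h3
  have h7 := (hs.sol h5).2.1
  have h8 := (le_max_right _ _).trans_lt hw1
  rw [Real.dist_eq, sub_zero, abs_lt]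
  constructor <;> linarith

theorem Sep.tendsto_bot (hs : Sep S A g h F D f Bp Bm) (hg : ContinuousOn g A) (hA : IsOpen A)
    (hlt : ∀ x ∈ A, g x < h x) {x : Fin n → ℝ} (hx : x ∈ sideSet A g h Bp) :
    Tendsto (fun z => g z - f z) (𝓝[D] x) (𝓝 0) := by
  refine Metric.tendsto_nhds.2 fun ε hε => ?_
  obtain ⟨w, hw1, hw2⟩ := exists_between
    (lt_min (hlt x hx.1) (show g x < g x + ε / 2 by linarith))
  have h1 := ep_ev_mem hs.rolle.openp (hx.2 w ⟨hx.1, hw1, hw2.trans_le (min_le_left _ _)⟩)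
  have h2 : ∀ᶠ z in 𝓝 x, g x - ε / 2 < g z :=
    (hg.continuousAt (hA.mem_nhds hx.1)).eventually (lt_mem_nhds (by linarith))
  filter_upwards [nhdsWithin_le_nhds h1, nhdsWithin_le_nhds h2, self_mem_nhdsWithin]
    with z h3 h4 h5
  have h6 : f z ≤ w := not_lt.1 fun h6 =>
    disjoint_left.1 hs.rolle.disj h3 ((hs.above z h5 w (hs.ep_p_sub h3).1).2 h6)
  have h7 := (hs.sol h5).1
  have h8 := hw2.trans_le (min_le_right _ _)
  rw [Real.dist_eq, sub_zero, abs_lt]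
  constructor <;> linarith

/-- restriction to an open definable subset, and change of the data on it -/
theorem Sep.restrict (hs : Sep S A g h F D f Bp Bm) {A' : Set (Fin n → ℝ)} (hA' : IsOpen A')
    (dA' : DP S fun x => x ∈ A') (hsub : A' ⊆ A) :
    Sep S A' g h F (D ∩ A') f (Bp ∩ {p | p.1 ∈ A'}) (Bm ∩ {p | p.1 ∈ A'}) := by
  have ho : IsOpen {p : (Fin n → ℝ) × ℝ | p.1 ∈ A'} := hA'.preimage continuous_fst
  have e : bnd A' g h = bnd A g h ∩ {p | p.1 ∈ A'} :=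
    Set.ext fun p => ⟨fun hp => ⟨⟨hsub hp.1, hp.2⟩, hp.1⟩, fun hp => ⟨hp.2, hp.1.2⟩⟩
  have hb : ∀ {p}, p ∈ bnd A' g h → p ∈ bnd A g h := fun hp => (e ▸ hp).1
  refine ⟨⟨e ▸ hs.rolle.openO.inter ho, hs.rolle.smooth.mono fun _ => hb,
    hs.rolle.openD.inter hA', fun x hx => ⟨hx.2, (hs.rolle.mem x hx.1).2⟩,
    fun x hx => hs.rolle.deriv x hx.1, hs.rolle.openp.inter ho, hs.rolle.openm.inter ho,
    hs.rolle.disj.mono inter_subset_left inter_subset_left, fun p => ?_, fun x hx => ?_⟩,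
    hs.dD.and dA', hs.df, fun x hx w hw => ?_, fun x hx hD => ?_⟩
  · rw [← union_inter_distrib_right, mem_inter_iff, hs.rolle.cover, e]
    simp only [mem_inter_iff, mem_ofPred_eq]
    tauto
  · filter_upwards [hs.rolle.side x hx.1, ho.mem_nhds (show (x, f x) ∈ _ from hx.2)] with p h1 h2
    exact ⟨fun h3 => ⟨h1.1 h3, h2⟩, fun h3 => ⟨h1.2 h3, h2⟩⟩
  · have := hs.above x hx.1 w (hb hw)
    exact ⟨fun h3 => ⟨this.1 h3, hx.2⟩, fun h3 => ⟨this.2 h3, hx.2⟩⟩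
  · exact (hs.off x (hsub hx) fun h1 => hD ⟨h1, hx⟩).imp
      (fun h1 w hw => ⟨h1 w (hb hw), hx⟩) fun h1 w hw => ⟨h1 w (hb hw), hx⟩

end

theorem ep_continuous_snoc (x : Fin n → ℝ) :
    Continuous fun t : ℝ => (Fin.snoc x t : Fin (n + 1) → ℝ) :=
  continuous_const.finSnoc continuous_id

/-- a limit along a definable set gives an infinitesimal value at an adjacent point -/
theorem ep_inf_of_tendsto {D : Set (Fin (n + 1) → ℝ)} (dD : DP S fun x => x ∈ D) {u : Fn (n + 1)}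
    (du : DF S u) {b s : U} (hb : b ∈ dcl S P n) (hi : Inf (dcl S P n) (s - b))
    (hD : At (fun z => z ∈ D) (upd P n s))
    (ht : At (fun x => Tendsto u (𝓝[D] x) (𝓝 0)) (upd P n b)) :
    Inf (dcl S P n) (ev u (upd P n s)) := by
  intro δ hδ h0
  have h1 := infin_adj (InD.tp_self.prod (mem_dcl_iff.1 hδ))
    (X := fun (p : (Fin n → ℝ) × ℝ) t => Fin.snoc p.1 t ∈ D → |u (Fin.snoc p.1 t)| < p.2)
    (DP.imp (dD.mem (by fun_prop)) (DP.lt (DF.abs (du.comp (by fun_prop))) (by fun_prop))) hb hi (by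
      filter_upwards [ht, infin_pos_iff.1 h0] with ω h1 h2
      rw [tp_upd] at h1
      have h3 := eventually_nhdsWithin_iff.1 (Metric.tendsto_nhds.1 h1 _ h2)
      filter_upwards [(ep_continuous_snoc _).continuousAt.eventually h3] with t h4 h5
      simpa using h4 h5)
  rw [lt_iff]
  filter_upwards [h1, hD, out_abs (ev u (upd P n s)), out_ev u (upd P n s)] with ω h2 h3 h4 h5
  rw [tp_upd] at h3 h5
  rw [h4, h5]
  exact h2 h3

set_option linter.unusedVariables false in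
theorem ep_sep (hG : Good S Γ θ) (hθ : Clo θ) (hc : Sem S θ c (n + 2)) {F : ℕ → Fn (n + 2)}
    (hF : ∀ i < n + 1, F i ∈ c.gens (n + 2)) {A D : Set (Fin (n + 1) → ℝ)} {f : Fn (n + 1)}
    {Bp Bm : Set ((Fin (n + 1) → ℝ) × ℝ)} (hA : A ⊆ c.cell (n + 1)) (ho : IsOpen A)
    (dA : DP S fun x => x ∈ A) (hs : Sep S A (c.lo (n + 1)) (c.hi (n + 1)) F D f Bp Bm)
    (hP : Pt S θ c P n E) {b s : U} (hb : b ∈ dcl S P n)
    (hbA : At (fun z => z ∈ A ∧ z ∉ D) (upd P n b)) (hne : s ≠ b) (hi : Inf (dcl S P n) (s - b))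
    (hD : At (fun z => z ∈ D) (upd P n s)) :
    ∃ E', Tow S θ P n E' ∧ Ext E E' n ∧ b ∈ E' n := by
  have hlt : ∀ x ∈ A, c.lo (n + 1) x < c.hi (n + 1) x := fun x hx =>
    (hc.lt (n + 1) (by omega) x (hA hx)).2.1
  have hlo := hc.lo_mem (n + 1) (by omega)
  have hhi := hc.hi_mem (n + 1) (by omega)
  have hin : c.Has (n + 1) (upd P n b) := hbA.mono fun ω h => hA h.1
  have hsol : At (fun z => Fin.snoc z (f z) ∈ c.cell (n + 2) ∧
      ∀ i < n + 1, pdv f i z = F i (Fin.snoc z (f z))) (upd P n s) := hD.mono fun ω h =>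
    ⟨snoc_mem_band.2 ⟨hA (hs.sub h), (hs.sol h).1, (hs.sol h).2.1⟩, (hs.sol h).2.2.2⟩
  rcases ev_or.1 (hbA.mono fun ω h => hs.ep_off h.1 h.2) with h | h
  · refine ep hG hθ hc hF hP hb hin hne hi hs.df (.inl rfl) hsol ?_
    rw [← ev_sub]
    exact ep_inf_of_tendsto hs.dD ((hc.df _ (by omega) _ hlo).sub hs.df) hb hi hD
      (h.mono fun ω h => hs.tendsto_bot
        ((hc.an _ (by omega) _ hlo).continuousOn.mono hA) ho hlt h)
  · refine ep hG hθ hc hF hP hb hin hne hi hs.df (.inr rfl) hsol ?_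
    rw [← ev_sub]
    exact ep_inf_of_tendsto hs.dD ((hc.df _ (by omega) _ hhi).sub hs.df) hb hi hD
      (h.mono fun ω h => hs.tendsto_top
        ((hc.an _ (by omega) _ hhi).continuousOn.mono hA) ho hlt h)

end Pool.Agent.Lib.MP_1a1eb7_lc
end

-- part Pool.Agent.Lib.MP_1a1eb7_lc.Slice
section

/-! C7b: real analysis of side sets and slices. -/

namespace Pool.Agent.Lib.MP_1a1eb7_lc

open Set Filter Topology Pool.Agent.Shared.OMin
open Ordinal (omega0)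

variable {S : OStr} {Γ : Sys} {θ θ₁ θ₂ τ : ℕ → Ordinal.{0}} {P Q Z Z' y : ℕ → U} {n m k r N : ℕ}
  {E E' : ℕ → Fld} {c c' : Ctx} {α β γ : Ordinal.{0}} {K K₀ K₀' K₁ K₂ K' : Fld}

section
variable {A D : Set (Fin n → ℝ)} {g h f e e' : Fn n} {F : ℕ → Fn (n + 1)}
  {Bp Bm B : Set ((Fin n → ℝ) × ℝ)}

/-- the strip between the end `e` and the function `e'` -/
def strip {n : ℕ} (A : Set (Fin n → ℝ)) (e e' : Fn n) : Set (Fin (n + 1) → ℝ) :=
  {z | Fin.init z ∈ A ∧ z (Fin.last n) ∈ uIoo (e (Fin.init z)) (e' (Fin.init z))}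

theorem slice_mem_strip {x : Fin n → ℝ} {w : ℝ} :
    (Fin.snoc x w : Fin (n + 1) → ℝ) ∈ strip A e e' ↔ x ∈ A ∧ w ∈ uIoo (e x) (e' x) := by
  simp [strip]

/-- arcs parallel to the graph of `e` over a coordinate segment -/
theorem Sep.slice_arc (hs : Sep S A g h F D f Bp Bm) (ae : AnalyticOnNhd ℝ e A) {i : ℕ}
    (hi : i < n) {x : Fin n → ℝ} {ν t τ : ℝ} (ht : 0 < t)
    (hb : ∀ s ∈ Icc 0 t, (x + (ν * s) • uv n i, e (x + (ν * s) • uv n i) + τ) ∈ bnd A g h) :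
    ((∀ s ∈ Icc 0 t, 0 < ν * (pdv e i (x + (ν * s) • uv n i) -
        F i (Fin.snoc (x + (ν * s) • uv n i) (e (x + (ν * s) • uv n i) + τ)))) →
      (x, e x + τ) ∉ Bm → (x + (ν * t) • uv n i, e (x + (ν * t) • uv n i) + τ) ∈ Bp) ∧
    ((∀ s ∈ Icc 0 t, ν * (pdv e i (x + (ν * s) • uv n i) -
        F i (Fin.snoc (x + (ν * s) • uv n i) (e (x + (ν * s) • uv n i) + τ))) < 0) →
      (x, e x + τ) ∉ Bp → (x + (ν * t) • uv n i, e (x + (ν * t) • uv n i) + τ) ∈ Bm) ∧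
    ((∀ s ∈ Icc 0 t, pdv e i (x + (ν * s) • uv n i) -
        F i (Fin.snoc (x + (ν * s) • uv n i) (e (x + (ν * s) • uv n i) + τ)) = 0) →
      ((x, e x + τ) ∈ Bp → (x + (ν * t) • uv n i, e (x + (ν * t) • uv n i) + τ) ∈ Bp) ∧
      ((x, e x + τ) ∈ Bm → (x + (ν * t) • uv n i, e (x + (ν * t) • uv n i) + τ) ∈ Bm)) := by
  let l : ℝ → Fin n → ℝ := fun s => x + (ν * s) • uv n i
  let G : ℝ → (Fin n → ℝ) × ℝ := fun s => (l s, e (l s) + τ)
  let G' : ℝ → (Fin n → ℝ) × ℝ := fun s => (ν • uv n i, ν * pdv e i (l s))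
  have hl : ∀ s, HasDerivAt l (ν • uv n i) s := fun s => by
    have := (((hasDerivAt_id s).const_mul ν).smul_const (uv n i)).const_add x
    rw [mul_one] at this
    exact this
  have hG : ∀ s ∈ Icc 0 t, HasDerivAt G (G' s) s := fun s hs' => by
    have h1 := ((ae _ (hb s hs').1).differentiableAt.hasFDerivAt.comp_hasDerivAt s
      (hl s)).add_const τ
    rw [map_smul, smul_eq_mul] at h1
    exact (hl s).prodMk h1
  have hF : ∀ s, formOf F (G s) (G' s).1 = ν * F i (Fin.snoc (l s) (e (l s) + τ)) := fun s => by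
    simp only [G, G', map_smul, ep_formOf_uv _ _ hi, smul_eq_mul]
  have h0 : G 0 = (x, e x + τ) := by simp [G, l]
  refine ⟨fun h1 h2 => ?_, fun h1 h2 => ?_, fun h1 => ?_⟩
  · exact hs.rolle.cross_pos (γ := G) (γ' := G') ht (fun s hs' => ⟨hb s hs', hG s hs', by
      have := h1 s hs'
      rw [hF]
      simp only [G']
      linarith⟩) (h0 ▸ h2)
  · exact hs.rolle.cross_neg (γ := G) (γ' := G') ht (fun s hs' => ⟨hb s hs', hG s hs', by
      have := h1 s hs'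
      rw [hF]
      simp only [G']
      linarith⟩) (h0 ▸ h2)
  · have hc : ContinuousOn G' (Icc 0 t) :=
      continuousOn_const.prodMk (continuousOn_const.mul
        ((analyticOnNhd_pdv ae i).continuousOn.comp
          (fun s _ => (hl s).continuousAt.continuousWithinAt) fun s hs' => (hb s hs').1))
    have := hs.rolle.tangent (γ := G) (γ' := G') ht.le hc (fun s hs' => ⟨hb s hs', hG s hs', by
      have := h1 s hs'
      rw [hF]
      simp only [G']
      rw [sub_eq_zero.1 this]⟩)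
    rw [h0] at this
    exact ⟨this.1.1, this.2.1⟩

theorem Sep.slice_top_of (hs : Sep S A g h F D f Bp Bm) {x : Fin n → ℝ} (hx : x ∈ A)
    (h1 : ∀ᶠ τ in 𝓝[>] (0 : ℝ), (x, h x + -τ) ∈ Bm) : x ∈ sideSet A g h Bm := by
  by_cases hD : x ∈ D
  · have h2 : ∀ᶠ τ in 𝓝[>] (0 : ℝ), τ < h x - f x :=
      nhdsWithin_le_nhds (gt_mem_nhds (sub_pos.2 (hs.sol hD).2.1))
    obtain ⟨τ, h3, h4⟩ := (h1.and h2).exists
    exact (disjoint_left.1 hs.rolle.disj
      ((hs.above x hD _ (hs.ep_m_sub h3).1).1 (by linarith)) h3).elim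
  · obtain ⟨τ, h3⟩ := h1.exists
    exact (hs.ep_off hx hD).resolve_left fun h4 =>
      disjoint_left.1 hs.rolle.disj (h4.2 _ (hs.ep_m_sub h3).1) h3

theorem Sep.slice_bot_of (hs : Sep S A g h F D f Bp Bm) {x : Fin n → ℝ} (hx : x ∈ A)
    (h1 : ∀ᶠ τ in 𝓝[>] (0 : ℝ), (x, g x + τ) ∈ Bp) : x ∈ sideSet A g h Bp := by
  by_cases hD : x ∈ D
  · have h2 : ∀ᶠ τ in 𝓝[>] (0 : ℝ), τ < f x - g x :=
      nhdsWithin_le_nhds (gt_mem_nhds (sub_pos.2 (hs.sol hD).1))
    obtain ⟨τ, h3, h4⟩ := (h1.and h2).exists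
    exact (disjoint_left.1 hs.rolle.disj h3
      ((hs.above x hD _ (hs.ep_p_sub h3).1).2 (by linarith))).elim
  · obtain ⟨τ, h3⟩ := h1.exists
    exact (hs.ep_off hx hD).resolve_right fun h4 =>
      disjoint_left.1 hs.rolle.disj h3 (h4.2 _ (hs.ep_p_sub h3).1)

theorem slice_small {u : Fn n} (hu : ContinuousOn u A) (h0 : ∀ x ∈ A, 0 < u x) {l : ℝ → Fin n → ℝ}
    (hl : Continuous l) {t : ℝ} (ht : 0 ≤ t) (hA : ∀ s ∈ Icc 0 t, l s ∈ A) :
    ∀ᶠ τ in 𝓝[>] (0 : ℝ), 0 < τ ∧ ∀ s ∈ Icc 0 t, τ < u (l s) := by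
  obtain ⟨s0, hs0, hm⟩ := isCompact_Icc.exists_isMinOn (nonempty_Icc.2 ht)
    (hu.comp hl.continuousOn hA)
  filter_upwards [self_mem_nhdsWithin, nhdsWithin_le_nhds (gt_mem_nhds (h0 _ (hA s0 hs0)))]
    with τ h1 h2
  exact ⟨h1, fun s hs => h2.trans_le (hm hs)⟩

set_option linter.unusedVariables false in
/-- Monotonicity of the side set along coordinate segments. Top case: follow the arc
`w = h - τ` for small `τ`; its slope minus the form is `pdv h i - F i`; use cross_neg or tangent.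
`ν` is the direction in which the side set is closed. -/
theorem Sep.side_mono (hs : Sep S A g h F D f Bp Bm) (hA : IsOpen A)
    (ag : AnalyticOnNhd ℝ g A) (ah : AnalyticOnNhd ℝ h A) (hlt : ∀ x ∈ A, g x < h x)
    (he : (e = h ∧ B = Bm) ∨ (e = g ∧ B = Bp)) (ce : ContinuousOn e' A)
    (he' : ∀ x ∈ A, g x ≤ e' x ∧ e' x ≤ h x ∧ e' x ≠ e x) {i : ℕ}
    (ht : Tri (fun z => pdv e i (Fin.init z) - F i z) (strip A e e')) :
    ∃ ν : ℝ, (ν = 1 ∨ ν = -1) ∧ ∀ x ∈ sideSet A g h B, ∀ t : ℝ, 0 ≤ t →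
      (∀ s ∈ Icc 0 t, x + (ν * s) • uv n i ∈ A) → x + (ν * t) • uv n i ∈ sideSet A g h B := by
  by_cases hi : i < n
  swap
  · have : uv n i = 0 := funext fun j => if_neg fun hj : (j : ℕ) = i => hi (hj ▸ j.2)
    exact ⟨1, .inl rfl, fun x hx t _ _ => by simpa [this] using hx⟩
  have hl : ∀ (x : Fin n → ℝ) (ν : ℝ), Continuous fun s : ℝ => x + (ν * s) • uv n i :=
    fun x ν => by fun_prop
  rcases he with ⟨rfl, rfl⟩ | ⟨rfl, rfl⟩
  · have key : ∀ ν : ℝ, ((∀ z ∈ strip A e e', ν * (pdv e i (Fin.init z) - F i z) < 0) ∨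
        ∀ z ∈ strip A e e', pdv e i (Fin.init z) - F i z = 0) → ∀ x ∈ sideSet A g e B,
        ∀ t : ℝ, 0 ≤ t → (∀ s ∈ Icc 0 t, x + (ν * s) • uv n i ∈ A) →
          x + (ν * t) • uv n i ∈ sideSet A g e B := by
      intro ν hν x hx t h0 hseg
      rcases h0.eq_or_lt with rfl | h0'
      · simpa using hx
      refine hs.slice_top_of (hseg t (right_mem_Icc.2 h0)) ?_
      filter_upwards [slice_small (u := fun x => e x - e' x) (ah.continuousOn.sub ce)
        (fun x hx => sub_pos.2 (lt_of_le_of_ne (he' x hx).2.1 (he' x hx).2.2)) (hl x ν) h0 hseg]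
        with τ ⟨h1, h2⟩
      have hb : ∀ s ∈ Icc 0 t, (x + (ν * s) • uv n i, e (x + (ν * s) • uv n i) + -τ) ∈
          bnd A g e := fun s hs' => ⟨hseg s hs', by
            have := h2 s hs'
            have := (he' _ (hseg s hs')).1
            dsimp only
            linarith, by dsimp only; linarith⟩
      have hst : ∀ s ∈ Icc 0 t, (Fin.snoc (x + (ν * s) • uv n i)
          (e (x + (ν * s) • uv n i) + -τ) : Fin (n + 1) → ℝ) ∈ strip A e e' := fun s hs' =>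
        slice_mem_strip.2 ⟨hseg s hs', mem_uIoo_of_gt (by linarith [h2 s hs']) (by linarith)⟩
      have hx0 : (x, e x + -τ) ∈ B := hx.2 _ (by simpa using hb 0 (left_mem_Icc.2 h0))
      obtain ⟨-, a2, a3⟩ := hs.slice_arc ah hi h0' hb
      rcases hν with hν | hν
      · exact a2 (fun s hs' => by simpa using hν _ (hst s hs'))
          fun h3 => disjoint_left.1 hs.rolle.disj h3 hx0
      · exact (a3 fun s hs' => by simpa using hν _ (hst s hs')).2 hx0
    rcases ht with ht | ht | ht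
    · exact ⟨-1, .inr rfl, key _ (.inl fun z hz => by linarith [ht z hz])⟩
    · exact ⟨1, .inl rfl, key _ (.inr ht)⟩
    · exact ⟨1, .inl rfl, key _ (.inl fun z hz => by linarith [ht z hz])⟩
  · have key : ∀ ν : ℝ, ((∀ z ∈ strip A e e', 0 < ν * (pdv e i (Fin.init z) - F i z)) ∨
        ∀ z ∈ strip A e e', pdv e i (Fin.init z) - F i z = 0) → ∀ x ∈ sideSet A e h B,
        ∀ t : ℝ, 0 ≤ t → (∀ s ∈ Icc 0 t, x + (ν * s) • uv n i ∈ A) →
          x + (ν * t) • uv n i ∈ sideSet A e h B := by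
      intro ν hν x hx t h0 hseg
      rcases h0.eq_or_lt with rfl | h0'
      · simpa using hx
      refine hs.slice_bot_of (hseg t (right_mem_Icc.2 h0)) ?_
      filter_upwards [slice_small (u := fun x => e' x - e x) (ce.sub ag.continuousOn)
        (fun x hx => sub_pos.2 (lt_of_le_of_ne (he' x hx).1 (he' x hx).2.2.symm)) (hl x ν) h0 hseg]
        with τ ⟨h1, h2⟩
      have hb : ∀ s ∈ Icc 0 t, (x + (ν * s) • uv n i, e (x + (ν * s) • uv n i) + τ) ∈
          bnd A e h := fun s hs' => ⟨hseg s hs', by dsimp only; linarith, by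
            have := h2 s hs'
            have := (he' _ (hseg s hs')).2.1
            dsimp only
            linarith⟩
      have hst : ∀ s ∈ Icc 0 t, (Fin.snoc (x + (ν * s) • uv n i)
          (e (x + (ν * s) • uv n i) + τ) : Fin (n + 1) → ℝ) ∈ strip A e e' := fun s hs' =>
        slice_mem_strip.2 ⟨hseg s hs', mem_uIoo_of_lt (by linarith) (by linarith [h2 s hs'])⟩
      have hx0 : (x, e x + τ) ∈ B := hx.2 _ (by simpa using hb 0 (left_mem_Icc.2 h0))
      obtain ⟨a1, -, a3⟩ := hs.slice_arc ag hi h0' hb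
      rcases hν with hν | hν
      · exact a1 (fun s hs' => by simpa using hν _ (hst s hs'))
          fun h3 => disjoint_left.1 hs.rolle.disj hx0 h3
      · exact (a3 fun s hs' => by simpa using hν _ (hst s hs')).1 hx0
    rcases ht with ht | ht | ht
    · exact ⟨1, .inl rfl, key _ (.inl fun z hz => by linarith [ht z hz])⟩
    · exact ⟨1, .inl rfl, key _ (.inr ht)⟩
    · exact ⟨-1, .inr rfl, key _ (.inl fun z hz => by linarith [ht z hz])⟩

theorem Sep.side_fat (hs : Sep S A g h F D f Bp Bm) (hA : IsOpen A)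
    (ag : AnalyticOnNhd ℝ g A) (ah : AnalyticOnNhd ℝ h A) (hlt : ∀ x ∈ A, g x < h x)
    (he : (e = h ∧ B = Bm) ∨ (e = g ∧ B = Bp)) (ce : ContinuousOn e' A)
    (he' : ∀ x ∈ A, g x ≤ e' x ∧ e' x ≤ h x ∧ e' x ≠ e x)
    (ht : ∀ i < n, Tri (fun z => pdv e i (Fin.init z) - F i z) (strip A e e')) :
    Fat (sideSet A g h B) := by
  choose ν hν hm using fun i : Fin n => hs.side_mono hA ag ah hlt he ce he' (ht i i.2)
  intro x hx
  refine ⟨ν, hν, ?_⟩
  obtain ⟨ρ, hρ, hball⟩ := Metric.isOpen_iff.1 hA x hx.1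
  filter_upwards [Metric.ball_mem_nhds x hρ] with u hu h0
  have hu' : ∀ j, |u j - x j| < ρ := fun j =>
    Real.dist_eq _ _ ▸ (dist_pi_lt_iff hρ).1 hu j
  have key : ∀ k ≤ n, (fun j : Fin n => if (j : ℕ) < k then u j else x j) ∈ sideSet A g h B := by
    intro k
    induction k with
    | zero => intro _; simpa using hx
    | succ k ih =>
      intro hk
      let j0 : Fin n := ⟨k, hk⟩
      have h2 : ν j0 * ν j0 = 1 := by rcases hν j0 with h | h <;> simp [h]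
      have h3 : |ν j0| = 1 := by rcases hν j0 with h | h <;> simp [h]
      have := hm j0 _ (ih (by omega)) _ (h0 j0) fun s hs' => hball ?_
      · convert this using 1
        funext j
        rcases lt_trichotomy (j : ℕ) k with h | h | h
        · simp [uv, j0, h, h.ne, h.trans k.lt_succ_self]
        · obtain rfl : j = j0 := Fin.ext h
          simp [uv, j0, ← mul_assoc, h2]
        · simp [uv, j0, h.ne', h.not_gt, show ¬ (j : ℕ) < k + 1 by omega]
      · refine (dist_pi_lt_iff hρ).2 fun j => ?_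
        rw [Real.dist_eq]
        rcases lt_trichotomy (j : ℕ) k with h | h | h
        · simpa [uv, j0, h, h.ne] using hu' j
        · obtain rfl : j = j0 := Fin.ext h
          have h4 : |s| ≤ |u j0 - x j0| := by
            rw [abs_of_nonneg hs'.1]
            refine hs'.2.trans ((le_abs_self _).trans_eq ?_)
            rw [abs_mul, h3, one_mul]
          simpa [uv, j0, abs_mul, h3] using h4.trans_lt (hu' j0)
        · simpa [uv, j0, h.ne', h.not_gt] using hρ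
  simpa using key n le_rfl

end

/-- restriction of a level `n+1` function to the graph of `s` -/
def slc {n : ℕ} (s : Fn n) (G : Fn (n + 1)) : Fn n := fun x => G (Fin.snoc x (s x))

/-- restriction of a level `n+2` function to the slice over the graph of `s` -/
def slc₂ {n : ℕ} (s : Fn n) (G : Fn (n + 2)) : Fn (n + 1) := fun z =>
  G (Fin.snoc (Fin.snoc (Fin.init z) (s (Fin.init z)) : Fin (n + 1) → ℝ) (z (Fin.last n)))

/-- the sliced system -/
noncomputable def slcF {n : ℕ} (s : Fn n) (F : ℕ → Fn (n + 2)) : ℕ → Fn (n + 1) := fun i z =>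
  slc₂ s (F i) z + slc₂ s (F n) z * pdv s i (Fin.init z)

theorem slice_analyticAt_snoc {X : Type} [NormedAddCommGroup X] [NormedSpace ℝ X]
    {u : X → Fin n → ℝ} {v : X → ℝ} {x : X} (hu : AnalyticAt ℝ u x) (hv : AnalyticAt ℝ v x) :
    AnalyticAt ℝ (fun x => (Fin.snoc (u x) (v x) : Fin (n + 1) → ℝ)) x := by
  refine analyticAt_pi_iff.2 fun j => ?_
  refine Fin.lastCases ?_ (fun j => ?_) j
  · simpa using hv
  · simpa using analyticAt_pi_iff.1 hu j

theorem slice_analyticAt_init (z : Fin (n + 1) → ℝ) :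
    AnalyticAt ℝ (fun z : Fin (n + 1) → ℝ => Fin.init z) z :=
  analyticAt_pi_iff.2 fun j => analyticAt_pi_iff.1 analyticAt_id j.castSucc

theorem slice_fderiv_eq (s : Fn n) (x v : Fin n → ℝ) :
    fderiv ℝ s x v = ∑ i : Fin n, pdv s i x * v i := by
  have : v = ∑ i : Fin n, v i • uv n i := by
    funext j
    simp [uv, Finset.sum_apply, Fin.val_inj]
  conv_lhs => rw [this]
  simp [pdv, mul_comm]

/-- derivative of the graph map -/
noncomputable def sliceD (s : Fn n) (x : Fin n → ℝ) : (Fin n → ℝ) →L[ℝ] (Fin (n + 1) → ℝ) :=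
  ContinuousLinearMap.pi fun j => Fin.lastCases (fderiv ℝ s x)
    (fun j => ContinuousLinearMap.proj (R := ℝ) (φ := fun _ => ℝ) j) j

theorem slice_hasFDerivAt {s : Fn n} {x : Fin n → ℝ} (hs : DifferentiableAt ℝ s x) :
    HasFDerivAt (fun x => (Fin.snoc x (s x) : Fin (n + 1) → ℝ)) (sliceD s x) x := by
  refine hasFDerivAt_pi.2 fun j => ?_
  refine Fin.lastCases ?_ (fun j => ?_) j
  · simpa using hs.hasFDerivAt
  · simpa using hasFDerivAt_apply j x

theorem slice_formOf (s : Fn n) (F : ℕ → Fn (n + 2)) (p : (Fin n → ℝ) × ℝ) :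
    formOf (slcF s F) p = (formOf F (Fin.snoc p.1 (s p.1), p.2)).comp (sliceD s p.1) := by
  ext1 v
  rw [ContinuousLinearMap.comp_apply, ep_formOf_apply, ep_formOf_apply, Fin.sum_univ_castSucc]
  simp [sliceD, slcF, slc₂, slice_fderiv_eq, add_mul, Finset.sum_add_distrib, Finset.mul_sum,
    mul_assoc]

theorem Sep.slice {A D : Set (Fin (n + 1) → ℝ)} {g h f : Fn (n + 1)} {F : ℕ → Fn (n + 2)}
    {Bp Bm : Set ((Fin (n + 1) → ℝ) × ℝ)} (hs : Sep S A g h F D f Bp Bm) {V : Set (Fin n → ℝ)}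
    (hV : IsOpen V) (dV : DP S fun x => x ∈ V) {s : Fn n} (ds : DF S s)
    (as : AnalyticOnNhd ℝ s V) (hm : ∀ x ∈ V, Fin.snoc x (s x) ∈ A) :
    Sep S V (slc s g) (slc s h) (slcF s F) {x | x ∈ V ∧ Fin.snoc x (s x) ∈ D} (slc s f)
      {p | p.1 ∈ V ∧ (Fin.snoc p.1 (s p.1), p.2) ∈ Bp}
      {p | p.1 ∈ V ∧ (Fin.snoc p.1 (s p.1), p.2) ∈ Bm} := by
  let σ : (Fin n → ℝ) → Fin (n + 1) → ℝ := fun x => Fin.snoc x (s x)
  let Φ : (Fin n → ℝ) × ℝ → (Fin (n + 1) → ℝ) × ℝ := fun p => (σ p.1, p.2)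
  have aσ : ∀ x ∈ V, AnalyticAt ℝ σ x := fun x hx => slice_analyticAt_snoc analyticAt_id (as x hx)
  have aΦ : ∀ p : (Fin n → ℝ) × ℝ, p.1 ∈ V → AnalyticAt ℝ Φ p := fun p hp =>
    ((aσ _ hp).comp analyticAt_fst).prod analyticAt_snd
  have ho : IsOpen {p : (Fin n → ℝ) × ℝ | p.1 ∈ V} := hV.preimage continuous_fst
  have hop : ∀ {B}, IsOpen B → IsOpen {p : (Fin n → ℝ) × ℝ | p.1 ∈ V ∧ Φ p ∈ B} := fun hB =>
    ContinuousOn.isOpen_inter_preimage (s := {p : (Fin n → ℝ) × ℝ | p.1 ∈ V})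
      (fun p hp => (aΦ p hp).continuousAt.continuousWithinAt) ho hB
  have e : bnd V (slc s g) (slc s h) = {p | p.1 ∈ V ∧ Φ p ∈ bnd A g h} :=
    Set.ext fun p => ⟨fun hp => ⟨hp.1, hm _ hp.1, hp.2⟩, fun hp => ⟨hp.1, hp.2.2⟩⟩
  have hb : ∀ {p}, p ∈ bnd V (slc s g) (slc s h) → Φ p ∈ bnd A g h := fun hp => (e ▸ hp).2
  have hF : ∀ i < n + 1, ContDiffOn ℝ 1 (fun p : (Fin n → ℝ) × ℝ =>
      F i (Fin.snoc (σ p.1) p.2)) (bnd V (slc s g) (slc s h)) := fun i hi => by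
    have h1 : ContDiffOn ℝ 1 (fun p => formOf F (Φ p) (uv (n + 1) i))
        (bnd V (slc s g) (slc s h)) :=
      (hs.rolle.smooth.comp (fun p hp => (aΦ p hp.1).contDiffAt.contDiffWithinAt)
        fun p hp => hb hp).clm_apply contDiffOn_const
    simpa only [ep_formOf_uv _ _ hi] using h1
  refine ⟨⟨e ▸ hop hs.rolle.openO, ?_, ContinuousOn.isOpen_inter_preimage (f := σ)
    (fun x hx => (aσ x hx).continuousAt.continuousWithinAt) hV hs.rolle.openD,
    fun x hx => ⟨hx.1, (hs.rolle.mem _ hx.2).2⟩, fun x hx => ?_, hop hs.rolle.openp,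
    hop hs.rolle.openm, disjoint_left.2 fun p h1 h2 => disjoint_left.1 hs.rolle.disj h1.2 h2.2,
    fun p => ?_, fun x hx => ?_⟩, dV.and (hs.dD.mem (DF.id'.snoc ds)),
    hs.df.comp (g := σ) (DF.id'.snoc ds), fun x hx w hw => ?_, fun x hx hD => ?_⟩
  · refine ContDiffOn.sum fun i _ => ContDiffOn.smul_const ?_ _
    simp only [slcF, slc₂, Fin.init_snoc, Fin.snoc_last]
    exact (hF i (by omega)).add ((hF n (by omega)).mul fun p hp =>
      ((analyticOnNhd_pdv as i _ hp.1).comp analyticAt_fst).contDiffAt.contDiffWithinAt)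
  · rw [slice_formOf]
    exact (hs.rolle.deriv _ hx.2).comp x (slice_hasFDerivAt (as x hx.1).differentiableAt)
  · have := hs.rolle.cover (Φ p)
    rw [e]
    simp only [mem_union, mem_ofPred_eq, slc, Φ, σ] at this ⊢
    tauto
  · filter_upwards [(aΦ (x, slc s f x) hx.1).continuousAt.eventually (hs.rolle.side _ hx.2),
      ho.mem_nhds (show (x, slc s f x) ∈ _ from hx.1)] with p h1 h2
    exact ⟨fun h3 => ⟨h2, h1.1 h3⟩, fun h3 => ⟨h2, h1.2 h3⟩⟩
  · have := hs.above _ hx.2 w (hb hw)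
    exact ⟨fun h3 => ⟨hx.1, this.1 h3⟩, fun h3 => ⟨hx.1, this.2 h3⟩⟩
  · exact (hs.off _ (hm x hx) fun h1 => hD ⟨hx, h1⟩).imp
      (fun h1 w hw => ⟨hx, h1 w (hb hw)⟩) fun h1 w hw => ⟨hx, h1 w (hb hw)⟩

theorem slice_tp (s : Fn n) (y : ℕ → U) :
    ∀ᶠ ω in 𝔲, tp (upd y n (ev s y)) (n + 1) ω = Fin.snoc (tp y n ω) (s (tp y n ω)) := by
  filter_upwards [out_ev s y] with ω h
  rw [tp_upd, h]

theorem slice_tp₂ (s : Fn n) (y : ℕ → U) :
    ∀ᶠ ω in 𝔲, tp (upd (upd y n (ev s y)) (n + 1) (y n)) (n + 2) ω =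
      Fin.snoc (Fin.snoc (tp y n ω) (s (tp y n ω)) : Fin (n + 1) → ℝ) (out (y n) ω) := by
  filter_upwards [slice_tp s y] with ω h
  rw [tp_upd, h]

theorem ev_slc (s : Fn n) (G : Fn (n + 1)) (y : ℕ → U) :
    ev (slc s G) y = ev G (upd y n (ev s y)) := ev_eq (by
  filter_upwards [out_ev G (upd y n (ev s y)), slice_tp s y] with ω h1 h2
  rw [h1, h2]
  rfl)

theorem ev_slc₂ (s : Fn n) (G : Fn (n + 2)) (y : ℕ → U) :
    ev (slc₂ s G) y = ev G (upd (upd y n (ev s y)) (n + 1) (y n)) := ev_eq (by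
  filter_upwards [out_ev G (upd (upd y n (ev s y)) (n + 1) (y n)), slice_tp₂ s y] with ω h1 h2
  rw [h1, h2]
  rfl)

theorem slice_cell_mk (c : Ctx) (G : ∀ k, Set (Fn k)) :
    ∀ k, (⟨c.lo, c.hi, G⟩ : Ctx).cell k = c.cell k
  | 0 => rfl
  | k + 1 => by
    simp only [Ctx.cell]
    rw [slice_cell_mk c G k]

/-- The sliced context over `c'`: at level `n` add the slices of the level `n+1` functions of `c`
(Sem.addGens, SChain of `c` at the point `upd y n (ev s y)`, CloFrom.add_lt), at level `n+1` put the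
slices of the level `n+2` functions and the sliced system. -/
theorem Sem.slice (hθ : Clo θ) (hc : Sem S θ c (n + 2)) (hc' : Sem S θ c' n) (hle : c'.Le c n)
    {s : Fn n} (hs : s ∈ c'.gens n) (hd : ∀ i < n, ∃ d ∈ c'.gens n, EqOn d (pdv s i) (c'.cell n))
    (hm : ∀ x ∈ c'.cell n, Fin.snoc x (s x) ∈ c.cell (n + 1)) {F : ℕ → Fn (n + 2)}
    (hF : ∀ i < n + 1, F i ∈ c.gens (n + 2)) (hP : Pt S θ c' P n E) :
    ∃ (c₁ : Ctx) (E' : ℕ → Fld), Sem S θ c₁ (n + 1) ∧ c₁.Le c' n ∧ c₁.cell n = c'.cell n ∧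
      c₁.lo n = slc s (c.lo (n + 1)) ∧ c₁.hi n = slc s (c.hi (n + 1)) ∧
      (∀ G ∈ c.gens (n + 1), slc s G ∈ c₁.gens n) ∧
      (∀ G ∈ c.gens (n + 2), slc₂ s G ∈ c₁.gens (n + 1)) ∧
      (∀ i < n, slcF s F i ∈ c₁.gens (n + 1)) ∧ Pt S θ c₁ P n E' ∧ Ext E E' n := by
  obtain ⟨α₁, hα₁, ch₁⟩ := hc.chain (n + 1) (by omega)
  obtain ⟨α₂, hα₂, ch₂⟩ := hc.chain (n + 2) le_rfl
  have ds := hc'.df n le_rfl s hs
  have as := hc'.an n le_rfl s hs
  have hγ : α₁ < omega0 ^ θ (n + 1) :=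
    hα₁.trans_le (Ordinal.right_le_opow _ Ordinal.one_lt_omega0)
  have hch : ∀ (P : ℕ → U) (m : ℕ) (y : ℕ → U) (K : Fld), Gen S P m → DFld S P m K →
      (∀ i < n, y i ∈ K) → c'.Has n y → (∀ j ≤ n, c'.Vals j y K) →
      ∃ K', Pres S P m K K' α₁ ∧ ∀ φ ∈ slc s '' c.gens (n + 1), ev φ y ∈ K' := by
    intro P m y K h1 h2 h3 h4 h5
    obtain ⟨K', h6, h7⟩ := ch₁ P m (upd y n (ev s y)) K h1 h2 (fun i hi => by
      rcases (Nat.lt_succ_iff.1 hi).lt_or_eq with hi | rfl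
      · rw [upd_of_ne hi.ne]; exact h3 i hi
      · rw [upd_self]; exact h5 _ le_rfl s hs) (by
        filter_upwards [h4, slice_tp s y] with ω h6 h7
        rw [h7]
        exact hm _ h6) fun j hj φ hφ => by
          rw [((agree_upd _).mono (by omega : j ≤ n)).ev_eq]
          exact h5 j (by omega) φ ((hle j (by omega)).2 hφ)
    refine ⟨K', h6, ?_⟩
    rintro _ ⟨G, hG, rfl⟩
    rw [ev_slc]
    exact h7 G hG
  let c₀ : Ctx := ⟨c'.lo, c'.hi, Function.update c'.gens n (c'.gens n ∪ slc s '' c.gens (n + 1))⟩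
  have cell₀ : ∀ k, c₀.cell k = c'.cell k := slice_cell_mk c' _
  have gens₀ : c₀.gens n = c'.gens n ∪ slc s '' c.gens (n + 1) := Function.update_self ..
  have gens₀' : ∀ k < n, c₀.gens k = c'.gens k := fun k hk => Function.update_of_ne hk.ne ..
  have sub₀ : ∀ k ≤ n, c'.gens k ⊆ c₀.gens k := fun k hk => by
    rcases hk.lt_or_eq with hk | rfl
    · rw [gens₀' k hk]
    · rw [gens₀]; exact subset_union_left
  have h₀ : Sem S θ c₀ n := hc'.addGens ((hc.fin _ (by omega)).image _) (by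
    rintro _ ⟨G, hG, rfl⟩
    exact ⟨(hc.df _ (by omega) G hG).comp (DF.id'.snoc ds),
      analyticOnNhd_snoc as (hc.an _ (by omega) G hG) hm⟩) (fun _ _ => le_rfl)
    (fun a ha => CloFrom.add_lt hθ (Nat.zero_le n) ha hγ) hch
  let lo := slc s (c.lo (n + 1))
  let hi := slc s (c.hi (n + 1))
  let T : Set (Fn (n + 1)) := slc₂ s '' c.gens (n + 2) ∪ slcF s F '' Iio n
  have hsl : ∀ G ∈ c.gens (n + 1), slc s G ∈ c₀.gens n := fun G hG =>
    gens₀ ▸ Or.inr (mem_image_of_mem _ hG)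
  have hband : ∀ z ∈ band (c₀.cell n) lo hi, (Fin.snoc (Fin.snoc (Fin.init z) (s (Fin.init z)) :
      Fin (n + 1) → ℝ) (z (Fin.last n)) : Fin (n + 2) → ℝ) ∈ c.cell (n + 2) := fun z hz =>
    snoc_mem_band.2 ⟨hm _ (cell₀ n ▸ hz.1), hz.2⟩
  have h2 : ∀ G ∈ c.gens (n + 2), DF S (slc₂ s G) ∧
      AnalyticOnNhd ℝ (slc₂ s G) (band (c₀.cell n) lo hi) := fun G hG =>
    ⟨(hc.df _ le_rfl G hG).comp ((DF.id'.init.snoc (ds.comp DF.id'.init)).snoc (DF.apply _)),
      fun z hz => AnalyticAt.comp (g := G) (f := fun z : Fin (n + 1) → ℝ => Fin.snoc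
        (Fin.snoc (Fin.init z) (s (Fin.init z)) : Fin (n + 1) → ℝ) (z (Fin.last n)))
        (hc.an _ le_rfl G hG _ (hband z hz)) (slice_analyticAt_snoc
        (slice_analyticAt_snoc (slice_analyticAt_init z)
          ((as _ (cell₀ n ▸ hz.1)).comp (slice_analyticAt_init z)))
        (analyticAt_pi_iff.1 analyticAt_id (Fin.last n)))⟩
  have h₁ : Sem S θ (c₀.setTop n lo hi T) (n + 1) := by
    refine h₀.setTop' (hsl _ (hc.lo_mem _ (by omega))) (hsl _ (hc.hi_mem _ (by omega)))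
      (fun x hx => hc.lt (n + 1) (by omega) _ (hm x (cell₀ n ▸ hx)))
      (((hc.fin _ le_rfl).image _).union ((finite_Iio n).image _)) ?_
      (hα₂.trans_le (CloFrom.succ_le hθ (Nat.zero_le (n + 1)) (hc.pos (by omega)))) ?_
    · rintro _ (⟨G, hG, rfl⟩ | ⟨i, hi, rfl⟩)
      · exact h2 G hG
      · obtain ⟨a1, a2⟩ := h2 _ (hF i (by have := mem_Iio.1 hi; omega))
        obtain ⟨b1, b2⟩ := h2 _ (hF n (by omega))
        exact ⟨a1.add (b1.mul ((ds.pdv i).comp (by fun_prop))), a2.add (b2.mul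
          (analyticOnNhd_init (analyticOnNhd_pdv as i) fun z hz => cell₀ n ▸ hz.1))⟩
    · intro P m y K h1 h3 h4 h5 h6
      have h6' : ∀ j ≤ n, c₀.Vals j y K := fun j hj φ hφ =>
        h6 j (by omega) φ (by rwa [Ctx.setTop_gens hj])
      have h5' : At (fun z => z ∈ band (c₀.cell n) lo hi) y := by
        rw [← Ctx.setTop_cell_succ (T := T)]
        exact h5
      have hy : c'.Has n y := h5'.mono fun ω h => cell₀ n ▸ h.1
      have ag : Agree (upd (upd y n (ev s y)) (n + 1) (y n)) (upd y n (ev s y)) (n + 1) :=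
        agree_upd _
      obtain ⟨K', h7, h8⟩ := ch₂ P m (upd (upd y n (ev s y)) (n + 1) (y n)) K h1 h3
        (fun i hi => by
          rcases (Nat.lt_succ_iff.1 hi).lt_or_eq with hi | rfl
          · rw [upd_of_ne hi.ne]
            rcases (Nat.lt_succ_iff.1 hi).lt_or_eq with hi | rfl
            · rw [upd_of_ne hi.ne]; exact h4 i (by omega)
            · rw [upd_self]; exact h6' _ le_rfl s (sub₀ _ le_rfl hs)
          · rw [upd_self]; exact h4 n (by omega)) (by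
          filter_upwards [h5', slice_tp₂ s y] with ω h7 h8
          rw [h8]
          exact hband _ h7) fun j hj φ hφ => by
            rcases (Nat.lt_succ_iff.1 hj).lt_or_eq with hj | rfl
            · rw [(ag.mono hj.le).ev_eq, ((agree_upd _).mono (by omega : j ≤ n)).ev_eq]
              exact h6' j (by omega) φ (sub₀ j (by omega) ((hle j (by omega)).2 hφ))
            · rw [ag.ev_eq, ← ev_slc]
              exact h6' n le_rfl _ (hsl φ hφ)
      refine ⟨K', h7, ?_⟩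
      intro φ hφ
      rw [Ctx.setTop_gens_succ] at hφ
      have h9 : ∀ G ∈ c.gens (n + 2), ev (slc₂ s G) y ∈ K' := fun G hG => by
        rw [ev_slc₂]
        exact h8 G hG
      rcases hφ with ⟨G, hG, rfl⟩ | ⟨i, hi, rfl⟩
      · exact h9 G hG
      · obtain ⟨d, hd1, hd2⟩ := hd i hi
        have e1 : ev (slcF s F i) y = ev (slc₂ s (F i)) y + ev (slc₂ s (F n)) y * ev d y := by
          rw [ev_eq_iff.2 (hy.mono fun ω h => hd2 h), ← ev_init (pdv s i), ← ev_mul, ← ev_add]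
          rfl
        rw [e1]
        exact K'.add_mem (h9 _ (hF i (by have := mem_Iio.1 hi; omega)))
          (K'.mul_mem (h9 _ (hF n (by omega))) (h7.le (h6' n le_rfl d (sub₀ n le_rfl hd1))))
  obtain ⟨K', h3, h4⟩ := hch P n P (E n) hP.tow.gen (hP.tow.dfld le_rfl)
    (fun i hi => hP.tow.mem hi le_rfl) hP.has fun j hj => (hP.vals j hj).mono (hP.tow.le hj le_rfl)
  have hext : Ext E (Function.update E n K') n := fun k hk => by
    rcases hk.lt_or_eq with hk | rfl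
    · rw [Function.update_of_ne hk.ne]
    · rw [Function.update_self]; exact h3.le
  have hP₀ : Pt S θ c₀ P n (Function.update E n K') :=
    ⟨hP.tow.extend_top (CloFrom.mono hθ (Nat.zero_le n)) h3 hγ,
      hP.has.mono fun ω h => (cell₀ n).symm ▸ h, fun k hk φ hφ => by
        rcases hk.lt_or_eq with hk' | rfl
        · exact hext k hk (hP.vals k hk φ (gens₀' k hk' ▸ hφ))
        · rw [gens₀] at hφ
          rcases hφ with hφ | hφ
          · exact hext k hk (hP.vals k hk φ hφ)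
          · rw [Function.update_self]; exact h4 φ hφ⟩
  refine ⟨c₀.setTop n lo hi T, _, h₁, Ctx.setTop_le.trans fun k hk => ⟨(cell₀ k).le, sub₀ k hk⟩,
    (Ctx.setTop_cell le_rfl).trans (cell₀ n), Ctx.setTop_lo, Ctx.setTop_hi, fun G hG => ?_,
    fun G hG => ?_, fun i hi => ?_, hP₀.setTop _ _ _, hext⟩
  · rw [Ctx.setTop_gens le_rfl]; exact hsl G hG
  · rw [Ctx.setTop_gens_succ]; exact .inl (mem_image_of_mem _ hG)
  · rw [Ctx.setTop_gens_succ]; exact .inr (mem_image_of_mem _ hi)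

theorem slice_ends (hc' : Sem S θ c' (n + 1)) (hle : c'.Le c (n + 1)) {x : Fin n → ℝ}
    (hx : x ∈ c'.cell n) : c.lo n x ≤ c'.lo n x ∧ c'.lo n x < c'.hi n x ∧ c'.hi n x ≤ c.hi n x := by
  have h1 := (hc'.lt n n.lt_succ_self x hx).2.1
  have h2 := (Ioo_subset_Ioo_iff h1).1 fun t ht =>
    (snoc_mem_band.1 ((hle (n + 1) le_rfl).1 (snoc_mem_band.2 ⟨hx, ht⟩))).2
  exact ⟨h2.1, h1, h2.2⟩

/-- a strip along an end of the top cell on which finitely many functions have constant sign: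
Main.top at the point `upd P n (e(P) -+ ε)`, Sem.keep_end -/
theorem exists_strip (hM : Main S Γ θ) (hc : Sem S θ c (n + 1)) (hP : Pt S θ c P n E) {e : Fn n}
    (he : e = c.lo n ∨ e = c.hi n) {T : Set (Fn (n + 1))} (hT : T.Finite)
    (hd : ∀ χ ∈ T, DF S χ ∧ AnalyticOnNhd ℝ χ (c.cell (n + 1)) ∧
      ∀ (w : U) (E' : ℕ → Fld), Pt S θ c (upd P n w) (n + 1) E' → ev χ (upd P n w) ∈ E' (n + 1)) :
    ∃ (c' : Ctx) (E' : ℕ → Fld) (e' : Fn n), Sem S θ c' n ∧ Pt S θ c' P n E' ∧ Ext E E' n ∧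
      c'.Le c n ∧ e' ∈ c'.gens n ∧
      (∀ x ∈ c'.cell n, c.lo n x ≤ e' x ∧ e' x ≤ c.hi n x ∧ e' x ≠ e x) ∧
      ∀ χ ∈ T, Tri χ (strip (c'.cell n) e e') := by
  obtain ⟨ε, h0, hε⟩ := exists_inf S P n
  have hlo : ev (c.lo n) P ∈ dcl S P n :=
    ev_mem_dcl (hc.df n n.le_succ _ (hc.lo_mem n n.lt_succ_self))
  have hhi : ev (c.hi n) P ∈ dcl S P n :=
    ev_mem_dcl (hc.df n n.le_succ _ (hc.hi_mem n n.lt_succ_self))
  have hlt : ev (c.lo n) P < ev (c.hi n) P :=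
    ev_lt_iff.2 (hP.has.mono fun ω h => (hc.lt n n.lt_succ_self _ h).2.1)
  have hε' : ε < ev (c.hi n) P - ev (c.lo n) P :=
    (le_abs_self _).trans_lt (hε _ ((dcl S P n).sub_mem hhi hlo) (sub_pos.2 hlt))
  have key : ∀ w ρ : U, ρ ∈ dcl S P n → Inf (dcl S P n) (w - ρ) → w ≠ ρ → ev (c.lo n) P < w →
      w < ev (c.hi n) P → ∃ (c' : Ctx) (E' : ℕ → Fld), Sem S θ c' (n + 1) ∧ Pt S θ c' P n E' ∧
        Ext E E' n ∧ c'.Le c (n + 1) ∧ (∀ χ ∈ T, Tri χ (c'.cell (n + 1))) ∧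
        (ρ = ev (c.hi n) P → EqOn (c'.hi n) (c.hi n) (c'.cell n)) ∧
        (ρ = ev (c.lo n) P → EqOn (c'.lo n) (c.lo n) (c'.cell n)) := by
    intro w ρ hρ hw hne h1 h2
    have ag : Agree (upd P n w) P n := agree_upd w
    have hg : Gen S (upd P n w) (n + 1) := hP.tow.gen.upd (hw.notMem hρ hne)
    have hh : c.Has (n + 1) (upd P n w) := Ctx.has_upd.2 ⟨hP.has, h1, h2⟩
    obtain ⟨E₁, hP₁, e₁⟩ := hc.tower_up n.le_succ hg hh (hP.congr ag.symm)
    obtain ⟨c', E', a1, -, a3, a4, a5, a6⟩ := hM.top hc le_rfl hP₁.tow hh hP₁.vals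
      (hT.image fun χ => ev χ (upd P n w)) (by
        rintro _ ⟨χ, hχ, rfl⟩
        exact (hd χ hχ).2.2 w E₁ hP₁)
    obtain ⟨b1, b2⟩ := hc.keep_end a1 a5 hg a3.has
    rw [ag.dcl_eq, upd_self, ag.ev_eq] at b1 b2
    refine ⟨c', E', a1, (a3.down n.le_succ).congr ag, fun k hk => e₁ k hk ▸ a4 k (by omega), a5,
      fun χ hχ => (a6 _ (mem_image_of_mem _ hχ)).2 χ (hd χ hχ).1
        ((hd χ hχ).2.1.mono (a5 _ le_rfl).1) rfl, fun h => b1 (h ▸ hw), fun h => b2 (h ▸ hw)⟩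
  rcases he with rfl | rfl
  · obtain ⟨c', E', a1, a2, a3, a4, a5, -, a7⟩ := key (ev (c.lo n) P + ε) _ hlo
      (by simpa using hε) (by simpa using h0.ne') (by linarith) (by linarith)
    refine ⟨c', E', c'.hi n, a1.down n.le_succ, a2, a3, a4.down n.le_succ,
      a1.hi_mem n n.lt_succ_self, fun x hx => ?_, fun χ hχ => (a5 χ hχ).mono fun z hz => ?_⟩
    · obtain ⟨b1, b2, b3⟩ := slice_ends a1 a4 hx
      exact ⟨by linarith, b3, (b1.trans_lt b2).ne'⟩
    · obtain ⟨b1, b2, b3⟩ := slice_ends a1 a4 hz.1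
      have := hz.2
      rw [← a7 rfl hz.1, uIoo_of_lt b2] at this
      exact ⟨hz.1, this⟩
  · obtain ⟨c', E', a1, a2, a3, a4, a5, a6, -⟩ := key (ev (c.hi n) P - ε) _ hhi
      (by simpa using hε.neg) (by simpa using h0.ne') (by linarith) (by linarith)
    refine ⟨c', E', c'.lo n, a1.down n.le_succ, a2, a3, a4.down n.le_succ,
      a1.lo_mem n n.lt_succ_self, fun x hx => ?_, fun χ hχ => (a5 χ hχ).mono fun z hz => ?_⟩
    · obtain ⟨b1, b2, b3⟩ := slice_ends a1 a4 hx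
      exact ⟨b1, by linarith, (b2.trans_le b3).ne⟩
    · obtain ⟨b1, b2, b3⟩ := slice_ends a1 a4 hz.1
      have := hz.2
      rw [← a6 rfl hz.1, uIoo_of_gt b2] at this
      exact ⟨hz.1, this⟩

end Pool.Agent.Lib.MP_1a1eb7_lc
end

-- part Pool.Agent.Lib.MP_1a1eb7_lc.LeafFin
section

/-! C8a: the leaf theorems in coordinates. -/

namespace Pool.Agent.Lib.MP_1a1eb7_lc

open Set Filter Topology Pool.Agent.Shared.OMin
open Ordinal (omega0)

variable {S : OStr} {Γ : Sys} {θ θ₁ θ₂ τ : ℕ → Ordinal.{0}} {P Q Z Z' y : ℕ → U} {n m k r N : ℕ}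
  {E E' : ℕ → Fld} {c c' : Ctx} {α β γ : Ordinal.{0}} {K K₀ K₀' K₁ K₂ K' : Fld}

/-- the integrability tensor -/
noncomputable def itg {n : ℕ} (F : ℕ → Fn (n + 1)) (i j : ℕ) : Fn (n + 1) := fun p =>
  pdv (F j) i p + F i p * pdv (F j) n p - (pdv (F i) j p + F j p * pdv (F i) n p)

/-- `f` solves the system at `x` -/
def SolAt {n : ℕ} (F : ℕ → Fn (n + 1)) (f : Fn n) (x : Fin n → ℝ) : Prop :=
  DifferentiableAt ℝ f x ∧ ∀ i < n, pdv f i x = F i (Fin.snoc x (f x))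

theorem leafFin_solAt_iff {F : ℕ → Fn (n + 1)} {f : Fn n} {x : Fin n → ℝ} :
    SolAt F f x ↔ HasFDerivAt f (formOf F (x, f x)) x := by
  constructor
  · rintro ⟨h1, h2⟩
    have : formOf F (x, f x) = fderiv ℝ f x :=
      leafFin_clm_ext fun i hi => by rw [leafFin_form_uv _ hi]; exact (h2 i hi).symm
    rw [this]
    exact h1.hasFDerivAt
  · intro h
    exact ⟨h.differentiableAt, fun i hi => by rw [pdv, h.fderiv, leafFin_form_uv _ hi]⟩

theorem leafFin_integ {F : ℕ → Fn (n + 1)} {p : (Fin n → ℝ) × ℝ}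
    (hF : ∀ i < n, AnalyticAt ℝ (F i) (Fin.snoc p.1 p.2))
    (h : ∀ i < n, ∀ j < n, itg F i j (Fin.snoc p.1 p.2) = 0) : Integ (formOf F) p := by
  have hd := fun i hi => (hF i hi).differentiableAt
  refine leafFin_integ_of_uv fun i hi j hj => ?_
  rw [leafFin_form_fderiv hd hi hj, leafFin_form_fderiv hd hj hi]
  exact sub_eq_zero.1 (h i hi j hj)

theorem itg_of_sol {F : ℕ → Fn (n + 1)} {f : Fn n} {x : Fin n → ℝ}
    (hF : ∀ i < n, AnalyticAt ℝ (F i) (Fin.snoc x (f x))) (hf : ∀ᶠ z in 𝓝 x, SolAt F f z)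
    {i j : ℕ} (hi : i < n) (hj : j < n) : itg F i j (Fin.snoc x (f x)) = 0 := by
  have hd := fun i hi => (hF i hi).differentiableAt
  have h := integ_of_sol (F := formOf F) (leafFin_form_analytic (p := (x, f x)) hF)
    (hf.mono fun z hz => leafFin_solAt_iff.1 hz) (uv n i) (uv n j)
  rw [leafFin_form_fderiv (p := (x, f x)) hd hi hj,
    leafFin_form_fderiv (p := (x, f x)) hd hj hi] at h
  exact sub_eq_zero.2 h

theorem analyticAt_of_solAt {F : ℕ → Fn (n + 1)} {f : Fn n} {x : Fin n → ℝ}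
    (hF : ∀ i < n, AnalyticAt ℝ (F i) (Fin.snoc x (f x))) (hf : ∀ᶠ z in 𝓝 x, SolAt F f z) :
    AnalyticAt ℝ f x :=
  analyticAt_of_sol (F := formOf F) (leafFin_form_analytic (p := (x, f x)) hF)
    (hf.mono fun _ hz => leafFin_solAt_iff.1 hz)

/-- a solution in product form gives a solution in coordinates -/
theorem leafFin_solAt_of_pull {F : ℕ → Fn (n + 2)} {f : (Fin n → ℝ) × ℝ → ℝ}
    {z : Fin (n + 1) → ℝ}
    (h : HasFDerivAt f (leafFin_pull (leafFin_sn n) (formOf F) ((leafFin_sn n).symm z,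
      f ((leafFin_sn n).symm z))) ((leafFin_sn n).symm z)) :
    SolAt F (fun w => f ((leafFin_sn n).symm w)) z := by
  have := leafFin_pull_deriv (e := (leafFin_sn n).symm) h
  rw [leafFin_pull_symm] at this
  exact leafFin_solAt_iff.2 this

theorem leafFin_pull_last {F : ℕ → Fn (n + 2)} (p : ((Fin n → ℝ) × ℝ) × ℝ) :
    leafFin_pull (leafFin_sn n) (formOf F) p (0, 1) =
      F n (Fin.snoc (Fin.snoc p.1.1 p.1.2 : Fin (n + 1) → ℝ) p.2) := by
  have : leafFin_pull (leafFin_sn n) (formOf F) p (0, 1) =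
      formOf F (leafFin_sn n p.1, p.2) (uv (n + 1) n) := by
    rw [← leafFin_snoc_last]; rfl
  rw [this, leafFin_form_uv _ (Nat.lt_succ_self n)]
  rfl

theorem leafFin_fderiv_last {g : Fn (n + 1)} {z : (Fin n → ℝ) × ℝ}
    (h : DifferentiableAt ℝ g (leafFin_sn n z)) :
    fderiv ℝ (fun w => g (leafFin_sn n w)) z (0, 1) = pdv g n (Fin.snoc z.1 z.2) := by
  have h1 : HasFDerivAt (fun w => g (leafFin_sn n w)) _ z :=
    HasFDerivAt.comp (f := leafFin_sn n) z h.hasFDerivAt (leafFin_sn n).hasFDerivAt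
  rw [h1.fderiv, pdv, ← leafFin_snoc_last]
  rfl

theorem leafFin_tri {X Y : Type} {φ : X → ℝ} {ψ : Y → ℝ} {s : Set X} {t : Set Y} (h : Tri φ s)
    (k : Y → X) (hk : ∀ p ∈ t, k p ∈ s ∧ ψ p = φ (k p)) : Tri ψ t := by
  rcases h with h | h | h
  · exact .inl fun p hp => (hk p hp).2 ▸ h _ (hk p hp).1
  · exact .inr (.inl fun p hp => (hk p hp).2 ▸ h _ (hk p hp).1)
  · exact .inr (.inr fun p hp => (hk p hp).2 ▸ h _ (hk p hp).1)

/-- slice_local in coordinates -/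
theorem loc_of_slice {F : ℕ → Fn (n + 2)} {s φ : Fn n} {x : Fin n → ℝ}
    (hF : ∀ i < n + 1, AnalyticAt ℝ (F i)
      (Fin.snoc (Fin.snoc x (s x) : Fin (n + 1) → ℝ) (φ x)))
    (hI : ∀ᶠ p in 𝓝 (Fin.snoc (Fin.snoc x (s x) : Fin (n + 1) → ℝ) (φ x) : Fin (n + 2) → ℝ),
      ∀ i < n + 1, ∀ j < n + 1, itg F i j p = 0)
    (hs : AnalyticAt ℝ s x) (hφ : ∀ᶠ z in 𝓝 x, SolAt (slcF s F) φ z) :
    ∃ f₀ : Fn (n + 1), (∀ᶠ z in 𝓝 (Fin.snoc x (s x) : Fin (n + 1) → ℝ), SolAt F f₀ z) ∧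
      ∀ᶠ z in 𝓝 x, f₀ (Fin.snoc z (s z)) = φ z := by
  have ht : Tendsto (fun p : ((Fin n → ℝ) × ℝ) × ℝ => leafFin_sn (n + 1) (leafFin_sn n p.1, p.2))
      (𝓝 ((x, s x), φ x))
      (𝓝 (Fin.snoc (Fin.snoc x (s x) : Fin (n + 1) → ℝ) (φ x) : Fin (n + 2) → ℝ)) :=
    ((leafFin_sn (n + 1)).continuous.comp (leafFin_up (leafFin_sn n)).continuous).tendsto _
  have ha : ∀ᶠ p in 𝓝 (Fin.snoc (Fin.snoc x (s x) : Fin (n + 1) → ℝ) (φ x) : Fin (n + 2) → ℝ),
      ∀ i < n + 1, AnalyticAt ℝ (F i) p :=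
    (eventually_all_finite (finite_lt_nat (n + 1))).2 fun i hi => (hF i hi).eventually_analyticAt
  obtain ⟨f₀, h1, h2⟩ := slice_local (F := leafFin_pull (leafFin_sn n) (formOf F)) (x := x)
    (c := s) (φ := φ) (leafFin_pull_analytic (leafFin_form_analytic hF))
    (by
      filter_upwards [ht.eventually hI, ht.eventually ha] with p a1 a2
      exact leafFin_pull_integ (leafFin_form_analytic a2).differentiableAt (leafFin_integ a2 a1))
    hs.contDiffAt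
    (by
      filter_upwards [hφ] with z hz
      refine (leafFin_solAt_iff.1 hz).congr_fderiv (Eq.symm (leafFin_clm_ext fun i hi => ?_))
      have : ((leafFin_pull (leafFin_sn n) (formOf F) ((z, s z), φ z)).comp
          ((ContinuousLinearMap.id ℝ _).prod (fderiv ℝ s z))) (uv n i) =
          formOf F (Fin.snoc z (s z), φ z) (Fin.snoc (uv n i) (pdv s i z)) := rfl
      rw [this, leafFin_snoc_uv hi, map_add, map_smul, leafFin_form_uv _ hi,
        leafFin_form_uv _ (hi.trans (Nat.lt_succ_self n)), leafFin_form_uv _ (Nat.lt_succ_self n)]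
      simp [slcF, slc₂, mul_comm])
  refine ⟨fun w => f₀ ((leafFin_sn n).symm w), ?_, h2.mono fun z hz => ?_⟩
  · have hc : Tendsto (leafFin_sn n).symm (𝓝 (Fin.snoc x (s x))) (𝓝 (x, s x)) := by
      have := (leafFin_sn n).symm.continuous.tendsto (Fin.snoc x (s x))
      simpa [leafFin_sn_symm] using this
    filter_upwards [hc.eventually h1] with z hz using leafFin_solAt_of_pull hz
  · simpa [leafFin_sn_symm] using hz

/-- exists_leaf in coordinates, with definability from PfClosed (replace a, b, f by their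
definable versions with DF.indic) -/
theorem leaf_fin (hS : PfClosed S) {V : Set (Fin n → ℝ)} {lo hi s φ : Fn n}
    {g h g' h' : Fn (n + 1)} {F : ℕ → Fn (n + 2)} (hV : IsOpen V) (dV : DP S fun x => x ∈ V)
    (dlo : DF S lo) (dhi : DF S hi) (dg : DF S g) (dh : DF S h) (dF : ∀ i < n + 1, DF S (F i))
    (clo : ContinuousOn lo V) (chi : ContinuousOn hi V)
    (ag : AnalyticOnNhd ℝ g (band V lo hi)) (ah : AnalyticOnNhd ℝ h (band V lo hi))
    (cg : ContinuousOn g' (band V lo hi)) (ch : ContinuousOn h' (band V lo hi))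
    (hlt : ∀ z ∈ band V lo hi, g z < h z ∧ g z < g' z ∧ g' z ≤ h z ∧ g z ≤ h' z ∧ h' z < h z)
    (aF : ∀ i < n + 1, AnalyticOnNhd ℝ (F i) (band (band V lo hi) g h))
    (hI : ∀ p ∈ band (band V lo hi) g h, ∀ i < n + 1, ∀ j < n + 1, itg F i j p = 0)
    (top : Tri (fun p => pdv h n (Fin.init p) - F n p) (strip (band V lo hi) h h'))
    (bot : Tri (fun p => pdv g n (Fin.init p) - F n p) (strip (band V lo hi) g g'))
    (cs : ContinuousOn s V)
    (hm : ∀ x ∈ V, (Fin.snoc (Fin.snoc x (s x) : Fin (n + 1) → ℝ) (φ x) : Fin (n + 2) → ℝ) ∈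
      band (band V lo hi) g h)
    (hloc : ∀ x ∈ V, ∃ f₀ : Fn (n + 1),
      (∀ᶠ z in 𝓝 (Fin.snoc x (s x) : Fin (n + 1) → ℝ), SolAt F f₀ z) ∧
      ∀ᶠ z in 𝓝 x, f₀ (Fin.snoc z (s z)) = φ z) :
    ∃ (a b : Fn n) (f : Fn (n + 1)) (Bp Bm : Set ((Fin (n + 1) → ℝ) × ℝ)), DF S a ∧ DF S b ∧
      Sep S (band V lo hi) g h F (band V a b) f Bp Bm ∧
      (∀ x ∈ V, lo x ≤ a x ∧ a x < s x ∧ s x < b x ∧ b x ≤ hi x ∧ f (Fin.snoc x (s x)) = φ x) ∧
      ∀ x ∈ V, ∀ (s₁ s₂ : ℝ) (f' : Fn (n + 1)), s₁ < s x → s x < s₂ →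
        f' (Fin.snoc x (s x)) = φ x →
        (∀ t ∈ Ioo s₁ s₂, (Fin.snoc (Fin.snoc x t : Fin (n + 1) → ℝ) (f' (Fin.snoc x t)) :
          Fin (n + 2) → ℝ) ∈ band (band V lo hi) g h ∧ SolAt F f' (Fin.snoc x t)) →
        a x ≤ s₁ ∧ s₂ ≤ b x ∧ ∀ t ∈ Ioo s₁ s₂, f' (Fin.snoc x t) = f (Fin.snoc x t) := by
  classical
  let e := leafFin_sn n
  have me : ∀ {u v : Fn n} (z : (Fin n → ℝ) × ℝ), e z ∈ band V u v ↔ z ∈ bnd V u v :=
    fun z => snoc_mem_band
  have me' : ∀ {u v : Fn n} (z : Fin (n + 1) → ℝ), e.symm z ∈ bnd V u v ↔ z ∈ band V u v :=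
    fun z => Iff.rfl
  have mO : ∀ p : ((Fin n → ℝ) × ℝ) × ℝ,
      p ∈ bnd (bnd V lo hi) (fun z => g (e z)) (fun z => h (e z)) ↔
      (Fin.snoc (e p.1) p.2 : Fin (n + 2) → ℝ) ∈ band (band V lo hi) g h := fun p => by
    rw [snoc_mem_band, me]; rfl
  have dA : DP S fun z : (Fin n → ℝ) × ℝ => z ∈ bnd V lo hi := by
    have d1 : DF S fun z : (Fin n → ℝ) × ℝ => z.1 := by fun_prop
    exact (dV.comp d1).and
      ((DP.lt (dlo.comp d1) (by fun_prop)).and (DP.lt (by fun_prop) (dhi.comp d1)))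
  have de : DF S fun p : ((Fin n → ℝ) × ℝ) × ℝ => e p.1 :=
    (DF.clm (e : ((Fin n → ℝ) × ℝ) →L[ℝ] (Fin (n + 1) → ℝ))).comp (by fun_prop)
  have dO : DP S fun p : ((Fin n → ℝ) × ℝ) × ℝ =>
      p ∈ bnd (bnd V lo hi) (fun z => g (e z)) (fun z => h (e z)) :=
    (dA.comp (g := fun p : ((Fin n → ℝ) × ℝ) × ℝ => p.1) (by fun_prop)).and
      ((DP.lt (dg.comp de) (by fun_prop)).and (DP.lt (by fun_prop) (dh.comp de)))
  have H : LeafData V lo hi (fun z => g (e z)) (fun z => h (e z)) (fun z => g' (e z))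
      (fun z => h' (e z)) (leafFin_pull e (formOf F)) :=
    { openV := hV
      clo := clo
      chi := chi
      ag := fun z hz => AnalyticAt.comp (f := e) (ag _ ((me z).2 hz)) (e.analyticAt z)
      ah := fun z hz => AnalyticAt.comp (f := e) (ah _ ((me z).2 hz)) (e.analyticAt z)
      cg' := cg.comp e.continuous.continuousOn fun z hz => (me z).2 hz
      ch' := ch.comp e.continuous.continuousOn fun z hz => (me z).2 hz
      lt := fun z hz =>
        have := hlt _ ((me z).2 hz)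
        ⟨this.2.1, this.2.2.2.2, this.1⟩
      aF := fun p hp => leafFin_pull_analytic
        (leafFin_form_analytic fun i hi => aF i hi _ ((mO p).1 hp))
      int := fun p hp =>
        have a2 := fun i hi => aF i hi _ ((mO p).1 hp)
        leafFin_pull_integ (leafFin_form_analytic a2).differentiableAt
          (leafFin_integ a2 (hI _ ((mO p).1 hp)))
      top := leafFin_tri top (fun p => Fin.snoc (e p.1) p.2) fun p hp => by
        have h1 := (me p.1).2 hp.1.1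
        refine ⟨?_, ?_⟩
        · simp only [strip, mem_ofPred_eq, Fin.init_snoc, Fin.snoc_last]
          exact ⟨h1, mem_uIoo_of_gt hp.2 hp.1.2.2⟩
        · rw [leafFin_fderiv_last (ah _ h1).differentiableAt, leafFin_pull_last, Fin.init_snoc]
          rfl
      bot := leafFin_tri bot (fun p => Fin.snoc (e p.1) p.2) fun p hp => by
        have h1 := (me p.1).2 hp.1.1
        refine ⟨?_, ?_⟩
        · simp only [strip, mem_ofPred_eq, Fin.init_snoc, Fin.snoc_last]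
          exact ⟨h1, mem_uIoo_of_lt hp.1.2.1 hp.2⟩
        · rw [leafFin_fderiv_last (ag _ h1).differentiableAt, leafFin_pull_last, Fin.init_snoc]
          rfl }
  obtain ⟨a, b, f, Bp, Bm, hR, h1, h2, h3, -, -, h4⟩ := H.exists_leaf (c := s) (φ := φ) cs
    (fun x hx => (mO _).2 (hm x hx)) (fun x hx => by
      obtain ⟨f₀, k1, k2⟩ := hloc x hx
      refine ⟨fun z => f₀ (e z), ?_, k2⟩
      filter_upwards [(e.continuous.tendsto (x, s x)).eventually k1] with z hz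
      exact leafFin_pull_deriv (leafFin_solAt_iff.1 hz))
  have dG := hS _ _ _ _ _ _ _ hR dO (leafFin_pull_df (leafFin_form_df dF))
  have dD : DP S fun z : (Fin n → ℝ) × ℝ => z ∈ bnd V a b :=
    (DP.ex (P := fun z w => z ∈ bnd V a b ∧ w = f z) dG).congr fun _ => by simp
  have hfib : ∀ x ∈ V, {t | (x, t) ∈ bnd V a b} = Ioo (a x) (b x) := fun x hx => by
    ext t; simp [bnd, hx]
  have hab : ∀ x ∈ V, a x < b x := fun x hx => (h1 x hx).2.1.trans (h1 x hx).2.2.1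
  let a' : Fn n := fun x => sInf {t | (x, t) ∈ bnd V a b}
  let b' : Fn n := fun x => sSup {t | (x, t) ∈ bnd V a b}
  have ea : ∀ x ∈ V, a' x = a x := fun x hx => by
    simp only [a', hfib x hx, csInf_Ioo (hab x hx)]
  have eb : ∀ x ∈ V, b' x = b x := fun x hx => by
    simp only [b', hfib x hx, csSup_Ioo (hab x hx)]
  have eD : band V a' b' = e.symm ⁻¹' bnd V a b := by
    ext z
    exact and_congr_right fun hz : Fin.init z ∈ V => by rw [ea _ hz, eb _ hz]; rfl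
  have eO : bnd (band V lo hi) g h =
      leafFin_up e.symm ⁻¹' bnd (bnd V lo hi) (fun z => g (e z)) (fun z => h (e z)) := by
    ext p
    simp only [mem_preimage, leafFin_up_apply, bnd, mem_ofPred_eq,
      ContinuousLinearEquiv.apply_symm_apply]
    rfl
  let f₁ : Fn (n + 1) := (e.symm ⁻¹' bnd V a b).indicator fun w => f (e.symm w)
  have ef : EqOn f₁ (fun w => f (e.symm w)) (e.symm ⁻¹' bnd V a b) := fun w hw =>
    indicator_of_mem hw _
  have ef' : ∀ x t, (x, t) ∈ bnd V a b → f₁ (Fin.snoc x t) = f (x, t) := fun x t hx => by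
    have h0 : e.symm (Fin.snoc x t) = (x, t) := e.symm_apply_apply (x, t)
    have := ef (x := Fin.snoc x t) (by rw [mem_preimage, h0]; exact hx)
    simpa only [h0] using this
  have hR' := leafFin_rolle_congr (leafFin_rolle_pull e.symm hR) ef
  rw [leafFin_pull_symm, ← eO] at hR'
  refine ⟨a', b', f₁, leafFin_up e.symm ⁻¹' Bp, leafFin_up e.symm ⁻¹' Bm,
    DF.sInf_fam (A := fun x => {t | (x, t) ∈ bnd V a b}) dD,
    DF.sSup_fam (A := fun x => {t | (x, t) ∈ bnd V a b}) dD, ?_, fun x hx => ?_,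
    fun x hx s₁ s₂ f' k1 k2 k3 k4 => ?_⟩
  · rw [eD]
    refine ⟨hR', dD.clm (e.symm : (Fin (n + 1) → ℝ) →L[ℝ] ((Fin n → ℝ) × ℝ)),
      DF.indic (dG.clm (leafFin_up e.symm)), fun z hz w hw => ?_, fun z hz hz' => ?_⟩
    · rw [eO] at hw
      rw [ef hz]
      exact h2 _ hz w hw
    · rw [eO]
      exact h3 _ hz hz'
  · obtain ⟨k1, k2, k3, k4, k5⟩ := h1 x hx
    rw [ea x hx, eb x hx, ef' x _ ⟨hx, k2, k3⟩]
    exact ⟨k1, k2, k3, k4, k5⟩
  · obtain ⟨l1, l2, l3⟩ := h4 x hx s₁ s₂ (fun t => f' (Fin.snoc x t)) k1 k2 k3 fun t ht =>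
      ⟨(mO _).2 (k4 t ht).1, (leafFin_pull_deriv (e := e) (z := (x, t))
        (leafFin_solAt_iff.1 (k4 t ht).2)).comp_hasDerivAt t (Leaf.hasDerivAt_vert x t)⟩
    rw [ea x hx, eb x hx]
    exact ⟨l1, l2, fun t ht => (l3 t ht).trans
      (ef' x t ⟨hx, l1.trans_lt ht.1, ht.2.trans_le l2⟩).symm⟩

end Pool.Agent.Lib.MP_1a1eb7_lc
end
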