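import Pool.Agent.Lib.MP_1a1eb7_lc.DDefs
import Pool.Agent.Shared.OMin.Cells

/-! D2a: Pfaffian cells and functions are open, connected, analytic and definable. -/

namespace Pool.Agent.Lib.MP_1a1eb7_lc

open Set Filter Topology Pool.Agent.Shared.OMin

variable {S : OStr} {s : Bool} {m d n : ℕ} {A : Set (Fin m → ℝ)} {f g : Fn m}
  {o : Option (Fn m)} {P y : ℕ → U}

theorem Pff.cell (h : Pff s m A o) : Pff s m A none := by
  induction h with
  | point => exact .point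
  | band h1 h2 h3 h4 => exact .band h1 h2 h3 h4
  | const _ h => exact h
  | coord _ h => exact h
  | add _ _ ih => exact ih
  | mul _ _ ih => exact ih
  | alg _ _ _ _ _ _ ih => exact ih 0
  | comp _ _ _ ih => exact ih
  | ode _ h => exact h
  | congr _ _ ih => exact ih

theorem pre1_mem_eband {g h : Option (Fn m)} {x : Fin m → ℝ} {t : ℝ} :
    (Fin.snoc x t : Fin (m + 1) → ℝ) ∈ eband A g h ↔
      x ∈ A ∧ (∀ g' ∈ g, g' x < t) ∧ ∀ h' ∈ h, t < h' x := by
  simp only [eband, mem_ofPred_eq, Fin.init_snoc, Fin.snoc_last]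

theorem pre1_cont_init : Continuous fun z : Fin (m + 1) → ℝ => (Fin.init z : Fin m → ℝ) :=
  continuous_pi fun _ => continuous_apply _

theorem pre1_an_snoc {α : Type} [NormedAddCommGroup α] [NormedSpace ℝ α] {p : α → Fin m → ℝ}
    {q : α → ℝ} {x : α} (hp : AnalyticAt ℝ p x) (hq : AnalyticAt ℝ q x) :
    AnalyticAt ℝ (fun z => (Fin.snoc (p z) (q z) : Fin (m + 1) → ℝ)) x := by
  refine analyticAt_pi_iff.2 fun j => ?_
  refine Fin.lastCases ?_ (fun j => ?_) j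
  · simpa using hq
  · simpa using analyticAt_pi_iff.1 hp j

theorem pre1_cont_snoc :
    Continuous fun p : (Fin m → ℝ) × ℝ => (Fin.snoc p.1 p.2 : Fin (m + 1) → ℝ) :=
  continuous_iff_continuousAt.2 fun _ => (pre1_an_snoc analyticAt_fst analyticAt_snd).continuousAt

theorem pre1_isOpen_eband {g h : Option (Fn m)} (hA : IsOpen A) (hg : ∀ g' ∈ g, ContinuousOn g' A)
    (hh : ∀ h' ∈ h, ContinuousOn h' A) : IsOpen (eband A g h) := by
  refine isOpen_iff_mem_nhds.2 fun z hz => ?_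
  have hi : ContinuousAt (fun z : Fin (m + 1) → ℝ => (Fin.init z : Fin m → ℝ)) z :=
    pre1_cont_init.continuousAt
  have hn := hA.mem_nhds hz.1
  have h1 : ∀ᶠ u in 𝓝 z, (Fin.init u : Fin m → ℝ) ∈ A := hi.eventually hn
  have h2 : ∀ᶠ u in 𝓝 z, ∀ g' ∈ g, g' (Fin.init u) < u (Fin.last m) := by
    cases g with
    | none => simp
    | some g' =>
      have := (((hg g' rfl).continuousAt hn).comp hi).eventually_lt
        (continuous_apply (Fin.last m)).continuousAt (hz.2.1 g' rfl)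
      simpa using this
  have h3 : ∀ᶠ u in 𝓝 z, ∀ h' ∈ h, u (Fin.last m) < h' (Fin.init u) := by
    cases h with
    | none => simp
    | some h' =>
      have := (continuous_apply (Fin.last m)).continuousAt.eventually_lt
        (((hh h' rfl).continuousAt hn).comp hi) (hz.2.2 h' rfl)
      simpa using this
  filter_upwards [h1, h2, h3] with u a b c using ⟨a, b, c⟩

theorem pre1_section {g h : Option (Fn m)} (hg : ∀ g' ∈ g, ContinuousOn g' A)
    (hh : ∀ h' ∈ h, ContinuousOn h' A) (hlt : ∀ g' ∈ g, ∀ h' ∈ h, ∀ x ∈ A, g' x < h' x) :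
    ∃ σ : Fn m, ContinuousOn σ A ∧ ∀ x ∈ A, (∀ g' ∈ g, g' x < σ x) ∧ ∀ h' ∈ h, σ x < h' x := by
  cases g with
  | none =>
    cases h with
    | none => exact ⟨fun _ => 0, continuousOn_const, by simp⟩
    | some h' => exact ⟨fun x => h' x - 1, (hh h' rfl).sub continuousOn_const, by simp⟩
  | some g' =>
    cases h with
    | none => exact ⟨fun x => g' x + 1, (hg g' rfl).add continuousOn_const, by simp⟩
    | some h' =>
      refine ⟨fun x => (g' x + h' x) / 2, ((hg g' rfl).add (hh h' rfl)).div_const 2,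
        fun x hx => ?_⟩
      have := hlt g' rfl h' rfl x hx
      simp only [Option.mem_def, Option.some.injEq, forall_eq']
      constructor <;> linarith

theorem pre1_conn_eband {g h : Option (Fn m)} (hA : IsPreconnected A) (hne : A.Nonempty)
    (hg : ∀ g' ∈ g, ContinuousOn g' A) (hh : ∀ h' ∈ h, ContinuousOn h' A)
    (hlt : ∀ g' ∈ g, ∀ h' ∈ h, ∀ x ∈ A, g' x < h' x) :
    IsPreconnected (eband A g h) ∧ (eband A g h).Nonempty := by
  obtain ⟨σ, cσ, hσ⟩ := pre1_section hg hh hlt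
  obtain ⟨x₀, hx₀⟩ := hne
  refine ⟨isPreconnected_of_forall (Fin.snoc x₀ (σ x₀)) fun z hz => ?_,
    _, pre1_mem_eband.2 ⟨hx₀, hσ x₀ hx₀⟩⟩
  have h1 : IsPreconnected ((fun x => (Fin.snoc x (σ x) : Fin (m + 1) → ℝ)) '' A) :=
    hA.image _ (pre1_cont_snoc.comp_continuousOn (continuousOn_id.prodMk cσ))
  have h2 : IsPreconnected ((fun t => (Fin.snoc (Fin.init z) t : Fin (m + 1) → ℝ)) ''
      uIcc (σ (Fin.init z)) (z (Fin.last m))) :=
    isPreconnected_uIcc.image _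
      fun _ _ => (pre1_an_snoc analyticAt_const analyticAt_id).continuousAt.continuousWithinAt
  have h3 := h1.union _ (mem_image_of_mem _ hz.1) (by exact ⟨_, left_mem_uIcc, rfl⟩) h2
  refine ⟨_, ?_, ?_, ?_, h3⟩
  rotate_left
  · exact .inl ⟨x₀, hx₀, rfl⟩
  · exact .inr ⟨_, right_mem_uIcc, Fin.snoc_init_self z⟩
  rintro _ (⟨x, hx, rfl⟩ | ⟨t, ht, rfl⟩)
  · exact pre1_mem_eband.2 ⟨hx, hσ x hx⟩
  · refine pre1_mem_eband.2 ⟨hz.1, fun g' hg' => ?_, fun h' hh' => ?_⟩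
    · exact (lt_min ((hσ _ hz.1).1 g' hg') (hz.2.1 g' hg')).trans_le ht.1
    · exact ht.2.trans_lt (max_lt ((hσ _ hz.1).2 h' hh') (hz.2.2 h' hh'))

theorem Pff.basic (h : Pff s m A o) :
    IsOpen A ∧ IsPreconnected A ∧ A.Nonempty ∧ ∀ f ∈ o, AnalyticOnNhd ℝ f A := by
  induction h with
  | point => exact ⟨isOpen_univ, isPreconnected_univ, univ_nonempty, by simp⟩
  | band _ _ _ h4 ih ihg ihh =>
    have cg := fun g' hg' => ((ihg g' hg').2.2.2 g' rfl).continuousOn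
    have ch := fun g' hg' => ((ihh g' hg').2.2.2 g' rfl).continuousOn
    have := pre1_conn_eband ih.2.1 ih.2.2.1 cg ch h4
    exact ⟨pre1_isOpen_eband ih.1 cg ch, this.1, this.2, by simp⟩
  | const _ _ ih =>
    refine ⟨ih.1, ih.2.1, ih.2.2.1, ?_⟩
    rintro _ ⟨⟩
    exact analyticOnNhd_const
  | @coord m _ i _ ih =>
    refine ⟨ih.1, ih.2.1, ih.2.2.1, ?_⟩
    rintro _ ⟨⟩ x _
    exact (ContinuousLinearMap.proj (R := ℝ) (φ := fun _ : Fin m => ℝ) i).analyticAt x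
  | add _ _ ih ih' =>
    refine ⟨ih.1, ih.2.1, ih.2.2.1, ?_⟩
    rintro _ ⟨⟩
    exact (ih.2.2.2 _ rfl).add (ih'.2.2.2 _ rfl)
  | mul _ _ ih ih' =>
    refine ⟨ih.1, ih.2.1, ih.2.2.1, ?_⟩
    rintro _ ⟨⟩
    exact (ih.2.2.2 _ rfl).mul (ih'.2.2.2 _ rfl)
  | alg _ _ _ hg _ _ ih =>
    refine ⟨(ih 0).1, (ih 0).2.1, (ih 0).2.2.1, ?_⟩
    rintro _ ⟨⟩
    exact hg
  | @comp _ _ _ _ F _ _ hm ih ih' =>
    refine ⟨ih.1, ih.2.1, ih.2.2.1, ?_⟩
    rintro _ ⟨⟩ x hx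
    exact AnalyticAt.fun_comp (g := F) (ih'.2.2.2 _ rfl _ (hm x hx))
      (pre1_an_snoc analyticAt_id (ih.2.2.2 _ rfl x hx))
  | ode _ _ _ hf _ _ _ ih =>
    refine ⟨ih.1, ih.2.1, ih.2.2.1, ?_⟩
    rintro _ ⟨⟩
    exact hf
  | congr _ e ih =>
    refine ⟨ih.1, ih.2.1, ih.2.2.1, ?_⟩
    rintro _ ⟨⟩
    exact (ih.2.2.2 _ rfl).congr ih.1 e.symm

/-! ### iterated derivatives -/

/-- iterated derivative along a word -/
noncomputable def pre1D : List (Fin m) → Fn m → Fn m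
  | [], φ => φ
  | i :: w, φ => pre1D w (pdv φ i)

variable {φ ψ : Fn m} {x : Fin m → ℝ}

theorem pre1_pdv_an (h : AnalyticAt ℝ φ x) (i : ℕ) : AnalyticAt ℝ (pdv φ i) x :=
  ((ContinuousLinearMap.apply ℝ ℝ (uv m i)).analyticAt _).comp h.fderiv

theorem pre1_pdv_congr (h : φ =ᶠ[𝓝 x] ψ) (i : ℕ) : pdv φ i =ᶠ[𝓝 x] pdv ψ i :=
  (h.fderiv (𝕜 := ℝ)).mono fun _ hz => by simp only [pdv, hz]

theorem pre1D_congr (w : List (Fin m)) : ∀ {φ ψ : Fn m}, φ =ᶠ[𝓝 x] ψ →
    pre1D w φ x = pre1D w ψ x := by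
  induction w with
  | nil => exact fun h => h.self_of_nhds
  | cons i w ih => exact fun h => ih (pre1_pdv_congr h i)

theorem pre1D_lin {ι : Type} (t : Finset ι) (a : ι → ℝ) (w : List (Fin m)) :
    ∀ {φ : ι → Fn m}, (∀ j ∈ t, AnalyticAt ℝ (φ j) x) →
      pre1D w (fun z => ∑ j ∈ t, a j * φ j z) x = ∑ j ∈ t, a j * pre1D w (φ j) x := by
  induction w with
  | nil => exact fun _ => rfl
  | cons i w ih =>
    intro φ h
    refine (pre1D_congr w ?_).trans (ih (φ := fun j => pdv (φ j) i) fun j hj =>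
      pre1_pdv_an (h j hj) i)
    filter_upwards [(eventually_all_finset t).2 fun j hj => (h j hj).eventually_analyticAt]
      with z hz
    have := (HasFDerivAt.fun_sum fun j hj =>
      (hz j hj).differentiableAt.hasFDerivAt.const_mul (a j)).fderiv
    simp only [pdv, this, sum_apply, smul_apply, smul_eq_mul]

theorem pre1D_add (w : List (Fin m)) (h : AnalyticAt ℝ φ x) (h' : AnalyticAt ℝ ψ x) :
    pre1D w (fun z => φ z + ψ z) x = pre1D w φ x + pre1D w ψ x := by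
  have := pre1D_lin (x := x) Finset.univ (fun _ : Bool => 1) w (φ := fun b => cond b φ ψ)
    (by rintro (_ | _) _ <;> assumption)
  simpa using this

theorem pre1D_zero (w : List (Fin m)) : pre1D w (fun _ => 0) x = 0 := by
  simpa using pre1D_lin (x := x) (∅ : Finset Unit) (fun _ => 1) w (φ := fun _ _ => 0) (by simp)

theorem pre1D_mul (w : List (Fin m)) : ∀ {φ ψ : Fn m}, AnalyticAt ℝ φ x → AnalyticAt ℝ ψ x →
    (∀ w' : List (Fin m), w'.length < w.length → pre1D w' φ x = 0) →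
    pre1D w (fun z => φ z * ψ z) x = pre1D w φ x * ψ x := by
  induction w with
  | nil => exact fun _ _ _ => rfl
  | cons i w ih =>
    intro φ ψ h h' h0
    have e : pdv (fun z => φ z * ψ z) i =ᶠ[𝓝 x] fun z => pdv φ i z * ψ z + φ z * pdv ψ i z := by
      filter_upwards [h.eventually_analyticAt, h'.eventually_analyticAt] with z hz hz'
      simp only [pdv, fderiv_fun_mul hz.differentiableAt hz'.differentiableAt,
        add_apply, smul_apply, smul_eq_mul]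
      ring
    refine (pre1D_congr w e).trans ?_
    rw [pre1D_add w ((pre1_pdv_an h i).fun_mul h') (h.fun_mul (pre1_pdv_an h' i)),
      ih (pre1_pdv_an h i) h' fun w' hw => h0 (i :: w') (by simpa using hw),
      ih h (pre1_pdv_an h' i) fun w' hw => h0 w' (by simp; omega), h0 w (by simp), zero_mul,
      add_zero]
    rfl

theorem pre1_fderiv_apply (φ : Fn m) (z v : Fin m → ℝ) :
    fderiv ℝ φ z v = ∑ i : Fin m, v i * pdv φ i z := by
  have : v = ∑ i : Fin m, v i • uv m i := by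
    ext j
    simp [uv, Finset.sum_apply, Fin.val_inj]
  conv_lhs => rw [this, map_sum]
  simp [pdv]

theorem pre1_an_line (y v : Fin m → ℝ) (t : ℝ) : AnalyticAt ℝ (fun t : ℝ => y + t • v) t :=
  analyticAt_const.add (analyticAt_id.smul analyticAt_const)

theorem pre1_line (v : Fin m → ℝ) (j : ℕ) : ∀ {φ : Fn m}, AnalyticAt ℝ φ x →
    (∀ w : List (Fin m), w.length = j → pre1D w φ x = 0) →
    iteratedDeriv j (fun t : ℝ => φ (x + t • v)) 0 = 0 := by
  induction j with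
  | zero => exact fun _ h0 => by simpa [pre1D] using h0 [] rfl
  | succ j ih =>
    intro φ h h0
    have e : deriv (fun t : ℝ => φ (x + t • v)) =ᶠ[𝓝 0]
        fun t => ∑ i : Fin m, v i * pdv φ i (x + t • v) := by
      have h1 : Tendsto (fun t : ℝ => x + t • v) (𝓝 0) (𝓝 x) := by
        simpa using (pre1_an_line x v 0).continuousAt.tendsto
      filter_upwards [h1.eventually h.eventually_analyticAt] with t ht
      have h2 : HasDerivAt (fun t : ℝ => x + t • v) v t := by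
        simpa using ((hasDerivAt_id t).smul_const v).const_add x
      rw [← pre1_fderiv_apply]
      exact (ht.differentiableAt.hasFDerivAt.comp_hasDerivAt t h2).deriv
    rw [iteratedDeriv_succ', e.iteratedDeriv_eq]
    refine ih (φ := fun z => ∑ i : Fin m, v i * pdv φ i z)
      (Finset.analyticAt_fun_sum _ fun i _ => analyticAt_const.mul (pre1_pdv_an h i))
      fun w hw => ?_
    rw [pre1D_lin _ _ _ (φ := fun i : Fin m => pdv φ i) fun i _ => pre1_pdv_an h i]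
    exact Finset.sum_eq_zero fun i _ => mul_eq_zero_of_right _ (h0 (i :: w) (by simp [hw]))

theorem pre1_order {u : ℝ → ℝ} (h : AnalyticAt ℝ u 0) : ∃ k : ℕ,
    Tendsto (fun t => t * deriv u t / u t) (𝓝[>] 0) (𝓝 k) ∧
      (analyticOrderAt u 0 = ⊤ ∨ analyticOrderAt u 0 = k) := by
  by_cases ht : analyticOrderAt u 0 = ⊤
  · refine ⟨0, tendsto_const_nhds.congr' ?_, .inl ht⟩
    filter_upwards [nhdsWithin_le_nhds (analyticOrderAt_eq_top.1 ht)] with t h0
    simp [h0]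
  obtain ⟨k, hk⟩ := ENat.ne_top_iff_exists.1 ht
  refine ⟨k, ?_, .inr hk.symm⟩
  obtain ⟨G, aG, G0, e⟩ := h.analyticOrderAt_eq_natCast.1 hk.symm
  have h1 : Tendsto (fun t => k + t * deriv G t / G t) (𝓝 0) (𝓝 (k + 0 * deriv G 0 / G 0)) :=
    (continuousAt_const.add ((continuousAt_id.mul aG.deriv.continuousAt).div aG.continuousAt
      G0)).tendsto
  rw [zero_mul, zero_div, add_zero] at h1
  refine (h1.mono_left nhdsWithin_le_nhds).congr' ?_
  filter_upwards [nhdsWithin_le_nhds (e.eventually_nhds.and (aG.eventually_analyticAt.and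
    (aG.continuousAt.eventually_ne G0))), self_mem_nhdsWithin] with t ⟨h2, h3, h4⟩ h5
  have h6 : u =ᶠ[𝓝 t] fun z => z ^ k * G z := h2.mono fun z hz => by simpa using hz
  have h7 := ((hasDerivAt_pow k t).fun_mul h3.differentiableAt.hasDerivAt).deriv
  have h8 : t ≠ 0 := ne_of_gt h5
  rw [h6.deriv_eq, h6.self_of_nhds, h7]
  rcases k with _ | k
  · simp
  · simp only [Nat.add_sub_cancel]
    field_simp
    ring

theorem pre1_bound (hA : IsOpen A) (hc : IsPreconnected A) (dA : DP S fun x => x ∈ A)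
    (dφ : DF S φ) (aφ : AnalyticOnNhd ℝ φ A) (hx : x ∈ A) (h0 : φ x ≠ 0) :
    ∃ N : ℕ, ∀ y ∈ A, ∃ w : List (Fin m), w.length ≤ N ∧ pre1D w φ y ≠ 0 := by
  let K : Set ℝ := {r | ∃ p : (Fin m → ℝ) × (Fin m → ℝ), p.1 ∈ A ∧ Tendsto
    (fun t => t * deriv (fun t : ℝ => φ (p.1 + t • p.2)) t / φ (p.1 + t • p.2)) (𝓝[>] 0) (𝓝 r)}
  have au : ∀ y ∈ A, ∀ v, AnalyticAt ℝ (fun t : ℝ => φ (y + t • v)) 0 := fun y hy v =>
    AnalyticAt.fun_comp (g := φ) (by simpa using aφ y hy) (pre1_an_line y v 0)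
  have dK : DP S fun r => r ∈ K := by
    refine DP.ex (DP.and (dA.mem (DF.fst (DF.snd DF.id'))) ?_)
    refine DP.tendsto_nhdsGT (f := fun (z : ℝ × (Fin m → ℝ) × (Fin m → ℝ)) t =>
      t * deriv (fun t : ℝ => φ (z.2.1 + t • z.2.2)) t / φ (z.2.1 + t • z.2.2)) ?_
      (DF.const 0) (DF.fst DF.id')
    refine DF.div (DF.mul (DF.snd DF.id') ?_) (dφ.comp ?_)
    · refine DF.deriv_fam (f := fun (z : (ℝ × (Fin m → ℝ) × (Fin m → ℝ)) × ℝ) t =>
        φ (z.1.2.1 + t • z.1.2.2)) (dφ.comp ?_) (DF.snd DF.id')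
      exact DF.add (DF.fst (DF.snd (DF.fst (DF.fst DF.id'))))
        (DF.smul (DF.snd DF.id') (DF.snd (DF.snd (DF.fst (DF.fst DF.id')))))
    · exact DF.add (DF.fst (DF.snd (DF.fst DF.id')))
        (DF.smul (DF.snd DF.id') (DF.snd (DF.snd (DF.fst DF.id'))))
  have hK : K ⊆ range (Nat.cast : ℕ → ℝ) := by
    rintro r ⟨p, hp, hr⟩
    obtain ⟨k, hk, -⟩ := pre1_order (au p.1 hp p.2)
    exact ⟨k, tendsto_nhds_unique hk hr⟩
  have hfin : K.Finite := by
    by_contra hi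
    have h1 := (dK.interior_nonempty_of_infinite hi).mono (interior_mono hK)
    rw [interior_eq_empty_iff_dense_compl.2 ((countable_range _).dense_compl ℝ)] at h1
    exact not_nonempty_empty h1
  obtain ⟨M, hM⟩ := hfin.bddAbove
  obtain ⟨N, hN⟩ := exists_nat_ge M
  refine ⟨N, fun y hy => ?_⟩
  obtain ⟨ε, hε, hb⟩ := Metric.isOpen_iff.1 hA y hy
  obtain ⟨z, hz, hz0⟩ : ∃ z ∈ Metric.ball y ε, φ z ≠ 0 := by
    by_contra hn
    push Not at hn
    exact h0 (aφ.eqOn_zero_of_preconnected_of_eventuallyEq_zero hc hy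
      (eventually_of_mem (Metric.ball_mem_nhds y hε) hn) hx)
  obtain ⟨k, hk, ho⟩ := pre1_order (au y hy (z - y))
  have hkN : k ≤ N := by exact_mod_cast (hM ⟨(y, z - y), hy, hk⟩).trans hN
  rcases ho with ho | ho
  · have h1 : AnalyticOnNhd ℝ (fun t : ℝ => φ (y + t • (z - y))) (Icc 0 1) := fun t ht =>
      AnalyticAt.fun_comp (g := φ) (aφ _ (hb ((convex_ball y ε).add_smul_sub_mem
        (Metric.mem_ball_self hε) hz ht))) (pre1_an_line y _ t)
    have := h1.eqOn_zero_of_preconnected_of_eventuallyEq_zero isPreconnected_Icc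
      (left_mem_Icc.2 zero_le_one) (analyticOrderAt_eq_top.1 ho) (right_mem_Icc.2 zero_le_one)
    exact absurd (by simpa using this) hz0
  by_contra hn
  push Not at hn
  have := (natCast_le_analyticOrderAt_iff_iteratedDeriv_eq_zero (n := k + 1)
    (au y hy (z - y))).2 fun j hj => pre1_line _ j (aφ y hy) fun w hw => hn w (by omega)
  rw [ho] at this
  exact absurd (by exact_mod_cast this : k + 1 ≤ k) (by omega)

/-- Values of an analytic root are algebraic over the values of the derivatives of the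
coefficients, uniformly. -/
theorem algVal (hA : IsOpen A) (hc : IsPreconnected A) (dA : DP S fun x => x ∈ A)
    {R : Submodule ℝ (Fn m)} (hR : ∀ φ ∈ R, DF S φ ∧ AnalyticOnNhd ℝ φ A ∧
      ∀ i, ∃ ψ ∈ R, EqOn ψ (pdv φ i) A) {k : ℕ} {c : ℕ → Fn m} (hcR : ∀ i, c i ∈ R)
    (hg : AnalyticOnNhd ℝ g A) (h0 : ∀ x ∈ A, ∑ i ∈ Finset.range (k + 1), c i x * g x ^ i = 0)
    (hne : ∃ i ≤ k, ∃ x ∈ A, c i x ≠ 0) :
    ∃ T : Set (ℕ → Fn m), T.Finite ∧ (∀ c' ∈ T, ∀ i, c' i ∈ R) ∧ ∀ x ∈ A, ∃ c' ∈ T,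
      (∃ i ≤ k, c' i x ≠ 0) ∧ ∑ i ∈ Finset.range (k + 1), c' i x * g x ^ i = 0 := by
  have rep : ∀ w : List (Fin m), ∀ φ ∈ R, ∃ ψ ∈ R, EqOn ψ (pre1D w φ) A := by
    intro w
    induction w with
    | nil => exact fun φ h => ⟨φ, h, fun _ _ => rfl⟩
    | cons i w ih =>
      intro φ h
      obtain ⟨ψ, h1, h2⟩ := (hR φ h).2.2 i
      obtain ⟨χ, h3, h4⟩ := ih ψ h1
      exact ⟨χ, h3, fun x hx => (h4 hx).trans
        (pre1D_congr w (eventually_of_mem (hA.mem_nhds hx) h2))⟩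
  choose ρ hρ eρ using fun w i => rep w (c i) (hcR i)
  obtain ⟨j, hj, x₀, hx₀, hj0⟩ := hne
  obtain ⟨N, hN⟩ := pre1_bound hA hc dA (hR _ (hcR j)).1 (hR _ (hcR j)).2.1 hx₀ hj0
  refine ⟨ρ '' {w | w.length ≤ N}, (List.finite_length_le _ N).image _, ?_, fun x hx => ?_⟩
  · rintro _ ⟨w, -, rfl⟩
    exact hρ w
  obtain ⟨w₀, hw₀, hw₀'⟩ := hN x hx
  obtain ⟨w, ⟨i, hi, hw⟩, hmin⟩ := (measure List.length).wf.has_min
    {w : List (Fin m) | ∃ i ≤ k, pre1D w (c i) x ≠ 0} ⟨w₀, j, hj, hw₀'⟩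
  have hle : w.length ≤ w₀.length := not_lt.1 (hmin w₀ ⟨j, hj, hw₀'⟩)
  refine ⟨ρ w, ⟨w, hle.trans hw₀, rfl⟩, ⟨i, hi, by rwa [eρ w i hx]⟩, ?_⟩
  have ac := fun i => (hR _ (hcR i)).2.1 x hx
  have h1 := pre1D_lin (x := x) (Finset.range (k + 1)) (fun _ => 1) w
    (φ := fun i z => c i z * g z ^ i) fun i _ => (ac i).mul ((hg x hx).pow i)
  simp only [one_mul] at h1
  rw [pre1D_congr w (eventually_of_mem (hA.mem_nhds hx) h0), pre1D_zero] at h1
  rw [h1]
  refine Finset.sum_congr rfl fun i hi => ?_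
  rw [eρ w i hx, pre1D_mul w (ac i) ((hg x hx).fun_pow i) fun w' hw' => ?_]
  by_contra hn
  exact hmin w' ⟨i, Nat.lt_succ_iff.1 (Finset.mem_range.1 hi), hn⟩ hw'

theorem pre1_roots {k : ℕ} {a : ℕ → ℝ} (h : ∃ i ≤ k, a i ≠ 0) :
    {t : ℝ | ∑ i ∈ Finset.range (k + 1), a i * t ^ i = 0}.Finite := by
  obtain ⟨j, hj, h0⟩ := h
  have hp : (∑ i ∈ Finset.range (k + 1), Polynomial.monomial i (a i)) ≠ 0 := by
    intro e
    have := congrArg (fun p => Polynomial.coeff p j) e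
    simp [Polynomial.coeff_monomial, hj] at this
    exact h0 this
  refine (Polynomial.finite_setOfPred_isRoot hp).subset fun t ht => ?_
  simpa [Polynomial.eval_finsetSum] using ht

/-- the definable functions that are analytic on `A` -/
def pre1R (S : OStr) (A : Set (Fin m → ℝ)) : Submodule ℝ (Fn m) where
  carrier := {φ | DF S φ ∧ AnalyticOnNhd ℝ φ A}
  add_mem' h h' := ⟨h.1.add h'.1, h.2.add h'.2⟩
  zero_mem' := ⟨DF.const 0, analyticOnNhd_const⟩
  smul_mem' c _ h := ⟨(DF.const c).smul h.1, fun x hx => (h.2 x hx).const_smul⟩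

theorem pre1_dp_alg (hA : IsOpen A) (hc : IsPreconnected A) (dA : DP S fun x => x ∈ A) {k : ℕ}
    {c : ℕ → Fn m} (dc : ∀ i, DF S (c i)) (ac : ∀ i, AnalyticOnNhd ℝ (c i) A)
    (hg : AnalyticOnNhd ℝ g A) (h0 : ∀ x ∈ A, ∑ i ∈ Finset.range (k + 1), c i x * g x ^ i = 0)
    (hne : ∃ i ≤ k, ∃ x ∈ A, c i x ≠ 0) : DF S (A.indicator g) := by
  obtain ⟨T, hT, hR, hx⟩ := algVal hA hc dA (R := pre1R S A) (fun φ h => ⟨h.1, h.2, fun i =>
    ⟨pdv φ i, ⟨h.1.fderiv_one.clm_apply (DF.const _), fun x hx => pre1_pdv_an (h.2 x hx) i⟩,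
      fun _ _ => rfl⟩⟩) (fun i => ⟨dc i, ac i⟩) hg h0 hne
  refine DF.indic (DP.selection (X := fun x t => ∃ c' ∈ T, (∃ i ≤ k, c' i x ≠ 0) ∧
    ∑ i ∈ Finset.range (k + 1), c' i x * t ^ i = 0) ?_ dA hg.continuousOn (fun x _ => ?_) hx)
  · refine DP.finset_or hT fun c' hc' => DP.and ?_ (DP.eq (DF.sum _ fun i _ => ?_) (DF.const 0))
    · exact DP.finset_or (finite_Iic k) fun i _ =>
        DP.ne ((hR c' hc' i).1.comp (DF.fst DF.id')) (DF.const 0)
    · exact ((hR c' hc' i).1.comp (DF.fst DF.id')).mul ((DF.snd DF.id').pow i)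
  · refine (hT.biUnion (t := fun c' => {t : ℝ | (∃ i ≤ k, c' i x ≠ 0) ∧
      ∑ i ∈ Finset.range (k + 1), c' i x * t ^ i = 0}) fun c' _ => ?_).subset fun t ht => ?_
    · by_cases h : ∃ i ≤ k, c' i x ≠ 0
      · exact (pre1_roots (a := fun i => c' i x) h).subset fun _ ht => ht.2
      · simp [h]
    · obtain ⟨c', h1, h2⟩ := ht
      exact mem_iUnion₂.2 ⟨c', h1, h2⟩

theorem pre1_dp_ode (hS : PfClosed S) {B : Set (Fin (m + 1) → ℝ)} (hA : IsOpen A) (hB : IsOpen B)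
    (dA : DP S fun x => x ∈ A) (dB : DP S fun x => x ∈ B) {F : Fin m → Fn (m + 1)}
    (dF : ∀ i, DF S (F i)) (aF : ∀ i, AnalyticOnNhd ℝ (F i) B) (hf : AnalyticOnNhd ℝ f A)
    (hm : ∀ x ∈ A, Fin.snoc x (f x) ∈ B)
    (he : ∀ x ∈ A, ∀ i, fderiv ℝ f x (Pi.single i 1) = F i (Fin.snoc x (f x))) :
    DF S (A.indicator f) := by
  let O : Set ((Fin m → ℝ) × ℝ) := {p | p.1 ∈ A ∧ (Fin.snoc p.1 p.2 : Fin (m + 1) → ℝ) ∈ B}
  have hO : IsOpen O := (hA.preimage continuous_fst).inter (hB.preimage pre1_cont_snoc)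
  have cf : ContinuousOn (fun p : (Fin m → ℝ) × ℝ => p.2 - f p.1) O :=
    continuous_snd.continuousOn.sub
      (hf.continuousOn.comp continuous_fst.continuousOn fun _ h => h.1)
  have dsn : DF S fun p : (Fin m → ℝ) × ℝ => (Fin.snoc p.1 p.2 : Fin (m + 1) → ℝ) :=
    DF.snoc (DF.fst DF.id') (DF.snd DF.id')
  refine DF.indic (hS _ O (fun p => ∑ i : Fin m, F i (Fin.snoc p.1 p.2) •
    ContinuousLinearMap.proj (R := ℝ) (φ := fun _ => ℝ) i) A f
    (O ∩ (fun p => p.2 - f p.1) ⁻¹' Ioi 0) (O ∩ (fun p => p.2 - f p.1) ⁻¹' Iio 0)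
    ⟨hO, ?_, hA, fun x hx => ⟨hx, hm x hx⟩, fun x hx => ?_,
      cf.isOpen_inter_preimage hO isOpen_Ioi, cf.isOpen_inter_preimage hO isOpen_Iio, ?_,
      fun p => ?_, fun x hx => ?_⟩ ((dA.mem (DF.fst DF.id')).and (dB.mem dsn))
    (DF.sum _ fun i _ => ((dF i).comp dsn).smul (DF.const _)))
  · refine ContDiffOn.sum fun i _ p hp => ContDiffAt.contDiffWithinAt ?_
    have : AnalyticAt ℝ (fun p : (Fin m → ℝ) × ℝ => F i (Fin.snoc p.1 p.2)) p :=
      AnalyticAt.fun_comp (g := F i) (aF i _ hp.2) (pre1_an_snoc analyticAt_fst analyticAt_snd)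
    exact this.contDiffAt.smul_const _
  · refine (hf x hx).differentiableAt.hasFDerivAt.congr_fderiv ?_
    ext1 v
    have : ∀ i : Fin m, uv m i = Pi.single i 1 := fun i => by
      ext j
      simp [uv, Pi.single_apply, Fin.val_inj]
    simp [pre1_fderiv_apply, pdv, this, he x hx, mul_comm]
  · exact disjoint_left.2 fun p h h' => lt_asymm (b := p.2 - f p.1) h.2 h'.2
  · simp only [mem_union, mem_inter_iff, mem_preimage, mem_Ioi, mem_Iio, sub_pos, sub_neg]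
    constructor
    · rintro (⟨h, h'⟩ | ⟨h, h'⟩)
      exacts [⟨h, fun e => h'.ne' e.2⟩, ⟨h, fun e => h'.ne e.2⟩]
    · rintro ⟨h, h'⟩
      rcases lt_or_gt_of_ne fun e : p.2 = f p.1 => h' ⟨h.1, e⟩ with h1 | h1
      exacts [.inr ⟨h, h1⟩, .inl ⟨h, h1⟩]
  · filter_upwards [hO.mem_nhds (show (x, f x) ∈ O from ⟨hx, hm x hx⟩)] with p hp
    exact ⟨fun h => ⟨hp, sub_pos.2 h⟩, fun h => ⟨hp, sub_neg.2 h⟩⟩

theorem Pff.dp (hS : PfClosed S) (h : Pff s m A o) :
    (DP S fun x => x ∈ A) ∧ ∀ f ∈ o, ∃ f', DF S f' ∧ EqOn f' f A := by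
  induction h with
  | point => exact ⟨(DP.const True).congr fun _ => by simp, by simp⟩
  | @band m A g h _ _ _ _ ih ihg ihh =>
    refine ⟨?_, by simp⟩
    have h0 : DF S fun z : Fin (m + 1) → ℝ => (Fin.init z : Fin m → ℝ) := DF.init DF.id'
    have h1 : DP S fun z : Fin (m + 1) → ℝ =>
        Fin.init z ∈ A ∧ ∀ g' ∈ g, g' (Fin.init z) < z (Fin.last m) := by
      cases g with
      | none => simpa using ih.1.comp h0
      | some g' =>
        obtain ⟨g'', dg, eg⟩ := (ihg g' rfl).2 g' rfl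
        refine ((ih.1.comp h0).and (DP.lt (dg.comp h0) (DF.apply (Fin.last m)))).congr fun z => ?_
        exact and_congr_right fun hz => by simp [eg hz]
    have h2 : DP S fun z : Fin (m + 1) → ℝ =>
        Fin.init z ∈ A ∧ ∀ h' ∈ h, z (Fin.last m) < h' (Fin.init z) := by
      cases h with
      | none => simpa using ih.1.comp h0
      | some g' =>
        obtain ⟨g'', dg, eg⟩ := (ihh g' rfl).2 g' rfl
        refine ((ih.1.comp h0).and (DP.lt (DF.apply (Fin.last m)) (dg.comp h0))).congr fun z => ?_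
        exact and_congr_right fun hz => by simp [eg hz]
    exact (h1.and h2).congr fun z => ⟨fun h => ⟨⟨h.1, h.2.1⟩, h.1, h.2.2⟩,
      fun h => ⟨h.1.1, h.1.2, h.2.2⟩⟩
  | const c _ ih =>
    refine ⟨ih.1, ?_⟩
    rintro _ ⟨⟩
    exact ⟨_, DF.const c, fun _ _ => rfl⟩
  | coord i _ ih =>
    refine ⟨ih.1, ?_⟩
    rintro _ ⟨⟩
    exact ⟨_, DF.apply i, fun _ _ => rfl⟩
  | add _ _ ih ih' =>
    refine ⟨ih.1, ?_⟩
    rintro _ ⟨⟩
    obtain ⟨f', df, ef⟩ := ih.2 _ rfl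
    obtain ⟨g', dg, eg⟩ := ih'.2 _ rfl
    exact ⟨_, df.add dg, fun x hx => by simp only [ef hx, eg hx]⟩
  | mul _ _ ih ih' =>
    refine ⟨ih.1, ?_⟩
    rintro _ ⟨⟩
    obtain ⟨f', df, ef⟩ := ih.2 _ rfl
    obtain ⟨g', dg, eg⟩ := ih'.2 _ rfl
    exact ⟨_, df.mul dg, fun x hx => by simp only [ef hx, eg hx]⟩
  | @alg m A g n f hf hg h0 hne ih =>
    refine ⟨(ih 0).1, ?_⟩
    rintro _ ⟨⟩
    choose f' df ef using fun i => (ih i).2 _ rfl
    obtain ⟨hA, hc, hn, -⟩ := (hf 0).basic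
    refine ⟨_, pre1_dp_alg hA hc (ih 0).1 (k := n)
      (c := fun j => f' ⟨n - j, Nat.sub_lt_succ n j⟩) (fun j => df _)
      (fun j => ((hf _).basic.2.2.2 _ rfl).congr hA (ef _).symm) hg (fun x hx => ?_)
      ⟨n, le_rfl, ?_⟩, fun x hx => indicator_of_mem hx g⟩
    · rw [← h0 x hx, Finset.sum_range, ← Equiv.sum_comp Fin.revPerm]
      refine Finset.sum_congr rfl fun i _ => ?_
      have h1 : ((Fin.revPerm i : Fin (n + 1)) : ℕ) = n - i := by simp
      have h2 : (⟨n - (n - i), Nat.sub_lt_succ _ _⟩ : Fin (n + 1)) = i :=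
        Fin.ext (by have := i.2; simp only; omega)
      simp only [h1, h2, ef i hx]
    · have h1 : (⟨n - n, Nat.sub_lt_succ _ _⟩ : Fin (n + 1)) = 0 := Fin.ext (by simp)
      simp only [h1]
      obtain ⟨x, hx, h2⟩ : ∃ x ∈ A, f 0 x ≠ 0 := by
        cases s
        · simpa using hne
        · obtain ⟨x, hx⟩ := hn
          exact ⟨x, hx, (by simpa using hne : ∀ x ∈ A, f 0 x ≠ 0) x hx⟩
      exact ⟨x, hx, by rwa [ef 0 hx]⟩
  | comp _ _ hm ih ih' =>
    refine ⟨ih.1, ?_⟩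
    rintro _ ⟨⟩
    obtain ⟨f', df, ef⟩ := ih.2 _ rfl
    obtain ⟨F', dF, eF⟩ := ih'.2 _ rfl
    exact ⟨_, dF.comp (DF.snoc DF.id' df), fun x hx => by simp only [ef hx, eF (hm x hx)]⟩
  | @ode m A B f F hA hB hf hF hm he ih ih' ihF =>
    refine ⟨ih.1, ?_⟩
    rintro _ ⟨⟩
    choose F' dF eF using fun i => (ihF i).2 _ rfl
    exact ⟨_, pre1_dp_ode hS hA.basic.1 hB.basic.1 ih.1 ih'.1 dF
      (fun i => ((hF i).basic.2.2.2 _ rfl).congr hB.basic.1 (eF i).symm) hf hm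
      (fun x hx i => (he x hx i).trans (eF i (hm x hx)).symm), fun x hx => indicator_of_mem hx f⟩
  | congr _ e ih =>
    refine ⟨ih.1, ?_⟩
    rintro _ ⟨⟩
    obtain ⟨f', df, ef⟩ := ih.2 _ rfl
    exact ⟨f', df, ef.trans e.symm⟩

end Pool.Agent.Lib.MP_1a1eb7_lc
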