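import Pool.Agent.Lib.MP_1a1eb7_lc.VSB

/-! D3c: from finite covers to partitions. -/

namespace Pool.Agent.Lib.MP_1a1eb7_lc

open Set Filter Topology Pool.Agent.Shared.OMin

variable {S : OStr} {s : Bool} {m d n : ℕ} {A : Set (Fin m → ℝ)} {f g : Fn m}
  {o : Option (Fn m)} {P y : ℕ → U}

theorem part_tri_iff {X : Type} {φ : X → ℝ} {B : Set X} :
    Tri φ B ↔ ∀ p ∈ B, ∀ q ∈ B, SignType.sign (φ p) = SignType.sign (φ q) := by
  constructor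
  · rintro (h | h | h) p hp q hq
    · rw [sign_pos (h p hp), sign_pos (h q hq)]
    · rw [h p hp, h q hq]
    · rw [sign_neg (h p hp), sign_neg (h q hq)]
  · intro h
    rcases B.eq_empty_or_nonempty with rfl | ⟨q, hq⟩
    · exact Or.inl fun _ hp => hp.elim
    rcases lt_trichotomy 0 (φ q) with e | e | e
    · exact Or.inl fun p hp => sign_eq_one_iff.mp ((h p hp q hq).trans (sign_pos e))
    · exact Or.inr (Or.inl fun p hp => sign_eq_zero_iff.mp (by rw [h p hp q hq, ← e, sign_zero]))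
    · exact Or.inr (Or.inr fun p hp => sign_eq_neg_one_iff.mp ((h p hp q hq).trans (sign_neg e)))

theorem part_tri_le {X : Type} {u v : X → ℝ} {B : Set X} (h : Tri (fun x => u x - v x) B)
    {p q : X} (hp : p ∈ B) (hq : q ∈ B) (e : u p ≤ v p) : u q ≤ v q := by
  rcases h with h | h | h
  · have := h p hp; linarith
  · have := h q hq; linarith
  · have := h q hq; linarith

theorem part_tri_lt {X : Type} {u v : X → ℝ} {B : Set X} (h : Tri (fun x => u x - v x) B)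
    {p q : X} (hp : p ∈ B) (hq : q ∈ B) (e : u p < v p) : u q < v q := by
  rcases h with h | h | h
  · have := h p hp; linarith
  · have := h p hp; linarith
  · have := h q hq; linarith

theorem part_exists_opt {X : Type} {L : Set X} (hL : L.Finite) (u : X → ℝ) :
    ∃ g : Option X, (∀ g' ∈ g, g' ∈ L) ∧ ∀ f ∈ L, ∃ g' ∈ g, u f ≤ u g' := by
  rcases L.eq_empty_or_nonempty with rfl | hne
  · exact ⟨none, by simp, by simp⟩
  · obtain ⟨g, hg, h⟩ := Set.exists_max_image L u hL hne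
    exact ⟨some g, by simpa using hg, fun f hf => ⟨g, rfl, h f hf⟩⟩

theorem part_cmp_mono {𝒯 : Set (Set (Fin m → ℝ) × Fn m)} {Q C : Set (Fin m → ℝ)} (h : Cmp 𝒯 C)
    (hs : Q ⊆ C) : Cmp 𝒯 Q := by
  refine ⟨fun p hp => (h.1 p hp).imp hs.trans (Disjoint.mono_left hs), fun p hp p' hp' h1 h2 => ?_⟩
  refine part_tri_iff.mpr fun x hx x' hx' => ?_
  have k : ∀ q ∈ 𝒯, Q ⊆ q.1 → C ⊆ q.1 := fun q hq h3 =>
    (h.1 q hq).resolve_right fun h4 => Set.disjoint_left.mp h4 (hs hx) (h3 hx)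
  exact part_tri_iff.mp (h.2 p hp p' hp' (k p hp h1) (k p' hp' h2)) x (hs hx) x' (hs hx')

/-- graphs and bands over a cell -/
theorem exists_stack (hA : IsCell VS m A) {T : Set (Fn m)} (hT : T.Finite)
    (hp : ∀ f ∈ T, IsPf VS m A f) (ht : ∀ f ∈ T, ∀ g ∈ T, Tri (fun x => f x - g x) A) :
    ∃ 𝒬 : Set (Set (Fin (m + 1) → ℝ)), 𝒬.Finite ∧ 𝒬.PairwiseDisjoint id ∧
      ⋃₀ 𝒬 = {z : Fin (m + 1) → ℝ | Fin.init z ∈ A} ∧ ∀ Q ∈ 𝒬, IsCell VS (m + 1) Q ∧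
        ∀ f ∈ T, Tri (fun z => z (Fin.last m) - f (Fin.init z)) Q := by
  have := hT.to_subtype
  let sg : (Fin (m + 1) → ℝ) → T → SignType :=
    fun z f => SignType.sign (z (Fin.last m) - f.1 (Fin.init z))
  let F : (T → SignType) → Set (Fin (m + 1) → ℝ) := fun σ => {z | Fin.init z ∈ A ∧ sg z = σ}
  refine ⟨F '' {σ | (F σ).Nonempty}, (Set.toFinite _).image _, ?_, ?_, ?_⟩
  · rintro _ ⟨σ, -, rfl⟩ _ ⟨τ, -, rfl⟩ hne
    exact Set.disjoint_left.mpr fun z h1 h2 => hne (congrArg F (h1.2.symm.trans h2.2))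
  · ext z
    constructor
    · rintro ⟨_, ⟨σ, -, rfl⟩, hz⟩
      exact hz.1
    · exact fun hz => ⟨F (sg z), ⟨sg z, ⟨z, hz, rfl⟩, rfl⟩, hz, rfl⟩
  rintro _ ⟨_, ⟨w, hw, rfl⟩, rfl⟩
  refine ⟨?_, fun f hf => part_tri_iff.mpr fun z hz z' hz' =>
    congrFun (hz.2.trans hz'.2.symm) ⟨f, hf⟩⟩
  by_cases h : ∃ f ∈ T, w (Fin.last m) = f (Fin.init w)
  · obtain ⟨f, hf, e⟩ := h
    convert (hp f hf).graph using 1
    ext z
    refine and_congr_right fun hz => ⟨fun h1 => ?_, fun h1 => funext fun g => ?_⟩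
    · have := congrFun h1 ⟨f, hf⟩
      simp only [sg, e, sub_self, sign_zero, sign_eq_zero_iff] at this
      exact sub_eq_zero.mp this
    · simp only [sg, e, h1]
      exact part_tri_iff.mp (ht f hf g g.2) _ hz _ hw
  push Not at h
  obtain ⟨g, g1, g2⟩ := part_exists_opt (L := {f ∈ T | f (Fin.init w) < w (Fin.last m)})
    (hT.subset (sep_subset _ _)) fun f => f (Fin.init w)
  obtain ⟨k, k1, k2⟩ := part_exists_opt (L := {f ∈ T | w (Fin.last m) < f (Fin.init w)})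
    (hT.subset (sep_subset _ _)) fun f => -f (Fin.init w)
  convert hA.band_cell (fun g' h => hp g' (g1 g' h).1) (fun k' h => hp k' (k1 k' h).1)
    (fun g' h k' h' x hx => part_tri_lt (ht g' (g1 g' h).1 k' (k1 k' h').1) hw hx
      ((g1 g' h).2.trans (k1 k' h').2)) using 1
  ext z
  refine and_congr_right fun hz => ⟨fun h1 => ⟨fun g' h2 => ?_, fun k' h2 => ?_⟩,
    fun h1 => funext fun f => ?_⟩
  · have := congrFun h1 ⟨g', (g1 g' h2).1⟩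
    simp only [sg, sign_pos (sub_pos.mpr (g1 g' h2).2), sign_eq_one_iff] at this
    exact sub_pos.mp this
  · have := congrFun h1 ⟨k', (k1 k' h2).1⟩
    simp only [sg, sign_neg (sub_neg.mpr (k1 k' h2).2), sign_eq_neg_one_iff] at this
    exact sub_neg.mp this
  · rcases (h f f.2).lt_or_gt with e | e
    · obtain ⟨k', h2, h3⟩ := k2 f ⟨f.2, e⟩
      have := part_tri_le (ht k' (k1 k' h2).1 f f.2) hw hz (neg_le_neg_iff.mp h3)
      simp only [sg, sign_neg (sub_neg.mpr e), sign_neg (sub_neg.mpr ((h1.2 k' h2).trans_le this))]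
    · obtain ⟨g', h2, h3⟩ := g2 f ⟨f.2, e⟩
      have := part_tri_le (ht f f.2 g' (g1 g' h2).1) hw hz h3
      simp only [sg, sign_pos (sub_pos.mpr e), sign_pos (sub_pos.mpr (this.trans_lt (h1.1 g' h2)))]

theorem part_data {C : Set (Fin (m + 1) → ℝ)} (h : IsCell VS (m + 1) C) :
    ∃ (A : Set (Fin m → ℝ)) (E : Set (Fn m)), E.Finite ∧ E.Nonempty ∧ (∀ f ∈ E, IsPf VS m A f) ∧
      (∀ z ∈ C, Fin.init z ∈ A) ∧ ∀ z ∈ C, ∀ z' : Fin (m + 1) → ℝ, Fin.init z' ∈ A →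
        (∀ f ∈ E, SignType.sign (z' (Fin.last m) - f (Fin.init z')) =
          SignType.sign (z (Fin.last m) - f (Fin.init z))) → z' ∈ C := by
  obtain ⟨A, hA, ⟨f, hf, rfl⟩ | ⟨g, k, hg, hk, rfl⟩⟩ := h.inv
  · refine ⟨A, {f}, finite_singleton f, singleton_nonempty f, by simpa using hf, fun z hz => hz.1,
      fun z hz z' h1 h2 => ⟨h1, ?_⟩⟩
    have := h2 f rfl
    rwa [hz.2, sub_self, sign_zero, sign_eq_zero_iff, sub_eq_zero] at this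
  · have fin : ∀ o : Option (Fn m), {f | f ∈ o}.Finite := fun o => by
      cases o <;> simp
    refine ⟨A, insert (fun _ => 0) ({f | f ∈ g} ∪ {f | f ∈ k}), ((fin g).union (fin k)).insert _,
      insert_nonempty _ _, ?_, fun z hz => hz.1, fun z hz z' h1 h2 =>
        ⟨h1, fun f hf => ?_, fun f hf => ?_⟩⟩
    · rintro f (rfl | hf | hf)
      exacts [hA.isPf_zero, hg f hf, hk f hf]
    · have := h2 f (Or.inr (Or.inl hf))
      rwa [sign_pos (sub_pos.mpr (hz.2.1 f hf)), sign_eq_one_iff, sub_pos] at this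
    · have := h2 f (Or.inr (Or.inr hf))
      rwa [sign_neg (sub_neg.mpr (hz.2.2 f hf)), sign_eq_neg_one_iff, sub_neg] at this

/-- Induction on m: cover, take the bases and ends of the covering cells (IsCell.inv; add the
pairs (base, 0)), partition the base space, stack over each part; every stack cell meets, hence is contained in, a
covering cell. -/
theorem exists_partition
    (cover : ∀ (m : ℕ) (𝒯 : Set (Set (Fin m → ℝ) × Fn m)), 𝒯.Finite →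
      (∀ p ∈ 𝒯, IsPf (Pff s) m p.1 p.2) → ∃ 𝒬 : Set (Set (Fin m → ℝ)), 𝒬.Finite ∧
        (∀ Q ∈ 𝒬, IsCell VS m Q ∧ Cmp 𝒯 Q) ∧ ⋃₀ 𝒬 = univ)
    (m : ℕ) (𝒯 : Set (Set (Fin m → ℝ) × Fn m)) (hT : 𝒯.Finite)
    (hp : ∀ p ∈ 𝒯, IsPf (Pff s) m p.1 p.2) :
    ∃ 𝒬 : Set (Set (Fin m → ℝ)), 𝒬.Finite ∧ 𝒬.PairwiseDisjoint id ∧
      (∀ Q ∈ 𝒬, IsCell VS m Q ∧ Cmp 𝒯 Q) ∧ ⋃₀ 𝒬 = univ := by
  induction m with
  | zero =>
    refine ⟨{univ}, finite_singleton _, pairwiseDisjoint_singleton _ _, ?_, sUnion_singleton _⟩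
    rintro _ rfl
    refine ⟨⟨0, univ, id, GCell.point, (image_id _).symm⟩, fun p _ => ?_, fun p _ p' _ _ _ =>
      part_tri_iff.mpr fun x _ x' _ => by rw [Subsingleton.elim x x']⟩
    rcases p.1.eq_empty_or_nonempty with e | ⟨x, hx⟩
    · exact Or.inr (e ▸ disjoint_empty _)
    · exact Or.inl fun x' _ => Subsingleton.elim x x' ▸ hx
  | succ m ih =>
    obtain ⟨𝒞, c1, c2, c3⟩ := cover (m + 1) 𝒯 hT hp
    have := c1.to_subtype
    choose A E e1 e2 e3 e4 e5 using fun C : 𝒞 => part_data (c2 C C.2).1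
    let 𝒯' : Set (Set (Fin m → ℝ) × Fn m) := ⋃ C, (fun f => (A C, f)) '' E C
    have t1 : 𝒯'.Finite := finite_iUnion fun C => (e1 C).image _
    have t2 : ∀ p ∈ 𝒯', IsPf VS m p.1 p.2 := fun p h => by
      obtain ⟨C, f, hf, rfl⟩ := mem_iUnion.mp h
      exact e3 C f hf
    obtain ⟨𝒰, p1, p2, p3, p4⟩ := ih 𝒯' t1 fun p h => (t2 p h).toPff s
    have key : ∀ B : 𝒰, ∃ 𝒬 : Set (Set (Fin (m + 1) → ℝ)), 𝒬.Finite ∧ 𝒬.PairwiseDisjoint id ∧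
        ⋃₀ 𝒬 = {z : Fin (m + 1) → ℝ | Fin.init z ∈ B.1} ∧
        ∀ Q ∈ 𝒬, IsCell VS (m + 1) Q ∧ Cmp 𝒯 Q := by
      rintro ⟨B, hB⟩
      obtain ⟨𝒬, q1, q2, q3, q4⟩ := exists_stack (p3 B hB).1
        (T := Prod.snd '' {p ∈ 𝒯' | B ⊆ p.1}) ((t1.subset (sep_subset _ _)).image _) (by
          rintro _ ⟨p, h, rfl⟩
          obtain ⟨d, A₀, ι, h1, rfl⟩ := (p3 B hB).1
          exact ⟨d, A₀, ι, h1, rfl, (t2 p h.1).restrict h1 h.2⟩) (by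
          rintro _ ⟨p, h, rfl⟩ _ ⟨p', h', rfl⟩
          exact (p3 B hB).2.2 p h.1 p' h'.1 h.2 h'.2)
      refine ⟨𝒬, q1, q2, q3, fun Q hQ => ⟨(q4 Q hQ).1, ?_⟩⟩
      obtain ⟨z, hz⟩ := (q4 Q hQ).1.nonempty
      obtain ⟨C, hC, hzC⟩ : z ∈ ⋃₀ 𝒞 := c3 ▸ mem_univ z
      have h1 : ∀ z ∈ Q, Fin.init z ∈ B := fun z hz =>
        (q3.le (mem_sUnion_of_mem hz hQ) : z ∈ {z : Fin (m + 1) → ℝ | Fin.init z ∈ B})
      have h2 : ∀ f ∈ E ⟨C, hC⟩, (A ⟨C, hC⟩, f) ∈ 𝒯' := fun f hf =>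
        mem_iUnion.mpr ⟨⟨C, hC⟩, f, hf, rfl⟩
      obtain ⟨f₀, hf₀⟩ := e2 ⟨C, hC⟩
      have h3 : B ⊆ A ⟨C, hC⟩ := ((p3 B hB).2.1 _ (h2 f₀ hf₀)).resolve_right fun h =>
        Set.disjoint_left.mp h (h1 z hz) (e4 ⟨C, hC⟩ z hzC)
      exact part_cmp_mono (c2 C hC).2 fun z' hz' => e5 ⟨C, hC⟩ z hzC z' (h3 (h1 z' hz'))
        fun f hf => part_tri_iff.mp ((q4 Q hQ).2 f ⟨_, ⟨h2 f hf, h3⟩, rfl⟩) z' hz' z hz
    choose 𝒮 s1 s2 s3 s4 using key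
    have := p1.to_subtype
    have h1 : ∀ B, ∀ Q ∈ 𝒮 B, ∀ z ∈ Q, Fin.init z ∈ B.1 := fun B Q hQ z hz =>
      ((s3 B).le (mem_sUnion_of_mem hz hQ) : z ∈ {z : Fin (m + 1) → ℝ | Fin.init z ∈ B.1})
    refine ⟨⋃ B, 𝒮 B, finite_iUnion s1, fun Q hQ Q' hQ' hne => ?_, fun Q hQ => ?_,
      eq_univ_of_forall fun z => ?_⟩
    · obtain ⟨B, hB⟩ := mem_iUnion.mp hQ
      obtain ⟨B', hB'⟩ := mem_iUnion.mp hQ'
      by_cases e : B = B'
      · exact s2 B hB (e ▸ hB') hne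
      · exact Set.disjoint_left.mpr fun z hz hz' => Set.disjoint_left.mp
          (p2 B.2 B'.2 fun e' => e (Subtype.ext e')) (h1 B Q hB z hz) (h1 B' Q' hB' z hz')
    · obtain ⟨B, hB⟩ := mem_iUnion.mp hQ
      exact s4 B Q hB
    · obtain ⟨B, hB, hz⟩ : Fin.init z ∈ ⋃₀ 𝒰 := p4 ▸ mem_univ _
      obtain ⟨Q, hQ, hz'⟩ := (s3 ⟨B, hB⟩).ge hz
      exact ⟨Q, mem_iUnion.mpr ⟨_, hQ⟩, hz'⟩

theorem zero_set_of_partition
    (part : ∀ (𝒯 : Set (Set (Fin m → ℝ) × Fn m)), 𝒯.Finite →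
      (∀ p ∈ 𝒯, IsPf (Pff s) m p.1 p.2) → ∃ 𝒬 : Set (Set (Fin m → ℝ)), 𝒬.Finite ∧
        𝒬.PairwiseDisjoint id ∧ (∀ Q ∈ 𝒬, IsCell VS m Q ∧ Cmp 𝒯 Q) ∧ ⋃₀ 𝒬 = univ)
    (h : IsPf (Pff s) m A f) : ∃ 𝒞 : Set (Set (Fin m → ℝ)), 𝒞.Finite ∧
      (∀ C ∈ 𝒞, IsCell VS m C) ∧ 𝒞.PairwiseDisjoint id ∧ ⋃₀ 𝒞 = {x ∈ A | f x = 0} := by
  have h0 : IsPf (Pff s) m A fun _ => 0 := by
    obtain ⟨d, A₀, ι, h1, h2, -⟩ := h
    exact ⟨d, A₀, ι, h1, h2, Pff.const 0 h1.pff⟩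
  obtain ⟨𝒬, q1, q2, q3, q4⟩ := part {(A, f), (A, fun _ => 0)} (toFinite _) (by
    rintro _ (rfl | rfl)
    exacts [h, h0])
  refine ⟨{Q ∈ 𝒬 | Q ⊆ {x ∈ A | f x = 0}}, q1.subset (sep_subset _ _), fun Q hQ => (q3 Q hQ.1).1,
    q2.subset (sep_subset _ _), subset_antisymm (sUnion_subset fun Q hQ => hQ.2) fun x hx => ?_⟩
  obtain ⟨Q, hQ, hxQ⟩ : x ∈ ⋃₀ 𝒬 := q4 ▸ mem_univ x
  have h1 : Q ⊆ A := ((q3 Q hQ).2.1 (A, f) (Or.inl rfl)).resolve_right fun h =>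
    Set.disjoint_left.mp h hxQ hx.1
  have h2 := part_tri_iff.mp ((q3 Q hQ).2.2 (A, f) (Or.inl rfl) (A, fun _ => 0) (Or.inr rfl) h1 h1)
  refine ⟨Q, ⟨hQ, fun z hz => ⟨h1 hz, ?_⟩⟩, hxQ⟩
  simpa [hx.2] using h2 z hz x hxQ

end Pool.Agent.Lib.MP_1a1eb7_lc
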