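import Mathlib

/-! Pfaffian cells and Pfaffian functions in the sense of van den Dries. -/

namespace Pool.Agent.Lib.MP_1a1eb7_lc

open Set

/-- The band `(g,h) = {(x,t) | x ∈ A, g x < t < h x}`; `g = none` means `-∞` and `h = none`
means `+∞`. A point of `ℝ^(m+1)` is `Fin.snoc x t`. -/
def eband {m : ℕ} (A : Set (Fin m → ℝ)) (g h : Option ((Fin m → ℝ) → ℝ)) :
    Set (Fin (m + 1) → ℝ) :=
  {z | Fin.init z ∈ A ∧ (∀ g' ∈ g, g' (Fin.init z) < z (Fin.last m)) ∧
    ∀ h' ∈ h, z (Fin.last m) < h' (Fin.init z)}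

/-- The joint inductive definition (P1)-(P6). `Pff s m A none`: `A ⊆ ℝ^m` is an open Pfaffian
cell. `Pff s m A (some f)`: `A` is an open Pfaffian cell and `f` restricted to `A` is a Pfaffian
function on `A`. The point `ℝ^0` is the base cell, so the open cells of `ℝ^1` are the open
intervals (P1). In (P4) the condition `f₀ ≠ 0` is read as `f₀` vanishes nowhere on `A` if
`s = true` and as `f₀` is not identically zero on `A` if `s = false`. -/
inductive Pff (s : Bool) : (m : ℕ) → Set (Fin m → ℝ) → Option ((Fin m → ℝ) → ℝ) → Prop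
  | point : Pff s 0 univ none
  | band {m A g h} : Pff s m A none → (∀ g' ∈ g, Pff s m A (some g')) →
      (∀ h' ∈ h, Pff s m A (some h')) → (∀ g' ∈ g, ∀ h' ∈ h, ∀ x ∈ A, g' x < h' x) →
      Pff s (m + 1) (eband A g h) none
  | const {m A} (c : ℝ) : Pff s m A none → Pff s m A (some fun _ => c)
  | coord {m A} (i : Fin m) : Pff s m A none → Pff s m A (some fun x => x i)
  | add {m A f g} : Pff s m A (some f) → Pff s m A (some g) → Pff s m A (some fun x => f x + g x)
  | mul {m A f g} : Pff s m A (some f) → Pff s m A (some g) → Pff s m A (some fun x => f x * g x)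
  | alg {m A g} (n : ℕ) (f : Fin (n + 1) → (Fin m → ℝ) → ℝ) : (∀ i, Pff s m A (some (f i))) →
      AnalyticOnNhd ℝ g A → (∀ x ∈ A, ∑ i, f i x * g x ^ (n - (i : ℕ)) = 0) →
      (if s then ∀ x ∈ A, f 0 x ≠ 0 else ∃ x ∈ A, f 0 x ≠ 0) → Pff s m A (some g)
  | comp {m A B f F} : Pff s m A (some f) → Pff s (m + 1) B (some F) →
      (∀ x ∈ A, Fin.snoc x (f x) ∈ B) → Pff s m A (some fun x => F (Fin.snoc x (f x)))
  | ode {m A B f} (F : Fin m → (Fin (m + 1) → ℝ) → ℝ) : Pff s m A none → Pff s (m + 1) B none →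
      AnalyticOnNhd ℝ f A → (∀ i, Pff s (m + 1) B (some (F i))) →
      (∀ x ∈ A, Fin.snoc x (f x) ∈ B) →
      (∀ x ∈ A, ∀ i, fderiv ℝ f x (Pi.single i 1) = F i (Fin.snoc x (f x))) → Pff s m A (some f)
  | congr {m A f g} : Pff s m A (some f) → EqOn g f A → Pff s m A (some g)

/-- General cells over a class `Pf` of open cells and functions. `GCell Pf m d A ι`: the cell
`ι '' A ⊆ ℝ^m` is built by graph steps and band steps, `A ⊆ ℝ^d` is the open cell obtained by
deleting the graph coordinates and `ι` is the inverse of that projection. -/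
inductive GCell (Pf : (m : ℕ) → Set (Fin m → ℝ) → Option ((Fin m → ℝ) → ℝ) → Prop) :
    (m d : ℕ) → Set (Fin d → ℝ) → ((Fin d → ℝ) → Fin m → ℝ) → Prop
  | point : GCell Pf 0 0 univ id
  | graph {m d A ι f} : GCell Pf m d A ι → Pf d A (some f) →
      GCell Pf (m + 1) d A fun x => Fin.snoc (ι x) (f x)
  | band {m d A ι g h} : GCell Pf m d A ι → (∀ g' ∈ g, Pf d A (some g')) →
      (∀ h' ∈ h, Pf d A (some h')) → (∀ g' ∈ g, ∀ h' ∈ h, ∀ x ∈ A, g' x < h' x) →
      GCell Pf (m + 1) (d + 1) (eband A g h)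
        fun z => Fin.snoc (ι (Fin.init z)) (z (Fin.last d))

/-- `C ⊆ ℝ^m` is a cell (open or not). -/
def IsCell (Pf : (m : ℕ) → Set (Fin m → ℝ) → Option ((Fin m → ℝ) → ℝ) → Prop) (m : ℕ)
    (C : Set (Fin m → ℝ)) : Prop :=
  ∃ d A ι, GCell Pf m d A ι ∧ C = ι '' A

/-- `C ⊆ ℝ^m` is a cell and `φ` restricted to `C` is a function of the class on `C`: it matches a
function of the class on the open cell `A` under `ι`. -/
def IsPf (Pf : (m : ℕ) → Set (Fin m → ℝ) → Option ((Fin m → ℝ) → ℝ) → Prop) (m : ℕ)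
    (C : Set (Fin m → ℝ)) (φ : (Fin m → ℝ) → ℝ) : Prop :=
  ∃ d A ι, GCell Pf m d A ι ∧ C = ι '' A ∧ Pf d A (some (φ ∘ ι))

end Pool.Agent.Lib.MP_1a1eb7_lc
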