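import Pool.Agent.Lib.MP_1a1eb7_lc.DDefs

/-! D1a: the very strict class: basic closure rules, derivatives, superposition. -/

namespace Pool.Agent.Lib.MP_1a1eb7_lc

open Set Filter Topology Pool.Agent.Shared.OMin

variable {S : OStr} {s : Bool} {m d n : ℕ} {A : Set (Fin m → ℝ)} {f g : Fn m}
  {o : Option (Fn m)} {P y : ℕ → U}

theorem VS.cell (h : VS m A o) : VS m A none := by
  induction h with
  | point => exact .point
  | band h1 h2 h3 h4 _ _ _ => exact .band h1 h2 h3 h4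
  | const c h _ => exact h
  | coord i h _ => exact h
  | add _ _ ih _ => exact ih
  | mul _ _ ih _ => exact ih
  | alg d c _ _ _ _ _ ih => exact ih 0
  | comp _ _ _ ih _ => exact ih
  | ode F h _ _ _ _ _ _ _ _ => exact h
  | congr _ _ ih => exact ih

theorem VS1_an_coord (i : Fin m) (x : Fin m → ℝ) : AnalyticAt ℝ (fun x : Fin m → ℝ => x i) x :=
  (ContinuousLinearMap.proj (R := ℝ) (φ := fun _ : Fin m => ℝ) i).analyticAt x

theorem VS1_an_init (z : Fin (m + 1) → ℝ) :
    AnalyticAt ℝ (fun z : Fin (m + 1) → ℝ => (Fin.init z : Fin m → ℝ)) z :=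
  analyticAt_pi_iff.2 fun i => VS1_an_coord i.castSucc z

theorem VS1_an_snoc {x : Fin m → ℝ} (hf : AnalyticAt ℝ f x) :
    AnalyticAt ℝ (fun x => (Fin.snoc x (f x) : Fin (m + 1) → ℝ)) x := by
  refine analyticAt_pi_iff.2 fun i => ?_
  refine Fin.lastCases ?_ (fun j => ?_) i
  · simpa using hf
  · simp only [Fin.snoc_castSucc]
    exact VS1_an_coord j x

theorem VS1_snoc_mem {g h : Option (Fn m)} {x : Fin m → ℝ} {t : ℝ} :
    (Fin.snoc x t : Fin (m + 1) → ℝ) ∈ eband A g h ↔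
      x ∈ A ∧ (∀ g' ∈ g, g' x < t) ∧ ∀ h' ∈ h, t < h' x := by
  simp [eband]

theorem VS1_isOpen_eband {g h : Option (Fn m)} (hA : IsOpen A)
    (hg : ∀ g' ∈ g, AnalyticOnNhd ℝ g' A) (hh : ∀ h' ∈ h, AnalyticOnNhd ℝ h' A) :
    IsOpen (eband A g h) := by
  rw [isOpen_iff_mem_nhds]
  rintro z ⟨hz, hz1, hz2⟩
  have hi := (VS1_an_init z).continuousAt
  have hl := (VS1_an_coord (Fin.last m) z).continuousAt
  have e0 : ∀ᶠ w in 𝓝 z, (Fin.init w : Fin m → ℝ) ∈ A := hi (hA.mem_nhds hz)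
  have e1 : ∀ᶠ w in 𝓝 z, ∀ g' ∈ g, g' (Fin.init w) < w (Fin.last m) := by
    cases g with
    | none => simp
    | some g =>
      have hc : ContinuousAt (fun w : Fin (m + 1) → ℝ => g (Fin.init w)) z :=
        ContinuousAt.comp (g := g) (hg g rfl _ hz).continuousAt hi
      filter_upwards [hc.eventually_lt hl (hz1 g rfl)] with w hw g' hg'
      cases hg'
      exact hw
  have e2 : ∀ᶠ w in 𝓝 z, ∀ h' ∈ h, w (Fin.last m) < h' (Fin.init w) := by
    cases h with
    | none => simp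
    | some h =>
      have hc : ContinuousAt (fun w : Fin (m + 1) → ℝ => h (Fin.init w)) z :=
        ContinuousAt.comp (g := h) (hh h rfl _ hz).continuousAt hi
      filter_upwards [hl.eventually_lt hc (hz2 h rfl)] with w hw h' hh'
      cases hh'
      exact hw
  filter_upwards [e0, e1, e2] with w h0 h1 h2 using ⟨h0, h1, h2⟩

theorem VS1_exists_between {g h : Option (Fn m)} {x : Fin m → ℝ}
    (hlt : ∀ g' ∈ g, ∀ h' ∈ h, g' x < h' x) : ∃ t, (∀ g' ∈ g, g' x < t) ∧ ∀ h' ∈ h, t < h' x := by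
  cases g with
  | none =>
    cases h with
    | none => simp
    | some h => exact ⟨h x - 1, by simp, by simp⟩
  | some g =>
    cases h with
    | none => exact ⟨g x + 1, by simp, by simp⟩
    | some h =>
      obtain ⟨t, h1, h2⟩ := exists_between (hlt g rfl h rfl)
      exact ⟨t, by simpa using h1, by simpa using h2⟩

theorem VS.basic (h : VS m A o) : IsOpen A ∧ A.Nonempty ∧ ∀ f ∈ o, AnalyticOnNhd ℝ f A := by
  induction h with
  | point => exact ⟨isOpen_univ, univ_nonempty, by simp⟩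
  | band _ _ _ h4 ih ihg ihh =>
    refine ⟨VS1_isOpen_eband ih.1 (fun g' hg' => (ihg g' hg').2.2 _ rfl)
      (fun h' hh' => (ihh h' hh').2.2 _ rfl), ?_, by simp⟩
    obtain ⟨x, hx⟩ := ih.2.1
    obtain ⟨t, h1, h2⟩ := VS1_exists_between (x := x) fun g' hg' h' hh' => h4 g' hg' h' hh' x hx
    exact ⟨_, VS1_snoc_mem.2 ⟨hx, h1, h2⟩⟩
  | const c _ ih =>
    refine ⟨ih.1, ih.2.1, ?_⟩
    rintro _ ⟨⟩
    exact analyticOnNhd_const
  | coord i _ ih =>
    refine ⟨ih.1, ih.2.1, ?_⟩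
    rintro _ ⟨⟩
    exact fun x _ => VS1_an_coord i x
  | add _ _ ih ih' =>
    refine ⟨ih.1, ih.2.1, ?_⟩
    rintro _ ⟨⟩
    exact (ih.2.2 _ rfl).add (ih'.2.2 _ rfl)
  | mul _ _ ih ih' =>
    refine ⟨ih.1, ih.2.1, ?_⟩
    rintro _ ⟨⟩
    exact (ih.2.2 _ rfl).mul (ih'.2.2 _ rfl)
  | alg d c _ ha _ _ _ ih =>
    refine ⟨(ih 0).1, (ih 0).2.1, ?_⟩
    rintro _ ⟨⟩
    exact ha
  | comp _ _ hB ih ih' =>
    refine ⟨ih.1, ih.2.1, ?_⟩
    rintro _ ⟨⟩ x hx
    exact AnalyticAt.comp_of_eq (ih'.2.2 _ rfl _ (hB x hx)) (VS1_an_snoc (ih.2.2 _ rfl x hx)) rfl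
  | ode F _ _ ha _ _ _ ih _ _ =>
    refine ⟨ih.1, ih.2.1, ?_⟩
    rintro _ ⟨⟩
    exact ha
  | congr _ he ih =>
    refine ⟨ih.1, ih.2.1, ?_⟩
    rintro _ ⟨⟩
    exact (ih.2.2 _ rfl).congr ih.1 he.symm

theorem VS1_an (h : VS m A (some f)) : AnalyticOnNhd ℝ f A := h.basic.2.2 f rfl

theorem VS1_uv (i : Fin m) : uv m i = Pi.single i 1 := by
  funext j
  simp [uv, Pi.single_apply, Fin.val_inj]

theorem VS.toPff (h : VS m A o) (s : Bool) : Pff s m A o := by
  induction h with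
  | point => exact .point
  | band _ _ _ h4 ih ihg ihh => exact .band ih ihg ihh h4
  | const c _ ih => exact .const c ih
  | coord i _ ih => exact .coord i ih
  | add _ _ ih ih' => exact .add ih ih'
  | mul _ _ ih ih' => exact .mul ih ih'
  | @alg m A g d c hc ha h0 hd _ ih =>
    refine .alg d (fun i => c (d - i)) (fun i => ih _) ha (fun x hx => ?_) ?_
    · rw [Fin.sum_univ_eq_sum_range (fun i => c (d - i) x * g x ^ (d - i)) (d + 1),
        Finset.sum_flip (fun i => c i x * g x ^ i)]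
      exact h0 x hx
    · cases s with
      | true => simpa using hd
      | false =>
        obtain ⟨x, hx⟩ := (hc 0).basic.2.1
        simpa using ⟨x, hx, hd x hx⟩
  | comp _ _ hB ih ih' => exact .comp ih ih' hB
  | ode F _ _ ha _ hB hF ih ih' ihF =>
    refine .ode (fun i => F i) ih ih' ha (fun i => ihF i i.2) hB fun x hx i => ?_
    rw [← hF x hx i i.2, pdv, VS1_uv]
  | congr _ he ih => exact .congr ih he

theorem VS.inv_band {B : Set (Fin (m + 1) → ℝ)} (h : VS (m + 1) B none) :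
    ∃ A g h, B = eband A g h ∧ VS m A none ∧ (∀ g' ∈ g, VS m A (some g')) ∧
      (∀ h' ∈ h, VS m A (some h')) ∧ ∀ g' ∈ g, ∀ h' ∈ h, ∀ x ∈ A, g' x < h' x := by
  cases h with
  | band h1 h2 h3 h4 => exact ⟨_, _, _, rfl, h1, h2, h3, h4⟩

theorem VS1_sum {ι : Type} (t : Finset ι) {F : ι → Fn m} (hA : VS m A none)
    (h : ∀ i ∈ t, VS m A (some (F i))) : VS m A (some fun x => ∑ i ∈ t, F i x) := by
  classical
  induction t using Finset.induction_on with
  | empty => simpa using VS.const 0 hA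
  | insert a t ha ih =>
    simp only [Finset.sum_insert ha]
    exact (h a (Finset.mem_insert_self _ _)).add
      (ih fun i hi => h i (Finset.mem_insert_of_mem hi))

theorem VS1_pow (h : VS m A (some f)) (k : ℕ) : VS m A (some fun x => f x ^ k) := by
  induction k with
  | zero => simpa using VS.const 1 h.cell
  | succ k ih =>
    simp only [pow_succ]
    exact ih.mul h

theorem VS1_fderiv_sum (G : Fn m) (q v : Fin m → ℝ) :
    fderiv ℝ G q v = ∑ j : Fin m, pdv G j q * v j := by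
  have hv : v = ∑ j : Fin m, v j • uv m j := by
    funext i
    simp [Finset.sum_apply, uv, Fin.val_inj]
  conv_lhs => rw [hv, map_sum]
  simp only [map_smul, smul_eq_mul, pdv, mul_comm]

/-- chain rule -/
theorem VS1_chain {π : (Fin d → ℝ) → Fin m → ℝ} {x : Fin d → ℝ} (hf : AnalyticAt ℝ f (π x))
    (hπ : AnalyticAt ℝ π x) (j : ℕ) :
    pdv (fun x => f (π x)) j x = ∑ i : Fin m, pdv f i (π x) * pdv (fun x => π x i) j x := by
  have h1 := fderiv_comp x hf.differentiableAt hπ.differentiableAt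
  have h2 : pdv (fun x => f (π x)) j x = fderiv ℝ f (π x) (fderiv ℝ π x (uv d j)) := by
    rw [pdv, ← ContinuousLinearMap.comp_apply, ← h1]
    rfl
  rw [h2, VS1_fderiv_sum]
  refine Finset.sum_congr rfl fun i _ => ?_
  congr 1
  rw [pdv, fderiv_apply hπ.differentiableAt]
  rfl

theorem VS1_pdv_coord (i : Fin m) (j : ℕ) :
    pdv (fun x : Fin m → ℝ => x i) j = fun _ => uv m j i := by
  funext x
  rw [pdv]
  have := (ContinuousLinearMap.proj (R := ℝ) (φ := fun _ : Fin m => ℝ) i).fderiv (x := x)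
  exact congrArg (fun L : (Fin m → ℝ) →L[ℝ] ℝ => L (uv m j)) this

/-- an admissible class of substitutions -/
structure VS1Cls (M : (m d : ℕ) → Set (Fin d → ℝ) → ((Fin d → ℝ) → Fin m → ℝ) → Prop) : Prop where
  comp : ∀ {m d A π}, M m d A π → ∀ i, VS d A (some fun x => π x i)
  ext : ∀ {m d A π B}, M m d A π → VS (d + 1) B none → (∀ z ∈ B, Fin.init z ∈ A) →
    M (m + 1) (d + 1) B fun z => Fin.snoc (π (Fin.init z)) (z (Fin.last d))
  der : ∀ {m d A π B}, M m d A π → VS (d + 1) B none → (∀ z ∈ B, Fin.init z ∈ A) → ∀ i j,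
    VS (d + 1) B (some fun z => pdv (fun x => π x i) j (Fin.init z))

/-- the pulled back set -/
def VS1pull (B : Set (Fin (m + 1) → ℝ)) (A' : Set (Fin d → ℝ)) (π : (Fin d → ℝ) → Fin m → ℝ) :
    Set (Fin (d + 1) → ℝ) :=
  {z | Fin.init z ∈ A' ∧ (Fin.snoc (π (Fin.init z)) (z (Fin.last d)) : Fin (m + 1) → ℝ) ∈ B}

/-- the statement for cells -/
def VS1Q (M : (m d : ℕ) → Set (Fin d → ℝ) → ((Fin d → ℝ) → Fin m → ℝ) → Prop) :
    (m : ℕ) → Set (Fin m → ℝ) → Prop
  | 0, _ => True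
  | m + 1, B => ∀ d A' π, M m d A' π → VS d A' none →
      (∀ x ∈ A', ∃ t, (Fin.snoc (π x) t : Fin (m + 1) → ℝ) ∈ B) → VS (d + 1) (VS1pull B A' π) none

theorem VS1_gen {M : (m d : ℕ) → Set (Fin d → ℝ) → ((Fin d → ℝ) → Fin m → ℝ) → Prop}
    (hM : VS1Cls M) (h : VS m A o) : VS1Q M m A ∧ ∀ f ∈ o, ∀ d A' π, M m d A' π → VS d A' none →
      MapsTo π A' A → VS d A' (some fun x => f (π x)) := by
  induction h with
  | point => exact ⟨trivial, by simp⟩
  | @band m A g h _ _ _ h4 ih ihg ihh =>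
    refine ⟨fun d A' π hπ hA' hm => ?_, by simp⟩
    have hm' : MapsTo π A' A := fun x hx => by
      obtain ⟨t, ht⟩ := hm x hx
      exact (VS1_snoc_mem.1 ht).1
    have e : VS1pull (eband A g h) A' π =
        eband A' (g.map fun g' x => g' (π x)) (h.map fun h' x => h' (π x)) := by
      ext z
      simp only [VS1pull, mem_ofPred_eq, VS1_snoc_mem]
      simp only [eband, mem_ofPred_eq, Option.mem_def, Option.map_eq_some_iff, forall_exists_index,
        and_imp, forall_apply_eq_imp_iff₂]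
      exact ⟨fun h => ⟨h.1, h.2.2⟩, fun h => ⟨h.1, hm' h.1, h.2⟩⟩
    rw [e]
    refine .band hA' ?_ ?_ ?_
    · simp only [Option.mem_def, Option.map_eq_some_iff, forall_exists_index, and_imp,
        forall_apply_eq_imp_iff₂]
      exact fun g' hg' => (ihg g' hg').2 _ rfl d A' π hπ hA' hm'
    · simp only [Option.mem_def, Option.map_eq_some_iff, forall_exists_index, and_imp,
        forall_apply_eq_imp_iff₂]
      exact fun h' hh' => (ihh h' hh').2 _ rfl d A' π hπ hA' hm'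
    · simp only [Option.mem_def, Option.map_eq_some_iff, forall_exists_index, and_imp,
        forall_apply_eq_imp_iff₂]
      exact fun g' hg' h' hh' x hx => h4 g' hg' h' hh' _ (hm' hx)
  | const c _ ih =>
    refine ⟨ih.1, ?_⟩
    rintro _ ⟨⟩ d A' π _ hA' _
    exact .const c hA'
  | coord i _ ih =>
    refine ⟨ih.1, ?_⟩
    rintro _ ⟨⟩ d A' π hπ _ _
    exact hM.comp hπ i
  | add _ _ ih ih' =>
    refine ⟨ih.1, ?_⟩
    rintro _ ⟨⟩ d A' π hπ hA' hm
    exact (ih.2 _ rfl d A' π hπ hA' hm).add (ih'.2 _ rfl d A' π hπ hA' hm)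
  | mul _ _ ih ih' =>
    refine ⟨ih.1, ?_⟩
    rintro _ ⟨⟩ d A' π hπ hA' hm
    exact (ih.2 _ rfl d A' π hπ hA' hm).mul (ih'.2 _ rfl d A' π hπ hA' hm)
  | alg k c _ ha h0 hd h1 ih =>
    refine ⟨(ih 0).1, ?_⟩
    rintro _ ⟨⟩ d A' π hπ hA' hm
    have hπa : AnalyticOnNhd ℝ π A' := fun x hx =>
      analyticAt_pi_iff.2 fun i => VS1_an (hM.comp hπ i) x hx
    exact .alg k (fun i x => c i (π x)) (fun i => (ih i).2 _ rfl d A' π hπ hA' hm)
      (ha.comp hπa hm) (fun x hx => h0 _ (hm hx)) (fun x hx => hd _ (hm hx))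
      fun x hx => h1 _ (hm hx)
  | @comp m A B f F _ _ hB ih ih' =>
    refine ⟨ih.1, ?_⟩
    rintro _ ⟨⟩ d A' π hπ hA' hm
    have hB' := ih'.1 d A' π hπ hA' fun x hx => ⟨_, hB _ (hm hx)⟩
    have h1 := ih'.2 _ rfl _ _ _ (hM.ext hπ hB' fun z hz => hz.1) hB' fun z hz => hz.2
    have h2 := VS.comp (ih.2 _ rfl d A' π hπ hA' hm) h1 fun x hx => by
      simpa [VS1pull] using ⟨hx, hB _ (hm hx)⟩
    simpa using h2
  | @ode m A B f F _ _ ha _ hB hF ih ih' ihF =>
    refine ⟨ih.1, ?_⟩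
    rintro _ ⟨⟩ d A' π hπ hA' hm
    have hπa : AnalyticOnNhd ℝ π A' := fun x hx =>
      analyticAt_pi_iff.2 fun i => VS1_an (hM.comp hπ i) x hx
    have hB' := ih'.1 d A' π hπ hA' fun x hx => ⟨_, hB _ (hm hx)⟩
    refine .ode (fun j z => ∑ i : Fin m, F i (Fin.snoc (π (Fin.init z)) (z (Fin.last d))) *
      pdv (fun x => π x i) j (Fin.init z)) hA' hB' (ha.comp hπa hm) (fun j _ => ?_)
      (fun x hx => ?_) fun x hx j _ => ?_
    · refine VS1_sum _ hB' fun i _ => VS.mul ?_ (hM.der hπ hB' (fun z hz => hz.1) i j)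
      exact (ihF i i.2).2 _ rfl _ _ _ (hM.ext hπ hB' fun z hz => hz.1) hB' fun z hz => hz.2
    · simpa [VS1pull] using ⟨hx, hB _ (hm hx)⟩
    · rw [VS1_chain (ha _ (hm hx)) (hπa x hx)]
      refine Finset.sum_congr rfl fun i _ => ?_
      simp [hF _ (hm hx) i i.2]
  | congr _ he ih =>
    refine ⟨ih.1, ?_⟩
    rintro _ ⟨⟩ d A' π hπ hA' hm
    exact (ih.2 _ rfl d A' π hπ hA' hm).congr fun x hx => he (hm hx)

theorem VS1_cls_idx : VS1Cls fun m d A π =>
    VS d A none ∧ ∃ σ : Fin m → Fin d, π = fun x i => x (σ i) where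
  comp := by
    rintro m d A _ ⟨hA, σ, rfl⟩ i
    exact .coord _ hA
  ext := by
    rintro m d A _ B ⟨-, σ, rfl⟩ hB -
    refine ⟨hB, Fin.snoc (fun i => (σ i).castSucc) (Fin.last d), ?_⟩
    funext z i
    refine Fin.lastCases ?_ (fun j => ?_) i
    · simp
    · simp [Fin.init]
  der := by
    rintro m d A _ B ⟨-, σ, rfl⟩ hB - i j
    simp only [VS1_pdv_coord]
    exact .const _ hB

/-- Stage 1. -/
theorem VS.reindex (h : VS m A (some f)) {A' : Set (Fin d → ℝ)} (h' : VS d A' none)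
    (σ : Fin m → Fin d) (hσ : ∀ x ∈ A', (fun i => x (σ i)) ∈ A) :
    VS d A' (some fun x => f fun i => x (σ i)) :=
  (VS1_gen VS1_cls_idx h).2 f rfl d A' _ ⟨h', σ, rfl⟩ h' hσ

theorem VS.restrict (h : VS m A (some f)) {A' : Set (Fin m → ℝ)} (h' : VS m A' none)
    (hs : A' ⊆ A) : VS m A' (some f) :=
  h.reindex h' id hs

theorem VS.lift (h : VS m A (some f)) {B : Set (Fin (m + 1) → ℝ)} (hB : VS (m + 1) B none)
    (hs : ∀ z ∈ B, Fin.init z ∈ A) : VS (m + 1) B (some fun z => f (Fin.init z)) :=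
  h.reindex hB Fin.castSucc hs

theorem VS.neg (h : VS m A (some f)) : VS m A (some fun x => - f x) :=
  ((VS.const (-1) h.cell).mul h).congr fun x _ => by simp

theorem VS.sub (h : VS m A (some f)) (h' : VS m A (some g)) :
    VS m A (some fun x => f x - g x) :=
  (h.add h'.neg).congr fun x _ => by simp [sub_eq_add_neg]

theorem VS.inv (h : VS m A (some f)) (h0 : ∀ x ∈ A, f x ≠ 0) :
    VS m A (some fun x => (f x)⁻¹) := by
  refine .alg 1 (fun i => if i = 0 then fun _ => -1 else f) (fun i => ?_)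
    ((VS1_an h).fun_inv h0) (fun x hx => ?_) (fun x hx => ?_) fun x hx => ?_
  · split_ifs
    · exact .const _ h.cell
    · exact h
  · simp [Finset.sum_range_succ, h0 x hx]
  · simpa using h0 x hx
  · simpa [Finset.sum_range_succ] using h0 x hx

theorem VS.sqrt (h : VS m A (some f)) (h0 : ∀ x ∈ A, 0 < f x) :
    VS m A (some fun x => √(f x)) := by
  refine .alg 2 (fun i => if i = 0 then fun x => - f x else fun _ => if i = 1 then 0 else 1)
    (fun i => ?_) (fun x hx => ?_) (fun x hx => ?_) (fun x hx => ?_) fun x hx => ?_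
  · split_ifs
    · exact h.neg
    · exact .const _ h.cell
    · exact .const _ h.cell
  · exact (((VS1_an h x hx).contDiffAt (n := ⊤)).sqrt (h0 x hx).ne').analyticAt
  · simp [Finset.sum_range_succ, Real.sq_sqrt (h0 x hx).le]
  · simp
  · simp [Finset.sum_range_succ, (Real.sqrt_pos.2 (h0 x hx)).ne']

theorem VS1_pdv_congr {x : Fin m → ℝ} (h : f =ᶠ[𝓝 x] g) (i : ℕ) : pdv f i x = pdv g i x := by
  rw [pdv, pdv, h.fderiv_eq]

theorem VS1_pdv_alg {k : ℕ} {c : ℕ → Fn m} {x : Fin m → ℝ} (hc : ∀ i, AnalyticAt ℝ (c i) x)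
    (hg : AnalyticAt ℝ g x) (j : ℕ) :
    pdv (fun x => ∑ i ∈ Finset.range k, c i x * g x ^ i) j x =
      ∑ i ∈ Finset.range k, pdv (c i) j x * g x ^ i +
        (∑ i ∈ Finset.range k, i * c i x * g x ^ (i - 1)) * pdv g j x := by
  have h1 := HasFDerivAt.fun_sum (u := Finset.range k) fun i _ =>
    (hc i).differentiableAt.hasFDerivAt.fun_mul (hg.differentiableAt.hasFDerivAt.pow i)
  rw [pdv, h1.fderiv, Finset.sum_mul, ← Finset.sum_add_distrib, sum_apply]
  refine Finset.sum_congr rfl fun i _ => ?_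
  simp [pdv]
  ring

theorem VS1_pdv (h : VS m A o) : ∀ f ∈ o, ∀ i, VS m A (some (pdv f i)) := by
  induction h with
  | point => simp
  | band => simp
  | const c h _ =>
    rintro _ ⟨⟩ j
    exact (VS.const 0 h).congr fun x _ => by simp [pdv]
  | coord i h _ =>
    rintro _ ⟨⟩ j
    rw [VS1_pdv_coord]
    exact .const _ h
  | add h h' ih ih' =>
    rintro _ ⟨⟩ j
    refine ((ih _ rfl j).add (ih' _ rfl j)).congr fun x hx => ?_
    simp [pdv, fderiv_fun_add (VS1_an h x hx).differentiableAt (VS1_an h' x hx).differentiableAt]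
  | mul h h' ih ih' =>
    rintro _ ⟨⟩ j
    refine ((h.mul (ih' _ rfl j)).add (h'.mul (ih _ rfl j))).congr fun x hx => ?_
    simp [pdv, fderiv_fun_mul (VS1_an h x hx).differentiableAt (VS1_an h' x hx).differentiableAt]
  | @alg m A g k c hc ha h0 hd h1 ih =>
    rintro _ ⟨⟩ j
    have hA := (hc 0).cell
    have hg : VS m A (some g) := .alg k c hc ha h0 hd h1
    have hN := VS1_sum (Finset.range (k + 1)) hA fun i _ => (ih i _ rfl j).mul (VS1_pow hg i)
    have hD := VS1_sum (Finset.range (k + 1)) hA fun i _ =>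
      ((VS.const (i : ℝ) hA).mul (hc i)).mul (VS1_pow hg (i - 1))
    refine (hN.neg.mul (hD.inv h1)).congr fun x hx => ?_
    have e := VS1_pdv_alg (k := k + 1) (fun i => VS1_an (hc i) x hx) (ha x hx) j
    have e0 : (fun x => ∑ i ∈ Finset.range (k + 1), c i x * g x ^ i) =ᶠ[𝓝 x] fun _ => 0 := by
      filter_upwards [hA.basic.1.mem_nhds hx] with w hw using h0 w hw
    rw [VS1_pdv_congr e0] at e
    have e1 : pdv (fun _ : Fin m → ℝ => (0 : ℝ)) j x = 0 := by simp [pdv]
    have := h1 x hx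
    rw [e1] at e
    field_simp
    linarith
  | @comp m A B f F h h' hB ih ih' =>
    rintro _ ⟨⟩ j
    have hs : ∀ i : Fin (m + 1),
        VS m A (some (pdv (fun x => (Fin.snoc x (f x) : Fin (m + 1) → ℝ) i) j)) := fun i => by
      refine Fin.lastCases ?_ (fun l => ?_) i
      · simpa using ih _ rfl j
      · simp only [Fin.snoc_castSucc, VS1_pdv_coord]
        exact .const _ h.cell
    refine (VS1_sum Finset.univ h.cell fun (i : Fin (m + 1)) _ =>
      (VS.comp h (ih' _ rfl (i : ℕ)) hB).mul (hs i)).congr fun x hx => ?_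
    exact VS1_chain (π := fun x => (Fin.snoc x (f x) : Fin (m + 1) → ℝ)) (VS1_an h' _ (hB x hx))
      (VS1_an_snoc (VS1_an h x hx)) j
  | @ode m A B f F hA hB ha hF hg he _ _ _ =>
    rintro _ ⟨⟩ j
    by_cases hj : j < m
    · exact (VS.comp (.ode F hA hB ha hF hg he) (hF j hj) hg).congr fun x hx => he x hx j hj
    · refine (VS.const 0 hA).congr fun x _ => ?_
      have : uv m j = 0 := by
        funext i
        have := i.2
        simp only [uv, Pi.zero_apply, ite_eq_right_iff]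
        omega
      simp [pdv, this]
  | congr h he ih =>
    rintro _ ⟨⟩ j
    exact (ih _ rfl j).congr fun x hx =>
      VS1_pdv_congr (he.eventuallyEq_of_mem (h.basic.1.mem_nhds hx)) j

/-- Stage 2 -/
theorem VS.pdv (h : VS m A (some f)) (i : ℕ) : VS m A (some (pdv f i)) :=
  VS1_pdv h f rfl i

theorem VS1_cls_all : VS1Cls fun _ d A π => ∀ i, VS d A (some fun x => π x i) where
  comp := fun h => h
  ext := by
    intro m d A π B h hB hs i
    refine Fin.lastCases ?_ (fun j => ?_) i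
    · simpa using VS.coord (Fin.last d) hB
    · simpa using (h j).lift hB hs
  der := fun h hB hs i j => ((h i).pdv j).lift hB hs

/-- Stage 3 -/
theorem VS.superpose (h : VS m A (some f)) {A' : Set (Fin d → ℝ)} (h' : VS d A' none)
    {π : (Fin d → ℝ) → Fin m → ℝ} (hπ : ∀ i, VS d A' (some fun x => π x i))
    (hm : MapsTo π A' A) : VS d A' (some fun x => f (π x)) :=
  (VS1_gen VS1_cls_all h).2 f rfl d A' π hπ h' hm

end Pool.Agent.Lib.MP_1a1eb7_lc
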